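import Pool.Agent.H98.MK.Defs

/-!
# Project MK, row G0 (helper89): fixed fields of open subgroups of `Gal(Qbar/Q)`.
-/

set_option autoImplicit false

open scoped BigOperators

namespace Pool.Agent.H98.MK

instance om_galois : IsGalois ℚ Om := by
  have h2 : @IsGalois ℚ _ (AlgebraicClosure ℚ) _ (AlgebraicClosure.instAlgebra ℚ) := by
    let _ := (AlgebraicClosure.instAlgebra ℚ : Algebra ℚ (AlgebraicClosure ℚ))
    exact IsAlgClosure.isGalois ℚ (AlgebraicClosure ℚ)
  have e : (AlgebraicClosure.instAlgebra ℚ : Algebra ℚ (AlgebraicClosure ℚ)) =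
      (inferInstance : Algebra ℚ Om) := Subsingleton.elim _ _
  rw [e] at h2
  exact h2

theorem fld_fixing (U : Subgroup Gam) (hU : IsOpen (U : Set Gam)) :
    (fld U).fixingSubgroup = U :=
  InfiniteGalois.fixingSubgroup_fixedField ⟨U, Subgroup.isClosed_of_isOpen U hU⟩

theorem fld_finite (U : Subgroup Gam) (hU : IsOpen (U : Set Gam)) :
    FiniteDimensional ℚ (fld U) := by
  refine (InfiniteGalois.isOpen_iff_finite (fld U)).1 ?_
  rw [fld_fixing U hU]
  exact hU

theorem fld_finrank (U : Subgroup Gam) (hU : IsOpen (U : Set Gam)) :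
    Module.finrank ℚ (fld U) = U.index := by
  have h := IntermediateField.finrank_eq_fixingSubgroup_index Om (fld U)
  rwa [fld_fixing U hU] at h

theorem fld_galois (U : Subgroup Gam) [U.Normal] (hU : IsOpen (U : Set Gam)) :
    IsGalois ℚ (fld U) := by
  refine (InfiniteGalois.normal_iff_isGalois (fld U)).1 ?_
  rw [fld_fixing U hU]
  infer_instance

theorem fld_mono {U W : Subgroup Gam} (h : U ≤ W) : fld W ≤ fld U := by
  intro x hx
  exact (IntermediateField.mem_fixedField_iff U x).2 fun f hf =>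
    (IntermediateField.mem_fixedField_iff W x).1 hx f (h hf)

theorem dabs_pos (U : Subgroup Gam) (hU : IsOpen (U : Set Gam)) : 0 < dabs (fld U) := by
  have := fld_finite U hU
  have h : NumberField (fld U) := { to_charZero := inferInstance, to_finiteDimensional := this }
  unfold dabs
  rw [dif_pos h]
  exact Int.natAbs_pos.2 (@NumberField.discr_ne_zero _ _ h)

theorem dabs_top : dabs (fld ⊤) = 1 := by
  have h0 : fld ⊤ = ⊥ := InfiniteGalois.fixedField_bot
  have h1 : NumberField (⊥ : IntermediateField ℚ Om) :=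
    { to_charZero := inferInstance, to_finiteDimensional := inferInstance }
  rw [h0]
  unfold dabs
  rw [dif_pos h1]
  have h2 := NumberField.discr_eq_discr_of_algEquiv (⊥ : IntermediateField ℚ Om)
    (IntermediateField.botEquiv ℚ Om)
  rw [Rat.numberField_discr] at h2
  rw [h2]
  rfl

/-- surjection to the finite level -/
theorem exists_res (U : Subgroup Gam) [U.Normal] (hU : IsOpen (U : Set Gam)) :
    ∃ π : Gam →* ((fld U) ≃ₐ[ℚ] (fld U)), Function.Surjective π ∧ π.ker = U ∧
      ∀ (σ : Gam) (x : fld U), ((π σ x : fld U) : Om) = σ (x : Om) := by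
  have := fld_galois U hU
  have hc : ∀ (σ : Gam) (x : fld U),
      ((AlgEquiv.restrictNormalHom (fld U) σ x : fld U) : Om) = σ (x : Om) :=
    fun σ x => AlgEquiv.restrictNormal_commutes σ (fld U) x
  refine ⟨AlgEquiv.restrictNormalHom (fld U), AlgEquiv.restrictNormalHom_surjective Om, ?_, hc⟩
  conv_rhs => rw [← fld_fixing U hU]
  ext σ
  rw [MonoidHom.mem_ker, IntermediateField.mem_fixingSubgroup_iff]
  constructor
  · intro h x hx
    have h1 := hc σ ⟨x, hx⟩
    rw [h] at h1
    exact h1.symm
  · intro h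
    apply AlgEquiv.ext
    intro x
    apply Subtype.ext
    rw [hc σ x, h x x.2]
    rfl

theorem ker_open {H : Type} [Group H] (ρ : Gam →* H) (h : IsLocallyConstant ρ) :
    IsOpen (ρ.ker : Set Gam) := h {1}

theorem lc_of_ker_open {H : Type} [Group H] (ρ : Gam →* H) (h : IsOpen (ρ.ker : Set Gam)) :
    IsLocallyConstant ρ := by
  rw [IsLocallyConstant.iff_exists_open]
  intro x
  refine ⟨(fun y => x⁻¹ * y) ⁻¹' (ρ.ker : Set Gam), h.preimage (continuous_const_mul x⁻¹), ?_, ?_⟩
  · simp
  · intro y hy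
    have h1 : x⁻¹ * y ∈ ρ.ker := hy
    rw [MonoidHom.mem_ker, map_mul, map_inv, inv_mul_eq_one] at h1
    exact h1.symm

end Pool.Agent.H98.MK
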