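import Pool.Agent.H98.MK.NDefs

/-!
# Project MK, row N1: orthogonality of signs and expansion of a product (helper78)
-/

set_option autoImplicit false

open scoped BigOperators
open Filter

namespace Pool.Agent.H98.MK

theorem ss_add : ∀ a b : ZMod 2, sg (a + b) = sg a * sg b := by decide

theorem ss_two : ∀ x : ZMod 2, ∑ t : ZMod 2, sg (t * x) = if x = 0 then 2 else 0 := by decide

theorem ss_sum {ι : Type*} (s : Finset ι) (f : ι → ZMod 2) :
    sg (∑ i ∈ s, f i) = ∏ i ∈ s, sg (f i) := by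
  classical
  induction s using Finset.induction_on with
  | empty => simp [sg]
  | insert a s ha ih => rw [Finset.sum_insert ha, Finset.prod_insert ha, ss_add, ih]

theorem sum_sg {s : ℕ} (X : Fin s → ZMod 2) :
    ∑ ζ : Fin s → ZMod 2, sg (ζ ⬝ᵥ X) = if X = 0 then 2 ^ s else 0 := by
  have h1 : ∑ ζ : Fin s → ZMod 2, sg (ζ ⬝ᵥ X) =
      ∏ i : Fin s, ∑ t : ZMod 2, sg (t * X i) := by
    rw [Finset.prod_univ_sum, Fintype.piFinset_univ]
    refine Finset.sum_congr rfl fun ζ _ => ?_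
    rw [dotProduct, ss_sum]
  rw [h1]
  simp only [ss_two]
  by_cases hX : X = 0
  · subst hX
    simp
  · rw [if_neg hX]
    obtain ⟨i, hi⟩ := Function.ne_iff.1 hX
    exact Finset.prod_eq_zero (Finset.mem_univ i) (if_neg hi)

/-- The primes with value `ζ`. -/
noncomputable def ssA {κ : Type} [DecidableEq κ] {P : Finset ℕ} (φ : P → κ) (ζ : κ) : Finset ℕ :=
  (Finset.univ.filter fun i : P => φ i = ζ).map (Function.Embedding.subtype _)

theorem mem_ssA {κ : Type} [DecidableEq κ] {P : Finset ℕ} (φ : P → κ) (ζ : κ) (p : ℕ) :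
    p ∈ ssA φ ζ ↔ ∃ h : p ∈ P, φ ⟨p, h⟩ = ζ := by
  unfold ssA
  rw [Finset.mem_map]
  constructor
  · rintro ⟨i, hi, rfl⟩
    exact ⟨i.2, (Finset.mem_filter.1 hi).2⟩
  · rintro ⟨h, h2⟩
    exact ⟨⟨p, h⟩, Finset.mem_filter.2 ⟨Finset.mem_univ _, h2⟩, rfl⟩

theorem prod_ssA {κ : Type} [Fintype κ] [DecidableEq κ] {P : Finset ℕ} (φ : P → κ) {M : Type*}
    [CommMonoid M] (F : ℕ → κ → M) :
    ∏ ζ, ∏ p ∈ ssA φ ζ, F p ζ = ∏ i : P, F i (φ i) := by
  rw [← Finset.prod_fiberwise Finset.univ φ]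
  refine Finset.prod_congr rfl fun ζ _ => ?_
  unfold ssA
  rw [Finset.prod_map]
  refine Finset.prod_congr rfl fun i hi => ?_
  rw [(Finset.mem_filter.1 hi).2]
  rfl

theorem prod_sum_sqfree {κ : Type} [Fintype κ] [DecidableEq κ] (m : ℕ) (hm : Squarefree m)
    (F : ℕ → κ → ℤ) :
    ∏ p ∈ m.primeFactors, ∑ ζ : κ, F p ζ =
      ∑ d ∈ (Fintype.piFinset (fun _ : κ => m.divisors)).filter (fun d => ∏ ζ, d ζ = m),
        ∏ ζ, ∏ p ∈ (d ζ).primeFactors, F p ζ := by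
  have hm0 : m ≠ 0 := hm.ne_zero
  have hmP : ∏ i : m.primeFactors, (i : ℕ) = m := by
    rw [Finset.prod_coe_sort m.primeFactors (fun i => i)]
    exact Nat.prod_primeFactors_of_squarefree hm
  rw [← Finset.prod_coe_sort, Finset.prod_univ_sum, Fintype.piFinset_univ]
  have hprime : ∀ (φ : m.primeFactors → κ) (ζ : κ), ∀ p ∈ ssA φ ζ, p.Prime := by
    intro φ ζ p hp
    obtain ⟨h, -⟩ := (mem_ssA φ ζ p).1 hp
    exact Nat.prime_of_mem_primeFactors h
  have hpf : ∀ (φ : m.primeFactors → κ) (ζ : κ),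
      (∏ p ∈ ssA φ ζ, p).primeFactors = ssA φ ζ := fun φ ζ =>
    Nat.primeFactors_prod (hprime φ ζ)
  have hprod : ∀ φ : m.primeFactors → κ, ∏ ζ, ∏ p ∈ ssA φ ζ, p = m := fun φ =>
    (prod_ssA φ (fun p _ => p)).trans hmP
  refine Finset.sum_bij (fun (φ : m.primeFactors → κ) _ ζ => ∏ p ∈ ssA φ ζ, p) ?_ ?_ ?_ ?_
  · intro φ _
    rw [Finset.mem_filter, Fintype.mem_piFinset]
    refine ⟨fun ζ => Nat.mem_divisors.2 ⟨?_, hm0⟩, hprod φ⟩
    conv_rhs => rw [← hprod φ]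
    exact Finset.dvd_prod_of_mem (fun ζ => ∏ p ∈ ssA φ ζ, p) (Finset.mem_univ ζ)
  · intro φ _ ψ _ h
    funext i
    have h1 : ssA φ (φ i) = ssA ψ (φ i) := by
      rw [← hpf φ, ← hpf ψ]
      exact congrArg Nat.primeFactors (congrFun h (φ i))
    have h2 : (i : ℕ) ∈ ssA φ (φ i) := (mem_ssA φ _ _).2 ⟨i.2, rfl⟩
    rw [h1] at h2
    obtain ⟨_, h3⟩ := (mem_ssA ψ _ _).1 h2
    exact h3.symm
  · intro d hd
    rw [Finset.mem_filter, Fintype.mem_piFinset] at hd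
    obtain ⟨hd1, hd2⟩ := hd
    have hex : ∀ i : m.primeFactors, ∃ ζ : κ, (i : ℕ) ∣ d ζ := by
      intro i
      have hp := Nat.prime_of_mem_primeFactors i.2
      have h1 : (i : ℕ) ∣ ∏ ζ, d ζ := by
        rw [hd2]
        exact Nat.dvd_of_mem_primeFactors i.2
      obtain ⟨ζ, -, hζ⟩ := (Prime.dvd_finset_prod_iff hp.prime _).1 h1
      exact ⟨ζ, hζ⟩
    choose φ hφ using hex
    have huniq : ∀ (p : ℕ) (ζ ζ' : κ), p.Prime → p ∣ d ζ → p ∣ d ζ' → ζ = ζ' := by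
      intro p ζ ζ' hp h1 h2
      by_contra hne
      have h3 : p * p ∣ m := by
        rw [← hd2, ← Finset.mul_prod_erase Finset.univ d (Finset.mem_univ ζ)]
        refine mul_dvd_mul h1 (h2.trans (Finset.dvd_prod_of_mem d ?_))
        exact Finset.mem_erase.2 ⟨fun h => hne h.symm, Finset.mem_univ _⟩
      exact hp.one_lt.ne' (Nat.isUnit_iff.1 (hm p h3))
    refine ⟨φ, Finset.mem_univ _, ?_⟩
    funext ζ
    have hdvd : d ζ ∣ m := Nat.dvd_of_mem_divisors (hd1 ζ)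
    have hsq : Squarefree (d ζ) := hm.squarefree_of_dvd hdvd
    have h4 : ssA φ ζ = (d ζ).primeFactors := by
      ext p
      rw [mem_ssA]
      constructor
      · rintro ⟨h, rfl⟩
        exact Nat.mem_primeFactors.2 ⟨Nat.prime_of_mem_primeFactors h, hφ ⟨p, h⟩, hsq.ne_zero⟩
      · intro h0
        obtain ⟨hp, h5, -⟩ := Nat.mem_primeFactors.1 h0
        have h6 : p ∈ m.primeFactors := Nat.mem_primeFactors.2 ⟨hp, h5.trans hdvd, hm0⟩
        exact ⟨h6, huniq p _ _ hp (hφ ⟨p, h6⟩) h5⟩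
    show ∏ p ∈ ssA φ ζ, p = d ζ
    rw [h4]
    exact Nat.prod_primeFactors_of_squarefree hsq
  · intro φ _
    have h1 : ∀ ζ, ∏ p ∈ (∏ p ∈ ssA φ ζ, p).primeFactors, F p ζ = ∏ p ∈ ssA φ ζ, F p ζ :=
      fun ζ => by rw [hpf]
    simp only [h1]
    exact (prod_ssA φ F).symm

end Pool.Agent.H98.MK
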