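import Pool.Agent.H98.MK.ChiBasic

/-!
# Project MK, row P2: quadratic extensions and prime discriminants
-/

set_option autoImplicit false

open scoped BigOperators

namespace Pool.Agent.H98.MK

/-! ### quadratic extensions -/

private theorem p2_gal : IsGalois ℚ Om := by
  have h1 : Algebra.IsAlgebraic ℚ Om := by
    have e : (DivisionRing.toRatAlgebra : Algebra ℚ Om) = AlgebraicClosure.instAlgebra ℚ :=
      Subsingleton.elim _ _
    rw [e]
    exact AlgebraicClosure.isAlgebraic ℚ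
  have h2 : IsAlgClosure ℚ Om := ⟨inferInstance, h1⟩
  infer_instance

private theorem p2_two (x : ZMod 2) : x + x = 0 := CharTwo.add_self_eq_zero x

private theorem p2_cases (x : ZMod 2) : x = 0 ∨ x = 1 := by
  revert x
  decide

/-- the kernel of an additive function -/
private def p2_ker (f : Gam → ZMod 2) (ha : ∀ σ τ, f (σ * τ) = f σ + f τ) : Subgroup Gam where
  carrier := {σ | f σ = 0}
  mul_mem' := by
    intro a b h1 h2
    simp only [Set.mem_ofPred_eq] at h1 h2 ⊢
    rw [ha, h1, h2, add_zero]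
  one_mem' := by
    have h := ha 1 1
    rw [mul_one] at h
    simp only [Set.mem_ofPred_eq]
    exact (add_eq_left.mp h.symm)
  inv_mem' := by
    intro a h1
    simp only [Set.mem_ofPred_eq] at h1 ⊢
    have h := ha 1 1
    rw [mul_one] at h
    have h0 : f 1 = 0 := add_eq_left.mp h.symm
    have h2 := ha a a⁻¹
    rw [mul_inv_cancel, h0, h1, zero_add] at h2
    exact h2.symm

/-- quadratic extensions -/
theorem exists_chi (f : Gam → ZMod 2) (hf : IsLocallyConstant f)
    (ha : ∀ σ τ, f (σ * τ) = f σ + f τ) : ∃ d : ℚ, d ≠ 0 ∧ f = chi d := by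
  classical
  by_cases h0 : ∀ σ, f σ = 0
  · refine ⟨1, one_ne_zero, ?_⟩
    funext σ
    have h1 := chi_sq 1 σ
    rw [one_pow] at h1
    rw [h0, h1]
  push Not at h0
  obtain ⟨s, hs⟩ := h0
  have hs1 : f s = 1 := (p2_cases _).resolve_left hs
  have f1 : f 1 = 0 := (p2_ker f ha).one_mem
  have hclosed : IsClosed ((p2_ker f ha : Subgroup Gam) : Set Gam) := by
    have h1 : ((p2_ker f ha : Subgroup Gam) : Set Gam) = f ⁻¹' {0} := rfl
    rw [h1]
    exact (hf.isClopen_fiber 0).1
  have hgal := p2_gal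
  let H : ClosedSubgroup Gam := ⟨p2_ker f ha, hclosed⟩
  have hH : (IntermediateField.fixedField (H : Subgroup Gam)).fixingSubgroup = (H : Subgroup Gam) :=
    InfiniteGalois.fixingSubgroup_fixedField H
  have hsH : s ∉ (IntermediateField.fixedField (H : Subgroup Gam)).fixingSubgroup := by
    rw [hH]
    intro h
    have h2 : f s = 0 := h
    rw [hs1] at h2
    exact one_ne_zero h2
  rw [IntermediateField.mem_fixingSubgroup_iff] at hsH
  push Not at hsH
  obtain ⟨y, hy, hsy⟩ := hsH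
  have hfix : ∀ τ : Gam, f τ = 0 → τ y = y := by
    intro τ hτ
    rw [IntermediateField.mem_fixedField_iff] at hy
    exact hy τ hτ
  have finv : ∀ τ : Gam, f τ⁻¹ = f τ := by
    intro τ
    have h2 := ha τ τ⁻¹
    rw [mul_inv_cancel, f1] at h2
    rcases p2_cases (f τ) with h | h <;> rcases p2_cases (f τ⁻¹) with h' | h' <;>
      rw [h, h'] at h2 <;> rw [h, h'] <;> revert h2 <;> decide
  set z : Om := y - s y with hz
  have hz0 : z ≠ 0 := fun h => hsy (sub_eq_zero.mp h).symm
  have hsz : s z = -z := by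
    have h1 : f (s * s) = 0 := by rw [ha, p2_two]
    have h2 := hfix _ h1
    rw [AlgEquiv.mul_apply] at h2
    rw [hz, map_sub, h2]
    ring
  have hz1 : ∀ τ : Gam, f τ = 0 → τ z = z := by
    intro τ hτ
    have h1 : f (s⁻¹ * τ * s) = 0 := by
      rw [ha, ha, finv, hτ, add_zero, p2_two]
    have h2 := hfix _ h1
    have h3 : τ (s y) = s y := by
      have h4 : τ (s y) = s ((s⁻¹ * τ * s) y) := by
        rw [← AlgEquiv.mul_apply, ← AlgEquiv.mul_apply, mul_assoc s⁻¹, mul_inv_cancel_left]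
      rw [h4, h2]
    rw [hz, map_sub, h3, hfix τ hτ]
  have hz2 : ∀ τ : Gam, f τ = 1 → τ z = -z := by
    intro τ hτ
    have h1 : f (s⁻¹ * τ) = 0 := by rw [ha, finv, hτ, hs1, p2_two]
    have h2 := hz1 _ h1
    have h4 : τ z = s ((s⁻¹ * τ) z) := by
      rw [← AlgEquiv.mul_apply, mul_inv_cancel_left]
    rw [h4, h2, hsz]
  have hzz : ∀ τ : Gam, τ (z ^ 2) = z ^ 2 := by
    intro τ
    rw [map_pow]
    rcases p2_cases (f τ) with h | h
    · rw [hz1 τ h]
    · rw [hz2 τ h, neg_sq]
  obtain ⟨d, hd⟩ := (InfiniteGalois.mem_range_algebraMap_iff_fixed (z ^ 2)).mpr hzz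
  have hd2 : z ^ 2 = (d : Om) := by
    rw [← hd]
    exact eq_ratCast (algebraMap ℚ Om) d
  have hd0 : d ≠ 0 := by
    rintro rfl
    rw [Rat.cast_zero] at hd2
    exact hz0 (pow_eq_zero_iff two_ne_zero |>.mp hd2)
  refine ⟨d, hd0, ?_⟩
  funext τ
  rcases p2_cases (f τ) with h | h
  · rw [h, (chi_eq_zero_iff' d z hd2 τ).mpr (hz1 τ h)]
  · rw [h, (chi_eq_one_iff d hd0 z hd2 τ).mpr (hz2 τ h)]

/-! ### prime discriminants -/

private theorem p2_dd_one : dd 1 = -1 := by simp [dd]

private theorem p2_dd_two : dd 2 = 2 := by simp [dd]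

private theorem p2_abs (i : ℕ) : (dd i).natAbs = i := by
  unfold dd
  split_ifs with h1 h2 h3
  · rw [h1]; rfl
  · rw [h2]; rfl
  · simp
  · simp

private theorem p2_cases_dd (i : ℕ) (h1 : i ≠ 1) : dd i = i ∨ (i : ℤ) = -1 * dd i := by
  rw [dd, if_neg h1]
  split_ifs with h2 h3
  · left; rw [h2]; rfl
  · left; rfl
  · right; ring

/-- the set of indices -/
private def p2_I : Set ℕ := {i | i = 1 ∨ i.Prime}

private noncomputable def p2_M : Submodule (ZMod 2) (Gam → ZMod 2) :=
  Submodule.span (ZMod 2) ((fun i : ℕ => chi (dd i : ℤ)) '' p2_I)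

private theorem p2_mem {i : ℕ} (hi : i = 1 ∨ i.Prime) : chi (dd i : ℤ) ∈ p2_M :=
  Submodule.subset_span ⟨i, hi, rfl⟩

private theorem p2_chi_mul {x y : ℚ} (hx : x ≠ 0) (hy : y ≠ 0) :
    chi (x * y) = chi x + chi y := by
  funext σ
  exact chi_mul x y hx hy σ

private theorem p2_neg : chi (-1) ∈ p2_M := by
  have h := p2_mem (i := 1) (Or.inl rfl)
  rw [p2_dd_one] at h
  push_cast at h
  exact h

private theorem p2_prime {p : ℕ} (hp : p.Prime) : chi (p : ℚ) ∈ p2_M := by
  rcases p2_cases_dd p hp.ne_one with h | h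
  · have h1 := p2_mem (i := p) (Or.inr hp)
    rw [h] at h1
    push_cast at h1
    exact h1
  · have h1 : (p : ℚ) = -1 * ((dd p : ℤ) : ℚ) := by exact_mod_cast h
    have h2 : ((dd p : ℤ) : ℚ) ≠ 0 := by
      intro h3
      rw [h3, mul_zero] at h1
      exact hp.ne_zero (by exact_mod_cast h1)
    rw [h1, p2_chi_mul (by norm_num) h2]
    exact Submodule.add_mem _ p2_neg (p2_mem (Or.inr hp))

private theorem p2_nat (n : ℕ) (hn : n ≠ 0) : chi (n : ℚ) ∈ p2_M := by
  revert hn
  refine induction_on_primes (motive := fun n : ℕ => n ≠ 0 → chi (n : ℚ) ∈ p2_M)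
    (fun h => absurd rfl h) (fun _ => ?_) (fun p a hp ih h => ?_) n
  · have h1 : chi ((1 : ℕ) : ℚ) = 0 := by
      funext σ
      have h1 := chi_sq 1 σ
      rw [one_pow] at h1
      rw [Nat.cast_one, h1]
      rfl
    rw [h1]
    exact Submodule.zero_mem _
  · have ha : a ≠ 0 := fun h1 => h (by rw [h1, mul_zero])
    rw [Nat.cast_mul, p2_chi_mul (by exact_mod_cast hp.ne_zero) (by exact_mod_cast ha)]
    exact Submodule.add_mem _ (p2_prime hp) (ih ha)

private theorem p2_rat (d : ℚ) (hd : d ≠ 0) : chi d ∈ p2_M := by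
  have hden : (d.den : ℚ) ≠ 0 := by exact_mod_cast d.den_nz
  have hnum : d.num ≠ 0 := Rat.num_ne_zero.mpr hd
  have h1 : chi d = chi (d.num : ℚ) + chi (d.den : ℚ) := by
    have h2 : d * (d.den : ℚ) ^ 2 = d.num * d.den := by
      have h3 := Rat.mul_den_eq_num d
      rw [pow_two, ← mul_assoc, h3]
    have h4 : chi (d * (d.den : ℚ) ^ 2) = chi d := by
      rw [p2_chi_mul hd (pow_ne_zero 2 hden)]
      funext σ
      rw [Pi.add_apply, chi_sq, add_zero]
    rw [← h4, h2, p2_chi_mul (by exact_mod_cast hnum) hden]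
  rw [h1]
  refine Submodule.add_mem _ ?_ (p2_nat _ d.den_nz)
  rcases le_or_gt 0 d.num with h | h
  · have h2 : (d.num : ℚ) = (d.num.natAbs : ℚ) := by
      rw [← Int.cast_natCast, Int.natAbs_of_nonneg h]
    rw [h2]
    exact p2_nat _ (by omega)
  · have h2 : (d.num : ℚ) = -1 * (d.num.natAbs : ℚ) := by
      have h3 : (d.num.natAbs : ℤ) = -d.num := by omega
      have h4 : ((d.num.natAbs : ℤ) : ℚ) = ((-d.num : ℤ) : ℚ) := by rw [h3]
      rw [Int.cast_natCast] at h4
      rw [h4]
      push_cast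
      ring
    rw [h2, p2_chi_mul (by norm_num) (by
      have : d.num.natAbs ≠ 0 := by omega
      exact_mod_cast this)]
    exact Submodule.add_mem _ p2_neg (p2_nat _ (by omega))

/-- factorisation -/
theorem chi_dd (d : ℚ) (hd : d ≠ 0) : ∃ S : Finset ℕ, (∀ i ∈ S, i = 1 ∨ i.Prime) ∧
    ∀ σ, chi d σ = ∑ i ∈ S, chi (dd i : ℤ) σ := by
  classical
  have h := p2_rat d hd
  unfold p2_M at h
  rw [Finsupp.mem_span_image_iff_linearCombination] at h
  obtain ⟨l, hl, hl2⟩ := h
  refine ⟨l.support, fun i hi => ?_, fun σ => ?_⟩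
  · exact (Finsupp.mem_supported _ _).mp hl hi
  · rw [← hl2, Finsupp.linearCombination_apply, Finsupp.sum, Finset.sum_apply]
    refine Finset.sum_congr rfl fun i hi => ?_
    have h1 : l i = 1 := (p2_cases _).resolve_left (Finsupp.mem_support_iff.mp hi)
    rw [h1, one_smul]

private theorem p2_prod (S : Finset ℕ) (hS : ∀ i ∈ S, i = 1 ∨ i.Prime) (σ : Gam) :
    chi ((∏ i ∈ S, dd i : ℤ) : ℚ) σ = ∑ i ∈ S, chi (dd i : ℤ) σ := by
  classical
  induction S using Finset.induction_on with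
  | empty =>
    have h1 := chi_sq 1 σ
    rw [one_pow] at h1
    simpa using h1
  | insert a T ha ih =>
    rw [Finset.prod_insert ha, Finset.sum_insert ha, Int.cast_mul, chi_mul,
      ih fun i hi => hS i (Finset.mem_insert_of_mem hi)]
    · have h1 : dd a ≠ 0 := by
        rw [← Int.natAbs_ne_zero, p2_abs]
        rcases hS a (Finset.mem_insert_self a T) with h | h
        · rw [h]; exact one_ne_zero
        · exact h.ne_zero
      exact_mod_cast h1
    · have h1 : ∏ i ∈ T, dd i ≠ 0 := by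
        rw [Finset.prod_ne_zero_iff]
        intro i hi
        rw [← Int.natAbs_ne_zero, p2_abs]
        rcases hS i (Finset.mem_insert_of_mem hi) with h | h
        · rw [h]; exact one_ne_zero
        · exact h.ne_zero
      exact_mod_cast h1

/-- independence -/
theorem dd_indep (S : Finset ℕ) (hS : ∀ i ∈ S, i = 1 ∨ i.Prime)
    (h : ∀ σ, ∑ i ∈ S, chi (dd i : ℤ) σ = 0) : S = ∅ := by
  classical
  have h1 : IsSquare ((∏ i ∈ S, dd i : ℤ) : ℚ) :=
    chi_isSquare _ fun σ => by rw [p2_prod S hS σ, h σ]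
  rw [Rat.isSquare_intCast_iff] at h1
  obtain ⟨m, hm⟩ := h1
  have hnat : ∏ i ∈ S, i = m.natAbs * m.natAbs := by
    have h2 := congrArg Int.natAbs hm
    rw [Int.natAbs_mul] at h2
    rw [← h2]
    have h3 : Int.natAbs (∏ i ∈ S, dd i) = ∏ i ∈ S, (dd i).natAbs :=
      map_prod Int.natAbsHom _ _
    rw [h3]
    exact Finset.prod_congr rfl fun i _ => (p2_abs i).symm
  have hnp : ∀ p ∈ S, ¬ p.Prime := by
    intro p hp hpp
    have h2 : p ∣ m.natAbs * m.natAbs := by
      rw [← hnat]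
      exact Finset.dvd_prod_of_mem _ hp
    have h3 : p ∣ m.natAbs := by
      rcases (Nat.Prime.dvd_mul hpp).mp h2 with h | h <;> exact h
    have h4 : p * p ∣ p * ∏ i ∈ S.erase p, i := by
      rw [Finset.mul_prod_erase S (fun i => i) hp, hnat]
      exact mul_dvd_mul h3 h3
    have h5 : p ∣ ∏ i ∈ S.erase p, i := Nat.dvd_of_mul_dvd_mul_left hpp.pos h4
    obtain ⟨i, hi, hpi⟩ := (Prime.dvd_finsetProd_iff hpp.prime _).mp h5
    rw [Finset.mem_erase] at hi
    rcases hS i hi.2 with h6 | h6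
    · rw [h6] at hpi
      exact hpp.one_lt.ne' (Nat.dvd_one.mp hpi)
    · exact hi.1 ((Nat.prime_dvd_prime_iff_eq hpp h6).mp hpi).symm
  have hone : ∀ i ∈ S, i = 1 := fun i hi => (hS i hi).resolve_right (hnp i hi)
  by_contra hne
  obtain ⟨i, hi⟩ := Finset.nonempty_iff_ne_empty.mpr hne
  have hSe : S = {1} := by
    ext j
    rw [Finset.mem_singleton]
    constructor
    · exact hone j
    · rintro rfl
      rw [← hone i hi]
      exact hi
  rw [hSe, Finset.prod_singleton, p2_dd_one] at hm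
  nlinarith [mul_self_nonneg m]

end Pool.Agent.H98.MK
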