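import Pool.Agent.H98.MK.ParClass2
import Pool.Agent.H98.MK.ChiClass

/-!
# Project MK, row P3: parameters of homomorphisms to elementary abelian groups (helper74)
-/

set_option autoImplicit false

open scoped BigOperators

namespace Pool.Agent.H98.MK

theorem pc_ind : PcInd := fun S hS h => dd_indep S hS h

theorem pc_ex : PcEx := by
  intro f hf ha
  obtain ⟨d, hd, rfl⟩ := exists_chi f hf ha
  exact chi_dd d hd

theorem par_exists {k : ℕ} (f : Gam → (Fin k → ZMod 2)) (hf : IsLocallyConstant f)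
    (ha : ∀ σ τ, f (σ * τ) = f σ + f τ) : ∃ x : ℕ →₀ (Fin k → ZMod 2), adm x ∧ par x = f :=
  pc_exists pc_ex f hf ha

theorem par_injective {k : ℕ} (x y : ℕ →₀ (Fin k → ZMod 2)) (hx : adm x) (hy : adm y)
    (h : par x = par y) : x = y :=
  pc_injective pc_ind x y hx hy h

theorem par_surj {k : ℕ} (x : ℕ →₀ (Fin k → ZMod 2)) (hx : adm x) :
    Function.Surjective (par x) ↔ Submodule.span (ZMod 2) (Set.range x) = ⊤ :=
  pc_surj pc_ind x hx

end Pool.Agent.H98.MK
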