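import Pool.Agent.H98.MK.Defs
import Pool.Agent.H67.MU.Exp

/-!
# Project MK, row L3: the exponent of a prime in the discriminant of a Galois field
-/

set_option autoImplicit false

open NumberField Pool.Agent.H67.MU UniqueFactorizationMonoid

open scoped Pointwise nonZeroDivisors

namespace Pool.Agent.H98.MK

section

variable {K : Type} [Field K] [NumberField K]

private theorem l3_mem_diff (x : 𝓞 K) : x ∈ differentIdeal ℤ (𝓞 K) ↔
    ∀ y : K, (∀ b : 𝓞 K, Algebra.trace ℚ K (y * (b : K)) ∈ (algebraMap ℤ ℚ).range) →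
      ∃ z : 𝓞 K, (x : K) * y = (z : K) := by
  have h1 : x ∈ differentIdeal ℤ (𝓞 K) ↔ (x : K) ∈
      (FractionalIdeal.dual ℤ ℚ (1 : FractionalIdeal (𝓞 K)⁰ K))⁻¹ := by
    rw [← coeIdeal_differentIdeal ℤ ℚ K (𝓞 K), FractionalIdeal.mem_coeIdeal]
    constructor
    · intro h
      exact ⟨x, h, rfl⟩
    · rintro ⟨x', h, hx⟩
      have : x' = x := RingOfIntegers.ext hx
      rwa [← this]
  have hone : (1 : FractionalIdeal (𝓞 K)⁰ K) ≠ 0 := one_ne_zero
  rw [h1, FractionalIdeal.mem_inv_iff (FractionalIdeal.dual_ne_zero ℤ ℚ hone)]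
  refine forall_congr' fun y => ?_
  have h2 : y ∈ FractionalIdeal.dual ℤ ℚ (1 : FractionalIdeal (𝓞 K)⁰ K) ↔
      ∀ b : 𝓞 K, Algebra.trace ℚ K (y * (b : K)) ∈ (algebraMap ℤ ℚ).range := by
    rw [FractionalIdeal.mem_dual hone]
    constructor
    · intro h b
      exact h _ ((FractionalIdeal.mem_one_iff _).2 ⟨b, rfl⟩)
    · intro h a ha
      obtain ⟨b, rfl⟩ := (FractionalIdeal.mem_one_iff _).1 ha
      exact h b
  rw [h2, FractionalIdeal.mem_one_iff]
  refine imp_congr_right fun _ => ?_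
  constructor
  · rintro ⟨z, hz⟩
    exact ⟨z, hz.symm⟩
  · rintro ⟨z, hz⟩
    exact ⟨z, hz.symm⟩

private theorem l3_coe_smul (σ : K ≃ₐ[ℚ] K) (x : 𝓞 K) : ((σ • x : 𝓞 K) : K) = σ (x : K) := rfl

private theorem l3_smul_mem (σ : K ≃ₐ[ℚ] K) {x : 𝓞 K} (hx : x ∈ differentIdeal ℤ (𝓞 K)) :
    σ • x ∈ differentIdeal ℤ (𝓞 K) := by
  rw [l3_mem_diff] at hx ⊢
  intro y hy
  obtain ⟨z, hz⟩ := hx (σ.symm y) fun b => by
    have h1 := hy (σ • b)
    rw [l3_coe_smul] at h1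
    have h2 : Algebra.trace ℚ K (σ.symm (y * σ (b : K))) = Algebra.trace ℚ K (y * σ (b : K)) :=
      Algebra.trace_eq_of_algEquiv σ.symm _
    rw [map_mul, AlgEquiv.symm_apply_apply] at h2
    rw [h2]
    exact h1
  refine ⟨σ • z, ?_⟩
  rw [l3_coe_smul, l3_coe_smul, ← hz, map_mul, AlgEquiv.apply_symm_apply]

private theorem l3_diff_ne : differentIdeal ℤ (𝓞 K) ≠ ⊥ := differentIdeal_ne_bot

private theorem l3_vexp_le (σ : K ≃ₐ[ℚ] K) (P : Ideal (𝓞 K)) [hP : P.IsPrime] (hP0 : P ≠ ⊥) :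
    vexp P (differentIdeal ℤ (𝓞 K)) ≤ vexp (σ • P) (differentIdeal ℤ (𝓞 K)) := by
  have h0 : σ • P ≠ ⊥ := by
    intro h
    apply hP0
    rw [eq_bot_iff]
    intro x hx
    have h1 := Ideal.smul_mem_pointwise_smul σ x P hx
    rw [h, Ideal.mem_bot, smul_eq_zero_iff_eq] at h1
    exact h1
  have hp : (σ • P).IsPrime := inferInstance
  rw [← mu3_pow_dvd_iff hp h0 l3_diff_ne, Ideal.dvd_iff_le, ← smul_pow']
  intro x hx
  have h1 : σ⁻¹ • x ∈ P ^ vexp P (differentIdeal ℤ (𝓞 K)) := by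
    have h2 : P ^ vexp P (differentIdeal ℤ (𝓞 K)) ∣ differentIdeal ℤ (𝓞 K) :=
      (mu3_pow_dvd_iff hP hP0 l3_diff_ne _).2 le_rfl
    exact Ideal.dvd_iff_le.1 h2 (l3_smul_mem σ⁻¹ hx)
  exact Ideal.mem_pointwise_smul_iff_inv_smul_mem.2 h1

private theorem l3_vexp_eq (σ : K ≃ₐ[ℚ] K) (P : Ideal (𝓞 K)) [hP : P.IsPrime] (hP0 : P ≠ ⊥) :
    vexp (σ • P) (differentIdeal ℤ (𝓞 K)) = vexp P (differentIdeal ℤ (𝓞 K)) := by
  refine le_antisymm ?_ (l3_vexp_le σ P hP0)
  have h0 : σ • P ≠ ⊥ := by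
    intro h
    apply hP0
    rw [eq_bot_iff]
    intro x hx
    have h1 := Ideal.smul_mem_pointwise_smul σ x P hx
    rw [h, Ideal.mem_bot, smul_eq_zero_iff_eq] at h1
    exact h1
  have h1 := l3_vexp_le σ⁻¹ (σ • P) h0
  rwa [inv_smul_smul] at h1

omit [NumberField K] in
private theorem l3_liesOver {p : ℕ} [hp : Fact p.Prime] {Q : Ideal (𝓞 K)} [hQ : Q.IsPrime]
    (h : (p : 𝓞 K) ∈ Q) : Q.LiesOver (Ideal.span {(p : ℤ)}) := by
  have hmax : (Ideal.span {(p : ℤ)}).IsMaximal :=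
    PrincipalIdealRing.isMaximal_of_irreducible (Nat.prime_iff_prime_int.1 hp.out).irreducible
  refine ⟨hmax.eq_of_le (Ideal.IsPrime.ne_top inferInstance) ?_⟩
  rw [Ideal.span_singleton_le_iff_mem, Ideal.mem_comap]
  simpa using h

/-- the exponent of `p` in the norm of a prime ideal -/
private theorem l3_norm {p : ℕ} [hp : Fact p.Prime] {Q : Ideal (𝓞 K)} [hQ : Q.IsPrime]
    (hQ0 : Q ≠ ⊥) [Decidable ((p : 𝓞 K) ∈ Q)] :
    (Ideal.absNorm Q).factorization p = if (p : 𝓞 K) ∈ Q then Q.inertiaDeg ℤ else 0 := by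
  split_ifs with h
  · have := l3_liesOver h
    rw [← Ideal.pow_inertiaDeg p Q, hp.out.factorization_pow]
    simp
  · rw [Nat.factorization_eq_zero_iff]
    right; left
    intro hdvd
    have h0 : Ideal.absNorm Q ≠ 0 := by rwa [Ne, Ideal.absNorm_eq_zero_iff]
    have h1 : ((Ideal.absNorm Q : ℕ) : 𝓞 K) ∈ Q := Ideal.absNorm_mem Q
    rw [← Nat.prod_primeFactorsList h0, Nat.cast_list_prod, ← Multiset.prod_coe,
      hQ.multiset_prod_mem_iff_exists_mem] at h1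
    obtain ⟨_, hx, hxQ⟩ := h1
    rw [Multiset.mem_coe] at hx
    obtain ⟨l, hl, rfl⟩ := List.mem_map.1 hx
    have hlp := Nat.prime_of_mem_primeFactorsList hl
    have : Fact l.Prime := ⟨hlp⟩
    have := l3_liesOver hxQ
    rw [← Ideal.pow_inertiaDeg l Q] at hdvd
    have h2 := hp.out.dvd_of_dvd_pow hdvd
    rw [Nat.prime_dvd_prime_iff_eq hp.out hlp] at h2
    exact h (h2 ▸ hxQ)

private theorem l3_prod (p : ℕ) (s : Multiset (Ideal (𝓞 K))) (hs : ∀ Q ∈ s, Q ≠ ⊥) :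
    s.prod ≠ ⊥ ∧ (Ideal.absNorm s.prod).factorization p =
      (s.map fun Q => (Ideal.absNorm Q).factorization p).sum := by
  induction s using Multiset.induction_on with
  | empty => simp [Ideal.one_eq_top]
  | cons Q s ih =>
    obtain ⟨h1, h2⟩ := ih fun P hP => hs P (Multiset.mem_cons_of_mem hP)
    have hQ0 := hs Q (Multiset.mem_cons_self Q s)
    refine ⟨?_, ?_⟩
    · rw [Multiset.prod_cons]
      exact mul_ne_zero hQ0 h1
    · have e1 : Ideal.absNorm Q ≠ 0 := by rwa [Ne, Ideal.absNorm_eq_zero_iff]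
      have e2 : Ideal.absNorm s.prod ≠ 0 := by rwa [Ne, Ideal.absNorm_eq_zero_iff]
      rw [Multiset.prod_cons, map_mul, Nat.factorization_mul e1 e2, Multiset.map_cons,
        Multiset.sum_cons, ← h2]
      rfl

end

theorem disc_exp {K : Type} [Field K] [NumberField K] [IsGalois ℚ K] (p : ℕ) [Fact p.Prime]
    (P : Ideal (𝓞 K)) [P.IsPrime] (hpP : (p : 𝓞 K) ∈ P) :
    (discr K).natAbs.factorization p * Nat.card (P.inertia (K ≃ₐ[ℚ] K)) =
      Module.finrank ℚ K * vexp P (differentIdeal ℤ (𝓞 K)) := by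
  classical
  have hp : p.Prime := Fact.out
  have hp0 : (p : 𝓞 K) ≠ 0 := by exact_mod_cast hp.ne_zero
  have hP0 : P ≠ ⊥ := by
    rintro rfl
    exact hp0 (by simpa using hpP)
  have hover : P.LiesOver (Ideal.span {(p : ℤ)}) := l3_liesOver hpP
  have hmax : (Ideal.span {(p : ℤ)}).IsMaximal :=
    PrincipalIdealRing.isMaximal_of_irreducible (Nat.prime_iff_prime_int.1 hp).irreducible
  have hsp : Ideal.span {(p : ℤ)} ≠ ⊥ := by
    rw [Ne, Ideal.span_singleton_eq_bot]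
    exact_mod_cast hp.ne_zero
  set D := differentIdeal ℤ (𝓞 K) with hD
  set T := IsDedekindDomain.primesOverFinset (Ideal.span {(p : ℤ)}) (𝓞 K) with hT
  have hmemT : ∀ Q : Ideal (𝓞 K), Q ∈ T ↔ Q.IsPrime ∧ Q.LiesOver (Ideal.span {(p : ℤ)}) :=
    fun Q => IsDedekindDomain.mem_primesOverFinset_iff hsp (𝓞 K)
  have hin : ∀ Q : Ideal (𝓞 K), Q.IsPrime → (p : 𝓞 K) ∈ Q →
      Q ∈ T ∧ Q.inertiaDeg ℤ = P.inertiaDeg ℤ ∧ vexp Q D = vexp P D := by
    intro Q hQ hpQ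
    have hoverQ : Q.LiesOver (Ideal.span {(p : ℤ)}) := l3_liesOver hpQ
    refine ⟨(hmemT Q).2 ⟨hQ, hoverQ⟩, ?_, ?_⟩
    · exact Ideal.inertiaDeg_eq_of_isGaloisGroup (Ideal.span {(p : ℤ)}) Q P (K ≃ₐ[ℚ] K)
    · obtain ⟨σ, rfl⟩ := Ideal.exists_smul_eq_of_isGaloisGroup (Ideal.span {(p : ℤ)}) P Q
        (K ≃ₐ[ℚ] K)
      exact l3_vexp_eq σ P hP0
  have hTin : ∀ Q ∈ T, Q.IsPrime ∧ (p : 𝓞 K) ∈ Q := by
    intro Q hQ
    obtain ⟨h1, h2⟩ := (hmemT Q).1 hQ
    refine ⟨h1, ?_⟩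
    have h3 : (p : ℤ) ∈ Q.under ℤ := by
      rw [← h2.over]
      exact Ideal.mem_span_singleton_self _
    simpa using h3
  have hnorm : (discr K).natAbs = Ideal.absNorm D := (absNorm_differentIdeal K (𝓞 K)).symm
  have hprime : ∀ Q ∈ normalizedFactors D, Q.IsPrime ∧ Q ≠ ⊥ := by
    intro Q hQ
    have h2 := prime_of_normalized_factor Q hQ
    exact ⟨Ideal.isPrime_of_prime h2, h2.ne_zero⟩
  have hfac : (Ideal.absNorm D).factorization p =
      ((normalizedFactors D).map fun Q => if (p : 𝓞 K) ∈ Q then P.inertiaDeg ℤ else 0).sum := by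
    have h1 := (l3_prod p (normalizedFactors D) fun Q hQ => (hprime Q hQ).2).2
    rw [Ideal.prod_normalizedFactors_eq_self l3_diff_ne] at h1
    rw [h1]
    congr 1
    refine Multiset.map_congr rfl fun Q hQ => ?_
    have := (hprime Q hQ).1
    rw [l3_norm (hprime Q hQ).2]
    split_ifs with h
    · exact (hin Q this h).2.1
    · rfl
  have hcard : Multiset.card ((normalizedFactors D).filter fun Q => (p : 𝓞 K) ∈ Q) =
      T.card * vexp P D := by
    rw [← Multiset.sum_count_eq_card (s := T) (m := (normalizedFactors D).filter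
      fun Q => (p : 𝓞 K) ∈ Q) fun Q hQ => ?_]
    · rw [Finset.card_eq_sum_ones, Finset.sum_mul]
      refine Finset.sum_congr rfl fun Q hQ => ?_
      obtain ⟨h1, h2⟩ := hTin Q hQ
      rw [Multiset.count_filter_of_pos (p := fun Q : Ideal (𝓞 K) => (p : 𝓞 K) ∈ Q) h2, one_mul,
        ← (hin Q h1 h2).2.2]
      unfold vexp
      congr!
    · have h1 := Multiset.mem_filter.1 hQ
      exact (hin Q (hprime Q h1.1).1 h1.2).1
  have hsum : ((normalizedFactors D).map fun Q =>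
      if (p : 𝓞 K) ∈ Q then P.inertiaDeg ℤ else 0).sum =
      Multiset.card ((normalizedFactors D).filter fun Q => (p : 𝓞 K) ∈ Q) *
        P.inertiaDeg ℤ := by
    generalize normalizedFactors D = s
    induction s using Multiset.induction_on with
    | empty => simp
    | cons Q s ih =>
      rw [Multiset.map_cons, Multiset.sum_cons, ih, Multiset.filter_cons]
      split_ifs with h
      · simp
        ring
      · simp
  have hgal := Ideal.ncard_primesOver_mul_card_inertia_mul_finrank (G := K ≃ₐ[ℚ] K)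
    (Ideal.span {(p : ℤ)}) P
  have hTn : ((Ideal.span {(p : ℤ)}).primesOver (𝓞 K)).ncard = T.card := by
    rw [← IsDedekindDomain.coe_primesOverFinset hsp (𝓞 K), Set.ncard_coe_finset]
  rw [hTn, IsGalois.card_aut_eq_finrank] at hgal
  rw [hnorm, hfac, hsum, hcard, ← hgal]
  ring

end Pool.Agent.H98.MK
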