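import Pool.Agent.H98.MK.Defs
import Pool.Agent.H67.MU.Exp

/-!
# Project MK (MP_a3214d), row L3b: the different exponent at a tame prime

If the inertia group of a prime `P` above `p` in a Galois extension `K/ℚ` has order `e` prime to
`p`, then the exponent of `P` in the different is `e - 1`.  The lower bound is in Mathlib; for the
upper bound one finds an element of the prime-to-`P` part of `p` whose trace is not divisible by
`p`, by the independence of characters.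
-/

set_option autoImplicit false

open NumberField Pool.Agent.H67.MU
open scoped Pointwise

namespace Pool.Agent.H98.MK

section

variable {K : Type} [Field K] [NumberField K] [IsGalois ℚ K]

/-- The residue character `x ↦ σ x mod P`. -/
private noncomputable def resChar (P : Ideal (𝓞 K)) (σ : K ≃ₐ[ℚ] K) : 𝓞 K →* (𝓞 K ⧸ P) :=
  (Ideal.Quotient.mk P : 𝓞 K →* 𝓞 K ⧸ P).comp
    (MulSemiringAction.toRingHom (K ≃ₐ[ℚ] K) (𝓞 K) σ : 𝓞 K →* 𝓞 K)

private theorem resChar_apply (P : Ideal (𝓞 K)) (σ : K ≃ₐ[ℚ] K) (x : 𝓞 K) :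
    resChar P σ x = Ideal.Quotient.mk P (σ • x) := rfl

/-- If the order of the inertia group is prime to `p` then some sum over the decomposition group
is not in `P`. -/
private theorem exists_sum_not_mem (p : ℕ) [Fact p.Prime] (P : Ideal (𝓞 K)) [P.IsPrime]
    (hpP : (p : 𝓞 K) ∈ P) (ht : ¬ p ∣ Nat.card (P.inertia (K ≃ₐ[ℚ] K)))
    (D : Finset (K ≃ₐ[ℚ] K)) (hD : ∀ σ, σ ∈ D ↔ σ • P = P) :
    ∃ y : 𝓞 K, ∑ σ ∈ D, σ • y ∉ P := by
  classical
  by_contra hcon
  push Not at hcon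
  have h1 : ∀ y : 𝓞 K, ∑ σ ∈ D, resChar P σ y = 0 := by
    intro y
    simp only [resChar_apply]
    rw [← map_sum]
    exact Ideal.Quotient.eq_zero_iff_mem.mpr (hcon y)
  have h2 : ∑ b ∈ D.image (resChar P), ((Finset.card {a ∈ D | resChar P a = b} : ℕ) : 𝓞 K ⧸ P) •
      (b : 𝓞 K → 𝓞 K ⧸ P) = 0 := by
    funext y
    have h3 := h1 y
    rw [Finset.sum_comp (fun b : 𝓞 K →* 𝓞 K ⧸ P => b y) (resChar P)] at h3
    rw [Finset.sum_apply]
    simpa [nsmul_eq_mul] using h3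
  have h4 := linearIndependent_iff'.mp (linearIndependent_monoidHom (𝓞 K) (𝓞 K ⧸ P))
    (D.image (resChar P)) (fun b => ((Finset.card {a ∈ D | resChar P a = b} : ℕ) : 𝓞 K ⧸ P)) h2
    (resChar P 1) (Finset.mem_image_of_mem _ ((hD 1).mpr (one_smul _ _)))
  have h5 : Finset.card {a ∈ D | resChar P a = resChar P 1} =
      Nat.card (P.inertia (K ≃ₐ[ℚ] K)) := by
    rw [← Nat.card_eq_finsetCard]
    apply Nat.card_congr
    refine Equiv.subtypeEquivRight fun σ => ?_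
    rw [Finset.mem_filter, hD]
    constructor
    · rintro ⟨_, h⟩ x
      have h6 := DFunLike.congr_fun h x
      rw [resChar_apply, resChar_apply, one_smul] at h6
      exact Ideal.Quotient.eq.mp h6
    · intro h
      refine ⟨?_, ?_⟩
      · exact MulAction.mem_stabilizer_iff.mp (Ideal.inertia_le_stabilizer P h)
      · ext x
        rw [resChar_apply, resChar_apply, one_smul]
        exact Ideal.Quotient.eq.mpr (h x)
  rw [h5] at h4
  apply ht
  have h6 : ((Nat.card (P.inertia (K ≃ₐ[ℚ] K)) : ℕ) : 𝓞 K) ∈ P := by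
    apply Ideal.Quotient.eq_zero_iff_mem.mp
    rw [map_natCast]
    exact h4
  by_contra h7
  have h8 : IsCoprime ((p : ℕ) : ℤ) ((Nat.card (P.inertia (K ≃ₐ[ℚ] K)) : ℕ) : ℤ) := by
    rw [Nat.isCoprime_iff_coprime]
    exact (Nat.Prime.coprime_iff_not_dvd (Fact.out : p.Prime)).mpr h7
  obtain ⟨a, b, hab⟩ := h8
  apply Ideal.IsPrime.ne_top (I := P) inferInstance
  rw [Ideal.eq_top_iff_one]
  have h9 : ((a : ℤ) : 𝓞 K) * (p : 𝓞 K) +
      (b : 𝓞 K) * ((Nat.card (P.inertia (K ≃ₐ[ℚ] K)) : ℕ) : 𝓞 K) = 1 := by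
    exact_mod_cast congrArg (Int.cast : ℤ → 𝓞 K) hab
  rw [← h9]
  exact P.add_mem (P.mul_mem_left _ hpP) (P.mul_mem_left _ h6)

private theorem intTrace_eq_sum (x : 𝓞 K) :
    algebraMap ℤ (𝓞 K) (Algebra.intTrace ℤ (𝓞 K) x) = ∑ σ : K ≃ₐ[ℚ] K, σ • x := by
  apply FaithfulSMul.algebraMap_injective (𝓞 K) K
  rw [← IsScalarTower.algebraMap_apply, IsScalarTower.algebraMap_apply ℤ ℚ K,
    Algebra.algebraMap_intTrace (A := ℤ) (K := ℚ) (L := K) (B := 𝓞 K),
    trace_eq_sum_automorphisms, map_sum]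
  rfl

end

theorem tame_exp {K : Type} [Field K] [NumberField K] [IsGalois ℚ K] (p : ℕ) [Fact p.Prime]
    (P : Ideal (𝓞 K)) [P.IsPrime] (hpP : (p : 𝓞 K) ∈ P)
    (ht : ¬ p ∣ Nat.card (P.inertia (K ≃ₐ[ℚ] K))) :
    vexp P (differentIdeal ℤ (𝓞 K)) + 1 = Nat.card (P.inertia (K ≃ₐ[ℚ] K)) := by
  classical
  have hpp : p.Prime := Fact.out
  have hp0 : Ideal.span {(p : ℤ)} ≠ ⊥ := by
    rw [Ne, Ideal.span_singleton_eq_bot]; exact_mod_cast hpp.ne_zero
  have hprime : (Ideal.span {(p : ℤ)}).IsPrime := by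
    rw [Ideal.span_singleton_prime (by exact_mod_cast hpp.ne_zero)]
    exact Nat.prime_iff_prime_int.mp hpp
  have hmax : (Ideal.span {(p : ℤ)}).IsMaximal := hprime.isMaximal hp0
  have hle : Ideal.span {(p : ℤ)} ≤ P.under ℤ := by
    rw [Ideal.span_singleton_le_iff_mem, Ideal.under_def, Ideal.mem_comap]
    simpa using hpP
  have hlies : P.LiesOver (Ideal.span {(p : ℤ)}) :=
    ⟨hmax.eq_of_le (Ideal.IsPrime.ne_top (I := P.under ℤ) inferInstance) hle⟩
  have hP0 : P ≠ ⊥ := Ideal.ne_bot_of_liesOver_of_ne_bot hp0 P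
  have hPmax : P.IsMaximal := Ring.DimensionLEOne.maximalOfPrime hP0 inferInstance
  have hD : differentIdeal ℤ (𝓞 K) ≠ ⊥ := differentIdeal_ne_bot
  have hmap : (Ideal.span {(p : ℤ)}).map (algebraMap ℤ (𝓞 K)) ≠ ⊥ := Ideal.map_ne_bot_of_ne_bot hp0
  obtain ⟨Q, hQ1, hQ2⟩ := Ideal.eq_prime_pow_mul_coprime hmap P
  set e := Nat.card (P.inertia (K ≃ₐ[ℚ] K)) with he
  have he' : e = Multiset.count P (UniqueFactorizationMonoid.normalizedFactors
      ((Ideal.span {(p : ℤ)}).map (algebraMap ℤ (𝓞 K)))) := by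
    rw [he, Ideal.card_inertia_eq_ramificationIdxIn (G := K ≃ₐ[ℚ] K) (Ideal.span {(p : ℤ)}) P,
      Ideal.ramificationIdxIn_eq_ramificationIdx (Ideal.span {(p : ℤ)}) P (K ≃ₐ[ℚ] K),
      Ideal.IsDedekindDomain.ramificationIdx_eq_normalizedFactors_count _ P hmap]
  rw [← he'] at hQ2
  have he0 : 0 < e := Nat.card_pos
  -- lower bound
  have h1 : e - 1 ≤ vexp P (differentIdeal ℤ (𝓞 K)) := by
    rw [← mu3_pow_dvd_iff inferInstance hP0 hD]
    exact pow_sub_one_dvd_differentIdeal ℤ P e hp0 ⟨Q, hQ2⟩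
  -- upper bound
  have h2 : ¬ P ^ e ∣ differentIdeal ℤ (𝓞 K) := by
    obtain ⟨y, hy⟩ := exists_sum_not_mem p P hpP ht {σ | σ • P = P} (by simp)
    obtain ⟨r, hr, q, hq, hrq⟩ := Submodule.mem_sup.mp
      ((Ideal.eq_top_iff_one _).mp hQ1)
    refine not_dvd_differentIdeal_of_intTrace_not_mem ℤ (P ^ e) Q hQ2.symm (y * q)
      (Q.mul_mem_left _ hq) fun hx => hy ?_
    have h3 : ∑ σ : K ≃ₐ[ℚ] K, σ • (y * q) ∈ P := by
      rw [← intTrace_eq_sum]
      have h4 := hle hx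
      rwa [Ideal.under_def, Ideal.mem_comap] at h4
    rw [← Finset.sum_filter_add_sum_filter_not Finset.univ (fun σ : K ≃ₐ[ℚ] K => σ • P = P)] at h3
    have h4 : ∑ σ : K ≃ₐ[ℚ] K with ¬ σ • P = P, σ • (y * q) ∈ P := by
      refine Ideal.sum_mem _ fun σ hσ => ?_
      rw [Finset.mem_filter] at hσ
      rw [smul_mul']
      refine P.mul_mem_left _ ?_
      have h5 : (σ⁻¹ • P).IsPrime := inferInstance
      have h6 : P ^ e * Q ≤ σ⁻¹ • P := by
        rw [← hQ2, Ideal.map_le_iff_le_comap, Ideal.span_singleton_le_iff_mem, Ideal.mem_comap,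
          Ideal.mem_inv_pointwise_smul_iff]
        have h7 : σ • ((p : ℕ) : 𝓞 K) = ((p : ℕ) : 𝓞 K) :=
          map_natCast (MulSemiringAction.toRingHom (K ≃ₐ[ℚ] K) (𝓞 K) σ) p
        have h8 : σ • (algebraMap ℤ (𝓞 K) (p : ℤ)) = ((p : ℕ) : 𝓞 K) := by
          rw [map_natCast, h7]
        rw [h8]
        exact hpP
      rcases (Ideal.IsPrime.mul_le h5).mp h6 with h7 | h7
      · exfalso
        have h8 : P ≤ σ⁻¹ • P := Ideal.IsPrime.le_of_pow_le h7
        have h9 : P = σ⁻¹ • P := hPmax.eq_of_le h5.ne_top h8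
        apply hσ.2
        nth_rewrite 1 [h9]
        rw [smul_inv_smul]
      · exact Ideal.mem_inv_pointwise_smul_iff.mp (h7 hq)
    have h5 : ∑ σ : K ≃ₐ[ℚ] K with σ • P = P, σ • (y * q) ∈ P := (P.add_mem_iff_left h4).mp h3
    have h6 : ∑ σ : K ≃ₐ[ℚ] K with σ • P = P, σ • y =
        ∑ σ : K ≃ₐ[ℚ] K with σ • P = P, σ • (y * q) +
        ∑ σ : K ≃ₐ[ℚ] K with σ • P = P, σ • (y * r) := by
      rw [← Finset.sum_add_distrib]
      refine Finset.sum_congr rfl fun σ _ => ?_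
      rw [← smul_add, ← mul_add, add_comm q r, hrq, mul_one]
    rw [h6]
    refine P.add_mem h5 (Ideal.sum_mem _ fun σ hσ => ?_)
    rw [Finset.mem_filter] at hσ
    rw [smul_mul']
    refine P.mul_mem_left _ ?_
    rw [← hσ.2]
    exact Ideal.smul_mem_pointwise_smul _ _ _ hr
  rw [mu3_pow_dvd_iff inferInstance hP0 hD] at h2
  omega

end Pool.Agent.H98.MK
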