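import Pool.Agent.H98.MK.DiffTower
import Pool.Agent.H98.MK.DiscExp

/-!
# Project MK (MP_a3214d), row MK-T1: the `p`-part of the discriminant and the inertia group
-/

set_option autoImplicit false

open NumberField Pool.Agent.H67.MU UniqueFactorizationMonoid

open scoped Pointwise

namespace Pool.Agent.H98.MK

theorem dc_card {K : Type} [Field K] [NumberField K] [IsGalois ℚ K] (P : Ideal (𝓞 K)) [P.IsPrime]
    (F : IntermediateField ℚ K) : P.ramificationIdx (𝓞 F) =
      Nat.card (P.inertia (K ≃ₐ[ℚ] K) ⊓ F.fixingSubgroup : Subgroup (K ≃ₐ[ℚ] K)) := by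
  have hG : IsGaloisGroup F.fixingSubgroup F K :=
    inferInstanceAs (IsGaloisGroup (fixingSubgroup (K ≃ₐ[ℚ] K) (F : Set K)) F K)
  have hG2 : IsGaloisGroup F.fixingSubgroup (𝓞 F) (𝓞 K) :=
    IsGaloisGroup.of_isFractionRing F.fixingSubgroup (𝓞 F) (𝓞 K) F K
  rw [← Ideal.ramificationIdxIn_eq_ramificationIdx (P.under (𝓞 F)) P F.fixingSubgroup,
    ← Ideal.card_inertia_eq_ramificationIdxIn (G := F.fixingSubgroup) (P.under (𝓞 F)) P]
  have h : (P.inertia F.fixingSubgroup).map F.fixingSubgroup.subtype =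
      P.inertia (K ≃ₐ[ℚ] K) ⊓ F.fixingSubgroup := AddSubgroup.inertia_map_subtype _ _
  rw [← h]
  exact (Subgroup.card_map_of_injective F.fixingSubgroup.subtype_injective).symm

theorem dc_cardZ {K : Type} [Field K] [NumberField K] [IsGalois ℚ K] (P : Ideal (𝓞 K))
    [P.IsPrime] : P.ramificationIdx ℤ = Nat.card (P.inertia (K ≃ₐ[ℚ] K)) := by
  have hG : IsGaloisGroup (K ≃ₐ[ℚ] K) ℚ K := inferInstance
  have hG2 : IsGaloisGroup (K ≃ₐ[ℚ] K) ℤ (𝓞 K) :=
    IsGaloisGroup.of_isFractionRing (K ≃ₐ[ℚ] K) ℤ (𝓞 K) ℚ K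
  rw [← Ideal.ramificationIdxIn_eq_ramificationIdx (P.under ℤ) P (K ≃ₐ[ℚ] K),
    ← Ideal.card_inertia_eq_ramificationIdxIn (G := K ≃ₐ[ℚ] K) (P.under ℤ) P]

/-- the inertia field of a relative extension -/
theorem dc_key {K : Type} [Field K] [NumberField K] [IsGalois ℚ K] (P : Ideal (𝓞 K)) [P.IsPrime]
    (hP : P ≠ ⊥) (F : IntermediateField ℚ K) (J : Subgroup (K ≃ₐ[ℚ] K))
    (hJ : P.inertia (K ≃ₐ[ℚ] K) ⊓ F.fixingSubgroup = J) :
    vexp P (differentIdeal (𝓞 F) (𝓞 K)) =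
      vexp P (differentIdeal (𝓞 (IntermediateField.fixedField J)) (𝓞 K)) := by
  have hFE : F ≤ IntermediateField.fixedField J := by
    rw [IntermediateField.le_iff_le, ← hJ]
    exact inf_le_right
  have hfix : (IntermediateField.fixedField J).fixingSubgroup = J :=
    IntermediateField.fixingSubgroup_fixedField J
  let _ : Algebra F (IntermediateField.fixedField J) :=
    (IntermediateField.inclusion hFE).toRingHom.toAlgebra
  have : IsScalarTower F (IntermediateField.fixedField J) K :=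
    IsScalarTower.of_algebraMap_eq fun x => rfl
  refine dt_eq P hP ?_
  rw [dc_card, dc_card, hJ, hfix, ← hJ, ← inf_assoc, inf_idem]

theorem disc_compare' {K : Type} [Field K] [NumberField K] [IsGalois ℚ K] (p : ℕ)
    [Fact p.Prime] (P : Ideal (𝓞 K)) [P.IsPrime] (hpP : (p : 𝓞 K) ∈ P)
    (F F' : IntermediateField ℚ K) [IsGalois ℚ F] [IsGalois ℚ F']
    (hF : (discr F).natAbs.factorization p * Nat.card ((P.under (𝓞 F)).inertia (F ≃ₐ[ℚ] F)) =
      Module.finrank ℚ F * vexp (P.under (𝓞 F)) (differentIdeal ℤ (𝓞 F)))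
    (hF' : (discr F').natAbs.factorization p * Nat.card ((P.under (𝓞 F')).inertia (F' ≃ₐ[ℚ] F')) =
      Module.finrank ℚ F' * vexp (P.under (𝓞 F')) (differentIdeal ℤ (𝓞 F')))
    (h : P.inertia (K ≃ₐ[ℚ] K) ⊓ F.fixingSubgroup = P.inertia (K ≃ₐ[ℚ] K) ⊓ F'.fixingSubgroup) :
    (discr F).natAbs.factorization p * Module.finrank ℚ F' =
      (discr F').natAbs.factorization p * Module.finrank ℚ F := by
  have hP : P ≠ ⊥ := by
    rintro rfl
    have h1 : ((p : ℕ) : 𝓞 K) = 0 := by simpa using hpP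
    exact (Fact.out : p.Prime).ne_zero (by exact_mod_cast h1)
  have e1 := dc_card P F
  have e2 := dc_card P F'
  rw [h, ← e2] at e1
  have hpos : 0 < P.ramificationIdx (𝓞 F') := Ideal.ramificationIdx_pos P (𝓞 F')
  have k1 := dc_key P hP F _ h
  have k2 := dc_key P hP F' _ rfl
  have t1 := diff_tower (F := F) P hP
  have t2 := diff_tower (F := F') P hP
  rw [k1, e1] at t1
  rw [k2] at t2
  have hd : vexp (P.under (𝓞 F)) (differentIdeal ℤ (𝓞 F)) =
      vexp (P.under (𝓞 F')) (differentIdeal ℤ (𝓞 F')) :=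
    Nat.eq_of_mul_eq_mul_left hpos (by omega)
  have r1 := dt_ram_tower_int (E := F) P
  have r2 := dt_ram_tower_int (E := F') P
  rw [e1] at r1
  have he : (P.under (𝓞 F)).ramificationIdx ℤ = (P.under (𝓞 F')).ramificationIdx ℤ :=
    Nat.eq_of_mul_eq_mul_right hpos (r1.symm.trans r2)
  rw [dc_cardZ, dc_cardZ] at he
  rw [he, hd] at hF
  have hc : 0 < Nat.card ((P.under (𝓞 F')).inertia (F' ≃ₐ[ℚ] F')) := Nat.card_pos
  apply Nat.eq_of_mul_eq_mul_right hc
  calc _ = ((discr F).natAbs.factorization p *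
        Nat.card ((P.under (𝓞 F')).inertia (F' ≃ₐ[ℚ] F'))) * Module.finrank ℚ F' := by ring
    _ = ((discr F').natAbs.factorization p *
        Nat.card ((P.under (𝓞 F')).inertia (F' ≃ₐ[ℚ] F'))) * Module.finrank ℚ F := by
        rw [hF, hF']; ring
    _ = _ := by ring

theorem disc_compare {K : Type} [Field K] [NumberField K] [IsGalois ℚ K] (p : ℕ)
    [Fact p.Prime] (P : Ideal (𝓞 K)) [P.IsPrime] (hpP : (p : 𝓞 K) ∈ P)
    (F F' : IntermediateField ℚ K) [IsGalois ℚ F] [IsGalois ℚ F']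
    (h : P.inertia (K ≃ₐ[ℚ] K) ⊓ F.fixingSubgroup = P.inertia (K ≃ₐ[ℚ] K) ⊓ F'.fixingSubgroup) :
    (discr F).natAbs.factorization p * Module.finrank ℚ F' =
      (discr F').natAbs.factorization p * Module.finrank ℚ F := by
  have hm : ∀ E : IntermediateField ℚ K, ((p : ℕ) : 𝓞 E) ∈ P.under (𝓞 E) := by
    intro E
    rw [Ideal.under, Ideal.mem_comap, map_natCast]
    exact hpP
  exact disc_compare' p P hpP F F' (disc_exp p _ (hm F)) (disc_exp p _ (hm F')) h

end Pool.Agent.H98.MK
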