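import Pool.Agent.H98.MK.Defs

/-!
# Project MK, row P1: quadratic characters
-/

set_option autoImplicit false

open Filter Topology

namespace Pool.Agent.H98.MK

private theorem p1_alg : Algebra.IsAlgebraic ℚ Om := by
  have e : (DivisionRing.toRatAlgebra : Algebra ℚ Om) = AlgebraicClosure.instAlgebra ℚ :=
    Subsingleton.elim _ _
  rw [e]
  exact AlgebraicClosure.isAlgebraic ℚ

private theorem p1_gal : IsGalois ℚ Om := by
  have h1 := p1_alg
  have h2 : IsAlgClosure ℚ Om := ⟨inferInstance, h1⟩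
  infer_instance

private lemma p1_root {d : ℚ} {y : Om} (hy : y ^ 2 = (d : Om)) (σ : Gam) :
    σ y = y ∨ σ y = -y := by
  have h : σ y ^ 2 = y ^ 2 := by rw [← map_pow, hy, map_ratCast]
  exact sq_eq_sq_iff_eq_or_eq_neg.mp h

theorem chi_eq_zero_iff' (d : ℚ) (y : Om) (hy : y ^ 2 = (d : Om)) (σ : Gam) :
    chi d σ = 0 ↔ σ y = y := by
  have h1 : chi d σ = 0 ↔ σ (sq d) = sq d := by
    rw [chi]
    split_ifs with h
    · simp [h]
    · simp [h]
  rw [h1]
  have h2 : y ^ 2 = sq d ^ 2 := by rw [hy, sq_sq]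
  rcases sq_eq_sq_iff_eq_or_eq_neg.mp h2 with h | h
  · rw [h]
  · rw [h, map_neg, neg_inj]

private lemma p1_ne (x : ZMod 2) (h : x ≠ 0) : x = 1 := by
  revert x
  decide

theorem chi_eq_one_iff (d : ℚ) (hd : d ≠ 0) (y : Om) (hy : y ^ 2 = (d : Om)) (σ : Gam) :
    chi d σ = 1 ↔ σ y = -y := by
  have hy0 : y ≠ 0 := by
    rintro rfl
    rw [zero_pow two_ne_zero] at hy
    exact hd (by exact_mod_cast hy.symm)
  have hyn : y ≠ -y := by
    intro h
    have h2 : (2 : Om) * y = 0 := by linear_combination h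
    rcases mul_eq_zero.mp h2 with h3 | h3
    · exact two_ne_zero h3
    · exact hy0 h3
  constructor
  · intro h
    rcases p1_root hy σ with h1 | h1
    · rw [(chi_eq_zero_iff' d y hy σ).mpr h1] at h
      exact absurd h zero_ne_one
    · exact h1
  · intro h
    apply p1_ne
    intro h1
    rw [(chi_eq_zero_iff' d y hy σ).mp h1] at h
    exact hyn h

private lemma p1_zero (σ : Gam) : chi 0 σ = 0 := by
  rw [chi_eq_zero_iff' 0 0 (by simp) σ, map_zero]

theorem chi_hom (d : ℚ) (σ τ : Gam) : chi d (σ * τ) = chi d σ + chi d τ := by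
  by_cases hd : d = 0
  · subst hd
    rw [p1_zero, p1_zero, p1_zero, add_zero]
  have hy := sq_sq d
  rcases p1_root hy σ with h1 | h1 <;> rcases p1_root hy τ with h2 | h2
  · rw [(chi_eq_zero_iff' d _ hy σ).mpr h1, (chi_eq_zero_iff' d _ hy τ).mpr h2, add_zero,
      chi_eq_zero_iff' d _ hy, AlgEquiv.mul_apply, h2, h1]
  · rw [(chi_eq_zero_iff' d _ hy σ).mpr h1, (chi_eq_one_iff d hd _ hy τ).mpr h2, zero_add,
      chi_eq_one_iff d hd _ hy, AlgEquiv.mul_apply, h2, map_neg, h1]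
  · rw [(chi_eq_one_iff d hd _ hy σ).mpr h1, (chi_eq_zero_iff' d _ hy τ).mpr h2, add_zero,
      chi_eq_one_iff d hd _ hy, AlgEquiv.mul_apply, h2, h1]
  · rw [(chi_eq_one_iff d hd _ hy σ).mpr h1, (chi_eq_one_iff d hd _ hy τ).mpr h2]
    have h3 : (1 : ZMod 2) + 1 = 0 := by decide
    rw [h3, chi_eq_zero_iff' d _ hy, AlgEquiv.mul_apply, h2, map_neg, h1, neg_neg]

private lemma p1_ev (d : ℚ) (σ : Gam) : ∀ᶠ τ in 𝓝 σ, chi d τ = chi d σ := by
  have halg := p1_alg
  have hint : IsIntegral ℚ (sq d) := Algebra.IsIntegral.isIntegral _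
  have hfin : FiniteDimensional ℚ (IntermediateField.adjoin ℚ ({sq d} : Set Om)) :=
    IntermediateField.adjoin.finiteDimensional hint
  have hopen : IsOpen ((IntermediateField.adjoin ℚ ({sq d} : Set Om)).fixingSubgroup : Set Gam) :=
    IntermediateField.fixingSubgroup_isOpen _
  have h1 : IsOpen ((fun τ : Gam => σ⁻¹ * τ) ⁻¹'
      ((IntermediateField.adjoin ℚ ({sq d} : Set Om)).fixingSubgroup : Set Gam)) :=
    hopen.preimage (continuous_const.mul continuous_id)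
  have h2 : σ ∈ (fun τ : Gam => σ⁻¹ * τ) ⁻¹'
      ((IntermediateField.adjoin ℚ ({sq d} : Set Om)).fixingSubgroup : Set Gam) := by
    rw [Set.mem_preimage, inv_mul_cancel]
    exact one_mem _
  filter_upwards [h1.mem_nhds h2] with τ hτ
  have h3 : (σ⁻¹ * τ) (sq d) = sq d := by
    have h4 : σ⁻¹ * τ ∈ (IntermediateField.adjoin ℚ ({sq d} : Set Om)).fixingSubgroup := hτ
    rw [IntermediateField.mem_fixingSubgroup_iff] at h4
    exact h4 _ (IntermediateField.mem_adjoin_simple_self ℚ (sq d))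
  have h5 : chi d (σ⁻¹ * τ) = 0 := (chi_eq_zero_iff' d _ (sq_sq d) _).mpr h3
  have h6 : τ = σ * (σ⁻¹ * τ) := by rw [mul_inv_cancel_left]
  rw [h6, chi_hom, h5, add_zero]

theorem chi_lc (d : ℚ) : IsLocallyConstant (chi d) :=
  (IsLocallyConstant.iff_eventually_eq _).mpr (p1_ev d)

theorem chi_mul (x y : ℚ) (hx : x ≠ 0) (hy : y ≠ 0) (σ : Gam) :
    chi (x * y) σ = chi x σ + chi y σ := by
  have hxy : (sq x * sq y) ^ 2 = ((x * y : ℚ) : Om) := by
    rw [mul_pow, sq_sq, sq_sq]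
    push_cast
    rfl
  have hd : x * y ≠ 0 := mul_ne_zero hx hy
  rcases p1_root (sq_sq x) σ with h1 | h1 <;> rcases p1_root (sq_sq y) σ with h2 | h2
  · rw [(chi_eq_zero_iff' x _ (sq_sq x) σ).mpr h1, (chi_eq_zero_iff' y _ (sq_sq y) σ).mpr h2,
      add_zero, chi_eq_zero_iff' _ _ hxy, map_mul, h1, h2]
  · rw [(chi_eq_zero_iff' x _ (sq_sq x) σ).mpr h1, (chi_eq_one_iff y hy _ (sq_sq y) σ).mpr h2,
      zero_add, chi_eq_one_iff _ hd _ hxy, map_mul, h1, h2, mul_neg]
  · rw [(chi_eq_one_iff x hx _ (sq_sq x) σ).mpr h1, (chi_eq_zero_iff' y _ (sq_sq y) σ).mpr h2,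
      add_zero, chi_eq_one_iff _ hd _ hxy, map_mul, h1, h2, neg_mul]
  · rw [(chi_eq_one_iff x hx _ (sq_sq x) σ).mpr h1, (chi_eq_one_iff y hy _ (sq_sq y) σ).mpr h2]
    have h3 : (1 : ZMod 2) + 1 = 0 := by decide
    rw [h3, chi_eq_zero_iff' _ _ hxy, map_mul, h1, h2, neg_mul_neg]

theorem chi_sq (x : ℚ) (σ : Gam) : chi (x ^ 2) σ = 0 := by
  rw [chi_eq_zero_iff' (x ^ 2) (x : Om) (by push_cast; rfl), map_ratCast]

theorem chi_isSquare (d : ℚ) (h : ∀ σ, chi d σ = 0) : IsSquare d := by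
  have h1 : ∀ σ : Gam, σ (sq d) = sq d := fun σ =>
    (chi_eq_zero_iff' d _ (sq_sq d) σ).mp (h σ)
  have hgal := p1_gal
  have h2 : sq d ∈ Set.range (algebraMap ℚ Om) :=
    (InfiniteGalois.mem_range_algebraMap_iff_fixed (sq d)).mpr h1
  obtain ⟨q, hq⟩ := h2
  refine ⟨q, ?_⟩
  have h3 : (algebraMap ℚ Om) (q * q) = (algebraMap ℚ Om) d := by
    rw [map_mul, hq, ← pow_two, sq_sq]
    exact (eq_ratCast (algebraMap ℚ Om) d).symm
  exact ((algebraMap ℚ Om).injective h3).symm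

theorem par_hom {W : Type} [AddCommGroup W] [Module (ZMod 2) W] (x : ℕ →₀ W) (σ τ : Gam) :
    par x (σ * τ) = par x σ + par x τ := by
  simp only [par, chi_hom, add_smul]
  exact Finsupp.sum_add

theorem par_lc {W : Type} [AddCommGroup W] [Module (ZMod 2) W] (x : ℕ →₀ W) :
    IsLocallyConstant (par x) := by
  rw [IsLocallyConstant.iff_eventually_eq]
  intro σ
  have h : ∀ᶠ τ in 𝓝 σ, ∀ i ∈ x.support, chi (dd i : ℤ) τ = chi (dd i : ℤ) σ := by
    rw [eventually_all_finset]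
    intro i _
    exact p1_ev _ σ
  filter_upwards [h] with τ hτ
  simp only [par, Finsupp.sum]
  exact Finset.sum_congr rfl fun i hi => by rw [hτ i hi]

theorem par_add {W : Type} [AddCommGroup W] [Module (ZMod 2) W] (x y : ℕ →₀ W) (σ : Gam) :
    par (x + y) σ = par x σ + par y σ := by
  simp only [par]
  exact Finsupp.sum_add_index' (fun i => smul_zero _) (fun i a b => smul_add _ _ _)

end Pool.Agent.H98.MK
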