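import Mathlib

/-!
# Project MK (MP_a3214d), row T3, part 1: elements fixed by the decomposition group are
approximated by rational integers (helper40)
-/

set_option autoImplicit false
set_option maxHeartbeats 400000

open NumberField
open scoped Pointwise

namespace Pool.Agent.H98.MK

variable {K : Type} [Field K] [NumberField K]

/-- Elements with `c = 1` mod `P^M` and `c ∈ (σP)^M` for the other conjugates. -/
private theorem crt (P : Ideal (𝓞 K)) [hP : P.IsPrime] (h0 : P ≠ ⊥) (M : ℕ) :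
    ∃ c : 𝓞 K, c - 1 ∈ P ^ M ∧
      ∀ σ : K ≃ₐ[ℚ] K, σ ∉ MulAction.stabilizer (K ≃ₐ[ℚ] K) P → c ∈ (σ • P) ^ M := by
  classical
  set J : Ideal (𝓞 K) := ∏ σ ∈ (Finset.univ : Finset (K ≃ₐ[ℚ] K)).filter
    (fun σ => σ ∉ MulAction.stabilizer (K ≃ₐ[ℚ] K) P), (σ • P) ^ M with hJ
  have hmax : ∀ σ : K ≃ₐ[ℚ] K, (σ • P).IsMaximal := by
    intro σ
    have hne : σ • P ≠ ⊥ := by
      intro h
      apply h0
      have h1 : σ⁻¹ • σ • P = σ⁻¹ • (⊥ : Ideal (𝓞 K)) := by rw [h]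
      rw [inv_smul_smul] at h1
      rw [h1, Ideal.pointwise_smul_def, Ideal.map_bot]
    exact (Ideal.IsPrime.smul σ).isMaximal hne
  have hPmax : P.IsMaximal := hP.isMaximal h0
  have hco : IsCoprime (P ^ M) J := by
    rw [hJ]
    refine IsCoprime.prod_right fun σ hσ => ?_
    rw [Finset.mem_filter, MulAction.mem_stabilizer_iff] at hσ
    refine IsCoprime.pow ?_
    rw [Ideal.isCoprime_iff_sup_eq]
    exact hPmax.coprime_of_ne (hmax σ) (Ne.symm hσ.2)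
  obtain ⟨a, ha, c, hc, hac⟩ := Ideal.isCoprime_iff_exists.1 hco
  refine ⟨c, ?_, fun σ hσ => ?_⟩
  · have : c - 1 = -a := by rw [← hac]; ring
    rw [this]
    exact (P ^ M).neg_mem ha
  · have hle : J ≤ (σ • P) ^ M := by
      rw [hJ]
      exact Ideal.le_of_dvd (Finset.dvd_prod_of_mem _ (by
        rw [Finset.mem_filter]
        exact ⟨Finset.mem_univ σ, hσ⟩))
    exact hle hc

/-- `σ` maps `(τ P)^M` to `(σ τ P)^M`. -/
private theorem smul_mem_pow (P : Ideal (𝓞 K)) (M : ℕ) (σ : K ≃ₐ[ℚ] K) {x : 𝓞 K}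
    (hx : x ∈ P ^ M) : σ • x ∈ (σ • P) ^ M := by
  have h1 : (P ^ M).map (MulSemiringAction.toRingHom (K ≃ₐ[ℚ] K) (𝓞 K) σ) = (σ • P) ^ M := by
    rw [Ideal.map_pow, ← Ideal.pointwise_smul_def]
  rw [← h1]
  exact Ideal.mem_map_of_mem (MulSemiringAction.toRingHom (K ≃ₐ[ℚ] K) (𝓞 K) σ) hx

/-- An invariant version. -/
private theorem crt_inv (P : Ideal (𝓞 K)) [hP : P.IsPrime] (h0 : P ≠ ⊥) (M : ℕ) :
    ∃ d : 𝓞 K, d - 1 ∈ P ^ M ∧
      (∀ σ : K ≃ₐ[ℚ] K, σ ∉ MulAction.stabilizer (K ≃ₐ[ℚ] K) P → d ∈ (σ • P) ^ M) ∧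
      ∀ ρ ∈ MulAction.stabilizer (K ≃ₐ[ℚ] K) P, ρ • d = d := by
  classical
  obtain ⟨c, hc1, hc⟩ := crt P h0 M
  let Df : Finset (K ≃ₐ[ℚ] K) := Finset.univ.filter
    (fun σ => σ ∈ MulAction.stabilizer (K ≃ₐ[ℚ] K) P)
  have hmem : ∀ τ, τ ∈ Df ↔ τ ∈ MulAction.stabilizer (K ≃ₐ[ℚ] K) P := fun τ => by
    simp only [Df, Finset.mem_filter, Finset.mem_univ, true_and]
  refine ⟨∏ τ ∈ Df, τ • c, ?_, fun σ hσ => ?_, fun ρ hρ => ?_⟩
  · rw [← Ideal.Quotient.eq, map_prod, map_one]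
    refine Finset.prod_eq_one fun τ hτ => ?_
    rw [← map_one (Ideal.Quotient.mk (P ^ M)), Ideal.Quotient.eq]
    have h1 := smul_mem_pow P M τ hc1
    rw [smul_sub, smul_one] at h1
    have h2 : τ • P = P := (hmem τ).1 hτ
    rwa [h2] at h1
  · have h1 : (1 : K ≃ₐ[ℚ] K) ∈ Df := (hmem 1).2 (Subgroup.one_mem _)
    rw [← Finset.mul_prod_erase Df _ h1, one_smul]
    exact Ideal.mul_mem_right _ _ (hc σ hσ)
  · rw [Finset.smul_prod']
    refine Finset.prod_bij (fun τ _ => ρ * τ) (fun τ hτ => ?_) (fun τ _ τ' _ h => ?_)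
      (fun τ hτ => ?_) (fun τ _ => ?_)
    · exact (hmem _).2 (Subgroup.mul_mem _ hρ ((hmem τ).1 hτ))
    · exact mul_left_cancel h
    · exact ⟨ρ⁻¹ * τ, (hmem _).2 (Subgroup.mul_mem _ (Subgroup.inv_mem _ hρ) ((hmem τ).1 hτ)),
        mul_inv_cancel_left ρ τ⟩
    · exact (mul_smul ρ τ c).symm

/-- Elements fixed by the decomposition group are approximated by rational integers. -/
theorem dec_approx [IsGalois ℚ K] (P : Ideal (𝓞 K)) [hP : P.IsPrime] (h0 : P ≠ ⊥) (M : ℕ)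
    (g : 𝓞 K) (hg : ∀ ρ ∈ MulAction.stabilizer (K ≃ₐ[ℚ] K) P, ρ • g = g) :
    ∃ b : ℤ, g - algebraMap ℤ (𝓞 K) b ∈ P ^ M := by
  classical
  obtain ⟨d, hd1, hd, hdinv⟩ := crt_inv P h0 M
  set y : 𝓞 K := g * d with hy
  have hyinv : ∀ ρ ∈ MulAction.stabilizer (K ≃ₐ[ℚ] K) P, ρ • y = y := by
    intro ρ hρ
    rw [hy, smul_mul', hg ρ hρ, hdinv ρ hρ]
  have hy1 : y - g ∈ P ^ M := by
    have : y - g = g * (d - 1) := by rw [hy]; ring
    rw [this]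
    exact Ideal.mul_mem_left _ _ hd1
  have hyσ : ∀ σ : K ≃ₐ[ℚ] K, σ ∉ MulAction.stabilizer (K ≃ₐ[ℚ] K) P → σ • y ∈ P ^ M := by
    intro σ hσ
    have h1 : σ⁻¹ ∉ MulAction.stabilizer (K ≃ₐ[ℚ] K) P := by
      intro h
      exact hσ (by simpa using Subgroup.inv_mem _ h)
    have h2 : y ∈ (σ⁻¹ • P) ^ M := Ideal.mul_mem_left _ _ (hd _ h1)
    have h3 := smul_mem_pow (σ⁻¹ • P) M σ h2
    rwa [smul_inv_smul] at h3
  let F : (K ≃ₐ[ℚ] K) ⧸ MulAction.stabilizer (K ≃ₐ[ℚ] K) P → 𝓞 K :=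
    Quotient.lift (fun σ : K ≃ₐ[ℚ] K => σ • y) (by
      intro σ τ hst
      have h1 : σ⁻¹ * τ ∈ MulAction.stabilizer (K ≃ₐ[ℚ] K) P := QuotientGroup.leftRel_apply.1 hst
      have h2 := hyinv _ h1
      calc σ • y = σ • (σ⁻¹ * τ) • y := by rw [h2]
        _ = τ • y := by rw [← mul_smul, mul_inv_cancel_left])
  have hF : ∀ σ : K ≃ₐ[ℚ] K, F (QuotientGroup.mk σ) = σ • y := fun _ => rfl
  have hinv : ∀ ρ : K ≃ₐ[ℚ] K, ρ • (∑ q, F q) = ∑ q, F q := by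
    intro ρ
    rw [Finset.smul_sum]
    refine Fintype.sum_equiv (MulAction.toPerm ρ) _ _ fun q => ?_
    induction q using QuotientGroup.induction_on with
    | H σ =>
      rw [hF, ← mul_smul]
      rfl
  obtain ⟨b, hb⟩ := Algebra.IsInvariant.isInvariant (A := ℤ) (∑ q, F q) hinv
  refine ⟨b, ?_⟩
  rw [hb, ← Finset.add_sum_erase Finset.univ F
    (Finset.mem_univ (QuotientGroup.mk (1 : K ≃ₐ[ℚ] K))), hF, one_smul]
  have h5 : ∑ q ∈ Finset.univ.erase (QuotientGroup.mk (1 : K ≃ₐ[ℚ] K)), F q ∈ P ^ M := by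
    refine Ideal.sum_mem _ fun q hq => ?_
    induction q using QuotientGroup.induction_on with
    | H σ =>
      rw [hF]
      refine hyσ σ fun h => ?_
      apply (Finset.mem_erase.1 hq).1
      rw [QuotientGroup.eq, mul_one]
      exact Subgroup.inv_mem _ h
  have h6 : g - (y + ∑ q ∈ Finset.univ.erase (QuotientGroup.mk (1 : K ≃ₐ[ℚ] K)), F q) =
      -(y - g) - ∑ q ∈ Finset.univ.erase (QuotientGroup.mk (1 : K ≃ₐ[ℚ] K)), F q := by ring
  rw [h6]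
  exact (P ^ M).sub_mem ((P ^ M).neg_mem hy1) h5

end Pool.Agent.H98.MK
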