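import Pool.Agent.H98.MK.Defs
import Pool.Agent.H98.MK.DecApx
import Pool.Agent.H35.AN.Inert

/-!
# Project MK (MP_a3214d), row T3: homomorphisms of the decomposition group at 2 (helper40)
-/

set_option autoImplicit false
set_option maxHeartbeats 400000

open NumberField IsDedekindDomain
open scoped Pointwise

namespace Pool.Agent.H98.MK

section

variable {K : Type} [Field K]

/-- The sign of an element of `𝔽₂`. -/
private def sg (K : Type) [Field K] (c : ZMod 2) : K := if c = 0 then 1 else -1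

private theorem sg_zero : sg K 0 = 1 := if_pos rfl

private theorem sg_one : sg K 1 = -1 := if_neg (by decide)

private theorem sg_cases (c : ZMod 2) : c = 0 ∨ c = 1 := by
  fin_cases c
  · exact Or.inl rfl
  · exact Or.inr rfl

private theorem sg_add (c d : ZMod 2) : sg K (c + d) = sg K c * sg K d := by
  rcases sg_cases c with rfl | rfl <;> rcases sg_cases d with rfl | rfl
  · rw [zero_add, sg_zero, one_mul]
  · rw [zero_add, sg_zero, one_mul]
  · rw [add_zero, sg_zero, mul_one]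
  · have : (1 : ZMod 2) + 1 = 0 := by decide
    rw [this, sg_zero, sg_one]
    ring

private theorem sg_mul_self (c : ZMod 2) : sg K c * sg K c = 1 := by
  rcases sg_cases c with rfl | rfl
  · rw [sg_zero, one_mul]
  · rw [sg_one]
    ring

private theorem sg_ne (c : ZMod 2) : sg K c ≠ 0 := by
  intro h
  have := sg_mul_self (K := K) c
  rw [h, zero_mul] at this
  exact zero_ne_one this

private theorem sg_pow (c : ZMod 2) (n : ℕ) : sg K c ^ n = sg K ((n : ZMod 2) * c) := by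
  induction n with
  | zero => simp [sg_zero]
  | succ n ih =>
    rw [pow_succ, ih, ← sg_add]
    congr 1
    push_cast
    ring

variable [NumberField K]

/-- The inertia group moves integral elements by elements of the maximal ideal. -/
private theorem inertia_sub (P : HeightOneSpectrum (𝓞 K)) {σ : K ≃ₐ[ℚ] K}
    (hσ : σ ∈ P.asIdeal.inertia (K ≃ₐ[ℚ] K)) (x : K) (hx' : P.valuation K x ≤ 1) :
    P.valuation K (σ x - x) < 1 := by
  have hval : ∀ w : K, P.valuation K (σ w) = P.valuation K w :=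
    Pool.Agent.H35.AN.an4_val_inertia P hσ
  obtain ⟨y, z, hyz⟩ := P.exists_primeCompl_mul_eq_of_integer x hx'
  have hz1 : P.valuation K (algebraMap (𝓞 K) K z) = 1 := by
    rw [P.valuation_of_algebraMap]
    exact (P.intValuation_eq_one_iff_mem_primeCompl z).mpr z.2
  have hmem : ∀ w : 𝓞 K, P.valuation K (σ (algebraMap (𝓞 K) K w) -
      algebraMap (𝓞 K) K w) < 1 := by
    intro w
    have h1 : σ • w - w ∈ P.asIdeal := hσ w
    have h2 : σ (algebraMap (𝓞 K) K w) - algebraMap (𝓞 K) K w =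
        algebraMap (𝓞 K) K (σ • w - w) := by
      rw [map_sub]
      rfl
    rw [h2]
    exact (P.valuation_lt_one_iff_mem _).2 h1
  have hσz : P.valuation K (σ (algebraMap (𝓞 K) K z)) = 1 := by rw [hval, hz1]
  have hy1 : P.valuation K (algebraMap (𝓞 K) K y) ≤ 1 := P.valuation_le_one y
  have key : (σ x - x) * (σ (algebraMap (𝓞 K) K z) * algebraMap (𝓞 K) K z) =
      (σ (algebraMap (𝓞 K) K y) - algebraMap (𝓞 K) K y) * algebraMap (𝓞 K) K z -
      algebraMap (𝓞 K) K y * (σ (algebraMap (𝓞 K) K z) - algebraMap (𝓞 K) K z) := by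
    rw [← hyz, map_mul]
    ring
  have h1 := congrArg (P.valuation K) key
  rw [map_mul, map_mul, hσz, hz1, mul_one, mul_one] at h1
  rw [h1]
  refine (Valuation.map_sub _ _ _).trans_lt (max_lt ?_ ?_)
  · rw [map_mul, hz1, mul_one]
    exact hmem y
  · rw [map_mul]
    exact (mul_le_of_le_one_left' hy1).trans_lt (hmem z)

/-- The Kummer generator. -/
private theorem kummer [IsGalois ℚ K] (P : Ideal (𝓞 K)) (h : (K ≃ₐ[ℚ] K) → ZMod 2)
    (ha : ∀ σ ∈ MulAction.stabilizer (K ≃ₐ[ℚ] K) P, ∀ τ ∈ MulAction.stabilizer (K ≃ₐ[ℚ] K) P,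
      h (σ * τ) = h σ + h τ) (τ0 : K ≃ₐ[ℚ] K)
    (hτ0 : τ0 ∈ MulAction.stabilizer (K ≃ₐ[ℚ] K) P) (hτ1 : h τ0 = 1) :
    ∃ w : K, w ≠ 0 ∧ ∀ σ ∈ MulAction.stabilizer (K ≃ₐ[ℚ] K) P, σ w = sg K (h σ) * w := by
  have h1 : h 1 = 0 := by
    have := ha 1 (Subgroup.one_mem _) 1 (Subgroup.one_mem _)
    rw [mul_one] at this
    simpa using this
  have hinv : ∀ σ ∈ MulAction.stabilizer (K ≃ₐ[ℚ] K) P, h σ⁻¹ = h σ := by
    intro σ hσ
    have := ha σ hσ σ⁻¹ (Subgroup.inv_mem _ hσ)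
    rw [mul_inv_cancel, h1] at this
    have h2 : h σ + h σ = 0 := CharTwo.add_self_eq_zero _
    have h3 : h σ + h σ⁻¹ = h σ + h σ := by rw [← this, h2]
    exact add_left_cancel h3
  let H : Subgroup (K ≃ₐ[ℚ] K) :=
    { carrier := {σ | σ ∈ MulAction.stabilizer (K ≃ₐ[ℚ] K) P ∧ h σ = 0}
      mul_mem' := by
        rintro σ τ ⟨hσ, hσ0⟩ ⟨hτ, hτ0⟩
        exact ⟨Subgroup.mul_mem _ hσ hτ, by rw [ha σ hσ τ hτ, hσ0, hτ0, add_zero]⟩
      one_mem' := ⟨Subgroup.one_mem _, h1⟩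
      inv_mem' := by
        rintro σ ⟨hσ, hσ0⟩
        exact ⟨Subgroup.inv_mem _ hσ, by rw [hinv σ hσ, hσ0]⟩ }
  have hHmem : ∀ σ, σ ∈ H ↔ σ ∈ MulAction.stabilizer (K ≃ₐ[ℚ] K) P ∧ h σ = 0 := fun _ => Iff.rfl
  have hex : ∃ a : K, (∀ σ ∈ H, σ a = a) ∧ τ0 a ≠ a := by
    by_contra hcon
    push Not at hcon
    have h2 : τ0 ∈ (IntermediateField.fixedField H).fixingSubgroup := by
      rw [IntermediateField.mem_fixingSubgroup_iff]
      intro a hfix
      refine hcon a fun σ hσ => ?_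
      exact hfix ⟨σ, hσ⟩
    rw [IntermediateField.fixingSubgroup_fixedField] at h2
    have h3 := ((hHmem τ0).1 h2).2
    rw [hτ1] at h3
    exact one_ne_zero h3
  obtain ⟨a, hafix, hane⟩ := hex
  refine ⟨a - τ0 a, sub_ne_zero.2 (Ne.symm hane), fun σ hσ => ?_⟩
  rcases sg_cases (h σ) with hc | hc
  · rw [hc, sg_zero, one_mul, map_sub]
    have e1 : σ a = a := hafix σ ⟨hσ, hc⟩
    have e2 : σ (τ0 a) = τ0 a := by
      have e3 : (τ0⁻¹ * (σ * τ0)) a = a := by
        refine hafix _ ⟨Subgroup.mul_mem _ (Subgroup.inv_mem _ hτ0)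
          (Subgroup.mul_mem _ hσ hτ0), ?_⟩
        rw [ha _ (Subgroup.inv_mem _ hτ0) _ (Subgroup.mul_mem _ hσ hτ0), ha _ hσ _ hτ0,
          hinv _ hτ0, hτ1, hc]
        decide
      have e4 : τ0 ((τ0⁻¹ * (σ * τ0)) a) = σ (τ0 a) := by
        rw [← AlgEquiv.mul_apply, mul_inv_cancel_left]
        rfl
      rw [← e4, e3]
    rw [e1, e2]
  · rw [hc, sg_one, map_sub]
    have e1 : σ a = τ0 a := by
      have e3 : (τ0⁻¹ * σ) a = a := by
        refine hafix _ ⟨Subgroup.mul_mem _ (Subgroup.inv_mem _ hτ0) hσ, ?_⟩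
        rw [ha _ (Subgroup.inv_mem _ hτ0) _ hσ, hinv _ hτ0, hτ1, hc]
        decide
      have e4 : τ0 ((τ0⁻¹ * σ) a) = σ a := by
        rw [← AlgEquiv.mul_apply, mul_inv_cancel_left]
      rw [← e4, e3]
    have e2 : σ (τ0 a) = a := by
      refine hafix (σ * τ0) ⟨Subgroup.mul_mem _ hσ hτ0, ?_⟩
      rw [ha _ hσ _ hτ0, hτ1, hc]
      decide
    rw [e1, e2]
    ring

/-- The integral Kummer generator. -/
private theorem kummer_int [IsGalois ℚ K] (P : Ideal (𝓞 K)) (h : (K ≃ₐ[ℚ] K) → ZMod 2)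
    (ha : ∀ σ ∈ MulAction.stabilizer (K ≃ₐ[ℚ] K) P, ∀ τ ∈ MulAction.stabilizer (K ≃ₐ[ℚ] K) P,
      h (σ * τ) = h σ + h τ) (τ0 : K ≃ₐ[ℚ] K)
    (hτ0 : τ0 ∈ MulAction.stabilizer (K ≃ₐ[ℚ] K) P) (hτ1 : h τ0 = 1) :
    ∃ W : 𝓞 K, W ≠ 0 ∧ ∀ σ ∈ MulAction.stabilizer (K ≃ₐ[ℚ] K) P,
      σ (algebraMap (𝓞 K) K W) = sg K (h σ) * algebraMap (𝓞 K) K W := by
  obtain ⟨w, hw0, hw⟩ := kummer P h ha τ0 hτ0 hτ1
  obtain ⟨m, hm, hint⟩ := ((IsFractionRing.isAlgebraic_iff ℤ ℚ K).2
    (Algebra.IsAlgebraic.isAlgebraic w)).exists_integral_multiple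
  refine ⟨⟨m • w, hint⟩, ?_, fun σ hσ => ?_⟩
  · intro h0
    have h1 : m • w = 0 := congrArg (algebraMap (𝓞 K) K) h0
    rw [smul_eq_zero] at h1
    rcases h1 with h1 | h1
    · exact hm h1
    · exact hw0 h1
  · show σ (m • w) = sg K (h σ) * (m • w)
    rw [zsmul_eq_mul, map_mul, map_intCast, hw σ hσ]
    ring

end

open Classical in
theorem dec_hom {K : Type} [Field K] [NumberField K] [IsGalois ℚ K] (P : Ideal (𝓞 K))
    [P.IsPrime] (h2 : (2 : 𝓞 K) ∈ P) (i t : K) (hi : i ^ 2 = -1) (ht : t ^ 2 = 2)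
    (h : (K ≃ₐ[ℚ] K) → ZMod 2)
    (ha : ∀ σ ∈ MulAction.stabilizer (K ≃ₐ[ℚ] K) P, ∀ τ ∈ MulAction.stabilizer (K ≃ₐ[ℚ] K) P,
      h (σ * τ) = h σ + h τ) :
    ∃ x y : ZMod 2, ∀ σ ∈ P.inertia (K ≃ₐ[ℚ] K),
      h σ = x * (if σ i = i then 0 else 1) + y * (if σ t = t then 0 else 1) := by
  classical
  have hPne : P ≠ ⊥ := by
    rintro rfl
    rw [Ideal.mem_bot] at h2
    exact two_ne_zero h2
  have hle : ∀ σ ∈ P.inertia (K ≃ₐ[ℚ] K), σ ∈ MulAction.stabilizer (K ≃ₐ[ℚ] K) P :=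
    fun σ hσ => Ideal.inertia_le_stabilizer (M := K ≃ₐ[ℚ] K) P hσ
  by_cases hz : ∀ σ ∈ MulAction.stabilizer (K ≃ₐ[ℚ] K) P, h σ = 0
  · exact ⟨0, 0, fun σ hσ => by rw [hz σ (hle σ hσ), zero_mul, zero_mul, add_zero]⟩
  push Not at hz
  obtain ⟨τ0, hτ0, hτ1⟩ := hz
  have hτ1' : h τ0 = 1 := (sg_cases (h τ0)).resolve_left hτ1
  obtain ⟨W, hW0, hW⟩ := kummer_int P h ha τ0 hτ0 hτ1'
  let Q : HeightOneSpectrum (𝓞 K) := ⟨P, inferInstance, hPne⟩
  set v := Q.valuation K with hv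
  set g : 𝓞 K := W * W with hg
  have hg0 : g ≠ 0 := mul_ne_zero hW0 hW0
  have hginv : ∀ ρ ∈ MulAction.stabilizer (K ≃ₐ[ℚ] K) P, ρ • g = g := by
    intro ρ hρ
    apply FaithfulSMul.algebraMap_injective (𝓞 K) K
    have e1 : algebraMap (𝓞 K) K (ρ • g) = ρ (algebraMap (𝓞 K) K g) := rfl
    rw [e1, hg, map_mul, map_mul, hW ρ hρ]
    linear_combination (algebraMap (𝓞 K) K W) ^ 2 * sg_mul_self (K := K) (h ρ)
  set gK : K := algebraMap (𝓞 K) K g with hgK
  have hgK0 : gK ≠ 0 := by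
    rw [hgK]
    exact (map_ne_zero_iff _ (FaithfulSMul.algebraMap_injective (𝓞 K) K)).2 hg0
  -- approximation by a rational integer
  have h4g : (4 * g : 𝓞 K) ≠ 0 := mul_ne_zero (by norm_num) hg0
  obtain ⟨b, hb⟩ := dec_approx P hPne
    (multiplicity Q.asIdeal (Ideal.span {(4 * g : 𝓞 K)})) g hginv
  have hA : v (gK - (b : K)) ≤ v 4 * v gK := by
    have e1 : gK - (b : K) = algebraMap (𝓞 K) K (g - algebraMap ℤ (𝓞 K) b) := by
      rw [map_sub, hgK]
      simp
    have e2 : (4 : K) * gK = algebraMap (𝓞 K) K (4 * g) := by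
      rw [map_mul, hgK, map_ofNat]
    rw [← map_mul, e1, e2, hv, Q.valuation_of_algebraMap, Q.valuation_of_algebraMap,
      Q.intValuation_eq_exp_neg_multiplicity h4g, Q.intValuation_le_pow_iff_mem]
    exact hb
  have hv2 : v 2 < 1 := by
    have e1 : v (algebraMap (𝓞 K) K 2) < 1 :=
      (Q.valuation_lt_one_iff_mem (K := K) (2 : 𝓞 K)).2 h2
    have e2 : algebraMap (𝓞 K) K 2 = 2 := map_ofNat (algebraMap (𝓞 K) K) 2
    rw [e2] at e1
    exact e1
  have hv4 : v 4 < 1 := by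
    have e1 : (4 : K) = 2 * 2 := by norm_num
    rw [e1, map_mul]
    exact (mul_le_of_le_one_left' hv2.le).trans_lt hv2
  have h20 : (2 : K) ≠ 0 := two_ne_zero
  have h40 : (4 : K) ≠ 0 := by norm_num
  have hvg0 : v gK ≠ 0 := (Valuation.ne_zero_iff v).2 hgK0
  have hlt : v (gK - (b : K)) < v gK := by
    refine hA.trans_lt ?_
    calc v 4 * v gK < 1 * v gK := by
          exact mul_lt_mul_of_pos_right hv4 (zero_lt_iff.2 hvg0)
      _ = v gK := one_mul _
  have hB : v (b : K) = v gK := by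
    have e1 := Valuation.map_sub_eq_of_lt_right v hlt
    have e2 : gK - (b : K) - gK = -(b : K) := by ring
    rwa [e2, Valuation.map_neg] at e1
  have hb0 : b ≠ 0 := by
    rintro rfl
    rw [Int.cast_zero, map_zero] at hB
    exact hvg0 hB.symm
  obtain ⟨u, hbu, hu⟩ := (Int.finiteMultiplicity_iff.2
    ⟨by decide, hb0⟩ : FiniteMultiplicity (2 : ℤ) b).exists_eq_pow_mul_and_not_dvd
  set n := multiplicity (2 : ℤ) b with hn
  have hvu : v (u : K) = 1 := by
    have e1 : (u : K) = algebraMap (𝓞 K) K (u : 𝓞 K) := by simp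
    rw [e1, hv, Q.valuation_eq_one_iff_notMem]
    intro hmem
    have hmem' : (u : 𝓞 K) ∈ P := hmem
    have hodd : u % 2 = 1 := by omega
    obtain ⟨k, hk⟩ : ∃ k, u = 2 * k + 1 := ⟨u / 2, by omega⟩
    have h1 : (1 : 𝓞 K) ∈ P := by
      have e2 : (1 : 𝓞 K) = (u : 𝓞 K) - 2 * (k : 𝓞 K) := by
        rw [hk]
        push_cast
        ring
      rw [e2]
      exact P.sub_mem hmem' (Ideal.mul_mem_right _ _ h2)
    exact (Ideal.IsPrime.ne_top inferInstance) ((Ideal.eq_top_iff_one P).2 h1)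
  obtain ⟨j, k, ι, hι2, hιs, huk⟩ : ∃ (j : ZMod 2) (k : ℤ) (ι : K), ι ^ 2 = sg K j ∧
      (∀ (σ : K ≃ₐ[ℚ] K) (c : ZMod 2), σ i = sg K c * i → σ ι = sg K (j * c) * ι) ∧
      (u : K) = sg K j + 4 * (k : K) := by
    have h4 : u % 4 = 1 ∨ u % 4 = 3 := by omega
    rcases h4 with h4 | h4
    · refine ⟨0, u / 4, 1, ?_, fun σ c _ => ?_, ?_⟩
      · rw [sg_zero, one_pow]
      · rw [map_one, zero_mul, sg_zero, one_mul]
      · have e1 : u = 1 + 4 * (u / 4) := by omega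
        rw [sg_zero]
        exact_mod_cast e1
    · refine ⟨1, u / 4 + 1, i, ?_, fun σ c hc => ?_, ?_⟩
      · rw [sg_one, hi]
      · rw [one_mul, hc]
      · have e1 : u = -1 + 4 * (u / 4 + 1) := by omega
        rw [sg_one]
        exact_mod_cast e1
  have hι0 : ι ≠ 0 := by
    rintro rfl
    rw [zero_pow (by norm_num)] at hι2
    exact sg_ne _ hι2.symm
  have ht0 : t ≠ 0 := by
    rintro rfl
    rw [zero_pow (by norm_num)] at ht
    exact h20 ht.symm
  have hi0 : i ≠ 0 := by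
    rintro rfl
    rw [zero_pow (by norm_num)] at hi
    have : (1 : K) = 0 := by linear_combination hi
    exact one_ne_zero this
  set T : K := t ^ n * ι with hT
  have hT0 : T ≠ 0 := mul_ne_zero (pow_ne_zero _ ht0) hι0
  have hT2 : T ^ 2 = 2 ^ n * sg K j := by
    rw [hT, mul_pow, hι2, ← pow_mul, mul_comm n 2, pow_mul, ht]
  have hvs : ∀ c : ZMod 2, v (sg K c) = 1 := by
    intro c
    rcases sg_cases c with rfl | rfl
    · rw [sg_zero, map_one]
    · rw [sg_one, Valuation.map_neg, map_one]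
  have hbK : (b : K) = 2 ^ n * (u : K) := by
    exact_mod_cast congrArg (fun x : ℤ => (x : K)) hbu
  have hvgn : v gK = v (2 ^ n) := by
    rw [← hB, hbK, map_mul, hvu, mul_one]
  set w2 : K := algebraMap (𝓞 K) K W / T with hw2
  have hw2sq : w2 ^ 2 = gK / (2 ^ n * sg K j) := by
    rw [hw2, div_pow, hT2, hgK, hg, map_mul]
    ring
  have hvw2 : v w2 = 1 := by
    have e1 : v w2 ^ 2 = 1 := by
      rw [← map_pow, hw2sq, map_div₀, map_mul, hvs, mul_one, hvgn]
      exact div_self (by rw [← hvgn]; exact hvg0)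
    exact (pow_eq_one_iff.1 e1).resolve_right (by norm_num)
  set z : K := (1 + w2) / 2 with hzdef
  have hzz : v (z ^ 2 - z) ≤ 1 := by
    have e1 : z ^ 2 - z = (gK - 2 ^ n * sg K j) / (4 * (2 ^ n * sg K j)) := by
      have hne : (2 : K) ^ n * sg K j ≠ 0 := mul_ne_zero (pow_ne_zero _ h20) (sg_ne _)
      have e2 : z ^ 2 - z = (w2 ^ 2 - 1) / 4 := by
        rw [hzdef]
        field_simp
        ring
      rw [e2, hw2sq, div_sub_one hne, div_div, mul_comm (2 ^ n * sg K j) 4]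
    have e3 : v (gK - 2 ^ n * sg K j) ≤ v 4 * v (2 ^ n) := by
      have e4 : gK - 2 ^ n * sg K j = (gK - (b : K)) + 2 ^ n * (4 * (k : K)) := by
        rw [hbK, huk]
        ring
      rw [e4]
      refine (Valuation.map_add v _ _).trans (max_le ?_ ?_)
      · rw [← hvgn]
        exact hA
      · rw [map_mul, map_mul]
        have e5 : v (k : K) ≤ 1 := by
          have e6 : (k : K) = algebraMap (𝓞 K) K (k : 𝓞 K) := by simp
          rw [e6]
          exact Q.valuation_le_one _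
        calc v (2 ^ n) * (v 4 * v (k : K)) ≤ v (2 ^ n) * (v 4 * 1) := by gcongr
          _ = v 4 * v (2 ^ n) := by rw [mul_one, mul_comm]
    rw [e1, map_div₀, map_mul, map_mul, hvs, mul_one]
    have hpos : v 4 * v (2 ^ n) ≠ 0 := mul_ne_zero ((Valuation.ne_zero_iff v).2 h40)
      ((Valuation.ne_zero_iff v).2 (pow_ne_zero _ h20))
    exact div_le_one_of_le₀ e3 (zero_le)
  have hvz : v z ≤ 1 := by
    by_contra hcon
    push Not at hcon
    have e1 : v z < v (z ^ 2) := by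
      rw [map_pow, pow_two]
      calc v z = 1 * v z := (one_mul _).symm
        _ < v z * v z := mul_lt_mul_of_pos_right hcon (zero_lt_one.trans hcon)
    have e2 := Valuation.map_sub_eq_of_lt_left v e1
    rw [e2] at hzz
    exact absurd (hcon.trans e1) (not_lt.2 hzz)
  refine ⟨j, (n : ZMod 2), fun σ hσ => ?_⟩
  have hsq : ∀ x : K, σ x ^ 2 = x ^ 2 → x ≠ 0 →
      σ x = sg K (if σ x = x then 0 else 1) * x := by
    intro x hx hx0
    by_cases hxx : σ x = x
    · rw [if_pos hxx, sg_zero, one_mul]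
      exact hxx
    · rw [if_neg hxx, sg_one]
      have e1 : (σ x - x) * (σ x + x) = 0 := by linear_combination hx
      rcases mul_eq_zero.1 e1 with e2 | e2
      · exact absurd (sub_eq_zero.1 e2) hxx
      · linear_combination e2
  have hσi := hsq i (by rw [← map_pow, hi, map_neg, map_one]) hi0
  have hσt := hsq t (by rw [← map_pow, ht, map_ofNat]) ht0
  set ci : ZMod 2 := if σ i = i then 0 else 1 with hci
  set ct : ZMod 2 := if σ t = t then 0 else 1 with hct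
  have hσT : σ T = sg K (j * ci + (n : ZMod 2) * ct) * T := by
    rw [hT, map_mul, map_pow, hσt, hιs σ ci hσi, mul_pow, sg_pow, sg_add]
    ring
  have hσw : σ w2 = sg K (h σ + (j * ci + (n : ZMod 2) * ct)) * w2 := by
    rw [hw2, map_div₀, hσT, hW σ (hle σ hσ), sg_add (h σ)]
    have e1 := sg_mul_self (K := K) (j * ci + (n : ZMod 2) * ct)
    have e2 := sg_ne (K := K) (j * ci + (n : ZMod 2) * ct)
    rw [div_eq_iff (mul_ne_zero e2 hT0)]
    field_simp
    linear_combination (-(sg K (h σ) * algebraMap (𝓞 K) K W)) * e1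
  rcases sg_cases (h σ + (j * ci + (n : ZMod 2) * ct)) with hc | hc
  · have e1 : h σ = -(j * ci + (n : ZMod 2) * ct) := eq_neg_of_add_eq_zero_left hc
    rw [e1, CharTwo.neg_eq]
  · exfalso
    rw [hc, sg_one] at hσw
    have e1 := inertia_sub Q (σ := σ) hσ z hvz
    have e2 : σ z - z = -w2 := by
      rw [hzdef, map_div₀, map_add, map_one, hσw, map_ofNat]
      ring
    rw [e2, Valuation.map_neg] at e1
    exact absurd e1 (by rw [← hv, hvw2]; exact lt_irrefl _)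

end Pool.Agent.H98.MK
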