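import Pool.Agent.H98.MK.Defs
import Pool.Agent.H67.MU.Exp

/-!
# Project MK (MP_a3214d), row MK-T2: square roots of `m` at the primes above two
-/

set_option autoImplicit false

open NumberField Pool.Agent.H67.MU

open scoped Pointwise

namespace Pool.Agent.H98.MK

/-- The integer `z = (1 + y) / 2`. -/
private lemma tq_half {K : Type} [Field K] [NumberField K] (m k : ℤ) (hm : m = 4 * k + 1)
    (y : K) (hy : y ^ 2 = m) : ∃ z Y : 𝓞 K, (z : K) = (1 + y) / 2 ∧ (Y : K) = y ∧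
      z * z - z = (k : 𝓞 K) ∧ Y * Y = (m : 𝓞 K) := by
  have h2 : (2 : K) ≠ 0 := two_ne_zero
  have e1 : ((1 + y) / 2) * ((1 + y) / 2) - (1 + y) / 2 = (k : K) := by
    have : ((1 + y) / 2) * ((1 + y) / 2) - (1 + y) / 2 = (y ^ 2 - 1) / 4 := by ring
    rw [this, hy, hm]
    push_cast
    field_simp
    ring
  have hz : IsIntegral ℤ ((1 + y) / 2) := by
    refine ⟨Polynomial.X ^ 2 - Polynomial.X - Polynomial.C k, ?_, ?_⟩
    · monicity!
    · rw [Polynomial.eval₂_sub, Polynomial.eval₂_sub, Polynomial.eval₂_pow, Polynomial.eval₂_X,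
        Polynomial.eval₂_C, eq_intCast, ← e1]
      ring
  have hY : IsIntegral ℤ y := by
    refine ⟨Polynomial.X ^ 2 - Polynomial.C m, ?_, ?_⟩
    · monicity!
    · rw [Polynomial.eval₂_sub, Polynomial.eval₂_pow, Polynomial.eval₂_X, Polynomial.eval₂_C,
        eq_intCast, hy, sub_self]
  refine ⟨⟨_, hz⟩, ⟨_, hY⟩, rfl, rfl, ?_, ?_⟩
  · apply RingOfIntegers.ext
    simp only [map_sub, map_mul, map_intCast]
    exact e1
  · apply RingOfIntegers.ext
    simp only [map_mul, map_intCast]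
    rw [← hy]
    change y * y = y ^ 2
    ring

private lemma tq_sign {K : Type} [Field K] [NumberField K] (m : ℤ) (y : K) (hy : y ^ 2 = m)
    (σ : K ≃ₐ[ℚ] K) : σ y = y ∨ σ y = -y := by
  have h : (σ y) ^ 2 = y ^ 2 := by
    rw [← map_pow, hy, map_intCast]
  exact sq_eq_sq_iff_eq_or_eq_neg.1 h

theorem two_four {K : Type} [Field K] [NumberField K] (P : Ideal (𝓞 K)) [P.IsPrime]
    (h2 : (2 : 𝓞 K) ∈ P) (m : ℤ) (hm : m % 4 = 1) (y : K) (hy : y ^ 2 = m)
    (σ : K ≃ₐ[ℚ] K) (hσ : σ ∈ P.inertia (K ≃ₐ[ℚ] K)) : σ y = y := by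
  rcases tq_sign m y hy σ with h | h
  · exact h
  exfalso
  obtain ⟨z, Y, hz, hY, -, hYY⟩ := tq_half m (m / 4) (by omega) y hy
  have h1 : σ • z - z ∈ P := hσ z
  have h3 : σ • z - z = -Y := by
    apply RingOfIntegers.ext
    change σ (z : K) - (z : K) = -(Y : K)
    rw [hz, hY, map_div₀, map_add, map_one, h, map_ofNat]
    ring
  rw [h3] at h1
  have h4 : Y ∈ P := by simpa using h1
  have h5 : (m : 𝓞 K) ∈ P := by
    rw [← hYY]
    exact P.mul_mem_left _ h4
  have h6 : (1 : 𝓞 K) ∈ P := by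
    have e : (1 : 𝓞 K) = (m : 𝓞 K) - ((2 * (m / 4) : ℤ) : 𝓞 K) * 2 := by
      have : (m : ℤ) = 4 * (m / 4) + 1 := by omega
      have h7 : (m : 𝓞 K) = 4 * ((m / 4 : ℤ) : 𝓞 K) + 1 := by exact_mod_cast congrArg (Int.cast (R := 𝓞 K)) this
      rw [h7]
      push_cast
      ring
    rw [e]
    exact P.sub_mem h5 (P.mul_mem_left _ h2)
  exact (Ideal.IsPrime.ne_top ‹_›) ((Ideal.eq_top_iff_one P).2 h6)

theorem two_eight {K : Type} [Field K] [NumberField K] (P : Ideal (𝓞 K)) [P.IsPrime]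
    (h2 : (2 : 𝓞 K) ∈ P) (m : ℤ) (hm : m % 8 = 1) (y : K) (hy : y ^ 2 = m)
    (σ : K ≃ₐ[ℚ] K) (hσ : σ ∈ MulAction.stabilizer (K ≃ₐ[ℚ] K) P) : σ y = y := by
  rcases tq_sign m y hy σ with h | h
  · exact h
  exfalso
  obtain ⟨z, Y, hz, hY, hzz, -⟩ := tq_half m (2 * (m / 8)) (by omega) y hy
  have hs : ∀ x ∈ P, σ • x ∈ P := by
    intro x hx
    have h1 : σ • x ∈ σ • P := Ideal.smul_mem_pointwise_smul σ x P hx
    rwa [MulAction.mem_stabilizer_iff.1 hσ] at h1
  have hsz : σ • z = 1 - z := by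
    apply RingOfIntegers.ext
    change σ (z : K) = 1 - (z : K)
    rw [hz, map_div₀, map_add, map_one, h, map_ofNat]
    ring
  have h1 : z * (z - 1) ∈ P := by
    have e : z * (z - 1) = (((m / 8 : ℤ)) : 𝓞 K) * 2 := by
      have : z * (z - 1) = z * z - z := by ring
      rw [this, hzz]
      push_cast
      ring
    rw [e]
    exact P.mul_mem_left _ h2
  have h6 : (1 : 𝓞 K) ∈ P := by
    rcases Ideal.IsPrime.mem_or_mem ‹_› h1 with h3 | h3
    · have h4 := hs z h3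
      rw [hsz] at h4
      have h5 := P.add_mem h4 h3
      simpa using h5
    · have h4 := hs _ h3
      rw [smul_sub, hsz, smul_one] at h4
      have h5 := P.add_mem h4 h3
      have h7 : (-1 : 𝓞 K) ∈ P := by
        have e : (1 - z - 1) + (z - 1) = (-1 : 𝓞 K) := by ring
        rwa [e] at h5
      simpa using P.neg_mem h7
  exact (Ideal.IsPrime.ne_top ‹_›) ((Ideal.eq_top_iff_one P).2 h6)

end Pool.Agent.H98.MK
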