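import Pool.Agent.H98.MK.Defs

/-!
# Project MK (MP_a3214d), row C0: complex conjugation and quadratic characters
-/

set_option autoImplicit false

namespace Pool.Agent.H98.MK

/-- A square root of a nonzero real number is real if and only if the number is positive. -/
private theorem conj_sqrt {s : ℂ} {d : ℤ} (hd : d ≠ 0) (h : s ^ 2 = (d : ℂ)) :
    (starRingEnd ℂ) s = s ↔ 0 < d := by
  have h1 : s.re ^ 2 - s.im ^ 2 = d := by
    have := congrArg Complex.re h
    rw [pow_two, Complex.mul_re, Complex.intCast_re] at this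
    rw [pow_two, pow_two]
    exact this
  have h2 : s.re * s.im = 0 := by
    have := congrArg Complex.im h
    rw [pow_two, Complex.mul_im, Complex.intCast_im] at this
    linarith
  rw [Complex.conj_eq_iff_im]
  constructor
  · intro h3
    rw [h3] at h1
    have h4 : (0 : ℝ) ≤ d := by
      rw [← h1]
      nlinarith [sq_nonneg s.re]
    have h5 : 0 ≤ d := by exact_mod_cast h4
    omega
  · intro h3
    rcases mul_eq_zero.1 h2 with h4 | h4
    · exfalso
      rw [h4] at h1
      have h5 : (0 : ℝ) < d := by exact_mod_cast h3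
      nlinarith [sq_nonneg s.im]
    · exact h4

private theorem c0_alg : Algebra.IsAlgebraic ℚ Om := by
  have e : (DivisionRing.toRatAlgebra : Algebra ℚ Om) = AlgebraicClosure.instAlgebra ℚ :=
    Subsingleton.elim _ _
  rw [e]
  exact AlgebraicClosure.isAlgebraic ℚ

theorem exists_conj : ∃ c : Gam, c * c = 1 ∧ ∀ d : ℤ, d ≠ 0 →
    chi d c = if d < 0 then 1 else 0 := by
  classical
  haveI h1 : Algebra.IsAlgebraic ℚ Om := c0_alg
  haveI h2 : IsAlgClosure ℚ Om := ⟨inferInstance, h1⟩
  let ι : Om →ₐ[ℚ] ℂ := IsAlgClosed.lift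
  letI : Algebra Om ℂ := ι.toRingHom.toAlgebra
  haveI : IsScalarTower ℚ Om ℂ := IsScalarTower.of_algebraMap_eq fun x => (ι.commutes x).symm
  haveI : Normal ℚ Om := IsAlgClosure.normal ℚ Om
  let φ : ℂ ≃ₐ[ℚ] ℂ := AlgEquiv.restrictScalars ℚ Complex.conjAe
  have hφ : ∀ z : ℂ, φ z = (starRingEnd ℂ) z := fun z => rfl
  have hc : ∀ x : Om, algebraMap Om ℂ (φ.restrictNormal Om x) =
      (starRingEnd ℂ) (algebraMap Om ℂ x) := fun x => by
    rw [AlgEquiv.restrictNormal_commutes, hφ]
  have hinj : Function.Injective (algebraMap Om ℂ) := (algebraMap Om ℂ).injective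
  refine ⟨φ.restrictNormal Om, ?_, fun d hd => ?_⟩
  · refine AlgEquiv.ext fun x => hinj ?_
    rw [AlgEquiv.mul_apply, hc, hc, Complex.conj_conj, AlgEquiv.one_apply]
  · have h1 : (algebraMap Om ℂ (sq (d : ℚ))) ^ 2 = (d : ℂ) := by
      rw [← map_pow, sq_sq]
      simp
    have h2 : φ.restrictNormal Om (sq (d : ℚ)) = sq (d : ℚ) ↔ 0 < d := by
      rw [← hinj.eq_iff, hc, conj_sqrt hd h1]
    unfold chi
    by_cases h3 : 0 < d
    · rw [if_pos (h2.2 h3), if_neg (by omega)]
    · rw [if_neg (fun h => h3 (h2.1 h)), if_pos (by omega)]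

end Pool.Agent.H98.MK
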