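import Pool.Agent.H98.MK.Defs

/-!
# Project MK (MP_a3214d), row K2: the Steinberg relation, explicitly
-/

set_option autoImplicit false
set_option maxHeartbeats 400000

namespace Pool.Agent.H98.MK

/-- the sign of a residue modulo two -/
private noncomputable def stSg (x : ZMod 2) : Om := if x = 0 then 1 else -1

private theorem stSg_add (x y : ZMod 2) : stSg (x + y) = stSg x * stSg y := by
  have h : ∀ x : ZMod 2, x = 0 ∨ x = 1 := by decide
  have h1 : (1 : ZMod 2) ≠ 0 := by decide
  have h2 : (1 : ZMod 2) + 1 = 0 := by decide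
  unfold stSg
  rcases h x with rfl | rfl <;> rcases h y with rfl | rfl
  · simp
  · simp
  · simp
  · rw [h2, if_pos rfl, if_neg h1]
    ring

private theorem stSg_sq (x : ZMod 2) : stSg x * stSg x = 1 := by
  unfold stSg
  split_ifs <;> ring

private theorem stSg_inj {x y : ZMod 2} {c : Om} (hc : c ≠ 0) (h : stSg x * c = stSg y * c) :
    x = y := by
  have h1 := mul_right_cancel₀ hc h
  have h3 : ∀ x : ZMod 2, x = 0 ∨ x = 1 := by decide
  have h4 : (1 : ZMod 2) ≠ 0 := by decide
  have h5 : (1 : Om) ≠ -1 := by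
    intro h
    have h6 : (2 : Om) = 0 := by linear_combination h
    exact two_ne_zero h6
  unfold stSg at h1
  rcases h3 x with rfl | rfl <;> rcases h3 y with rfl | rfl
  · rfl
  · rw [if_pos rfl, if_neg h4] at h1
    exact absurd h1 h5
  · rw [if_pos rfl, if_neg h4] at h1
    exact absurd h1.symm h5
  · rfl

private theorem stSg_chi (d : ℚ) (σ : Gam) : σ (sq d) = stSg (chi d σ) * sq d := by
  have h4 : (1 : ZMod 2) ≠ 0 := by decide
  have h1 : σ (sq d) ^ 2 = sq d ^ 2 := by
    rw [← map_pow, sq_sq, map_ratCast]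
  unfold chi stSg
  by_cases h : σ (sq d) = sq d
  · rw [if_pos h, if_pos rfl, h, one_mul]
  · rw [if_neg h, if_neg h4]
    rcases sq_eq_sq_iff_eq_or_eq_neg.1 h1 with h2 | h2
    · exact absurd h2 h
    · rw [h2]
      ring

private theorem st_chi_mul (d : ℚ) (hd : d ≠ 0) (σ τ : Gam) :
    chi d (σ * τ) = chi d σ + chi d τ := by
  have hs : sq d ≠ 0 := by
    intro h
    have h1 := sq_sq d
    rw [h] at h1
    apply hd
    have h2 : (d : Om) = ((0 : ℚ) : Om) := by
      rw [← h1]
      norm_num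
    exact_mod_cast h2
  apply stSg_inj hs
  rw [← stSg_chi, AlgEquiv.mul_apply, stSg_chi d τ, map_mul, stSg_chi d σ, stSg_add]
  have h3 : σ (stSg (chi d τ)) = stSg (chi d τ) := by
    unfold stSg
    split_ifs
    · exact map_one σ
    · rw [map_neg, map_one]
  rw [h3]
  ring

private theorem st_map_sg (σ : Gam) (x : ZMod 2) : σ (stSg x) = stSg x := by
  unfold stSg
  split_ifs
  · exact map_one σ
  · rw [map_neg, map_one]

/-- values at a point are locally constant -/
private theorem st_loc {β : Type} (s : Finset Om) (f : Gam → β)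
    (hf : ∀ σ τ : Gam, (∀ x ∈ s, σ x = τ x) → f σ = f τ) : IsLocallyConstant f := by
  rw [IsLocallyConstant.iff_exists_open]
  intro σ
  have halg : Algebra.IsAlgebraic ℚ Om := AlgebraicClosure.isAlgebraic ℚ
  have hfin : FiniteDimensional ℚ (IntermediateField.adjoin ℚ (s : Set Om)) := by
    apply IntermediateField.finiteDimensional_adjoin
    intro x _
    exact (Algebra.IsAlgebraic.isAlgebraic x).isIntegral
  have hopen := IntermediateField.fixingSubgroup_isOpen
    (IntermediateField.adjoin ℚ (s : Set Om))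
  refine ⟨(fun τ : Gam => σ⁻¹ * τ) ⁻¹'
    ((IntermediateField.adjoin ℚ (s : Set Om)).fixingSubgroup : Set Gam),
    hopen.preimage (continuous_const.mul continuous_id), ?_, ?_⟩
  · show σ⁻¹ * σ ∈ (IntermediateField.adjoin ℚ (s : Set Om)).fixingSubgroup
    rw [inv_mul_cancel]
    exact Subgroup.one_mem _
  · intro τ hτ
    apply hf
    intro x hx
    have h1 : (σ⁻¹ * τ) x = x := by
      have h2 := (IntermediateField.mem_fixingSubgroup_iff _ _).1 hτ x
      exact h2 (IntermediateField.subset_adjoin ℚ _ hx)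
    have h3 : σ ((σ⁻¹ * τ) x) = τ x := by
      rw [← AlgEquiv.mul_apply, ← mul_assoc, mul_inv_cancel, one_mul]
    rw [← h3, h1]

/-- **Row K2.** The cup product of the quadratic characters of `1 - a` and `a` is a
coboundary. -/
theorem steinberg (a : ℚ) (h0 : a ≠ 0) (h1 : a ≠ 1) : ∃ f : Gam → ZMod 2,
    IsLocallyConstant f ∧ ∀ σ τ, f (σ * τ) = f σ + f τ + chi (1 - a) σ * chi a τ := by
  classical
  have hz4 : (1 : ZMod 2) ≠ 0 := by decide
  have hz3 : ∀ x : ZMod 2, x = 0 ∨ x = 1 := by decide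
  set t : Om := sq a with ht
  set u : Om := sq (1 - a) with hu
  have ht2 : t ^ 2 = (a : Om) := sq_sq a
  have hu2 : u ^ 2 = 1 - (a : Om) := by
    rw [hu, sq_sq]
    push_cast
    ring
  have hb : (1 : Om) - (a : Om) ≠ 0 := by
    intro h
    apply h1
    have h2 : (a : Om) = ((1 : ℚ) : Om) := by
      push_cast
      linear_combination -h
    exact_mod_cast h2
  have hgg : (1 + t) * (1 - t) = 1 - (a : Om) := by
    rw [← ht2]
    ring
  have hg1 : 1 + t ≠ 0 := by
    intro h
    apply hb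
    rw [← hgg, h, zero_mul]
  have hg2 : 1 - t ≠ 0 := by
    intro h
    apply hb
    rw [← hgg, h, mul_zero]
  obtain ⟨θ, hθ⟩ := IsAlgClosed.exists_pow_nat_eq (1 + t) (n := 2) two_pos
  have hθ0 : θ ≠ 0 := by
    intro h
    apply hg1
    rw [← hθ, h]
    norm_num
  have hu0 : u ≠ 0 := by
    intro h
    apply hb
    rw [← hu2, h]
    norm_num
  set θ₂ : Om := u / θ with hθ₂
  have hθ₂0 : θ₂ ≠ 0 := div_ne_zero hu0 hθ0
  have hθ₂2 : θ₂ ^ 2 = 1 - t := by
    rw [hθ₂, div_pow, hu2, hθ, ← hgg]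
    field_simp
  have hdiv : u / θ₂ = θ := by
    rw [hθ₂]
    field_simp
  -- the cochain
  let f : Gam → ZMod 2 := fun σ =>
    if chi a σ = 0 then (if σ θ = θ then 0 else 1) else (if σ θ = θ₂ then 0 else 1)
  have hf0 : ∀ σ : Gam, chi a σ = 0 → σ θ = stSg (f σ) * θ := by
    intro σ hσ
    have h2 : σ t = t := by
      have h3 := stSg_chi a σ
      rw [hσ] at h3
      rw [ht, h3]
      simp [stSg]
    have h3 : (σ θ) ^ 2 = θ ^ 2 := by
      rw [← map_pow, hθ, map_add, map_one, h2]
    show σ θ = stSg (if chi a σ = 0 then (if σ θ = θ then 0 else 1)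
      else (if σ θ = θ₂ then 0 else 1)) * θ
    rw [if_pos hσ]
    by_cases h4 : σ θ = θ
    · rw [if_pos h4, h4]
      simp [stSg]
    · rw [if_neg h4]
      rcases sq_eq_sq_iff_eq_or_eq_neg.1 h3 with h5 | h5
      · exact absurd h5 h4
      · rw [h5]
        simp [stSg]
  have hf1 : ∀ σ : Gam, chi a σ = 1 → σ θ = stSg (f σ) * θ₂ := by
    intro σ hσ
    have h2 : σ t = -t := by
      have h3 := stSg_chi a σ
      rw [hσ] at h3
      rw [ht, h3]
      simp [stSg]
    have h3 : (σ θ) ^ 2 = θ₂ ^ 2 := by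
      rw [← map_pow, hθ, map_add, map_one, h2, hθ₂2]
      ring
    show σ θ = stSg (if chi a σ = 0 then (if σ θ = θ then 0 else 1)
      else (if σ θ = θ₂ then 0 else 1)) * θ₂
    rw [if_neg (by rw [hσ]; exact hz4)]
    by_cases h4 : σ θ = θ₂
    · rw [if_pos h4, h4]
      simp [stSg]
    · rw [if_neg h4]
      rcases sq_eq_sq_iff_eq_or_eq_neg.1 h3 with h5 | h5
      · exact absurd h5 h4
      · rw [h5]
        simp [stSg]
  have hg0 : ∀ σ : Gam, chi a σ = 0 →
      σ θ₂ = stSg (chi (1 - a) σ) * stSg (f σ) * θ₂ := by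
    intro σ hσ
    rw [hθ₂, map_div₀, hf0 σ hσ, stSg_chi (1 - a) σ, ← hu]
    have h2 := stSg_sq (f σ)
    have h3 : stSg (f σ) ≠ 0 := by
      intro h
      rw [h, zero_mul] at h2
      exact zero_ne_one h2
    field_simp
    linear_combination -stSg (chi (1 - a) σ) * h2
  have hg1' : ∀ σ : Gam, chi a σ = 1 →
      σ θ₂ = stSg (chi (1 - a) σ) * stSg (f σ) * θ := by
    intro σ hσ
    have h2 := stSg_sq (f σ)
    have h3 : stSg (f σ) ≠ 0 := by
      intro h
      rw [h, zero_mul] at h2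
      exact zero_ne_one h2
    have h4 : σ θ₂ = stSg (chi (1 - a) σ) * u / (stSg (f σ) * θ₂) := by
      rw [← hf1 σ hσ, ← stSg_chi (1 - a) σ, ← map_div₀]
    rw [h4, ← hdiv]
    field_simp
    linear_combination -stSg (chi (1 - a) σ) * h2
  refine ⟨f, ?_, ?_⟩
  · refine st_loc {t, θ} f ?_
    intro σ τ h
    have h2 : σ t = τ t := h t (by simp)
    have h3 : σ θ = τ θ := h θ (by simp)
    have h4 : chi a σ = chi a τ := by
      unfold chi
      rw [← ht, h2]
    show (if chi a σ = 0 then (if σ θ = θ then 0 else 1) else (if σ θ = θ₂ then 0 else 1)) =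
      (if chi a τ = 0 then (if τ θ = θ then 0 else 1) else (if τ θ = θ₂ then 0 else 1))
    rw [h4, h3]
  · intro σ τ
    have hm := st_chi_mul a h0 σ τ
    rcases hz3 (chi a σ) with hσ | hσ <;> rcases hz3 (chi a τ) with hτ | hτ
    · rw [hτ, mul_zero, add_zero]
      rw [hσ, hτ, add_zero] at hm
      apply stSg_inj hθ0
      rw [← hf0 _ hm, AlgEquiv.mul_apply, hf0 τ hτ, map_mul, st_map_sg, hf0 σ hσ, stSg_add]
      ring
    · rw [hτ, mul_one]
      rw [hσ, hτ, zero_add] at hm
      apply stSg_inj hθ₂0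
      rw [← hf1 _ hm, AlgEquiv.mul_apply, hf1 τ hτ, map_mul, st_map_sg, hg0 σ hσ, stSg_add,
        stSg_add]
      ring
    · rw [hτ, mul_zero, add_zero]
      rw [hσ, hτ, add_zero] at hm
      apply stSg_inj hθ₂0
      rw [← hf1 _ hm, AlgEquiv.mul_apply, hf0 τ hτ, map_mul, st_map_sg, hf1 σ hσ, stSg_add]
      ring
    · rw [hτ, mul_one]
      rw [hσ, hτ] at hm
      have hm' : chi a (σ * τ) = 0 := by
        rw [hm]
        decide
      apply stSg_inj hθ0
      rw [← hf0 _ hm', AlgEquiv.mul_apply, hf1 τ hτ, map_mul, st_map_sg, hg1' σ hσ, stSg_add,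
        stSg_add]
      ring

end Pool.Agent.H98.MK
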