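import Pool.Agent.H98.MK.Tate4

/-!
# Project MK: the second K-group of the rationals modulo two

Tame symbols and the real symbol detect everything (Tate).
-/

set_option autoImplicit false

open scoped BigOperators

namespace Pool.Agent.H98.MK

/-- tame symbols of the basic elements -/
def tt (p i j : ℕ) : ZMod 2 :=
  if i = p ∧ j = p then lg (jacobiSym (-1) p) else
    if i = p then lg (jacobiSym (dd j) p) else if j = p then lg (jacobiSym (dd i) p) else 0

/-- a symbol on the rationals restricts to the integers -/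
theorem ta_of_rat {H : Type} [AddCommGroup H] [Module (ZMod 2) H] (s : ℚ → ℚ → H)
    (hl : ∀ a b c, a ≠ 0 → b ≠ 0 → c ≠ 0 → s (a * b) c = s a c + s b c)
    (hr : ∀ a b c, a ≠ 0 → b ≠ 0 → c ≠ 0 → s a (b * c) = s a b + s a c)
    (hs : ∀ a, a ≠ 0 → a ≠ 1 → s a (1 - a) = 0) :
    TaSym (fun a b : ℤ => s (a : ℚ) (b : ℚ)) := by
  have h1l : ∀ y : ℚ, y ≠ 0 → s 1 y = 0 := by
    intro y hy
    have h1 := hl 1 1 y one_ne_zero one_ne_zero hy
    rw [one_mul, ta_dbl] at h1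
    exact h1
  have h1r : ∀ y : ℚ, y ≠ 0 → s y 1 = 0 := by
    intro y hy
    have h1 := hr y 1 1 hy one_ne_zero one_ne_zero
    rw [one_mul, ta_dbl] at h1
    exact h1
  have hil : ∀ c y : ℚ, c ≠ 0 → y ≠ 0 → s c⁻¹ y = s c y := by
    intro c y hc hy
    have h1 := hl c⁻¹ c y (inv_ne_zero hc) hc hy
    rw [inv_mul_cancel₀ hc, h1l y hy] at h1
    exact ta_eq h1.symm
  have hir : ∀ c y : ℚ, c ≠ 0 → y ≠ 0 → s y c⁻¹ = s y c := by
    intro c y hc hy
    have h1 := hr y c⁻¹ c hy (inv_ne_zero hc) hc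
    rw [inv_mul_cancel₀ hc, h1r y hy] at h1
    exact ta_eq h1.symm
  refine ⟨fun a b c ha hb hc => ?_, fun a b c ha hb hc => ?_, fun a b c ha hb hc habc => ?_⟩
  · show s ((a * b : ℤ) : ℚ) c = s a c + s b c
    rw [Int.cast_mul]
    exact hl a b c (by exact_mod_cast ha) (by exact_mod_cast hb) (by exact_mod_cast hc)
  · show s a ((b * c : ℤ) : ℚ) = s a b + s a c
    rw [Int.cast_mul]
    exact hr a b c (by exact_mod_cast ha) (by exact_mod_cast hb) (by exact_mod_cast hc)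
  · show s a b + s a c + s c b + s c c = 0
    have ha' : (a : ℚ) ≠ 0 := by exact_mod_cast ha
    have hb' : (b : ℚ) ≠ 0 := by exact_mod_cast hb
    have hc' : (c : ℚ) ≠ 0 := by exact_mod_cast hc
    have hab : (a : ℚ) + b = c := by exact_mod_cast habc
    have hci := inv_ne_zero hc'
    have h1 : (1 : ℚ) - a * (c : ℚ)⁻¹ = b * (c : ℚ)⁻¹ := by
      rw [← hab] at hc' ⊢
      field_simp
      ring
    have h2 : (a : ℚ) * (c : ℚ)⁻¹ ≠ 1 := by
      intro h
      rw [h, sub_self] at h1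
      exact mul_ne_zero hb' hci h1.symm
    have h3 := hs _ (mul_ne_zero ha' hci) h2
    rw [h1, hl _ _ _ ha' hci (mul_ne_zero hb' hci), hr _ _ _ ha' hb' hci, hr _ _ _ hci hb' hci,
      hil _ _ hc' hb', hil _ _ hc' hci, hir _ _ hc' ha', hir _ _ hc' hc'] at h3
    rw [← h3]
    abel

theorem ta_dd {p : ℕ} (hp : p = 1 ∨ p.Prime) {N : ℕ} (hN : p < N) (hN1 : 1 < N) :
    TaU N (dd p) := by
  rw [dd]
  split_ifs with h1 h2 h3
  · exact taU_unit (Or.inr rfl)
  · have h4 : TaU N ((2 : ℕ) : ℤ) := taU_of_lt two_pos (by omega)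
    exact h4
  · have h4 : 0 < p := by
      rcases hp with h | h
      · omega
      · exact h.pos
    exact taU_of_lt h4 hN
  · have h4 : 0 < p := by
      rcases hp with h | h
      · omega
      · exact h.pos
    have h5 : (-(p : ℤ)) = -1 * p := by ring
    rw [h5]
    exact taU_mul (taU_unit (Or.inr rfl)) (taU_of_lt h4 hN)

theorem ta_dd_ndvd {p i : ℕ} (hp : p.Prime) (hp2 : p ≠ 2) (hi : i = 1 ∨ i.Prime) (hip : i ≠ p) :
    ¬ (p : ℤ) ∣ dd i := by
  rw [dd]
  split_ifs with h1 h2 h3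
  · rw [dvd_neg]
    exact (Nat.prime_iff_prime_int.mp hp).not_dvd_one
  · intro h
    have h4 : p ∣ 2 := by exact_mod_cast h
    exact hp2 ((Nat.prime_dvd_prime_iff_eq hp Nat.prime_two).mp h4)
  · intro h
    have h4 : p ∣ i := by exact_mod_cast h
    rcases hi with h5 | h5
    · exact h1 h5
    · exact hip ((Nat.prime_dvd_prime_iff_eq hp h5).mp h4).symm
  · intro h
    rw [dvd_neg] at h
    have h4 : p ∣ i := by exact_mod_cast h
    rcases hi with h5 | h5
    · exact h1 h5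
    · exact hip ((Nat.prime_dvd_prime_iff_eq hp h5).mp h4).symm

theorem ta_dd_self {p : ℕ} (hp : p.Prime) (hp2 : p ≠ 2) : tv p (dd p) = 1 := by
  have hpi := Nat.prime_iff_prime_int.mp hp
  have h1 : p ≠ 1 := hp.ne_one
  rw [dd, if_neg h1, if_neg hp2]
  split_ifs with h3
  · have e3 := tv_eq (k := 1) (x := 1) hp hpi.not_dvd_one
    rw [pow_one, mul_one] at e3
    exact e3
  · have e3 := tv_eq (k := 1) (x := -1) hp (by rw [dvd_neg]; exact hpi.not_dvd_one)
    rw [pow_one, mul_neg, mul_one] at e3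
    exact e3

theorem tam_dd {p i j : ℕ} (hp : p.Prime) (hp2 : p ≠ 2) (hi : i = 1 ∨ i.Prime)
    (hj : j = 1 ∨ j.Prime) : tam p (dd i) (dd j) = tt p i j := by
  have e0 : ∀ k : ℕ, (k = 1 ∨ k.Prime) → k ≠ p →
      tv p (dd k) = 0 ∧ tc p (dd k) = lg (jacobiSym (dd k) p) := by
    intro k hk hkp
    have h1 := ta_dd_ndvd hp hp2 hk hkp
    have e1 := tv_eq (k := 0) hp h1
    have e2 := tc_eq (k := 0) hp h1
    rw [pow_zero, one_mul] at e1 e2
    exact ⟨e1, e2⟩
  rw [tam, tt]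
  by_cases h1 : i = p <;> by_cases h2 : j = p
  · rw [if_pos ⟨h1, h2⟩, h1, h2, ta_dd_self hp hp2, add_assoc, zmod2_dbl, add_zero]
    simp [tch]
  · rw [if_neg (fun h => h2 h.2), if_pos h1, h1, ta_dd_self hp hp2, (e0 j hj h2).1, (e0 j hj h2).2]
    simp
  · rw [if_neg (fun h => h1 h.1), if_neg h1, if_pos h2, h2, ta_dd_self hp hp2, (e0 i hi h1).1,
      (e0 i hi h1).2]
    simp
  · rw [if_neg (fun h => h1 h.1), if_neg h1, if_neg h2, (e0 i hi h1).1, (e0 j hj h2).1]
    simp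

theorem tate {H : Type} [AddCommGroup H] [Module (ZMod 2) H] (s : ℚ → ℚ → H)
    (hl : ∀ a b c, a ≠ 0 → b ≠ 0 → c ≠ 0 → s (a * b) c = s a c + s b c)
    (hr : ∀ a b c, a ≠ 0 → b ≠ 0 → c ≠ 0 → s a (b * c) = s a b + s a c)
    (hs : ∀ a, a ≠ 0 → a ≠ 1 → s a (1 - a) = 0)
    (S : Finset ℕ) (hS : ∀ i ∈ S, i = 1 ∨ i.Prime) (c : ℕ → ℕ → ZMod 2)
    (hp : ∀ p ∈ S, p.Prime → p ≠ 2 → ∑ i ∈ S, ∑ j ∈ S, c i j * tt p i j = 0)
    (hinf : ∑ i ∈ S, ∑ j ∈ S, (if dd i < 0 ∧ dd j < 0 then c i j else 0) = 0) :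
    ∑ i ∈ S, ∑ j ∈ S, c i j • s (dd i : ℤ) (dd j : ℤ) = 0 := by
  have h0 := ta_of_rat s hl hr hs
  -- adjoin all the detecting symbols
  set T : ℤ → ℤ → ℕ → ZMod 2 := fun a b p => if p.Prime ∧ p ≠ 2 then tam p a b else 0 with hT
  set s' : ℤ → ℤ → H × (ℕ → ZMod 2) × ZMod 2 := fun a b => (s a b, T a b, tinf a b) with hs'
  have hs1 : TaSym s' := by
    refine ⟨fun a b c ha hb hc => ?_, fun a b c ha hb hc => ?_, fun a b c ha hb hc habc => ?_⟩
    · refine Prod.ext (h0.l a b c ha hb hc) (Prod.ext ?_ (tinf_sym.l a b c ha hb hc))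
      funext p
      show T (a * b) c p = T a c p + T b c p
      by_cases hpp : p.Prime ∧ p ≠ 2
      · simp only [hT, if_pos hpp]
        exact (tam_sym hpp.1).l a b c ha hb hc
      · simp only [hT, if_neg hpp, add_zero]
    · refine Prod.ext (h0.r a b c ha hb hc) (Prod.ext ?_ (tinf_sym.r a b c ha hb hc))
      funext p
      show T a (b * c) p = T a b p + T a c p
      by_cases hpp : p.Prime ∧ p ≠ 2
      · simp only [hT, if_pos hpp]
        exact (tam_sym hpp.1).r a b c ha hb hc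
      · simp only [hT, if_neg hpp, add_zero]
    · refine Prod.ext (h0.st a b c ha hb hc habc) (Prod.ext ?_ (tinf_sym.st a b c ha hb hc habc))
      funext p
      show T a b p + T a c p + T c b p + T c c p = 0
      by_cases hpp : p.Prime ∧ p ≠ 2
      · simp only [hT, if_pos hpp]
        exact (tam_sym hpp.1).st a b c ha hb hc habc
      · simp only [hT, if_neg hpp, add_zero]
  set τ : ℕ → (H × (ℕ → ZMod 2) × ZMod 2) →ₗ[ZMod 2] ZMod 2 := fun p =>
    (LinearMap.proj p).comp ((LinearMap.fst (ZMod 2) (ℕ → ZMod 2) (ZMod 2)).comp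
      (LinearMap.snd (ZMod 2) H ((ℕ → ZMod 2) × ZMod 2))) with hτ
  set τi : (H × (ℕ → ZMod 2) × ZMod 2) →ₗ[ZMod 2] ZMod 2 :=
    (LinearMap.snd (ZMod 2) (ℕ → ZMod 2) (ZMod 2)).comp
      (LinearMap.snd (ZMod 2) H ((ℕ → ZMod 2) × ZMod 2)) with hτi
  have e1 : ∀ p : ℕ, ∀ x y : ℤ, τ p (s' x y) = T x y p := fun p x y => rfl
  have e2 : ∀ x y : ℤ, τi (s' x y) = tinf x y := fun x y => rfl
  have key := ta_main hs1 τ τi
    (fun p hp1 hp2 x y _ _ => by rw [e1]; simp only [hT]; rw [if_pos ⟨hp1, hp2⟩])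
    (by rw [e2]; decide) (S.sup id + 2) (∑ i ∈ S, ∑ j ∈ S, c i j • s' (dd i) (dd j)) ?_ ?_ ?_
  · have h2 := congrArg Prod.fst key
    rw [Prod.fst_zero] at h2
    rw [← h2, Prod.fst_sum]
    apply Finset.sum_congr rfl
    intro i _
    rw [Prod.fst_sum]
    rfl
  · apply Submodule.sum_mem
    intro i hi
    apply Submodule.sum_mem
    intro j hj
    apply Submodule.smul_mem
    have h3 : i ≤ S.sup id := Finset.le_sup (f := id) hi
    have h4 : j ≤ S.sup id := Finset.le_sup (f := id) hj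
    exact taA_mem (ta_dd (hS i hi) (by omega) (by omega)) (ta_dd (hS j hj) (by omega) (by omega))
  · intro p hpp hp2
    have h3 : τ p (∑ i ∈ S, ∑ j ∈ S, c i j • s' (dd i) (dd j)) =
        ∑ i ∈ S, ∑ j ∈ S, c i j * tt p i j := by
      rw [map_sum]
      apply Finset.sum_congr rfl
      intro i hi
      rw [map_sum]
      apply Finset.sum_congr rfl
      intro j hj
      rw [map_smul, e1, smul_eq_mul, ← tam_dd hpp hp2 (hS i hi) (hS j hj)]
      simp only [hT]
      rw [if_pos ⟨hpp, hp2⟩]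
    rw [h3]
    by_cases hpS : p ∈ S
    · exact hp p hpS hpp hp2
    · apply Finset.sum_eq_zero
      intro i hi
      apply Finset.sum_eq_zero
      intro j hj
      have h4 : i ≠ p := fun h => hpS (h ▸ hi)
      have h5 : j ≠ p := fun h => hpS (h ▸ hj)
      rw [tt, if_neg (fun h => h4 h.1), if_neg h4, if_neg h5, mul_zero]
  · have h3 : τi (∑ i ∈ S, ∑ j ∈ S, c i j • s' (dd i) (dd j)) =
        ∑ i ∈ S, ∑ j ∈ S, (if dd i < 0 ∧ dd j < 0 then c i j else 0) := by
      rw [map_sum]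
      apply Finset.sum_congr rfl
      intro i hi
      rw [map_sum]
      apply Finset.sum_congr rfl
      intro j hj
      rw [map_smul, e2, smul_eq_mul, tinf, tsg, tsg]
      by_cases h4 : dd i < 0 <;> by_cases h5 : dd j < 0 <;> simp [h4, h5]
    rw [h3]
    exact hinf

end Pool.Agent.H98.MK
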