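import Pool.Agent.H98.MK.EmbedA
import Pool.Agent.H98.MK.Tate
import Pool.Agent.H98.MK.Steinberg
import Pool.Agent.H98.MK.ChiBasic

/-!
# Project MK, row K3: the lift exists under the local conditions
-/

set_option autoImplicit false

open scoped BigOperators

namespace Pool.Agent.H98.MK

theorem embed (D : Dat) (x : ℕ →₀ D.V) (hx : adm x)
    (hp : ∀ p : ℕ, p.Prime → p ≠ 2 → x p ≠ 0 →
      (x.sum fun i w => if i = p then 0 else lg (jacobiSym (dd i) p) • D.B w (x p)) =
        lg (jacobiSym (-1) p) • D.q (x p))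
    (hinf : D.q (x.sum fun i w => if dd i < 0 then w else 0) = 0) :
    ∃ f : Gam → D.Z, IsLocallyConstant f ∧
      ∀ σ τ, f (σ * τ) = f σ + f τ + D.β (par x σ) (par x τ) :=
  k3_embed (fun s hl hr hs S hS c h1 h2 => tate s hl hr hs S hS c h1 h2) steinberg chi_mul
    D x hx hp hinf

end Pool.Agent.H98.MK
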