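import Pool.Agent.H98.MK.MDefs

/-!
# Project MK, row M1 (helper89): homomorphisms to `Ext D` are lifts (from P3).
-/

set_option autoImplicit false

open scoped BigOperators

namespace Pool.Agent.H98.MK

theorem lh_lc {D : Dat} {x : ℕ →₀ D.V} {f : Gam → D.Z} (h : IsLift D x f) :
    IsLocallyConstant (lh h) :=
  IsLocallyConstant.comp₂ (par_lc x) h.lc (fun a b => (⟨a, b⟩ : Ext D))

theorem m1_two {k : ℕ} (v : Fin k → ZMod 2) : v + v = 0 := by
  funext i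
  exact CharTwo.add_self_eq_zero (v i)

theorem m1_sub {k : ℕ} {a b c : Fin k → ZMod 2} (h : a = b + c) : c = a + b := by
  rw [h, add_comm b c, add_assoc, m1_two, add_zero]

theorem hom_param_of
    (hE : ∀ (k : ℕ) (f : Gam → (Fin k → ZMod 2)), IsLocallyConstant f →
      (∀ σ τ, f (σ * τ) = f σ + f τ) → ∃ x : ℕ →₀ (Fin k → ZMod 2), adm x ∧ par x = f)
    (D : Dat) (ρ : Gam →* Ext D) (hρ : IsLocallyConstant ρ) :
    ∃ (x : ℕ →₀ D.V) (f : Gam → D.Z) (h : IsLift D x f), adm x ∧ ρ = lh h := by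
  obtain ⟨x, hx, hxf⟩ := hE D.r (fun σ => (ρ σ).v) (hρ.comp (fun y => y.v))
    (fun σ τ => by rw [map_mul]; rfl)
  have hx2 : ∀ σ, par x σ = (ρ σ).v := fun σ => congrFun hxf σ
  have h : IsLift D x (fun σ => (ρ σ).z) := by
    refine ⟨hρ.comp (fun y => y.z), fun σ τ => ?_⟩
    rw [map_mul, hx2, hx2]
    rfl
  refine ⟨x, fun σ => (ρ σ).z, h, hx, ?_⟩
  apply MonoidHom.ext
  intro σ
  apply Ext.ext
  · exact (hx2 σ).symm
  · rfl

theorem lh_inj_of
    (hI : ∀ (k : ℕ) (x y : ℕ →₀ (Fin k → ZMod 2)), adm x → adm y → par x = par y → x = y)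
    {D : Dat} {x x' : ℕ →₀ D.V} {f f' : Gam → D.Z} (h : IsLift D x f)
    (h' : IsLift D x' f') (hx : adm x) (hx' : adm x') (he : lh h = lh h') :
    x = x' ∧ f = f' := by
  have h1 : ∀ σ, (⟨par x σ, f σ⟩ : Ext D) = ⟨par x' σ, f' σ⟩ := fun σ =>
    DFunLike.congr_fun he σ
  refine ⟨hI D.r x x' hx hx' (funext fun σ => congrArg Ext.v (h1 σ)), funext fun σ => ?_⟩
  exact congrArg Ext.z (h1 σ)

theorem lift_diff_of
    (hE : ∀ (k : ℕ) (f : Gam → (Fin k → ZMod 2)), IsLocallyConstant f →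
      (∀ σ τ, f (σ * τ) = f σ + f τ) → ∃ x : ℕ →₀ (Fin k → ZMod 2), adm x ∧ par x = f)
    {D : Dat} {x : ℕ →₀ D.V} {f f' : Gam → D.Z} (h : IsLift D x f)
    (h' : IsLift D x f') : ∃ z : ℕ →₀ D.Z, adm z ∧ ∀ σ, f' σ = f σ + par z σ := by
  obtain ⟨z, hz, hzf⟩ := hE D.s (fun σ => f σ + f' σ)
    (IsLocallyConstant.comp₂ h.lc h'.lc (fun a b => a + b)) (fun σ τ => by
      have h1 := m1_two (D.β (par x σ) (par x τ))
      calc f (σ * τ) + f' (σ * τ)
          = (f σ + f' σ) + (f τ + f' τ) +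
            (D.β (par x σ) (par x τ) + D.β (par x σ) (par x τ)) := by
              rw [h.hom, h'.hom]; abel
        _ = (f σ + f' σ) + (f τ + f' τ) := by rw [h1, add_zero])
  refine ⟨z, hz, fun σ => ?_⟩
  rw [congrFun hzf σ, ← add_assoc, m1_two, zero_add]

end Pool.Agent.H98.MK
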