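import Pool.Agent.H98.MK.MDefs
import Pool.Agent.H98.MK.HomParamAux
import Pool.Agent.H98.MK.Embed
import Pool.Agent.H98.MK.FldBasic

/-!
# Project MK (MP_a3214d), row M7: counting surjections by parameters

The statement is derived from the statements of the rows M1 to M6, taken as hypotheses.
-/

set_option autoImplicit false

open scoped BigOperators

namespace Pool.Agent.H98.MK

/-! ### factorizations -/

theorem m7_fact_prod (T : Finset ℕ) (hT : ∀ p ∈ T, p.Prime) (q : ℕ) :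
    (∏ p ∈ T, p).factorization q = if q ∈ T then 1 else 0 := by
  classical
  rw [Nat.factorization_prod (fun p hp => (hT p hp).ne_zero)]
  rw [Finsupp.finset_sum_apply]
  rw [Finset.sum_congr rfl fun p hp => by rw [(hT p hp).factorization]]
  simp only [Finsupp.single_apply]
  rw [Finset.sum_ite_eq']

theorem m7_prod_ne_zero (T : Finset ℕ) (hT : ∀ p ∈ T, p.Prime) : ∏ p ∈ T, p ≠ 0 :=
  Finset.prod_ne_zero_iff.mpr fun p hp => (hT p hp).ne_zero

theorem m7_mfun_fact {W : Type} [Zero W] (x : ℕ →₀ W) (hx : adm x) (v : W) (q : ℕ) (h1 : q ≠ 1)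
    [Decidable (q ≠ 2 ∧ x q ≠ 0 ∧ x q = v)] :
    (mfun x v).factorization q = if q ≠ 2 ∧ x q ≠ 0 ∧ x q = v then 1 else 0 := by
  classical
  unfold mfun
  rw [m7_fact_prod]
  · congr 1
    rw [Finset.mem_filter, Finsupp.mem_support_iff]
    simp only [eq_iff_iff]
    tauto
  · intro p hp
    rw [Finset.mem_filter, Finsupp.mem_support_iff] at hp
    rcases hx p hp.1 with h | h
    · exact absurd h hp.2.1
    · exact h

theorem m7_mfun_ne_zero {W : Type} [Zero W] (x : ℕ →₀ W) (hx : adm x) (v : W) :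
    mfun x v ≠ 0 := by
  classical
  unfold mfun
  refine m7_prod_ne_zero _ fun p hp => ?_
  rw [Finset.mem_filter, Finsupp.mem_support_iff] at hp
  rcases hx p hp.1 with h | h
  · exact absurd h hp.2.1
  · exact h

theorem m7_efun_fact {V Z : Type} [Zero V] [Zero Z] (x : ℕ →₀ V) (z : ℕ →₀ Z) (hz : adm z)
    (ζ : Z) (q : ℕ) (h1 : q ≠ 1) [Decidable (q ≠ 2 ∧ x q = 0 ∧ z q ≠ 0 ∧ z q = ζ)] :
    (efun x z ζ).factorization q =
      if q ≠ 2 ∧ x q = 0 ∧ z q ≠ 0 ∧ z q = ζ then 1 else 0 := by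
  classical
  unfold efun
  rw [m7_fact_prod]
  · congr 1
    rw [Finset.mem_filter, Finsupp.mem_support_iff]
    simp only [eq_iff_iff]
    tauto
  · intro p hp
    rw [Finset.mem_filter, Finsupp.mem_support_iff] at hp
    rcases hz p hp.1 with h | h
    · exact absurd h hp.2.1
    · exact h

theorem m7_efun_ne_zero {V Z : Type} [Zero V] [Zero Z] (x : ℕ →₀ V) (z : ℕ →₀ Z) (hz : adm z)
    (ζ : Z) : efun x z ζ ≠ 0 := by
  classical
  unfold efun
  refine m7_prod_ne_zero _ fun p hp => ?_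
  rw [Finset.mem_filter, Finsupp.mem_support_iff] at hp
  rcases hz p hp.1 with h | h
  · exact absurd h hp.2.1
  · exact h

theorem m7_szN_ne_zero (D : Dat) (x : ℕ →₀ D.V) (z : ℕ →₀ D.Z) (hx : adm x) (hz : adm z) :
    szN D x z ≠ 0 := by
  unfold szN
  refine mul_ne_zero (Finset.prod_ne_zero_iff.mpr fun v _ => pow_ne_zero _ ?_)
    (Finset.prod_ne_zero_iff.mpr fun ζ _ => pow_ne_zero _ ?_)
  · exact m7_mfun_ne_zero x hx v
  · exact m7_efun_ne_zero x z hz ζ

open Classical in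
theorem m7_szN_fact (D : Dat) (x : ℕ →₀ D.V) (z : ℕ →₀ D.Z) (hx : adm x) (hz : adm z) (q : ℕ)
    (hq : q.Prime) : (szN D x z).factorization q =
      if q = 2 then 0 else if x q ≠ 0 then wtN D (x q) else if z q ≠ 0 then D.n / 2 else 0 := by
  unfold szN
  rw [Nat.factorization_mul
    (Finset.prod_ne_zero_iff.mpr fun v _ => pow_ne_zero _ (m7_mfun_ne_zero x hx v))
    (Finset.prod_ne_zero_iff.mpr fun ζ _ => pow_ne_zero _ (m7_efun_ne_zero x z hz ζ)),
    Finsupp.add_apply,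
    Nat.factorization_prod (fun v _ => pow_ne_zero _ (m7_mfun_ne_zero x hx v)),
    Nat.factorization_prod (fun ζ _ => pow_ne_zero _ (m7_efun_ne_zero x z hz ζ)),
    Finsupp.finset_sum_apply, Finsupp.finset_sum_apply]
  simp only [Nat.factorization_pow, Finsupp.smul_apply, smul_eq_mul,
    m7_mfun_fact x hx _ q hq.ne_one, m7_efun_fact x z hz _ q hq.ne_one]
  by_cases h2 : q = 2
  · simp [h2]
  · rw [if_neg h2]
    by_cases hxq : x q = 0
    · by_cases hzq : z q = 0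
      · simp [hxq, hzq]
      · have h3 : ∀ ζ : D.Z, (D.n / 2 * if q ≠ 2 ∧ x q = 0 ∧ z q ≠ 0 ∧ z q = ζ then 1 else 0) =
            if z q = ζ then D.n / 2 else 0 := by
          intro ζ
          by_cases h : z q = ζ
          · rw [if_pos h, if_pos ⟨h2, hxq, hzq, h⟩, mul_one]
          · rw [if_neg h, if_neg (fun h' => h h'.2.2.2), mul_zero]
        have h4 : ∀ v : D.V, (wtN D v * if q ≠ 2 ∧ x q ≠ 0 ∧ x q = v then 1 else 0) = 0 := by
          intro v
          rw [if_neg (fun h' => h'.2.1 hxq), mul_zero]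
        rw [Finset.sum_congr rfl fun ζ _ => h3 ζ, Finset.sum_congr rfl fun v _ => h4 v,
          Finset.sum_const_zero, zero_add, Finset.sum_ite_eq, if_pos (Finset.mem_univ _),
          if_neg (by simpa using hxq), if_pos hzq]
    · have h3 : ∀ ζ : D.Z, (D.n / 2 * if q ≠ 2 ∧ x q = 0 ∧ z q ≠ 0 ∧ z q = ζ then 1 else 0) =
          0 := by
        intro ζ
        rw [if_neg (fun h' => hxq h'.2.1), mul_zero]
      have h4 : ∀ v : D.V, (wtN D v * if q ≠ 2 ∧ x q ≠ 0 ∧ x q = v then 1 else 0) =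
          if x q = v then wtN D (x q) else 0 := by
        intro v
        by_cases h : x q = v
        · rw [if_pos h, if_pos ⟨h2, hxq, h⟩, mul_one, h]
        · rw [if_neg h, if_neg (fun h' => h h'.2.2), mul_zero]
      rw [Finset.sum_congr rfl fun ζ _ => h3 ζ, Finset.sum_congr rfl fun v _ => h4 v,
        Finset.sum_const_zero, add_zero, Finset.sum_ite_eq, if_pos (Finset.mem_univ _),
        if_pos hxq]

theorem m7_z12_one {Z : Type} [AddCommGroup Z] (z1 z2 : Z) : z12 z1 z2 1 = z1 := by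
  unfold z12
  rw [Finsupp.add_apply, Finsupp.single_eq_same, Finsupp.single_eq_of_ne (by decide), add_zero]

theorem m7_z12_two {Z : Type} [AddCommGroup Z] (z1 z2 : Z) : z12 z1 z2 2 = z2 := by
  unfold z12
  rw [Finsupp.add_apply, Finsupp.single_eq_same, Finsupp.single_eq_of_ne (by decide), zero_add]

theorem m7_z12_adm {Z : Type} [AddCommGroup Z] (z1 z2 : Z) : adm (z12 z1 z2) := by
  intro i hi
  by_cases h1 : i = 1
  · exact Or.inl h1
  · by_cases h2 : i = 2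
    · exact Or.inr (h2 ▸ Nat.prime_two)
    · exfalso
      apply hi
      unfold z12
      rw [Finsupp.add_apply, Finsupp.single_eq_of_ne h1, Finsupp.single_eq_of_ne h2, add_zero]

/-! ### the absolute value of the discriminant -/

open Classical in
/-- The statement of the second part of row M5. -/
def M7EO : Prop := ∀ {D : Dat} {x : ℕ →₀ D.V} {f : Gam → D.Z} (_ : adm x) (h : IsNormal D x f)
    (z : ℕ →₀ D.Z) (_ : adm z) (_ : Function.Surjective (lh (h.toIsLift.add z))) (p : ℕ)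
    (_ : p.Prime) (_ : p ≠ 2),
    ex p (lh (h.toIsLift.add z)) =
      if x p ≠ 0 then wtN D (x p) else if z p ≠ 0 then D.n / 2 else 0

/-- The statement of row M6 on twists. -/
def M7C2 : Prop := ∀ {D : Dat} {x : ℕ →₀ D.V} {f : Gam → D.Z} (h : IsLift D x f)
    (z z' : ℕ →₀ D.Z) (_ : adm z) (_ : adm z') (_ : z 1 = z' 1) (_ : z 2 = z' 2),
    c2 (lh (h.add z)) = c2 (lh (h.add z'))

/-- The statement of a part of row M2. -/
def M7KI : Prop := ∀ {D : Dat} (ρ : Gam →* Ext D), ρ.ker.index ∣ D.n ∧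
    (Function.Surjective ρ → ρ.ker.index = D.n)

theorem m7_dabs (EO : M7EO) (C2 : M7C2) (KI : M7KI) {D : Dat} {x : ℕ →₀ D.V} {f : Gam → D.Z}
    (hx : adm x) (h : IsNormal D x f) (z : ℕ →₀ D.Z) (hz : adm z)
    (hs : Function.Surjective (lh (h.toIsLift.add z))) :
    dabs (fld (lh (h.toIsLift.add z)).ker) =
      2 ^ c2 (lh (h.toIsLift.add (z12 (z 1) (z 2)))) * szN D x z := by
  classical
  set ρ := lh (h.toIsLift.add z) with hρ
  have hpos : 0 < dabs (fld ρ.ker) := dabs_pos _ (ker_open ρ (lh_lc _))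
  have hn : 0 < D.n := by unfold Dat.n; positivity
  have hc : c2 (lh (h.toIsLift.add (z12 (z 1) (z 2)))) = ex 2 ρ := by
    rw [← C2 h.toIsLift z (z12 (z 1) (z 2)) hz (m7_z12_adm _ _) (m7_z12_one _ _).symm
      (m7_z12_two _ _).symm, ← hρ]
    unfold c2
    rw [(KI ρ).2 hs, Nat.mul_div_cancel_left _ hn]
  rw [hc]
  have hsz := m7_szN_ne_zero D x z hx hz
  refine Nat.eq_of_factorization_eq hpos.ne' (mul_ne_zero (pow_ne_zero _ two_ne_zero) hsz) ?_
  intro q
  by_cases hq : q.Prime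
  · rw [Nat.factorization_mul (pow_ne_zero _ two_ne_zero) hsz, Finsupp.add_apply,
      Nat.factorization_pow, Finsupp.smul_apply, smul_eq_mul, Nat.prime_two.factorization,
      m7_szN_fact D x z hx hz q hq]
    by_cases h2 : q = 2
    · subst h2
      rw [Finsupp.single_eq_same, mul_one, if_pos rfl, add_zero]
      rfl
    · rw [Finsupp.single_eq_of_ne h2, mul_zero, zero_add, if_neg h2]
      exact EO hx h z hz hs q hq h2
  · rw [Nat.factorization_eq_zero_of_not_prime _ hq, Nat.factorization_eq_zero_of_not_prime _ hq]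

/-! ### the count -/

theorem count_param_of (EO : M7EO) (C2 : M7C2) (KI : M7KI)
    (HP : ∀ (D : Dat) (ρ : Gam →* Ext D) (_ : IsLocallyConstant ρ),
      ∃ (x : ℕ →₀ D.V) (f : Gam → D.Z) (h : IsLift D x f), adm x ∧ ρ = lh h)
    (LI : ∀ {D : Dat} {x x' : ℕ →₀ D.V} {f f' : Gam → D.Z} (h : IsLift D x f)
      (h' : IsLift D x' f') (_ : adm x) (_ : adm x') (_ : lh h = lh h'), x = x' ∧ f = f')
    (PI : ∀ {k : ℕ} (x y : ℕ →₀ (Fin k → ZMod 2)) (_ : adm x) (_ : adm y)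
      (_ : par x = par y), x = y)
    (LD : ∀ {D : Dat} {x : ℕ →₀ D.V} {f f' : Gam → D.Z} (_ : IsLift D x f)
      (_ : IsLift D x f'), ∃ z : ℕ →₀ D.Z, adm z ∧ ∀ σ, f' σ = f σ + par z σ)
    (LS : ∀ {D : Dat} {x : ℕ →₀ D.V} {f : Gam → D.Z} (_ : adm x) (h : IsLift D x f),
      Function.Surjective (lh h) ↔ Submodule.span (ZMod 2) (Set.range x) = ⊤)
    (NEC : ∀ {D : Dat} {x : ℕ →₀ D.V} {f : Gam → D.Z} (_ : adm x) (_ : IsLift D x f), Sol D x)
    (EN : ∀ {D : Dat} {x : ℕ →₀ D.V} {f : Gam → D.Z} (_ : adm x) (_ : IsLift D x f),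
      ∃ f' : Gam → D.Z, IsNormal D x f')
    (D : Dat) : ∃ cx : (ℕ →₀ D.V) → D.Z → D.Z → ℕ,
    (∀ x : ℕ →₀ D.V, adm x → Sol D x → ∃ (f : Gam → D.Z) (h : IsNormal D x f),
      ∀ z1 z2, cx x z1 z2 = c2 (lh (h.toIsLift.add (z12 z1 z2)))) ∧
    ∀ X : ℝ, Nat.card {ρ : Gam →* Ext D // Function.Surjective ρ ∧ IsLocallyConstant ρ ∧
        (dabs (fld ρ.ker) : ℝ) ≤ X} =
      Nat.card {w : (ℕ →₀ D.V) × (ℕ →₀ D.Z) // adm w.1 ∧ adm w.2 ∧ Sol D w.1 ∧
        Submodule.span (ZMod 2) (Set.range w.1) = ⊤ ∧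
        ((2 ^ cx w.1 (w.2 1) (w.2 2) * szN D w.1 w.2 : ℕ) : ℝ) ≤ X} := by
  classical
  have hex : ∀ x : ℕ →₀ D.V, ∃ f : Gam → D.Z, adm x → Sol D x → IsNormal D x f := by
    intro x
    by_cases hx : adm x
    · by_cases hs : Sol D x
      · obtain ⟨f, hf1, hf2⟩ := embed D x hx hs.1 hs.2
        obtain ⟨f', hf'⟩ := EN hx ⟨hf1, hf2⟩
        exact ⟨f', fun _ _ => hf'⟩
      · exact ⟨0, fun _ h => absurd h hs⟩
    · exact ⟨0, fun h => absurd h hx⟩
  choose F hF using hex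
  have hcx : ∃ cx : (ℕ →₀ D.V) → D.Z → D.Z → ℕ, ∀ (x : ℕ →₀ D.V) (hx : adm x) (hs : Sol D x)
      (z1 z2 : D.Z), cx x z1 z2 = c2 (lh ((hF x hx hs).toIsLift.add (z12 z1 z2))) := by
    refine ⟨fun x z1 z2 => if h : adm x ∧ Sol D x then
      c2 (lh ((hF x h.1 h.2).toIsLift.add (z12 z1 z2))) else 0, fun x hx hs z1 z2 => ?_⟩
    simp only [dif_pos (⟨hx, hs⟩ : adm x ∧ Sol D x)]
  obtain ⟨cx, hcx⟩ := hcx
  refine ⟨cx, fun x hx hs => ⟨F x, hF x hx hs, hcx x hx hs⟩, fun X => ?_⟩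
  symm
  refine Nat.card_congr (Equiv.ofBijective (fun w => ⟨lh ((hF w.1.1 w.2.1 w.2.2.2.1).toIsLift.add
    w.1.2), ?_, lh_lc _, ?_⟩) ⟨?_, ?_⟩)
  · exact (LS w.2.1 _).mpr w.2.2.2.2.1
  · have hsur := (LS w.2.1 ((hF w.1.1 w.2.1 w.2.2.2.1).toIsLift.add w.1.2)).mpr w.2.2.2.2.1
    have h1 := m7_dabs EO C2 KI w.2.1 (hF w.1.1 w.2.1 w.2.2.2.1) w.1.2 w.2.2.1 hsur
    rw [h1, ← hcx w.1.1 w.2.1 w.2.2.2.1]
    exact w.2.2.2.2.2
  · rintro ⟨⟨x, z⟩, hx, hz, hs, hsp, hX⟩ ⟨⟨x', z'⟩, hx', hz', hs', hsp', hX'⟩ he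
    have h1 := congrArg Subtype.val he
    simp only at h1
    obtain ⟨h2, h3⟩ := LI _ _ hx hx' h1
    simp only at h2 h3
    subst h2
    have h4 : par z = par z' := by
      funext σ
      have h5 := congrFun h3 σ
      exact add_left_cancel h5
    have h5 := PI z z' hz hz' h4
    subst h5
    rfl
  · rintro ⟨ρ, hsur, hlc, hX⟩
    obtain ⟨x, f, h, hx, rfl⟩ := HP D ρ hlc
    have hs := NEC hx h
    obtain ⟨z, hz, hfz⟩ := LD (hF x hx hs).toIsLift h
    have hf : f = fun σ => F x σ + par z σ := funext hfz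
    subst hf
    have h1 := m7_dabs EO C2 KI hx (hF x hx hs) z hz hsur
    refine ⟨⟨(x, z), hx, hz, hs, (LS hx h).mp hsur, ?_⟩, rfl⟩
    rw [hcx x hx hs]
    rw [h1] at hX
    exact hX

end Pool.Agent.H98.MK
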