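import Pool.Agent.H98.MK.ADefs

/-!
# Project MK (MP_a3214d), row A3: a large anisotropic variable
-/

set_option autoImplicit false

open scoped BigOperators
open Filter

namespace Pool.Agent.H98.MK

/-- the product of the symbols is at most one -/
theorem a3_jp {ι : Type} [Fintype ι] (L : ι → ι → Prop) (x : ι → ℕ) :
    |(jp L x : ℝ)| ≤ 1 := by
  classical
  unfold jp
  push_cast
  rw [Finset.abs_prod]
  refine Finset.prod_le_one (fun i _ => abs_nonneg _) fun i _ => ?_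
  rw [Finset.abs_prod]
  refine Finset.prod_le_one (fun j _ => abs_nonneg _) fun j _ => ?_
  split_ifs
  · rcases jacobiSym.trichotomy (x i : ℤ) (x j) with h | h | h
    · rw [h]; simp
    · rw [h]; simp
    · rw [h]; simp
  · simp

/-- harmonic sums -/
theorem a3_harm (Y : ℝ) (hY : 1 ≤ Y) :
    ∑ n ∈ Finset.Icc 1 ⌊Y⌋₊, ((n : ℝ))⁻¹ ≤ 1 + Real.log Y := by
  have h := harmonic_floor_le_one_add_log Y hY
  rw [harmonic_eq_sum_Icc] at h
  push_cast at h
  exact h

/-- the basic inequality between the weights -/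
theorem a3_wt {ι : Type} [Fintype ι] (iso : ι → Prop) (i : ι) (hi : ¬ iso i) (x : ι → ℕ)
    (hx : ∀ j, 1 ≤ x j) (P Y : ℝ) (hP : 1 ≤ P) (hPx : P < x i)
    (h : ∏ j, (x j : ℝ) ^ we iso j ≤ Y) : P ^ (1 / 12 : ℝ) * ∏ j, (x j : ℝ) ≤ Y := by
  classical
  refine le_trans ?_ h
  rw [← Finset.mul_prod_erase Finset.univ (fun j => (x j : ℝ) ^ we iso j) (Finset.mem_univ i),
    ← Finset.mul_prod_erase Finset.univ (fun j => (x j : ℝ)) (Finset.mem_univ i), ← mul_assoc]
  have h1 : ∀ j, (1 : ℝ) ≤ x j := fun j => by exact_mod_cast hx j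
  refine mul_le_mul ?_ ?_ (Finset.prod_nonneg fun j _ => by positivity) (by positivity)
  · have h2 : we iso i = 1 / 2 + 1 := by
      unfold we
      rw [if_neg hi]
      norm_num
    rw [h2, Real.rpow_add_one (by have := h1 i; positivity)]
    refine mul_le_mul_of_nonneg_right ?_ (by positivity)
    calc P ^ (1 / 12 : ℝ) ≤ (x i : ℝ) ^ (1 / 12 : ℝ) :=
          Real.rpow_le_rpow (by linarith) hPx.le (by norm_num)
      _ ≤ (x i : ℝ) ^ (1 / 2 : ℝ) := Real.rpow_le_rpow_of_exponent_le (h1 i) (by norm_num)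
  · refine Finset.prod_le_prod (fun j _ => by positivity) fun j _ => ?_
    have h3 : (1 : ℝ) ≤ we iso j := by
      unfold we
      split_ifs
      · norm_num
      · norm_num
    calc (x j : ℝ) = (x j : ℝ) ^ (1 : ℝ) := (Real.rpow_one _).symm
      _ ≤ (x j : ℝ) ^ we iso j := Real.rpow_le_rpow_of_exponent_le (h1 j) h3

/-- a large anisotropic variable -/
theorem GS_aniso {ι : Type} [Fintype ι] (iso : ι → Prop) (L : ι → ι → Prop) (i : ι)
    (hi : ¬ iso i) :
    ∃ C : ℝ, ∃ k : ℕ, ∀ (a : ι → ℕ → ℝ) (P Y : ℝ), (∀ l n, |a l n| ≤ 1) → 1 ≤ P → 1 ≤ Y →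
      (∀ n, a i n ≠ 0 → P < n) →
      |GS iso L a Y| ≤ C * Y * P ^ (-(1 / 12) : ℝ) * (1 + Real.log Y) ^ k := by
  classical
  refine ⟨1, Fintype.card ι, fun a P Y ha hP hY haP => ?_⟩
  have hY0 : 0 < Y := by linarith
  have hP0 : 0 < P := by linarith
  have hpp : 0 < P ^ (-(1 / 12) : ℝ) := Real.rpow_pos_of_pos hP0 _
  rw [one_mul]
  have key : ∀ x ∈ Fintype.piFinset (fun _ : ι => Finset.Icc 1 ⌊Y⌋₊),
      |if Squarefree (2 * ∏ i, x i) ∧ ∏ i, (x i : ℝ) ^ we iso i ≤ Y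
        then (∏ i, a i (x i)) * (jp L x : ℝ) else 0| ≤
      Y * P ^ (-(1 / 12) : ℝ) * ∏ j, ((x j : ℝ))⁻¹ := by
    intro x hx
    have hx1 : ∀ j, 1 ≤ x j := fun j => (Finset.mem_Icc.1 (Fintype.mem_piFinset.1 hx j)).1
    have hpr : 0 ≤ ∏ j, ((x j : ℝ))⁻¹ := Finset.prod_nonneg fun j _ => by positivity
    have hnn : 0 ≤ Y * P ^ (-(1 / 12) : ℝ) * ∏ j, ((x j : ℝ))⁻¹ := by positivity
    by_cases hc : Squarefree (2 * ∏ i, x i) ∧ ∏ i, (x i : ℝ) ^ we iso i ≤ Y
    · rw [if_pos hc]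
      by_cases h0 : a i (x i) = 0
      · rw [Finset.prod_eq_zero (Finset.mem_univ i) h0, zero_mul, abs_zero]
        exact hnn
      · have h1 := a3_wt iso i hi x hx1 P Y hP (haP _ h0) hc.2
        have h2 : |(∏ i, a i (x i)) * (jp L x : ℝ)| ≤ 1 := by
          rw [abs_mul, Finset.abs_prod]
          have h3 : ∏ j, |a j (x j)| ≤ 1 :=
            Finset.prod_le_one (fun j _ => abs_nonneg _) fun j _ => ha j _
          calc (∏ j, |a j (x j)|) * |(jp L x : ℝ)| ≤ 1 * 1 :=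
                mul_le_mul h3 (a3_jp L x) (abs_nonneg _) zero_le_one
            _ = 1 := one_mul 1
        refine le_trans h2 ?_
        have hxp : 0 < ∏ j, (x j : ℝ) := Finset.prod_pos fun j _ => by
          have := hx1 j
          positivity
        rw [Finset.prod_inv_distrib, Real.rpow_neg hP0.le]
        have hP12 : 0 < P ^ (1 / 12 : ℝ) := Real.rpow_pos_of_pos hP0 _
        rw [mul_assoc, ← mul_inv, ← div_eq_mul_inv, le_div_iff₀ (by positivity), one_mul]
        exact h1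
    · rw [if_neg hc, abs_zero]
      exact hnn
  unfold GS
  refine le_trans (Finset.abs_sum_le_sum_abs _ _) ?_
  refine le_trans (Finset.sum_le_sum key) ?_
  rw [← Finset.mul_sum]
  refine mul_le_mul_of_nonneg_left ?_ (by positivity)
  rw [← Finset.prod_univ_sum (fun _ : ι => Finset.Icc 1 ⌊Y⌋₊) (fun _ n => ((n : ℝ))⁻¹)]
  rw [Finset.prod_const, Finset.card_univ]
  exact pow_le_pow_left₀ (Finset.sum_nonneg fun n _ => by positivity) (a3_harm Y hY) _

end Pool.Agent.H98.MK
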