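import Pool.Agent.H98.MK.Box

/-!
# Project MK, row B5: bilinear bound for boxes, symmetric
-/

set_option autoImplicit false

open scoped BigOperators
open Filter

namespace Pool.Agent.H98.MK

/-- from the exponent `5 / 6` to the saving `P ^ (- 1 / 6)` -/
theorem b5_save {M N P : ℝ} (hP : 1 ≤ P) (hM : P ≤ M) (hN : P ≤ N) :
    2 * M * N ^ (5 / 6 : ℝ) * (1 + Real.log M) ≤
      2 * (M * N) * P ^ (-(1 / 6) : ℝ) * (1 + Real.log (M * N)) := by
  have hM1 : 1 ≤ M := hP.trans hM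
  have hN1 : 1 ≤ N := hP.trans hN
  have hN0 : 0 < N := by linarith
  have h1 : N ^ (5 / 6 : ℝ) = N * N ^ (-(1 / 6) : ℝ) := by
    rw [show (5 / 6 : ℝ) = 1 + -(1 / 6) by norm_num, Real.rpow_add hN0, Real.rpow_one]
  have h2 : N ^ (-(1 / 6) : ℝ) ≤ P ^ (-(1 / 6) : ℝ) :=
    Real.rpow_le_rpow_of_nonpos (by linarith) hN (by norm_num)
  have h3 : 0 ≤ N ^ (-(1 / 6) : ℝ) := Real.rpow_nonneg hN0.le _
  have h4 : Real.log M ≤ Real.log (M * N) :=
    Real.log_le_log (by linarith) (by nlinarith)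
  have h5 : 0 ≤ Real.log M := Real.log_nonneg hM1
  rw [h1]
  calc 2 * M * (N * N ^ (-(1 / 6) : ℝ)) * (1 + Real.log M)
      = 2 * (M * N) * N ^ (-(1 / 6) : ℝ) * (1 + Real.log M) := by ring
    _ ≤ _ := by gcongr

theorem box_sym (M N : ℕ) (hM : 1 ≤ M) (hN : 1 ≤ N) (a b : ℕ → ℝ) (ha : ∀ m, |a m| ≤ 1)
    (hb : ∀ n, |b n| ≤ 1) (ha2 : ∀ n, a n ≠ 0 → Odd n ∧ Squarefree n)
    (hb2 : ∀ n, b n ≠ 0 → Odd n ∧ Squarefree n) (P : ℝ) (hP : 1 ≤ P) (hPM : P ≤ M)
    (hPN : P ≤ N) :
    |∑ m ∈ Finset.Icc 1 M, ∑ n ∈ Finset.Icc 1 N, a m * b n * (jacobiSym m n : ℝ)| ≤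
      8 * (M * N) * P ^ (-(1 / 6) : ℝ) * (1 + Real.log (M * N)) := by
  have hM1 : (1 : ℝ) ≤ M := hP.trans hPM
  have hN1 : (1 : ℝ) ≤ N := hP.trans hPN
  have hlog : 0 ≤ Real.log ((M : ℝ) * N) := Real.log_nonneg (by nlinarith)
  have hPp : 0 ≤ P ^ (-(1 / 6) : ℝ) := Real.rpow_nonneg (by linarith) _
  have hpos : 0 ≤ ((M : ℝ) * N) * P ^ (-(1 / 6) : ℝ) * (1 + Real.log (M * N)) := by positivity
  rcases le_or_gt N M with h | h
  · refine (box M N h hN a b ha hb hb2).trans ((b5_save hP hPM hPN).trans ?_)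
    nlinarith
  · -- reciprocity
    let a1 : ℕ → ℝ := fun m => if m % 4 = 1 then a m else 0
    let a3 : ℕ → ℝ := fun m => if m % 4 = 3 then a m else 0
    let b3 : ℕ → ℝ := fun n => (-1) ^ (n / 2) * b n
    have hterm : ∀ m n, a m * b n * (jacobiSym m n : ℝ) =
        b n * a1 m * (jacobiSym n m : ℝ) + b3 n * a3 m * (jacobiSym n m : ℝ) := by
      intro m n
      by_cases ham : a m = 0
      · have e1 : a1 m = 0 := by simp [a1, ham]
        have e3 : a3 m = 0 := by simp [a3, ham]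
        rw [ham, e1, e3]
        ring
      by_cases hbn : b n = 0
      · have e3 : b3 n = 0 := by simp [b3, hbn]
        rw [hbn, e3]
        ring
      have hm := (ha2 m ham).1
      have hn := (hb2 n hbn).1
      have hrec := jacobiSym.quadratic_reciprocity hm hn
      have hm4 : m % 4 = 1 ∨ m % 4 = 3 := by
        have := Nat.odd_iff.1 hm
        omega
      rcases hm4 with h4 | h4
      · have e1 : a1 m = a m := by simp [a1, h4]
        have e3 : a3 m = 0 := by simp [a3, h4]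
        have e : (-1 : ℤ) ^ (m / 2 * (n / 2)) = 1 := by
          apply Even.neg_one_pow
          apply Even.mul_right
          rw [Nat.even_iff]
          omega
        rw [e, one_mul] at hrec
        rw [e1, e3, hrec]
        ring
      · have e1 : a1 m = 0 := by simp [a1, h4]
        have e3 : a3 m = a m := by simp [a3, h4]
        have e : (-1 : ℤ) ^ (m / 2 * (n / 2)) = (-1) ^ (n / 2) := by
          rw [pow_mul, Odd.neg_one_pow]
          rw [Nat.odd_iff]
          omega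
        rw [e] at hrec
        have e4 : b3 n = (-1) ^ (n / 2) * b n := rfl
        rw [e1, e3, hrec, e4]
        push_cast
        ring
    have ha1 : ∀ m, |a1 m| ≤ 1 := by
      intro m
      by_cases h4 : m % 4 = 1
      · simpa [a1, h4] using ha m
      · simp [a1, h4]
    have ha3 : ∀ m, |a3 m| ≤ 1 := by
      intro m
      by_cases h4 : m % 4 = 3
      · simpa [a3, h4] using ha m
      · simp [a3, h4]
    have hb3 : ∀ n, |b3 n| ≤ 1 := by
      intro n
      change |(-1) ^ (n / 2) * b n| ≤ 1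
      rw [abs_mul, abs_pow, abs_neg, abs_one, one_pow, one_mul]
      exact hb n
    have ha1' : ∀ m, a1 m ≠ 0 → Odd m ∧ Squarefree m := by
      intro m hm
      apply ha2
      intro h0
      exact hm (by simp [a1, h0])
    have ha3' : ∀ m, a3 m ≠ 0 → Odd m ∧ Squarefree m := by
      intro m hm
      apply ha2
      intro h0
      exact hm (by simp [a3, h0])
    have hsum : ∑ m ∈ Finset.Icc 1 M, ∑ n ∈ Finset.Icc 1 N, a m * b n * (jacobiSym m n : ℝ) =
        (∑ n ∈ Finset.Icc 1 N, ∑ m ∈ Finset.Icc 1 M, b n * a1 m * (jacobiSym n m : ℝ)) +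
        ∑ n ∈ Finset.Icc 1 N, ∑ m ∈ Finset.Icc 1 M, b3 n * a3 m * (jacobiSym n m : ℝ) := by
      rw [Finset.sum_comm, ← Finset.sum_add_distrib]
      refine Finset.sum_congr rfl fun n _ => ?_
      rw [← Finset.sum_add_distrib]
      exact Finset.sum_congr rfl fun m _ => hterm m n
    rw [hsum]
    have h1 := (box N M h.le hM b a1 hb ha1 ha1').trans (b5_save hP hPN hPM)
    have h3 := (box N M h.le hM b3 a3 hb3 ha3 ha3').trans (b5_save hP hPN hPM)
    refine (abs_add_le _ _).trans ((add_le_add h1 h3).trans ?_)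
    rw [mul_comm (N : ℝ) (M : ℝ)]
    nlinarith

end Pool.Agent.H98.MK
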