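import Pool.Agent.H98.MK.Bilin1
import Pool.Agent.H98.MK.BoxSym

/-!
# Project MK, row B6: the bilinear bound with the condition `m n ≤ x`
-/

set_option autoImplicit false

open scoped BigOperators

open Filter

namespace Pool.Agent.H98.MK

open Classical in
theorem bilin : ∃ C : ℝ, ∀ (P x : ℝ) (a b : ℕ → ℝ), 1 ≤ P → 1 ≤ x → (∀ m, |a m| ≤ 1) →
    (∀ n, |b n| ≤ 1) → (∀ n, a n ≠ 0 → P < n ∧ Odd n ∧ Squarefree n) →
    (∀ n, b n ≠ 0 → P < n ∧ Odd n ∧ Squarefree n) →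
    |∑ m ∈ Finset.Icc 1 ⌊x⌋₊, ∑ n ∈ Finset.Icc 1 ⌊x⌋₊,
      if (m * n : ℝ) ≤ x then a m * b n * (jacobiSym m n : ℝ) else 0| ≤
      C * x * P ^ (-(1 / 12) : ℝ) * (1 + Real.log x) ^ 2 :=
  b6_main box_sym

end Pool.Agent.H98.MK
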