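import Pool.Agent.H98.MK.SQAsymp

/-!
# Project MK: tuples with entries at least two
-/

set_option autoImplicit false

open Filter

namespace Pool.Agent.H98.MK

/-- squarefree products of tuples with entries at least two -/
noncomputable def NN (k m : ℕ) (x : ℝ) : ℕ :=
  ((Fintype.piFinset (fun _ : Fin k => Finset.Icc 2 ⌊x⌋₊)).filter
    (fun y => ((∏ i, y i : ℕ) : ℝ) ≤ x ∧ Squarefree (2 * m * ∏ i, y i))).card

theorem nn_le_TP (k m : ℕ) (x : ℝ) : NN k m x ≤ TP k x := by
  unfold NN TP
  refine Finset.card_le_card fun y hy => ?_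
  rw [Finset.mem_filter, Fintype.mem_piFinset] at hy ⊢
  refine ⟨fun i => ?_, hy.2.1⟩
  have := Finset.mem_Icc.1 (hy.1 i)
  exact Finset.mem_Icc.2 ⟨by omega, this.2⟩

theorem NN_le (k m : ℕ) (x : ℝ) (hx : 1 ≤ x) : (NN (k + 1) m x : ℝ) ≤ x * (1 + Real.log x) ^ k :=
  le_trans (by exact_mod_cast nn_le_TP (k + 1) m x) (TP_le k x hx)

theorem nn_le_SQ (k m : ℕ) (x : ℝ) : NN k m x ≤ SQ k m x := by
  unfold NN SQ
  refine Finset.card_le_card fun y hy => ?_
  rw [Finset.mem_filter, Fintype.mem_piFinset] at hy ⊢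
  refine ⟨fun i => ?_, hy.2⟩
  have := Finset.mem_Icc.1 (hy.1 i)
  exact Finset.mem_Icc.2 ⟨by omega, this.2⟩

/-- the tuples with the entry one at a given place -/
theorem nn_one (k : ℕ) (x : ℝ) (i : Fin (k + 1)) :
    ((tcS (k + 1) x).filter (fun y => y i = 1)).card ≤ TP k x := by
  have h0 : TP k x = (tcS k x).card := rfl
  rw [h0]
  refine Finset.card_le_card_of_injOn (fun y => fun j => y (i.succAbove j)) ?_ ?_
  · intro y hy
    obtain ⟨h1, h2⟩ := Finset.mem_filter.1 (Finset.mem_coe.1 hy)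
    obtain ⟨h3, h4⟩ := tc_mem.1 h1
    refine Finset.mem_coe.2 (tc_mem.2 ⟨fun j => h3 _, ?_⟩)
    rw [Fin.prod_univ_succAbove _ i, h2, one_mul] at h4
    exact h4
  · intro y hy y' hy' h
    have h2 := (Finset.mem_filter.1 (Finset.mem_coe.1 hy)).2
    have h2' := (Finset.mem_filter.1 (Finset.mem_coe.1 hy')).2
    funext j
    rcases Fin.eq_self_or_eq_succAbove i j with rfl | ⟨j', rfl⟩
    · rw [h2, h2']
    · exact congrFun h j'

theorem SQ_le_nn (k m : ℕ) (x : ℝ) : SQ (k + 1) m x ≤ NN (k + 1) m x + (k + 1) * TP k x := by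
  classical
  have h1 : SQ (k + 1) m x ≤ NN (k + 1) m x +
      (Finset.univ.biUnion fun i : Fin (k + 1) =>
        (tcS (k + 1) x).filter (fun y => y i = 1)).card := by
    unfold SQ NN
    refine (Finset.card_le_card (fun y hy => ?_)).trans (Finset.card_union_le _ _)
    rw [Finset.mem_filter, Fintype.mem_piFinset] at hy
    rw [Finset.mem_union, Finset.mem_filter, Fintype.mem_piFinset]
    by_cases h : ∃ i, y i = 1
    · right
      obtain ⟨i, hi⟩ := h
      refine Finset.mem_biUnion.2 ⟨i, Finset.mem_univ i, Finset.mem_filter.2 ⟨?_, hi⟩⟩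
      exact tc_mem.2 ⟨fun j => (Finset.mem_Icc.1 (hy.1 j)).1, hy.2.1⟩
    · left
      push Not at h
      refine ⟨fun j => ?_, hy.2⟩
      have h3 := Finset.mem_Icc.1 (hy.1 j)
      have h4 := h j
      exact Finset.mem_Icc.2 ⟨by omega, h3.2⟩
  refine h1.trans (Nat.add_le_add_left ?_ _)
  refine Finset.card_biUnion_le.trans ((Finset.sum_le_sum fun i _ => nn_one k x i).trans ?_)
  simp

theorem nn_TP_zero (k : ℕ) :
    Tendsto (fun x : ℝ => (TP k x : ℝ) / (x * Real.log x ^ k)) atTop (nhds 0) := by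
  rcases k with _ | k
  · have h1 : ∀ x : ℝ, (TP 0 x : ℝ) ≤ 1 := by
      intro x
      have : TP 0 x ≤ 1 := by
        unfold TP
        refine (Finset.card_filter_le _ _).trans ?_
        simp
      exact_mod_cast this
    refine squeeze_zero' (g := fun x : ℝ => x⁻¹) ?_ ?_ tendsto_inv_atTop_zero
    · filter_upwards [eventually_gt_atTop (0 : ℝ)] with x hx
      positivity
    · filter_upwards [eventually_gt_atTop (0 : ℝ)] with x hx
      rw [pow_zero, mul_one, div_eq_mul_inv]
      have : 0 ≤ x⁻¹ := by positivity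
      nlinarith [h1 x]
  · have h1 := (TP_asymp k).mul (Real.tendsto_log_atTop.inv_tendsto_atTop)
    rw [mul_zero] at h1
    refine h1.congr' ?_
    filter_upwards [eventually_gt_atTop (1 : ℝ)] with x hx
    have h2 : 0 < Real.log x := Real.log_pos hx
    have h3 : 0 < x := by linarith
    simp only [Pi.inv_apply]
    field_simp
    ring

theorem NN_asymp (k m : ℕ) (hm : Squarefree (2 * m)) : ∃ C : ℝ, 0 < C ∧
    Tendsto (fun x : ℝ => (NN (k + 1) m x : ℝ) / (x * Real.log x ^ k)) atTop (nhds C) := by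
  obtain ⟨C, hC, h⟩ := SQ_asymp k m hm
  refine ⟨C, hC, ?_⟩
  have h1 : Tendsto (fun x : ℝ => ((SQ (k + 1) m x : ℝ) - NN (k + 1) m x) /
      (x * Real.log x ^ k)) atTop (nhds 0) := by
    have h2 := (nn_TP_zero k).const_mul ((k : ℝ) + 1)
    rw [mul_zero] at h2
    refine squeeze_zero' ?_ ?_ h2
    · filter_upwards [eventually_gt_atTop (1 : ℝ)] with x hx
      have h3 : 0 < Real.log x := Real.log_pos hx
      have h4 : 0 < x := by linarith
      have h5 : (NN (k + 1) m x : ℝ) ≤ SQ (k + 1) m x := by exact_mod_cast nn_le_SQ (k + 1) m x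
      exact div_nonneg (by linarith) (by positivity)
    · filter_upwards [eventually_gt_atTop (1 : ℝ)] with x hx
      have h3 : 0 < Real.log x := Real.log_pos hx
      have h4 : 0 < x := by linarith
      have h5 : (SQ (k + 1) m x : ℝ) ≤ NN (k + 1) m x + (k + 1) * TP k x := by
        exact_mod_cast SQ_le_nn k m x
      rw [← mul_div_assoc]
      exact div_le_div_of_nonneg_right (by linarith) (by positivity)
  have h2 := h.sub h1
  rw [sub_zero] at h2
  refine h2.congr fun x => ?_
  rw [← sub_div]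
  congr 1
  ring

end Pool.Agent.H98.MK
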