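import Pool.Agent.H98.MK.ADefs
import Pool.Agent.H98.MK.NNAsymp

/-!
# Project MK: the basic sums when all isotropic variables are free
-/

set_option autoImplicit false

open scoped BigOperators
open Filter

namespace Pool.Agent.H98.MK

namespace AT1aux

/-- summability of products over tuples -/
theorem summable_prod {J : Type} [Fintype J] {a : ℕ → ℝ} (ha : ∀ n, 0 ≤ a n) (hs : Summable a) :
    Summable fun z : J → ℕ => ∏ j, a (z j) := by
  classical
  refine summable_of_sum_le (c := ∏ _j : J, ∑' n, a n) (fun z => Finset.prod_nonneg fun j _ => ha _)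
    fun u => ?_
  have h1 : u ⊆ Fintype.piFinset fun j : J => u.image fun z => z j := by
    intro z hz
    rw [Fintype.mem_piFinset]
    intro j
    exact Finset.mem_image.2 ⟨z, hz, rfl⟩
  refine (Finset.sum_le_sum_of_subset_of_nonneg h1 fun z _ _ =>
    Finset.prod_nonneg fun j _ => ha _).trans ?_
  rw [← Finset.prod_univ_sum]
  exact Finset.prod_le_prod (fun j _ => Finset.sum_nonneg fun n _ => ha n)
    fun j _ => hs.sum_le_tsum _ fun n _ => ha n

section split

variable {ι : Type} [Fintype ι] (iso : ι → Prop) (L : ι → ι → Prop) (c : ι → Fin 4)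

open Classical in
/-- the sign of the anisotropic variables -/
noncomputable def F (z : {i // ¬ iso i} → ℕ) : ℤ :=
  (∏ j : {i // ¬ iso i}, psi (c j) (z j)) *
    ∏ i : {i // ¬ iso i}, ∏ j : {i // ¬ iso i}, if L i j then jacobiSym (z i) (z j) else 1

open Classical in
/-- the weight of the anisotropic variables -/
noncomputable def qz (z : {i // ¬ iso i} → ℕ) : ℝ :=
  ∏ j : {i // ¬ iso i}, (z j : ℝ) ^ (3 / 2 : ℝ)

open Classical in
theorem prod_split {M : Type} [CommMonoid M] (f : ι → M) :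
    ∏ i, f i = (∏ i : {i // iso i}, f i) * ∏ i : {i // ¬ iso i}, f i :=
  (Fintype.prod_subtype_mul_prod_subtype iso f).symm

theorem abs_psi_le (c : Fin 4) (m : ℕ) : |psi c m| ≤ 1 := by
  unfold psi
  have h : ∀ (a : ℤ), |jacobiSym a m| ≤ 1 := fun a => by
    rcases jacobiSym.trichotomy a m with h | h | h <;> rw [h] <;> norm_num
  split_ifs
  · norm_num
  · exact h _
  · exact h _
  · exact h _

theorem abs_F_le (z : {i // ¬ iso i} → ℕ) : |F iso L c z| ≤ 1 := by
  classical
  unfold F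
  rw [abs_mul, Finset.abs_prod]
  refine mul_le_one₀ (Finset.prod_le_one (fun i _ => abs_nonneg _) fun i _ => abs_psi_le _ _)
    (abs_nonneg _) ?_
  rw [Finset.abs_prod]
  refine Finset.prod_le_one (fun i _ => abs_nonneg _) fun i _ => ?_
  rw [Finset.abs_prod]
  refine Finset.prod_le_one (fun i _ => abs_nonneg _) fun j _ => ?_
  split_ifs
  · rcases jacobiSym.trichotomy (z i) (z j) with h | h | h <;> rw [h] <;> norm_num
  · norm_num

variable {iso L c}

open Classical in
theorem sign_split (h : ∀ i, iso i → c i = 0 ∧ ∀ j, ¬ L i j ∧ ¬ L j i) (x : ι → ℕ) :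
    (∏ i, psi (c i) (x i)) * jp L x = F iso L c fun j => x j := by
  unfold F
  congr 1
  · rw [prod_split iso]
    have h1 : ∏ i : {i // iso i}, psi (c i) (x i) = 1 :=
      Finset.prod_eq_one fun i _ => by
        rw [(h i i.2).1]
        simp [psi]
    rw [h1, one_mul]
  · unfold jp
    rw [prod_split iso]
    have h1 : (∏ i : {i // iso i}, ∏ j, if L i j then jacobiSym (x i) (x j) else 1) = 1 :=
      Finset.prod_eq_one fun i _ => Finset.prod_eq_one fun j _ => by
        rw [if_neg ((h i i.2).2 j).1]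
    rw [h1, one_mul]
    refine Finset.prod_congr rfl fun i _ => ?_
    rw [prod_split iso]
    have h2 : (∏ j : {i // iso i}, if L i j then jacobiSym (x i) (x j) else 1) = 1 :=
      Finset.prod_eq_one fun j _ => by
        rw [if_neg ((h j j.2).2 i).2]
    rw [h2, one_mul]

open Classical in
theorem weight_split (x : ι → ℕ) :
    ∏ i, (x i : ℝ) ^ we iso i =
      ((∏ i : {i // iso i}, x i : ℕ) : ℝ) * qz iso fun j => x j := by
  rw [prod_split iso]
  unfold qz
  push_cast
  congr 1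
  · refine Finset.prod_congr rfl fun i _ => ?_
    rw [we, if_pos i.2, Real.rpow_one]
  · refine Finset.prod_congr rfl fun i _ => ?_
    rw [we, if_neg i.2]

open Classical in
/-- the count of the isotropic variables -/
theorem count_eq {k : ℕ} {m : ℕ} {q Y : ℝ} (hq : 1 ≤ q) (hY : 1 ≤ Y) :
    ((Fintype.piFinset (fun _ : Fin (k + 1) => Finset.Icc 2 ⌊Y⌋₊)).filter
      (fun y => Squarefree (2 * ((∏ i, y i) * m)) ∧ ((∏ i, y i : ℕ) : ℝ) * q ≤ Y)).card =
      NN (k + 1) m (Y / q) := by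
  have hq0 : 0 < q := by linarith
  unfold NN
  congr 1
  ext y
  simp only [Finset.mem_filter, Fintype.mem_piFinset, Finset.mem_Icc]
  have e1 : 2 * m * ∏ i, y i = 2 * ((∏ i, y i) * m) := by ring
  rw [e1, le_div_iff₀ hq0]
  constructor
  · rintro ⟨h1, h2, h3⟩
    refine ⟨fun i => ⟨(h1 i).1, ?_⟩, h3, h2⟩
    apply Nat.le_floor
    rw [le_div_iff₀ hq0]
    refine le_trans (mul_le_mul_of_nonneg_right ?_ hq0.le) h3
    have h4 : y i ∣ ∏ i, y i := Finset.dvd_prod_of_mem _ (Finset.mem_univ i)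
    have h5 : 0 < ∏ i, y i := Finset.prod_pos fun i _ => by have := (h1 i).1; omega
    exact_mod_cast Nat.le_of_dvd h5 h4
  · rintro ⟨h1, h2, h3⟩
    refine ⟨fun i => ⟨(h1 i).1, (h1 i).2.trans (Nat.floor_mono ?_)⟩, h3, h2⟩
    exact div_le_self (by linarith) hq

/-- the summand -/
noncomputable def fz (iso : ι → Prop) (L : ι → ι → Prop) (c : ι → Fin 4) (k : ℕ) (Y : ℝ)
    (z : {i // ¬ iso i} → ℕ) : ℝ :=
  open Classical in
  if ∀ j, 2 ≤ z j then (F iso L c z : ℝ) * NN (k + 1) (∏ j, z j) (Y / qz iso z) else 0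

theorem one_le_qz {z : {i // ¬ iso i} → ℕ} (hz : ∀ j, 2 ≤ z j) : 1 ≤ qz iso z := by
  classical
  unfold qz
  have : ∀ j ∈ (Finset.univ : Finset {i // ¬ iso i}), (1:ℝ) ≤ (z j : ℝ) ^ (3 / 2 : ℝ) := by
    intro j _
    apply Real.one_le_rpow _ (by norm_num)
    have := hz j
    exact_mod_cast (by omega : 1 ≤ z j)
  exact Finset.one_le_prod this

theorem le_qz {z : {i // ¬ iso i} → ℕ} (hz : ∀ j, 2 ≤ z j) (j : {i // ¬ iso i}) :
    (z j : ℝ) ≤ qz iso z := by
  classical
  have h1 : ∀ j, (1:ℝ) ≤ (z j : ℝ) := fun j => by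
    have := hz j
    exact_mod_cast (by omega : 1 ≤ z j)
  unfold qz
  rw [← Finset.mul_prod_erase _ _ (Finset.mem_univ j)]
  have h2 : (z j : ℝ) ≤ (z j : ℝ) ^ (3 / 2 : ℝ) := by
    calc (z j : ℝ) = (z j : ℝ) ^ (1 : ℝ) := (Real.rpow_one _).symm
      _ ≤ _ := Real.rpow_le_rpow_of_exponent_le (h1 j) (by norm_num)
  have h3 : (1:ℝ) ≤ ∏ i ∈ Finset.univ.erase j, (z i : ℝ) ^ (3 / 2 : ℝ) :=
    Finset.one_le_prod fun i _ => Real.one_le_rpow (h1 i) (by norm_num)
  calc (z j : ℝ) ≤ (z j : ℝ) ^ (3 / 2 : ℝ) * 1 := by rw [mul_one]; exact h2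
    _ ≤ _ := mul_le_mul_of_nonneg_left h3 (by positivity)

theorem NN_zero {k m : ℕ} {x : ℝ} (hx : x < 1) : NN (k + 1) m x = 0 := by
  unfold NN
  rw [Finset.card_eq_zero, Finset.filter_eq_empty_iff]
  intro y hy
  rw [Fintype.mem_piFinset] at hy
  have h1 := Finset.mem_Icc.1 (hy 0)
  have h2 : ⌊x⌋₊ = 0 := Nat.floor_eq_zero.2 hx
  omega

open Classical in
/-- the basic sum as a series over the anisotropic variables -/
theorem TS_eq {k : ℕ} (e : Fin (k + 1) ≃ {i // iso i})
    (h : ∀ i, iso i → c i = 0 ∧ ∀ j, ¬ L i j ∧ ¬ L j i) {Y : ℝ} (hY : 1 ≤ Y) :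
    TS iso L c Y = ∑' z : {i // ¬ iso i} → ℕ, fz iso L c k Y z := by
  have h0 : ∀ z ∉ Fintype.piFinset (fun _ : {i // ¬ iso i} => Finset.Icc 2 ⌊Y⌋₊),
      fz iso L c k Y z = 0 := by
    intro z hz
    unfold fz
    split_ifs with h2
    · rw [Fintype.mem_piFinset] at hz
      push Not at hz
      obtain ⟨j, hj⟩ := hz
      have h3 : ⌊Y⌋₊ < z j := by
        by_contra hc
        exact hj (Finset.mem_Icc.2 ⟨h2 j, not_lt.1 hc⟩)
      have h4 : Y < z j := (Nat.floor_lt (by linarith)).1 h3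
      have h5 := le_qz h2 j
      rw [NN_zero, Nat.cast_zero, mul_zero]
      rw [div_lt_one (by linarith)]
      linarith
    · rfl
  rw [tsum_eq_sum h0]
  set E : (ι → ℕ) ≃ (Fin (k + 1) → ℕ) × ({i // ¬ iso i} → ℕ) :=
    (Equiv.piEquivPiSubtypeProd iso (fun _ => ℕ)).trans
      (Equiv.prodCongr (Equiv.arrowCongr e.symm (Equiv.refl ℕ)) (Equiv.refl _)) with hE
  have hE1 : ∀ x a, (E x).1 a = x (e a) := fun x a => rfl
  have hE2 : ∀ x j, (E x).2 j = x j := fun x j => rfl
  have step : TS iso L c Y = ∑ p ∈ (Fintype.piFinset (fun _ : Fin (k + 1) => Finset.Icc 2 ⌊Y⌋₊)) ×ˢ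
      (Fintype.piFinset (fun _ : {i // ¬ iso i} => Finset.Icc 2 ⌊Y⌋₊)),
      if Squarefree (2 * ((∏ a, p.1 a) * ∏ j, p.2 j)) ∧ ((∏ a, p.1 a : ℕ) : ℝ) * qz iso p.2 ≤ Y
      then (F iso L c p.2 : ℝ) else 0 := by
    unfold TS
    refine Finset.sum_equiv E (fun x => ?_) fun x _ => ?_
    · rw [Finset.mem_product, Fintype.mem_piFinset, Fintype.mem_piFinset, Fintype.mem_piFinset]
      constructor
      · intro hx
        exact ⟨fun a => hx _, fun j => hx _⟩
      · rintro ⟨h1, h2⟩ i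
        by_cases hi : iso i
        · have := h1 (e.symm ⟨i, hi⟩)
          rw [hE1, Equiv.apply_symm_apply] at this
          exact this
        · exact h2 ⟨i, hi⟩
    · have e1 : ∏ a, (E x).1 a = ∏ i : {i // iso i}, x i := by
        simp only [hE1]
        exact Equiv.prod_comp e fun i : {i // iso i} => x i
      have e2 : ∏ j, (E x).2 j = ∏ i : {i // ¬ iso i}, x i := rfl
      have e3 : (E x).2 = fun j : {i // ¬ iso i} => x j := rfl
      rw [e1, e2, e3, ← prod_split iso x, ← weight_split, ← sign_split h x]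
  rw [step, Finset.sum_product_right]
  refine Finset.sum_congr rfl fun z hz => ?_
  rw [Fintype.mem_piFinset] at hz
  have hz2 : ∀ j, 2 ≤ z j := fun j => (Finset.mem_Icc.1 (hz j)).1
  simp only
  rw [← Finset.sum_filter, Finset.sum_const, nsmul_eq_mul, count_eq (one_le_qz hz2) hY, fz,
    if_pos hz2]
  ring

open Classical in
/-- the bound of the summands -/
theorem abs_fz_le {k : ℕ} {Y : ℝ} (hY : Real.exp 1 ≤ Y) (z : {i // ¬ iso i} → ℕ) :
    ‖fz iso L c k Y z / (Y * Real.log Y ^ k)‖ ≤ 2 ^ k * ∏ j, ((z j : ℝ) ^ (3 / 2 : ℝ))⁻¹ := by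
  classical
  have hY0 : 0 < Y := (Real.exp_pos 1).trans_le hY
  have hY1 : 1 ≤ Y := by
    have := Real.add_one_le_exp (1:ℝ)
    linarith
  have hl : 1 ≤ Real.log Y := by
    rw [Real.le_log_iff_exp_le hY0]
    exact hY
  have hr : 0 ≤ (2:ℝ) ^ k * ∏ j, ((z j : ℝ) ^ (3 / 2 : ℝ))⁻¹ := by
    have : 0 ≤ ∏ j, ((z j : ℝ) ^ (3 / 2 : ℝ))⁻¹ := Finset.prod_nonneg fun j _ => by positivity
    positivity
  unfold fz
  split_ifs with h2
  · have hq := one_le_qz h2
    have hq0 : 0 < qz iso z := by linarith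
    have hqe : (2:ℝ) ^ k * ∏ j, ((z j : ℝ) ^ (3 / 2 : ℝ))⁻¹ = 2 ^ k * (qz iso z)⁻¹ := by
      rw [Finset.prod_inv_distrib]
      rfl
    by_cases hX : Y / qz iso z < 1
    · rw [NN_zero hX]
      simpa using hr
    · push Not at hX
      have h3 := NN_le k (∏ j, z j) (Y / qz iso z) hX
      have h4 : Real.log (Y / qz iso z) ≤ Real.log Y :=
        Real.log_le_log (by linarith) (div_le_self hY0.le hq)
      have h5 : 0 ≤ Real.log (Y / qz iso z) := Real.log_nonneg hX
      have hF : |(F iso L c z : ℝ)| ≤ 1 := by exact_mod_cast abs_F_le iso L c z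
      have h6 : (NN (k + 1) (∏ j, z j) (Y / qz iso z) : ℝ) ≤
          (Y / qz iso z) * (2 * Real.log Y) ^ k := by
        refine h3.trans (mul_le_mul_of_nonneg_left ?_ (by linarith))
        exact pow_le_pow_left₀ (by linarith) (by linarith) k
      rw [hqe, Real.norm_eq_abs, abs_div, abs_mul, Nat.abs_cast, abs_of_pos
        (show 0 < Y * Real.log Y ^ k by positivity), div_le_iff₀ (by positivity)]
      calc |(F iso L c z : ℝ)| * (NN (k + 1) (∏ j, z j) (Y / qz iso z) : ℝ)
          ≤ 1 * ((Y / qz iso z) * (2 * Real.log Y) ^ k) := by gcongr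
        _ = 2 ^ k * (qz iso z)⁻¹ * (Y * Real.log Y ^ k) := by
            rw [mul_pow]; field_simp
  · simpa using hr

/-- a rescaled asymptotic -/
theorem tendsto_rescale {N : ℝ → ℝ} {k : ℕ} {C q : ℝ} (hq : 0 < q)
    (h : Tendsto (fun x => N x / (x * Real.log x ^ k)) atTop (nhds C)) :
    Tendsto (fun Y => N (Y / q) / (Y * Real.log Y ^ k)) atTop (nhds (C / q)) := by
  have h1 : Tendsto (fun Y : ℝ => Y / q) atTop atTop := tendsto_id.atTop_div_const hq
  have h2 := h.comp h1
  have h3 : Tendsto (fun Y : ℝ => Real.log (Y / q) / Real.log Y) atTop (nhds 1) := by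
    have h4 : Tendsto (fun Y : ℝ => 1 - Real.log q / Real.log Y) atTop (nhds (1 - 0)) :=
      tendsto_const_nhds.sub (Real.tendsto_log_atTop.const_div_atTop _)
    rw [sub_zero] at h4
    refine h4.congr' ?_
    filter_upwards [eventually_gt_atTop (1:ℝ)] with Y hY
    have hl : Real.log Y ≠ 0 := (Real.log_pos hY).ne'
    rw [Real.log_div (by linarith) hq.ne']
    field_simp
  have h5 := (h2.mul (h3.pow k)).mul (tendsto_const_nhds (x := 1 / q))
  rw [one_pow, mul_one, mul_one_div] at h5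
  refine h5.congr' ?_
  filter_upwards [eventually_gt_atTop (max 1 q)] with Y hY
  have hY1 : 1 < Y := (le_max_left _ _).trans_lt hY
  have hYq : q < Y := (le_max_right _ _).trans_lt hY
  have hl : Real.log Y ≠ 0 := (Real.log_pos hY1).ne'
  have hl2 : Real.log (Y / q) ≠ 0 := by
    refine (Real.log_pos ?_).ne'
    rw [lt_div_iff₀ hq]; linarith
  have hY0 : Y ≠ 0 := by linarith
  simp only [Function.comp]
  rw [div_pow]
  field_simp

/-- the limit of a summand -/
theorem exists_lim (k : ℕ) (z : {i // ¬ iso i} → ℕ) : ∃ C : ℝ,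
    Tendsto (fun Y : ℝ => fz iso L c k Y z / (Y * Real.log Y ^ k)) atTop (nhds C) ∧
      (IsEmpty {i // ¬ iso i} → 0 < C) := by
  classical
  unfold fz
  by_cases h2 : ∀ j, 2 ≤ z j
  · simp only [if_pos h2]
    have hq0 : 0 < qz iso z := by linarith [one_le_qz h2]
    by_cases hs : Squarefree (2 * ∏ j, z j)
    · obtain ⟨C, hC, hlim⟩ := NN_asymp k (∏ j, z j) hs
      refine ⟨(F iso L c z : ℝ) * (C / qz iso z), ?_, fun he => ?_⟩
      · have h3 := (tendsto_rescale (N := fun x => (NN (k + 1) (∏ j, z j) x : ℝ)) hq0 hlim).const_mul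
          (F iso L c z : ℝ)
        refine h3.congr fun Y => ?_
        rw [mul_div_assoc]
      · have hF : F iso L c z = 1 := by
          unfold F
          simp
        rw [hF, Int.cast_one, one_mul]
        exact div_pos hC hq0
    · refine ⟨0, ?_, fun he => ?_⟩
      · have h3 : ∀ x, NN (k + 1) (∏ j, z j) x = 0 := fun x => by
          unfold NN
          rw [Finset.card_eq_zero, Finset.filter_eq_empty_iff]
          intro y _ h4
          exact hs (h4.2.squarefree_of_dvd ⟨_, rfl⟩)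
        simp only [h3, Nat.cast_zero, mul_zero, zero_div]
        exact tendsto_const_nhds
      · exfalso
        apply hs
        simpa using Nat.prime_two.prime.squarefree
  · simp only [if_neg h2, zero_div]
    refine ⟨0, tendsto_const_nhds, fun he => ?_⟩
    exact absurd (fun j => (he.false j).elim) h2

end split

end AT1aux

open AT1aux in
/-- The asymptotic for the basic sums when all isotropic variables are free. -/
theorem AT1 {ι : Type} [Fintype ι] (iso : ι → Prop) (L : ι → ι → Prop) (c : ι → Fin 4)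
    (k : ℕ) (hk : Nat.card {i // iso i} = k + 1)
    (h : ∀ i, iso i → c i = 0 ∧ ∀ j, ¬ L i j ∧ ¬ L j i) :
    ∃ C : ℝ, (((∀ i, iso i) → 0 < C)) ∧
      Tendsto (fun Y : ℝ => TS iso L c Y / (Y * Real.log Y ^ k)) atTop (nhds C) := by
  classical
  have hcard : Nat.card (Fin (k + 1)) = Nat.card {i // iso i} := by
    rw [hk, Nat.card_eq_fintype_card, Fintype.card_fin]
  have e : Fin (k + 1) ≃ {i // iso i} := Fintype.equivOfCardEq (by
    rw [← Nat.card_eq_fintype_card, ← Nat.card_eq_fintype_card]; exact hcard)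
  choose g hg hpos using fun z : {i // ¬ iso i} → ℕ => exists_lim (iso := iso) (L := L) (c := c) k z
  have hsum : Summable fun z : {i // ¬ iso i} → ℕ =>
      (2:ℝ) ^ k * ∏ j, ((z j : ℝ) ^ (3 / 2 : ℝ))⁻¹ := by
    refine (summable_prod (a := fun n : ℕ => ((n : ℝ) ^ (3 / 2 : ℝ))⁻¹) (fun n => by positivity)
      ?_).mul_left _
    exact Real.summable_nat_rpow_inv.2 (by norm_num)
  have hlim := tendsto_tsum_of_dominated_convergence (𝓕 := atTop)
    (f := fun (Y : ℝ) (z : {i // ¬ iso i} → ℕ) => fz iso L c k Y z / (Y * Real.log Y ^ k))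
    (g := g) hsum hg (by
      filter_upwards [eventually_ge_atTop (Real.exp 1)] with Y hY z
      exact abs_fz_le hY z)
  refine ⟨∑' z, g z, fun hall => ?_, hlim.congr' ?_⟩
  · have hem : IsEmpty {i // ¬ iso i} := ⟨fun i => i.2 (hall i)⟩
    rw [tsum_eq_single (default : {i // ¬ iso i} → ℕ) fun z hz => absurd (Subsingleton.elim _ _) hz]
    exact hpos _ hem
  · filter_upwards [eventually_ge_atTop (1:ℝ)] with Y hY
    rw [TS_eq e h hY, tsum_div_const]

end Pool.Agent.H98.MK
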