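import Pool.Agent.H98.MK.MDefs

/-!
# Project MK: the sets of primes of admissible parameters
-/

set_option autoImplicit false

open scoped BigOperators

namespace Pool.Agent.H98.MK

namespace SolS

section
variable {W : Type} [Zero W]

open Classical in
/-- the odd primes with value `v` -/
noncomputable def As (x : ℕ →₀ W) (v : W) : Finset ℕ :=
  x.support.filter (fun p => p ≠ 1 ∧ p ≠ 2 ∧ x p = v)

open Classical in
/-- the odd primes of the support -/
noncomputable def Od (x : ℕ →₀ W) : Finset ℕ := x.support.filter (fun p => p ≠ 1 ∧ p ≠ 2)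

open Classical in
theorem mem_As {x : ℕ →₀ W} {v : W} {p : ℕ} :
    p ∈ As x v ↔ x p ≠ 0 ∧ p ≠ 1 ∧ p ≠ 2 ∧ x p = v := by
  unfold As
  rw [Finset.mem_filter, Finsupp.mem_support_iff]

open Classical in
theorem mem_Od {x : ℕ →₀ W} {p : ℕ} : p ∈ Od x ↔ x p ≠ 0 ∧ p ≠ 1 ∧ p ≠ 2 := by
  unfold Od
  rw [Finset.mem_filter, Finsupp.mem_support_iff]

open Classical in
theorem As_eq (x : ℕ →₀ W) (v : W) : As x v = (Od x).filter (fun p => x p = v) := by
  ext p
  rw [mem_As, Finset.mem_filter, mem_Od]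
  tauto

theorem mfun_eq (x : ℕ →₀ W) (v : W) : mfun x v = ∏ p ∈ As x v, p := rfl

theorem prime_Od {x : ℕ →₀ W} (hx : adm x) {p : ℕ} (hp : p ∈ Od x) : p.Prime := by
  rw [mem_Od] at hp
  exact (hx p hp.1).resolve_left hp.2.1

theorem mem_Od_of_As {x : ℕ →₀ W} {v : W} {p : ℕ} (hp : p ∈ As x v) : p ∈ Od x := by
  rw [mem_As] at hp
  exact mem_Od.2 ⟨hp.1, hp.2.1, hp.2.2.1⟩

theorem prime_As {x : ℕ →₀ W} (hx : adm x) {v : W} {p : ℕ} (hp : p ∈ As x v) : p.Prime :=
  prime_Od hx (mem_Od_of_As hp)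

theorem pf_mfun {x : ℕ →₀ W} (hx : adm x) (v : W) : (mfun x v).primeFactors = As x v := by
  rw [mfun_eq]
  exact Nat.primeFactors_prod fun p hp => prime_As hx hp

theorem As_zero (x : ℕ →₀ W) : As x 0 = ∅ := by
  rw [Finset.eq_empty_iff_forall_notMem]
  intro p hp
  rw [mem_As] at hp
  exact hp.1 hp.2.2.2

theorem mfun_zero (x : ℕ →₀ W) : mfun x 0 = 1 := by
  rw [mfun_eq, As_zero, Finset.prod_empty]

theorem mfun_ne_one {x : ℕ →₀ W} (hx : adm x) (v : W) : mfun x v ≠ 1 ↔ (As x v).Nonempty := by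
  constructor
  · intro h
    by_contra h1
    rw [Finset.not_nonempty_iff_eq_empty] at h1
    rw [mfun_eq, h1, Finset.prod_empty] at h
    exact h rfl
  · rintro ⟨p, hp⟩ h
    have h1 : p ∣ mfun x v := by
      rw [mfun_eq]
      exact Finset.dvd_prod_of_mem _ hp
    rw [h, Nat.dvd_one] at h1
    exact (prime_As hx hp).ne_one h1

theorem prod_mfun [Fintype W] (x : ℕ →₀ W) : ∏ v : W, mfun x v = ∏ p ∈ Od x, p := by
  classical
  simp only [mfun_eq, As_eq]
  exact Finset.prod_fiberwise (Od x) (fun p => x p) (fun p => p)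

theorem sqf_primes {s : Finset ℕ} (hs : ∀ p ∈ s, p.Prime) : Squarefree (∏ p ∈ s, p) := by
  apply Finset.squarefree_prod_of_pairwise_isCoprime
  · intro p hp q hq hpq
    change IsRelPrime p q
    rw [← Nat.coprime_iff_isRelPrime]
    exact (Nat.coprime_primes (hs p hp) (hs q hq)).2 hpq
  · intro p hp
    exact (hs p hp).squarefree

end

section
variable {V Z : Type} [Zero V] [Zero Z]

open Classical in
/-- the odd primes of `z` outside `x` -/
noncomputable def Oe (x : ℕ →₀ V) (z : ℕ →₀ Z) : Finset ℕ :=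
  z.support.filter (fun p => p ≠ 1 ∧ p ≠ 2 ∧ x p = 0)

open Classical in
theorem mem_Oe {x : ℕ →₀ V} {z : ℕ →₀ Z} {p : ℕ} :
    p ∈ Oe x z ↔ z p ≠ 0 ∧ p ≠ 1 ∧ p ≠ 2 ∧ x p = 0 := by
  unfold Oe
  rw [Finset.mem_filter, Finsupp.mem_support_iff]

open Classical in
theorem efun_eq (x : ℕ →₀ V) (z : ℕ →₀ Z) (ζ : Z) :
    efun x z ζ = ∏ p ∈ (Oe x z).filter (fun p => z p = ζ), p := by
  unfold efun
  apply Finset.prod_congr _ fun _ _ => rfl
  ext p
  simp only [Finset.mem_filter, Finsupp.mem_support_iff, mem_Oe]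
  tauto

theorem prod_efun [Fintype Z] (x : ℕ →₀ V) (z : ℕ →₀ Z) :
    ∏ ζ : Z, efun x z ζ = ∏ p ∈ Oe x z, p := by
  classical
  simp only [efun_eq]
  exact Finset.prod_fiberwise (Oe x z) (fun p => z p) (fun p => p)

theorem efun_zero (x : ℕ →₀ V) (z : ℕ →₀ Z) : efun x z 0 = 1 := by
  classical
  rw [efun_eq]
  apply Finset.prod_eq_one
  intro p hp
  rw [Finset.mem_filter, mem_Oe] at hp
  exact absurd hp.2 hp.1.1

end

end SolS

open SolS

theorem mfun_spec (D : Dat) (x : ℕ →₀ D.V) (hx : adm x) :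
    mfun x 0 = 1 ∧ Squarefree (2 * ∏ v : D.V, mfun x v) := by
  refine ⟨mfun_zero x, ?_⟩
  rw [prod_mfun]
  have h2 : (2:ℕ) ∉ Od x := fun h => (mem_Od.1 h).2.2 rfl
  have h3 : 2 * ∏ p ∈ Od x, p = ∏ p ∈ Finset.cons 2 (Od x) h2, p := by
    rw [Finset.prod_cons]
  rw [h3]
  apply sqf_primes
  intro p hp
  rcases Finset.mem_cons.1 hp with rfl | hp
  · exact Nat.prime_two
  · exact prime_Od hx hp

theorem efun_spec (D : Dat) (x : ℕ →₀ D.V) (hx : adm x) (z : ℕ →₀ D.Z) (hz : adm z) :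
    efun x z 0 = 1 ∧ Squarefree (2 * (∏ v : D.V, mfun x v) * ∏ ζ : D.Z, efun x z ζ) := by
  classical
  refine ⟨efun_zero x z, ?_⟩
  rw [prod_mfun, prod_efun]
  have h2 : (2:ℕ) ∉ Od x := fun h => (mem_Od.1 h).2.2 rfl
  have h3 : 2 * ∏ p ∈ Od x, p = ∏ p ∈ Finset.cons 2 (Od x) h2, p := by
    rw [Finset.prod_cons]
  have hdis : Disjoint (Finset.cons 2 (Od x) h2) (Oe x z) := by
    rw [Finset.disjoint_left]
    intro p hp hq
    rw [mem_Oe] at hq
    rcases Finset.mem_cons.1 hp with rfl | hp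
    · exact hq.2.2.1 rfl
    · exact (mem_Od.1 hp).1 hq.2.2.2
  rw [h3, ← Finset.prod_union hdis]
  apply sqf_primes
  intro p hp
  rcases Finset.mem_union.1 hp with hp | hp
  · rcases Finset.mem_cons.1 hp with rfl | hp
    · exact Nat.prime_two
    · exact prime_Od hx hp
  · rw [mem_Oe] at hp
    exact (hz p hp.1).resolve_left hp.2.1

open Classical in
theorem span_iff (D : Dat) (x : ℕ →₀ D.V) (hx : adm x) :
    Submodule.span (ZMod 2) (Set.range x) = ⊤ ↔
      D.Span (x 1) (x 2) (Finset.univ.filter fun v => mfun x v ≠ 1) := by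
  unfold Dat.Span
  have h1 : Submodule.span (ZMod 2) (Set.range x) = Submodule.span (ZMod 2) (insert (x 1)
      (insert (x 2) (((Finset.univ.filter fun v => mfun x v ≠ 1 : Finset D.V)) : Set D.V))) := by
    apply le_antisymm
    · rw [Submodule.span_le]
      rintro _ ⟨p, rfl⟩
      by_cases h0 : x p = 0
      · rw [h0]
        exact Submodule.zero_mem _
      · apply Submodule.subset_span
        by_cases hp1 : p = 1
        · exact Set.mem_insert_iff.2 (Or.inl (by rw [hp1]))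
        · by_cases hp2 : p = 2
          · exact Set.mem_insert_iff.2 (Or.inr (Set.mem_insert_iff.2 (Or.inl (by rw [hp2]))))
          · apply Set.mem_insert_iff.2 (Or.inr (Set.mem_insert_iff.2 (Or.inr _)))
            rw [Finset.mem_coe, Finset.mem_filter]
            exact ⟨Finset.mem_univ _, (mfun_ne_one hx _).2 ⟨p, mem_As.2 ⟨h0, hp1, hp2, rfl⟩⟩⟩
    · apply Submodule.span_mono
      rintro w hw
      rcases Set.mem_insert_iff.1 hw with rfl | hw
      · exact ⟨1, rfl⟩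
      · rcases Set.mem_insert_iff.1 hw with rfl | hw
        · exact ⟨2, rfl⟩
        · rw [Finset.mem_coe, Finset.mem_filter] at hw
          obtain ⟨p, hp⟩ := (mfun_ne_one hx _).1 hw.2
          exact ⟨p, (mem_As.1 hp).2.2.2⟩
  rw [h1]

end Pool.Agent.H98.MK
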