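import Pool.Agent.H98.MK.ExistsX

/-!
# Project MK: the local conditions in terms of the products of primes
-/

set_option autoImplicit false

open scoped BigOperators

namespace Pool.Agent.H98.MK

open SolS

namespace SolS

theorem lg_mul {x y : ℤ} (hx : x = 1 ∨ x = -1) (hy : y = 1 ∨ y = -1) :
    lg (x * y) = lg x + lg y := by
  rcases hx with rfl | rfl <;> rcases hy with rfl | rfl <;> decide

theorem lg_one : lg 1 = 0 := by decide

theorem odd_mod {l : ℕ} (hl : l.Prime) (hl2 : l ≠ 2) : l % 4 = 1 ∨ l % 4 = 3 := by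
  have h1 := hl.eq_two_or_odd.resolve_left hl2
  omega

theorem jac_dd {l p : ℕ} (hl : l.Prime) (hl2 : l ≠ 2) (hp : p.Prime) (hp2 : p ≠ 2) :
    jacobiSym (dd l) p = jacobiSym p l := by
  have hpo : Odd p := hp.odd_of_ne_two hp2
  have hlo : Odd l := hl.odd_of_ne_two hl2
  unfold dd
  rw [if_neg hl.ne_one, if_neg hl2]
  by_cases h1 : l % 4 = 1
  · rw [if_pos h1]
    exact jacobiSym.quadratic_reciprocity_one_mod_four h1 hpo
  · have h3 : l % 4 = 3 := (odd_mod hl hl2).resolve_left h1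
    rw [if_neg h1, jacobiSym.neg _ hpo]
    rcases odd_mod hp hp2 with h4 | h4
    · rw [ZMod.χ₄_nat_one_mod_four h4, one_mul]
      exact jacobiSym.quadratic_reciprocity_one_mod_four' hlo h4
    · rw [ZMod.χ₄_nat_three_mod_four h4, jacobiSym.quadratic_reciprocity_three_mod_four h3 h4]
      ring

theorem jac_pm {p n : ℕ} (h : Nat.Coprime p n) : jacobiSym p n = 1 ∨ jacobiSym p n = -1 := by
  apply jacobiSym.eq_one_or_neg_one
  rw [Int.gcd_natCast_natCast]
  exact h

theorem lg_prod {p : ℕ} (hp : p.Prime) (s : Finset ℕ) (hs : ∀ l ∈ s, l.Prime ∧ l ≠ p) :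
    lg (jacobiSym p (∏ l ∈ s, l : ℕ)) = ∑ l ∈ s, lg (jacobiSym p l) := by
  classical
  induction s using Finset.induction_on with
  | empty =>
    rw [Finset.prod_empty, Finset.sum_empty, jacobiSym.one_right]
    exact lg_one
  | insert a s ha ih =>
    have h1 := hs a (Finset.mem_insert_self a s)
    have h2 : ∀ l ∈ s, l.Prime ∧ l ≠ p := fun l hl => hs l (Finset.mem_insert_of_mem hl)
    have h3 : (∏ l ∈ s, l) ≠ 0 := Finset.prod_ne_zero_iff.2 fun l hl => (h2 l hl).1.ne_zero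
    have h4 : Nat.Coprime p (∏ l ∈ s, l) := Nat.Coprime.prod_right fun l hl =>
      (Nat.coprime_primes hp (h2 l hl).1).2 (Ne.symm (h2 l hl).2)
    have h5 : Nat.Coprime p a := (Nat.coprime_primes hp h1.1).2 (Ne.symm h1.2)
    rw [Finset.prod_insert ha, Finset.sum_insert ha, jacobiSym.mul_right' _ h1.1.ne_zero h3,
      lg_mul (jac_pm h5) (jac_pm h4), ih h2]

theorem eps_nat (l : ℕ) : eps (l : ZMod 8) = if l % 4 = 3 then 1 else 0 := by
  have h1 : (l : ZMod 8) = ((l % 8 : ℕ) : ZMod 8) := by simp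
  have h2 : l % 4 = (l % 8) % 4 := by omega
  have h3 : l % 8 < 8 := Nat.mod_lt _ (by norm_num)
  rw [h1, h2]
  generalize l % 8 = k at h3
  interval_cases k <;> decide

theorem eps_prod (s : Finset ℕ) (hs : ∀ l ∈ s, l % 4 = 1 ∨ l % 4 = 3) :
    ((∏ l ∈ s, l) % 4 = 1 ∨ (∏ l ∈ s, l) % 4 = 3) ∧
    eps ((∏ l ∈ s, l : ℕ) : ZMod 8) = ∑ l ∈ s, if l % 4 = 3 then (1 : ZMod 2) else 0 := by
  classical
  induction s using Finset.induction_on with
  | empty =>
    refine ⟨Or.inl (by simp), ?_⟩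
    rw [Finset.prod_empty, Finset.sum_empty, eps_nat]
    rfl
  | insert a s ha ih =>
    have h1 := hs a (Finset.mem_insert_self a s)
    obtain ⟨h2, h3⟩ := ih fun l hl => hs l (Finset.mem_insert_of_mem hl)
    rw [Finset.prod_insert ha, Finset.sum_insert ha, ← h3, eps_nat, eps_nat, Nat.mul_mod]
    generalize (∏ l ∈ s, l) % 4 = k at h2 ⊢
    rcases h1 with h1 | h1 <;> rcases h2 with h2 | h2 <;> rw [h1, h2] <;>
      refine ⟨by norm_num, by decide⟩

theorem dd_neg {l : ℕ} (hl : l.Prime) (hl2 : l ≠ 2) : dd l < 0 ↔ l % 4 = 3 := by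
  have hpos := hl.pos
  unfold dd
  rw [if_neg hl.ne_one, if_neg hl2]
  rcases odd_mod hl hl2 with h | h
  · rw [if_pos h]
    omega
  · rw [if_neg (by omega)]
    omega

theorem sum_split {W M : Type} [Fintype W] [AddCommGroup W] [AddCommGroup M] (x : ℕ →₀ W)
    (F : ℕ → W → M) (hF : ∀ i, F i 0 = 0) :
    x.sum F = F 1 (x 1) + F 2 (x 2) + ∑ v : W, ∑ l ∈ As x v, F l v := by
  classical
  have h1 : x.support ⊆ {1, 2} ∪ Od x := by
    intro p hp
    rw [Finsupp.mem_support_iff] at hp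
    rw [Finset.mem_union, mem_Od]
    by_cases q1 : p = 1
    · left; simp [q1]
    · by_cases q2 : p = 2
      · left; simp [q2]
      · exact Or.inr ⟨hp, q1, q2⟩
  have h2 : Disjoint ({1, 2} : Finset ℕ) (Od x) := by
    rw [Finset.disjoint_left]
    intro p hp hq
    rw [mem_Od] at hq
    rcases Finset.mem_insert.1 hp with h | h
    · exact hq.2.1 h
    · exact hq.2.2 (Finset.mem_singleton.1 h)
  rw [Finsupp.sum_of_support_subset x h1 F (fun i _ => hF i), Finset.sum_union h2,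
    Finset.sum_pair (by norm_num)]
  congr 1
  rw [← Finset.sum_fiberwise (Od x) (fun p => x p) (fun p => F p (x p))]
  apply Finset.sum_congr rfl
  intro v _
  rw [← As_eq]
  apply Finset.sum_congr rfl
  intro l hl
  rw [(mem_As.1 hl).2.2.2]

end SolS

theorem sol_loc (D : Dat) (x : ℕ →₀ D.V) (hx : adm x) {p : ℕ} (hp : p.Prime) (hp2 : p ≠ 2) :
    (x.sum fun i w => if i = p then 0 else lg (jacobiSym (dd i) p) • D.B w (x p)) =
      ∑ u : D.V, lg (jacobiSym p (mfun x u)) • D.B u (x p) +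
        lg (jacobiSym (-1) p) • D.B (x 1) (x p) + lg (jacobiSym 2 p) • D.B (x 2) (x p) := by
  have hB0 : ∀ v : D.V, D.B 0 v = 0 := by
    intro v
    simp [Dat.B]
  rw [sum_split x _ (fun i => by simp [hB0])]
  have h1 : (1:ℕ) ≠ p := hp.ne_one.symm
  have h2 : (2:ℕ) ≠ p := Ne.symm hp2
  rw [if_neg h1, if_neg h2]
  have e1 : dd 1 = -1 := by simp [dd]
  have e2 : dd 2 = 2 := by simp [dd]
  rw [e1, e2]
  have h3 : ∀ u : D.V, (∑ l ∈ As x u, if l = p then 0 else
      lg (jacobiSym (dd l) p) • D.B u (x p)) = lg (jacobiSym p (mfun x u)) • D.B u (x p) := by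
    intro u
    by_cases hu : u = x p
    · have h4 : D.B u (x p) = 0 := by
        rw [hu]
        exact Ext.two_Z _
      rw [h4, smul_zero]
      apply Finset.sum_eq_zero
      intro l _
      split_ifs
      · rfl
      · exact smul_zero _
    · have h5 : ∀ l ∈ As x u, l.Prime ∧ l ≠ p := by
        intro l hl
        refine ⟨prime_As hx hl, ?_⟩
        rintro rfl
        exact hu (mem_As.1 hl).2.2.2.symm
      rw [mfun_eq, lg_prod hp _ h5, Finset.sum_smul]
      apply Finset.sum_congr rfl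
      intro l hl
      rw [if_neg (h5 l hl).2, jac_dd (h5 l hl).1 (mem_As.1 hl).2.2.1 hp hp2]
  simp only [h3]
  abel

theorem sol_inf (D : Dat) (x : ℕ →₀ D.V) (hx : adm x) :
    (x.sum fun i w => if dd i < 0 then w else 0) =
      D.vinf (x 1) (fun v => (mfun x v : ZMod 8)) := by
  rw [sum_split x _ (fun i => by simp)]
  have e1 : dd 1 = -1 := by simp [dd]
  have e2 : dd 2 = 2 := by simp [dd]
  rw [e1, e2, if_pos (by norm_num), if_neg (by norm_num), add_zero]
  unfold Dat.vinf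
  congr 1
  apply Finset.sum_congr rfl
  intro v _
  have h1 : ∀ l ∈ As x v, l % 4 = 1 ∨ l % 4 = 3 := fun l hl =>
    odd_mod (prime_As hx hl) (mem_As.1 hl).2.2.1
  change _ = eps ((mfun x v : ℕ) : ZMod 8) • v
  rw [mfun_eq, (eps_prod _ h1).2, Finset.sum_smul]
  apply Finset.sum_congr rfl
  intro l hl
  by_cases h : l % 4 = 3
  · rw [if_pos h, if_pos ((dd_neg (prime_As hx hl) (mem_As.1 hl).2.2.1).2 h), one_smul]
  · rw [if_neg h, if_neg (fun h2 => h ((dd_neg (prime_As hx hl) (mem_As.1 hl).2.2.1).1 h2)),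
      zero_smul]

theorem sol_iff (D : Dat) (x : ℕ →₀ D.V) (hx : adm x) :
    Sol D x ↔ (∀ v : D.V, ∀ p ∈ (mfun x v).primeFactors, D.okp (x 1) (x 2) (mfun x) v p) ∧
      D.q (D.vinf (x 1) (fun v => (mfun x v : ZMod 8))) = 0 := by
  unfold Sol
  rw [sol_inf D x hx]
  apply and_congr_left
  intro _
  constructor
  · intro h v p hp
    rw [pf_mfun hx, mem_As] at hp
    obtain ⟨q1, q2, q3, rfl⟩ := hp
    have hpp : p.Prime := (hx p q1).resolve_left q2
    have h1 := h p hpp q3 q1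
    rw [sol_loc D x hx hpp q3] at h1
    exact h1
  · intro h p hp hp2 hx0
    have h1 := h (x p) p (by
      rw [pf_mfun hx]
      exact mem_As.2 ⟨hx0, hp.ne_one, hp2, rfl⟩)
    rw [sol_loc D x hx hp hp2]
    exact h1

end Pool.Agent.H98.MK
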