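import Pool.Agent.H98.MK.NDefs

/-!
# Project MK (MP_a3214d), row N4: the sign of an expanded term
-/

set_option autoImplicit false

open scoped BigOperators
open Filter

namespace Pool.Agent.H98.MK

private theorem n4_mod (n : ℕ) (hn : Odd n) :
    n % 8 = 1 ∨ n % 8 = 3 ∨ n % 8 = 5 ∨ n % 8 = 7 := by
  obtain ⟨k, rfl⟩ := hn
  omega

private theorem n4_cast8 (n : ℕ) : ((n : ℕ) : ZMod 8) = ((n % 8 : ℕ) : ZMod 8) :=
  (ZMod.natCast_mod n 8).symm

private theorem n4_cast4 (n : ℕ) : ((n : ℕ) : ZMod 4) = ((n % 8 : ℕ) : ZMod 4) := by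
  rw [ZMod.natCast_eq_natCast_iff]
  unfold Nat.ModEq
  omega

theorem psi_p8 (c : Fin 4) (n : ℕ) (hn : Odd n) : psi c n = p8 c (n : ZMod 8) := by
  have h1 := jacobiSym.at_neg_one hn
  have h2 := jacobiSym.at_two hn
  have h3 := jacobiSym.at_neg_two hn
  rw [n4_cast4] at h1
  rw [n4_cast8] at h2 h3
  rw [n4_cast8]
  fin_cases c
  · rfl
  · show jacobiSym (-1) n = _
    rw [h1]
    rcases n4_mod n hn with h | h | h | h <;> rw [h] <;> decide
  · show jacobiSym 2 n = _
    rw [h2]
    rcases n4_mod n hn with h | h | h | h <;> rw [h] <;> decide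
  · show jacobiSym (-2) n = _
    rw [h3]
    rcases n4_mod n hn with h | h | h | h <;> rw [h] <;> decide

private theorem n4_recip (a b : ℕ) (ha : Odd a) (hb : Odd b) (hab : Nat.Coprime a b) :
    jacobiSym a b * jacobiSym b a = sg (eps (a : ZMod 8) * eps (b : ZMod 8)) := by
  have h1 := jacobiSym.quadratic_reciprocity ha hb
  have h2 : jacobiSym b a ^ 2 = 1 := jacobiSym.sq_one (by simpa using hab.symm)
  have h3 : jacobiSym a b * jacobiSym b a = (-1) ^ (a / 2 * (b / 2)) := by
    rw [h1, mul_assoc, ← pow_two, h2, mul_one]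
  rw [h3, n4_cast8 a, n4_cast8 b]
  have h4 : ∀ k : ℕ, (-1 : ℤ) ^ k = (-1) ^ (k % 2) := fun k => neg_one_pow_eq_pow_mod_two k
  rw [h4]
  have h5 : a / 2 * (b / 2) % 2 = ((a % 8) / 2 % 2) * ((b % 8) / 2 % 2) % 2 := by
    rw [Nat.mul_mod]
    congr 2 <;> omega
  rw [h5]
  rcases n4_mod a ha with h | h | h | h <;> rcases n4_mod b hb with h' | h' | h' | h' <;>
    rw [h, h'] <;> decide

private theorem n4_B (D : Dat) (v : D.V) : D.B v v = 0 := by
  unfold Dat.B
  exact Ext.two_Z _

private theorem n4_e (D : Dat) (i j : D.P) (h : i.1 = j.1) : D.e i j = 0 := by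
  unfold Dat.e
  rw [h, n4_B, dotProduct_zero]

open Classical in
theorem sgn_psi (D : Dat) (θ : D.V → D.V → (D.V → ZMod 8) → Finset D.V → ℝ) (a b : D.V)
    (σ : Finset D.P) (h0 : (0 : D.P) ∉ σ) (x : D.P → ℕ) (hx : ∀ i, x i ≠ 1 ↔ i ∈ σ)
    (hsq : Squarefree (2 * ∏ i, x i)) :
    (D.sgn a b x : ℝ) * θ a b (fun v => (D.mof x v : ZMod 8))
        (Finset.univ.filter fun v => D.mof x v ≠ 1) =
      D.Psi θ a b σ (fun i => (x i : ZMod 8)) * (jp D.L x : ℝ) := by
  -- oddness and coprimality
  have hodd : ∀ i, Odd (x i) := by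
    intro i
    rw [← Nat.not_even_iff_odd]
    intro h
    have h1 : 2 ∣ ∏ i, x i := (even_iff_two_dvd.1 h).trans (Finset.dvd_prod_of_mem x (Finset.mem_univ i))
    have h2 : 2 * 2 ∣ 2 * ∏ i, x i := Nat.mul_dvd_mul_left 2 h1
    have h3 := hsq 2 h2
    exact absurd (Nat.isUnit_iff.1 h3) (by norm_num)
  have hsq' : Squarefree (∏ i, x i) := hsq.of_mul_right
  have hcop : ∀ i j, i ≠ j → Nat.Coprime (x i) (x j) := by
    intro i j hij
    have h1 : x i * x j ∣ ∏ i, x i := by
      have h2 : ({i, j} : Finset D.P).prod x ∣ ∏ i, x i :=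
        Finset.prod_dvd_prod_of_subset _ _ _ (Finset.subset_univ _)
      rwa [Finset.prod_pair hij] at h2
    exact Nat.coprime_of_squarefree_mul (hsq'.squarefree_of_dvd h1)
  -- the residues
  have hmof : (fun v => (D.mof x v : ZMod 8)) =
      fun v => if v = 0 then 1 else ∏ ζ : D.Z, ((x (v, ζ) : ℕ) : ZMod 8) := by
    funext v
    unfold Dat.mof
    split_ifs
    · exact Nat.cast_one
    · exact Nat.cast_prod _ _
  have hsup : (Finset.univ.filter fun v => D.mof x v ≠ 1) = D.supV σ := by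
    ext v
    unfold Dat.supV Dat.mof
    rw [Finset.mem_filter, Finset.mem_filter]
    refine and_congr_right fun _ => ?_
    by_cases hv : v = 0
    · simp [hv]
    · rw [if_neg hv]
      constructor
      · intro h
        refine ⟨hv, ?_⟩
        by_contra hcon
        push Not at hcon
        apply h
        refine Finset.prod_eq_one fun ζ _ => ?_
        by_contra h1
        exact hcon ζ ((hx _).1 h1)
      · rintro ⟨-, ζ, hζ⟩ h
        apply (hx _).2 hζ
        have h1 : x (v, ζ) ∣ ∏ ζ : D.Z, x (v, ζ) :=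
          Finset.dvd_prod_of_mem (fun ζ => x (v, ζ)) (Finset.mem_univ ζ)
        rw [h] at h1
        exact Nat.dvd_one.1 h1
  -- the product of the symbols
  set lt : D.P → D.P → Prop := fun i j =>
    Fintype.equivFin D.V i.1 < Fintype.equivFin D.V j.1 with hlt
  have hprod : (∏ i, ∏ j, if D.e i j = 1 then jacobiSym (x i) (x j) else 1) =
      (∏ i : D.P, ∏ j : D.P, if lt i j ∧ D.e i j = 1 ∧ D.e j i = 1
        then sg (eps (x i : ZMod 8) * eps (x j : ZMod 8)) else 1) * jp D.L x := by
    have h1 : ∀ i j : D.P, (if D.e i j = 1 then jacobiSym (x i) (x j) else 1) =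
        ((if lt i j ∧ D.e i j = 1 ∧ D.e j i = 1 then jacobiSym (x i) (x j) else 1) *
        (if lt j i ∧ D.e j i = 1 ∧ D.e i j = 1 then jacobiSym (x i) (x j) else 1)) *
        (if D.L i j then jacobiSym (x i) (x j) else 1) := by
      intro i j
      by_cases he : D.e i j = 1
      · by_cases he' : D.e j i = 1
        · have hL : ¬ D.L i j := fun h => by
            rw [h.2] at he'
            exact zero_ne_one he'
          have hne : i.1 ≠ j.1 := fun h => by
            rw [n4_e D i j h] at he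
            exact zero_ne_one he
          have hne' : Fintype.equivFin D.V i.1 ≠ Fintype.equivFin D.V j.1 := fun h =>
            hne ((Fintype.equivFin D.V).injective h)
          rcases lt_or_gt_of_ne hne' with h | h
          · have h' : ¬ lt j i := not_lt.2 h.le
            rw [if_pos he, if_pos ⟨h, he, he'⟩, if_neg (fun h => h' h.1), if_neg hL]
            ring
          · have h' : ¬ lt i j := not_lt.2 (le_of_lt h)
            rw [if_pos he, if_neg (fun h => h' h.1), if_pos ⟨h, he', he⟩, if_neg hL]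
            ring
        · have he0 : D.e j i = 0 := by
            have h2 : ∀ t : ZMod 2, t ≠ 1 → t = 0 := by decide
            exact h2 _ he'
          rw [if_pos he, if_neg (fun h => he' h.2.2), if_neg (fun h => he' h.2.1),
            if_pos (show D.L i j from ⟨he, he0⟩)]
          ring
      · have hL : ¬ D.L i j := fun h => he h.1
        rw [if_neg he, if_neg (fun h => he h.2.1), if_neg (fun h => he h.2.2), if_neg hL]
        ring
    simp_rw [h1, Finset.prod_mul_distrib]
    unfold jp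
    congr 1
    rw [Finset.prod_comm (f := fun i j =>
      if lt j i ∧ D.e j i = 1 ∧ D.e i j = 1 then jacobiSym (x i) (x j) else 1),
      ← Finset.prod_mul_distrib]
    refine Finset.prod_congr rfl fun i _ => ?_
    rw [← Finset.prod_mul_distrib]
    refine Finset.prod_congr rfl fun j _ => ?_
    by_cases h : lt i j ∧ D.e i j = 1 ∧ D.e j i = 1
    · rw [if_pos h, if_pos h, if_pos h]
      refine n4_recip _ _ (hodd i) (hodd j) (hcop i j ?_)
      rintro rfl
      exact lt_irrefl _ h.1
    · rw [if_neg h, if_neg h, if_neg h, one_mul]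
  have h8 : ∀ (c : Fin 4) (i : D.P), psi c (x i) = p8 c (x i : ZMod 8) := fun c i =>
    psi_p8 c (x i) (hodd i)
  have hs1 : (∏ i : D.P, if i.2 ⬝ᵥ (D.q i.1 + D.B i.1 a) = 1 then jacobiSym (-1) (x i) else 1) =
      ∏ i : D.P, if i.2 ⬝ᵥ (D.q i.1 + D.B i.1 a) = 1 then p8 1 (x i : ZMod 8) else 1 := by
    refine Finset.prod_congr rfl fun i _ => ?_
    rw [← h8 1 i]
    rfl
  have hs2 : (∏ i : D.P, if i.2 ⬝ᵥ D.B i.1 b = 1 then jacobiSym 2 (x i) else 1) =
      ∏ i : D.P, if i.2 ⬝ᵥ D.B i.1 b = 1 then p8 2 (x i : ZMod 8) else 1 := by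
    refine Finset.prod_congr rfl fun i _ => ?_
    rw [← h8 2 i]
    rfl
  rw [hmof, hsup]
  unfold Dat.sgn Dat.Psi
  rw [hprod, hs1, hs2]
  push_cast
  ring

end Pool.Agent.H98.MK
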