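import Pool.Agent.H98.MK.SumSg

/-!
# Project MK, row N2: the sign of an expanded term (helper36)
-/

set_option autoImplicit false

open scoped BigOperators
open Filter

namespace Pool.Agent.H98.MK

/-! ### algebra -/

theorem xp_B_symm (D : Dat) (u v : D.V) : D.B u v = D.B v u := add_comm _ _

theorem xp_B_self (D : Dat) (v : D.V) : D.B v v = 0 := Ext.two_Z _

theorem xp_B_zero_left (D : Dat) (v : D.V) : D.B 0 v = 0 := by simp [Dat.B]

theorem xp_B_zero_right (D : Dat) (v : D.V) : D.B v 0 = 0 := by simp [Dat.B]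

theorem xp_q_zero (D : Dat) : D.q 0 = 0 := by simp [Dat.q]

theorem xp_sg (j : ℤ) (t : ZMod 2) (h : t = 0 ∨ j = 1 ∨ j = -1) :
    sg (lg j * t) = if t = 1 then j else 1 := by
  rcases h with rfl | rfl | rfl
  · simp [sg]
  · revert t
    decide
  · revert t
    decide

theorem xp_jac_left {ι : Type*} (m : ℕ) (s : Finset ι) (f : ι → ℕ) :
    ∏ p ∈ s, jacobiSym (f p) m = jacobiSym ((∏ p ∈ s, f p : ℕ) : ℤ) m := by
  classical
  induction s using Finset.induction_on with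
  | empty => simp [jacobiSym.one_left]
  | insert a s ha ih =>
    rw [Finset.prod_insert ha, Finset.prod_insert ha, ih]
    push_cast
    rw [jacobiSym.mul_left]

theorem xp_jac_right {ι : Type*} (a : ℤ) (s : Finset ι) (f : ι → ℕ) (hf : ∀ i ∈ s, f i ≠ 0) :
    jacobiSym a (∏ i ∈ s, f i) = ∏ i ∈ s, jacobiSym a (f i) := by
  classical
  induction s using Finset.induction_on with
  | empty => simp [jacobiSym.one_right]
  | insert b s hb ih =>
    rw [Finset.prod_insert hb, Finset.prod_insert hb, ← ih fun i hi => hf i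
      (Finset.mem_insert_of_mem hi), jacobiSym.mul_right' a (hf b (Finset.mem_insert_self b s))
      (Finset.prod_ne_zero_iff.2 fun i hi => hf i (Finset.mem_insert_of_mem hi))]

theorem xp_jac_primes_left (n m : ℕ) (hn : Squarefree n) :
    ∏ p ∈ n.primeFactors, jacobiSym (p : ℤ) m = jacobiSym (n : ℤ) m := by
  rw [xp_jac_left m n.primeFactors (fun p => p), Nat.prod_primeFactors_of_squarefree hn]

theorem xp_jac_primes_right (a : ℤ) (n : ℕ) (hn : Squarefree n) :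
    ∏ p ∈ n.primeFactors, jacobiSym a p = jacobiSym a n := by
  conv_rhs => rw [← Nat.prod_primeFactors_of_squarefree hn]
  rw [xp_jac_right a n.primeFactors (fun p => p) fun p hp =>
    (Nat.prime_of_mem_primeFactors hp).ne_zero]

theorem xp_ite_prod {ι : Type*} (s : Finset ι) (c : Prop) [Decidable c] (f : ι → ℤ) :
    ∏ p ∈ s, (if c then f p else 1) = if c then ∏ p ∈ s, f p else 1 := by
  split_ifs
  · rfl
  · simp

/-! ### the local conditions -/

/-- The obstruction at `p`. -/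
noncomputable def xpX (D : Dat) (a b : D.V) (m : D.V → ℕ) (v : D.V) (p : ℕ) : D.Z :=
  ∑ u : D.V, lg (jacobiSym p (m u)) • D.B u v + lg (jacobiSym (-1) p) • D.B a v +
    lg (jacobiSym 2 p) • D.B b v + lg (jacobiSym (-1) p) • D.q v

theorem xp_eq_iff (D : Dat) (A C : D.Z) : A = C ↔ A + C = 0 := by
  constructor
  · rintro rfl
    exact Ext.two_Z _
  · intro h
    calc A = A + C + C := by rw [add_assoc, Ext.two_Z, add_zero]
      _ = C := by rw [h, zero_add]

theorem xp_okp (D : Dat) (a b : D.V) (m : D.V → ℕ) (v : D.V) (p : ℕ) :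
    D.okp a b m v p ↔ xpX D a b m v p = 0 := by
  unfold Dat.okp xpX
  exact xp_eq_iff D _ _

theorem xp_g (D : Dat) (a b : D.V) (m : D.V → ℕ) (hm : ∀ v, Squarefree (m v)) :
    (D.g a b m : ℤ) = ∑ d ∈ Fintype.piFinset (fun v : D.V =>
      (Fintype.piFinset (fun _ : D.Z => (m v).divisors)).filter (fun d => ∏ ζ, d ζ = m v)),
        ∏ v, ∏ ζ, ∏ p ∈ (d v ζ).primeFactors, sg (ζ ⬝ᵥ xpX D a b m v p) := by
  classical
  have h1 : (D.g a b m : ℤ) = ∏ v : D.V, ∏ p ∈ (m v).primeFactors,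
      ∑ ζ : D.Z, sg (ζ ⬝ᵥ xpX D a b m v p) := by
    unfold Dat.g
    push_cast
    refine Finset.prod_congr rfl fun v _ => Finset.prod_congr rfl fun p _ => ?_
    rw [sum_sg]
    by_cases h : xpX D a b m v p = 0
    · rw [if_pos h, if_pos ((xp_okp D a b m v p).2 h)]
    · rw [if_neg h, if_neg fun h' => h ((xp_okp D a b m v p).1 h')]
  rw [h1]
  have h2 : ∀ v : D.V, ∏ p ∈ (m v).primeFactors, ∑ ζ : D.Z, sg (ζ ⬝ᵥ xpX D a b m v p) =
      ∑ d ∈ (Fintype.piFinset (fun _ : D.Z => (m v).divisors)).filter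
        (fun d => ∏ ζ, d ζ = m v), ∏ ζ, ∏ p ∈ (d ζ).primeFactors,
          sg (ζ ⬝ᵥ xpX D a b m v p) := fun v => prod_sum_sqfree (m v) (hm v) _
  simp only [h2]
  rw [Finset.prod_univ_sum]

/-! ### products over the indices -/

theorem xp_prod (D : Dat) {M : Type*} [CommMonoid M] (F : D.P → M) :
    ∏ i, F i = (∏ v : D.V, if v = 0 then 1 else ∏ ζ : D.Z, F (v, ζ)) * ∏ z : D.Z, F (0, z) := by
  rw [Fintype.prod_prod_type]
  rw [← Finset.mul_prod_erase Finset.univ _ (Finset.mem_univ (0 : D.V)),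
    ← Finset.mul_prod_erase Finset.univ (fun v : D.V => if v = 0 then 1 else ∏ ζ : D.Z, F (v, ζ))
      (Finset.mem_univ (0 : D.V)), if_pos rfl, one_mul, mul_comm]
  congr 1
  refine Finset.prod_congr rfl fun v hv => ?_
  rw [if_neg (Finset.ne_of_mem_erase hv)]

theorem xp_mof_zero (D : Dat) (x : D.P → ℕ) : D.mof x 0 = 1 := by simp [Dat.mof]

theorem xp_mof (D : Dat) (x : D.P → ℕ) {v : D.V} (hv : v ≠ 0) :
    D.mof x v = ∏ ζ : D.Z, x (v, ζ) := by simp [Dat.mof, hv]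

theorem xp_prod_nat (D : Dat) (x : D.P → ℕ) :
    ∏ i, x i = (∏ v, D.mof x v) * ∏ z : D.Z, x (0, z) := by
  rw [xp_prod D x]
  congr 1

theorem xp_we (D : Dat) (v : D.V) (ζ : D.Z) : we D.isoP ((v, ζ) : D.P) = D.wt v := by
  unfold we Dat.wt Dat.isoP
  congr

theorem xp_prod_wt (D : Dat) (x : D.P → ℕ) :
    ∏ i, (x i : ℝ) ^ we D.isoP i =
      (∏ v, (D.mof x v : ℝ) ^ D.wt v) * ∏ z : D.Z, (x (0, z) : ℝ) := by
  rw [xp_prod D (fun i => (x i : ℝ) ^ we D.isoP i)]
  congr 1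
  · refine Finset.prod_congr rfl fun v _ => ?_
    by_cases hv : v = 0
    · rw [if_pos hv, hv, xp_mof_zero, Nat.cast_one, Real.one_rpow]
    · rw [if_neg hv, xp_mof D x hv, Nat.cast_prod,
        ← Real.finsetProd_rpow _ _ (fun ζ _ => Nat.cast_nonneg _)]
      refine Finset.prod_congr rfl fun ζ _ => ?_
      rw [xp_we]
  · refine Finset.prod_congr rfl fun z _ => ?_
    have h1 : we D.isoP ((0, z) : D.P) = 1 := by
      unfold we
      rw [if_pos]
      exact xp_q_zero D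
    show (x (0, z) : ℝ) ^ we D.isoP ((0, z) : D.P) = _
    rw [h1, Real.rpow_one]

/-! ### the sign identity -/

theorem xp_cop (D : Dat) (x : D.P → ℕ) (hx : Squarefree (2 * ∏ i, x i)) (i j : D.P) (hij : i ≠ j)
    {p : ℕ} (hp : p.Prime) (hpi : p ∣ x i) : ¬ p ∣ x j := by
  intro hpj
  have h1 : x i * x j ∣ ∏ i, x i := by
    rw [← Finset.mul_prod_erase Finset.univ x (Finset.mem_univ i)]
    refine mul_dvd_mul_left _ (Finset.dvd_prod_of_mem x ?_)
    exact Finset.mem_erase.2 ⟨hij.symm, Finset.mem_univ _⟩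
  have h2 : p * p ∣ 2 * ∏ i, x i := (mul_dvd_mul hpi hpj).trans (h1.trans (dvd_mul_left _ _))
  exact hp.one_lt.ne' (Nat.isUnit_iff.1 (hx p h2))

theorem xp_sqf (D : Dat) (x : D.P → ℕ) (hx : Squarefree (2 * ∏ i, x i)) (i : D.P) :
    Squarefree (x i) :=
  hx.squarefree_of_dvd ((Finset.dvd_prod_of_mem x (Finset.mem_univ i)).trans (dvd_mul_left _ _))

theorem xp_two (D : Dat) (x : D.P → ℕ) (hx : Squarefree (2 * ∏ i, x i)) (i : D.P) {p : ℕ}
    (hpi : p ∣ x i) : p ≠ 2 := by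
  rintro rfl
  have h2 : 2 * 2 ∣ 2 * ∏ i, x i :=
    mul_dvd_mul_left 2 (hpi.trans (Finset.dvd_prod_of_mem x (Finset.mem_univ i)))
  have h3 := Nat.isUnit_iff.1 (hx 2 h2)
  omega

theorem xp_one (D : Dat) (a b : D.V) (x : D.P → ℕ) (hx : Squarefree (2 * ∏ i, x i)) (v : D.V)
    (ζ : D.Z) {p : ℕ} (hp : p.Prime) (hpi : p ∣ x (v, ζ)) :
    sg (ζ ⬝ᵥ xpX D a b (D.mof x) v p) =
      (∏ u : D.V, if ζ ⬝ᵥ D.B u v = 1 then jacobiSym p (D.mof x u) else 1) *
      (if ζ ⬝ᵥ (D.q v + D.B v a) = 1 then jacobiSym (-1) p else 1) *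
      (if ζ ⬝ᵥ D.B v b = 1 then jacobiSym 2 p else 1) := by
  have h1 : ζ ⬝ᵥ xpX D a b (D.mof x) v p =
      (∑ u : D.V, lg (jacobiSym p (D.mof x u)) * (ζ ⬝ᵥ D.B u v)) +
        lg (jacobiSym (-1) p) * (ζ ⬝ᵥ (D.q v + D.B v a)) +
        lg (jacobiSym 2 p) * (ζ ⬝ᵥ D.B v b) := by
    unfold xpX
    simp only [dotProduct_add, dotProduct_sum, dotProduct_smul, smul_eq_mul, xp_B_symm D a v,
      xp_B_symm D b v]
    ring
  rw [h1, ss_add, ss_add, ss_sum]
  congr 1
  · congr 1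
    · refine Finset.prod_congr rfl fun u _ => xp_sg _ _ ?_
      by_cases hu0 : u = 0
      · left
        rw [hu0, xp_B_zero_left, dotProduct_zero]
      · by_cases huv : u = v
        · left
          rw [huv, xp_B_self, dotProduct_zero]
        · right
          refine jacobiSym.eq_one_or_neg_one ?_
          rw [xp_mof D x hu0, Int.gcd_natCast_natCast]
          refine Nat.Coprime.prod_right fun ξ _ => (Nat.Prime.coprime_iff_not_dvd hp).2 ?_
          refine xp_cop D x hx (v, ζ) (u, ξ) (fun h => huv ?_) hp hpi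
          exact (congrArg Prod.fst h).symm
    · refine xp_sg _ _ (Or.inr (jacobiSym.eq_one_or_neg_one ?_))
      simp
  · refine xp_sg _ _ (Or.inr (jacobiSym.eq_one_or_neg_one ?_))
    have h2 : Nat.Coprime 2 p := by
      refine (Nat.coprime_primes Nat.prime_two hp).2 ?_
      exact (xp_two D x hx _ hpi).symm
    exact h2

/-- The contribution of one index. -/
noncomputable def xpG (D : Dat) (a b : D.V) (x : D.P → ℕ) (i : D.P) : ℤ :=
  (∏ j, if D.e i j = 1 then jacobiSym (x i) (x j) else 1) *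
    (if i.2 ⬝ᵥ (D.q i.1 + D.B i.1 a) = 1 then jacobiSym (-1) (x i) else 1) *
    (if i.2 ⬝ᵥ D.B i.1 b = 1 then jacobiSym 2 (x i) else 1)

theorem xp_sgn (D : Dat) (a b : D.V) (x : D.P → ℕ) : D.sgn a b x = ∏ i, xpG D a b x i := by
  unfold Dat.sgn xpG
  rw [Finset.prod_mul_distrib, Finset.prod_mul_distrib]

theorem xp_G_zero (D : Dat) (a b : D.V) (x : D.P → ℕ) (z : D.Z) : xpG D a b x (0, z) = 1 := by
  unfold xpG Dat.e
  simp [xp_B_zero_left, xp_q_zero]

theorem xp_G (D : Dat) (a b : D.V) (x : D.P → ℕ) (hx : Squarefree (2 * ∏ i, x i)) (v : D.V)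
    (ζ : D.Z) : ∏ p ∈ (x (v, ζ)).primeFactors, sg (ζ ⬝ᵥ xpX D a b (D.mof x) v p) =
      xpG D a b x (v, ζ) := by
  have hsq := xp_sqf D x hx (v, ζ)
  have h1 : ∀ p ∈ (x (v, ζ)).primeFactors, sg (ζ ⬝ᵥ xpX D a b (D.mof x) v p) =
      (∏ u : D.V, if ζ ⬝ᵥ D.B u v = 1 then jacobiSym p (D.mof x u) else 1) *
      (if ζ ⬝ᵥ (D.q v + D.B v a) = 1 then jacobiSym (-1) p else 1) *
      (if ζ ⬝ᵥ D.B v b = 1 then jacobiSym 2 p else 1) := fun p hp =>
    xp_one D a b x hx v ζ (Nat.prime_of_mem_primeFactors hp) (Nat.dvd_of_mem_primeFactors hp)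
  rw [Finset.prod_congr rfl h1, Finset.prod_mul_distrib, Finset.prod_mul_distrib,
    xp_ite_prod, xp_ite_prod, xp_jac_primes_right _ _ hsq, xp_jac_primes_right _ _ hsq,
    Finset.prod_comm]
  unfold xpG
  congr 2
  rw [Fintype.prod_prod_type]
  refine Finset.prod_congr rfl fun u _ => ?_
  rw [xp_ite_prod, xp_jac_primes_left _ _ hsq]
  show _ = ∏ ξ : D.Z, if ζ ⬝ᵥ D.B v u = 1 then jacobiSym (x (v, ζ)) (x (u, ξ)) else 1
  rw [xp_ite_prod, xp_B_symm D v u]
  by_cases hu : u = 0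
  · subst hu
    simp [xp_B_zero_left]
  · rw [xp_mof D x hu, xp_jac_right _ _ _ fun ξ _ => (xp_sqf D x hx (u, ξ)).ne_zero]

theorem xp_sign (D : Dat) (a b : D.V) (x : D.P → ℕ) (hx : Squarefree (2 * ∏ i, x i)) :
    ∏ v, ∏ ζ, ∏ p ∈ (if v = 0 then 1 else x (v, ζ)).primeFactors,
      sg (ζ ⬝ᵥ xpX D a b (D.mof x) v p) = D.sgn a b x := by
  rw [xp_sgn, Fintype.prod_prod_type]
  refine Finset.prod_congr rfl fun v _ => Finset.prod_congr rfl fun ζ _ => ?_
  by_cases hv : v = 0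
  · subst hv
    rw [xp_G_zero]
    simp
  · rw [if_neg hv]
    exact xp_G D a b x hx v ζ

end Pool.Agent.H98.MK
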