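import Pool.Agent.H98.MK.Defs

/-!
# Project MK (MP_a3214d), row F2: from the count of homomorphisms to the count of fields
-/

set_option autoImplicit false

open scoped BigOperators
open Filter Topology
open scoped commutatorElement

namespace Pool.Agent.H98.MK

/-- the order of the group of the data -/
theorem card_Ext (D : Dat) : Nat.card (Ext D) = D.n := by
  rw [Nat.card_congr (Ext.equivProd (D := D)), Nat.card_prod]
  unfold Dat.n Dat.V Dat.Z
  rw [Nat.card_eq_fintype_card, Nat.card_eq_fintype_card, Fintype.card_fun, Fintype.card_fun,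
    ZMod.card, Fintype.card_fin, Fintype.card_fin, pow_add]

/-- classes of elements of order two and isomorphisms -/
theorem classes_congr {G H : Type} [Group G] [Group H] (e : G ≃* H) :
    Nat.card {c : ConjClasses G // ∃ g : G, ConjClasses.mk g = c ∧ orderOf g = 2} =
      Nat.card {c : ConjClasses H // ∃ g : H, ConjClasses.mk g = c ∧ orderOf g = 2} := by
  have key : ∀ {G H : Type} [Group G] [Group H] (e : G ≃* H) (c : ConjClasses G),
      (∃ g : G, ConjClasses.mk g = c ∧ orderOf g = 2) →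
      ∃ h : H, ConjClasses.mk h = ConjClasses.map e.toMonoidHom c ∧ orderOf h = 2 := by
    rintro G H _ _ e c ⟨g, rfl, hg⟩
    exact ⟨e g, rfl, by rw [MulEquiv.orderOf_eq]; exact hg⟩
  have inv : ∀ {G H : Type} [Group G] [Group H] (e : G ≃* H) (c : ConjClasses G),
      ConjClasses.map e.symm.toMonoidHom (ConjClasses.map e.toMonoidHom c) = c := by
    intro G H _ _ e c
    induction c using Quotient.inductionOn with
    | _ g =>
      change ConjClasses.mk (e.symm (e g)) = ConjClasses.mk g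
      rw [e.symm_apply_apply]
  refine Nat.card_congr
    { toFun := fun c => ⟨ConjClasses.map e.toMonoidHom c.1, key e c.1 c.2⟩
      invFun := fun c => ⟨ConjClasses.map e.symm.toMonoidHom c.1, key e.symm c.1 c.2⟩
      left_inv := fun c => Subtype.ext (inv e c.1)
      right_inv := fun c => Subtype.ext (by
        have := inv e.symm c.1
        rwa [MulEquiv.symm_symm] at this) }

/-- the number of Galois fields depends only on the isomorphism type of the group -/
theorem fields_congr {G H : Type} [Group G] [Group H] (e : G ≃* H) (B : ℝ) :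
    Nat.card {M : IntermediateField ℚ Om // IsGalois ℚ M ∧ FiniteDimensional ℚ M ∧
        Nonempty ((M ≃ₐ[ℚ] M) ≃* G) ∧ (dabs M : ℝ) ≤ B} =
      Nat.card {M : IntermediateField ℚ Om // IsGalois ℚ M ∧ FiniteDimensional ℚ M ∧
        Nonempty ((M ≃ₐ[ℚ] M) ≃* H) ∧ (dabs M : ℝ) ≤ B} := by
  refine Nat.card_congr (Equiv.subtypeEquivRight fun M => ?_)
  constructor
  · rintro ⟨h1, h2, ⟨f⟩, h4⟩
    exact ⟨h1, h2, ⟨f.trans e⟩, h4⟩
  · rintro ⟨h1, h2, ⟨f⟩, h4⟩
    exact ⟨h1, h2, ⟨f.trans e.symm⟩, h4⟩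

/-- from a limit of ratios to an equivalence -/
theorem equiv_of_ratio (f : ℝ → ℝ) (α c : ℝ) (k : ℕ) (hc : 0 < c)
    (h : Tendsto (fun X : ℝ => f X / (X ^ α * Real.log X ^ k)) atTop (𝓝 c)) :
    Asymptotics.IsEquivalent atTop f (fun X : ℝ => c * X ^ α * Real.log X ^ k) := by
  have hne : ∀ᶠ X : ℝ in atTop, c * X ^ α * Real.log X ^ k ≠ 0 := by
    filter_upwards [eventually_gt_atTop (1 : ℝ)] with X hX
    have h1 : 0 < Real.log X := Real.log_pos hX
    have h2 : 0 < X ^ α := Real.rpow_pos_of_pos (by linarith) α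
    positivity
  rw [Asymptotics.isEquivalent_iff_tendsto_one hne]
  have h2 := h.div_const c
  rw [div_self hc.ne'] at h2
  refine h2.congr' ?_
  filter_upwards [eventually_gt_atTop (1 : ℝ)] with X hX
  have h1 : Real.log X ≠ 0 := (Real.log_pos hX).ne'
  have h2 : X ^ α ≠ 0 := (Real.rpow_pos_of_pos (by linarith) α).ne'
  simp only [Pi.div_apply]
  field_simp

/-- the result, from the rows S1, S2, S3a, S3b and F1 -/
theorem final_of
    (hstruct : ∀ (G : Type) [Group G] [Finite G] [Nontrivial G],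
      (∀ a b c : G, ⁅⁅a, b⁆, c⁆ = 1) → Subgroup.closure {g : G | g ^ 2 = 1} = ⊤ →
      ∃ D : Dat, Nonempty (G ≃* Ext D))
    (hclasses : ∀ D : Dat,
      Nat.card {c : ConjClasses (Ext D) // ∃ g : Ext D, ConjClasses.mk g = c ∧ orderOf g = 2} =
        D.b)
    (hfields : ∀ (n : ℕ) (G : Subgroup (Equiv.Perm (Fin n))),
      MulAction.IsPretransitive G (Fin n) → Nat.card G = n → ∀ B : ℝ,
      Nat.card (Quot (fun L L' : {M : IntermediateField ℚ (AlgebraicClosure ℚ) //
            Module.finrank ℚ M = n ∧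
            (∃ e : (M →ₐ[ℚ] AlgebraicClosure ℚ) ≃ Fin n, ∀ π : Equiv.Perm (Fin n),
               π ∈ G ↔ ∃ σ : AlgebraicClosure ℚ ≃ₐ[ℚ] AlgebraicClosure ℚ,
                 ∀ φ : M →ₐ[ℚ] AlgebraicClosure ℚ, e (σ.toAlgHom.comp φ) = π (e φ)) ∧
            ∃ h : NumberField M,
              ((|@NumberField.discr M _ h| : ℤ) : ℝ) ≤ B * ((|NumberField.discr ℚ| : ℤ) : ℝ) ^ n}
          => Nonempty (L.1 ≃ₐ[ℚ] L'.1))) =
      Nat.card {M : IntermediateField ℚ Om // IsGalois ℚ M ∧ FiniteDimensional ℚ M ∧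
        Nonempty ((M ≃ₐ[ℚ] M) ≃* G) ∧ (dabs M : ℝ) ≤ B})
    (hsurj : ∀ (G : Type) [Group G] [Finite G] (B : ℝ),
      Nat.card {ρ : Gam →* G // Function.Surjective ρ ∧ IsLocallyConstant ρ ∧
        (dabs (fld ρ.ker) : ℝ) ≤ B} =
      Nat.card {M : IntermediateField ℚ Om // IsGalois ℚ M ∧ FiniteDimensional ℚ M ∧
        Nonempty ((M ≃ₐ[ℚ] M) ≃* G) ∧ (dabs M : ℝ) ≤ B} * Nat.card (MulAut G))
    (hdat : ∀ D : Dat, ∃ C : ℝ, 0 < C ∧ Tendsto (fun X : ℝ =>
      (Nat.card {ρ : Gam →* Ext D // Function.Surjective ρ ∧ IsLocallyConstant ρ ∧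
        (dabs (fld ρ.ker) : ℝ) ≤ X} : ℝ) / (X ^ (2 / D.n : ℝ) * Real.log X ^ (D.b - 1)))
      atTop (nhds C))
    (n : ℕ) (G : Subgroup (Equiv.Perm (Fin n)))
    (hne : G ≠ ⊥) (htr : MulAction.IsPretransitive G (Fin n)) (hreg : Nat.card G = n)
    (hcl : ∀ a b c : G, ⁅⁅a, b⁆, c⁆ = 1)
    (hgen : Subgroup.closure {g : G | g ^ 2 = 1} = ⊤) :
    ∃ c : ℝ, 0 < c ∧
      Asymptotics.IsEquivalent Filter.atTop
        (fun B : ℝ => ((Nat.card (Quot (fun L L' : {M : IntermediateField ℚ (AlgebraicClosure ℚ) //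
            Module.finrank ℚ M = n ∧
            (∃ e : (M →ₐ[ℚ] AlgebraicClosure ℚ) ≃ Fin n, ∀ π : Equiv.Perm (Fin n),
               π ∈ G ↔ ∃ σ : AlgebraicClosure ℚ ≃ₐ[ℚ] AlgebraicClosure ℚ,
                 ∀ φ : M →ₐ[ℚ] AlgebraicClosure ℚ, e (σ.toAlgHom.comp φ) = π (e φ)) ∧
            ∃ h : NumberField M,
              ((|@NumberField.discr M _ h| : ℤ) : ℝ) ≤ B * ((|NumberField.discr ℚ| : ℤ) : ℝ) ^ n}
          => Nonempty (L.1 ≃ₐ[ℚ] L'.1))) : ℕ) : ℝ))
        (fun B : ℝ => c * B ^ (2 / n : ℝ) * Real.log B ^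
          (Nat.card {c : ConjClasses G // ∃ g : G, ConjClasses.mk g = c ∧ orderOf g = 2} - 1)) := by
  have : Nontrivial G := (Subgroup.nontrivial_iff_ne_bot G).2 hne
  obtain ⟨D, ⟨e⟩⟩ := hstruct G hcl hgen
  obtain ⟨C, hC, hlim⟩ := hdat D
  have hn : D.n = n := by
    rw [← card_Ext, ← hreg]
    exact Nat.card_congr e.symm.toEquiv
  have hb : Nat.card {c : ConjClasses G // ∃ g : G, ConjClasses.mk g = c ∧ orderOf g = 2} =
      D.b := by
    rw [classes_congr e]
    exact hclasses D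
  have hA0 : 0 < Nat.card (MulAut (Ext D)) := by
    have : Finite (MulAut (Ext D)) := inferInstanceAs (Finite (Ext D ≃* Ext D))
    exact Nat.card_pos
  have hA : (0 : ℝ) < Nat.card (MulAut (Ext D)) := by exact_mod_cast hA0
  have hcount : ∀ B : ℝ, ((Nat.card (Quot (fun L L' : {M : IntermediateField ℚ
            (AlgebraicClosure ℚ) //
            Module.finrank ℚ M = n ∧
            (∃ e : (M →ₐ[ℚ] AlgebraicClosure ℚ) ≃ Fin n, ∀ π : Equiv.Perm (Fin n),
               π ∈ G ↔ ∃ σ : AlgebraicClosure ℚ ≃ₐ[ℚ] AlgebraicClosure ℚ,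
                 ∀ φ : M →ₐ[ℚ] AlgebraicClosure ℚ, e (σ.toAlgHom.comp φ) = π (e φ)) ∧
            ∃ h : NumberField M,
              ((|@NumberField.discr M _ h| : ℤ) : ℝ) ≤ B * ((|NumberField.discr ℚ| : ℤ) : ℝ) ^ n}
          => Nonempty (L.1 ≃ₐ[ℚ] L'.1))) : ℕ) : ℝ) =
      (Nat.card {ρ : Gam →* Ext D // Function.Surjective ρ ∧ IsLocallyConstant ρ ∧
        (dabs (fld ρ.ker) : ℝ) ≤ B} : ℝ) / Nat.card (MulAut (Ext D)) := by
    intro B
    rw [hfields n G htr hreg B, fields_congr e B, hsurj (Ext D) B]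
    push_cast
    rw [mul_div_assoc, div_self hA.ne', mul_one]
  refine ⟨C / Nat.card (MulAut (Ext D)), by positivity, ?_⟩
  rw [hn] at hlim
  rw [hb]
  apply equiv_of_ratio _ _ _ _ (by positivity)
  refine (hlim.div_const (Nat.card (MulAut (Ext D)) : ℝ)).congr ?_
  intro B
  rw [hcount B]
  ring

end Pool.Agent.H98.MK
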