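import Pool.Agent.H98.MK.Defs

/-!
# Project MK, row S1: groups of class at most two generated by involutions
-/

set_option autoImplicit false

open scoped commutatorElement

namespace Pool.Agent.H98.MK

/-! ### commutators in class two -/

section comm

variable {G : Type} [Group G]

theorem s1_comm (hcl : ∀ a b c : G, ⁅⁅a, b⁆, c⁆ = 1) (a b c : G) :
    ⁅a, b⁆ * c = c * ⁅a, b⁆ :=
  (commutatorElement_eq_one_iff_commute.1 (hcl a b c)).eq

theorem s1_mul_left (hcl : ∀ a b c : G, ⁅⁅a, b⁆, c⁆ = 1) (a b c : G) :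
    ⁅a * b, c⁆ = ⁅a, c⁆ * ⁅b, c⁆ := by
  have h := s1_comm hcl b c a
  have h1 : ⁅a * b, c⁆ = a * ⁅b, c⁆ * (c * a⁻¹ * c⁻¹) := by
    simp only [commutatorElement_def]
    group
  rw [h1, ← h]
  have h2 := s1_comm hcl b c (a * c * a⁻¹ * c⁻¹)
  calc ⁅b, c⁆ * a * (c * a⁻¹ * c⁻¹) = ⁅b, c⁆ * (a * c * a⁻¹ * c⁻¹) := by group
    _ = ⁅a, c⁆ * ⁅b, c⁆ := by rw [h2]; simp only [commutatorElement_def]

theorem s1_swap (a b : G) : a * b = ⁅a, b⁆ * (b * a) := by
  simp only [commutatorElement_def]
  group

end comm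

/-! ### elementary abelian groups -/

theorem s1_elem (A : Type) [Group A] [Finite A] (hc : ∀ a b : A, a * b = b * a)
    (hs : ∀ a : A, a ^ 2 = 1) (S : Set A) (hS : Subgroup.closure S = ⊤) :
    ∃ (r : ℕ) (e : A ≃ (Fin r → ZMod 2)) (g : Fin r → A), (∀ a b, e (a * b) = e a + e b) ∧
      (∀ i, g i ∈ S) ∧ ∀ i, e (g i) = Pi.single i 1 := by
  classical
  let _ : CommGroup A := { (inferInstance : Group A) with mul_comm := hc }
  let _ : Module (ZMod 2) (Additive A) := AddCommGroup.zmodModule (n := 2) (by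
    intro x
    change Additive.ofMul (Additive.toMul x ^ 2) = 0
    rw [hs]
    rfl)
  let S' : Set (Additive A) := Additive.toMul ⁻¹' S
  have hspan : ⊤ ≤ Submodule.span (ZMod 2) S' := by
    intro x _
    have h1 : Additive.toMul x ∈ Subgroup.closure S := by rw [hS]; exact Subgroup.mem_top _
    have h2 : ∀ y ∈ Subgroup.closure S, Additive.ofMul y ∈ Submodule.span (ZMod 2) S' := by
      intro y hy
      induction hy using Subgroup.closure_induction with
      | mem z hz => exact Submodule.subset_span hz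
      | one => exact Submodule.zero_mem _
      | mul a b _ _ ha hb => exact Submodule.add_mem _ ha hb
      | inv a _ ha => exact Submodule.neg_mem _ ha
    exact h2 _ h1
  let b0 := Module.Basis.ofSpan hspan
  have : Finite (Additive A) := ‹Finite A›
  have : Module.Finite (ZMod 2) (Additive A) := Module.Finite.of_finite
  have : Finite ((linearIndepOn_empty (ZMod 2) (id : Additive A → Additive A)).extend
      (Set.empty_subset S')) := Module.Finite.finite_basis b0
  have := Fintype.ofFinite ((linearIndepOn_empty (ZMod 2) (id : Additive A → Additive A)).extend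
      (Set.empty_subset S'))
  let b := b0.reindex (Fintype.equivFin _)
  refine ⟨_, Additive.ofMul.trans b.equivFun.toEquiv, fun i => Additive.toMul (b i), ?_, ?_, ?_⟩
  · intro x y
    change b.equivFun (Additive.ofMul (x * y)) = _
    rw [ofMul_mul, map_add]
    rfl
  · intro i
    have h1 : b i ∈ Set.range b0 := by
      rw [Module.Basis.reindex_apply]
      exact ⟨_, rfl⟩
    exact Module.Basis.ofSpan_subset hspan h1
  · intro i
    change b.equivFun (b i) = _
    funext j
    rw [Module.Basis.equivFun_self, Pi.single_apply]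
    simp only [eq_comm]

/-! ### the section -/

theorem s1_pow_val {G : Type} [Group G] {g : G} (hg : g ^ 2 = 1) (x y : ZMod 2) :
    g ^ (x + y).val = g ^ x.val * g ^ y.val := by
  rw [ZMod.val_add, ← pow_add]
  exact (pow_eq_pow_mod _ hg).symm

theorem s1_sec {G : Type} [Group G] (hcl : ∀ a b c : G, ⁅⁅a, b⁆, c⁆ = 1)
    {W : Type} [AddCommGroup W] [Module (ZMod 2) W] (ζ : W → G)
    (hζ : ∀ x y, ζ (x + y) = ζ x * ζ y) (hinj : Function.Injective ζ)
    (hcent : ∀ x g, ζ x * g = g * ζ x) (hcom : ∀ a b : G, ∃ x, ζ x = ⁅a, b⁆) :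
    ∀ (r : ℕ) (g : Fin r → G), (∀ i, g i ^ 2 = 1) →
      ∃ (P : (Fin r → ZMod 2) → G)
        (β : (Fin r → ZMod 2) →ₗ[ZMod 2] (Fin r → ZMod 2) →ₗ[ZMod 2] W),
        P 0 = 1 ∧ (∀ i, P (Pi.single i 1) = g i) ∧ ∀ v w, P v * P w = P (v + w) * ζ (β v w) := by
  have hζ0 : ζ 0 = 1 := by
    have h := hζ 0 0
    rw [add_zero] at h
    exact left_eq_mul.1 h
  intro r
  induction r with
  | zero =>
    intro g _
    refine ⟨fun _ => 1, 0, rfl, fun i => i.elim0, fun v w => ?_⟩
    simp [hζ0]
  | succ r ih =>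
    intro g hg
    obtain ⟨P, β, hP0, hPi, hP⟩ := ih (fun i => g i.succ) (fun i => hg _)
    choose l hl using fun v => hcom (P v) (g 0)
    have hladd : ∀ v w, l (v + w) = l v + l w := by
      intro v w
      apply hinj
      rw [hζ, hl, hl, hl, ← s1_mul_left hcl, hP]
      have h := hcent (β v w) (g 0)
      simp only [commutatorElement_def, mul_inv_rev]
      have h2 := hcent (β v w) (g 0 * (ζ (β v w))⁻¹)
      calc P (v + w) * g 0 * (P (v + w))⁻¹ * (g 0)⁻¹
          = P (v + w) * (g 0 * (ζ (β v w))⁻¹ * ζ (β v w)) * (P (v + w))⁻¹ * (g 0)⁻¹ := by group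
        _ = P (v + w) * (ζ (β v w) * (g 0 * (ζ (β v w))⁻¹)) * (P (v + w))⁻¹ * (g 0)⁻¹ := by
            rw [h2]
        _ = _ := by group
    let L : (Fin r → ZMod 2) →ₗ[ZMod 2] W := (AddMonoidHom.mk' l hladd).toZModLinearMap 2
    have hL : ∀ v, L v = l v := fun v => rfl
    let T : (Fin (r + 1) → ZMod 2) →ₗ[ZMod 2] (Fin r → ZMod 2) :=
      LinearMap.funLeft (ZMod 2) (ZMod 2) Fin.succ
    have hT : ∀ v i, T v i = v i.succ := fun v i => rfl
    let β' : (Fin (r + 1) → ZMod 2) →ₗ[ZMod 2] (Fin (r + 1) → ZMod 2) →ₗ[ZMod 2] W :=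
      LinearMap.mk₂ (ZMod 2) (fun v w => β (T v) (T w) + w 0 • L (T v))
        (by
          intro v v' w
          simp only [map_add, LinearMap.add_apply, smul_add]
          abel)
        (by
          intro c v w
          simp only [map_smul, LinearMap.smul_apply, smul_add, smul_comm c])
        (by
          intro v w w'
          simp only [map_add, Pi.add_apply, add_smul]
          abel)
        (by
          intro c v w
          simp only [map_smul, Pi.smul_apply, smul_eq_mul, smul_add, mul_smul])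
    have hβ' : ∀ v w, β' v w = β (T v) (T w) + w 0 • L (T v) := fun v w => rfl
    refine ⟨fun v => g 0 ^ (v 0).val * P (T v), β', ?_, ?_, ?_⟩
    · have h1 : T 0 = 0 := map_zero T
      simp [h1, hP0]
    · intro i
      refine Fin.cases ?_ (fun j => ?_) i
      · have h1 : T (Pi.single 0 1) = 0 := by
          funext j
          rw [hT, Pi.zero_apply, Pi.single_eq_of_ne (Fin.succ_ne_zero j)]
        change g 0 ^ ((Pi.single 0 1 : Fin (r + 1) → ZMod 2) 0).val * P (T (Pi.single 0 1)) = g 0
        rw [Pi.single_eq_same, h1, hP0, mul_one, ZMod.val_one, pow_one]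
      · have h1 : T (Pi.single j.succ 1) = Pi.single j 1 := by
          funext k
          rw [hT, Pi.single_apply, Pi.single_apply]
          simp only [Fin.succ_inj]
        have h2 : (Pi.single j.succ 1 : Fin (r + 1) → ZMod 2) 0 = 0 :=
          Pi.single_eq_of_ne (Fin.succ_ne_zero j).symm _
        simp only [h1, h2, hPi]
        simp
    · intro v w
      change g 0 ^ (v 0).val * P (T v) * (g 0 ^ (w 0).val * P (T w)) =
        g 0 ^ ((v + w) 0).val * P (T (v + w)) * ζ (β' v w)
      have key : P (T v) * g 0 ^ (w 0).val = ζ (w 0 • L (T v)) * (g 0 ^ (w 0).val * P (T v)) := by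
        generalize w 0 = x
        have hx : x = 0 ∨ x = 1 := by
          fin_cases x
          · exact Or.inl rfl
          · exact Or.inr rfl
        rcases hx with rfl | rfl
        · rw [zero_smul, hζ0, ZMod.val_zero, pow_zero, one_mul, one_mul, mul_one]
        · rw [one_smul, hL, hl, ZMod.val_one, pow_one]
          exact s1_swap _ _
      rw [hβ', hζ, map_add, Pi.add_apply, s1_pow_val (hg 0)]
      have h3 := hcent (w 0 • L (T v)) (g 0 ^ (w 0).val * P (T v) * P (T w))
      calc g 0 ^ (v 0).val * P (T v) * (g 0 ^ (w 0).val * P (T w))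
          = g 0 ^ (v 0).val * (P (T v) * g 0 ^ (w 0).val) * P (T w) := by group
        _ = g 0 ^ (v 0).val * (ζ (w 0 • L (T v)) * (g 0 ^ (w 0).val * P (T v) * P (T w))) := by
            rw [key]; group
        _ = g 0 ^ (v 0).val * (g 0 ^ (w 0).val * (P (T v) * P (T w)) *
              ζ (w 0 • L (T v))) := by rw [h3]; group
        _ = _ := by rw [hP]; group

/-! ### the structure theorem -/

theorem struct (G : Type) [Group G] [Finite G] [Nontrivial G]
    (hcl : ∀ a b c : G, ⁅⁅a, b⁆, c⁆ = 1)
    (hgen : Subgroup.closure {g : G | g ^ 2 = 1} = ⊤) :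
    ∃ D : Dat, Nonempty (G ≃* Ext D) := by
  classical
  -- squares of commutators
  have h1 : ∀ g y : G, ⁅g, y⁆ ^ 2 = 1 := by
    intro g
    have hg : g ∈ Subgroup.closure {g : G | g ^ 2 = 1} := by rw [hgen]; exact Subgroup.mem_top _
    induction hg using Subgroup.closure_induction with
    | mem x hx =>
      intro y
      rw [pow_two, ← s1_mul_left hcl, ← pow_two, show x ^ 2 = 1 from hx,
        commutatorElement_one_left]
    | one => intro y; simp
    | mul a b _ _ ha hb =>
      intro y
      rw [s1_mul_left hcl, Commute.mul_pow (s1_comm hcl a y ⁅b, y⁆), ha, hb, one_mul]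
    | inv a _ ha =>
      intro y
      have h := s1_mul_left hcl a a⁻¹ y
      rw [mul_inv_cancel, commutatorElement_one_left] at h
      have h' : ⁅a⁻¹, y⁆ = ⁅a, y⁆⁻¹ := (inv_eq_of_mul_eq_one_right h.symm).symm
      rw [h', inv_pow, ha, inv_one]
  -- the commutator subgroup
  have hcomm : commutator G = Subgroup.closure {z : G | ∃ a b : G, ⁅a, b⁆ = z} := by
    rw [commutator_eq_closure]
    rfl
  have hcent : ∀ z ∈ commutator G, ∀ g, z * g = g * z := by
    intro z hz
    rw [hcomm] at hz
    induction hz using Subgroup.closure_induction with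
    | mem x hx =>
      obtain ⟨a, b, rfl⟩ := hx
      exact s1_comm hcl a b
    | one => intro g; simp
    | mul a b _ _ ha hb =>
      intro g
      rw [mul_assoc, hb, ← mul_assoc, ha, mul_assoc]
    | inv a _ ha =>
      intro g
      have h := ha (a⁻¹ * g * a⁻¹)
      have e1 : a * (a⁻¹ * g * a⁻¹) = g * a⁻¹ := by group
      have e2 : a⁻¹ * g * a⁻¹ * a = a⁻¹ * g := by group
      rw [e1, e2] at h
      exact h.symm
  have hsq : ∀ z ∈ commutator G, z ^ 2 = 1 := by
    intro z hz
    rw [hcomm] at hz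
    induction hz using Subgroup.closure_induction with
    | mem x hx =>
      obtain ⟨a, b, rfl⟩ := hx
      exact h1 a b
    | one => simp
    | mul a b ha' hb' ha hb =>
      rw [← hcomm] at ha' hb'
      rw [Commute.mul_pow (hcent a ha' b), ha, hb, one_mul]
    | inv a _ ha => rw [inv_pow, ha, inv_one]
  -- coordinates on the commutator subgroup
  obtain ⟨s, e, -, hadd, -, -⟩ := s1_elem (commutator G)
    (fun a b => Subtype.ext (hcent a a.2 b)) (fun a => Subtype.ext (hsq a a.2)) Set.univ
    Subgroup.closure_univ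
  let ζ : (Fin s → ZMod 2) → G := fun x => (e.symm x : G)
  have hζ : ∀ x y, ζ (x + y) = ζ x * ζ y := by
    intro x y
    have h : e.symm (x + y) = e.symm x * e.symm y := by
      rw [Equiv.symm_apply_eq, hadd, e.apply_symm_apply, e.apply_symm_apply]
    change ((e.symm (x + y) : commutator G) : G) = _
    rw [h]
    rfl
  have hinj : Function.Injective ζ := fun x y h => e.symm.injective (Subtype.ext h)
  have hcent' : ∀ x g, ζ x * g = g * ζ x := fun x g => hcent _ (e.symm x).2 g
  have hrange : ∀ z ∈ commutator G, ∃ x, ζ x = z := fun z hz =>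
    ⟨e ⟨z, hz⟩, by change ((e.symm (e ⟨z, hz⟩) : commutator G) : G) = z; rw [e.symm_apply_apply]⟩
  have hcom : ∀ a b : G, ∃ x, ζ x = ⁅a, b⁆ := fun a b => hrange _ (by
    rw [hcomm]; exact Subgroup.subset_closure ⟨a, b, rfl⟩)
  have hζ0 : ζ 0 = 1 := by
    have h := hζ 0 0
    rw [add_zero] at h
    exact left_eq_mul.1 h
  have hζ2 : ∀ x, ζ x * ζ x = 1 := fun x => by
    rw [← hζ, ← hζ0]
    congr 1
    funext i
    exact CharTwo.add_self_eq_zero (x i)
  -- coordinates on the quotient
  obtain ⟨r, f, g', hfadd, hg', hfg⟩ := s1_elem (Abelianization G) (fun a b => mul_comm a b)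
    (fun a => by
      have ha : a ∈ Subgroup.closure (Abelianization.of '' {g : G | g ^ 2 = 1}) := by
        rw [← MonoidHom.map_closure, hgen, ← MonoidHom.range_eq_map,
          MonoidHom.range_eq_top.2 (QuotientGroup.mk_surjective)]
        exact Subgroup.mem_top _
      induction ha using Subgroup.closure_induction with
      | mem x hx =>
        obtain ⟨y, hy, rfl⟩ := hx
        rw [← map_pow, show y ^ 2 = 1 from hy, map_one]
      | one => simp
      | mul a b _ _ ha hb => rw [mul_pow, ha, hb, one_mul]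
      | inv a _ ha => rw [inv_pow, ha, inv_one])
    (Abelianization.of '' {g : G | g ^ 2 = 1}) (by
      rw [← MonoidHom.map_closure, hgen, ← MonoidHom.range_eq_map,
        MonoidHom.range_eq_top.2 (QuotientGroup.mk_surjective)])
  choose g hg hgg using hg'
  obtain ⟨P, β, hP0, hPi, hP⟩ := s1_sec hcl ζ hζ hinj hcent' hcom r g (fun i => hg i)
  let π : G → (Fin r → ZMod 2) := fun x => f (Abelianization.of x)
  have hπ : ∀ x y, π (x * y) = π x + π y := fun x y => by
    change f (Abelianization.of (x * y)) = _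
    rw [map_mul, hfadd]
  have hf1 : f 1 = 0 := by
    have h := hfadd 1 1
    rw [one_mul] at h
    exact left_eq_add.1 h
  have hker : ∀ x, π x = 0 ↔ x ∈ commutator G := by
    intro x
    rw [← Abelianization.ker_of, MonoidHom.mem_ker]
    constructor
    · intro h
      apply f.injective
      rw [hf1]
      exact h
    · intro h
      change f (Abelianization.of x) = 0
      rw [h, hf1]
  have hπζ : ∀ x, π (ζ x) = 0 := fun x => (hker _).2 (e.symm x).2
  have hPπ : ∀ v, π (P v) = v := by
    let M : (Fin r → ZMod 2) →+ (Fin r → ZMod 2) := AddMonoidHom.mk' (fun v => π (P v)) (by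
      intro v w
      have h := congrArg π (hP v w)
      rw [hπ, hπ, hπζ, add_zero] at h
      exact h.symm)
    have hM : M.toZModLinearMap 2 = LinearMap.id := by
      apply LinearMap.pi_ext'
      intro i
      apply LinearMap.ext_ring
      change π (P (Pi.single i 1)) = Pi.single i 1
      rw [hPi]
      change f (Abelianization.of (g i)) = _
      rw [hgg, hfg]
    intro v
    exact congrArg (fun F : (Fin r → ZMod 2) →ₗ[ZMod 2] (Fin r → ZMod 2) => F v) hM
  have hsqP : ∀ v, P v * P v = ζ (β v v) := by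
    intro v
    have h : v + v = 0 := by
      funext i
      exact CharTwo.add_self_eq_zero (v i)
    rw [hP, h, hP0, one_mul]
  have hdecomp : ∀ x : G, ∃ v z, x = P v * ζ z := by
    intro x
    have h : π ((P (π x))⁻¹ * x) = 0 := by
      have h2 := hπ (P (π x)) ((P (π x))⁻¹ * x)
      rw [mul_inv_cancel_left, hPπ] at h2
      exact left_eq_add.1 h2
    obtain ⟨z, hz⟩ := hrange _ ((hker _).1 h)
    exact ⟨π x, z, by rw [hz, mul_inv_cancel_left]⟩
  -- generators
  have hgen' : Submodule.span (ZMod 2) {v : Fin r → ZMod 2 | β v v = 0} = ⊤ := by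
    rw [eq_top_iff, ← (Pi.basisFun (ZMod 2) (Fin r)).span_eq, Submodule.span_le]
    rintro _ ⟨i, rfl⟩
    apply Submodule.subset_span
    rw [Pi.basisFun_apply]
    change β (Pi.single i 1) (Pi.single i 1) = 0
    apply hinj
    rw [← hsqP, hPi, hζ0, ← pow_two]
    exact hg i
  have hB : ∀ v w, ⁅P v, P w⁆ = ζ (β v w + β w v) := by
    intro v w
    have h2 := hP v w
    have h3 := hP w v
    rw [add_comm w v] at h3
    have h4 := s1_swap (P v) (P w)
    rw [h2, h3, ← mul_assoc] at h4
    have h5 : ⁅P v, P w⁆ * P (v + w) = P (v + w) * ⁅P v, P w⁆ := s1_comm hcl _ _ _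
    rw [h5, mul_assoc, mul_right_inj] at h4
    rw [hζ, h4, mul_assoc, hζ2, mul_one]
  have hspz : Submodule.span (ZMod 2) (Set.range fun v : Fin r → ZMod 2 => β v v) = ⊤ := by
    set S := Submodule.span (ZMod 2) (Set.range fun v : Fin r → ZMod 2 => β v v) with hS
    have h5 : ∀ z ∈ commutator G, ∃ x ∈ S, ζ x = z := by
      intro z hz
      rw [hcomm] at hz
      induction hz using Subgroup.closure_induction with
      | mem x hx =>
        obtain ⟨a, b, rfl⟩ := hx
        obtain ⟨v, z1, rfl⟩ := hdecomp a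
        obtain ⟨w, z2, rfl⟩ := hdecomp b
        refine ⟨β v w + β w v, ?_, ?_⟩
        · have h6 : β v w + β w v = β (v + w) (v + w) - β v v - β w w := by
            simp only [map_add, LinearMap.add_apply]
            abel
          rw [h6]
          exact Submodule.sub_mem _ (Submodule.sub_mem _ (Submodule.subset_span ⟨_, rfl⟩)
            (Submodule.subset_span ⟨_, rfl⟩)) (Submodule.subset_span ⟨_, rfl⟩)
        · rw [← hB]
          have h7 := hcent' z1
          have h8 := hcent' z2
          simp only [commutatorElement_def, mul_inv_rev]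
          have h9 : P v * ζ z1 * (P w * ζ z2) = P v * P w * ζ z2 * ζ z1 := by
            rw [mul_assoc, h7, ← mul_assoc, ← mul_assoc]
          have h10 : (ζ z1)⁻¹ * (P v)⁻¹ * ((ζ z2)⁻¹ * (P w)⁻¹) =
              (ζ z1)⁻¹ * (ζ z2)⁻¹ * ((P v)⁻¹ * (P w)⁻¹) := by
            have h11 : (P v)⁻¹ * (ζ z2)⁻¹ = (ζ z2)⁻¹ * (P v)⁻¹ := by
              rw [← mul_inv_rev, ← mul_inv_rev, h8]
            calc (ζ z1)⁻¹ * (P v)⁻¹ * ((ζ z2)⁻¹ * (P w)⁻¹)
                = (ζ z1)⁻¹ * ((P v)⁻¹ * (ζ z2)⁻¹) * (P w)⁻¹ := by group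
              _ = _ := by rw [h11]; group
          calc P v * P w * (P v)⁻¹ * (P w)⁻¹
              = P v * P w * ζ z2 * ζ z1 * ((ζ z1)⁻¹ * (ζ z2)⁻¹ * ((P v)⁻¹ * (P w)⁻¹)) := by
                group
            _ = _ := by rw [← h9, ← h10]; group
      | one => exact ⟨0, Submodule.zero_mem _, hζ0⟩
      | mul a b _ _ ha hb =>
        obtain ⟨x, hx, rfl⟩ := ha
        obtain ⟨y, hy, rfl⟩ := hb
        exact ⟨x + y, Submodule.add_mem _ hx hy, hζ x y⟩
      | inv a _ ha =>
        obtain ⟨x, hx, rfl⟩ := ha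
        exact ⟨x, hx, (inv_eq_of_mul_eq_one_right (hζ2 x)).symm⟩
    rw [eq_top_iff]
    intro x _
    obtain ⟨y, hy, h⟩ := h5 (ζ x) (e.symm x).2
    rw [← hinj h]
    exact hy
  have hpos : 0 < r := by
    rcases Nat.eq_zero_or_pos r with h | h
    · exfalso
      subst h
      obtain ⟨a, b, hab⟩ := exists_pair_ne G
      have hz : ∀ x : Fin s → ZMod 2, x = 0 := by
        intro x
        have hx : x ∈ Submodule.span (ZMod 2) (Set.range fun v : Fin 0 → ZMod 2 => β v v) := by
          rw [hspz]; exact Submodule.mem_top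
        have h6 : Submodule.span (ZMod 2) (Set.range fun v : Fin 0 → ZMod 2 => β v v) ≤ ⊥ := by
          rw [Submodule.span_le]
          rintro _ ⟨v, rfl⟩
          have hv : v = 0 := Subsingleton.elim _ _
          rw [hv]
          exact (Submodule.mem_bot _).2 (map_zero _)
        exact (Submodule.mem_bot _).1 (h6 hx)
      have h7 : ∀ x : G, x = 1 := by
        intro x
        obtain ⟨v, z, rfl⟩ := hdecomp x
        rw [hz z, hζ0, show v = 0 from Subsingleton.elim _ _, hP0, one_mul]
      exact hab ((h7 a).trans (h7 b).symm)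
    · exact h
  let D : Dat := ⟨r, s, β, hgen', hspz, hpos⟩
  let F : Ext D → G := fun x => P x.v * ζ x.z
  have hFmul : ∀ x y : Ext D, F (x * y) = F x * F y := by
    intro x y
    change P (x.v + y.v) * ζ (x.z + y.z + β x.v y.v) = P x.v * ζ x.z * (P y.v * ζ y.z)
    rw [hζ, hζ]
    have h2 := hcent' x.z (P y.v)
    calc P (x.v + y.v) * (ζ x.z * ζ y.z * ζ (β x.v y.v))
        = P (x.v + y.v) * (ζ (β x.v y.v) * (ζ x.z * ζ y.z)) := by
          rw [hcent' (β x.v y.v) (ζ x.z * ζ y.z)]
      _ = P x.v * P y.v * (ζ x.z * ζ y.z) := by rw [hP, mul_assoc]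
      _ = P x.v * (P y.v * ζ x.z) * ζ y.z := by group
      _ = _ := by rw [← h2]; group
  have hFbij : Function.Bijective F := by
    constructor
    · intro x y h
      change P x.v * ζ x.z = P y.v * ζ y.z at h
      have h2 := congrArg π h
      rw [hπ, hπ, hπζ, hπζ, hPπ, hPπ, add_zero, add_zero] at h2
      rw [h2, mul_right_inj] at h
      exact Ext.ext h2 (hinj h)
    · intro x
      obtain ⟨v, z, rfl⟩ := hdecomp x
      exact ⟨⟨v, z⟩, rfl⟩
  exact ⟨D, ⟨(MulEquiv.ofBijective (MonoidHom.mk' F hFmul) hFbij).symm⟩⟩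

end Pool.Agent.H98.MK
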