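import Pool.Agent.H98.MK.ADefs

/-!
# Project MK, row B6: the bilinear bound with the condition `m n ≤ x`, from the bound for boxes
-/

set_option autoImplicit false

open scoped BigOperators

open Filter

namespace Pool.Agent.H98.MK

/-- The number of natural numbers in `(u, v]`. -/
theorem b6_count (L : ℕ) (u v : ℝ) (hu : 0 ≤ u) (huv : u ≤ v) :
    (((Finset.Icc 1 L).filter (fun m : ℕ => u < m ∧ (m : ℝ) ≤ v)).card : ℝ) ≤ v - u + 1 := by
  have hsub : (Finset.Icc 1 L).filter (fun m : ℕ => u < m ∧ (m : ℝ) ≤ v) ⊆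
      Finset.Ioc ⌊u⌋₊ ⌊v⌋₊ := by
    intro m hm
    rw [Finset.mem_filter] at hm
    rw [Finset.mem_Ioc]
    exact ⟨(Nat.floor_lt hu).2 hm.2.1, Nat.le_floor hm.2.2⟩
  have h1 := Finset.card_le_card hsub
  rw [Nat.card_Ioc] at h1
  have h2 : ⌊u⌋₊ ≤ ⌊v⌋₊ := Nat.floor_le_floor huv
  have h3 : (((⌊v⌋₊ - ⌊u⌋₊ : ℕ)) : ℝ) = (⌊v⌋₊ : ℝ) - ⌊u⌋₊ := Nat.cast_sub h2
  have h4 : (⌊v⌋₊ : ℝ) ≤ v := Nat.floor_le (hu.trans huv)
  have h5 : u < ⌊u⌋₊ + 1 := Nat.lt_floor_add_one u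
  have h6 : (((Finset.Icc 1 L).filter (fun m : ℕ => u < m ∧ (m : ℝ) ≤ v)).card : ℝ) ≤
      ((⌊v⌋₊ - ⌊u⌋₊ : ℕ) : ℝ) := by exact_mod_cast h1
  linarith

/-- The indicator of the box `(P (1 + d)^j, P (1 + d)^(j+1)]`. -/
noncomputable def b6chi (P d : ℝ) (j n : ℕ) : ℝ :=
  if P * (1 + d) ^ j < n ∧ (n : ℝ) ≤ P * (1 + d) ^ (j + 1) then 1 else 0

/-- The indicator of `n ≤ P (1 + d)^j`. -/
noncomputable def b6F (P d : ℝ) (n j : ℕ) : ℝ :=
  if (n : ℝ) ≤ P * (1 + d) ^ j then 1 else 0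

theorem b6chi_eq {P d : ℝ} (hP : 0 < P) (hd : 0 ≤ d) (j n : ℕ) :
    b6chi P d j n = b6F P d n (j + 1) - b6F P d n j := by
  have hmono : P * (1 + d) ^ j ≤ P * (1 + d) ^ (j + 1) := by
    refine mul_le_mul_of_nonneg_left ?_ hP.le
    exact pow_le_pow_right₀ (by linarith) (Nat.le_succ j)
  unfold b6chi b6F
  by_cases h1 : (n : ℝ) ≤ P * (1 + d) ^ j
  · have h2 : (n : ℝ) ≤ P * (1 + d) ^ (j + 1) := h1.trans hmono
    rw [if_neg (fun h => absurd h1 (not_le.2 h.1)), if_pos h2, if_pos h1, sub_self]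
  · by_cases h2 : (n : ℝ) ≤ P * (1 + d) ^ (j + 1)
    · rw [if_pos ⟨not_le.1 h1, h2⟩, if_pos h2, if_neg h1, sub_zero]
    · rw [if_neg (fun h => h2 h.2), if_neg h2, if_neg h1, sub_self]

theorem b6chi_nonneg (P d : ℝ) (j n : ℕ) : 0 ≤ b6chi P d j n := by
  unfold b6chi
  split_ifs
  · exact zero_le_one
  · exact le_rfl

theorem b6chi_sum_le {P d : ℝ} (hP : 0 < P) (hd : 0 ≤ d) (J n : ℕ) :
    ∑ j ∈ Finset.range J, b6chi P d j n ≤ 1 := by
  rw [Finset.sum_congr rfl fun j _ => b6chi_eq hP hd j n, Finset.sum_range_sub]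
  unfold b6F
  split_ifs <;> norm_num

theorem b6chi_sum {P d : ℝ} (hP : 0 < P) (hd : 0 ≤ d) {J n : ℕ} (h1 : P < n)
    (h2 : (n : ℝ) ≤ P * (1 + d) ^ J) : ∑ j ∈ Finset.range J, b6chi P d j n = 1 := by
  rw [Finset.sum_congr rfl fun j _ => b6chi_eq hP hd j n, Finset.sum_range_sub]
  unfold b6F
  rw [if_pos h2, if_neg (by rw [pow_zero, mul_one]; exact not_le.2 h1), sub_zero]

theorem b6_jac (m : ℤ) (n : ℕ) : |(jacobiSym m n : ℝ)| ≤ 1 := by
  rcases jacobiSym.trichotomy m n with h | h | h <;> rw [h] <;> norm_num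

theorem b6_f {a b : ℕ → ℝ} (ha : ∀ m, |a m| ≤ 1) (hb : ∀ n, |b n| ≤ 1) (m n : ℕ) :
    |a m * b n * (jacobiSym m n : ℝ)| ≤ 1 := by
  rw [abs_mul, abs_mul]
  have h1 : |a m| * |b n| ≤ 1 := mul_le_one₀ (ha m) (abs_nonneg _) (hb n)
  exact mul_le_one₀ h1 (abs_nonneg _) (b6_jac m n)

/-- The harmonic sum. -/
theorem b6_harm {x : ℝ} (hx : 1 ≤ x) :
    ∑ n ∈ Finset.Icc 1 ⌊x⌋₊, (n : ℝ)⁻¹ ≤ 1 + Real.log x := by
  have h := harmonic_floor_le_one_add_log x hx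
  rw [harmonic_eq_sum_Icc] at h
  push_cast at h
  exact h

/-- The number of boxes. -/
theorem b6_J {P x d : ℝ} (hP : 1 ≤ P) (hx : 1 ≤ x) (hd0 : 0 < d) (hd1 : d ≤ 1) :
    x ≤ P * (1 + d) ^ ⌈2 / d * Real.log x⌉₊ := by
  have h1 : d / 2 ≤ Real.log (1 + d) := by
    have h2 := Real.one_sub_inv_le_log_of_pos (show (0 : ℝ) < 1 + d by linarith)
    have h3 : d / 2 ≤ 1 - (1 + d)⁻¹ := by
      rw [div_le_iff₀ (by norm_num : (0 : ℝ) < 2)]
      have h4 : (1 - (1 + d)⁻¹) * 2 - d = d * (1 - d) / (1 + d) := by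
        field_simp
        ring
      have h5 : 0 ≤ d * (1 - d) / (1 + d) :=
        div_nonneg (mul_nonneg hd0.le (by linarith)) (by linarith)
      linarith
    linarith
  have h2 : 2 / d * Real.log x ≤ ⌈2 / d * Real.log x⌉₊ := Nat.le_ceil _
  have hx0 : (0 : ℝ) < x := by linarith
  have h3 : Real.log x ≤ ⌈2 / d * Real.log x⌉₊ * Real.log (1 + d) := by
    have h4 : Real.log x = 2 / d * Real.log x * (d / 2) := by
      field_simp
    calc Real.log x = 2 / d * Real.log x * (d / 2) := h4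
      _ ≤ ⌈2 / d * Real.log x⌉₊ * (d / 2) := mul_le_mul_of_nonneg_right h2 (by linarith)
      _ ≤ ⌈2 / d * Real.log x⌉₊ * Real.log (1 + d) :=
          mul_le_mul_of_nonneg_left h1 (Nat.cast_nonneg _)
  have h4 : x ≤ (1 + d) ^ ⌈2 / d * Real.log x⌉₊ := by
    rw [← Real.log_le_log_iff hx0 (pow_pos (by linarith) _), Real.log_pow]
    exact h3
  have h5 : (1 + d) ^ ⌈2 / d * Real.log x⌉₊ ≤ P * (1 + d) ^ ⌈2 / d * Real.log x⌉₊ :=
    le_mul_of_one_le_left (pow_nonneg (by linarith) _) hP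
  exact h4.trans h5

/-- The error term, for fixed `n` and a box. -/
theorem b6_err (L : ℕ) {P x d : ℝ} (hP : 0 < P) (hx : 0 < x) (hd0 : 0 < d) (j n : ℕ) :
    b6chi P d j n * ∑ m ∈ Finset.Icc 1 L, (if x / (P * (1 + d) ^ (j + 1)) < m ∧
      (m : ℝ) ≤ x / n ∧ (n : ℝ) ≤ x / P then (1 : ℝ) else 0) ≤
    b6chi P d j n * (if (n : ℝ) ≤ x / P then d * x * (n : ℝ)⁻¹ + 1 else 0) := by
  by_cases hc : P * (1 + d) ^ j < n ∧ (n : ℝ) ≤ P * (1 + d) ^ (j + 1)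
  · refine mul_le_mul_of_nonneg_left ?_ (b6chi_nonneg _ _ _ _)
    by_cases hn : (n : ℝ) ≤ x / P
    · rw [if_pos hn]
      have h0 : (0 : ℝ) < P * (1 + d) ^ j := mul_pos hP (pow_pos (by linarith) _)
      have hn0 : (0 : ℝ) < n := h0.trans hc.1
      have hN0 : (0 : ℝ) < P * (1 + d) ^ (j + 1) := mul_pos hP (pow_pos (by linarith) _)
      have hu : 0 ≤ x / (P * (1 + d) ^ (j + 1)) := by positivity
      have huv : x / (P * (1 + d) ^ (j + 1)) ≤ x / n :=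
        div_le_div_of_nonneg_left hx.le hn0 hc.2
      have h1 := b6_count L _ _ hu huv
      have h2 : ∑ m ∈ Finset.Icc 1 L, (if x / (P * (1 + d) ^ (j + 1)) < m ∧
          (m : ℝ) ≤ x / n ∧ (n : ℝ) ≤ x / P then (1 : ℝ) else 0) =
          (((Finset.Icc 1 L).filter (fun m : ℕ => x / (P * (1 + d) ^ (j + 1)) < m ∧
            (m : ℝ) ≤ x / n)).card : ℝ) := by
        rw [Finset.card_filter]
        push_cast
        refine Finset.sum_congr rfl fun m _ => ?_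
        simp only [hn, and_true]
      rw [h2]
      refine h1.trans ?_
      have h3 : x / n - x / (P * (1 + d) ^ (j + 1)) ≤ d * x * (n : ℝ)⁻¹ := by
        have h4 : (1 - d) * (P * (1 + d) ^ (j + 1)) ≤ n := by
          have h5 : (1 - d) * (P * (1 + d) ^ (j + 1)) =
              (1 - d ^ 2) * (P * (1 + d) ^ j) := by ring
          rw [h5]
          have h6 : (1 - d ^ 2) * (P * (1 + d) ^ j) ≤ 1 * (P * (1 + d) ^ j) :=
            mul_le_mul_of_nonneg_right (by nlinarith) h0.le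
          linarith [hc.1]
        have h7 : x / n * (1 - d) ≤ x / (P * (1 + d) ^ (j + 1)) := by
          rw [le_div_iff₀ hN0]
          have h8 : x / n * (1 - d) * (P * (1 + d) ^ (j + 1)) =
              x / n * ((1 - d) * (P * (1 + d) ^ (j + 1))) := by ring
          rw [h8]
          calc x / n * ((1 - d) * (P * (1 + d) ^ (j + 1))) ≤ x / n * n :=
                mul_le_mul_of_nonneg_left h4 (by positivity)
            _ = x := by field_simp
        have h9 : d * x * (n : ℝ)⁻¹ = d * (x / n) := by rw [div_eq_mul_inv]; ring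
        rw [h9]
        linarith
      linarith
    · rw [if_neg hn]
      refine le_of_eq (Finset.sum_eq_zero fun m _ => ?_)
      rw [if_neg (fun h => hn h.2.2)]
  · unfold b6chi
    rw [if_neg hc, zero_mul, zero_mul]

/-- The sum of the error terms. -/
theorem b6_errsum {P x d : ℝ} (hP : 1 ≤ P) (hx : 1 ≤ x) (hd0 : 0 < d) :
    ∑ n ∈ Finset.Icc 1 ⌊x⌋₊, (if (n : ℝ) ≤ x / P then d * x * (n : ℝ)⁻¹ + 1 else 0) ≤
      d * x * (1 + Real.log x) + x / P := by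
  have hx0 : (0 : ℝ) < x := by linarith
  have hP0 : (0 : ℝ) < P := by linarith
  have h1 : ∀ n ∈ Finset.Icc 1 ⌊x⌋₊,
      (if (n : ℝ) ≤ x / P then d * x * (n : ℝ)⁻¹ + 1 else 0) ≤
      d * x * (n : ℝ)⁻¹ + (if (n : ℝ) ≤ x / P then (1 : ℝ) else 0) := by
    intro n _
    split_ifs
    · exact le_rfl
    · have : 0 ≤ d * x * (n : ℝ)⁻¹ := by positivity
      linarith
  refine (Finset.sum_le_sum h1).trans ?_
  rw [Finset.sum_add_distrib, ← Finset.mul_sum]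
  have h2 : ∑ n ∈ Finset.Icc 1 ⌊x⌋₊, (if (n : ℝ) ≤ x / P then (1 : ℝ) else 0) ≤ x / P := by
    have h3 : ∑ n ∈ Finset.Icc 1 ⌊x⌋₊, (if (n : ℝ) ≤ x / P then (1 : ℝ) else 0) =
        (((Finset.Icc 1 ⌊x⌋₊).filter (fun n : ℕ => (n : ℝ) ≤ x / P)).card : ℝ) := by
      rw [Finset.card_filter]
      push_cast
      rfl
    rw [h3]
    have h4 : (Finset.Icc 1 ⌊x⌋₊).filter (fun n : ℕ => (n : ℝ) ≤ x / P) ⊆
        Finset.Icc 1 ⌊x / P⌋₊ := by
      intro n hn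
      rw [Finset.mem_filter, Finset.mem_Icc] at hn
      exact Finset.mem_Icc.2 ⟨hn.1.1, Nat.le_floor hn.2⟩
    have h5 := Finset.card_le_card h4
    rw [Nat.card_Icc, Nat.add_sub_cancel] at h5
    have h6 : (((Finset.Icc 1 ⌊x⌋₊).filter (fun n : ℕ => (n : ℝ) ≤ x / P)).card : ℝ) ≤
        (⌊x / P⌋₊ : ℝ) := by exact_mod_cast h5
    exact h6.trans (Nat.floor_le (by positivity))
  have h7 := mul_le_mul_of_nonneg_left (b6_harm hx) (show (0 : ℝ) ≤ d * x by positivity)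
  linarith

end Pool.Agent.H98.MK
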