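import Pool.Agent.H98.MK.ADefs

/-!
# Project MK: a linked isotropic pair, both large (algebra)
-/

set_option autoImplicit false

open scoped BigOperators
open Filter

namespace Pool.Agent.H98.MK

open Classical in
/-- one symbol -/
noncomputable def gpG {ι : Type} (L : ι → ι → Prop) (p q : ι) (u v : ℕ) : ℤ :=
  if L p q then jacobiSym u v else 1

theorem gp_jp {ι : Type} [Fintype ι] (L : ι → ι → Prop) (x : ι → ℕ) :
    jp L x = ∏ p, ∏ q, gpG L p q (x p) (x q) := rfl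

theorem gp_jac_abs (a : ℤ) (b : ℕ) : |jacobiSym a b| ≤ 1 := by
  rcases jacobiSym.trichotomy a b with h | h | h <;> rw [h] <;> norm_num

theorem gp_abs {ι : Type} (L : ι → ι → Prop) (p q : ι) (u v : ℕ) : |gpG L p q u v| ≤ 1 := by
  unfold gpG
  split_ifs
  · exact gp_jac_abs _ _
  · norm_num

theorem gp_prod_abs {ι : Type} (s : Finset ι) (f : ι → ℤ) (h : ∀ i, |f i| ≤ 1) :
    |∏ i ∈ s, f i| ≤ 1 := by
  rw [Finset.abs_prod]
  exact Finset.prod_le_one (fun i _ => abs_nonneg _) fun i _ => h i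

theorem gp_prod_absR {ι : Type} (s : Finset ι) (f : ι → ℝ) (h : ∀ i, |f i| ≤ 1) :
    |∏ i ∈ s, f i| ≤ 1 := by
  rw [Finset.abs_prod]
  exact Finset.prod_le_one (fun i _ => abs_nonneg _) fun i _ => h i

theorem gp_mul_abs {a b : ℤ} (ha : |a| ≤ 1) (hb : |b| ≤ 1) : |a * b| ≤ 1 := by
  rw [abs_mul]
  exact mul_le_one₀ ha (abs_nonneg _) hb

theorem gp_mul_absR {a b : ℝ} (ha : |a| ≤ 1) (hb : |b| ≤ 1) : |a * b| ≤ 1 := by
  rw [abs_mul]
  exact mul_le_one₀ ha (abs_nonneg _) hb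

section

variable {ι : Type} [Fintype ι] [DecidableEq ι]

/-- the other indices -/
def gpS (i j : ι) : Finset ι := Finset.univ \ {i, j}

/-- changing two coordinates -/
def gpU (i j : ι) (z : ι → ℕ) (m n : ℕ) : ι → ℕ := Function.update (Function.update z i m) j n

omit [Fintype ι] in
theorem gpU_j (i j : ι) (z : ι → ℕ) (m n : ℕ) : gpU i j z m n j = n := by
  simp [gpU]

omit [Fintype ι] in
theorem gpU_i {i j : ι} (hij : i ≠ j) (z : ι → ℕ) (m n : ℕ) : gpU i j z m n i = m := by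
  simp [gpU, Function.update_of_ne hij]

theorem gpU_of {i j l : ι} (hl : l ∈ gpS i j) (z : ι → ℕ) (m n : ℕ) : gpU i j z m n l = z l := by
  unfold gpS at hl
  rw [Finset.mem_sdiff, Finset.mem_insert, Finset.mem_singleton, not_or] at hl
  unfold gpU
  rw [Function.update_of_ne hl.2.2, Function.update_of_ne hl.2.1]

theorem gp_split {M : Type} [CommMonoid M] {i j : ι} (hij : i ≠ j) (f : ι → M) :
    ∏ l, f l = f i * f j * ∏ l ∈ gpS i j, f l := by
  unfold gpS
  rw [← Finset.prod_sdiff (Finset.subset_univ {i, j}), Finset.prod_pair hij, mul_comm]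

/-- the factor of the first variable -/
noncomputable def gpA (L : ι → ι → Prop) (i j : ι) (z : ι → ℕ) (m : ℕ) : ℤ :=
  (∏ p ∈ gpS i j, gpG L p i (z p) m) * ∏ q ∈ gpS i j, gpG L i q m (z q)

/-- the factor of the second variable -/
noncomputable def gpB (L : ι → ι → Prop) (i j : ι) (z : ι → ℕ) (n : ℕ) : ℤ :=
  (∏ p ∈ gpS i j, gpG L p j (z p) n) * ∏ q ∈ gpS i j, gpG L j q n (z q)

/-- the constant factor -/
noncomputable def gpK (L : ι → ι → Prop) (i j : ι) (z : ι → ℕ) : ℤ :=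
  ∏ p ∈ gpS i j, ∏ q ∈ gpS i j, gpG L p q (z p) (z q)

theorem gpA_abs (L : ι → ι → Prop) (i j : ι) (z : ι → ℕ) (m : ℕ) : |gpA L i j z m| ≤ 1 :=
  gp_mul_abs (gp_prod_abs _ _ fun _ => gp_abs _ _ _ _ _) (gp_prod_abs _ _ fun _ => gp_abs _ _ _ _ _)

theorem gpB_abs (L : ι → ι → Prop) (i j : ι) (z : ι → ℕ) (m : ℕ) : |gpB L i j z m| ≤ 1 :=
  gp_mul_abs (gp_prod_abs _ _ fun _ => gp_abs _ _ _ _ _) (gp_prod_abs _ _ fun _ => gp_abs _ _ _ _ _)

theorem gpK_abs (L : ι → ι → Prop) (i j : ι) (z : ι → ℕ) : |gpK L i j z| ≤ 1 :=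
  gp_prod_abs _ _ fun _ => gp_prod_abs _ _ fun _ => gp_abs _ _ _ _ _

theorem gp_jp_upd (L : ι → ι → Prop) {i j : ι} (hij : i ≠ j) (h1 : ¬ L i i) (h2 : ¬ L j j)
    (h3 : ¬ L j i) (h4 : L i j) (z : ι → ℕ) (m n : ℕ) :
    jp L (gpU i j z m n) = gpK L i j z * gpA L i j z m * gpB L i j z n * jacobiSym m n := by
  have e1 : ∀ p : ι, ∏ q, gpG L p q (gpU i j z m n p) (gpU i j z m n q) =
      gpG L p i (gpU i j z m n p) m * gpG L p j (gpU i j z m n p) n *
        ∏ q ∈ gpS i j, gpG L p q (gpU i j z m n p) (z q) := by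
    intro p
    rw [gp_split hij, gpU_i hij, gpU_j]
    congr 1
    exact Finset.prod_congr rfl fun q hq => by rw [gpU_of hq]
  rw [gp_jp]
  simp only [e1]
  rw [gp_split hij, gpU_i hij, gpU_j]
  have e2 : ∏ l ∈ gpS i j, (gpG L l i (gpU i j z m n l) m * gpG L l j (gpU i j z m n l) n *
        ∏ q ∈ gpS i j, gpG L l q (gpU i j z m n l) (z q)) =
      (∏ p ∈ gpS i j, gpG L p i (z p) m) * (∏ p ∈ gpS i j, gpG L p j (z p) n) *
        gpK L i j z := by
    unfold gpK
    rw [← Finset.prod_mul_distrib, ← Finset.prod_mul_distrib]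
    exact Finset.prod_congr rfl fun q hq => by rw [gpU_of hq]
  rw [e2]
  have g1 : gpG L i i m m = 1 := if_neg h1
  have g2 : gpG L j j n n = 1 := if_neg h2
  have g3 : gpG L j i n m = 1 := if_neg h3
  have g4 : gpG L i j m n = jacobiSym m n := if_pos h4
  rw [g1, g2, g3, g4]
  unfold gpA gpB
  ring

/-- the decomposition of the sum -/
theorem gp_sum {i j : ι} (hij : i ≠ j) (N : ℕ) (hN : 1 ≤ N) (F : (ι → ℕ) → ℝ) :
    ∑ x ∈ Fintype.piFinset (fun _ : ι => Finset.Icc 1 N), F x =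
      ∑ z ∈ (Fintype.piFinset (fun _ : ι => Finset.Icc 1 N)).filter (fun z => z i = 1 ∧ z j = 1),
        ∑ m ∈ Finset.Icc 1 N, ∑ n ∈ Finset.Icc 1 N, F (gpU i j z m n) := by
  have e : ∀ z : ι → ℕ, ∑ m ∈ Finset.Icc 1 N, ∑ n ∈ Finset.Icc 1 N, F (gpU i j z m n) =
      ∑ p ∈ Finset.Icc 1 N ×ˢ Finset.Icc 1 N, F (gpU i j z p.1 p.2) := fun z => by
    rw [Finset.sum_product]
  simp only [e]
  rw [← Finset.sum_product']
  have hmemU : ∀ (z : ι → ℕ) (m n : ℕ), (∀ l, z l ∈ Finset.Icc 1 N) → m ∈ Finset.Icc 1 N →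
      n ∈ Finset.Icc 1 N → ∀ l, gpU i j z m n l ∈ Finset.Icc 1 N := by
    intro z m n hz hm hn l
    unfold gpU
    by_cases h1 : l = j
    · rw [h1, Function.update_self]
      exact hn
    · rw [Function.update_of_ne h1]
      by_cases h2 : l = i
      · rw [h2, Function.update_self]
        exact hm
      · rw [Function.update_of_ne h2]
        exact hz l
  have h1N : 1 ∈ Finset.Icc 1 N := Finset.mem_Icc.2 ⟨le_rfl, hN⟩
  refine Finset.sum_nbij' (fun x => (gpU i j x 1 1, (x i, x j)))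
    (fun y => gpU i j y.1 y.2.1 y.2.2) ?_ ?_ ?_ ?_ ?_
  · intro x hx
    have hx' := Fintype.mem_piFinset.1 hx
    refine Finset.mem_product.2 ⟨Finset.mem_filter.2 ⟨Fintype.mem_piFinset.2
      (hmemU x 1 1 hx' h1N h1N), gpU_i hij _ _ _, gpU_j _ _ _ _ _⟩,
      Finset.mem_product.2 ⟨hx' i, hx' j⟩⟩
  · rintro ⟨z, m, n⟩ hy
    obtain ⟨h1, h2⟩ := Finset.mem_product.1 hy
    obtain ⟨h3, -⟩ := Finset.mem_filter.1 h1
    obtain ⟨h4, h5⟩ := Finset.mem_product.1 h2
    exact Fintype.mem_piFinset.2 (hmemU z m n (Fintype.mem_piFinset.1 h3) h4 h5)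
  · intro x hx
    funext l
    show gpU i j (gpU i j x 1 1) (x i) (x j) l = x l
    by_cases h1 : l = j
    · rw [h1, gpU_j]
    · by_cases h2 : l = i
      · rw [h2, gpU_i hij]
      · unfold gpU
        rw [Function.update_of_ne h1, Function.update_of_ne h2, Function.update_of_ne h1,
          Function.update_of_ne h2]
  · rintro ⟨z, m, n⟩ hy
    obtain ⟨h1, h2⟩ := Finset.mem_product.1 hy
    obtain ⟨-, h3, h4⟩ := Finset.mem_filter.1 h1
    have h3' : z i = 1 := h3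
    have h4' : z j = 1 := h4
    refine Prod.ext ?_ (Prod.ext (gpU_i hij _ _ _) (gpU_j _ _ _ _ _))
    funext l
    show gpU i j (gpU i j z m n) 1 1 l = z l
    by_cases h1 : l = j
    · rw [h1, gpU_j, h4']
    · by_cases h2 : l = i
      · rw [h2, gpU_i hij, h3']
      · unfold gpU
        rw [Function.update_of_ne h1, Function.update_of_ne h2, Function.update_of_ne h1,
          Function.update_of_ne h2]
  · intro x hx
    congr 1
    funext l
    show x l = gpU i j (gpU i j x 1 1) (x i) (x j) l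
    by_cases h1 : l = j
    · rw [h1, gpU_j]
    · by_cases h2 : l = i
      · rw [h2, gpU_i hij]
      · unfold gpU
        rw [Function.update_of_ne h1, Function.update_of_ne h2, Function.update_of_ne h1,
          Function.update_of_ne h2]

theorem gp_sqf (m n D : ℕ) : Squarefree (2 * (m * n * D)) ↔
    Squarefree (2 * D) ∧ (Squarefree m ∧ m.Coprime (2 * D)) ∧ (Squarefree n ∧ n.Coprime (2 * D)) ∧
      m.Coprime n := by
  have e : 2 * (m * n * D) = m * n * (2 * D) := by ring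
  rw [e, Nat.squarefree_mul_iff, Nat.squarefree_mul_iff, Nat.coprime_mul_iff_left]
  tauto

end

end Pool.Agent.H98.MK
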