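import Mathlib

/-!
# Project MK (MP_a3214d): definitions for the analytic part
-/

set_option autoImplicit false

open scoped BigOperators

namespace Pool.Agent.H98.MK

/-- the real characters modulo eight -/
def psi (c : Fin 4) (m : ℕ) : ℤ :=
  if c = 0 then 1 else if c = 1 then jacobiSym (-1) m else if c = 2 then jacobiSym 2 m
  else jacobiSym (-2) m

open Classical in
/-- weight exponents -/
noncomputable def we {ι : Type} (iso : ι → Prop) (i : ι) : ℝ := if iso i then 1 else 3 / 2

open Classical in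
/-- the product of the symbols -/
noncomputable def jp {ι : Type} [Fintype ι] (L : ι → ι → Prop) (x : ι → ℕ) : ℤ :=
  ∏ i, ∏ j, if L i j then jacobiSym (x i) (x j) else 1

open Classical in
/-- the basic sums, with exact support -/
noncomputable def TS {ι : Type} [Fintype ι] (iso : ι → Prop) (L : ι → ι → Prop)
    (c : ι → Fin 4) (Y : ℝ) : ℝ :=
  ∑ x ∈ Fintype.piFinset (fun _ : ι => Finset.Icc 2 ⌊Y⌋₊),
    if Squarefree (2 * ∏ i, x i) ∧ ∏ i, (x i : ℝ) ^ we iso i ≤ Y
    then (((∏ i, psi (c i) (x i)) * jp L x : ℤ) : ℝ) else 0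

open Classical in
/-- the sums with arbitrary one-variable weights -/
noncomputable def GS {ι : Type} [Fintype ι] (iso : ι → Prop) (L : ι → ι → Prop)
    (a : ι → ℕ → ℝ) (Y : ℝ) : ℝ :=
  ∑ x ∈ Fintype.piFinset (fun _ : ι => Finset.Icc 1 ⌊Y⌋₊),
    if Squarefree (2 * ∏ i, x i) ∧ ∏ i, (x i : ℝ) ^ we iso i ≤ Y
    then (∏ i, a i (x i)) * (jp L x : ℝ) else 0

end Pool.Agent.H98.MK
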