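import Pool.Agent.H98.MK.ADefs

/-!
# Project MK: reciprocity for the product of symbols in one variable
-/

set_option autoImplicit false

open scoped BigOperators
open Filter

namespace Pool.Agent.H98.MK

private lemma psi_zero (n : ℕ) : psi 0 n = 1 := by simp [psi]

private lemma psi_one (n : ℕ) : psi 1 n = jacobiSym (-1) n := by simp [psi]

private lemma psi_two (n : ℕ) : psi 2 n = jacobiSym 2 n := by
  unfold psi
  rw [if_neg (by decide), if_neg (by decide), if_pos rfl]

private lemma psi_three (n : ℕ) : psi 3 n = jacobiSym (-2) n := by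
  unfold psi
  rw [if_neg (by decide), if_neg (by decide), if_neg (by decide)]

private lemma recip_flip (y : ℕ) (hy : Odd y) : ∃ e : Fin 2, ∀ n : ℕ, Odd n →
    jacobiSym y n = jacobiSym n y * (if e = 0 then psi 0 n else psi 1 n) := by
  rcases Nat.odd_mod_four_iff.1 (Nat.odd_iff.1 hy) with h | h
  · refine ⟨0, fun n hn => ?_⟩
    rw [if_pos rfl, psi_zero, mul_one]
    exact jacobiSym.quadratic_reciprocity_one_mod_four h hn
  · refine ⟨1, fun n hn => ?_⟩
    rw [if_neg (by decide), psi_one, jacobiSym.at_neg_one hn]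
    rcases Nat.odd_mod_four_iff.1 (Nat.odd_iff.1 hn) with h' | h'
    · rw [ZMod.χ₄_nat_one_mod_four h', mul_one]
      exact (jacobiSym.quadratic_reciprocity_one_mod_four h' hy).symm
    · rw [ZMod.χ₄_nat_three_mod_four h', mul_neg_one]
      exact jacobiSym.quadratic_reciprocity_three_mod_four h h'

private lemma recip_closed (c : Fin 4) : ∃ c' : Fin 4, ∀ n : ℕ,
    psi c n * psi 1 n = psi c' n := by
  have hc : c = 0 ∨ c = 1 ∨ c = 2 ∨ c = 3 := by
    revert c
    decide
  rcases hc with rfl | rfl | rfl | rfl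
  · exact ⟨1, fun n => by rw [psi_zero, one_mul]⟩
  · exact ⟨0, fun n => by rw [psi_one, psi_zero, ← jacobiSym.mul_left]; norm_num⟩
  · exact ⟨3, fun n => by rw [psi_two, psi_one, psi_three, ← jacobiSym.mul_left]; norm_num⟩
  · exact ⟨2, fun n => by rw [psi_three, psi_one, psi_two, ← jacobiSym.mul_left]; norm_num⟩

private lemma recip_B {κ : Type} [DecidableEq κ] (B : Finset κ) (y : κ → ℕ)
    (hy : ∀ j, Odd (y j)) (c : Fin 4) : ∃ c' : Fin 4, (B = ∅ → c' = c) ∧ ∀ n : ℕ, Odd n →
      psi c n * (∏ j ∈ B, jacobiSym (y j) n) = (∏ j ∈ B, jacobiSym n (y j)) * psi c' n := by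
  induction B using Finset.induction_on with
  | empty => exact ⟨c, fun _ => rfl, fun n _ => by simp⟩
  | insert i B hi ih =>
    obtain ⟨c', -, h⟩ := ih
    obtain ⟨e, he⟩ := recip_flip (y i) (hy i)
    obtain ⟨c'', hc''⟩ := recip_closed c'
    by_cases he0 : e = 0
    · refine ⟨c', fun h0 => absurd h0 (Finset.insert_ne_empty _ _), fun n hn => ?_⟩
      rw [Finset.prod_insert hi, Finset.prod_insert hi, he n hn, if_pos he0, psi_zero, mul_one]
      linear_combination jacobiSym n (y i) * h n hn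
    · refine ⟨c'', fun h0 => absurd h0 (Finset.insert_ne_empty _ _), fun n hn => ?_⟩
      rw [Finset.prod_insert hi, Finset.prod_insert hi, he n hn, if_neg he0, ← hc'' n]
      linear_combination jacobiSym n (y i) * psi 1 n * h n hn

private lemma recip_prod {κ : Type} [DecidableEq κ] (S : Finset κ) (y : κ → ℕ)
    (hy : ∀ j, Odd (y j)) (n : ℕ) :
    jacobiSym n (∏ j ∈ S, y j) = ∏ j ∈ S, jacobiSym n (y j) := by
  induction S using Finset.induction_on with
  | empty => simp
  | insert i S hi ih =>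
    rw [Finset.prod_insert hi, Finset.prod_insert hi, ← ih]
    refine jacobiSym.mul_right' _ (hy i).pos.ne' ?_
    exact Finset.prod_ne_zero_iff.2 fun j _ => (hy j).pos.ne'

/-- reciprocity: the symbols at the variable `n` -/
theorem recip {κ : Type} [Fintype κ] [DecidableEq κ] (A B : Finset κ) (hAB : Disjoint A B)
    (y : κ → ℕ) (hy : ∀ j, Odd (y j)) (c : Fin 4) : ∃ c' : Fin 4, (A ∪ B = ∅ → c' = c) ∧
      ∀ n : ℕ, Odd n → psi c n * (∏ j ∈ A, jacobiSym n (y j)) * (∏ j ∈ B, jacobiSym (y j) n) =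
        jacobiSym n (∏ j ∈ A ∪ B, y j) * psi c' n := by
  obtain ⟨c', h0, h⟩ := recip_B B y hy c
  refine ⟨c', fun h1 => h0 (Finset.union_eq_empty.1 h1).2, fun n hn => ?_⟩
  rw [recip_prod _ y hy n, Finset.prod_union hAB]
  linear_combination (∏ j ∈ A, jacobiSym n (y j)) * h n hn

end Pool.Agent.H98.MK
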