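import Pool.Agent.H98.MK.GSChar2
import Pool.Agent.H98.MK.Recip

/-!
# Project MK, row A4: a nontrivial character in a large variable
-/

set_option autoImplicit false

open scoped BigOperators
open Filter

namespace Pool.Agent.H98.MK

open Classical in
/-- the bound of a single inner sum, with all data -/
theorem a4_term {ι : Type} [Fintype ι] (iso : ι → Prop) (L : ι → ι → Prop)
    (hL : ∀ i j, L i j → ¬ L j i) (i : ι) (hi : iso i) (c : Fin 4)
    (hc : c ≠ 0 ∨ ∃ j, L i j ∨ L j i) (a : ι → ℕ → ℝ) (P K Y : ℝ) (ha : ∀ l n, |a l n| ≤ 1)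
    (hP : 1 ≤ P) (hK : 1 ≤ K) (hY : 1 ≤ Y)
    (hai : ∀ n : ℕ, a i n = if K < n then (psi c n : ℝ) else 0)
    (haj : ∀ j, L i j ∨ L j i → ∀ n, a j n ≠ 0 → 2 ≤ n ∧ (n : ℝ) ≤ P)
    (z : ι → ℕ) (hz1 : ∀ j, 1 ≤ z j) (hzi : z i = 1) (D : (x : ι → ℕ) →
      Decidable (Squarefree (2 * ∏ j, x j) ∧ ∏ j, (x j : ℝ) ^ we iso j ≤ Y)) :
    |∑ n ∈ Finset.Icc 1 ⌊Y⌋₊, @ite ℝ (Squarefree (2 * ∏ j, Function.update z i n j) ∧
        ∏ j, (Function.update z i n j : ℝ) ^ we iso j ≤ Y) (D (Function.update z i n))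
        ((∏ j, a j (Function.update z i n j)) * (jp L (Function.update z i n) : ℝ)) 0| ≤
      8 * Real.sqrt 8 * Y * (P ^ (Fintype.card ι) / K) ^ (1 / 2 : ℝ) *
        ∏ j, ((Nat.divisors (z j)).card : ℝ) / (z j) := by
  have hLi : ¬ L i i := fun h => hL _ _ h h
  have hwe : we iso i = 1 := by
    unfold we
    rw [if_pos hi]
  have hw1 : ∀ j, 1 ≤ we iso j := fun j => by
    unfold we
    split_ifs <;> norm_num
  obtain ⟨m, hmd⟩ : ∃ m : ℕ, m = ∏ j, z j := ⟨_, rfl⟩
  obtain ⟨W, hWd⟩ : ∃ W : ℝ, W = ∏ j, (z j : ℝ) ^ we iso j := ⟨_, rfl⟩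
  obtain ⟨Ap, hApd⟩ : ∃ Ap : ℝ, Ap = ∏ j ∈ Finset.univ.erase i, a j (z j) := ⟨_, rfl⟩
  have hm : 0 < m := by
    rw [hmd]
    exact Finset.prod_pos fun j _ => hz1 j
  have hzr : ∀ j, (1 : ℝ) ≤ z j := fun j => by exact_mod_cast hz1 j
  have hmW : (m : ℝ) ≤ W := by
    rw [hmd, hWd]
    push_cast
    refine Finset.prod_le_prod (fun j _ => by positivity) fun j _ => ?_
    calc (z j : ℝ) = (z j : ℝ) ^ (1 : ℝ) := (Real.rpow_one _).symm
      _ ≤ _ := Real.rpow_le_rpow_of_exponent_le (hzr j) (hw1 j)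
  have hm1 : (1 : ℝ) ≤ m := by exact_mod_cast hm
  have hW1 : 1 ≤ W := hm1.trans hmW
  have hW0 : 0 < W := by linarith
  have eprod : ∀ n, ∏ j, Function.update z i n j = n * m := fun n => by
    have h1 := a4_upd (M := ℕ) i z n (fun _ x => x)
    have h2 : m = z i * ∏ j ∈ Finset.univ.erase i, z j := by
      rw [hmd]
      exact (Finset.mul_prod_erase Finset.univ _ (Finset.mem_univ i)).symm
    rw [h1, h2, hzi, one_mul]
  have eW : ∀ n : ℕ, ∏ j, (Function.update z i n j : ℝ) ^ we iso j = n * W := fun n => by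
    have h1 := a4_upd (M := ℝ) i z n (fun j x => (x : ℝ) ^ we iso j)
    have h2 : W = (z i : ℝ) ^ we iso i * ∏ j ∈ Finset.univ.erase i, (z j : ℝ) ^ we iso j := by
      rw [hWd]
      exact (Finset.mul_prod_erase Finset.univ (fun j => (z j : ℝ) ^ we iso j)
        (Finset.mem_univ i)).symm
    rw [h1, h2, hzi, hwe, Real.rpow_one, Nat.cast_one, Real.rpow_one, one_mul]
  have eA : ∀ n : ℕ, ∏ j, a j (Function.update z i n j) = a i n * Ap := fun n => by
    rw [hApd]
    exact a4_upd (M := ℝ) i z n (fun j x => a j x)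
  have hAp : |Ap| ≤ 1 := by
    rw [hApd, Finset.abs_prod]
    exact Finset.prod_le_one (fun _ _ => abs_nonneg _) fun j _ => ha _ _
  have hK0 : 0 < K := by linarith
  have hP0 : 0 < P := by linarith
  have hY0 : 0 < Y := by linarith
  have hs8 : 0 ≤ Real.sqrt 8 := Real.sqrt_nonneg _
  have hR : 0 ≤ 8 * Real.sqrt 8 * Y * (P ^ (Fintype.card ι) / K) ^ (1 / 2 : ℝ) *
        ∏ j, ((Nat.divisors (z j)).card : ℝ) / (z j) :=
    mul_nonneg (mul_nonneg (mul_nonneg (mul_nonneg (by norm_num) hs8) hY0.le)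
      (Real.rpow_nonneg (div_nonneg (pow_nonneg hP0.le _) hK0.le) _))
      (Finset.prod_nonneg fun j _ => div_nonneg (Nat.cast_nonneg _) (Nat.cast_nonneg _))
  by_cases h0 : Squarefree (2 * m) ∧ Ap ≠ 0
  swap
  · have e0 : (∑ n ∈ Finset.Icc 1 ⌊Y⌋₊, @ite ℝ (Squarefree (2 * ∏ j, Function.update z i n j) ∧
        ∏ j, (Function.update z i n j : ℝ) ^ we iso j ≤ Y) (D (Function.update z i n))
        ((∏ j, a j (Function.update z i n j)) * (jp L (Function.update z i n) : ℝ)) 0) = 0 := by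
      refine Finset.sum_eq_zero fun n _ => ?_
      by_cases hA : Ap = 0
      · rw [eA, hA, mul_zero, zero_mul]
        exact ite_self _
      · rw [if_neg]
        rintro ⟨h, -⟩
        apply h0
        refine ⟨?_, hA⟩
        rw [eprod] at h
        exact h.squarefree_of_dvd ⟨n, by ring⟩
    rw [e0, abs_zero]
    exact hR
  obtain ⟨hsf, hAp0⟩ := h0
  have hane : ∀ j, j ≠ i → a j (z j) ≠ 0 := fun j hj => by
    rw [hApd] at hAp0
    exact Finset.prod_ne_zero_iff.1 hAp0 j (Finset.mem_erase.2 ⟨hj, Finset.mem_univ _⟩)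
  obtain ⟨A, hAd⟩ : ∃ A : Finset ι, A = Finset.univ.filter fun k => L i k := ⟨_, rfl⟩
  obtain ⟨B, hBd⟩ : ∃ B : Finset ι, B = Finset.univ.filter fun j => L j i := ⟨_, rfl⟩
  have hAm : ∀ j, j ∈ A ↔ L i j := fun j => by
    rw [hAd, Finset.mem_filter]
    exact ⟨fun h => h.2, fun h => ⟨Finset.mem_univ _, h⟩⟩
  have hBm : ∀ j, j ∈ B ↔ L j i := fun j => by
    rw [hBd, Finset.mem_filter]
    exact ⟨fun h => h.2, fun h => ⟨Finset.mem_univ _, h⟩⟩
  have hAB : Disjoint A B := by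
    rw [Finset.disjoint_left]
    intro j h1 h2
    exact hL _ _ ((hAm j).1 h1) ((hBm j).1 h2)
  have hmodd : Odd m := by
    have h : Nat.Coprime 2 m := (Nat.squarefree_mul_iff.1 hsf).1
    exact (Nat.coprime_two_left).1 h
  have hmsf : Squarefree m := (Nat.squarefree_mul_iff.1 hsf).2.2
  have hodd : ∀ j, Odd (z j) := fun j => by
    rw [hmd] at hmodd
    exact Odd.of_dvd_nat hmodd (Finset.dvd_prod_of_mem z (Finset.mem_univ j))
  obtain ⟨c', hc'1, hc'2⟩ := recip A B hAB z hodd c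
  obtain ⟨Q, hQd⟩ : ∃ Q : ℕ, Q = ∏ j ∈ A ∪ B, z j := ⟨_, rfl⟩
  rw [← hQd] at hc'2
  have hQm : Q ∣ m := by
    rw [hQd, hmd]
    exact Finset.prod_dvd_prod_of_subset _ _ _ (Finset.subset_univ _)
  have hQodd : Odd Q := Odd.of_dvd_nat hmodd hQm
  have hQsf : Squarefree Q := hmsf.squarefree_of_dvd hQm
  have hlink : ∀ j ∈ A ∪ B, 2 ≤ z j ∧ (z j : ℝ) ≤ P := by
    intro j hj
    have hj' : L i j ∨ L j i := by
      rcases Finset.mem_union.1 hj with h | h
      · exact Or.inl ((hAm j).1 h)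
      · exact Or.inr ((hBm j).1 h)
    refine haj j hj' (z j) (hane j ?_)
    rintro rfl
    rcases hj' with h | h <;> exact hLi h
  have hQc : Q ≠ 1 ∨ c' ≠ 0 := by
    by_cases hE : A ∪ B = ∅
    · right
      rw [hc'1 hE]
      rcases hc with h | ⟨j, hj⟩
      · exact h
      · exfalso
        have : j ∈ A ∪ B := by
          rw [Finset.mem_union]
          rcases hj with h | h
          · exact Or.inl ((hAm j).2 h)
          · exact Or.inr ((hBm j).2 h)
        rw [hE] at this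
        exact absurd this (Finset.notMem_empty j)
    · left
      obtain ⟨j, hj⟩ := Finset.nonempty_iff_ne_empty.2 hE
      intro hQ
      have h1 : z j ∣ Q := by
        rw [hQd]
        exact Finset.dvd_prod_of_mem z hj
      rw [hQ] at h1
      have h2 := Nat.dvd_one.1 h1
      have h3 := (hlink j hj).1
      omega
  have hQP : (Q : ℝ) ≤ P ^ (Fintype.card ι) := by
    rw [hQd]
    push_cast
    calc ∏ j ∈ A ∪ B, (z j : ℝ) ≤ ∏ j ∈ A ∪ B, P :=
          Finset.prod_le_prod (fun j _ => by positivity) fun j hj => (hlink j hj).2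
      _ = P ^ (A ∪ B).card := by rw [Finset.prod_const]
      _ ≤ P ^ (Fintype.card ι) := pow_le_pow_right₀ hP (Finset.card_le_univ _)
  have hQ1 : (1 : ℝ) ≤ Q := by exact_mod_cast hQodd.pos
  have hX0 : 0 ≤ Y / W := by positivity
  have hXY : Y / W ≤ Y := div_le_self hY0.le hW1
  have key := a4_inner (a4_chi Q c') (a4_chi_mul Q c') (a4_chi_abs Q c') (8 * Q)
    (by linarith) (a4_chi_sum Q hQodd hQsf c' hQc) m hm K (Y / W) hK hX0 ⌊Y⌋₊
    (Nat.floor_le_floor hXY)
  have e1 : (∑ n ∈ Finset.Icc 1 ⌊Y⌋₊, @ite ℝ (Squarefree (2 * ∏ j, Function.update z i n j) ∧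
        ∏ j, (Function.update z i n j : ℝ) ^ we iso j ≤ Y) (D (Function.update z i n))
        ((∏ j, a j (Function.update z i n j)) * (jp L (Function.update z i n) : ℝ)) 0) =
      (Ap * (jp L z : ℝ)) * ∑ n ∈ Finset.Icc 1 ⌊Y⌋₊,
        if (Squarefree n ∧ Nat.Coprime n m) ∧ K < n ∧ (n : ℝ) ≤ Y / W
        then a4_chi Q c' n else 0 := by
    rw [Finset.mul_sum]
    refine Finset.sum_congr rfl fun n hn => ?_
    have hiff : (n : ℝ) ≤ Y / W ↔ n * W ≤ Y := le_div_iff₀ hW0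
    have hsq : Squarefree (2 * (n * m)) ↔ (Squarefree n ∧ Nat.Coprime n m) ∧ Odd n := by
      have e : 2 * (n * m) = n * (2 * m) := by ring
      rw [e, Nat.squarefree_mul_iff, Nat.coprime_mul_iff_right, Nat.coprime_two_right]
      tauto
    rw [eA, hai]
    by_cases c1 : (Squarefree n ∧ Nat.Coprime n m) ∧ K < n ∧ (n : ℝ) ≤ Y / W
    · rw [if_pos c1, if_pos c1.2.1]
      by_cases c2 : Odd n
      · rw [if_pos ⟨by rw [eprod]; exact hsq.2 ⟨c1.1, c2⟩, by rw [eW]; exact hiff.1 c1.2.2⟩]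
        have h := hc'2 n c2
        rw [a4_jp L hL i z hzi n]
        unfold a4_chi
        rw [if_pos c2]
        have h' : psi c n * (∏ k, if L i k then jacobiSym n (z k) else 1) *
            (∏ j, if L j i then jacobiSym (z j) n else 1) = jacobiSym n Q * psi c' n := by
          rw [← h, hAd, hBd, Finset.prod_filter, Finset.prod_filter]
        rw [← h']
        push_cast
        ring
      · rw [if_neg]
        · unfold a4_chi
          rw [if_neg c2, mul_zero]
        · rintro ⟨h, -⟩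
          rw [eprod] at h
          exact c2 (hsq.1 h).2
    · rw [if_neg c1, mul_zero]
      by_cases c3 : K < n
      · rw [if_neg]
        rintro ⟨h, h'⟩
        rw [eprod] at h
        rw [eW] at h'
        exact c1 ⟨(hsq.1 h).1, c3, hiff.2 h'⟩
      · rw [if_neg c3, zero_mul, zero_mul]
        exact ite_self _
  rw [e1, abs_mul, abs_mul]
  have hJ := a4_jp_abs L z
  have hAJ : |Ap| * |((jp L z : ℤ) : ℝ)| ≤ 1 := mul_le_one₀ hAp (abs_nonneg _) hJ
  refine (mul_le_of_le_one_left (abs_nonneg _) hAJ).trans (key.trans ?_)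
  have hq : Real.sqrt (8 * Q) ≤ Real.sqrt 8 * Real.sqrt (P ^ (Fintype.card ι)) := by
    rw [← Real.sqrt_mul (by norm_num)]
    exact Real.sqrt_le_sqrt (by linarith)
  have hpow : (P ^ (Fintype.card ι) / K) ^ (1 / 2 : ℝ) =
      Real.sqrt (P ^ (Fintype.card ι)) / Real.sqrt K := by
    rw [← Real.sqrt_eq_rpow, Real.sqrt_div (by positivity)]
  have htau : ((Nat.divisors m).card : ℝ) ≤ ∏ j, ((Nat.divisors (z j)).card : ℝ) := by
    have := a4_tau_prod Finset.univ z
    rw [← hmd] at this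
    exact_mod_cast this
  have hYW : Y / W ≤ Y / m := div_le_div_of_nonneg_left hY0.le (by linarith) hmW
  have hsK : 0 < Real.sqrt K := Real.sqrt_pos.2 hK0
  have hpr : ∏ j, ((Nat.divisors (z j)).card : ℝ) / (z j) =
      (∏ j, ((Nat.divisors (z j)).card : ℝ)) / m := by
    rw [Finset.prod_div_distrib, hmd]
    push_cast
    rfl
  rw [hpow, hpr]
  have t0 : (0 : ℝ) ≤ ∏ j, ((Nat.divisors (z j)).card : ℝ) :=
    Finset.prod_nonneg fun j _ => Nat.cast_nonneg _
  obtain ⟨u, hu⟩ : ∃ u : ℝ, u = ∏ j, ((Nat.divisors (z j)).card : ℝ) := ⟨_, rfl⟩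
  rw [← hu] at htau t0 ⊢
  have hsP : 0 ≤ Real.sqrt (P ^ (Fintype.card ι)) := Real.sqrt_nonneg _
  calc 8 * ((Nat.divisors m).card : ℝ) * Real.sqrt (8 * Q) * (Y / W / Real.sqrt K)
      ≤ 8 * u * (Real.sqrt 8 * Real.sqrt (P ^ (Fintype.card ι))) * (Y / m / Real.sqrt K) :=
        mul_le_mul (mul_le_mul (mul_le_mul_of_nonneg_left htau (by norm_num)) hq
          (Real.sqrt_nonneg _) (mul_nonneg (by norm_num) t0))
          (div_le_div_of_nonneg_right hYW hsK.le)
          (div_nonneg hX0 hsK.le) (mul_nonneg (mul_nonneg (by norm_num) t0)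
            (mul_nonneg hs8 hsP))
    _ = 8 * Real.sqrt 8 * Y * (Real.sqrt (P ^ (Fintype.card ι)) / Real.sqrt K) * (u / m) := by
        ring

/-- a nontrivial character in a large variable -/
theorem GS_char {ι : Type} [Fintype ι] (iso : ι → Prop) (L : ι → ι → Prop)
    (hL : ∀ i j, L i j → ¬ L j i) (i : ι) (hi : iso i) (c : Fin 4)
    (hc : c ≠ 0 ∨ ∃ j, L i j ∨ L j i) :
    ∃ C : ℝ, ∃ k : ℕ, ∀ (a : ι → ℕ → ℝ) (P K Y : ℝ), (∀ l n, |a l n| ≤ 1) → 1 ≤ P → 1 ≤ K →
      1 ≤ Y → (∀ n : ℕ, a i n = if K < n then (psi c n : ℝ) else 0) →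
      (∀ j, L i j ∨ L j i → ∀ n, a j n ≠ 0 → 2 ≤ n ∧ (n : ℝ) ≤ P) →
      |GS iso L a Y| ≤ C * Y * (P ^ (Fintype.card ι) / K) ^ (1 / 2 : ℝ) *
        (1 + Real.log Y) ^ k := by
  classical
  refine ⟨8 * Real.sqrt 8, 2 * Fintype.card ι, ?_⟩
  intro a P K Y ha hP hK hY hai haj
  have hlog : 0 ≤ Real.log Y := Real.log_nonneg hY
  have hK0 : 0 < K := by linarith
  have hP0 : 0 < P := by linarith
  have hY0 : 0 < Y := by linarith
  unfold GS
  rw [a4_split i]
  refine (Finset.abs_sum_le_sum_abs _ _).trans ?_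
  have h1 : ∀ z ∈ Fintype.piFinset
      (fun j : ι => if j = i then ({1} : Finset ℕ) else Finset.Icc 1 ⌊Y⌋₊),
      |∑ n ∈ Finset.Icc 1 ⌊Y⌋₊, if Squarefree (2 * ∏ j, Function.update z i n j) ∧
        ∏ j, (Function.update z i n j : ℝ) ^ we iso j ≤ Y then
        (∏ j, a j (Function.update z i n j)) * (jp L (Function.update z i n) : ℝ) else 0| ≤
      8 * Real.sqrt 8 * Y * (P ^ (Fintype.card ι) / K) ^ (1 / 2 : ℝ) *
        ∏ j, ((Nat.divisors (z j)).card : ℝ) / (z j) := by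
    intro z hz
    rw [Fintype.mem_piFinset] at hz
    have hzi : z i = 1 := by
      have := hz i
      rw [if_pos rfl, Finset.mem_singleton] at this
      exact this
    refine a4_term iso L hL i hi c hc a P K Y ha hP hK hY hai haj z (fun j => ?_) hzi _
    by_cases hj : j = i
    · rw [hj, hzi]
    · have := hz j
      rw [if_neg hj] at this
      exact (Finset.mem_Icc.1 this).1
  refine (Finset.sum_le_sum h1).trans ?_
  rw [← Finset.mul_sum]
  refine mul_le_mul_of_nonneg_left ?_ (mul_nonneg (mul_nonneg (mul_nonneg (by norm_num)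
    (Real.sqrt_nonneg _)) hY0.le)
    (Real.rpow_nonneg (div_nonneg (pow_nonneg hP0.le _) hK0.le) _))
  have h2 := Finset.prod_univ_sum
    (fun j : ι => if j = i then ({1} : Finset ℕ) else Finset.Icc 1 ⌊Y⌋₊)
    (fun (_ : ι) (n : ℕ) => ((Nat.divisors n).card : ℝ) / n)
  rw [← h2]
  calc ∏ j : ι, ∑ n ∈ (if j = i then ({1} : Finset ℕ) else Finset.Icc 1 ⌊Y⌋₊),
        ((Nat.divisors n).card : ℝ) / n ≤ ∏ _j : ι, (1 + Real.log Y) ^ 2 := by
        refine Finset.prod_le_prod (fun j _ => Finset.sum_nonneg fun n _ => by positivity)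
          fun j _ => ?_
        by_cases hj : j = i
        · rw [if_pos hj, Finset.sum_singleton]
          have h3 : ((Nat.divisors 1).card : ℝ) / ((1 : ℕ) : ℝ) = 1 := by simp
          rw [h3]
          exact one_le_pow₀ (by linarith)
        · rw [if_neg hj]
          refine (a4_tau_sum _).trans ?_
          exact pow_le_pow_left₀ (Finset.sum_nonneg fun n _ => by positivity)
            (a4_harm _ Y hY rfl) 2
    _ = (1 + Real.log Y) ^ (2 * Fintype.card ι) := by
        rw [Finset.prod_const, Finset.card_univ, ← pow_mul]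

end Pool.Agent.H98.MK
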