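import Pool.Agent.H98.MK.GSPair1

/-!
# Project MK: a linked isotropic pair, both large (the bound)
-/

set_option autoImplicit false

open scoped BigOperators
open Filter

namespace Pool.Agent.H98.MK

section

variable {ι : Type} [Fintype ι] [DecidableEq ι]

open Classical in
/-- the bilinear bound, with the constant `C` -/
def GPBil (C : ℝ) : Prop := ∀ (P x : ℝ) (a b : ℕ → ℝ), 1 ≤ P → 1 ≤ x → (∀ m, |a m| ≤ 1) →
    (∀ n, |b n| ≤ 1) → (∀ n, a n ≠ 0 → P < n ∧ Odd n ∧ Squarefree n) →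
    (∀ n, b n ≠ 0 → P < n ∧ Odd n ∧ Squarefree n) →
    |∑ m ∈ Finset.Icc 1 ⌊x⌋₊, ∑ n ∈ Finset.Icc 1 ⌊x⌋₊,
      if (m * n : ℝ) ≤ x then a m * b n * (jacobiSym m n : ℝ) else 0| ≤
      C * x * P ^ (-(1 / 12) : ℝ) * (1 + Real.log x) ^ 2

/-- the one-variable indicator -/
noncomputable def gpI (D m : ℕ) : ℝ :=
  open Classical in if Squarefree m ∧ m.Coprime (2 * D) then 1 else 0

theorem gpI_abs (D m : ℕ) : |gpI D m| ≤ 1 := by
  unfold gpI
  split_ifs <;> norm_num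

theorem gpI_ne {D m : ℕ} (h : gpI D m ≠ 0) : Odd m ∧ Squarefree m := by
  unfold gpI at h
  split_ifs at h with h1
  · exact ⟨Nat.coprime_two_right.1 (Nat.Coprime.coprime_dvd_right (Dvd.intro _ rfl) h1.2), h1.1⟩
  · exact absurd rfl h

open Classical in
theorem gp_term (iso : ι → Prop) (L : ι → ι → Prop) {i j : ι} (hij : i ≠ j) (h1 : ¬ L i i)
    (h2 : ¬ L j j) (h3 : ¬ L j i) (h4 : L i j) (hi : iso i) (hj : iso j) (a : ι → ℕ → ℝ) (Y : ℝ)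
    (z : ι → ℕ) (hz : ∀ l, 1 ≤ z l) (m n : ℕ) (hn : 1 ≤ n) :
    (if Squarefree (2 * ∏ l, gpU i j z m n l) ∧ ∏ l, (gpU i j z m n l : ℝ) ^ we iso l ≤ Y
      then (∏ l, a l (gpU i j z m n l)) * (jp L (gpU i j z m n) : ℝ) else 0) =
    if Squarefree (2 * ∏ l ∈ gpS i j, z l) then
      ((∏ l ∈ gpS i j, a l (z l)) * (gpK L i j z : ℝ)) *
      (if (m * n : ℝ) ≤ Y / ∏ l ∈ gpS i j, (z l : ℝ) ^ we iso l then
        (a i m * (gpA L i j z m : ℝ) * gpI (∏ l ∈ gpS i j, z l) m) *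
        (a j n * (gpB L i j z n : ℝ) * gpI (∏ l ∈ gpS i j, z l) n) * (jacobiSym m n : ℝ) else 0)
      else 0 := by
  have hw : 0 < ∏ l ∈ gpS i j, (z l : ℝ) ^ we iso l :=
    Finset.prod_pos fun l _ => Real.rpow_pos_of_pos (by exact_mod_cast hz l) _
  have e1 : ∏ l, gpU i j z m n l = m * n * ∏ l ∈ gpS i j, z l := by
    rw [gp_split hij, gpU_i hij, gpU_j]
    congr 1
    exact Finset.prod_congr rfl fun l hl => gpU_of hl _ _ _
  have e2 : ∏ l, (gpU i j z m n l : ℝ) ^ we iso l =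
      m * n * ∏ l ∈ gpS i j, (z l : ℝ) ^ we iso l := by
    have w1 : we iso i = 1 := if_pos hi
    have w2 : we iso j = 1 := if_pos hj
    rw [gp_split hij, gpU_i hij, gpU_j, w1, w2, Real.rpow_one, Real.rpow_one]
    congr 1
    exact Finset.prod_congr rfl fun l hl => by rw [gpU_of hl]
  have e3 : ∏ l, a l (gpU i j z m n l) = a i m * a j n * ∏ l ∈ gpS i j, a l (z l) := by
    rw [gp_split hij, gpU_i hij, gpU_j]
    congr 1
    exact Finset.prod_congr rfl fun l hl => by rw [gpU_of hl]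
  rw [e1, e2, e3, gp_jp_upd L hij h1 h2 h3 h4]
  have hiff : (Squarefree (2 * (m * n * ∏ l ∈ gpS i j, z l)) ∧
      m * n * ∏ l ∈ gpS i j, (z l : ℝ) ^ we iso l ≤ Y) ↔
      (Squarefree (2 * ∏ l ∈ gpS i j, z l) ∧ (Squarefree m ∧ m.Coprime (2 * ∏ l ∈ gpS i j, z l)) ∧
        (Squarefree n ∧ n.Coprime (2 * ∏ l ∈ gpS i j, z l)) ∧ m.Coprime n) ∧
      (m * n : ℝ) ≤ Y / ∏ l ∈ gpS i j, (z l : ℝ) ^ we iso l := by
    rw [gp_sqf, le_div_iff₀ hw]
  unfold gpI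
  by_cases c1 : Squarefree (2 * ∏ l ∈ gpS i j, z l)
  swap
  · rw [if_neg (fun h => c1 (hiff.1 h).1.1), if_neg c1]
  rw [if_pos c1]
  by_cases c2 : (m * n : ℝ) ≤ Y / ∏ l ∈ gpS i j, (z l : ℝ) ^ we iso l
  swap
  · rw [if_neg (fun h => c2 (hiff.1 h).2), if_neg c2, mul_zero]
  rw [if_pos c2]
  by_cases c3 : Squarefree m ∧ m.Coprime (2 * ∏ l ∈ gpS i j, z l)
  swap
  · rw [if_neg (fun h => c3 (hiff.1 h).1.2.1), if_neg c3]
    ring
  by_cases c4 : Squarefree n ∧ n.Coprime (2 * ∏ l ∈ gpS i j, z l)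
  swap
  · rw [if_neg (fun h => c4 (hiff.1 h).1.2.2.1), if_neg c4]
    ring
  rw [if_pos c3, if_pos c4]
  by_cases c5 : m.Coprime n
  swap
  · rw [if_neg (fun h => c5 (hiff.1 h).1.2.2.2)]
    have : NeZero n := ⟨by omega⟩
    have h0 : jacobiSym m n = 0 := by
      rw [jacobiSym.eq_zero_iff_not_coprime]
      intro h
      exact c5 h
    rw [h0]
    push_cast
    ring
  rw [if_pos (hiff.2 ⟨⟨c1, c3, c4, c5⟩, c2⟩)]
  push_cast
  ring

open Classical in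
theorem gp_inner (iso : ι → Prop) (L : ι → ι → Prop) {i j : ι} (hij : i ≠ j) (h1 : ¬ L i i)
    (h2 : ¬ L j j) (h3 : ¬ L j i) (h4 : L i j) (hi : iso i) (hj : iso j) {C : ℝ} (hC : 0 ≤ C)
    (hb : GPBil C) (a : ι → ℕ → ℝ) (P Y : ℝ) (ha : ∀ l n, |a l n| ≤ 1) (hP : 1 ≤ P) (hY : 1 ≤ Y)
    (hPi : ∀ n, a i n ≠ 0 → P < n) (hPj : ∀ n, a j n ≠ 0 → P < n) (z : ι → ℕ)
    (hz : ∀ l, 1 ≤ z l) (hzi : z i = 1) (hzj : z j = 1) :
    |∑ m ∈ Finset.Icc 1 ⌊Y⌋₊, ∑ n ∈ Finset.Icc 1 ⌊Y⌋₊,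
      (if Squarefree (2 * ∏ l, gpU i j z m n l) ∧ ∏ l, (gpU i j z m n l : ℝ) ^ we iso l ≤ Y
        then (∏ l, a l (gpU i j z m n l)) * (jp L (gpU i j z m n) : ℝ) else 0)| ≤
      C * Y * P ^ (-(1 / 12) : ℝ) * (1 + Real.log Y) ^ 2 * ∏ l, ((z l : ℝ))⁻¹ := by
  have hlog : 0 ≤ Real.log Y := Real.log_nonneg hY
  have hPp : 0 < P ^ (-(1 / 12) : ℝ) := Real.rpow_pos_of_pos (by linarith) _
  have hprod : 0 < ∏ l, ((z l : ℝ))⁻¹ :=
    Finset.prod_pos fun l _ => inv_pos.2 (by exact_mod_cast hz l)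
  have hrhs : 0 ≤ C * Y * P ^ (-(1 / 12) : ℝ) * (1 + Real.log Y) ^ 2 * ∏ l, ((z l : ℝ))⁻¹ := by
    positivity
  set w : ℝ := ∏ l ∈ gpS i j, (z l : ℝ) ^ we iso l with hwdef
  have hz1 : ∀ l, (1 : ℝ) ≤ z l := fun l => by exact_mod_cast hz l
  have hwe : ∀ l, (1 : ℝ) ≤ we iso l := fun l => by
    unfold we
    split_ifs <;> norm_num
  have hge : ∏ l ∈ gpS i j, (z l : ℝ) ≤ w := by
    refine Finset.prod_le_prod (fun l _ => by linarith [hz1 l]) fun l _ => ?_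
    calc (z l : ℝ) = (z l : ℝ) ^ (1 : ℝ) := (Real.rpow_one _).symm
      _ ≤ (z l : ℝ) ^ we iso l := Real.rpow_le_rpow_of_exponent_le (hz1 l) (hwe l)
  have hone : (1 : ℝ) ≤ ∏ l ∈ gpS i j, (z l : ℝ) := by
    calc (1 : ℝ) = ∏ l ∈ gpS i j, (1 : ℝ) := by rw [Finset.prod_const_one]
      _ ≤ ∏ l ∈ gpS i j, (z l : ℝ) :=
        Finset.prod_le_prod (fun _ _ => zero_le_one) fun l _ => hz1 l
  have hw1 : 1 ≤ w := hone.trans hge
  have hwpos : 0 < w := by linarith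
  have hwinv : w⁻¹ ≤ ∏ l, ((z l : ℝ))⁻¹ := by
    rw [gp_split hij, hzi, hzj, Finset.prod_inv_distrib]
    simp only [Nat.cast_one, inv_one, one_mul]
    exact inv_anti₀ (by linarith) hge
  by_cases c1 : Squarefree (2 * ∏ l ∈ gpS i j, z l)
  swap
  · rw [Finset.sum_eq_zero]
    · rw [abs_zero]
      exact hrhs
    · intro m _
      refine Finset.sum_eq_zero fun n hn => ?_
      rw [gp_term iso L hij h1 h2 h3 h4 hi hj a Y z hz m n (Finset.mem_Icc.1 hn).1, if_neg c1]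
  -- the factors
  set K : ℝ := (∏ l ∈ gpS i j, a l (z l)) * (gpK L i j z : ℝ) with hK
  set A : ℕ → ℝ := fun m => a i m * (gpA L i j z m : ℝ) * gpI (∏ l ∈ gpS i j, z l) m with hA
  set B : ℕ → ℝ := fun n => a j n * (gpB L i j z n : ℝ) * gpI (∏ l ∈ gpS i j, z l) n with hB
  set f : ℕ → ℕ → ℝ := fun m n =>
    if (m * n : ℝ) ≤ Y / w then A m * B n * (jacobiSym m n : ℝ) else 0 with hf
  have hsum : ∑ m ∈ Finset.Icc 1 ⌊Y⌋₊, ∑ n ∈ Finset.Icc 1 ⌊Y⌋₊,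
      (if Squarefree (2 * ∏ l, gpU i j z m n l) ∧ ∏ l, (gpU i j z m n l : ℝ) ^ we iso l ≤ Y
        then (∏ l, a l (gpU i j z m n l)) * (jp L (gpU i j z m n) : ℝ) else 0) =
      K * ∑ m ∈ Finset.Icc 1 ⌊Y⌋₊, ∑ n ∈ Finset.Icc 1 ⌊Y⌋₊, f m n := by
    rw [Finset.mul_sum]
    refine Finset.sum_congr rfl fun m _ => ?_
    rw [Finset.mul_sum]
    refine Finset.sum_congr rfl fun n hn => ?_
    rw [gp_term iso L hij h1 h2 h3 h4 hi hj a Y z hz m n (Finset.mem_Icc.1 hn).1, if_pos c1]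
  rw [hsum, abs_mul]
  have hKabs : |K| ≤ 1 := by
    refine gp_mul_absR (gp_prod_absR _ _ fun l => ha l _) ?_
    rw [← Int.cast_abs]
    exact_mod_cast gpK_abs L i j z
  have hAabs : ∀ m, |A m| ≤ 1 := fun m => by
    refine gp_mul_absR (gp_mul_absR (ha i m) ?_) (gpI_abs _ _)
    rw [← Int.cast_abs]
    exact_mod_cast gpA_abs L i j z m
  have hBabs : ∀ m, |B m| ≤ 1 := fun m => by
    refine gp_mul_absR (gp_mul_absR (ha j m) ?_) (gpI_abs _ _)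
    rw [← Int.cast_abs]
    exact_mod_cast gpB_abs L i j z m
  have hAne : ∀ n, A n ≠ 0 → P < n ∧ Odd n ∧ Squarefree n := fun n hn => by
    have h5 := left_ne_zero_of_mul (left_ne_zero_of_mul hn)
    have h6 := right_ne_zero_of_mul hn
    exact ⟨hPi n h5, gpI_ne h6⟩
  have hBne : ∀ n, B n ≠ 0 → P < n ∧ Odd n ∧ Squarefree n := fun n hn => by
    have h5 := left_ne_zero_of_mul (left_ne_zero_of_mul hn)
    have h6 := right_ne_zero_of_mul hn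
    exact ⟨hPj n h5, gpI_ne h6⟩
  have hxY : Y / w ≤ Y := div_le_self (by linarith) hw1
  have hvan : ∀ m n : ℕ, 1 ≤ m → 1 ≤ n → (Y / w < m ∨ Y / w < n) → f m n = 0 := by
    intro m n hm hn h
    have hm' : (1 : ℝ) ≤ m := by exact_mod_cast hm
    have hn' : (1 : ℝ) ≤ n := by exact_mod_cast hn
    refine if_neg (not_le.2 ?_)
    rcases h with h | h
    · nlinarith
    · nlinarith
  have hmain : |∑ m ∈ Finset.Icc 1 ⌊Y⌋₊, ∑ n ∈ Finset.Icc 1 ⌊Y⌋₊, f m n| ≤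
      C * (Y / w) * P ^ (-(1 / 12) : ℝ) * (1 + Real.log Y) ^ 2 := by
    by_cases hx1 : 1 ≤ Y / w
    · have hsub : Finset.Icc 1 ⌊Y / w⌋₊ ⊆ Finset.Icc 1 ⌊Y⌋₊ :=
        Finset.Icc_subset_Icc_right (Nat.floor_le_floor hxY)
      have hnot : ∀ m : ℕ, m ∈ Finset.Icc 1 ⌊Y⌋₊ → m ∉ Finset.Icc 1 ⌊Y / w⌋₊ → Y / w < m := by
        intro m hm hm'
        have h5 := (Finset.mem_Icc.1 hm).1
        have h6 : ⌊Y / w⌋₊ < m := by
          by_contra hcon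
          exact hm' (Finset.mem_Icc.2 ⟨h5, not_lt.1 hcon⟩)
        exact (Nat.floor_lt' (by omega)).1 h6
      have e1 : ∑ m ∈ Finset.Icc 1 ⌊Y⌋₊, ∑ n ∈ Finset.Icc 1 ⌊Y⌋₊, f m n =
          ∑ m ∈ Finset.Icc 1 ⌊Y / w⌋₊, ∑ n ∈ Finset.Icc 1 ⌊Y / w⌋₊, f m n := by
        rw [← Finset.sum_subset hsub]
        · refine Finset.sum_congr rfl fun m hm => ?_
          rw [← Finset.sum_subset hsub]
          intro n hn hn'
          exact hvan m n (Finset.mem_Icc.1 hm).1 (Finset.mem_Icc.1 hn).1 (Or.inr (hnot n hn hn'))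
        · intro m hm hm'
          refine Finset.sum_eq_zero fun n hn => ?_
          exact hvan m n (Finset.mem_Icc.1 hm).1 (Finset.mem_Icc.1 hn).1 (Or.inl (hnot m hm hm'))
      rw [e1]
      refine (hb P (Y / w) A B hP hx1 hAabs hBabs hAne hBne).trans ?_
      have hlog1 : 0 ≤ Real.log (Y / w) := Real.log_nonneg hx1
      have hlog2 : Real.log (Y / w) ≤ Real.log Y := Real.log_le_log (by linarith) hxY
      have h5 : (1 + Real.log (Y / w)) ^ 2 ≤ (1 + Real.log Y) ^ 2 :=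
        pow_le_pow_left₀ (by linarith) (by linarith) 2
      refine mul_le_mul_of_nonneg_left h5 ?_
      have : 0 ≤ Y / w := by linarith
      positivity
    · rw [Finset.sum_eq_zero]
      · rw [abs_zero]
        have : 0 ≤ Y / w := div_nonneg (by linarith) hwpos.le
        positivity
      · intro m hm
        refine Finset.sum_eq_zero fun n hn => ?_
        have h5 : (1 : ℝ) ≤ m := by exact_mod_cast (Finset.mem_Icc.1 hm).1
        exact hvan m n (Finset.mem_Icc.1 hm).1 (Finset.mem_Icc.1 hn).1 (Or.inl (by linarith))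
  calc |K| * |∑ m ∈ Finset.Icc 1 ⌊Y⌋₊, ∑ n ∈ Finset.Icc 1 ⌊Y⌋₊, f m n|
      ≤ 1 * (C * (Y / w) * P ^ (-(1 / 12) : ℝ) * (1 + Real.log Y) ^ 2) :=
        mul_le_mul hKabs hmain (abs_nonneg _) zero_le_one
    _ = C * Y * P ^ (-(1 / 12) : ℝ) * (1 + Real.log Y) ^ 2 * w⁻¹ := by
        rw [div_eq_mul_inv]
        ring
    _ ≤ C * Y * P ^ (-(1 / 12) : ℝ) * (1 + Real.log Y) ^ 2 * ∏ l, ((z l : ℝ))⁻¹ := by
        refine mul_le_mul_of_nonneg_left hwinv ?_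
        positivity

theorem gp_harm {Y : ℝ} (hY : 1 ≤ Y) :
    ∑ n ∈ Finset.Icc 1 ⌊Y⌋₊, ((n : ℝ))⁻¹ ≤ 1 + Real.log Y := by
  have h := harmonic_floor_le_one_add_log Y hY
  rw [harmonic_eq_sum_Icc] at h
  push_cast at h
  exact h

end

/-- a linked isotropic pair, both large, from the bilinear bound -/
theorem GS_pair_of (hb : ∃ C : ℝ, GPBil C) {ι : Type} [Fintype ι] (iso : ι → Prop)
    (L : ι → ι → Prop) (hL : ∀ i j, L i j → ¬ L j i) (i j : ι) (hij : L i j) (hi : iso i)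
    (hj : iso j) :
    ∃ C : ℝ, ∃ k : ℕ, ∀ (a : ι → ℕ → ℝ) (P Y : ℝ), (∀ l n, |a l n| ≤ 1) → 1 ≤ P → 1 ≤ Y →
      (∀ n, a i n ≠ 0 → P < n) → (∀ n, a j n ≠ 0 → P < n) →
      |GS iso L a Y| ≤ C * Y * P ^ (-(1 / 12) : ℝ) * (1 + Real.log Y) ^ k := by
  classical
  obtain ⟨C0, hC0⟩ := hb
  have hne : i ≠ j := by
    rintro rfl
    exact hL _ _ hij hij
  have hC1 : GPBil (max C0 0) := by
    intro P x a b hP hx h1 h2 h3 h4
    refine (hC0 P x a b hP hx h1 h2 h3 h4).trans ?_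
    have hlog : 0 ≤ Real.log x := Real.log_nonneg hx
    have hPp : 0 < P ^ (-(1 / 12) : ℝ) := Real.rpow_pos_of_pos (by linarith) _
    have hx0 : 0 ≤ x := by linarith
    gcongr
    exact le_max_left _ _
  refine ⟨max C0 0, 2 + Fintype.card ι, ?_⟩
  intro a P Y ha hP hY hPi hPj
  have hlog : 0 ≤ Real.log Y := Real.log_nonneg hY
  have hPp : 0 < P ^ (-(1 / 12) : ℝ) := Real.rpow_pos_of_pos (by linarith) _
  have hCn : 0 ≤ max C0 0 := le_max_right _ _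
  have hY0 : 0 ≤ Y := by linarith
  set M : ℝ := max C0 0 * Y * P ^ (-(1 / 12) : ℝ) * (1 + Real.log Y) ^ 2 with hM
  have hM0 : 0 ≤ M := by positivity
  have hN : 1 ≤ ⌊Y⌋₊ := (Nat.one_le_floor_iff Y).2 hY
  unfold GS
  rw [gp_sum hne ⌊Y⌋₊ hN]
  refine (Finset.abs_sum_le_sum_abs _ _).trans ?_
  calc _ ≤ ∑ z ∈ (Fintype.piFinset (fun _ : ι => Finset.Icc 1 ⌊Y⌋₊)).filter
        (fun z => z i = 1 ∧ z j = 1), M * ∏ l, ((z l : ℝ))⁻¹ := by
        refine Finset.sum_le_sum fun z hz => ?_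
        obtain ⟨hz1, hz2, hz3⟩ := Finset.mem_filter.1 hz
        have hz1' := Fintype.mem_piFinset.1 hz1
        exact gp_inner iso L hne (fun h => hL _ _ h h) (fun h => hL _ _ h h) (hL _ _ hij) hij hi hj
          hCn hC1 a P Y ha hP hY hPi hPj z (fun l => (Finset.mem_Icc.1 (hz1' l)).1) hz2 hz3
    _ ≤ ∑ z ∈ Fintype.piFinset (fun _ : ι => Finset.Icc 1 ⌊Y⌋₊), M * ∏ l, ((z l : ℝ))⁻¹ := by
        refine Finset.sum_le_sum_of_subset_of_nonneg (Finset.filter_subset _ _) fun z _ _ => ?_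
        exact mul_nonneg hM0 (Finset.prod_nonneg fun l _ => by positivity)
    _ = M * (∑ n ∈ Finset.Icc 1 ⌊Y⌋₊, ((n : ℝ))⁻¹) ^ Fintype.card ι := by
        rw [← Finset.mul_sum]
        congr 1
        have h7 := Finset.prod_univ_sum (fun _ : ι => Finset.Icc 1 ⌊Y⌋₊)
          (fun (_ : ι) (n : ℕ) => ((n : ℝ))⁻¹)
        rw [← h7, Finset.prod_const, Finset.card_univ]
    _ ≤ M * (1 + Real.log Y) ^ Fintype.card ι := by
        refine mul_le_mul_of_nonneg_left ?_ hM0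
        exact pow_le_pow_left₀ (Finset.sum_nonneg fun n _ => by positivity) (gp_harm hY) _
    _ = max C0 0 * Y * P ^ (-(1 / 12) : ℝ) * (1 + Real.log Y) ^ (2 + Fintype.card ι) := by
        rw [hM, pow_add]
        ring

end Pool.Agent.H98.MK
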