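import Pool.Agent.H98.MK.AT2Of
import Pool.Agent.H98.MK.GSPair2
import Pool.Agent.H98.MK.GSChar
import Pool.Agent.H98.MK.Bilin

/-!
# Project MK (MP_a3214d), row A6: the upper bound for the basic sums
-/

set_option autoImplicit false

open scoped BigOperators
open Filter

namespace Pool.Agent.H98.MK

theorem AT2 {ι : Type} [Fintype ι] (iso : ι → Prop) (L : ι → ι → Prop) (c : ι → Fin 4)
    (hL : ∀ i j, L i j → ¬ L j i) (ε : ℝ) (hε : 0 < ε) :
    ∃ C : ℝ, ∀ Y : ℝ, 3 ≤ Y → |TS iso L c Y| ≤ C * Y * Real.log Y ^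
      ((Nat.card {i // iso i ∧ c i = 0 ∧ ∀ j, ¬ L i j ∧ ¬ L j i} : ℝ) - 1 + ε) := by
  have hb : ∃ C : ℝ, GPBil C := by
    obtain ⟨C, hC⟩ := bilin
    refine ⟨C, fun P x a b hP hx ha hb ha2 hb2 => ?_⟩
    refine le_trans (le_of_eq ?_) (hC P x a b hP hx ha hb ha2 hb2)
    congr!
  exact AT2_of iso L c (fun i j hij hi hj => GS_pair_of hb iso L hL i j hij hi hj)
    (fun i hi c hc => GS_char iso L hL i hi c hc) ε hε

end Pool.Agent.H98.MK
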