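import Pool.Agent.H98.MK.GSAniso

/-!
# Project MK (MP_a3214d), row A6: the upper bound for the basic sums
-/

set_option autoImplicit false

open scoped BigOperators
open Filter

namespace Pool.Agent.H98.MK

/-! ### the pieces of the weights -/

theorem a6_J (a : ℤ) (n : ℕ) : |(jacobiSym a n : ℝ)| ≤ 1 := by
  rcases jacobiSym.trichotomy a n with h | h | h
  · rw [h]; simp
  · rw [h]; simp
  · rw [h]; simp

theorem a6_psi (c : Fin 4) (n : ℕ) : |(psi c n : ℝ)| ≤ 1 := by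
  unfold psi
  split_ifs
  · simp
  · exact a6_J _ _
  · exact a6_J _ _
  · exact a6_J _ _

open Classical in
/-- the small, middle and large parts -/
noncomputable def a6_w (P K : ℝ) (s : Fin 3) (n : ℕ) : ℝ :=
  if s = 0 then (if (n : ℝ) ≤ P then 1 else 0)
  else if s = 1 then (if P < n ∧ (n : ℝ) ≤ K then 1 else 0) else (if K < n then 1 else 0)

theorem a6_w_abs (P K : ℝ) (s : Fin 3) (n : ℕ) : |a6_w P K s n| ≤ 1 := by
  unfold a6_w
  split_ifs <;> simp

theorem a6_w_sum {P K : ℝ} (h : P ≤ K) (n : ℕ) : ∑ s : Fin 3, a6_w P K s n = 1 := by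
  rw [Fin.sum_univ_three]
  unfold a6_w
  have h1 : (1 : Fin 3) ≠ 0 := by decide
  have h2 : (2 : Fin 3) ≠ 0 := by decide
  have h3 : (2 : Fin 3) ≠ 1 := by decide
  rw [if_pos rfl, if_neg h1, if_pos rfl, if_neg h2, if_neg h3]
  by_cases hP : (n : ℝ) ≤ P
  · rw [if_pos hP, if_neg (fun h' => absurd h'.1 (not_lt.2 hP)),
      if_neg (not_lt.2 (hP.trans h))]
    norm_num
  · rw [if_neg hP]
    by_cases hK : (n : ℝ) ≤ K
    · rw [if_pos ⟨not_le.1 hP, hK⟩, if_neg (not_lt.2 hK)]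
      norm_num
    · rw [if_neg (fun h' => hK h'.2), if_pos (not_le.1 hK)]
      norm_num

theorem a6_w0 {P K : ℝ} {n : ℕ} (h : a6_w P K 0 n ≠ 0) : (n : ℝ) ≤ P := by
  by_contra h'
  exact h (by unfold a6_w; rw [if_pos rfl, if_neg h'])

theorem a6_wlt {P K : ℝ} (hPK : P ≤ K) {s : Fin 3} (hs : s ≠ 0) {n : ℕ}
    (h : a6_w P K s n ≠ 0) : P < n := by
  unfold a6_w at h
  rw [if_neg hs] at h
  by_cases h1 : s = 1
  · rw [if_pos h1] at h
    by_contra h'
    exact h (if_neg fun h2 => h' h2.1)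
  · rw [if_neg h1] at h
    by_contra h'
    exact h (if_neg fun h2 => h' (lt_of_le_of_lt hPK h2))

theorem a6_wle {P K : ℝ} (hPK : P ≤ K) {s : Fin 3} (hs : s ≠ 2) {n : ℕ}
    (h : a6_w P K s n ≠ 0) : (n : ℝ) ≤ K := by
  by_cases h0 : s = 0
  · subst h0
    exact (a6_w0 h).trans hPK
  · have h1 : s = 1 := by
      have k := s.isLt
      have k0 : s.val ≠ 0 := fun e => h0 (Fin.ext e)
      have k2 : s.val ≠ 2 := fun e => hs (Fin.ext e)
      exact Fin.ext (by show s.val = 1; omega)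
    unfold a6_w at h
    rw [if_neg h0, if_pos h1] at h
    by_contra h'
    exact h (if_neg fun h2 => h' h2.2)

open Classical in
/-- splitting into the pieces -/
theorem a6_split {ι : Type} [Fintype ι] (iso : ι → Prop) (L : ι → ι → Prop)
    (A : ι → ℕ → ℝ) {P K : ℝ} (h : P ≤ K) (Y : ℝ) :
    GS iso L A Y = ∑ s : ι → Fin 3, GS iso L (fun i n => a6_w P K (s i) n * A i n) Y := by
  unfold GS
  rw [Finset.sum_comm]
  refine Finset.sum_congr rfl fun x _ => ?_
  by_cases hc : Squarefree (2 * ∏ i, x i) ∧ ∏ i, (x i : ℝ) ^ we iso i ≤ Y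
  · simp only [if_pos hc]
    rw [← Finset.sum_mul]
    congr 1
    have e : ∀ i, A i (x i) = ∑ t ∈ (Finset.univ : Finset (Fin 3)), a6_w P K t (x i) * A i (x i) := by
      intro i
      rw [← Finset.sum_mul, a6_w_sum h, one_mul]
    have e2 : ∏ i, A i (x i) =
        ∏ i, ∑ t ∈ (Finset.univ : Finset (Fin 3)), a6_w P K t (x i) * A i (x i) :=
      Finset.prod_congr rfl fun i _ => e i
    rw [e2, Finset.prod_univ_sum, Fintype.piFinset_univ]
  · simp only [if_neg hc]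
    exact Finset.sum_const_zero.symm

/-- the basic sums in terms of the general ones -/
theorem a6_TS {ι : Type} [Fintype ι] (iso : ι → Prop) (L : ι → ι → Prop) (c : ι → Fin 4)
    (Y : ℝ) : TS iso L c Y = GS iso L (fun i n => if 2 ≤ n then (psi (c i) n : ℝ) else 0) Y := by
  classical
  unfold TS GS
  refine Finset.sum_subset_zero_on_sdiff ?_ ?_ ?_
  · intro x hx
    rw [Fintype.mem_piFinset] at hx ⊢
    intro i
    have := Finset.mem_Icc.1 (hx i)
    exact Finset.mem_Icc.2 ⟨by omega, this.2⟩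
  · intro x hx
    rw [Finset.mem_sdiff, Fintype.mem_piFinset, Fintype.mem_piFinset, not_forall] at hx
    obtain ⟨h1, i, hi⟩ := hx
    have h2 := Finset.mem_Icc.1 (h1 i)
    have h3 : ¬ 2 ≤ x i := fun h => hi (Finset.mem_Icc.2 ⟨h, h2.2⟩)
    have h4 : ∏ i, (if 2 ≤ x i then (psi (c i) (x i) : ℝ) else 0) = 0 :=
      Finset.prod_eq_zero (Finset.mem_univ i) (if_neg h3)
    rw [h4, zero_mul, ite_self]
  · intro x hx
    rw [Fintype.mem_piFinset] at hx
    have h4 : ∏ i, (if 2 ≤ x i then (psi (c i) (x i) : ℝ) else 0) =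
        ∏ i, (psi (c i) (x i) : ℝ) :=
      Finset.prod_congr rfl fun i _ => if_pos (Finset.mem_Icc.1 (hx i)).1
    rw [h4]
    push_cast
    rfl

/-- the trivial bound -/
theorem a6_triv {ι : Type} [Fintype ι] (iso : ι → Prop) (L : ι → ι → Prop)
    (A : ι → ℕ → ℝ) (hA : ∀ l n, |A l n| ≤ 1) (Y : ℝ) :
    |GS iso L A Y| ≤ (⌊Y⌋₊ : ℝ) ^ Fintype.card ι := by
  classical
  unfold GS
  refine (Finset.abs_sum_le_sum_abs _ _).trans ?_
  have h : ∀ x ∈ Fintype.piFinset (fun _ : ι => Finset.Icc 1 ⌊Y⌋₊),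
      |if Squarefree (2 * ∏ i, x i) ∧ ∏ i, (x i : ℝ) ^ we iso i ≤ Y
        then (∏ i, A i (x i)) * (jp L x : ℝ) else 0| ≤ 1 := by
    intro x _
    split_ifs
    · rw [abs_mul, Finset.abs_prod]
      have h3 : ∏ j, |A j (x j)| ≤ 1 :=
        Finset.prod_le_one (fun j _ => abs_nonneg _) fun j _ => hA j _
      calc (∏ j, |A j (x j)|) * |(jp L x : ℝ)| ≤ 1 * 1 :=
            mul_le_mul h3 (a3_jp L x) (abs_nonneg _) zero_le_one
        _ = 1 := one_mul 1
    · rw [abs_zero]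
      exact zero_le_one
  refine (Finset.sum_le_sum h).trans ?_
  rw [Finset.sum_const, Fintype.card_piFinset, nsmul_eq_mul, mul_one, Finset.prod_const,
    Nat.card_Icc, Finset.card_univ]
  push_cast
  norm_num

/-! ### real estimates -/

theorem a6_exp {κ e : ℝ} (hκ : 0 < κ) (he : 0 < e) (k : ℕ) :
    ∃ C : ℝ, 0 ≤ C ∧ ∀ t : ℝ, 1 ≤ t → Real.exp (-(κ * t ^ e)) * (1 + t) ^ k ≤ C * t ^ (-1 : ℝ) := by
  obtain ⟨n, hn⟩ := exists_nat_ge (((k : ℝ) + 1) / e)
  refine ⟨n.factorial * 2 ^ k / κ ^ n, by positivity, fun t ht => ?_⟩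
  have t0 : 0 < t := by linarith
  have hte : 0 < t ^ e := Real.rpow_pos_of_pos t0 _
  have hu : 0 < κ * t ^ e := by positivity
  have h1 := Real.pow_div_factorial_le_exp (κ * t ^ e) hu.le n
  have h2 : κ ^ n * t ^ (k + 1) ≤ (κ * t ^ e) ^ n := by
    rw [mul_pow]
    refine mul_le_mul_of_nonneg_left ?_ (by positivity)
    rw [← Real.rpow_natCast (t ^ e) n, ← Real.rpow_mul t0.le, ← Real.rpow_natCast t (k + 1)]
    refine Real.rpow_le_rpow_of_exponent_le ht ?_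
    push_cast
    rw [div_le_iff₀ he] at hn
    linarith
  have h3 : κ ^ n * t ^ (k + 1) ≤ n.factorial * Real.exp (κ * t ^ e) := by
    refine h2.trans ?_
    rw [div_le_iff₀ (by positivity)] at h1
    linarith
  have h4 : (1 + t) ^ k ≤ 2 ^ k * t ^ k := by
    rw [← mul_pow]
    exact pow_le_pow_left₀ (by linarith) (by linarith) k
  rw [Real.exp_neg, Real.rpow_neg t0.le, Real.rpow_one]
  have hexp := Real.exp_pos (κ * t ^ e)
  have h5 : (1 + t) ^ k * t * κ ^ n ≤ n.factorial * 2 ^ k * Real.exp (κ * t ^ e) := by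
    calc (1 + t) ^ k * t * κ ^ n ≤ 2 ^ k * t ^ k * t * κ ^ n := by gcongr
      _ = 2 ^ k * (κ ^ n * t ^ (k + 1)) := by ring
      _ ≤ 2 ^ k * (n.factorial * Real.exp (κ * t ^ e)) := by gcongr
      _ = _ := by ring
  rw [inv_mul_le_iff₀ hexp]
  have e1 : Real.exp (κ * t ^ e) * (n.factorial * 2 ^ k / κ ^ n * t⁻¹) =
      (n.factorial * 2 ^ k * Real.exp (κ * t ^ e)) / (κ ^ n * t) := by
    field_simp
  rw [e1, le_div_iff₀ (by positivity)]
  calc (1 + t) ^ k * (κ ^ n * t) = (1 + t) ^ k * t * κ ^ n := by ring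
    _ ≤ _ := h5

theorem a6_one {Y e : ℝ} (hY : 3 ≤ Y) (he : -1 ≤ e) (hl : 1 ≤ Real.log Y) :
    1 ≤ Y * Real.log Y ^ e := by
  have h1 : Real.log Y ^ (-1 : ℝ) ≤ Real.log Y ^ e := Real.rpow_le_rpow_of_exponent_le hl he
  have h2 : Real.log Y ≤ Y := (Real.log_le_sub_one_of_pos (by linarith)).trans (by linarith)
  rw [Real.rpow_neg (by linarith), Real.rpow_one] at h1
  calc (1 : ℝ) = Real.log Y * (Real.log Y)⁻¹ := by
        rw [mul_inv_cancel₀ (by linarith)]
    _ ≤ Y * Real.log Y ^ e := by gcongr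

theorem a6_log {Y : ℝ} (hY : 3 ≤ Y) : 1 ≤ Real.log Y := by
  rw [Real.le_log_iff_exp_le (by linarith)]
  have := Real.exp_one_lt_d9
  linarith

theorem a6_pow1 {t : ℝ} (ht : 1 ≤ t) (b : ℕ) : (1 + t) ^ ((b : ℝ) - 1) ≤ 2 ^ b * t ^ ((b : ℝ) - 1) := by
  have t0 : 0 < t := by linarith
  rcases Nat.eq_zero_or_pos b with h | h
  · subst h
    have h1 : ((0 : ℕ) : ℝ) - 1 = -1 := by norm_num
    rw [h1, pow_zero, one_mul]
    exact Real.rpow_le_rpow_of_nonpos t0 (by linarith) (by norm_num)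
  · have hb : (0 : ℝ) ≤ (b : ℝ) - 1 := by
      have : (1 : ℝ) ≤ b := by exact_mod_cast h
      linarith
    calc (1 + t) ^ ((b : ℝ) - 1) ≤ (2 * t) ^ ((b : ℝ) - 1) :=
          Real.rpow_le_rpow (by linarith) (by linarith) hb
      _ = 2 ^ ((b : ℝ) - 1) * t ^ ((b : ℝ) - 1) := Real.mul_rpow (by norm_num) t0.le
      _ ≤ 2 ^ b * t ^ ((b : ℝ) - 1) := by
          refine mul_le_mul_of_nonneg_right ?_ (by positivity)
          rw [← Real.rpow_natCast 2 b]
          exact Real.rpow_le_rpow_of_exponent_le (by norm_num) (by linarith)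

theorem a6_pow2 {t e1 e2 : ℝ} (ht : 1 ≤ t) (m : ℕ) (h0 : 0 ≤ e2) (h : m * e2 ≤ e1) :
    (1 + t ^ e2) ^ m ≤ 2 ^ m * t ^ e1 := by
  have t0 : 0 < t := by linarith
  have h1 : 1 ≤ t ^ e2 := Real.one_le_rpow ht h0
  calc (1 + t ^ e2) ^ m ≤ (2 * t ^ e2) ^ m := pow_le_pow_left₀ (by linarith) (by linarith) m
    _ = 2 ^ m * (t ^ e2) ^ m := mul_pow _ _ _
    _ ≤ 2 ^ m * t ^ e1 := by
        refine mul_le_mul_of_nonneg_left ?_ (by positivity)
        rw [← Real.rpow_natCast (t ^ e2) m, ← Real.rpow_mul t0.le]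
        refine Real.rpow_le_rpow_of_exponent_le ht ?_
        linarith

end Pool.Agent.H98.MK
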