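import Pool.Agent.H98.MK.AT2Base

/-!
# Project MK (MP_a3214d), row A6: the upper bound, from the bounds for the pieces
-/

set_option autoImplicit false

open scoped BigOperators
open Filter

namespace Pool.Agent.H98.MK

/-! ### the theorem, from the four bounds -/

/-- the four bounds, for given data -/
theorem a6_core {ι : Type} [Fintype ι] (iso : ι → Prop) (L : ι → ι → Prop) (c : ι → Fin 4)
    (hpair : ∀ i j, L i j → iso i → iso j →
      ∃ C : ℝ, ∃ k : ℕ, ∀ (a : ι → ℕ → ℝ) (P Y : ℝ), (∀ l n, |a l n| ≤ 1) → 1 ≤ P → 1 ≤ Y →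
      (∀ n, a i n ≠ 0 → P < n) → (∀ n, a j n ≠ 0 → P < n) →
      |GS iso L a Y| ≤ C * Y * P ^ (-(1 / 12) : ℝ) * (1 + Real.log Y) ^ k)
    (haniso : ∀ i, ¬ iso i →
      ∃ C : ℝ, ∃ k : ℕ, ∀ (a : ι → ℕ → ℝ) (P Y : ℝ), (∀ l n, |a l n| ≤ 1) → 1 ≤ P → 1 ≤ Y →
      (∀ n, a i n ≠ 0 → P < n) →
      |GS iso L a Y| ≤ C * Y * P ^ (-(1 / 12) : ℝ) * (1 + Real.log Y) ^ k)
    (hchar : ∀ i, iso i → ∀ c : Fin 4, (c ≠ 0 ∨ ∃ j, L i j ∨ L j i) →
      ∃ C : ℝ, ∃ k : ℕ, ∀ (a : ι → ℕ → ℝ) (P K Y : ℝ), (∀ l n, |a l n| ≤ 1) → 1 ≤ P → 1 ≤ K →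
      1 ≤ Y → (∀ n : ℕ, a i n = if K < n then (psi c n : ℝ) else 0) →
      (∀ j, L i j ∨ L j i → ∀ n, a j n ≠ 0 → 2 ≤ n ∧ (n : ℝ) ≤ P) →
      |GS iso L a Y| ≤ C * Y * (P ^ (Fintype.card ι) / K) ^ (1 / 2 : ℝ) *
        (1 + Real.log Y) ^ k)
    (htriv : ∀ R : ι → Prop, (∀ i, R i → iso i) →
      ∃ C : ℝ, ∀ (a : ι → ℕ → ℝ) (K Y : ℝ), (∀ l n, |a l n| ≤ 1) → 1 ≤ K → 1 ≤ Y →
      K ^ (2 * Fintype.card ι) ≤ Y →
      (∀ i, ¬ R i → ∀ n, a i n ≠ 0 → (n : ℝ) ≤ K) →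
      |GS iso L a Y| ≤ C * Y * (1 + Real.log Y) ^ ((Nat.card {i // R i} : ℝ) - 1) *
        (1 + Real.log K) ^ (Fintype.card ι))
    (ε : ℝ) (hε : 0 < ε) :
    ∃ C : ℝ, ∀ Y : ℝ, 3 ≤ Y → |TS iso L c Y| ≤ C * Y * Real.log Y ^
      ((Nat.card {i // iso i ∧ c i = 0 ∧ ∀ j, ¬ L i j ∧ ¬ L j i} : ℝ) - 1 + ε) := by
  classical
  set m := Fintype.card ι with hm
  set b := Nat.card {i // iso i ∧ c i = 0 ∧ ∀ j, ¬ L i j ∧ ¬ L j i} with hb
  -- parameters
  obtain ⟨ε1, hε1, hε1', hε1h⟩ : ∃ ε1 : ℝ, 0 < ε1 ∧ ε1 ≤ ε ∧ ε1 ≤ 1 / 2 :=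
    ⟨min ε (1 / 2), lt_min hε (by norm_num), min_le_left _ _, min_le_right _ _⟩
  set e2 : ℝ := ε1 / (m + 1) with he2
  have hm1 : (0 : ℝ) < (m : ℝ) + 1 := by positivity
  have he2p : 0 < e2 := by positivity
  have hme2 : (m : ℝ) * e2 ≤ ε1 := by
    rw [he2, mul_div_assoc', div_le_iff₀ hm1]
    nlinarith
  have he2h : e2 ≤ 1 / 2 := by
    refine le_trans ?_ hε1h
    rw [he2, div_le_iff₀ hm1]
    have : (0 : ℝ) ≤ m := by positivity
    nlinarith
  set κ : ℝ := 1 / (4 * (m + 1)) with hκ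
  have hκp : 0 < κ := by positivity
  have hκ4 : κ ≤ 1 / 4 := by
    rw [hκ]
    refine one_div_le_one_div_of_le (by norm_num) ?_
    have : (0 : ℝ) ≤ m := by positivity
    linarith
  have hmκ : (m : ℝ) * κ ≤ 1 / 4 := by
    rw [hκ, mul_one_div, div_le_iff₀ (by positivity)]
    linarith
  let K : ℝ → ℝ := fun Y => Real.exp (Real.log Y ^ e2)
  let P : ℝ → ℝ := fun Y => Real.exp (κ * Real.log Y ^ e2)
  let A : ι → ℕ → ℝ := fun i n => if 2 ≤ n then (psi (c i) n : ℝ) else 0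
  have hA : ∀ i n, |A i n| ≤ 1 := by
    intro i n
    show |if 2 ≤ n then (psi (c i) n : ℝ) else 0| ≤ 1
    split_ifs
    · exact a6_psi _ _
    · simp
  have hwA : ∀ (Y : ℝ) (s : ι → Fin 3) (i : ι) (n : ℕ),
      |a6_w (P Y) (K Y) (s i) n * A i n| ≤ 1 := by
    intro Y s i n
    rw [abs_mul]
    exact mul_le_one₀ (a6_w_abs _ _ _ _) (abs_nonneg _) (hA i n)
  -- the bound for one piece
  have key : ∀ s : ι → Fin 3, ∃ C : ℝ, 0 ≤ C ∧ ∀ Y : ℝ, 3 ≤ Y →
      ((2 * m : ℝ)) ^ 2 ≤ Real.log Y →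
      |GS iso L (fun i n => a6_w (P Y) (K Y) (s i) n * A i n) Y| ≤
        C * (Y * Real.log Y ^ ((b : ℝ) - 1 + ε)) := by
    intro s
    have hPK : ∀ Y, 3 ≤ Y → P Y ≤ K Y := by
      intro Y hY
      have h1 : 0 ≤ Real.log Y ^ e2 := Real.rpow_nonneg (by linarith [a6_log hY]) _
      refine Real.exp_le_exp.2 ?_
      nlinarith
    have hP1 : ∀ Y, 3 ≤ Y → 1 ≤ P Y := by
      intro Y hY
      have h1 : 0 ≤ Real.log Y ^ e2 := Real.rpow_nonneg (by linarith [a6_log hY]) _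
      exact Real.one_le_exp (by positivity)
    have hK1 : ∀ Y, 3 ≤ Y → 1 ≤ K Y := fun Y hY => (hP1 Y hY).trans (hPK Y hY)
    -- exponentially small pieces
    have small : ∀ (C : ℝ) (k : ℕ), (∀ Y : ℝ, 3 ≤ Y →
        |GS iso L (fun i n => a6_w (P Y) (K Y) (s i) n * A i n) Y| ≤
          C * Y * Real.exp (-(κ / 12 * Real.log Y ^ e2)) * (1 + Real.log Y) ^ k) →
        ∃ C : ℝ, 0 ≤ C ∧ ∀ Y : ℝ, 3 ≤ Y → ((2 * m : ℝ)) ^ 2 ≤ Real.log Y →
        |GS iso L (fun i n => a6_w (P Y) (K Y) (s i) n * A i n) Y| ≤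
          C * (Y * Real.log Y ^ ((b : ℝ) - 1 + ε)) := by
      intro C k h
      obtain ⟨C', hC', h'⟩ := a6_exp (κ := κ / 12) (e := e2) (by positivity) he2p k
      refine ⟨|C| * C', by positivity, fun Y hY _ => ?_⟩
      have hl := a6_log hY
      have h1 := h' (Real.log Y) hl
      have h2 : Real.log Y ^ (-1 : ℝ) ≤ Real.log Y ^ ((b : ℝ) - 1 + ε) :=
        Real.rpow_le_rpow_of_exponent_le hl (by
          have : (0 : ℝ) ≤ b := by positivity
          linarith)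
      calc _ ≤ C * Y * Real.exp (-(κ / 12 * Real.log Y ^ e2)) * (1 + Real.log Y) ^ k := h Y hY
        _ = C * (Y * (Real.exp (-(κ / 12 * Real.log Y ^ e2)) * (1 + Real.log Y) ^ k)) := by ring
        _ ≤ |C| * (Y * (Real.exp (-(κ / 12 * Real.log Y ^ e2)) * (1 + Real.log Y) ^ k)) := by
            refine mul_le_mul_of_nonneg_right (le_abs_self C) ?_
            have : 0 ≤ 1 + Real.log Y := by linarith
            positivity
        _ ≤ |C| * (Y * (C' * Real.log Y ^ ((b : ℝ) - 1 + ε))) := by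
            refine mul_le_mul_of_nonneg_left ?_ (abs_nonneg _)
            refine mul_le_mul_of_nonneg_left ?_ (by linarith)
            exact h1.trans (mul_le_mul_of_nonneg_left h2 hC')
        _ = _ := by ring
    have eP : ∀ Y : ℝ, P Y ^ (-(1 / 12) : ℝ) = Real.exp (-(κ / 12 * Real.log Y ^ e2)) := by
      intro Y
      show Real.exp (κ * Real.log Y ^ e2) ^ (-(1 / 12) : ℝ) = _
      rw [← Real.exp_mul]
      congr 1
      ring
    by_cases c1 : ∃ i j, L i j ∧ iso i ∧ iso j ∧ s i ≠ 0 ∧ s j ≠ 0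
    · obtain ⟨i, j, hij, hi, hj, hsi, hsj⟩ := c1
      obtain ⟨C, k, h⟩ := hpair i j hij hi hj
      refine small C k fun Y hY => ?_
      have := h (fun i n => a6_w (P Y) (K Y) (s i) n * A i n) (P Y) Y (hwA Y s) (hP1 Y hY)
        (by linarith) (fun n hn => a6_wlt (hPK Y hY) hsi (left_ne_zero_of_mul hn))
        (fun n hn => a6_wlt (hPK Y hY) hsj (left_ne_zero_of_mul hn))
      rwa [eP] at this
    by_cases c2 : ∃ i, ¬ iso i ∧ s i ≠ 0
    · obtain ⟨i, hi, hsi⟩ := c2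
      obtain ⟨C, k, h⟩ := haniso i hi
      refine small C k fun Y hY => ?_
      have := h (fun i n => a6_w (P Y) (K Y) (s i) n * A i n) (P Y) Y (hwA Y s) (hP1 Y hY)
        (by linarith) (fun n hn => a6_wlt (hPK Y hY) hsi (left_ne_zero_of_mul hn))
      rwa [eP] at this
    by_cases c3 : ∃ i, iso i ∧ (c i ≠ 0 ∨ ∃ j, L i j ∨ L j i) ∧ s i = 2
    · obtain ⟨i, hi, hci, hsi⟩ := c3
      have hs0 : ∀ j, L i j ∨ L j i → s j = 0 := by
        intro j hj
        by_contra hsj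
        have hij : iso j := by
          by_contra h
          exact c2 ⟨j, h, hsj⟩
        have h2 : s i ≠ 0 := by rw [hsi]; decide
        rcases hj with hj | hj
        · exact c1 ⟨i, j, hj, hi, hij, h2, hsj⟩
        · exact c1 ⟨j, i, hj, hij, hi, hsj, h2⟩
      obtain ⟨C, k, h⟩ := hchar i hi (c i) hci
      refine small |C| k fun Y hY => ?_
      have hl := a6_log hY
      have := h (fun i n => a6_w (P Y) (K Y) (s i) n * A i n) (P Y) (K Y) Y (hwA Y s) (hP1 Y hY)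
        (hK1 Y hY) (by linarith) ?_ ?_
      · refine this.trans ?_
        refine mul_le_mul_of_nonneg_right ?_ (by
          have : 0 ≤ 1 + Real.log Y := by linarith
          positivity)
        have hu : 0 ≤ Real.log Y ^ e2 := Real.rpow_nonneg (by linarith) _
        have e3 : (P Y ^ m / K Y) ^ (1 / 2 : ℝ) =
            Real.exp ((m * κ - 1) / 2 * Real.log Y ^ e2) := by
          show (Real.exp (κ * Real.log Y ^ e2) ^ m / Real.exp (Real.log Y ^ e2)) ^ (1 / 2 : ℝ) = _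
          rw [← Real.exp_nat_mul, ← Real.exp_sub, ← Real.exp_mul]
          congr 1
          ring
        rw [e3]
        have h5 : Real.exp ((m * κ - 1) / 2 * Real.log Y ^ e2) ≤
            Real.exp (-(κ / 12 * Real.log Y ^ e2)) := by
          refine Real.exp_le_exp.2 ?_
          nlinarith
        calc C * Y * Real.exp ((m * κ - 1) / 2 * Real.log Y ^ e2) ≤
            |C| * Y * Real.exp ((m * κ - 1) / 2 * Real.log Y ^ e2) := by
              refine mul_le_mul_of_nonneg_right ?_ (Real.exp_pos _).le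
              exact mul_le_mul_of_nonneg_right (le_abs_self C) (by linarith)
          _ ≤ _ := mul_le_mul_of_nonneg_left h5 (mul_nonneg (abs_nonneg _) (by linarith))
      · intro n
        show a6_w (P Y) (K Y) (s i) n * A i n = _
        rw [hsi]
        unfold a6_w
        rw [if_neg (by decide), if_neg (by decide)]
        by_cases hn : K Y < n
        · have h2 : 2 ≤ n := by
            have h3 : (1 : ℝ) < n := lt_of_le_of_lt (hK1 Y hY) hn
            exact_mod_cast h3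
          rw [if_pos hn, if_pos hn, one_mul]
          exact if_pos h2
        · rw [if_neg hn, if_neg hn, zero_mul]
      · intro j hj n hn
        have hw := left_ne_zero_of_mul hn
        rw [hs0 j hj] at hw
        refine ⟨?_, a6_w0 hw⟩
        by_contra h2
        exact right_ne_zero_of_mul hn (if_neg h2)
    -- the main piece
    obtain ⟨C, h⟩ := htriv (fun i => iso i ∧ c i = 0 ∧ ∀ j, ¬ L i j ∧ ¬ L j i) (fun i hi => hi.1)
    refine ⟨|C| * (2 ^ b * 2 ^ m), by positivity, fun Y hY hYm => ?_⟩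
    have hl := a6_log hY
    have hl0 : 0 < Real.log Y := by linarith
    have hKY : K Y ^ (2 * m) ≤ Y := by
      show Real.exp (Real.log Y ^ e2) ^ (2 * m) ≤ Y
      rw [← Real.exp_nat_mul]
      refine (Real.exp_le_exp.2 ?_).trans (Real.exp_log (by linarith)).le
      push_cast
      have h1 : Real.log Y ^ e2 ≤ Real.log Y ^ (1 / 2 : ℝ) :=
        Real.rpow_le_rpow_of_exponent_le hl he2h
      have h2 : (2 * m : ℝ) ≤ Real.log Y ^ (1 / 2 : ℝ) := by
        rw [← Real.sqrt_eq_rpow]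
        exact Real.le_sqrt_of_sq_le hYm
      have h3 : Real.log Y ^ (1 / 2 : ℝ) * Real.log Y ^ (1 / 2 : ℝ) = Real.log Y := by
        rw [← Real.rpow_add hl0]
        norm_num
      have h4 : 0 ≤ Real.log Y ^ (1 / 2 : ℝ) := Real.rpow_nonneg hl0.le _
      calc (2 * m : ℝ) * Real.log Y ^ e2 ≤ Real.log Y ^ (1 / 2 : ℝ) * Real.log Y ^ (1 / 2 : ℝ) :=
            mul_le_mul h2 h1 (Real.rpow_nonneg hl0.le _) h4
        _ = Real.log Y := h3
    have h1 := h (fun i n => a6_w (P Y) (K Y) (s i) n * A i n) (K Y) Y (hwA Y s) (hK1 Y hY)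
      (by linarith) hKY ?_
    · refine h1.trans ?_
      have e4 : Real.log (K Y) = Real.log Y ^ e2 := Real.log_exp _
      rw [e4]
      have p1 := a6_pow1 hl b
      have p2 := a6_pow2 (e1 := ε1) hl m he2p.le hme2
      have p0 : 0 ≤ (1 + Real.log Y) ^ ((b : ℝ) - 1) := Real.rpow_nonneg (by linarith) _
      have p3 : 0 ≤ (1 + Real.log Y ^ e2) ^ m := by
        have : 0 ≤ Real.log Y ^ e2 := Real.rpow_nonneg hl0.le _
        positivity
      have p4 : 0 ≤ Real.log Y ^ ((b : ℝ) - 1) := Real.rpow_nonneg hl0.le _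
      have p5 : Real.log Y ^ ((b : ℝ) - 1) * Real.log Y ^ ε1 ≤
          Real.log Y ^ ((b : ℝ) - 1 + ε) := by
        rw [← Real.rpow_add hl0]
        exact Real.rpow_le_rpow_of_exponent_le hl (by linarith)
      calc C * Y * (1 + Real.log Y) ^ ((b : ℝ) - 1) * (1 + Real.log Y ^ e2) ^ m
          ≤ |C| * Y * (1 + Real.log Y) ^ ((b : ℝ) - 1) * (1 + Real.log Y ^ e2) ^ m := by
            refine mul_le_mul_of_nonneg_right ?_ p3
            refine mul_le_mul_of_nonneg_right ?_ p0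
            exact mul_le_mul_of_nonneg_right (le_abs_self C) (by linarith)
        _ = |C| * Y * ((1 + Real.log Y) ^ ((b : ℝ) - 1) * (1 + Real.log Y ^ e2) ^ m) := by ring
        _ ≤ |C| * Y * ((2 ^ b * Real.log Y ^ ((b : ℝ) - 1)) * (2 ^ m * Real.log Y ^ ε1)) := by
            refine mul_le_mul_of_nonneg_left ?_ (mul_nonneg (abs_nonneg _) (by linarith))
            exact mul_le_mul p1 p2 p3 (by positivity)
        _ = |C| * (2 ^ b * 2 ^ m) * (Y * (Real.log Y ^ ((b : ℝ) - 1) * Real.log Y ^ ε1)) := by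
            ring
        _ ≤ |C| * (2 ^ b * 2 ^ m) * (Y * Real.log Y ^ ((b : ℝ) - 1 + ε)) := by
            refine mul_le_mul_of_nonneg_left ?_ (by positivity)
            exact mul_le_mul_of_nonneg_left p5 (by linarith)
    · intro i hi n hn
      have hw := left_ne_zero_of_mul hn
      by_cases hiso : iso i
      · have h2 : s i ≠ 2 := by
          intro h2
          refine c3 ⟨i, hiso, ?_, h2⟩
          by_contra h3
          rw [not_or, not_not, not_exists] at h3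
          exact hi ⟨hiso, h3.1, fun j => not_or.1 (h3.2 j)⟩
        exact a6_wle (hPK Y hY) h2 hw
      · have h2 : s i = 0 := by
          by_contra h2
          exact c2 ⟨i, hiso, h2⟩
        rw [h2] at hw
        exact (a6_w0 hw).trans (hPK Y hY)
  choose C hC0 hC using key
  refine ⟨(⌊Real.exp ((2 * m : ℝ) ^ 2)⌋₊ : ℝ) ^ m + ∑ s, C s, fun Y hY => ?_⟩
  have hl := a6_log hY
  have hone := a6_one (e := (b : ℝ) - 1 + ε) hY (by
    have : (0 : ℝ) ≤ b := by positivity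
    linarith) hl
  rw [mul_assoc, a6_TS]
  have hS : 0 ≤ ∑ s, C s := Finset.sum_nonneg fun s _ => hC0 s
  have hN : 0 ≤ (⌊Real.exp ((2 * m : ℝ) ^ 2)⌋₊ : ℝ) ^ m := by positivity
  rcases le_or_gt ((2 * m : ℝ) ^ 2) (Real.log Y) with hY2 | hY2
  · rw [a6_split iso L _ (P := P Y) (K := K Y) ?_ Y]
    · refine (Finset.abs_sum_le_sum_abs _ _).trans ?_
      refine (Finset.sum_le_sum fun s _ => hC s Y hY hY2).trans ?_
      rw [← Finset.sum_mul]
      refine mul_le_mul_of_nonneg_right ?_ (by linarith)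
      linarith
    · have h1 : 0 ≤ Real.log Y ^ e2 := Real.rpow_nonneg (by linarith) _
      refine Real.exp_le_exp.2 ?_
      nlinarith
  · refine (a6_triv iso L _ hA Y).trans ?_
    have h1 : (⌊Y⌋₊ : ℝ) ≤ ⌊Real.exp ((2 * m : ℝ) ^ 2)⌋₊ := by
      have h2 : Y ≤ Real.exp ((2 * m : ℝ) ^ 2) := by
        rw [← Real.exp_log (show 0 < Y by linarith)]
        exact Real.exp_le_exp.2 hY2.le
      exact_mod_cast Nat.floor_le_floor h2
    have h3 : (⌊Y⌋₊ : ℝ) ^ m ≤ (⌊Real.exp ((2 * m : ℝ) ^ 2)⌋₊ : ℝ) ^ m :=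
      pow_le_pow_left₀ (by positivity) h1 m
    calc (⌊Y⌋₊ : ℝ) ^ m ≤ (⌊Real.exp ((2 * m : ℝ) ^ 2)⌋₊ : ℝ) ^ m * 1 := by linarith
      _ ≤ ((⌊Real.exp ((2 * m : ℝ) ^ 2)⌋₊ : ℝ) ^ m + ∑ s, C s) *
          (Y * Real.log Y ^ ((b : ℝ) - 1 + ε)) :=
            mul_le_mul (by linarith) hone zero_le_one (by linarith)

end Pool.Agent.H98.MK
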