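import Pool.Agent.H98.MK.ADefs

/-!
# MK-A1: the trivial bound for the number of tuples
-/

set_option autoImplicit false

open scoped BigOperators
open Filter

namespace Pool.Agent.H98.MK

open Classical in
/-- splitting of a sum over tuples at one index -/
theorem sum_split {ι M : Type*} [Fintype ι] [AddCommMonoid M] (s : Finset ℕ) (h1 : 1 ∈ s)
    (i0 : ι) (F : (ι → ℕ) → M) :
    ∑ x ∈ Fintype.piFinset (fun _ : ι => s), F x =
      ∑ x ∈ (Fintype.piFinset (fun _ : ι => s)).filter (fun x => x i0 = 1),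
        ∑ n ∈ s, F (Function.update x i0 n) := by
  rw [← Finset.sum_product']
  refine Finset.sum_nbij' (fun x => (Function.update x i0 1, x i0))
    (fun p => Function.update p.1 i0 p.2) ?_ ?_ ?_ ?_ ?_
  · intro x hx
    rw [Fintype.mem_piFinset] at hx
    rw [Finset.mem_product, Finset.mem_filter, Fintype.mem_piFinset]
    refine ⟨⟨fun i => ?_, by simp⟩, hx i0⟩
    by_cases hi : i = i0
    · subst hi
      simpa using h1
    · simpa [Function.update_of_ne hi] using hx i
  · intro p hp
    rw [Finset.mem_product, Finset.mem_filter, Fintype.mem_piFinset] at hp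
    rw [Fintype.mem_piFinset]
    intro i
    by_cases hi : i = i0
    · subst hi
      simpa using hp.2
    · simpa [Function.update_of_ne hi] using hp.1.1 i
  · intro x _
    simp
  · intro p hp
    rw [Finset.mem_product, Finset.mem_filter] at hp
    have : Function.update p.1 i0 1 = p.1 := by
      rw [← hp.1.2]
      exact Function.update_eq_self i0 p.1
    simp [this]
  · intro x _
    simp

open Classical in
/-- the product of the weights of an updated tuple -/
theorem prod_update_we {ι : Type} [Fintype ι] (iso : ι → Prop) (i0 : ι) (h0 : iso i0)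
    (x : ι → ℕ) (n : ℕ) :
    ∏ i, ((Function.update x i0 n) i : ℝ) ^ we iso i =
      n * ∏ i ∈ Finset.univ.erase i0, (x i : ℝ) ^ we iso i := by
  rw [← Finset.mul_prod_erase Finset.univ _ (Finset.mem_univ i0)]
  congr 1
  · simp [we, h0]
  · apply Finset.prod_congr rfl
    intro i hi
    rw [Function.update_of_ne (Finset.ne_of_mem_erase hi)]

open Classical in
/-- trivial bound -/
theorem triv {ι : Type} [Fintype ι] (iso : ι → Prop) (i0 : ι) (h0 : iso i0)
    (A : ι → ℕ → Prop) (Y : ℝ) (hY : 1 ≤ Y) :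
    (((Fintype.piFinset (fun _ : ι => Finset.Icc 1 ⌊Y⌋₊)).filter (fun x =>
      (∏ i, (x i : ℝ) ^ we iso i ≤ Y) ∧ ∀ i, i ≠ i0 → A i (x i))).card : ℝ) ≤
      Y * ∏ i ∈ Finset.univ.erase i0, ∑ n ∈ (Finset.Icc 1 ⌊Y⌋₊).filter (A i),
        (n : ℝ) ^ (-(we iso i)) := by
  have hY0 : 0 ≤ Y := by linarith
  set B : Finset ℕ := Finset.Icc 1 ⌊Y⌋₊ with hB
  have h1B : 1 ∈ B := by
    rw [hB, Finset.mem_Icc]
    exact ⟨le_rfl, Nat.le_floor (by simpa using hY)⟩
  -- the auxiliary one-variable functions
  set g : ι → ℕ → ℝ := fun i n =>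
    if i = i0 then (if n = 1 then 1 else 0) else (if A i n then (n : ℝ) ^ (-(we iso i)) else 0)
    with hg
  have hg0 : ∀ i n, 0 ≤ g i n := by
    intro i n
    simp only [hg]
    split_ifs <;> positivity
  have hR : Y * ∏ i ∈ Finset.univ.erase i0, ∑ n ∈ B.filter (A i), (n : ℝ) ^ (-(we iso i)) =
      ∑ x ∈ Fintype.piFinset (fun _ : ι => B), Y * ∏ i, g i (x i) := by
    rw [← Finset.mul_sum, ← Finset.prod_univ_sum,
      ← Finset.mul_prod_erase Finset.univ _ (Finset.mem_univ i0)]
    have e1 : ∑ n ∈ B, g i0 n = 1 := by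
      simp only [hg, if_true]
      rw [Finset.sum_ite_eq' B 1 (fun _ => (1:ℝ)), if_pos h1B]
    rw [e1, one_mul]
    congr 1
    apply Finset.prod_congr rfl
    intro i hi
    rw [Finset.sum_filter]
    apply Finset.sum_congr rfl
    intro n _
    simp only [hg, if_neg (Finset.ne_of_mem_erase hi)]
  rw [hR, Finset.card_filter]
  push_cast
  rw [sum_split B h1B i0]
  -- drop the tuples with `x i0 ≠ 1` on the right
  refine le_trans ?_ (Finset.sum_le_sum_of_subset_of_nonneg (Finset.filter_subset
    (fun x : ι → ℕ => x i0 = 1) _) fun x _ _ => mul_nonneg hY0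
    (Finset.prod_nonneg fun i _ => hg0 i _))
  apply Finset.sum_le_sum
  intro x hx
  rw [Finset.mem_filter, Fintype.mem_piFinset] at hx
  have hx1 : ∀ i, (1:ℝ) ≤ x i := by
    intro i
    have := (Finset.mem_Icc.1 (hx.1 i)).1
    exact_mod_cast this
  set W : ℝ := ∏ i ∈ Finset.univ.erase i0, (x i : ℝ) ^ we iso i with hW
  have hWpos : 0 < W := Finset.prod_pos fun i _ => Real.rpow_pos_of_pos (by linarith [hx1 i]) _
  by_cases hA : ∀ i, i ≠ i0 → A i (x i)
  · have e2 : ∏ i, g i (x i) = W⁻¹ := by
      rw [← Finset.mul_prod_erase Finset.univ _ (Finset.mem_univ i0)]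
      have e3 : g i0 (x i0) = 1 := by simp [hg, hx.2]
      rw [e3, one_mul, hW, ← Finset.prod_inv_distrib]
      apply Finset.prod_congr rfl
      intro i hi
      have hi' := Finset.ne_of_mem_erase hi
      simp only [hg, if_neg hi', if_pos (hA i hi')]
      rw [Real.rpow_neg (by linarith [hx1 i])]
    rw [e2]
    calc ∑ n ∈ B, (if (∏ i, ((Function.update x i0 n) i : ℝ) ^ we iso i ≤ Y) ∧
          ∀ i, i ≠ i0 → A i ((Function.update x i0 n) i) then (1:ℝ) else 0)
        ≤ ∑ n ∈ B, (if (n : ℝ) * W ≤ Y then (1:ℝ) else 0) := by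
          apply Finset.sum_le_sum
          intro n _
          rw [prod_update_we iso i0 h0]
          split_ifs with h h'
          · exact le_rfl
          · exact absurd h.1 h'
          · exact zero_le_one
          · exact le_rfl
      _ = ((B.filter fun n : ℕ => (n : ℝ) * W ≤ Y).card : ℝ) := by
          rw [Finset.card_filter]
          push_cast
          rfl
      _ ≤ ((Finset.Icc 1 ⌊Y / W⌋₊).card : ℝ) := by
          have hs : (B.filter fun n : ℕ => (n : ℝ) * W ≤ Y) ⊆ Finset.Icc 1 ⌊Y / W⌋₊ := by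
            intro n hn
            rw [Finset.mem_filter, hB, Finset.mem_Icc] at hn
            rw [Finset.mem_Icc]
            refine ⟨hn.1.1, Nat.le_floor ?_⟩
            rw [le_div_iff₀ hWpos]
            exact hn.2
          exact_mod_cast Finset.card_le_card hs
      _ ≤ Y * W⁻¹ := by
          rw [Nat.card_Icc, Nat.add_sub_cancel, ← div_eq_mul_inv]
          exact Nat.floor_le (by positivity)
  · have e4 : ∀ n ∈ B, (if (∏ i, ((Function.update x i0 n) i : ℝ) ^ we iso i ≤ Y) ∧
        ∀ i, i ≠ i0 → A i ((Function.update x i0 n) i) then (1:ℝ) else 0) = 0 := by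
      intro n _
      rw [if_neg]
      rintro ⟨_, h⟩
      apply hA
      intro i hi
      have := h i hi
      rwa [Function.update_of_ne hi] at this
    rw [Finset.sum_eq_zero e4]
    exact mul_nonneg hY0 (Finset.prod_nonneg fun i _ => hg0 i _)

end Pool.Agent.H98.MK
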