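import Pool.Agent.H98.MK.ADefs
import Pool.Agent.H98.MK.Triv
import Pool.Agent.H98.MK.GSAniso

/-!
# Project MK (MP_a3214d), row A5: all variables outside `R` are small
-/

set_option autoImplicit false

open scoped BigOperators
open Filter

namespace Pool.Agent.H98.MK

/-- every term is at most one -/
theorem a5_term {ι : Type} [Fintype ι] (L : ι → ι → Prop) (a : ι → ℕ → ℝ)
    (ha : ∀ l n, |a l n| ≤ 1) (x : ι → ℕ) : |(∏ i, a i (x i)) * (jp L x : ℝ)| ≤ 1 := by
  rw [abs_mul, Finset.abs_prod]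
  have h3 : ∏ j, |a j (x j)| ≤ 1 :=
    Finset.prod_le_one (fun j _ => abs_nonneg _) fun j _ => ha j _
  calc (∏ j, |a j (x j)|) * |(jp L x : ℝ)| ≤ 1 * 1 :=
        mul_le_mul h3 (a3_jp L x) (abs_nonneg _) zero_le_one
    _ = 1 := one_mul 1

open Classical in
/-- the sum is at most the number of tuples with small variables outside `R` -/
theorem a5_card {ι : Type} [Fintype ι] (iso : ι → Prop) (L : ι → ι → Prop) (R : ι → Prop)
    (Q : ι → Prop) (a : ι → ℕ → ℝ) (K Y : ℝ) (ha : ∀ l n, |a l n| ≤ 1)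
    (hK : ∀ i, ¬ R i → ∀ n, a i n ≠ 0 → (n : ℝ) ≤ K) :
    |GS iso L a Y| ≤ (((Fintype.piFinset (fun _ : ι => Finset.Icc 1 ⌊Y⌋₊)).filter (fun x =>
      (∏ i, (x i : ℝ) ^ we iso i ≤ Y) ∧ ∀ i, Q i → (¬ R i → (x i : ℝ) ≤ K))).card : ℝ) := by
  rw [Finset.card_filter]
  push_cast
  unfold GS
  refine le_trans (Finset.abs_sum_le_sum_abs _ _) (Finset.sum_le_sum fun x _ => ?_)
  have h01 : ∀ (p : Prop) [Decidable p], (0 : ℝ) ≤ if p then 1 else 0 := by
    intro p _
    split_ifs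
    · exact zero_le_one
    · exact le_rfl
  by_cases hc : Squarefree (2 * ∏ i, x i) ∧ ∏ i, (x i : ℝ) ^ we iso i ≤ Y
  · rw [if_pos hc]
    by_cases hz : ∃ j, a j (x j) = 0
    · obtain ⟨j, hj⟩ := hz
      rw [Finset.prod_eq_zero (Finset.mem_univ j) hj, zero_mul, abs_zero]
      exact h01 _
    · have hz' : ∀ j, a j (x j) ≠ 0 := fun j hj => hz ⟨j, hj⟩
      rw [if_pos ⟨hc.2, fun i _ hR => hK i hR _ (hz' i)⟩]
      exact a5_term L a ha x
  · rw [if_neg hc, abs_zero]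
    exact h01 _

/-- an elementary inequality -/
theorem a5_log (Y : ℝ) (hY : 1 ≤ Y) : Real.sqrt Y ≤ 2 * Y * (1 + Real.log Y)⁻¹ := by
  have h0 : 0 < Y := by linarith
  have hs : 0 < Real.sqrt Y := Real.sqrt_pos.2 h0
  have hl : 0 ≤ Real.log Y := Real.log_nonneg hY
  have h1 : Real.log Y = 2 * Real.log (Real.sqrt Y) := by
    rw [Real.log_sqrt h0.le]
    ring
  have h2 := Real.log_le_sub_one_of_pos hs
  have h3 : Real.sqrt Y * Real.sqrt Y = Y := Real.mul_self_sqrt h0.le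
  rw [← div_eq_mul_inv, le_div_iff₀ (by linarith)]
  nlinarith

/-- the sums of one variable -/
theorem a5_one {ι : Type} (iso : ι → Prop) (i : ι) (Y Z : ℝ) (p : ℕ → Prop)
    [DecidablePred p] (hZ : 1 ≤ Z) (hp : ∀ n ∈ Finset.Icc 1 ⌊Y⌋₊, p n → (n : ℝ) ≤ Z) :
    ∑ n ∈ (Finset.Icc 1 ⌊Y⌋₊).filter p, (n : ℝ) ^ (-(we iso i)) ≤ 1 + Real.log Z := by
  refine le_trans ?_ (a3_harm Z hZ)
  have hs : (Finset.Icc 1 ⌊Y⌋₊).filter p ⊆ Finset.Icc 1 ⌊Z⌋₊ := by
    intro n hn
    rw [Finset.mem_filter] at hn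
    exact Finset.mem_Icc.2 ⟨(Finset.mem_Icc.1 hn.1).1, Nat.le_floor (hp n hn.1 hn.2)⟩
  refine le_trans (Finset.sum_le_sum_of_subset_of_nonneg hs fun n _ _ => by positivity) ?_
  refine Finset.sum_le_sum fun n hn => ?_
  have h1 : (1 : ℝ) ≤ n := by exact_mod_cast (Finset.mem_Icc.1 hn).1
  have h2 : -(we iso i) ≤ -1 := by
    unfold we
    split_ifs
    · exact le_rfl
    · norm_num
  calc (n : ℝ) ^ (-(we iso i)) ≤ (n : ℝ) ^ (-1 : ℝ) := Real.rpow_le_rpow_of_exponent_le h1 h2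
    _ = ((n : ℝ))⁻¹ := Real.rpow_neg_one _

/-- all variables outside `R` are small -/
theorem GS_triv {ι : Type} [Fintype ι] (iso : ι → Prop) (L : ι → ι → Prop) (R : ι → Prop)
    (hR : ∀ i, R i → iso i) :
    ∃ C : ℝ, ∀ (a : ι → ℕ → ℝ) (K Y : ℝ), (∀ l n, |a l n| ≤ 1) → 1 ≤ K → 1 ≤ Y →
      K ^ (2 * Fintype.card ι) ≤ Y →
      (∀ i, ¬ R i → ∀ n, a i n ≠ 0 → (n : ℝ) ≤ K) →
      |GS iso L a Y| ≤ C * Y * (1 + Real.log Y) ^ ((Nat.card {i // R i} : ℝ) - 1) *
        (1 + Real.log K) ^ (Fintype.card ι) := by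
  classical
  refine ⟨2, fun a K Y ha hK hY hKY hs => ?_⟩
  have hY0 : 0 < Y := by linarith
  have hlY : 0 ≤ Real.log Y := Real.log_nonneg hY
  have hlK : 0 ≤ Real.log K := Real.log_nonneg hK
  have hcard : Nat.card {i // R i} = (Finset.univ.filter R).card := by
    rw [Nat.card_eq_fintype_card, Fintype.card_subtype]
  by_cases hne : ∃ i0, R i0
  · obtain ⟨i0, hi0⟩ := hne
    have h1 := a5_card iso L R (fun i => i ≠ i0) a K Y ha hs
    have h2 := triv iso i0 (hR i0 hi0) (fun i n => ¬ R i → (n : ℝ) ≤ K) Y hY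
    have h12 : |GS iso L a Y| ≤ Y * ∏ i ∈ Finset.univ.erase i0, ∑ n ∈ (Finset.Icc 1 ⌊Y⌋₊).filter
        (fun n : ℕ => ¬ R i → (n : ℝ) ≤ K), (n : ℝ) ^ (-(we iso i)) := by
      refine le_trans h1 (le_trans (le_of_eq ?_) (le_trans h2 (le_of_eq ?_)))
      all_goals congr!
    refine le_trans h12 ?_
    have h3 : ∏ i ∈ Finset.univ.erase i0, ∑ n ∈ (Finset.Icc 1 ⌊Y⌋₊).filter
          (fun n : ℕ => ¬ R i → (n : ℝ) ≤ K), (n : ℝ) ^ (-(we iso i)) ≤
        ∏ i ∈ Finset.univ.erase i0, (if R i then 1 + Real.log Y else 1 + Real.log K) := by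
      refine Finset.prod_le_prod (fun i _ => Finset.sum_nonneg fun n _ => by positivity)
        fun i _ => ?_
      by_cases hRi : R i
      · rw [if_pos hRi]
        exact a5_one iso i Y Y _ hY fun n hn _ =>
          le_trans (by exact_mod_cast (Finset.mem_Icc.1 hn).2) (Nat.floor_le hY0.le)
      · rw [if_neg hRi]
        exact a5_one iso i Y K _ hK fun n _ hn => hn hRi
    have h4 : ∏ i ∈ Finset.univ.erase i0, (if R i then 1 + Real.log Y else 1 + Real.log K) ≤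
        (1 + Real.log Y) ^ ((Nat.card {i // R i} : ℝ) - 1) *
          (1 + Real.log K) ^ (Fintype.card ι) := by
      rw [Finset.prod_ite, Finset.prod_const, Finset.prod_const]
      have e1 : ((Finset.univ.erase i0).filter R).card = (Finset.univ.filter R).card - 1 := by
        rw [Finset.filter_erase, Finset.card_erase_of_mem (by simp [hi0])]
      have hpos : 1 ≤ (Finset.univ.filter R).card :=
        Finset.card_pos.2 ⟨i0, by simp [hi0]⟩
      have e2 : (1 + Real.log Y) ^ ((Nat.card {i // R i} : ℝ) - 1) =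
          (1 + Real.log Y) ^ ((Finset.univ.erase i0).filter R).card := by
        rw [← Real.rpow_natCast, e1, hcard]
        congr 1
        push_cast [Nat.cast_sub hpos]
        ring
      rw [e2]
      refine mul_le_mul_of_nonneg_left ?_ (by positivity)
      refine pow_le_pow_right₀ (by linarith) ?_
      refine le_trans (Finset.card_filter_le _ _) ?_
      exact le_trans (Finset.card_le_univ _) le_rfl
    have h5 : 0 ≤ (1 + Real.log Y) ^ ((Nat.card {i // R i} : ℝ) - 1) *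
        (1 + Real.log K) ^ (Fintype.card ι) := by positivity
    calc Y * ∏ i ∈ Finset.univ.erase i0, ∑ n ∈ (Finset.Icc 1 ⌊Y⌋₊).filter
          (fun n : ℕ => ¬ R i → (n : ℝ) ≤ K), (n : ℝ) ^ (-(we iso i))
        ≤ Y * ((1 + Real.log Y) ^ ((Nat.card {i // R i} : ℝ) - 1) *
          (1 + Real.log K) ^ (Fintype.card ι)) :=
          mul_le_mul_of_nonneg_left (h3.trans h4) hY0.le
      _ ≤ 2 * Y * (1 + Real.log Y) ^ ((Nat.card {i // R i} : ℝ) - 1) *
          (1 + Real.log K) ^ (Fintype.card ι) := by nlinarith [mul_nonneg hY0.le h5]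
  · have hno : ∀ i, ¬ R i := fun i hi => hne ⟨i, hi⟩
    have h1 := a5_card iso L R (fun _ => True) a K Y ha hs
    have e0 : (Nat.card {i // R i} : ℝ) = 0 := by
      rw [hcard, Finset.filter_false_of_mem fun i _ => hno i]
      simp
    rw [e0, zero_sub, Real.rpow_neg_one]
    have h2 : (((Fintype.piFinset (fun _ : ι => Finset.Icc 1 ⌊Y⌋₊)).filter (fun x =>
        (∏ i, (x i : ℝ) ^ we iso i ≤ Y) ∧ ∀ i, True → (¬ R i → (x i : ℝ) ≤ K))).card : ℝ) ≤
        K ^ Fintype.card ι := by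
      have hsub : ((Fintype.piFinset (fun _ : ι => Finset.Icc 1 ⌊Y⌋₊)).filter (fun x =>
          (∏ i, (x i : ℝ) ^ we iso i ≤ Y) ∧ ∀ i, True → (¬ R i → (x i : ℝ) ≤ K))) ⊆
          Fintype.piFinset (fun _ : ι => Finset.Icc 1 ⌊K⌋₊) := by
        intro x hx
        rw [Finset.mem_filter, Fintype.mem_piFinset] at hx
        rw [Fintype.mem_piFinset]
        intro i
        exact Finset.mem_Icc.2 ⟨(Finset.mem_Icc.1 (hx.1 i)).1,
          Nat.le_floor (hx.2.2 i trivial (hno i))⟩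
      have h3 := Finset.card_le_card hsub
      rw [Fintype.card_piFinset, Finset.prod_const, Nat.card_Icc, Nat.add_sub_cancel,
        Finset.card_univ] at h3
      calc _ ≤ ((⌊K⌋₊ ^ Fintype.card ι : ℕ) : ℝ) := by exact_mod_cast h3
        _ = (⌊K⌋₊ : ℝ) ^ Fintype.card ι := by push_cast; rfl
        _ ≤ K ^ Fintype.card ι :=
          pow_le_pow_left₀ (by positivity) (Nat.floor_le (by linarith)) _
    have h3 : K ^ Fintype.card ι ≤ Real.sqrt Y := by
      refine Real.le_sqrt_of_sq_le ?_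
      rw [← pow_mul, mul_comm]
      exact hKY
    have h4 := a5_log Y hY
    have h5 : 1 ≤ (1 + Real.log K) ^ Fintype.card ι := one_le_pow₀ (by linarith)
    have h6 : 0 ≤ 2 * Y * (1 + Real.log Y)⁻¹ := by positivity
    have h7 : |GS iso L a Y| ≤ K ^ Fintype.card ι := by
      refine le_trans h1 (le_trans (le_of_eq ?_) h2)
      congr!
    calc |GS iso L a Y| ≤ 2 * Y * (1 + Real.log Y)⁻¹ := h7.trans (h3.trans h4)
      _ ≤ 2 * Y * (1 + Real.log Y)⁻¹ * (1 + Real.log K) ^ Fintype.card ι :=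
        le_mul_of_one_le_right h6 h5

end Pool.Agent.H98.MK
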