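import Pool.Agent.H98.MK.AT2Core
import Pool.Agent.H98.MK.GSTriv

/-!
# Project MK (MP_a3214d), row A6: the upper bound for the basic sums, from the bilinear and the
character bound
-/

set_option autoImplicit false

open scoped BigOperators
open Filter

namespace Pool.Agent.H98.MK

/-- the upper bound for the basic sums, from the bounds for a linked pair and for a character -/
theorem AT2_of {ι : Type} [Fintype ι] (iso : ι → Prop) (L : ι → ι → Prop) (c : ι → Fin 4)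
    (hpair : ∀ i j, L i j → iso i → iso j →
      ∃ C : ℝ, ∃ k : ℕ, ∀ (a : ι → ℕ → ℝ) (P Y : ℝ), (∀ l n, |a l n| ≤ 1) → 1 ≤ P → 1 ≤ Y →
      (∀ n, a i n ≠ 0 → P < n) → (∀ n, a j n ≠ 0 → P < n) →
      |GS iso L a Y| ≤ C * Y * P ^ (-(1 / 12) : ℝ) * (1 + Real.log Y) ^ k)
    (hchar : ∀ i, iso i → ∀ c : Fin 4, (c ≠ 0 ∨ ∃ j, L i j ∨ L j i) →
      ∃ C : ℝ, ∃ k : ℕ, ∀ (a : ι → ℕ → ℝ) (P K Y : ℝ), (∀ l n, |a l n| ≤ 1) → 1 ≤ P → 1 ≤ K →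
      1 ≤ Y → (∀ n : ℕ, a i n = if K < n then (psi c n : ℝ) else 0) →
      (∀ j, L i j ∨ L j i → ∀ n, a j n ≠ 0 → 2 ≤ n ∧ (n : ℝ) ≤ P) →
      |GS iso L a Y| ≤ C * Y * (P ^ (Fintype.card ι) / K) ^ (1 / 2 : ℝ) *
        (1 + Real.log Y) ^ k)
    (ε : ℝ) (hε : 0 < ε) :
    ∃ C : ℝ, ∀ Y : ℝ, 3 ≤ Y → |TS iso L c Y| ≤ C * Y * Real.log Y ^
      ((Nat.card {i // iso i ∧ c i = 0 ∧ ∀ j, ¬ L i j ∧ ¬ L j i} : ℝ) - 1 + ε) :=
  a6_core iso L c hpair (fun i hi => GS_aniso iso L i hi) hchar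
    (fun R hR => GS_triv iso L R hR) ε hε

end Pool.Agent.H98.MK
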