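import Pool.Agent.H98.MK.Bilin0

/-!
# Project MK, row B6: the bilinear bound, main part
-/

set_option autoImplicit false

open scoped BigOperators

open Filter

namespace Pool.Agent.H98.MK

/-- The pointwise difference. -/
theorem b6_point {P x d : ℝ} (hP : 1 ≤ P) (hd0 : 0 < d) {a b : ℕ → ℝ}
    (ha : ∀ m, |a m| ≤ 1) (hb : ∀ n, |b n| ≤ 1) (ha2 : ∀ n, a n ≠ 0 → P < n ∧ Odd n ∧ Squarefree n)
    (j m n : ℕ) :
    |b6chi P d j n * (if (m * n : ℝ) ≤ x then a m * b n * (jacobiSym m n : ℝ) else 0) -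
      b6chi P d j n * (if (m : ℝ) ≤ x / (P * (1 + d) ^ (j + 1)) then
        a m * b n * (jacobiSym m n : ℝ) else 0)| ≤
    b6chi P d j n * (if x / (P * (1 + d) ^ (j + 1)) < m ∧
      (m : ℝ) ≤ x / n ∧ (n : ℝ) ≤ x / P then (1 : ℝ) else 0) := by
  have hP0 : (0 : ℝ) < P := by linarith
  by_cases hc : P * (1 + d) ^ j < n ∧ (n : ℝ) ≤ P * (1 + d) ^ (j + 1)
  · rw [← mul_sub, abs_mul, abs_of_nonneg (b6chi_nonneg P d j n)]
    refine mul_le_mul_of_nonneg_left ?_ (b6chi_nonneg P d j n)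
    have hn0 : (0 : ℝ) < n := (mul_pos hP0 (pow_pos (by linarith) _)).trans hc.1
    have hN0 : (0 : ℝ) < P * (1 + d) ^ (j + 1) := mul_pos hP0 (pow_pos (by linarith) _)
    have hr : (0 : ℝ) ≤ (if x / (P * (1 + d) ^ (j + 1)) < m ∧
        (m : ℝ) ≤ x / n ∧ (n : ℝ) ≤ x / P then (1 : ℝ) else 0) := by
      split_ifs
      · exact zero_le_one
      · exact le_rfl
    by_cases h1 : (m : ℝ) ≤ x / (P * (1 + d) ^ (j + 1))
    · have h2 : (m * n : ℝ) ≤ x := by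
        have h3 : (m : ℝ) * (P * (1 + d) ^ (j + 1)) ≤ x := (le_div_iff₀ hN0).1 h1
        have h4 : (m : ℝ) * n ≤ m * (P * (1 + d) ^ (j + 1)) :=
          mul_le_mul_of_nonneg_left hc.2 (Nat.cast_nonneg m)
        exact h4.trans h3
      rw [if_pos h1, if_pos h2, sub_self, abs_zero]
      exact hr
    · rw [if_neg h1, sub_zero]
      by_cases h2 : (m * n : ℝ) ≤ x
      · rw [if_pos h2]
        by_cases h3 : a m = 0
        · rw [h3, zero_mul, zero_mul, abs_zero]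
          exact hr
        · have h4 : P < m := (ha2 m h3).1
          have h5 : (m : ℝ) ≤ x / n := (le_div_iff₀ hn0).2 h2
          have h6 : (n : ℝ) ≤ x / P := by
            rw [le_div_iff₀ hP0]
            have h7 : (n : ℝ) * P ≤ m * n := by
              rw [mul_comm]
              exact mul_le_mul_of_nonneg_right h4.le hn0.le
            exact h7.trans h2
          rw [if_pos ⟨not_le.1 h1, h5, h6⟩]
          exact b6_f ha hb m n
      · rw [if_neg h2, abs_zero]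
        exact hr
  · unfold b6chi
    rw [if_neg hc]
    simp

/-- The sum over one box. -/
theorem b6_box
    (hbox : ∀ (M N : ℕ) (_ : 1 ≤ M) (_ : 1 ≤ N) (a b : ℕ → ℝ) (_ : ∀ m, |a m| ≤ 1)
      (_ : ∀ n, |b n| ≤ 1) (_ : ∀ n, a n ≠ 0 → Odd n ∧ Squarefree n)
      (_ : ∀ n, b n ≠ 0 → Odd n ∧ Squarefree n) (P : ℝ) (_ : 1 ≤ P) (_ : P ≤ M) (_ : P ≤ N),
      |∑ m ∈ Finset.Icc 1 M, ∑ n ∈ Finset.Icc 1 N, a m * b n * (jacobiSym m n : ℝ)| ≤
        8 * (M * N) * P ^ (-(1 / 6) : ℝ) * (1 + Real.log (M * N)))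
    {P x d : ℝ} (hP : 1 ≤ P) (hx : 1 ≤ x) (hd0 : 0 < d) {a b : ℕ → ℝ}
    (ha : ∀ m, |a m| ≤ 1) (hb : ∀ n, |b n| ≤ 1) (ha2 : ∀ n, a n ≠ 0 → P < n ∧ Odd n ∧ Squarefree n)
    (hb2 : ∀ n, b n ≠ 0 → P < n ∧ Odd n ∧ Squarefree n) (j : ℕ) :
    |∑ m ∈ Finset.Icc 1 ⌊x⌋₊, ∑ n ∈ Finset.Icc 1 ⌊x⌋₊, b6chi P d j n *
      (if (m : ℝ) ≤ x / (P * (1 + d) ^ (j + 1)) then a m * b n * (jacobiSym m n : ℝ) else 0)| ≤
    8 * x * P ^ (-(1 / 6) : ℝ) * (1 + Real.log x) := by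
  have hP0 : (0 : ℝ) < P := by linarith
  have hx0 : (0 : ℝ) < x := by linarith
  have hlog : 0 ≤ Real.log x := Real.log_nonneg hx
  have hN1 : (1 : ℝ) ≤ P * (1 + d) ^ (j + 1) :=
    one_le_mul_of_one_le_of_one_le hP (one_le_pow₀ (by linarith))
  have hN0 : (0 : ℝ) < P * (1 + d) ^ (j + 1) := by linarith
  have hrhs : 0 ≤ 8 * x * P ^ (-(1 / 6) : ℝ) * (1 + Real.log x) := by
    have := Real.rpow_nonneg hP0.le (-(1 / 6) : ℝ)
    positivity
  set Nj : ℝ := P * (1 + d) ^ (j + 1) with hNj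
  set M : ℕ := ⌊x / Nj⌋₊ with hM
  set N : ℕ := ⌊Nj⌋₊ with hN
  have hMle : (M : ℝ) ≤ x / Nj := Nat.floor_le (by positivity)
  have hNle : (N : ℝ) ≤ Nj := Nat.floor_le hN0.le
  by_cases hPM : P ≤ M
  · by_cases hPN : P ≤ N
    · have hM1 : 1 ≤ M := by exact_mod_cast hP.trans hPM
      have hN1' : 1 ≤ N := by exact_mod_cast hP.trans hPN
      have hML : M ≤ ⌊x⌋₊ := Nat.floor_le_floor (div_le_self hx0.le hN1)
      have hNx : Nj ≤ x := by
        have h1 : (1 : ℝ) ≤ x / Nj := (show (1 : ℝ) ≤ M by exact_mod_cast hM1).trans hMle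
        rwa [one_le_div hN0] at h1
      have hNL : N ≤ ⌊x⌋₊ := Nat.floor_le_floor hNx
      have hS : ∑ m ∈ Finset.Icc 1 ⌊x⌋₊, ∑ n ∈ Finset.Icc 1 ⌊x⌋₊, b6chi P d j n *
          (if (m : ℝ) ≤ x / Nj then a m * b n * (jacobiSym m n : ℝ) else 0) =
          ∑ m ∈ Finset.Icc 1 M, ∑ n ∈ Finset.Icc 1 N,
            a m * (b6chi P d j n * b n) * (jacobiSym m n : ℝ) := by
        symm
        rw [← Finset.sum_subset (Finset.Icc_subset_Icc_right hML)]
        · refine Finset.sum_congr rfl fun m hm => ?_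
          rw [Finset.mem_Icc] at hm
          have hm2 : (m : ℝ) ≤ x / Nj := (Nat.cast_le.2 hm.2).trans hMle
          rw [← Finset.sum_subset (Finset.Icc_subset_Icc_right hNL)]
          · refine Finset.sum_congr rfl fun n _ => ?_
            rw [if_pos hm2]
            ring
          · intro n hn1 hn2
            rw [Finset.mem_Icc] at hn1 hn2
            have h3 : ¬ (n : ℝ) ≤ Nj := fun h => hn2 ⟨hn1.1, Nat.le_floor h⟩
            unfold b6chi
            rw [if_neg (fun h => h3 h.2), zero_mul]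
        · intro m hm1 hm2
          rw [Finset.mem_Icc] at hm1 hm2
          have h3 : ¬ (m : ℝ) ≤ x / Nj := fun h => hm2 ⟨hm1.1, Nat.le_floor h⟩
          refine Finset.sum_eq_zero fun n _ => ?_
          rw [if_neg h3, mul_zero]
      rw [hS]
      have hb' : ∀ n, |b6chi P d j n * b n| ≤ 1 := by
        intro n
        rw [abs_mul, abs_of_nonneg (b6chi_nonneg P d j n)]
        refine mul_le_one₀ ?_ (abs_nonneg _) (hb n)
        unfold b6chi
        split_ifs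
        · exact le_rfl
        · exact zero_le_one
      refine (hbox M N hM1 hN1' a (fun n => b6chi P d j n * b n) ha hb' (fun n h => (ha2 n h).2)
        (fun n h => (hb2 n (right_ne_zero_of_mul h)).2) P hP hPM hPN).trans ?_
      have hMN : (M : ℝ) * N ≤ x := by
        calc (M : ℝ) * N ≤ x / Nj * Nj :=
              mul_le_mul hMle hNle (Nat.cast_nonneg _) (by positivity)
          _ = x := by field_simp
      have hMN0 : (0 : ℝ) < (M : ℝ) * N := by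
        have h1 : (0 : ℝ) < M := by exact_mod_cast hM1
        have h2 : (0 : ℝ) < N := by exact_mod_cast hN1'
        positivity
      have hl2 : Real.log ((M : ℝ) * N) ≤ Real.log x := Real.log_le_log hMN0 hMN
      have hMN1 : (1 : ℝ) ≤ (M : ℝ) * N := by
        have h1 : (1 : ℝ) ≤ M := by exact_mod_cast hM1
        have h2 : (1 : ℝ) ≤ N := by exact_mod_cast hN1'
        exact one_le_mul_of_one_le_of_one_le h1 h2
      have hl3 : 0 ≤ Real.log ((M : ℝ) * N) := Real.log_nonneg hMN1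
      have hp := Real.rpow_nonneg hP0.le (-(1 / 6) : ℝ)
      refine mul_le_mul ?_ (by linarith) (by linarith) (by positivity)
      refine mul_le_mul_of_nonneg_right ?_ hp
      linarith
    · have h0 : ∑ m ∈ Finset.Icc 1 ⌊x⌋₊, ∑ n ∈ Finset.Icc 1 ⌊x⌋₊, b6chi P d j n *
          (if (m : ℝ) ≤ x / Nj then a m * b n * (jacobiSym m n : ℝ) else 0) = 0 := by
        refine Finset.sum_eq_zero fun m _ => Finset.sum_eq_zero fun n _ => ?_
        by_cases hbn : b n = 0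
        · rw [hbn]
          simp
        · have h3 : ¬ (n : ℝ) ≤ Nj := by
            intro h
            have h4 : n ≤ N := Nat.le_floor h
            have h5 : (n : ℝ) ≤ N := by exact_mod_cast h4
            exact hPN ((hb2 n hbn).1.le.trans h5)
          unfold b6chi
          rw [if_neg (fun h => h3 h.2), zero_mul]
      rw [h0, abs_zero]
      exact hrhs
  · have h0 : ∑ m ∈ Finset.Icc 1 ⌊x⌋₊, ∑ n ∈ Finset.Icc 1 ⌊x⌋₊, b6chi P d j n *
        (if (m : ℝ) ≤ x / Nj then a m * b n * (jacobiSym m n : ℝ) else 0) = 0 := by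
      refine Finset.sum_eq_zero fun m _ => Finset.sum_eq_zero fun n _ => ?_
      by_cases ham : a m = 0
      · rw [ham]
        simp
      · have h3 : ¬ (m : ℝ) ≤ x / Nj := by
          intro h
          have h4 : m ≤ M := Nat.le_floor h
          have h5 : (m : ℝ) ≤ M := by exact_mod_cast h4
          exact hPM ((ha2 m ham).1.le.trans h5)
        rw [if_neg h3, mul_zero]
    rw [h0, abs_zero]
    exact hrhs

/-- The bilinear bound, from the bound for boxes. -/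
theorem b6_main
    (hbox : ∀ (M N : ℕ) (_ : 1 ≤ M) (_ : 1 ≤ N) (a b : ℕ → ℝ) (_ : ∀ m, |a m| ≤ 1)
      (_ : ∀ n, |b n| ≤ 1) (_ : ∀ n, a n ≠ 0 → Odd n ∧ Squarefree n)
      (_ : ∀ n, b n ≠ 0 → Odd n ∧ Squarefree n) (P : ℝ) (_ : 1 ≤ P) (_ : P ≤ M) (_ : P ≤ N),
      |∑ m ∈ Finset.Icc 1 M, ∑ n ∈ Finset.Icc 1 N, a m * b n * (jacobiSym m n : ℝ)| ≤
        8 * (M * N) * P ^ (-(1 / 6) : ℝ) * (1 + Real.log (M * N))) :
    ∃ C : ℝ, ∀ (P x : ℝ) (a b : ℕ → ℝ), 1 ≤ P → 1 ≤ x → (∀ m, |a m| ≤ 1) →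
    (∀ n, |b n| ≤ 1) → (∀ n, a n ≠ 0 → P < n ∧ Odd n ∧ Squarefree n) →
    (∀ n, b n ≠ 0 → P < n ∧ Odd n ∧ Squarefree n) →
    |∑ m ∈ Finset.Icc 1 ⌊x⌋₊, ∑ n ∈ Finset.Icc 1 ⌊x⌋₊,
      if (m * n : ℝ) ≤ x then a m * b n * (jacobiSym m n : ℝ) else 0| ≤
      C * x * P ^ (-(1 / 12) : ℝ) * (1 + Real.log x) ^ 2 := by
  refine ⟨18, fun P x a b hP hx ha hb ha2 hb2 => ?_⟩
  have hP0 : (0 : ℝ) < P := by linarith
  have hx0 : (0 : ℝ) < x := by linarith
  have hlog : 0 ≤ Real.log x := Real.log_nonneg hx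
  obtain ⟨d, hd⟩ : ∃ d : ℝ, d = P ^ (-(1 / 12) : ℝ) := ⟨_, rfl⟩
  have hd0 : 0 < d := hd ▸ Real.rpow_pos_of_pos hP0 _
  have hd1 : d ≤ 1 := hd ▸ Real.rpow_le_one_of_one_le_of_nonpos hP (by norm_num)
  obtain ⟨J, hJ⟩ : ∃ J : ℕ, J = ⌈2 / d * Real.log x⌉₊ := ⟨_, rfl⟩
  have hJ1 : x ≤ P * (1 + d) ^ J := hJ ▸ b6_J hP hx hd0 hd1
  have hJ2 : (J : ℝ) ≤ 2 / d * (1 + Real.log x) := by
    have h1 : (J : ℝ) < 2 / d * Real.log x + 1 := hJ ▸ Nat.ceil_lt_add_one (by positivity)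
    have h2 : (1 : ℝ) ≤ 2 / d := by
      rw [le_div_iff₀ hd0]
      linarith
    linarith
  have hd2 : P ^ (-(1 / 6) : ℝ) = d * d := by
    rw [hd, ← Real.rpow_add hP0]
    norm_num
  have hPd : x / P ≤ d * x := by
    have h1 : P⁻¹ ≤ d := by
      rw [hd, ← Real.rpow_neg_one]
      exact Real.rpow_le_rpow_of_exponent_le hP (by norm_num)
    rw [div_eq_mul_inv, mul_comm]
    exact mul_le_mul_of_nonneg_right h1 hx0.le
  -- the sum over the boxes
  have hS : ∑ m ∈ Finset.Icc 1 ⌊x⌋₊, ∑ n ∈ Finset.Icc 1 ⌊x⌋₊,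
      (if (m * n : ℝ) ≤ x then a m * b n * (jacobiSym m n : ℝ) else 0) =
      ∑ m ∈ Finset.Icc 1 ⌊x⌋₊, ∑ n ∈ Finset.Icc 1 ⌊x⌋₊, ∑ j ∈ Finset.range J,
        b6chi P d j n * (if (m * n : ℝ) ≤ x then a m * b n * (jacobiSym m n : ℝ) else 0) := by
    refine Finset.sum_congr rfl fun m _ => Finset.sum_congr rfl fun n hn => ?_
    rw [← Finset.sum_mul]
    by_cases hbn : b n = 0
    · rw [hbn]
      simp
    · have hnx : (n : ℝ) ≤ x := by
        rw [Finset.mem_Icc] at hn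
        exact (Nat.cast_le.2 hn.2).trans (Nat.floor_le hx0.le)
      rw [b6chi_sum hP0 hd0.le (hb2 n hbn).1 (hnx.trans hJ1), one_mul]
  have hT : ∑ m ∈ Finset.Icc 1 ⌊x⌋₊, ∑ n ∈ Finset.Icc 1 ⌊x⌋₊, ∑ j ∈ Finset.range J,
      b6chi P d j n * (if (m : ℝ) ≤ x / (P * (1 + d) ^ (j + 1)) then
        a m * b n * (jacobiSym m n : ℝ) else 0) =
      ∑ j ∈ Finset.range J, ∑ m ∈ Finset.Icc 1 ⌊x⌋₊, ∑ n ∈ Finset.Icc 1 ⌊x⌋₊,
        b6chi P d j n * (if (m : ℝ) ≤ x / (P * (1 + d) ^ (j + 1)) then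
          a m * b n * (jacobiSym m n : ℝ) else 0) := by
    symm
    rw [Finset.sum_comm]
    refine Finset.sum_congr rfl fun m _ => ?_
    rw [Finset.sum_comm]
  have hTb : |∑ j ∈ Finset.range J, ∑ m ∈ Finset.Icc 1 ⌊x⌋₊, ∑ n ∈ Finset.Icc 1 ⌊x⌋₊,
      b6chi P d j n * (if (m : ℝ) ≤ x / (P * (1 + d) ^ (j + 1)) then
        a m * b n * (jacobiSym m n : ℝ) else 0)| ≤ 16 * x * d * (1 + Real.log x) ^ 2 := by
    refine (Finset.abs_sum_le_sum_abs _ _).trans ?_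
    refine (Finset.sum_le_sum fun j _ => b6_box hbox hP hx hd0 ha hb ha2 hb2 j).trans ?_
    rw [Finset.sum_const, Finset.card_range, nsmul_eq_mul, hd2]
    have h1 : (J : ℝ) * (8 * x * (d * d) * (1 + Real.log x)) ≤
        2 / d * (1 + Real.log x) * (8 * x * (d * d) * (1 + Real.log x)) :=
      mul_le_mul_of_nonneg_right hJ2 (by positivity)
    refine h1.trans (le_of_eq ?_)
    field_simp
    ring
  have hE : |∑ m ∈ Finset.Icc 1 ⌊x⌋₊, ∑ n ∈ Finset.Icc 1 ⌊x⌋₊, ∑ j ∈ Finset.range J,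
        b6chi P d j n * (if (m * n : ℝ) ≤ x then a m * b n * (jacobiSym m n : ℝ) else 0) -
      ∑ m ∈ Finset.Icc 1 ⌊x⌋₊, ∑ n ∈ Finset.Icc 1 ⌊x⌋₊, ∑ j ∈ Finset.range J,
        b6chi P d j n * (if (m : ℝ) ≤ x / (P * (1 + d) ^ (j + 1)) then
          a m * b n * (jacobiSym m n : ℝ) else 0)| ≤
      d * x * (1 + Real.log x) + x / P := by
    rw [← Finset.sum_sub_distrib]
    refine (Finset.abs_sum_le_sum_abs _ _).trans ?_
    have h1 : ∀ m ∈ Finset.Icc 1 ⌊x⌋₊,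
        |∑ n ∈ Finset.Icc 1 ⌊x⌋₊, ∑ j ∈ Finset.range J,
          b6chi P d j n * (if (m * n : ℝ) ≤ x then a m * b n * (jacobiSym m n : ℝ) else 0) -
        ∑ n ∈ Finset.Icc 1 ⌊x⌋₊, ∑ j ∈ Finset.range J,
          b6chi P d j n * (if (m : ℝ) ≤ x / (P * (1 + d) ^ (j + 1)) then
            a m * b n * (jacobiSym m n : ℝ) else 0)| ≤
        ∑ n ∈ Finset.Icc 1 ⌊x⌋₊, ∑ j ∈ Finset.range J,
          b6chi P d j n * (if x / (P * (1 + d) ^ (j + 1)) < m ∧
            (m : ℝ) ≤ x / n ∧ (n : ℝ) ≤ x / P then (1 : ℝ) else 0) := by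
      intro m _
      rw [← Finset.sum_sub_distrib]
      refine (Finset.abs_sum_le_sum_abs _ _).trans (Finset.sum_le_sum fun n _ => ?_)
      rw [← Finset.sum_sub_distrib]
      refine (Finset.abs_sum_le_sum_abs _ _).trans (Finset.sum_le_sum fun j _ => ?_)
      exact b6_point hP hd0 ha hb ha2 j m n
    refine (Finset.sum_le_sum h1).trans ?_
    rw [Finset.sum_comm]
    have h2 : ∀ n ∈ Finset.Icc 1 ⌊x⌋₊, ∑ m ∈ Finset.Icc 1 ⌊x⌋₊, ∑ j ∈ Finset.range J,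
          b6chi P d j n * (if x / (P * (1 + d) ^ (j + 1)) < m ∧
            (m : ℝ) ≤ x / n ∧ (n : ℝ) ≤ x / P then (1 : ℝ) else 0) ≤
        (if (n : ℝ) ≤ x / P then d * x * (n : ℝ)⁻¹ + 1 else 0) := by
      intro n _
      rw [Finset.sum_comm]
      have h3 : ∀ j ∈ Finset.range J, ∑ m ∈ Finset.Icc 1 ⌊x⌋₊,
          b6chi P d j n * (if x / (P * (1 + d) ^ (j + 1)) < m ∧
            (m : ℝ) ≤ x / n ∧ (n : ℝ) ≤ x / P then (1 : ℝ) else 0) ≤
          b6chi P d j n * (if (n : ℝ) ≤ x / P then d * x * (n : ℝ)⁻¹ + 1 else 0) := by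
        intro j _
        rw [← Finset.mul_sum]
        exact b6_err ⌊x⌋₊ hP0 hx0 hd0 j n
      refine (Finset.sum_le_sum h3).trans ?_
      rw [← Finset.sum_mul]
      have h4 : (0 : ℝ) ≤ (if (n : ℝ) ≤ x / P then d * x * (n : ℝ)⁻¹ + 1 else 0) := by
        split_ifs
        · positivity
        · exact le_rfl
      exact mul_le_of_le_one_left h4 (b6chi_sum_le hP0 hd0.le J n)
    exact (Finset.sum_le_sum h2).trans (b6_errsum hP hx hd0)
  rw [hS]
  rw [hT] at hE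
  have h5 := abs_sub_abs_le_abs_sub
    (∑ m ∈ Finset.Icc 1 ⌊x⌋₊, ∑ n ∈ Finset.Icc 1 ⌊x⌋₊, ∑ j ∈ Finset.range J,
      b6chi P d j n * (if (m * n : ℝ) ≤ x then a m * b n * (jacobiSym m n : ℝ) else 0))
    (∑ j ∈ Finset.range J, ∑ m ∈ Finset.Icc 1 ⌊x⌋₊, ∑ n ∈ Finset.Icc 1 ⌊x⌋₊,
      b6chi P d j n * (if (m : ℝ) ≤ x / (P * (1 + d) ^ (j + 1)) then
        a m * b n * (jacobiSym m n : ℝ) else 0))
  rw [← hd]
  have h6 : d * x * (1 + Real.log x) ≤ x * d * (1 + Real.log x) ^ 2 := by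
    have h7 : (1 + Real.log x) ≤ (1 + Real.log x) ^ 2 := by nlinarith
    have h8 : 0 ≤ d * x := by positivity
    nlinarith [mul_le_mul_of_nonneg_left h7 h8]
  have h9 : d * x ≤ x * d * (1 + Real.log x) ^ 2 := by
    have h7 : (1 : ℝ) ≤ (1 + Real.log x) ^ 2 := by nlinarith
    have h8 : 0 ≤ d * x := by positivity
    nlinarith [mul_le_mul_of_nonneg_left h7 h8]
  linarith

end Pool.Agent.H98.MK
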