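import Pool.Agent.H98.MK.ADefs

/-!
# Project MK, row B4: bilinear bound for a box, from the sieve and the count of triples
-/

set_option autoImplicit false

open scoped BigOperators
open Filter

namespace Pool.Agent.H98.MK

/-- The triples with entries up to `M`. -/
abbrev boxT (M : ℕ) : Finset (Fin 3 → ℕ) := Fintype.piFinset (fun _ : Fin 3 => Finset.Icc 1 M)

/-- The coefficients of the cube of the sum. -/
noncomputable def boxA (M : ℕ) (a : ℕ → ℝ) (k : ℕ) : ℝ :=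
  ∑ z ∈ (boxT M).filter (fun z => ∏ i, z i = k), ∏ i, a (z i)

theorem box_prod_mem (M : ℕ) (z : Fin 3 → ℕ) (hz : z ∈ boxT M) :
    ∏ i, z i ∈ Finset.Icc 1 (M ^ 3) := by
  have h := Fintype.mem_piFinset.1 hz
  have h1 : ∀ i, 1 ≤ z i ∧ z i ≤ M := fun i => Finset.mem_Icc.1 (h i)
  refine Finset.mem_Icc.2 ⟨?_, ?_⟩
  · exact Nat.one_le_iff_ne_zero.2 (Finset.prod_ne_zero_iff.2 fun i _ => by
      have := (h1 i).1
      omega)
  · calc ∏ i, z i ≤ ∏ _i : Fin 3, M := Finset.prod_le_prod' fun i _ => (h1 i).2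
      _ = M ^ 3 := by simp

theorem box_cube (M n : ℕ) (a : ℕ → ℝ) :
    (∑ m ∈ Finset.Icc 1 M, a m * (jacobiSym m n : ℝ)) ^ 3 =
      ∑ k ∈ Finset.Icc 1 (M ^ 3), boxA M a k * (jacobiSym k n : ℝ) := by
  have h1 : (∑ m ∈ Finset.Icc 1 M, a m * (jacobiSym m n : ℝ)) ^ 3 =
      ∏ _i : Fin 3, ∑ m ∈ Finset.Icc 1 M, a m * (jacobiSym m n : ℝ) := by
    simp
  rw [h1, Finset.prod_univ_sum]
  rw [← Finset.sum_fiberwise_of_maps_to (g := fun z : Fin 3 → ℕ => ∏ i, z i)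
    (t := Finset.Icc 1 (M ^ 3)) (fun z hz => box_prod_mem M z hz)]
  refine Finset.sum_congr rfl fun k _ => ?_
  rw [boxA, Finset.sum_mul]
  refine Finset.sum_congr rfl fun z hz => ?_
  have hk : ∏ i, z i = k := (Finset.mem_filter.1 hz).2
  rw [Finset.prod_mul_distrib]
  congr 1
  rw [← hk]
  simp only [Fin.prod_univ_three]
  push_cast
  rw [jacobiSym.mul_left, jacobiSym.mul_left]
  push_cast
  ring

theorem box_abs (M : ℕ) (a : ℕ → ℝ) (ha : ∀ m, |a m| ≤ 1) (k : ℕ) :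
    |boxA M a k| ≤ (((boxT M).filter (fun z => ∏ i, z i = k)).card : ℝ) := by
  rw [boxA]
  refine (Finset.abs_sum_le_sum_abs _ _).trans ?_
  rw [Finset.card_eq_sum_ones]
  push_cast
  refine Finset.sum_le_sum fun z _ => ?_
  rw [Finset.abs_prod]
  exact Finset.prod_le_one (fun i _ => abs_nonneg _) fun i _ => ha _

theorem box_pairs (M : ℕ) :
    ((((boxT M) ×ˢ (boxT M)).filter
      (fun z : (Fin 3 → ℕ) × (Fin 3 → ℕ) => ∏ i, z.1 i = ∏ i, z.2 i)).card : ℝ) =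
    ∑ k ∈ Finset.Icc 1 (M ^ 3), (((boxT M).filter (fun z => ∏ i, z i = k)).card : ℝ) ^ 2 := by
  have h := Finset.card_eq_sum_card_fiberwise
    (s := ((boxT M) ×ˢ (boxT M)).filter
      (fun z : (Fin 3 → ℕ) × (Fin 3 → ℕ) => ∏ i, z.1 i = ∏ i, z.2 i))
    (f := fun z : (Fin 3 → ℕ) × (Fin 3 → ℕ) => ∏ i, z.1 i) (t := Finset.Icc 1 (M ^ 3))
    (fun z hz => box_prod_mem M z.1
      (Finset.mem_product.1 (Finset.mem_filter.1 hz).1).1)
  rw [h]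
  push_cast
  refine Finset.sum_congr rfl fun k _ => ?_
  rw [sq, ← Nat.cast_mul, ← Finset.card_product]
  congr 2
  ext z
  simp only [Finset.mem_filter, Finset.mem_product]
  constructor
  · rintro ⟨⟨⟨h1, h2⟩, h3⟩, h4⟩
    exact ⟨⟨h1, h4⟩, h2, by rw [← h3, h4]⟩
  · rintro ⟨⟨h1, h4⟩, h2, h5⟩
    exact ⟨⟨⟨h1, h2⟩, by rw [h4, h5]⟩, h4⟩

theorem box_of (hsieve : ∀ (M N : ℕ) (S : Finset ℕ),
    (∀ n ∈ S, 1 ≤ n ∧ n ≤ N ∧ Odd n ∧ Squarefree n) → ∀ a : ℕ → ℝ,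
    ∑ n ∈ S, (∑ m ∈ Finset.Icc 1 M, a m * (jacobiSym m n : ℝ)) ^ 2 ≤
      (M + (N : ℝ) ^ 3) * ∑ m ∈ Finset.Icc 1 M, a m ^ 2)
    (hsix : ∀ (M : ℕ), 1 ≤ M →
    ((((Fintype.piFinset (fun _ : Fin 3 => Finset.Icc 1 M)) ×ˢ
      (Fintype.piFinset (fun _ : Fin 3 => Finset.Icc 1 M))).filter
        (fun z : (Fin 3 → ℕ) × (Fin 3 → ℕ) => ∏ i, z.1 i = ∏ i, z.2 i)).card : ℝ) ≤
      (M : ℝ) ^ 3 * (1 + Real.log M) ^ 6)
    (M N : ℕ) (h : N ≤ M) (hN : 1 ≤ N) (a b : ℕ → ℝ) (ha : ∀ m, |a m| ≤ 1)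
    (hb : ∀ n, |b n| ≤ 1) (hb2 : ∀ n, b n ≠ 0 → Odd n ∧ Squarefree n) :
    |∑ m ∈ Finset.Icc 1 M, ∑ n ∈ Finset.Icc 1 N, a m * b n * (jacobiSym m n : ℝ)| ≤
      2 * M * (N : ℝ) ^ (5 / 6 : ℝ) * (1 + Real.log M) := by
  classical
  have hM : 1 ≤ M := hN.trans h
  have hM' : (1 : ℝ) ≤ M := by exact_mod_cast hM
  have hlog : 0 ≤ Real.log M := Real.log_nonneg hM'
  set S : Finset ℕ := (Finset.Icc 1 N).filter (fun n => Odd n ∧ Squarefree n) with hS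
  set T : ℕ → ℝ := fun n => ∑ m ∈ Finset.Icc 1 M, a m * (jacobiSym m n : ℝ) with hT
  have hSp : ∀ n ∈ S, 1 ≤ n ∧ n ≤ N ∧ Odd n ∧ Squarefree n := by
    intro n hn
    obtain ⟨h1, h2⟩ := Finset.mem_filter.1 hn
    obtain ⟨h3, h4⟩ := Finset.mem_Icc.1 h1
    exact ⟨h3, h4, h2⟩
  -- the sum over `n`
  have h1 : ∑ m ∈ Finset.Icc 1 M, ∑ n ∈ Finset.Icc 1 N, a m * b n * (jacobiSym m n : ℝ) =
      ∑ n ∈ S, b n * T n := by
    rw [Finset.sum_comm]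
    have h2 : ∑ n ∈ S, b n * T n = ∑ n ∈ Finset.Icc 1 N, b n * T n := by
      refine Finset.sum_subset (Finset.filter_subset _ _) fun n hn hn' => ?_
      by_cases h0 : b n = 0
      · rw [h0, zero_mul]
      · exact absurd (Finset.mem_filter.2 ⟨hn, hb2 n h0⟩) hn'
    rw [h2]
    refine Finset.sum_congr rfl fun n _ => ?_
    rw [hT, Finset.mul_sum]
    exact Finset.sum_congr rfl fun m _ => by ring
  have h2 : |∑ m ∈ Finset.Icc 1 M, ∑ n ∈ Finset.Icc 1 N, a m * b n * (jacobiSym m n : ℝ)| ≤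
      ∑ n ∈ S, |T n| := by
    rw [h1]
    refine (Finset.abs_sum_le_sum_abs _ _).trans (Finset.sum_le_sum fun n _ => ?_)
    rw [abs_mul]
    exact mul_le_of_le_one_left (abs_nonneg _) (hb n)
  have hcard : (S.card : ℝ) ≤ N := by
    have : S.card ≤ (Finset.Icc 1 N).card := Finset.card_filter_le _ _
    rw [Nat.card_Icc] at this
    exact_mod_cast this
  -- the sixth power mean
  have h3 : (∑ n ∈ S, |T n|) ^ 6 ≤ (N : ℝ) ^ 5 * ∑ n ∈ S, (T n) ^ 6 := by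
    have h5 : (∑ n ∈ S, |T n|) ^ (5 + 1) ≤ (S.card : ℝ) ^ 5 * ∑ n ∈ S, |T n| ^ (5 + 1) :=
      pow_sum_le_card_mul_sum_pow (fun n _ => abs_nonneg _) 5
    refine h5.trans ?_
    have h6 : ∑ n ∈ S, |T n| ^ (5 + 1) = ∑ n ∈ S, (T n) ^ 6 :=
      Finset.sum_congr rfl fun n _ => (Even.pow_abs (by decide) (T n))
    rw [h6]
    refine mul_le_mul_of_nonneg_right (pow_le_pow_left₀ (by positivity) hcard 5) ?_
    exact Finset.sum_nonneg fun n _ => (by decide : Even 6).pow_nonneg _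
  have h4 : ∑ n ∈ S, (T n) ^ 6 ≤ (((M ^ 3 : ℕ) : ℝ) + (N : ℝ) ^ 3) *
      ∑ k ∈ Finset.Icc 1 (M ^ 3), boxA M a k ^ 2 := by
    refine le_trans (le_of_eq ?_) (hsieve (M ^ 3) N S hSp (boxA M a))
    refine Finset.sum_congr rfl fun n _ => ?_
    rw [← box_cube, ← pow_mul]
  have h5 : ∑ k ∈ Finset.Icc 1 (M ^ 3), boxA M a k ^ 2 ≤ (M : ℝ) ^ 3 * (1 + Real.log M) ^ 6 := by
    refine le_trans ?_ (hsix M hM)
    rw [box_pairs M]
    refine Finset.sum_le_sum fun k _ => ?_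
    rw [← sq_abs]
    exact pow_le_pow_left₀ (abs_nonneg _) (box_abs M a ha k) 2
  have hNM : (N : ℝ) ^ 3 ≤ (M : ℝ) ^ 3 :=
    pow_le_pow_left₀ (Nat.cast_nonneg _) (by exact_mod_cast h) 3
  have h6 : (∑ n ∈ S, |T n|) ^ 6 ≤
      (2 * M * (N : ℝ) ^ (5 / 6 : ℝ) * (1 + Real.log M)) ^ 6 := by
    have hN6 : ((N : ℝ) ^ (5 / 6 : ℝ)) ^ 6 = (N : ℝ) ^ 5 := by
      rw [← Real.rpow_natCast, ← Real.rpow_mul (Nat.cast_nonneg _)]
      norm_num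
    have h7 : (2 * M * (N : ℝ) ^ (5 / 6 : ℝ) * (1 + Real.log M)) ^ 6 =
        (N : ℝ) ^ 5 * (64 * (M : ℝ) ^ 6 * (1 + Real.log M) ^ 6) := by
      rw [mul_pow, mul_pow, mul_pow, hN6]
      ring
    rw [h7]
    refine h3.trans (mul_le_mul_of_nonneg_left ?_ (by positivity))
    refine h4.trans ?_
    push_cast
    calc ((M : ℝ) ^ 3 + (N : ℝ) ^ 3) * ∑ k ∈ Finset.Icc 1 (M ^ 3), boxA M a k ^ 2
        ≤ ((M : ℝ) ^ 3 + (M : ℝ) ^ 3) * ((M : ℝ) ^ 3 * (1 + Real.log M) ^ 6) := by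
          refine mul_le_mul (by linarith) h5 (Finset.sum_nonneg fun k _ => sq_nonneg _)
            (by positivity)
      _ = 2 * (M : ℝ) ^ 6 * (1 + Real.log M) ^ 6 := by ring
      _ ≤ 64 * (M : ℝ) ^ 6 * (1 + Real.log M) ^ 6 := by
          have : 0 ≤ (M : ℝ) ^ 6 * (1 + Real.log M) ^ 6 := by positivity
          linarith
  refine h2.trans ?_
  by_contra hcon
  push Not at hcon
  exact absurd h6 (not_le.2 (pow_lt_pow_left₀ hcon (by positivity) (by norm_num)))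

end Pool.Agent.H98.MK
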