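import Pool.Agent.H98.MK.ADefs

/-!
# Project MK (MP_a3214d), row B1: sums of a Jacobi symbol with non-square modulus
-/

set_option autoImplicit false
set_option maxHeartbeats 400000

open scoped BigOperators
open Filter

namespace Pool.Agent.H98.MK

/-- an odd non-square has a prime factor with odd exponent -/
private theorem js_odd_exp {N : ℕ} (hN : Odd N) (hs : ¬ IsSquare N) :
    ∃ (q e N' : ℕ), q.Prime ∧ q ≠ 2 ∧ Odd e ∧ ¬ q ∣ N' ∧ N = q ^ e * N' := by
  have hN0 : N ≠ 0 := by
    rintro rfl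
    exact hs ⟨0, rfl⟩
  obtain ⟨t, s, hst, hsq⟩ := Nat.sq_mul_squarefree N
  have hs0 : s ≠ 0 := by
    rintro rfl
    apply hN0
    rw [← hst]
    simp
  have ht0 : t ≠ 0 := by
    rintro rfl
    apply hN0
    rw [← hst]
    simp
  have ht1 : t ≠ 1 := by
    rintro rfl
    apply hs
    rw [← hst]
    exact ⟨s, by ring⟩
  obtain ⟨q, hq, hqt⟩ := Nat.exists_prime_and_dvd ht1
  obtain ⟨e, N', hqN', hN'⟩ := Nat.exists_eq_pow_mul_and_not_dvd hN0 q hq.ne_one
  refine ⟨q, e, N', hq, ?_, ?_, hqN', hN'⟩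
  · rintro rfl
    have h1 : 2 ∣ N := by
      rw [← hst]
      exact hqt.mul_left _
    obtain ⟨k, hk⟩ := hN
    omega
  · have hN'0 : N' ≠ 0 := by
      rintro rfl
      exact hqN' (dvd_zero q)
    have h1 : N.factorization q = e := by
      rw [hN', Nat.factorization_mul (pow_ne_zero _ hq.ne_zero) hN'0, Nat.factorization_pow]
      simp [hq.factorization_self, Nat.factorization_eq_zero_of_not_dvd hqN']
    have h2 : N.factorization q = 2 * s.factorization q + t.factorization q := by
      rw [← hst, Nat.factorization_mul (pow_ne_zero _ hs0) ht0, Nat.factorization_pow]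
      simp
    have h3 : t.factorization q = 1 := by
      have h4 := (hsq.natFactorization_le_one q)
      have h5 : 1 ≤ t.factorization q := (hq.dvd_iff_one_le_factorization ht0).1 hqt
      omega
    rw [← h1, h2, h3]
    exact ⟨_, rfl⟩

/-- a residue with Jacobi symbol `-1` -/
private theorem js_exists {N : ℕ} (hN : Odd N) (hs : ¬ IsSquare N) :
    ∃ u : ℕ, jacobiSym u N = -1 := by
  obtain ⟨q, e, N', hq, hq2, he, hqN', hN'⟩ := js_odd_exp hN hs
  have : Fact q.Prime := ⟨hq⟩
  obtain ⟨a, ha⟩ := FiniteField.exists_nonsquare (F := ZMod q) (by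
    rw [ZMod.ringChar_zmod_n]
    exact hq2)
  have hcop : q.Coprime N' := (Nat.Prime.coprime_iff_not_dvd hq).2 hqN'
  obtain ⟨u, hu1, hu2⟩ := Nat.chineseRemainder hcop a.val 1
  refine ⟨u, ?_⟩
  have hq0 : NeZero q := ⟨hq.ne_zero⟩
  have hN'0 : N' ≠ 0 := by
    rintro rfl
    exact hqN' (dvd_zero q)
  have : NeZero N' := ⟨hN'0⟩
  have h1 : jacobiSym u q = -1 := by
    rw [← jacobiSym.legendreSym.to_jacobiSym, legendreSym.eq_neg_one_iff]
    have h2 : ((u : ℤ) : ZMod q) = a := by
      have h3 : ((u : ℕ) : ZMod q) = ((a.val : ℕ) : ZMod q) := (ZMod.natCast_eq_natCast_iff _ _ _).2 hu1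
      rw [Int.cast_natCast, h3, ZMod.natCast_val, ZMod.cast_id]
    rw [h2]
    exact ha
  have h2 : jacobiSym u N' = 1 := by
    have h3 : ((u : ℕ) : ℤ) % (N' : ℕ) = (1 : ℤ) % (N' : ℕ) := by
      have := hu2
      unfold Nat.ModEq at this
      exact_mod_cast this
    rw [jacobiSym.mod_left' h3, jacobiSym.one_left]
  have : NeZero (q ^ e) := ⟨pow_ne_zero _ hq.ne_zero⟩
  rw [hN', jacobiSym.mul_right, jacobiSym.pow_right, h1, h2, mul_one]
  exact he.neg_one_pow

private theorem js_abs (a : ℤ) (N : ℕ) : |jacobiSym a N| ≤ 1 := by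
  rcases jacobiSym.trichotomy a N with h | h | h <;> rw [h] <;> simp

/-- the sum over a full period -/
private theorem js_period {N : ℕ} (hN : Odd N) (hs : ¬ IsSquare N) :
    ∑ m ∈ Finset.range N, jacobiSym m N = 0 := by
  obtain ⟨u, hu⟩ := js_exists hN hs
  have hN0 : N ≠ 0 := by
    rintro rfl
    exact hs ⟨0, rfl⟩
  have : NeZero N := ⟨hN0⟩
  have hsum : ∑ m ∈ Finset.range N, jacobiSym m N = ∑ x : ZMod N, jacobiSym x.val N := by
    refine Finset.sum_bij' (fun m _ => (m : ZMod N)) (fun x _ => x.val) ?_ ?_ ?_ ?_ ?_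
    · intro m _
      exact Finset.mem_univ _
    · intro x _
      exact Finset.mem_range.2 (ZMod.val_lt x)
    · intro m hm
      exact ZMod.val_natCast_of_lt (Finset.mem_range.1 hm)
    · intro x _
      exact ZMod.natCast_zmod_val x
    · intro m hm
      rw [ZMod.val_natCast_of_lt (Finset.mem_range.1 hm)]
  rw [hsum]
  have hcop : u.Coprime N := by
    by_contra hc
    have h1 : jacobiSym u N = 0 := by
      rw [jacobiSym.eq_zero_iff_not_coprime, Int.gcd_natCast_natCast]
      exact hc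
    rw [hu] at h1
    norm_num at h1
  have hunit : IsUnit ((u : ℕ) : ZMod N) := (ZMod.isUnit_iff_coprime u N).2 hcop
  obtain ⟨v, hv⟩ := hunit
  have h3 : ∀ x : ZMod N, jacobiSym ((v * x : ZMod N)).val N = -jacobiSym x.val N := by
    intro x
    have h4 : (((v * x : ZMod N).val : ℕ) : ℤ) % (N : ℕ) = ((u : ℤ) * (x.val : ℤ)) % (N : ℕ) := by
      have h5 : (((v * x : ZMod N).val : ℕ) : ZMod N) = ((u * x.val : ℕ) : ZMod N) := by
        rw [ZMod.natCast_zmod_val, hv]
        push_cast
        rw [ZMod.natCast_zmod_val]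
      have h6 := (ZMod.natCast_eq_natCast_iff _ _ _).1 h5
      unfold Nat.ModEq at h6
      exact_mod_cast h6
    rw [jacobiSym.mod_left' h4, jacobiSym.mul_left, hu]
    ring
  have h7 : ∑ x : ZMod N, jacobiSym x.val N = ∑ x : ZMod N, jacobiSym ((v * x : ZMod N)).val N :=
    (Equiv.sum_comp (Units.mulLeft v) (fun x : ZMod N => jacobiSym x.val N)).symm
  have h8 : ∑ x : ZMod N, jacobiSym x.val N = -∑ x : ZMod N, jacobiSym x.val N := by
    conv_lhs => rw [h7]
    rw [← Finset.sum_neg_distrib]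
    exact Finset.sum_congr rfl fun x _ => h3 x
  linarith

/-- **Row B1.** -/
theorem jac_sum_le (N : ℕ) (hN : Odd N) (hs : ¬ IsSquare N) (M : ℕ) :
    |∑ m ∈ Finset.Icc 1 M, jacobiSym m N| ≤ N := by
  have hN0 : N ≠ 0 := by
    rintro rfl
    exact hs ⟨0, rfl⟩
  have hN1 : 1 < N := by
    rcases Nat.lt_or_ge 1 N with h | h
    · exact h
    · exfalso
      have h1 : N = 1 := by omega
      rw [h1] at hs
      exact hs ⟨1, rfl⟩
  set g : ℕ → ℤ := fun M => ∑ m ∈ Finset.range M, jacobiSym m N with hg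
  have hper : ∀ m : ℕ, jacobiSym ((m + N : ℕ) : ℤ) N = jacobiSym m N := by
    intro m
    apply jacobiSym.mod_left'
    push_cast
    exact Int.add_emod_right _ _
  -- windows
  have hw : ∀ M, g (M + N) = g M := by
    intro M
    induction M with
    | zero =>
      rw [zero_add]
      show ∑ m ∈ Finset.range N, jacobiSym m N = ∑ m ∈ Finset.range 0, jacobiSym m N
      rw [js_period hN hs, Finset.sum_range_zero]
    | succ M ih =>
      have h1 : g (M + 1 + N) = g (M + N) + jacobiSym ((M + N : ℕ) : ℤ) N := by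
        have h2 : M + 1 + N = (M + N) + 1 := by ring
        rw [h2]
        exact Finset.sum_range_succ _ _
      have h3 : g (M + 1) = g M + jacobiSym (M : ℤ) N := Finset.sum_range_succ _ _
      rw [h1, h3, ih, hper]
  have hb : ∀ r, |g r| ≤ r := by
    intro r
    refine (Finset.abs_sum_le_sum_abs _ _).trans ?_
    have h1 : ∑ m ∈ Finset.range r, |jacobiSym (m : ℤ) N| ≤ ∑ m ∈ Finset.range r, (1 : ℤ) :=
      Finset.sum_le_sum fun m _ => js_abs (m : ℤ) N
    refine h1.trans ?_
    simp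
  have hall : ∀ k r, g (r + k * N) = g r := by
    intro k r
    induction k with
    | zero => rw [zero_mul, add_zero]
    | succ k ih =>
      have h1 : r + (k + 1) * N = (r + k * N) + N := by ring
      rw [h1, hw, ih]
  have hle : ∀ M, |g M| ≤ N := by
    intro M
    have h1 : M = M % N + (M / N) * N := by
      rw [mul_comm]
      exact (Nat.mod_add_div M N).symm
    rw [h1, hall]
    refine (hb _).trans ?_
    exact_mod_cast (Nat.mod_lt M (Nat.pos_of_ne_zero hN0)).le
  have h0 : ∑ m ∈ Finset.Icc 1 M, jacobiSym m N = g (M + 1) := by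
    show _ = ∑ m ∈ Finset.range (M + 1), jacobiSym m N
    rw [Finset.sum_range_succ', Nat.cast_zero, jacobiSym.zero_left hN1, add_zero]
    rw [Finset.range_eq_Ico, Finset.sum_Ico_add' (fun m : ℕ => jacobiSym (m : ℤ) N) 0 M 1]
    rfl
  rw [h0]
  exact hle _

end Pool.Agent.H98.MK
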