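import Pool.Agent.H98.MK.ADefs
import Pool.Agent.H98.MK.JacSum

/-!
# Project MK, row B2: mean square of Jacobi sums (helper78)
-/

set_option autoImplicit false

open scoped BigOperators
open Filter

namespace Pool.Agent.H98.MK

theorem sv_eq_of_square {a b : ℕ} (ha : Squarefree a) (hb : Squarefree b)
    (h : IsSquare (a * b)) : a = b := by
  obtain ⟨k, hk⟩ := h
  have ha0 : a ≠ 0 := ha.ne_zero
  have hak : a ∣ k := by
    have h1 : a ∣ k ^ 2 := ⟨b, by rw [sq, ← hk]⟩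
    exact (ha.dvd_pow_iff_dvd two_ne_zero).1 h1
  obtain ⟨l, rfl⟩ := hak
  have h2 : b = l * l * a := by
    have h3 : a * b = a * (l * l * a) := by rw [hk]; ring
    exact Nat.eq_of_mul_eq_mul_left (Nat.pos_of_ne_zero ha0) h3
  have h4 : IsUnit l := hb l ⟨a, h2⟩
  rw [Nat.isUnit_iff] at h4
  rw [h2, h4]
  ring

theorem sv_abs_le (m n : ℕ) : |((jacobiSym m n : ℤ) : ℝ)| ≤ 1 := by
  rcases jacobiSym.trichotomy (m : ℤ) n with h | h | h <;> rw [h] <;> simp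

theorem sv_kernel (B1 : ∀ N : ℕ, Odd N → ¬ IsSquare N → ∀ M : ℕ,
      |∑ m ∈ Finset.Icc 1 M, jacobiSym m N| ≤ N) (M N : ℕ) {n k : ℕ}
    (hn : 1 ≤ n ∧ n ≤ N ∧ Odd n ∧ Squarefree n) (hk : 1 ≤ k ∧ k ≤ N ∧ Odd k ∧ Squarefree k) :
    |∑ m ∈ Finset.Icc 1 M, ((jacobiSym m n : ℝ) * (jacobiSym m k : ℝ))| ≤
      (if n = k then (M : ℝ) else 0) + (N : ℝ) ^ 2 := by
  by_cases h : n = k
  · rw [if_pos h]
    calc |∑ m ∈ Finset.Icc 1 M, ((jacobiSym m n : ℝ) * (jacobiSym m k : ℝ))|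
        ≤ ∑ m ∈ Finset.Icc 1 M, |((jacobiSym m n : ℝ) * (jacobiSym m k : ℝ))| :=
          Finset.abs_sum_le_sum_abs _ _
      _ ≤ ∑ m ∈ Finset.Icc 1 M, (1 : ℝ) := by
          refine Finset.sum_le_sum fun m _ => ?_
          rw [abs_mul]
          have h1 := sv_abs_le m n
          have h2 := sv_abs_le m k
          calc _ ≤ (1 : ℝ) * 1 := mul_le_mul h1 h2 (abs_nonneg _) zero_le_one
            _ = 1 := one_mul 1
      _ = M := by simp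
      _ ≤ M + (N : ℝ) ^ 2 := le_add_of_nonneg_right (sq_nonneg _)
  · rw [if_neg h, zero_add]
    have hodd : Odd (n * k) := hn.2.2.1.mul hk.2.2.1
    have hns : ¬ IsSquare (n * k) := fun hc => h (sv_eq_of_square hn.2.2.2 hk.2.2.2 hc)
    have h1 := B1 (n * k) hodd hns M
    have hn0 : NeZero n := ⟨by omega⟩
    have hk0 : NeZero k := ⟨by omega⟩
    have h2 : (∑ m ∈ Finset.Icc 1 M, ((jacobiSym m n : ℝ) * (jacobiSym m k : ℝ))) =
        ((∑ m ∈ Finset.Icc 1 M, jacobiSym m (n * k) : ℤ) : ℝ) := by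
      push_cast
      refine Finset.sum_congr rfl fun m _ => ?_
      rw [jacobiSym.mul_right]
      push_cast
      ring
    rw [h2, ← Int.cast_abs]
    have h3 : ((|∑ m ∈ Finset.Icc 1 M, jacobiSym m (n * k)| : ℤ) : ℝ) ≤ ((n * k : ℕ) : ℤ) := by
      exact_mod_cast h1
    refine h3.trans ?_
    push_cast
    rw [sq]
    have h4 : (n : ℝ) ≤ N := by exact_mod_cast hn.2.1
    have h5 : (k : ℝ) ≤ N := by exact_mod_cast hk.2.1
    exact mul_le_mul h4 h5 (Nat.cast_nonneg _) (Nat.cast_nonneg _)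

theorem sv_transposed (B1 : ∀ N : ℕ, Odd N → ¬ IsSquare N → ∀ M : ℕ,
      |∑ m ∈ Finset.Icc 1 M, jacobiSym m N| ≤ N) (M N : ℕ) (S : Finset ℕ)
    (hS : ∀ n ∈ S, 1 ≤ n ∧ n ≤ N ∧ Odd n ∧ Squarefree n) (c : ℕ → ℝ) :
    ∑ m ∈ Finset.Icc 1 M, (∑ n ∈ S, c n * (jacobiSym m n : ℝ)) ^ 2 ≤
      (M + (N : ℝ) ^ 3) * ∑ n ∈ S, c n ^ 2 := by
  have h1 : ∑ m ∈ Finset.Icc 1 M, (∑ n ∈ S, c n * (jacobiSym m n : ℝ)) ^ 2 =
      ∑ n ∈ S, ∑ k ∈ S, c n * c k *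
        ∑ m ∈ Finset.Icc 1 M, ((jacobiSym m n : ℝ) * (jacobiSym m k : ℝ)) := by
    have e1 : ∀ m ∈ Finset.Icc 1 M, (∑ n ∈ S, c n * (jacobiSym m n : ℝ)) ^ 2 =
        ∑ n ∈ S, ∑ k ∈ S, c n * c k * ((jacobiSym m n : ℝ) * (jacobiSym m k : ℝ)) := by
      intro m _
      rw [sq, Finset.sum_mul_sum]
      refine Finset.sum_congr rfl fun n _ => Finset.sum_congr rfl fun k _ => ?_
      ring
    rw [Finset.sum_congr rfl e1, Finset.sum_comm]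
    refine Finset.sum_congr rfl fun n _ => ?_
    rw [Finset.sum_comm]
    refine Finset.sum_congr rfl fun k _ => ?_
    rw [Finset.mul_sum]
  rw [h1]
  have h2 : ∀ n ∈ S, ∀ k ∈ S, c n * c k *
        ∑ m ∈ Finset.Icc 1 M, ((jacobiSym m n : ℝ) * (jacobiSym m k : ℝ)) ≤
      (if n = k then (M : ℝ) * c n ^ 2 else 0) + (N : ℝ) ^ 2 * (|c n| * |c k|) := by
    intro n hn k hk
    have h3 := sv_kernel B1 M N (hS n hn) (hS k hk)
    calc _ ≤ |c n * c k *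
          ∑ m ∈ Finset.Icc 1 M, ((jacobiSym m n : ℝ) * (jacobiSym m k : ℝ))| := le_abs_self _
      _ = |c n| * |c k| *
          |∑ m ∈ Finset.Icc 1 M, ((jacobiSym m n : ℝ) * (jacobiSym m k : ℝ))| := by
          rw [abs_mul, abs_mul]
      _ ≤ |c n| * |c k| * ((if n = k then (M : ℝ) else 0) + (N : ℝ) ^ 2) :=
          mul_le_mul_of_nonneg_left h3 (mul_nonneg (abs_nonneg _) (abs_nonneg _))
      _ = _ := by
          by_cases h : n = k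
          · rw [if_pos h, if_pos h, ← h]
            have : |c n| * |c n| = c n ^ 2 := by rw [← sq, sq_abs]
            rw [this]
            ring
          · rw [if_neg h, if_neg h]
            ring
  have hcard : (S.card : ℝ) ≤ N := by
    have h4 : S ⊆ Finset.Icc 1 N := fun n hn => by
      have := hS n hn
      exact Finset.mem_Icc.2 ⟨this.1, this.2.1⟩
    have h5 := Finset.card_le_card h4
    rw [Nat.card_Icc] at h5
    exact_mod_cast (by omega : S.card ≤ N)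
  calc ∑ n ∈ S, ∑ k ∈ S, c n * c k *
        ∑ m ∈ Finset.Icc 1 M, ((jacobiSym m n : ℝ) * (jacobiSym m k : ℝ))
      ≤ ∑ n ∈ S, ∑ k ∈ S, ((if n = k then (M : ℝ) * c n ^ 2 else 0) +
          (N : ℝ) ^ 2 * (|c n| * |c k|)) :=
        Finset.sum_le_sum fun n hn => Finset.sum_le_sum fun k hk => h2 n hn k hk
    _ = M * ∑ n ∈ S, c n ^ 2 + (N : ℝ) ^ 2 * (∑ n ∈ S, |c n|) ^ 2 := by
        rw [sq (∑ n ∈ S, |c n|), Finset.sum_mul_sum, Finset.mul_sum, Finset.mul_sum,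
          ← Finset.sum_add_distrib]
        refine Finset.sum_congr rfl fun n hn => ?_
        rw [Finset.sum_add_distrib, Finset.mul_sum, Finset.sum_ite_eq, if_pos hn]
    _ ≤ M * ∑ n ∈ S, c n ^ 2 + (N : ℝ) ^ 2 * (N * ∑ n ∈ S, c n ^ 2) := by
        have h6 : (∑ n ∈ S, |c n|) ^ 2 ≤ N * ∑ n ∈ S, c n ^ 2 := by
          calc (∑ n ∈ S, |c n|) ^ 2 ≤ S.card * ∑ n ∈ S, |c n| ^ 2 := sq_sum_le_card_mul_sum_sq
            _ = S.card * ∑ n ∈ S, c n ^ 2 := by simp only [sq_abs]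
            _ ≤ N * ∑ n ∈ S, c n ^ 2 :=
              mul_le_mul_of_nonneg_right hcard (Finset.sum_nonneg fun n _ => sq_nonneg _)
        have h7 := mul_le_mul_of_nonneg_left h6 (sq_nonneg (N : ℝ))
        linarith
    _ = (M + (N : ℝ) ^ 3) * ∑ n ∈ S, c n ^ 2 := by ring

theorem sieve_of (B1 : ∀ N : ℕ, Odd N → ¬ IsSquare N → ∀ M : ℕ,
      |∑ m ∈ Finset.Icc 1 M, jacobiSym m N| ≤ N) (M N : ℕ) (S : Finset ℕ)
    (hS : ∀ n ∈ S, 1 ≤ n ∧ n ≤ N ∧ Odd n ∧ Squarefree n) (a : ℕ → ℝ) :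
    ∑ n ∈ S, (∑ m ∈ Finset.Icc 1 M, a m * (jacobiSym m n : ℝ)) ^ 2 ≤
      (M + (N : ℝ) ^ 3) * ∑ m ∈ Finset.Icc 1 M, a m ^ 2 := by
  set c : ℕ → ℝ := fun n => ∑ m ∈ Finset.Icc 1 M, a m * (jacobiSym m n : ℝ) with hc
  set f : ℕ → ℝ := fun m => ∑ n ∈ S, c n * (jacobiSym m n : ℝ) with hf
  have h1 : ∑ n ∈ S, c n ^ 2 = ∑ m ∈ Finset.Icc 1 M, a m * f m := by
    have e1 : ∀ n ∈ S, c n ^ 2 = ∑ m ∈ Finset.Icc 1 M, a m * (c n * (jacobiSym m n : ℝ)) := by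
      intro n _
      rw [sq]
      nth_rewrite 2 [hc]
      rw [Finset.mul_sum]
      refine Finset.sum_congr rfl fun m _ => ?_
      ring
    rw [Finset.sum_congr rfl e1, Finset.sum_comm]
    refine Finset.sum_congr rfl fun m _ => ?_
    rw [hf, Finset.mul_sum]
  have h2 : (∑ m ∈ Finset.Icc 1 M, a m * f m) ^ 2 ≤
      (∑ m ∈ Finset.Icc 1 M, a m ^ 2) * ∑ m ∈ Finset.Icc 1 M, f m ^ 2 :=
    Finset.sum_mul_sq_le_sq_mul_sq _ _ _
  have h3 : ∑ m ∈ Finset.Icc 1 M, f m ^ 2 ≤ (M + (N : ℝ) ^ 3) * ∑ n ∈ S, c n ^ 2 :=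
    sv_transposed B1 M N S hS c
  have h4 : 0 ≤ ∑ m ∈ Finset.Icc 1 M, a m ^ 2 := Finset.sum_nonneg fun m _ => sq_nonneg _
  have h5 : 0 ≤ ∑ n ∈ S, c n ^ 2 := Finset.sum_nonneg fun m _ => sq_nonneg _
  show ∑ n ∈ S, c n ^ 2 ≤ _
  rcases h5.eq_or_lt with h6 | h6
  · rw [← h6]
    positivity
  · have h7 : (∑ n ∈ S, c n ^ 2) * (∑ n ∈ S, c n ^ 2) ≤
        ((M + (N : ℝ) ^ 3) * ∑ m ∈ Finset.Icc 1 M, a m ^ 2) * ∑ n ∈ S, c n ^ 2 := by
      rw [← h1] at h2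
      calc (∑ n ∈ S, c n ^ 2) * (∑ n ∈ S, c n ^ 2) = (∑ n ∈ S, c n ^ 2) ^ 2 := (sq _).symm
        _ ≤ _ := h2
        _ ≤ (∑ m ∈ Finset.Icc 1 M, a m ^ 2) * ((M + (N : ℝ) ^ 3) * ∑ n ∈ S, c n ^ 2) :=
          mul_le_mul_of_nonneg_left h3 h4
        _ = _ := by ring
    exact le_of_mul_le_mul_right h7 h6

theorem sieve (M N : ℕ) (S : Finset ℕ) (hS : ∀ n ∈ S, 1 ≤ n ∧ n ≤ N ∧ Odd n ∧ Squarefree n)
    (a : ℕ → ℝ) :
    ∑ n ∈ S, (∑ m ∈ Finset.Icc 1 M, a m * (jacobiSym m n : ℝ)) ^ 2 ≤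
      (M + (N : ℝ) ^ 3) * ∑ m ∈ Finset.Icc 1 M, a m ^ 2 :=
  sieve_of (fun N hN hs M => jac_sum_le N hN hs M) M N S hS a

end Pool.Agent.H98.MK
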