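import Mathlib

/-!
# Project MK, row B3: pairs of triples with equal products
-/

set_option autoImplicit false

open scoped BigOperators

namespace Pool.Agent.H98.MK

/-- The number of factorisations in three factors is submultiplicative. -/
theorem six_mul (a b : ℕ) (ha : a ≠ 0) (hb : b ≠ 0) :
    (Nat.finMulAntidiag 3 (a * b)).card ≤
      (Nat.finMulAntidiag 3 a).card * (Nat.finMulAntidiag 3 b).card := by
  rw [← Finset.card_product]
  refine Finset.card_le_card_of_surjOn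
    (fun z : (Fin 3 → ℕ) × (Fin 3 → ℕ) => fun i => z.1 i * z.2 i) ?_
  intro y hy
  have hy1 := (Nat.mem_finMulAntidiag.1 (Finset.mem_coe.1 hy)).1
  rw [Fin.prod_univ_three] at hy1
  have hd : a ∣ y 0 * y 1 * y 2 := ⟨b, hy1⟩
  obtain ⟨a01, a2, h01, h2, h⟩ := exists_dvd_and_dvd_of_dvd_mul hd
  obtain ⟨a0, a1, h0, h1, h'⟩ := exists_dvd_and_dvd_of_dvd_mul h01
  obtain ⟨b0, hb0⟩ := h0
  obtain ⟨b1, hb1⟩ := h1
  obtain ⟨b2, hb2⟩ := h2
  have hb' : b0 * b1 * b2 = b := by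
    have e : a * (b0 * b1 * b2) = a * b := by
      rw [← hy1, hb0, hb1, hb2, h, h']
      ring
    exact Nat.eq_of_mul_eq_mul_left (Nat.pos_of_ne_zero ha) e
  refine ⟨(![a0, a1, a2], ![b0, b1, b2]), ?_, ?_⟩
  · simp only [Finset.coe_product, Set.mem_prod, Finset.mem_coe, Nat.mem_finMulAntidiag,
      Fin.prod_univ_three]
    refine ⟨⟨?_, ha⟩, ?_, hb⟩
    · show a0 * a1 * a2 = a
      rw [h, h']
    · exact hb'
  · funext i
    fin_cases i
    · exact hb0.symm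
    · exact hb1.symm
    · exact hb2.symm

theorem six_mul3 (x : Fin 3 → ℕ) (hx : ∀ i, x i ≠ 0) :
    (Nat.finMulAntidiag 3 (∏ i, x i)).card ≤ ∏ i, (Nat.finMulAntidiag 3 (x i)).card := by
  rw [Fin.prod_univ_three, Fin.prod_univ_three]
  exact (six_mul _ _ (mul_ne_zero (hx 0) (hx 1)) (hx 2)).trans
    (Nat.mul_le_mul_right _ (six_mul _ _ (hx 0) (hx 1)))

/-- The summatory function of the number of factorisations in three factors. -/
theorem six_sum (M : ℕ) : ∑ m ∈ Finset.Icc 1 M, (Nat.finMulAntidiag 3 m).card ≤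
    ∑ a ∈ Finset.Icc 1 M, ∑ b ∈ Finset.Icc 1 M, M / (a * b) := by
  have h1 : ∑ a ∈ Finset.Icc 1 M, ∑ b ∈ Finset.Icc 1 M, M / (a * b) =
      ((Finset.Icc 1 M ×ˢ Finset.Icc 1 M).sigma
        fun z : ℕ × ℕ => Finset.Icc 1 (M / (z.1 * z.2))).card := by
    rw [Finset.card_sigma, Finset.sum_product]
    refine Finset.sum_congr rfl fun a _ => Finset.sum_congr rfl fun b _ => ?_
    simp
  rw [h1, ← Finset.card_sigma]
  refine Finset.card_le_card_of_injOn
    (fun z : (_ : ℕ) × (Fin 3 → ℕ) => (⟨(z.2 0, z.2 1), z.2 2⟩ : (_ : ℕ × ℕ) × ℕ)) ?_ ?_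
  · rintro ⟨m, y⟩ hz
    simp only [Finset.coe_sigma, Set.mem_sigma_iff, Finset.mem_coe, Finset.mem_Icc,
      Nat.mem_finMulAntidiag, Fin.prod_univ_three] at hz
    obtain ⟨⟨hm1, hmM⟩, hy, hm0⟩ := hz
    have p0 : 0 < y 0 := by
      rcases Nat.eq_zero_or_pos (y 0) with h | h
      · rw [h] at hy; simp at hy; omega
      · exact h
    have p1 : 0 < y 1 := by
      rcases Nat.eq_zero_or_pos (y 1) with h | h
      · rw [h] at hy; simp at hy; omega
      · exact h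
    have p2 : 0 < y 2 := by
      rcases Nat.eq_zero_or_pos (y 2) with h | h
      · rw [h] at hy; simp at hy; omega
      · exact h
    have hle : y 2 * (y 0 * y 1) ≤ M := by
      calc y 2 * (y 0 * y 1) = y 0 * y 1 * y 2 := by ring
        _ ≤ M := by rw [hy]; exact hmM
    refine Finset.mem_coe.2 (Finset.mem_sigma.2 ⟨Finset.mem_product.2 ⟨Finset.mem_Icc.2 ⟨p0, ?_⟩,
      Finset.mem_Icc.2 ⟨p1, ?_⟩⟩, Finset.mem_Icc.2 ⟨p2, ?_⟩⟩)
    · calc y 0 ≤ y 0 * (y 1 * y 2) := Nat.le_mul_of_pos_right _ (Nat.mul_pos p1 p2)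
        _ = y 2 * (y 0 * y 1) := by ring
        _ ≤ M := hle
    · calc y 1 ≤ y 1 * (y 0 * y 2) := Nat.le_mul_of_pos_right _ (Nat.mul_pos p0 p2)
        _ = y 2 * (y 0 * y 1) := by ring
        _ ≤ M := hle
    · exact (Nat.le_div_iff_mul_le (Nat.mul_pos p0 p1)).2 hle
  · rintro ⟨m, y⟩ hz ⟨m', y'⟩ hz' he
    simp only [Finset.coe_sigma, Set.mem_sigma_iff, Finset.mem_coe, Finset.mem_Icc,
      Nat.mem_finMulAntidiag, Fin.prod_univ_three] at hz hz'
    simp only [Sigma.mk.injEq, Prod.mk.injEq, heq_eq_eq] at he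
    obtain ⟨⟨e0, e1⟩, e2⟩ := he
    have hyy : y = y' := by
      funext i
      fin_cases i
      · exact e0
      · exact e1
      · exact e2
    subst hyy
    have : m = m' := by rw [← hz.2.1, ← hz'.2.1]
    subst this
    rfl

theorem six_log (M : ℕ) : ((∑ m ∈ Finset.Icc 1 M, (Nat.finMulAntidiag 3 m).card : ℕ) : ℝ) ≤
    (M : ℝ) * (1 + Real.log M) ^ 2 := by
  have hH : ∑ a ∈ Finset.Icc 1 M, (1 : ℝ) / a ≤ 1 + Real.log M := by
    have h := harmonic_le_one_add_log M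
    rw [harmonic_eq_sum_Icc] at h
    push_cast at h
    simpa [one_div] using h
  have hH0 : 0 ≤ ∑ a ∈ Finset.Icc 1 M, (1 : ℝ) / a :=
    Finset.sum_nonneg fun a _ => by positivity
  calc ((∑ m ∈ Finset.Icc 1 M, (Nat.finMulAntidiag 3 m).card : ℕ) : ℝ)
      ≤ ((∑ a ∈ Finset.Icc 1 M, ∑ b ∈ Finset.Icc 1 M, M / (a * b) : ℕ) : ℝ) := by
        exact_mod_cast six_sum M
    _ ≤ ∑ a ∈ Finset.Icc 1 M, ∑ b ∈ Finset.Icc 1 M, (M : ℝ) * ((1 / a) * (1 / b)) := by
        push_cast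
        refine Finset.sum_le_sum fun a _ => Finset.sum_le_sum fun b _ => ?_
        have := @Nat.cast_div_le ℝ _ _ _ M (a * b)
        refine this.trans (le_of_eq ?_)
        push_cast
        ring
    _ = (M : ℝ) * (∑ a ∈ Finset.Icc 1 M, (1 : ℝ) / a) ^ 2 := by
        rw [sq, Finset.sum_mul_sum, Finset.mul_sum]
        refine Finset.sum_congr rfl fun a _ => ?_
        rw [Finset.mul_sum]
    _ ≤ (M : ℝ) * (1 + Real.log M) ^ 2 := by
        gcongr

/-- Row B3. -/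
theorem six (M : ℕ) (hM : 1 ≤ M) :
    ((((Fintype.piFinset (fun _ : Fin 3 => Finset.Icc 1 M)) ×ˢ
      (Fintype.piFinset (fun _ : Fin 3 => Finset.Icc 1 M))).filter
        (fun z : (Fin 3 → ℕ) × (Fin 3 → ℕ) => ∏ i, z.1 i = ∏ i, z.2 i)).card : ℝ) ≤
      (M : ℝ) ^ 3 * (1 + Real.log M) ^ 6 := by
  have key : (((Fintype.piFinset (fun _ : Fin 3 => Finset.Icc 1 M)) ×ˢ
      (Fintype.piFinset (fun _ : Fin 3 => Finset.Icc 1 M))).filter
        (fun z : (Fin 3 → ℕ) × (Fin 3 → ℕ) => ∏ i, z.1 i = ∏ i, z.2 i)).card ≤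
      (∑ m ∈ Finset.Icc 1 M, (Nat.finMulAntidiag 3 m).card) ^ 3 := by
    have h3 : (∑ m ∈ Finset.Icc 1 M, (Nat.finMulAntidiag 3 m).card) ^ 3 =
        ∑ x ∈ Fintype.piFinset (fun _ : Fin 3 => Finset.Icc 1 M),
          ∏ i, (Nat.finMulAntidiag 3 (x i)).card := by
      rw [← Finset.prod_univ_sum (fun _ : Fin 3 => Finset.Icc 1 M)
        (fun _ m => (Nat.finMulAntidiag 3 m).card)]
      simp
    rw [h3, Finset.card_filter, Finset.sum_product]
    refine Finset.sum_le_sum fun x hx => ?_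
    rw [← Finset.card_filter]
    have hx0 : ∀ i, x i ≠ 0 := by
      intro i
      have := Fintype.mem_piFinset.1 hx i
      rw [Finset.mem_Icc] at this
      omega
    refine (Finset.card_le_card ?_).trans (six_mul3 x hx0)
    intro y hy
    rw [Finset.mem_filter] at hy
    rw [Nat.mem_finMulAntidiag]
    exact ⟨hy.2.symm, Finset.prod_ne_zero_iff.2 fun i _ => hx0 i⟩
  have hl := six_log M
  have h0 : (0 : ℝ) ≤ ((∑ m ∈ Finset.Icc 1 M, (Nat.finMulAntidiag 3 m).card : ℕ) : ℝ) :=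
    Nat.cast_nonneg _
  calc _ ≤ (((∑ m ∈ Finset.Icc 1 M, (Nat.finMulAntidiag 3 m).card) ^ 3 : ℕ) : ℝ) := by
        exact_mod_cast key
    _ = ((∑ m ∈ Finset.Icc 1 M, (Nat.finMulAntidiag 3 m).card : ℕ) : ℝ) ^ 3 := by
        rw [Nat.cast_pow]
    _ ≤ ((M : ℝ) * (1 + Real.log M) ^ 2) ^ 3 := by gcongr
    _ = (M : ℝ) ^ 3 * (1 + Real.log M) ^ 6 := by ring

end Pool.Agent.H98.MK
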