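import Pool.Agent.H98.MK.ADefs
import Pool.Agent.H98.MK.Box0
import Pool.Agent.H98.MK.Sieve
import Pool.Agent.H98.MK.Six

/-!
# Project MK, row B4: bilinear bound for a box
-/

set_option autoImplicit false

open scoped BigOperators
open Filter

namespace Pool.Agent.H98.MK

theorem box (M N : ℕ) (h : N ≤ M) (hN : 1 ≤ N) (a b : ℕ → ℝ) (ha : ∀ m, |a m| ≤ 1)
    (hb : ∀ n, |b n| ≤ 1) (hb2 : ∀ n, b n ≠ 0 → Odd n ∧ Squarefree n) :
    |∑ m ∈ Finset.Icc 1 M, ∑ n ∈ Finset.Icc 1 N, a m * b n * (jacobiSym m n : ℝ)| ≤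
      2 * M * (N : ℝ) ^ (5 / 6 : ℝ) * (1 + Real.log M) :=
  box_of sieve six M N h hN a b ha hb hb2

end Pool.Agent.H98.MK
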