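import Pool.Agent.H98.MK.ADefs

/-!
# Project MK: partial sums of a nontrivial real character modulo `8Q` are at most `8Q`
-/

set_option autoImplicit false

open scoped BigOperators
open Filter

namespace Pool.Agent.H98.MK

/-- a periodic sequence, bounded by one, with zero sum over a period -/
private theorem ch8_per (f : ℕ → ℤ) (N : ℕ) (hN : 0 < N) (hp : ∀ n, f (N + n) = f n)
    (h0 : ∑ n ∈ Finset.range N, f n = 0) (hb : ∀ n, |f n| ≤ 1) (M : ℕ) :
    |∑ n ∈ Finset.range M, f n| ≤ N := by
  have h1 : ∀ q r : ℕ, ∑ n ∈ Finset.range (N * q + r), f n = ∑ n ∈ Finset.range r, f n := by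
    intro q r
    induction q with
    | zero => simp
    | succ q ih =>
      have : N * (q + 1) + r = N + (N * q + r) := by ring
      rw [this, Finset.sum_range_add, h0, zero_add, ← ih]
      exact Finset.sum_congr rfl fun n _ => hp n
  have h2 : M = N * (M / N) + M % N := (Nat.div_add_mod M N).symm
  rw [h2, h1]
  calc |∑ n ∈ Finset.range (M % N), f n| ≤ ∑ n ∈ Finset.range (M % N), |f n| :=
        Finset.abs_sum_le_sum_abs _ _
    _ ≤ ∑ _n ∈ Finset.range (M % N), (1 : ℤ) := Finset.sum_le_sum fun n _ => hb n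
    _ = ((M % N : ℕ) : ℤ) := by simp
    _ ≤ N := by exact_mod_cast (Nat.mod_lt M hN).le

/-- zero sum over a period from a unit with value minus one -/
private theorem ch8_zero (f : ℕ → ℤ) (N u : ℕ) (hN : 1 < N) (hp : ∀ n, f (N + n) = f n)
    (hu : Nat.Coprime u N) (hf : ∀ n, f (u * n) = - f n) :
    ∑ n ∈ Finset.range N, f n = 0 := by
  have hm : ∀ n, f (n % N) = f n := by
    intro n
    have : Function.Periodic f N := fun n => by rw [add_comm, hp]
    exact this.map_mod_nat n
  obtain ⟨v, -, hv⟩ := Nat.exists_mul_mod_eq_one_of_coprime hu hN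
  have hN0 : 0 < N := by omega
  have key : ∀ n, n < N → (v * (u * n % N)) % N = n := by
    intro n hn
    have : (v * (u * n % N)) ≡ n [MOD N] := by
      calc (v * (u * n % N)) ≡ v * (u * n) [MOD N] := (Nat.mod_modEq _ _).mul_left _
        _ = (u * v) * n := by ring
        _ ≡ 1 * n [MOD N] := by
          apply Nat.ModEq.mul_right
          show (u * v) % N = 1 % N
          rw [hv, Nat.mod_eq_of_lt hN]
        _ = n := one_mul n
    have h := this
    unfold Nat.ModEq at h
    rw [h, Nat.mod_eq_of_lt hn]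
  have key2 : ∀ n, n < N → (u * (v * n % N)) % N = n := by
    intro n hn
    have : (u * (v * n % N)) ≡ n [MOD N] := by
      calc (u * (v * n % N)) ≡ u * (v * n) [MOD N] := (Nat.mod_modEq _ _).mul_left _
        _ = (u * v) * n := by ring
        _ ≡ 1 * n [MOD N] := by
          apply Nat.ModEq.mul_right
          show (u * v) % N = 1 % N
          rw [hv, Nat.mod_eq_of_lt hN]
        _ = n := one_mul n
    have h := this
    unfold Nat.ModEq at h
    rw [h, Nat.mod_eq_of_lt hn]
  have h1 : ∑ n ∈ Finset.range N, f (u * n) = ∑ n ∈ Finset.range N, f n := by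
    apply Finset.sum_nbij' (fun n => u * n % N) (fun n => v * n % N)
    · intro n _; exact Finset.mem_range.2 (Nat.mod_lt _ hN0)
    · intro n _; exact Finset.mem_range.2 (Nat.mod_lt _ hN0)
    · intro n hn; exact key n (Finset.mem_range.1 hn)
    · intro n hn; exact key2 n (Finset.mem_range.1 hn)
    · intro n _; exact (hm (u * n)).symm
  rw [Finset.sum_congr rfl (fun n _ => hf n), Finset.sum_neg_distrib] at h1
  omega

private theorem ch8_psi_mul (c : Fin 4) (u n : ℕ) (hu : u ≠ 0) (hn : n ≠ 0) :
    psi c (u * n) = psi c u * psi c n := by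
  unfold psi
  split_ifs
  · simp
  · exact jacobiSym.mul_right' _ hu hn
  · exact jacobiSym.mul_right' _ hu hn
  · exact jacobiSym.mul_right' _ hu hn

private theorem ch8_psi_cases (c : Fin 4) (n : ℕ) (hn : n % 2 = 1) :
    psi c n = if c = 0 then 1 else if c = 1 then (if n % 8 = 1 ∨ n % 8 = 5 then 1 else -1)
      else if c = 2 then (if n % 8 = 1 ∨ n % 8 = 7 then 1 else -1)
      else (if n % 8 = 1 ∨ n % 8 = 3 then 1 else -1) := by
  have ho : Odd n := Nat.odd_iff.2 hn
  unfold psi
  rw [jacobiSym.at_neg_one ho, jacobiSym.at_two ho, jacobiSym.at_neg_two ho,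
    ZMod.χ₄_nat_eq_if_mod_four, ZMod.χ₈_nat_eq_if_mod_eight, ZMod.χ₈'_nat_eq_if_mod_eight]
  have h8 : n % 8 = 1 ∨ n % 8 = 3 ∨ n % 8 = 5 ∨ n % 8 = 7 := by omega
  have h4 : n % 4 = (n % 8) % 4 := by omega
  rcases h8 with h | h | h | h <;> rw [h4, h] <;> simp [hn]

private theorem ch8_psi_per (c : Fin 4) (Q n : ℕ) (hn : n % 2 = 1) :
    psi c (8 * Q + n) = psi c n := by
  rw [ch8_psi_cases c n hn, ch8_psi_cases c (8 * Q + n) (by omega)]
  have : (8 * Q + n) % 8 = n % 8 := by omega
  rw [this]

/-- the unit with value minus one -/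
private theorem ch8_unit (Q : ℕ) (hQ : Odd Q) (hQ2 : Squarefree Q) (c : Fin 4)
    (h : Q ≠ 1 ∨ c ≠ 0) :
    ∃ u : ℕ, u.Coprime (8 * Q) ∧ jacobiSym u Q * psi c u = -1 := by
  by_cases hQ1 : Q = 1
  · subst hQ1
    have hc : c ≠ 0 := by
      rcases h with h | h
      · exact absurd rfl h
      · exact h
    have h3 : c = 3 ∨ c = 1 ∨ c = 2 := by
      fin_cases c
      · exact absurd rfl hc
      · right; left; rfl
      · right; right; rfl
      · left; rfl
    rcases h3 with h3 | h3 | h3
    · refine ⟨5, by norm_num, ?_⟩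
      rw [jacobiSym.one_right, ch8_psi_cases c 5 (by norm_num), h3]
      decide
    · refine ⟨3, by norm_num, ?_⟩
      rw [jacobiSym.one_right, ch8_psi_cases c 3 (by norm_num), h3]
      decide
    · refine ⟨3, by norm_num, ?_⟩
      rw [jacobiSym.one_right, ch8_psi_cases c 3 (by norm_num), h3]
      decide
  · obtain ⟨p, hp, hpQ⟩ := Nat.exists_prime_and_dvd hQ1
    obtain ⟨m, rfl⟩ := hpQ
    have : Fact p.Prime := ⟨hp⟩
    have hpo : Odd p := (Nat.odd_mul.1 hQ).1
    have hp2 : p ≠ 2 := by
      rintro rfl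
      exact absurd hpo (by decide)
    have hm0 : m ≠ 0 := by
      rintro rfl
      exact absurd (Nat.odd_mul.1 hQ).2 (by decide)
    have hcop : Nat.Coprime p m := Nat.coprime_of_squarefree_mul hQ2
    have hcop8 : Nat.Coprime p (8 * m) := by
      apply Nat.Coprime.mul_right _ hcop
      have : Nat.Coprime p 2 := Nat.Coprime.symm (Nat.coprime_two_left.2 hpo)
      exact Nat.Coprime.pow_right 3 this
    obtain ⟨a, ha⟩ : ∃ a : ZMod p, ¬ IsSquare a :=
      FiniteField.exists_nonsquare (by rw [ZMod.ringChar_zmod_n]; exact hp2)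
    obtain ⟨u, hu1, hu2⟩ := Nat.chineseRemainder hcop8 a.val 1
    have hup : ((u : ℤ) : ZMod p) = a := by
      have : ((u : ℕ) : ZMod p) = ((a.val : ℕ) : ZMod p) := (ZMod.natCast_eq_natCast_iff _ _ _).2 hu1
      rw [ZMod.natCast_zmod_val] at this
      exact_mod_cast this
    have hleg : legendreSym p u = -1 := by
      rw [legendreSym.eq_neg_one_iff, hup]
      exact ha
    have hu8 : u % 8 = 1 := by
      have : u ≡ 1 [MOD 8] := hu2.of_mul_right m
      exact this
    have hum : (u : ℤ) % m = 1 % m := by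
      have : u ≡ 1 [MOD m] := hu2.of_mul_left 8
      have h' := this
      unfold Nat.ModEq at h'
      exact_mod_cast h'
    have hJ : jacobiSym u (p * m) = -1 := by
      rw [jacobiSym.mul_right' _ hp.ne_zero hm0, ← jacobiSym.legendreSym.to_jacobiSym, hleg,
        jacobiSym.mod_left' hum, jacobiSym.one_left, mul_one]
    refine ⟨u, ?_, ?_⟩
    · apply Nat.Coprime.mul_right
      · have : Nat.Coprime u 2 := Nat.coprime_two_right.2 (Nat.odd_iff.2 (by omega))
        exact Nat.Coprime.pow_right 3 this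
      · by_contra hc
        have : jacobiSym u (p * m) = 0 := by
          rw [jacobiSym.eq_zero_iff]
          refine ⟨Nat.mul_ne_zero hp.ne_zero hm0, ?_⟩
          rw [Int.gcd_natCast_natCast]
          exact hc
        omega
    · rw [hJ, ch8_psi_cases c u (by omega), hu8]
      fin_cases c <;> simp

open Classical in
theorem char8 (Q : ℕ) (hQ : Odd Q) (hQ2 : Squarefree Q) (c : Fin 4) (h : Q ≠ 1 ∨ c ≠ 0) (M : ℕ) :
    |∑ n ∈ Finset.Icc 1 M, if Odd n then jacobiSym n Q * psi c n else 0| ≤ 8 * Q := by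
  set f : ℕ → ℤ := fun n => if Odd n then jacobiSym n Q * psi c n else 0 with hf
  have hQ0 : 0 < Q := hQ.pos
  have hper : ∀ n, f (8 * Q + n) = f n := by
    intro n
    simp only [hf]
    have ho : Odd (8 * Q + n) ↔ Odd n := by
      rw [Nat.odd_iff, Nat.odd_iff]
      omega
    by_cases hn : Odd n
    · rw [if_pos hn, if_pos (ho.2 hn), ch8_psi_per c Q n (Nat.odd_iff.1 hn)]
      congr 1
      apply jacobiSym.mod_left'
      push_cast
      rw [add_comm, mul_comm]
      exact Int.add_mul_emod_self_left _ _ _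
    · rw [if_neg hn, if_neg (fun h => hn (ho.1 h))]
  have hbd : ∀ n, |f n| ≤ 1 := by
    intro n
    simp only [hf]
    split_ifs with hn
    · rw [abs_mul]
      have h1 : |jacobiSym n Q| ≤ 1 := by
        rcases jacobiSym.trichotomy n Q with h | h | h <;> rw [h] <;> simp
      have h2 : |psi c n| ≤ 1 := by
        rw [ch8_psi_cases c n (Nat.odd_iff.1 hn)]
        split_ifs <;> simp
      calc |jacobiSym n Q| * |psi c n| ≤ 1 * 1 :=
            mul_le_mul h1 h2 (abs_nonneg _) (by norm_num)
        _ = 1 := by norm_num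
    · simp
  obtain ⟨u, hu, hu1⟩ := ch8_unit Q hQ hQ2 c h
  have huo : Odd u := by
    have h8 : Nat.Coprime u 8 := Nat.Coprime.coprime_mul_right_right hu
    have h24 : Nat.Coprime u (2 * 4) := h8
    exact Nat.coprime_two_right.1 (Nat.Coprime.coprime_mul_right_right h24)
  have hu0 : u ≠ 0 := by
    rintro rfl
    exact absurd huo (by decide)
  have hneg : ∀ n, f (u * n) = - f n := by
    intro n
    simp only [hf]
    by_cases hn : Odd n
    · have hn0 : n ≠ 0 := by
        rintro rfl
        exact absurd hn (by decide)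
      rw [if_pos hn, if_pos (huo.mul hn), ch8_psi_mul c u n hu0 hn0]
      push_cast
      rw [jacobiSym.mul_left]
      calc jacobiSym u Q * jacobiSym n Q * (psi c u * psi c n)
          = (jacobiSym u Q * psi c u) * (jacobiSym n Q * psi c n) := by ring
        _ = - (jacobiSym n Q * psi c n) := by rw [hu1]; ring
    · rw [if_neg hn, if_neg (fun h => hn (Nat.odd_mul.1 h).2), neg_zero]
  have hz := ch8_zero f (8 * Q) u (by omega) hper hu hneg
  have hmain := ch8_per f (8 * Q) (by omega) hper hz hbd (M + 1)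
  have h0 : f 0 = 0 := by simp [hf]
  have hsum : ∑ n ∈ Finset.range (M + 1), f n = ∑ n ∈ Finset.Icc 1 M, f n := by
    rw [Finset.sum_range_succ', h0, add_zero, Finset.range_eq_Ico,
      Finset.sum_Ico_add' f 0 M 1]
    apply Finset.sum_congr _ fun _ _ => rfl
    ext n
    simp only [Finset.mem_Ico, Finset.mem_Icc]
    omega
  rw [hsum] at hmain
  exact_mod_cast hmain

end Pool.Agent.H98.MK
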