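import Mathlib

/-!
# Sums of a bounded completely multiplicative function over squarefree integers coprime to `m`
-/

set_option autoImplicit false

namespace Pool.Agent.H98.MK

open Finset ArithmeticFunction ArithmeticFunction.Moebius

private theorem cs_mult_sum (f : ℕ → ℝ) (e M : ℕ) (he : 0 < e) :
    ∑ n ∈ Finset.Icc 1 M, (if e ∣ n then f n else 0) = ∑ j ∈ Finset.Icc 1 (M / e), f (e * j) := by
  rw [← Finset.sum_filter]
  symm
  refine Finset.sum_bij (fun j _ => e * j) ?_ ?_ ?_ ?_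
  · intro j hj
    rw [Finset.mem_Icc] at hj
    rw [Finset.mem_filter, Finset.mem_Icc]
    refine ⟨⟨Nat.mul_pos he hj.1, ?_⟩, Dvd.intro _ rfl⟩
    calc e * j ≤ e * (M / e) := Nat.mul_le_mul_left _ hj.2
      _ ≤ M := Nat.mul_div_le M e
  · intro a _ b _ h
    exact Nat.eq_of_mul_eq_mul_left he h
  · intro n hn
    rw [Finset.mem_filter, Finset.mem_Icc] at hn
    obtain ⟨⟨h1, h2⟩, j, rfl⟩ := hn
    refine ⟨j, ?_, rfl⟩
    rw [Finset.mem_Icc]
    refine ⟨Nat.pos_of_mul_pos_left h1, ?_⟩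
    rw [Nat.le_div_iff_mul_le he, mul_comm]
    exact h2
  · intro j _
    rfl

private theorem cs_sum_mu (k : ℕ) : ∑ i ∈ Nat.divisors k, ((μ i : ℤ) : ℝ) = if k = 1 then 1 else 0 := by
  have h1 : ∑ i ∈ Nat.divisors k, (μ i : ℤ) = if k = 1 then 1 else 0 := by
    rw [← coe_mul_zeta_apply, moebius_mul_coe_zeta, one_apply]
  have h2 := congrArg (fun z : ℤ => (z : ℝ)) h1
  simp only [Int.cast_sum, Int.cast_ite, Int.cast_one, Int.cast_zero] at h2
  exact h2

private theorem cs_abs_mu (k : ℕ) : |((μ k : ℤ) : ℝ)| ≤ 1 := by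
  have h := abs_moebius_le_one (n := k)
  have h2 : ((|μ k| : ℤ) : ℝ) ≤ ((1 : ℤ) : ℝ) := Int.cast_le.2 h
  rwa [Int.cast_abs, Int.cast_one] at h2

private theorem cs_coprime (n m : ℕ) (hn : 0 < n) (hm : 0 < m) :
    ∑ e ∈ Nat.divisors m, (if e ∣ n then ((μ e : ℤ) : ℝ) else 0) =
      if Nat.Coprime n m then 1 else 0 := by
  rw [← Finset.sum_filter]
  have h : (Nat.divisors m).filter (fun e => e ∣ n) = Nat.divisors (Nat.gcd n m) := by
    ext e
    rw [Finset.mem_filter, Nat.mem_divisors, Nat.mem_divisors, Nat.dvd_gcd_iff]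
    constructor
    · rintro ⟨⟨h1, -⟩, h2⟩
      exact ⟨⟨h2, h1⟩, (Nat.gcd_pos_of_pos_left _ hn).ne'⟩
    · rintro ⟨⟨h1, h2⟩, -⟩
      exact ⟨⟨h2, hm.ne'⟩, h1⟩
  rw [h, cs_sum_mu]

private theorem cs_dvd {a b d : ℕ} (ha : Squarefree a) (hb : 0 < b) (h : d ^ 2 ∣ b ^ 2 * a) :
    d ∣ b := by
  have ha0 : a ≠ 0 := ha.ne_zero
  have hd : d ≠ 0 := by
    rintro rfl
    rw [zero_pow two_ne_zero, zero_dvd_iff] at h
    exact (Nat.mul_ne_zero (pow_ne_zero _ hb.ne') ha0) h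
  rw [← Nat.factorization_le_iff_dvd hd hb.ne']
  intro p
  have h1 := (Nat.factorization_le_iff_dvd (pow_ne_zero 2 hd)
    (Nat.mul_ne_zero (pow_ne_zero _ hb.ne') ha0)).2 h p
  rw [Nat.factorization_mul (pow_ne_zero _ hb.ne') ha0, Nat.factorization_pow,
    Nat.factorization_pow, Finsupp.add_apply, Finsupp.smul_apply, Finsupp.smul_apply,
    smul_eq_mul, smul_eq_mul] at h1
  have h2 : a.factorization p ≤ 1 := ha.natFactorization_le_one p
  omega

private theorem cs_sqf (n N : ℕ) (hn : 0 < n) (hN : n ≤ N) :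
    ∑ d ∈ Finset.Icc 1 N, (if d ^ 2 ∣ n then ((μ d : ℤ) : ℝ) else 0) =
      if Squarefree n then 1 else 0 := by
  obtain ⟨a, b, hab, ha⟩ := Nat.sq_mul_squarefree n
  have hb : 0 < b := by
    rcases Nat.eq_zero_or_pos b with h | h
    · rw [h, zero_pow two_ne_zero, zero_mul] at hab
      omega
    · exact h
  rw [← Finset.sum_filter]
  have h : (Finset.Icc 1 N).filter (fun d => d ^ 2 ∣ n) = Nat.divisors b := by
    ext d
    rw [Finset.mem_filter, Finset.mem_Icc, Nat.mem_divisors]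
    constructor
    · rintro ⟨-, h2⟩
      rw [← hab] at h2
      exact ⟨cs_dvd ha hb h2, hb.ne'⟩
    · rintro ⟨h1, -⟩
      have hd : 0 < d := Nat.pos_of_dvd_of_pos h1 hb
      have h3 : d ^ 2 ∣ n := by
        rw [← hab]
        exact Dvd.dvd.mul_right (pow_dvd_pow_of_dvd h1 2) a
      refine ⟨⟨hd, ?_⟩, h3⟩
      have h4 := Nat.le_of_dvd hn h3
      nlinarith
  rw [h, cs_sum_mu]
  have h5 : b = 1 ↔ Squarefree n := by
    constructor
    · rintro rfl
      rw [← hab, one_pow, one_mul]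
      exact ha
    · intro hs
      have h6 : b * b ∣ n := by
        rw [← hab, pow_two]
        exact Dvd.intro _ rfl
      exact Nat.isUnit_iff.1 (hs b h6)
  by_cases h7 : b = 1
  · rw [if_pos h7, if_pos (h5.1 h7)]
  · rw [if_neg h7, if_neg fun h8 => h7 (h5.2 h8)]

/-- The telescoping bound. -/
private theorem cs_tele (y : ℝ) (hy : 0 < y) (K : ℕ) :
    ∑ d ∈ Finset.Icc 1 K, y ^ 2 / ((y + d) * (y + d - 1)) ≤ y := by
  have h : ∀ K : ℕ, ∑ d ∈ Finset.Icc 1 K, y ^ 2 / ((y + d) * (y + d - 1)) = y * K / (y + K) := by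
    intro K
    induction K with
    | zero => simp
    | succ K ih =>
      rw [Finset.sum_Icc_succ_top (by omega), ih]
      push_cast
      have h1 : y + (K : ℝ) ≠ 0 := by positivity
      have h2 : y + ((K : ℝ) + 1) ≠ 0 := by positivity
      have h3 : y + ((K : ℝ) + 1) - 1 = y + K := by ring
      rw [h3]
      field_simp
      ring
  rw [h K, div_le_iff₀ (by positivity)]
  nlinarith [sq_nonneg y]

private theorem cs_step (D q x y : ℝ) (hD : 1 ≤ D) (hq : 1 ≤ q) (hx : 0 < x) (hy : 0 < y)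
    (hyx : q * y ^ 2 = x) (d : ℕ) (hd : 1 ≤ d) (t : ℝ) (h1 : t ≤ D * q) (h2 : t ≤ x / d ^ 2) :
    t ≤ 4 * D * q * (y ^ 2 / ((y + d) * (y + d - 1))) := by
  have hd1 : (1 : ℝ) ≤ d := by exact_mod_cast hd
  have hpos : 0 < (y + d) * (y + d - 1) := by
    apply mul_pos <;> linarith
  have hDq : 0 < D * q := by positivity
  rw [← mul_div_assoc, le_div_iff₀ hpos]
  have h3 : (y + d) * (y + d - 1) ≤ (y + d) ^ 2 := by nlinarith
  rcases le_total (d : ℝ) y with h | h
  · have h4 : (y + d) ^ 2 ≤ 4 * y ^ 2 := by nlinarith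
    calc t * ((y + d) * (y + d - 1)) ≤ (D * q) * ((y + d) * (y + d - 1)) :=
          mul_le_mul_of_nonneg_right h1 hpos.le
      _ ≤ (D * q) * (4 * y ^ 2) := mul_le_mul_of_nonneg_left (h3.trans h4) hDq.le
      _ = 4 * D * q * y ^ 2 := by ring
  · have h4 : (y + d) ^ 2 ≤ 4 * (d : ℝ) ^ 2 := by nlinarith
    have hd2 : (0 : ℝ) < (d : ℝ) ^ 2 := by positivity
    calc t * ((y + d) * (y + d - 1)) ≤ (x / d ^ 2) * ((y + d) * (y + d - 1)) :=
          mul_le_mul_of_nonneg_right h2 hpos.le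
      _ ≤ (x / d ^ 2) * (4 * (d : ℝ) ^ 2) :=
          mul_le_mul_of_nonneg_left (h3.trans h4) (by positivity)
      _ = 4 * x := by field_simp
      _ = 4 * (q * y ^ 2) := by rw [hyx]
      _ ≤ D * (4 * (q * y ^ 2)) := le_mul_of_one_le_left (by positivity) hD
      _ = 4 * D * q * y ^ 2 := by ring

open Classical in
theorem char_sqfree (χ : ℕ → ℝ) (hmul : ∀ a b, χ (a * b) = χ a * χ b) (h1 : ∀ n, |χ n| ≤ 1)
    (q : ℝ) (hq : 1 ≤ q) (hs : ∀ M : ℕ, |∑ n ∈ Finset.Icc 1 M, χ n| ≤ q) (m : ℕ) (hm : 0 < m)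
    (x : ℝ) (hx : 1 ≤ x) :
    |∑ n ∈ Finset.Icc 1 ⌊x⌋₊, if Squarefree n ∧ Nat.Coprime n m then χ n else 0| ≤
      4 * (Nat.divisors m).card * Real.sqrt (q * x) := by
  obtain ⟨g, hg⟩ : ∃ g : ℕ → ℝ, ∀ n, g n = if Nat.Coprime n m then χ n else 0 :=
    ⟨_, fun n => rfl⟩
  have hgmul : ∀ a b, g (a * b) = g a * g b := by
    intro a b
    rw [hg, hg, hg]
    by_cases ha : Nat.Coprime a m
    · by_cases hb : Nat.Coprime b m
      · rw [if_pos ha, if_pos hb, if_pos (Nat.Coprime.mul_left ha hb), hmul]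
      · rw [if_neg hb, if_neg (fun h => hb (Nat.Coprime.coprime_mul_left h)), mul_zero]
    · rw [if_neg ha, if_neg (fun h => ha (Nat.Coprime.coprime_mul_right h)), zero_mul]
  have hg1 : ∀ n, |g n| ≤ 1 := by
    intro n
    rw [hg]
    split_ifs
    · exact h1 n
    · rw [abs_zero]
      exact zero_le_one
  set D : ℝ := ((Nat.divisors m).card : ℝ) with hDdef
  have hD : 1 ≤ D := by
    have : 0 < (Nat.divisors m).card := Finset.card_pos.2 ⟨1, Nat.one_mem_divisors.2 hm.ne'⟩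
    have h2 : 1 ≤ (Nat.divisors m).card := this
    rw [hDdef]
    exact_mod_cast h2
  -- the sums of `g`
  have hG1 : ∀ M : ℕ, |∑ n ∈ Finset.Icc 1 M, g n| ≤ D * q := by
    intro M
    have e1 : ∑ n ∈ Finset.Icc 1 M, g n = ∑ e ∈ Nat.divisors m, ((μ e : ℤ) : ℝ) *
        (χ e * ∑ j ∈ Finset.Icc 1 (M / e), χ j) := by
      have e2 : ∀ n ∈ Finset.Icc 1 M, g n =
          ∑ e ∈ Nat.divisors m, (if e ∣ n then ((μ e : ℤ) : ℝ) * χ n else 0) := by
        intro n hn
        rw [Finset.mem_Icc] at hn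
        have e3 := cs_coprime n m hn.1 hm
        have e4 : g n = (if Nat.Coprime n m then (1 : ℝ) else 0) * χ n := by
          rw [hg]
          split_ifs
          · rw [one_mul]
          · rw [zero_mul]
        rw [e4, ← e3, Finset.sum_mul]
        refine Finset.sum_congr rfl fun e _ => ?_
        rw [ite_mul, zero_mul]
      rw [Finset.sum_congr rfl e2, Finset.sum_comm]
      refine Finset.sum_congr rfl fun e he => ?_
      have he0 : 0 < e := Nat.pos_of_mem_divisors he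
      rw [cs_mult_sum (fun n => ((μ e : ℤ) : ℝ) * χ n) e M he0, Finset.mul_sum, Finset.mul_sum]
      refine Finset.sum_congr rfl fun j _ => ?_
      rw [hmul]
    rw [e1]
    refine (Finset.abs_sum_le_sum_abs _ _).trans ?_
    have e5 : ∑ e ∈ Nat.divisors m, |((μ e : ℤ) : ℝ) *
        (χ e * ∑ j ∈ Finset.Icc 1 (M / e), χ j)| ≤ ∑ _e ∈ Nat.divisors m, q := by
      refine Finset.sum_le_sum fun e _ => ?_
      rw [abs_mul, abs_mul]
      calc |((μ e : ℤ) : ℝ)| * (|χ e| * |∑ j ∈ Finset.Icc 1 (M / e), χ j|)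
          ≤ 1 * (1 * q) := by
            refine mul_le_mul (cs_abs_mu e) ?_ (by positivity) zero_le_one
            exact mul_le_mul (h1 e) (hs _) (abs_nonneg _) zero_le_one
        _ = q := by ring
    refine e5.trans ?_
    rw [Finset.sum_const, nsmul_eq_mul]
  have hG2 : ∀ M : ℕ, |∑ n ∈ Finset.Icc 1 M, g n| ≤ M := by
    intro M
    refine (Finset.abs_sum_le_sum_abs _ _).trans ?_
    refine (Finset.sum_le_sum fun n _ => hg1 n).trans ?_
    rw [Finset.sum_const, Nat.card_Icc, nsmul_eq_mul, mul_one]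
    simp
  -- the identity
  set N := ⌊x⌋₊ with hNdef
  have hNx : (N : ℝ) ≤ x := Nat.floor_le (by linarith)
  have e1 : (∑ n ∈ Finset.Icc 1 N, if Squarefree n ∧ Nat.Coprime n m then χ n else 0) =
      ∑ d ∈ Finset.Icc 1 N, ((μ d : ℤ) : ℝ) *
        (g (d ^ 2) * ∑ j ∈ Finset.Icc 1 (N / d ^ 2), g j) := by
    have e2 : ∀ n ∈ Finset.Icc 1 N,
        (if Squarefree n ∧ Nat.Coprime n m then χ n else 0) =
          ∑ d ∈ Finset.Icc 1 N, (if d ^ 2 ∣ n then ((μ d : ℤ) : ℝ) * g n else 0) := by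
      intro n hn
      rw [Finset.mem_Icc] at hn
      have e3 := cs_sqf n N hn.1 hn.2
      have e4 : (if Squarefree n ∧ Nat.Coprime n m then χ n else 0) =
          (if Squarefree n then (1 : ℝ) else 0) * g n := by
        rw [hg]
        by_cases ha : Squarefree n
        · by_cases hb : Nat.Coprime n m
          · rw [if_pos ⟨ha, hb⟩, if_pos ha, if_pos hb, one_mul]
          · rw [if_neg (fun h => hb h.2), if_neg hb, mul_zero]
        · rw [if_neg (fun h => ha h.1), if_neg ha, zero_mul]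
      rw [e4, ← e3, Finset.sum_mul]
      refine Finset.sum_congr rfl fun d _ => ?_
      rw [ite_mul, zero_mul]
    rw [Finset.sum_congr rfl e2, Finset.sum_comm]
    refine Finset.sum_congr rfl fun d hd => ?_
    rw [Finset.mem_Icc] at hd
    have hd0 : 0 < d ^ 2 := pow_pos hd.1 2
    rw [cs_mult_sum (fun n => ((μ d : ℤ) : ℝ) * g n) (d ^ 2) N hd0, Finset.mul_sum,
      Finset.mul_sum]
    refine Finset.sum_congr rfl fun j _ => ?_
    rw [hgmul]
  rw [e1]
  refine (Finset.abs_sum_le_sum_abs _ _).trans ?_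
  have hq0 : 0 < q := by linarith
  have hx0 : 0 < x := by linarith
  obtain ⟨y, hy, hyq, hyx⟩ : ∃ y : ℝ, 0 < y ∧ q * y = Real.sqrt (q * x) ∧ q * y ^ 2 = x := by
    have hs0 : 0 < Real.sqrt (q * x) := Real.sqrt_pos.2 (by positivity)
    have hs1 : Real.sqrt (q * x) ^ 2 = q * x := Real.sq_sqrt (by positivity)
    refine ⟨Real.sqrt (q * x) / q, by positivity, by field_simp, ?_⟩
    rw [div_pow, hs1]
    field_simp
  have e6 : ∀ d ∈ Finset.Icc 1 N, |((μ d : ℤ) : ℝ) *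
      (g (d ^ 2) * ∑ j ∈ Finset.Icc 1 (N / d ^ 2), g j)| ≤
        4 * D * q * (y ^ 2 / ((y + d) * (y + d - 1))) := by
    intro d hd
    rw [Finset.mem_Icc] at hd
    have e7 : |((μ d : ℤ) : ℝ) * (g (d ^ 2) * ∑ j ∈ Finset.Icc 1 (N / d ^ 2), g j)| ≤
        |∑ j ∈ Finset.Icc 1 (N / d ^ 2), g j| := by
      rw [abs_mul, abs_mul]
      calc |((μ d : ℤ) : ℝ)| * (|g (d ^ 2)| * |∑ j ∈ Finset.Icc 1 (N / d ^ 2), g j|)
          ≤ 1 * (1 * |∑ j ∈ Finset.Icc 1 (N / d ^ 2), g j|) := by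
            refine mul_le_mul (cs_abs_mu d) ?_ (by positivity) zero_le_one
            exact mul_le_mul_of_nonneg_right (hg1 _) (abs_nonneg _)
        _ = _ := by rw [one_mul, one_mul]
    refine e7.trans (cs_step D q x y hD hq hx0 hy hyx d hd.1 _ (hG1 _) ?_)
    refine (hG2 _).trans ?_
    calc ((N / d ^ 2 : ℕ) : ℝ) ≤ (N : ℝ) / ((d ^ 2 : ℕ) : ℝ) := Nat.cast_div_le
      _ = (N : ℝ) / (d : ℝ) ^ 2 := by rw [Nat.cast_pow]
      _ ≤ x / (d : ℝ) ^ 2 := by gcongr
  refine (Finset.sum_le_sum e6).trans ?_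
  rw [← Finset.mul_sum]
  calc 4 * D * q * ∑ d ∈ Finset.Icc 1 N, y ^ 2 / ((y + d) * (y + d - 1))
      ≤ 4 * D * q * y := mul_le_mul_of_nonneg_left (cs_tele y hy N) (by positivity)
    _ = 4 * D * (q * y) := by ring
    _ = 4 * D * Real.sqrt (q * x) := by rw [hyq]

end Pool.Agent.H98.MK
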