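import Pool.Agent.H98.MK.Defs

/-!
# Project MK (MP_a3214d), row S2: the number of classes of involutions (helper40)
-/

set_option autoImplicit false
set_option maxHeartbeats 400000

open scoped BigOperators

namespace Pool.Agent.H98.MK

/-- The annihilator of a subspace has the size of the quotient. -/
private theorem perp_card (s : ℕ) (W : Submodule (ZMod 2) (Fin s → ZMod 2)) :
    Nat.card ((Fin s → ZMod 2) ⧸ W) =
      Nat.card {x : Fin s → ZMod 2 // ∀ y ∈ W, x ⬝ᵥ y = 0} := by
  have e1 : {x : Fin s → ZMod 2 // ∀ y ∈ W, x ⬝ᵥ y = 0} ≃ W.dualAnnihilator :=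
    (dotProductEquiv (ZMod 2) (Fin s)).toEquiv.subtypeEquiv fun x => by
      rw [Submodule.mem_dualAnnihilator]
      rfl
  have e2 : Module.Dual (ZMod 2) ((Fin s → ZMod 2) ⧸ W) ≃ W.dualAnnihilator :=
    (W.dualQuotEquivDualAnnihilator).toEquiv
  rw [Nat.card_congr e1, ← Nat.card_congr e2,
    Module.natCard_eq_pow_finrank (K := ZMod 2) (V := ((Fin s → ZMod 2) ⧸ W)),
    Module.natCard_eq_pow_finrank (K := ZMod 2)
      (V := Module.Dual (ZMod 2) ((Fin s → ZMod 2) ⧸ W)),
    Subspace.dual_finrank_eq]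

variable (D : Dat)

/-- The commutator map. -/
private noncomputable def Bl (v : D.V) : D.V →ₗ[ZMod 2] D.Z := D.β v + D.β.flip v

private theorem Bl_apply (v w : D.V) : Bl D v w = D.B v w := by
  rfl

private theorem B_symm (v w : D.V) : D.B v w = D.B w v := by
  unfold Dat.B
  rw [add_comm]

private theorem conj_eq (x g : Ext D) : g * x * g⁻¹ = ⟨x.v, x.z + D.B x.v g.v⟩ := by
  apply Ext.ext
  · simp only [Ext.mul_v, Ext.inv_v]
    calc g.v + x.v + g.v = x.v + (g.v + g.v) := by abel
      _ = x.v := by rw [Ext.two_V, add_zero]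
  · simp only [Ext.mul_z, Ext.mul_v, Ext.inv_z, Ext.inv_v, Dat.B, map_add, LinearMap.add_apply]
    have h1 := Ext.two_Z g.z
    have h2 := Ext.two_Z (D.β g.v g.v)
    calc g.z + x.z + D.β g.v x.v + (g.z + D.β g.v g.v) + (D.β g.v g.v + D.β x.v g.v)
        = x.z + (D.β x.v g.v + D.β g.v x.v) + (g.z + g.z) + (D.β g.v g.v + D.β g.v g.v) := by abel
      _ = x.z + (D.β x.v g.v + D.β g.v x.v) := by rw [h1, h2, add_zero, add_zero]

private theorem sq_eq (x : Ext D) : x * x = ⟨0, D.q x.v⟩ := by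
  apply Ext.ext
  · simp only [Ext.mul_v]
    exact Ext.two_V x.v
  · simp only [Ext.mul_z]
    rw [Ext.two_Z, zero_add]
    rfl

private theorem sq_one (x : Ext D) : x * x = 1 ↔ D.q x.v = 0 := by
  rw [sq_eq]
  constructor
  · intro h
    exact congrArg Ext.z h
  · intro h
    rw [h]
    rfl

private theorem isConj_iff' (x y : Ext D) :
    IsConj x y ↔ x.v = y.v ∧ y.z - x.z ∈ LinearMap.range (Bl D x.v) := by
  rw [isConj_iff]
  constructor
  · rintro ⟨c, hc⟩
    rw [conj_eq] at hc
    have hv := congrArg Ext.v hc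
    have hz := congrArg Ext.z hc
    simp only at hv hz
    refine ⟨hv, ⟨c.v, ?_⟩⟩
    rw [Bl_apply, ← hz]
    abel
  · rintro ⟨hv, w, hw⟩
    refine ⟨⟨w, 0⟩, ?_⟩
    rw [conj_eq]
    apply Ext.ext
    · exact hv
    · simp only
      rw [Bl_apply] at hw
      rw [hw]
      abel

/-- The vectors with `q = 0`. -/
private abbrev Q0 : Type := {v : D.V // D.q v = 0}

private noncomputable def toCl (x : Σ v : Q0 D, D.Z ⧸ LinearMap.range (Bl D v.1)) :
    {c : ConjClasses (Ext D) // ∃ g : Ext D, ConjClasses.mk g = c ∧ g * g = 1} :=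
  ⟨ConjClasses.mk ⟨x.1.1, x.2.out⟩, ⟨⟨x.1.1, x.2.out⟩, rfl, (sq_one D _).2 x.1.2⟩⟩

private theorem toCl_bij : Function.Bijective (toCl D) := by
  constructor
  · rintro ⟨v, c⟩ ⟨v', c'⟩ h
    have h1 := congrArg Subtype.val h
    simp only [toCl] at h1
    rw [ConjClasses.mk_eq_mk_iff_isConj, isConj_iff'] at h1
    obtain ⟨h2, h3⟩ := h1
    have h4 : v = v' := Subtype.ext h2
    subst h4
    congr 1
    have h5 : (Submodule.Quotient.mk c'.out : D.Z ⧸ LinearMap.range (Bl D v.1)) =
        Submodule.Quotient.mk c.out := (Submodule.Quotient.eq _).2 h3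
    have h6 : (Submodule.Quotient.mk c'.out : D.Z ⧸ LinearMap.range (Bl D v.1)) = c' :=
      Quotient.out_eq' c'
    have h7 : (Submodule.Quotient.mk c.out : D.Z ⧸ LinearMap.range (Bl D v.1)) = c :=
      Quotient.out_eq' c
    rw [← h6, ← h7, h5]
  · rintro ⟨c, g, rfl, hg⟩
    refine ⟨⟨⟨g.v, (sq_one D g).1 hg⟩, Submodule.Quotient.mk g.z⟩, ?_⟩
    apply Subtype.ext
    simp only [toCl]
    rw [ConjClasses.mk_eq_mk_iff_isConj, isConj_iff']
    refine ⟨rfl, ?_⟩
    have h7 : (Submodule.Quotient.mk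
        (Submodule.Quotient.mk g.z : D.Z ⧸ LinearMap.range (Bl D g.v)).out :
        D.Z ⧸ LinearMap.range (Bl D g.v)) = Submodule.Quotient.mk g.z := Quotient.out_eq' _
    exact (Submodule.Quotient.eq _).1 h7.symm

private theorem card_cl :
    Nat.card {c : ConjClasses (Ext D) // ∃ g : Ext D, ConjClasses.mk g = c ∧ g * g = 1} =
      Nat.card {x : D.V × D.Z // D.q x.1 = 0 ∧ ∀ w : D.V, x.2 ⬝ᵥ D.B x.1 w = 0} := by
  have e2 : {x : D.V × D.Z // D.q x.1 = 0 ∧ ∀ w : D.V, x.2 ⬝ᵥ D.B x.1 w = 0} ≃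
      Σ v : Q0 D, {x : D.Z // ∀ y ∈ LinearMap.range (Bl D v.1), x ⬝ᵥ y = 0} :=
    { toFun := fun x => ⟨⟨x.1.1, x.2.1⟩, ⟨x.1.2, by
        rintro y ⟨w, rfl⟩
        exact x.2.2 w⟩⟩
      invFun := fun y => ⟨(y.1.1, y.2.1), y.1.2, fun w => y.2.2 _ ⟨w, rfl⟩⟩
      left_inv := fun _ => rfl
      right_inv := fun _ => rfl }
  classical
  rw [← Nat.card_congr (Equiv.ofBijective _ (toCl_bij D)), Nat.card_congr e2, Nat.card_sigma,
    Nat.card_sigma]
  exact Finset.sum_congr rfl fun v _ => perp_card _ _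

/-- The number of classes of involutions. -/
theorem classes (D : Dat) :
    Nat.card {c : ConjClasses (Ext D) // ∃ g : Ext D, ConjClasses.mk g = c ∧ orderOf g = 2} =
      D.b := by
  classical
  have hA : Nat.card {c : ConjClasses (Ext D) // ∃ g : Ext D, ConjClasses.mk g = c ∧
      orderOf g = 2} + 1 =
      Nat.card {c : ConjClasses (Ext D) // ∃ g : Ext D, ConjClasses.mk g = c ∧ g * g = 1} := by
    have e : {c : ConjClasses (Ext D) // ∃ g : Ext D, ConjClasses.mk g = c ∧ g * g = 1} ≃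
        Option {c : ConjClasses (Ext D) // ∃ g : Ext D, ConjClasses.mk g = c ∧
          orderOf g = 2} := by
      refine Equiv.symm (Equiv.ofBijective (fun o => match o with
        | none => ⟨ConjClasses.mk 1, ⟨1, rfl, by simp⟩⟩
        | some c => ⟨c.1, by
            obtain ⟨g, hg, hg2⟩ := c.2
            refine ⟨g, hg, ?_⟩
            have := pow_orderOf_eq_one g
            rwa [hg2, pow_two] at this⟩) ⟨?_, ?_⟩)
      · rintro (_ | ⟨c, g, hg, hg2⟩) (_ | ⟨c', g', hg', hg2'⟩) h
        · rfl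
        · exfalso
          have h1 := congrArg Subtype.val h
          simp only at h1
          rw [← hg', ConjClasses.mk_eq_mk_iff_isConj, isConj_one_right] at h1
          rw [h1, orderOf_one] at hg2'
          omega
        · exfalso
          have h1 := congrArg Subtype.val h
          simp only at h1
          rw [← hg, ConjClasses.mk_eq_mk_iff_isConj, isConj_one_left] at h1
          rw [h1, orderOf_one] at hg2
          omega
        · have h1 := congrArg Subtype.val h
          simp only at h1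
          subst h1
          rfl
      · rintro ⟨c, g, hg, hg2⟩
        by_cases h1 : g = 1
        · refine ⟨none, ?_⟩
          apply Subtype.ext
          simp only
          rw [← hg, h1]
        · refine ⟨some ⟨c, g, hg, ?_⟩, rfl⟩
          exact orderOf_eq_prime (by rw [pow_two]; exact hg2) h1
    rw [Nat.card_congr e, Finite.card_option]
  have hB : D.b + 1 =
      Nat.card {x : D.V × D.Z // D.q x.1 = 0 ∧ ∀ w : D.V, x.2 ⬝ᵥ D.B x.1 w = 0} := by
    have hz : D.q (0 : D.V × D.Z).1 = 0 ∧ ∀ w : D.V, (0 : D.V × D.Z).2 ⬝ᵥ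
        D.B (0 : D.V × D.Z).1 w = 0 := by
      refine ⟨?_, fun w => ?_⟩
      · show D.β 0 0 = 0
        rw [map_zero]
      · exact zero_dotProduct _
    have e : {x : D.V × D.Z // D.q x.1 = 0 ∧ ∀ w : D.V, x.2 ⬝ᵥ D.B x.1 w = 0} ≃
        Option {x : D.V × D.Z // x ≠ 0 ∧ D.q x.1 = 0 ∧ ∀ w : D.V, x.2 ⬝ᵥ D.B x.1 w = 0} := by
      refine Equiv.symm (Equiv.ofBijective (fun o => match o with
        | none => ⟨0, hz⟩
        | some c => ⟨c.1, c.2.2⟩) ⟨?_, ?_⟩)
      · rintro (_ | c) (_ | c') h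
        · rfl
        · exact absurd (congrArg Subtype.val h).symm c'.2.1
        · exact absurd (congrArg Subtype.val h) c.2.1
        · have h1 := congrArg Subtype.val h
          simp only at h1
          rw [Option.some_inj]
          exact Subtype.ext h1
      · rintro ⟨x, hx⟩
        by_cases h1 : x = 0
        · exact ⟨none, Subtype.ext h1.symm⟩
        · exact ⟨some ⟨x, h1, hx⟩, rfl⟩
    rw [Nat.card_congr e, Finite.card_option]
    rfl
  have := card_cl D
  omega

end Pool.Agent.H98.MK
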