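import Pool.Agent.H98.MK.NDefs

/-!
# Project MK (MP_a3214d), row N8: nonnegativity and positivity of the coefficients
-/

set_option autoImplicit false

open scoped BigOperators
open Filter

namespace Pool.Agent.H98.MK

private theorem n8_sg_add : ∀ x y : ZMod 2, sg (x + y) = sg x * sg y := by decide

private theorem n8_sg_zero : sg 0 = 1 := by decide

private theorem n8_eps_one : eps 1 = 0 := by decide

private theorem n8_eps_mul : ∀ x y : ZMod 8, x ∈ ({1, 3, 5, 7} : Finset (ZMod 8)) →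
    y ∈ ({1, 3, 5, 7} : Finset (ZMod 8)) →
    eps (x * y) = eps x + eps y ∧ x * y ∈ ({1, 3, 5, 7} : Finset (ZMod 8)) := by decide

private theorem n8_sg_sum {α : Type} (s : Finset α) (f : α → ZMod 2) :
    ∏ i ∈ s, sg (f i) = sg (∑ i ∈ s, f i) := by
  classical
  induction s using Finset.induction_on with
  | empty => rw [Finset.prod_empty, Finset.sum_empty, n8_sg_zero]
  | insert a s ha ih => rw [Finset.prod_insert ha, Finset.sum_insert ha, ih, n8_sg_add]

private theorem n8_eps_prod {α : Type} (s : Finset α) (f : α → ZMod 8)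
    (hf : ∀ i ∈ s, f i ∈ ({1, 3, 5, 7} : Finset (ZMod 8))) :
    eps (∏ i ∈ s, f i) = ∑ i ∈ s, eps (f i) ∧
      ∏ i ∈ s, f i ∈ ({1, 3, 5, 7} : Finset (ZMod 8)) := by
  classical
  induction s using Finset.induction_on with
  | empty =>
    rw [Finset.prod_empty, Finset.sum_empty]
    exact ⟨n8_eps_one, by decide⟩
  | insert a s ha ih =>
    obtain ⟨h1, h2⟩ := ih fun i hi => hf i (Finset.mem_insert_of_mem hi)
    obtain ⟨h3, h4⟩ := n8_eps_mul _ _ (hf a (Finset.mem_insert_self a s)) h2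
    rw [Finset.prod_insert ha, Finset.sum_insert ha, h3, h1]
    exact ⟨rfl, h4⟩

variable (D : Dat)

private theorem n8_B0 (v : D.V) : D.B v 0 = 0 := by
  unfold Dat.B
  rw [map_zero, map_zero, LinearMap.zero_apply, add_zero]

private theorem n8_u (σ : Finset D.P) (u : D.P → ZMod 8) (hu : u ∈ D.U8 σ) (i : D.P) :
    u i ∈ ({1, 3, 5, 7} : Finset (ZMod 8)) ∧ (i ∉ σ → u i = 1) := by
  have h := Fintype.mem_piFinset.1 hu i
  by_cases hi : i ∈ σ
  · rw [if_pos hi] at h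
    exact ⟨h, fun h1 => absurd hi h1⟩
  · rw [if_neg hi] at h
    have h1 := Finset.mem_singleton.1 h
    rw [h1]
    exact ⟨by decide, fun _ => rfl⟩

open Classical in
private theorem n8_main (σ : Finset D.P) (h1 : ∀ i ∈ σ, D.q i.1 = 0)
    (h2 : ∀ i ∈ σ, ∀ j ∈ σ, D.e i j = D.e j i) (u : D.P → ZMod 8) (hu : u ∈ D.U8 σ)
    (hδ : ∀ v : D.V, v ≠ 0 → ∏ ζ : D.Z, u (v, ζ) = 1) :
    ((∏ i : D.P, ∏ j : D.P,
      if Fintype.equivFin D.V i.1 < Fintype.equivFin D.V j.1 ∧ D.e i j = 1 ∧ D.e j i = 1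
      then sg (eps (u i) * eps (u j)) else 1) *
    (∏ i : D.P, if i.2 ⬝ᵥ (D.q i.1 + D.B i.1 0) = 1 then p8 1 (u i) else 1) *
    (∏ i : D.P, if i.2 ⬝ᵥ D.B i.1 0 = 1 then p8 2 (u i) else 1) : ℤ) = 1 := by
  have hu' := n8_u D σ u hu
  have a1 : (∏ i : D.P, ∏ j : D.P,
      if Fintype.equivFin D.V i.1 < Fintype.equivFin D.V j.1 ∧ D.e i j = 1 ∧ D.e j i = 1
      then sg (eps (u i) * eps (u j)) else 1) = 1 := by
    rw [Finset.prod_comm]
    refine Finset.prod_eq_one fun j _ => ?_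
    rw [Fintype.prod_prod_type]
    refine Finset.prod_eq_one fun v _ => ?_
    by_cases hj : j ∈ σ
    · -- the exponent does not depend on the second coordinate
      have h3 : ∀ ζ : D.Z, (if Fintype.equivFin D.V (v, ζ).1 < Fintype.equivFin D.V j.1 ∧
          D.e (v, ζ) j = 1 ∧ D.e j (v, ζ) = 1 then sg (eps (u (v, ζ)) * eps (u j)) else 1) =
          (if Fintype.equivFin D.V v < Fintype.equivFin D.V j.1 ∧ j.2 ⬝ᵥ D.B j.1 v = 1
            then sg (eps (u (v, ζ)) * eps (u j)) else 1) := by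
        intro ζ
        by_cases hi : (v, ζ) ∈ σ
        · have h4 : D.e (v, ζ) j = D.e j (v, ζ) := h2 _ hi _ hj
          have h5 : D.e j (v, ζ) = j.2 ⬝ᵥ D.B j.1 v := rfl
          simp only [h4, h5, and_self]
        · rw [(hu' (v, ζ)).2 hi, n8_eps_one, zero_mul, n8_sg_zero]
          split_ifs <;> rfl
      rw [Finset.prod_congr rfl fun ζ _ => h3 ζ]
      by_cases hc : Fintype.equivFin D.V v < Fintype.equivFin D.V j.1 ∧ j.2 ⬝ᵥ D.B j.1 v = 1
      · simp only [if_pos hc]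
        have hv : v ≠ 0 := by
          rintro rfl
          have h6 := hc.2
          rw [n8_B0, dotProduct_zero] at h6
          exact absurd h6 (by decide)
        rw [n8_sg_sum, ← Finset.sum_mul,
          ← (n8_eps_prod Finset.univ (fun ζ : D.Z => u (v, ζ)) fun ζ _ => (hu' (v, ζ)).1).1,
          hδ v hv, n8_eps_one, zero_mul, n8_sg_zero]
      · simp only [if_neg hc, Finset.prod_const_one]
    · refine Finset.prod_eq_one fun ζ _ => ?_
      rw [(hu' j).2 hj, n8_eps_one, mul_zero, n8_sg_zero]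
      split_ifs <;> rfl
  have a2 : (∏ i : D.P, if i.2 ⬝ᵥ (D.q i.1 + D.B i.1 0) = 1 then p8 1 (u i) else 1) = 1 := by
    refine Finset.prod_eq_one fun i _ => ?_
    by_cases hi : i ∈ σ
    · rw [h1 i hi, n8_B0, add_zero, dotProduct_zero, if_neg (by decide)]
    · rw [(hu' i).2 hi]
      split_ifs
      · decide
      · rfl
  have a3 : (∏ i : D.P, if i.2 ⬝ᵥ D.B i.1 0 = 1 then p8 2 (u i) else 1) = 1 := by
    refine Finset.prod_eq_one fun i _ => ?_
    rw [n8_B0, dotProduct_zero, if_neg (by decide)]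
  rw [a1, a2, a3]
  norm_num

private theorem n8_psi (a b : D.V) (σ : Finset D.P) (h1 : ∀ i ∈ σ, D.q i.1 = 0)
    (h2 : ∀ i ∈ σ, ∀ j ∈ σ, D.e i j = D.e j i) (u : D.P → ZMod 8) (hu : u ∈ D.U8 σ) :
    D.Psi D.θs a b σ u =
      D.θs a b (fun v => if v = 0 then 1 else ∏ ζ : D.Z, u (v, ζ)) (D.supV σ) := by
  classical
  unfold Dat.Psi
  by_cases hc : a = 0 ∧ b = 0 ∧ (fun v : D.V => if v = 0 then 1 else ∏ ζ : D.Z, u (v, ζ)) =
      (fun _ => 1) ∧ D.supV σ = Finset.univ.filter (fun v => v ≠ 0 ∧ D.q v = 0)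
  · obtain ⟨rfl, rfl, h3, h4⟩ := hc
    have hδ : ∀ v : D.V, v ≠ 0 → ∏ ζ : D.Z, u (v, ζ) = 1 := by
      intro v hv
      have h5 := congrFun h3 v
      simpa [hv] using h5
    have h6 := n8_main D σ h1 h2 u hu hδ
    rw [h6, Int.cast_one, one_mul]
  · have h3 : D.θs a b (fun v => if v = 0 then 1 else ∏ ζ : D.Z, u (v, ζ)) (D.supV σ) = 0 := by
      unfold Dat.θs
      rw [if_neg]
      intro h4
      apply hc
      refine ⟨h4.1, h4.2.1, ?_, ?_⟩
      · exact h4.2.2.1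
      · rw [h4.2.2.2]
    rw [h3, mul_zero]

private theorem n8_nonneg (a b : D.V) (δ : D.V → ZMod 8) (T : Finset D.V) :
    0 ≤ D.θs a b δ T := by
  unfold Dat.θs
  split_ifs
  · exact zero_le_one
  · exact le_refl _

private theorem n8_p8 (x : ZMod 8) : p8 0 x = 1 := by
  unfold p8
  rw [if_pos rfl]

theorem coef_nonneg (D : Dat) (a b : D.V) (σ : Finset D.P) (h0 : (0 : D.P) ∉ σ)
    (c : D.P → Fin 4) (h : ∀ i ∈ σ, i ∈ D.R σ c) : 0 ≤ D.coef D.θs a b σ c := by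
  classical
  have h' : ∀ i ∈ σ, D.isoP i ∧ c i = 0 ∧ ∀ j ∈ σ, D.e i j = D.e j i :=
    fun i hi => (Finset.mem_filter.1 (h i hi)).2
  unfold Dat.coef
  refine mul_nonneg (by positivity) (Finset.sum_nonneg fun u hu => ?_)
  have hp : (∏ i ∈ σ, p8 (c i) (u i) : ℤ) = 1 := Finset.prod_eq_one fun i hi => by
    rw [(h' i hi).2.1, n8_p8]
  rw [hp, Int.cast_one, mul_one, n8_psi D a b σ (fun i hi => (h' i hi).1)
    (fun i hi => (h' i hi).2.2) u hu]
  exact n8_nonneg D _ _ _ _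

theorem coef_pos (D : Dat) : 0 < D.coef D.θs 0 0 D.σ0 0 := by
  classical
  have hs : ∀ i ∈ D.σ0, i ≠ 0 ∧ D.q i.1 = 0 ∧ ∀ w : D.V, i.2 ⬝ᵥ D.B i.1 w = 0 :=
    fun i hi => (Finset.mem_filter.1 hi).2
  have h1 : ∀ i ∈ D.σ0, D.q i.1 = 0 := fun i hi => (hs i hi).2.1
  have h2 : ∀ i ∈ D.σ0, ∀ j ∈ D.σ0, D.e i j = D.e j i := by
    intro i hi j hj
    unfold Dat.e
    rw [(hs i hi).2.2, (hs j hj).2.2]
  have hp : ∀ u : D.P → ZMod 8, (∏ i ∈ D.σ0, p8 ((0 : D.P → Fin 4) i) (u i) : ℤ) = 1 :=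
    fun u => Finset.prod_eq_one fun i _ => n8_p8 _
  unfold Dat.coef
  refine mul_pos (by positivity) ?_
  have hu1 : (fun _ => 1 : D.P → ZMod 8) ∈ D.U8 D.σ0 := by
    refine Fintype.mem_piFinset.2 fun i => ?_
    split_ifs
    · decide
    · exact Finset.mem_singleton_self _
  refine Finset.sum_pos' (fun u hu => ?_) ⟨fun _ => 1, hu1, ?_⟩
  · rw [hp, Int.cast_one, mul_one, n8_psi D 0 0 D.σ0 h1 h2 u hu]
    exact n8_nonneg D _ _ _ _
  · rw [hp, Int.cast_one, mul_one, n8_psi D 0 0 D.σ0 h1 h2 _ hu1]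
    have h3 : D.supV D.σ0 = Finset.univ.filter (fun v => v ≠ 0 ∧ D.q v = 0) := by
      unfold Dat.supV
      refine Finset.filter_congr fun v _ => and_congr_right fun hv => ⟨?_, fun hq => ⟨0, ?_⟩⟩
      · rintro ⟨ζ, hζ⟩
        exact h1 _ hζ
      · refine Finset.mem_filter.2 ⟨Finset.mem_univ _, ?_, hq, fun w => zero_dotProduct _⟩
        intro h4
        exact hv (congrArg Prod.fst h4)
    unfold Dat.θs
    rw [if_pos]
    · exact zero_lt_one
    · refine ⟨rfl, rfl, ?_, ?_⟩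
      · funext v
        split_ifs
        · rfl
        · exact Finset.prod_const_one
      · rw [h3]

end Pool.Agent.H98.MK
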