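import Pool.Agent.H98.MK.Defs

/-!
# MK-S3a: the frozen counting expression for a regular group counts Galois number fields
-/

set_option autoImplicit false

namespace Pool.Agent.H98.MK

private theorem cf_gal : IsGalois ℚ Om := by
  have e : (DivisionRing.toRatAlgebra : Algebra ℚ Om) = AlgebraicClosure.instAlgebra ℚ :=
    Subsingleton.elim _ _
  have h1 : Algebra.IsAlgebraic ℚ Om := by
    rw [e]
    exact AlgebraicClosure.isAlgebraic ℚ
  have h2 : IsAlgClosure ℚ Om := ⟨inferInstance, h1⟩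
  infer_instance

/-- the permutation of the embeddings given by an automorphism -/
noncomputable def cfPerm (M : IntermediateField ℚ Om) (n : ℕ) (e : (M →ₐ[ℚ] Om) ≃ Fin n) :
    Gam →* Equiv.Perm (Fin n) where
  toFun σ :=
    { toFun := fun i => e (σ.toAlgHom.comp (e.symm i))
      invFun := fun i => e ((σ⁻¹).toAlgHom.comp (e.symm i))
      left_inv := fun i => by
        simp only [Equiv.symm_apply_apply]
        refine (Equiv.eq_symm_apply e).1 ?_
        ext x
        exact σ.symm_apply_apply _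
      right_inv := fun i => by
        simp only [Equiv.symm_apply_apply]
        refine (Equiv.eq_symm_apply e).1 ?_
        ext x
        exact σ.apply_symm_apply _ }
  map_one' := by
    ext i
    change ((e ((1 : Gam).toAlgHom.comp (e.symm i)) : Fin n) : ℕ) = (i : ℕ)
    have h : ((1 : Gam).toAlgHom.comp (e.symm i)) = e.symm i := by
      ext x
      rfl
    rw [h, Equiv.apply_symm_apply]
  map_mul' := fun σ τ => by
    ext i
    change ((e ((σ * τ : Gam).toAlgHom.comp (e.symm i)) : Fin n) : ℕ) =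
      ((e (σ.toAlgHom.comp (e.symm (e (τ.toAlgHom.comp (e.symm i))))) : Fin n) : ℕ)
    rw [Equiv.symm_apply_apply]
    have h : ((σ * τ : Gam).toAlgHom.comp (e.symm i)) =
        σ.toAlgHom.comp (τ.toAlgHom.comp (e.symm i)) := by
      ext x
      rfl
    rw [h]

theorem cfPerm_apply (M : IntermediateField ℚ Om) (n : ℕ) (e : (M →ₐ[ℚ] Om) ≃ Fin n)
    (σ : Gam) (φ : M →ₐ[ℚ] Om) : cfPerm M n e σ (e φ) = e (σ.toAlgHom.comp φ) := by
  change e (σ.toAlgHom.comp (e.symm (e φ))) = _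
  rw [Equiv.symm_apply_apply]

theorem cf_bij {n : ℕ} {G : Subgroup (Equiv.Perm (Fin n))}
    (htr : MulAction.IsPretransitive G (Fin n)) (hreg : Nat.card G = n) (i : Fin n) :
    Function.Bijective (fun g : G => (g : Equiv.Perm (Fin n)) i) := by
  rw [Nat.bijective_iff_surjective_and_card]
  refine ⟨fun j => ?_, by simpa using hreg⟩
  obtain ⟨g, hg⟩ := htr.exists_smul_eq i j
  exact ⟨g, hg⟩

theorem cf_forward {n : ℕ} {G : Subgroup (Equiv.Perm (Fin n))}
    (htr : MulAction.IsPretransitive G (Fin n)) (hreg : Nat.card G = n)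
    (M : IntermediateField ℚ Om) (hM : Module.finrank ℚ M = n)
    (he : ∃ e : (M →ₐ[ℚ] Om) ≃ Fin n, ∀ π : Equiv.Perm (Fin n),
      π ∈ G ↔ ∃ σ : Gam, ∀ φ : M →ₐ[ℚ] Om, e (σ.toAlgHom.comp φ) = π (e φ)) :
    IsGalois ℚ M ∧ FiniteDimensional ℚ M ∧ Nonempty ((M ≃ₐ[ℚ] M) ≃* G) := by
  have := cf_gal
  obtain ⟨e, he⟩ := he
  have hn : 0 < n := by
    rw [← hreg]
    exact Nat.card_pos
  have hfd : FiniteDimensional ℚ M := Module.finite_of_finrank_pos (by rw [hM]; exact hn)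
  set P := cfPerm M n e with hP
  have hPG : ∀ σ, P σ ∈ G := fun σ => (he _).2 ⟨σ, fun φ => (cfPerm_apply M n e σ φ).symm⟩
  have hGP : ∀ π ∈ G, ∃ σ, P σ = π := by
    intro π hπ
    obtain ⟨σ, hσ⟩ := (he _).1 hπ
    refine ⟨σ, ?_⟩
    ext i
    obtain ⟨φ, rfl⟩ := e.surjective i
    rw [hP, cfPerm_apply, hσ]
  have hone : ∀ σ (φ : M →ₐ[ℚ] Om), σ.toAlgHom.comp φ = φ → P σ = 1 := by
    intro σ φ h
    have h1 : (fun g : G => (g : Equiv.Perm (Fin n)) (e φ)) ⟨P σ, hPG σ⟩ =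
        (fun g : G => (g : Equiv.Perm (Fin n)) (e φ)) 1 := by
      change P σ (e φ) = e φ
      rw [hP, cfPerm_apply, h]
    have h2 := (cf_bij htr hreg (e φ)).1 h1
    exact congrArg Subtype.val h2
  have hall : ∀ σ ∈ M.fixingSubgroup, ∀ (φ : M →ₐ[ℚ] Om) (x : M), σ (φ x) = φ x := by
    intro σ hσ φ x
    have h1 : P σ = 1 := by
      apply hone σ M.val
      ext y
      exact (IntermediateField.mem_fixingSubgroup_iff M σ).1 hσ y y.2
    have h2 : P σ (e φ) = e φ := by rw [h1]; rfl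
    rw [hP, cfPerm_apply] at h2
    have h3 := e.injective h2
    exact DFunLike.congr_fun h3 x
  have hN : Normal ℚ M := by
    refine (IntermediateField.normal_iff_forall_fieldRange_le (K := M)).2 ?_
    rintro φ y ⟨x, rfl⟩
    have h := (IntermediateField.mem_fixedField_iff M.fixingSubgroup (φ x)).2
      (fun σ hσ => hall σ hσ φ x)
    rw [InfiniteGalois.fixedField_fixingSubgroup] at h
    exact h
  have hGal : IsGalois ℚ M := ⟨⟩
  refine ⟨hGal, hfd, ?_⟩
  let R : Gam →* (M ≃ₐ[ℚ] M) := AlgEquiv.restrictNormalHom M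
  have hR : Function.Surjective R := AlgEquiv.restrictNormalHom_surjective Om
  let P' : Gam →* G := P.codRestrict G hPG
  have hP' : Function.Surjective P' := by
    rintro ⟨π, hπ⟩
    obtain ⟨σ, hσ⟩ := hGP π hπ
    exact ⟨σ, Subtype.ext hσ⟩
  have hker : R.ker = P'.ker := by
    ext σ
    rw [MonoidHom.mem_ker, MonoidHom.mem_ker]
    have hc : ∀ x : M, ((R σ x : M) : Om) = σ (x : Om) :=
      fun x => AlgEquiv.restrictNormal_commutes σ M x
    have h0 : R σ = 1 ↔ ∀ x ∈ M, σ x = x := by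
      constructor
      · intro h x hx
        have h3 := hc ⟨x, hx⟩
        rw [h] at h3
        exact h3.symm
      · intro h
        apply AlgEquiv.ext
        intro x
        apply Subtype.ext
        rw [hc, h x x.2]
        rfl
    rw [h0]
    constructor
    · intro h
      apply Subtype.ext
      apply hone σ M.val
      ext y
      exact h y y.2
    · intro h x hx
      have h1 : P σ = 1 := congrArg Subtype.val h
      have h2 : P σ (e M.val) = e M.val := by rw [h1]; rfl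
      rw [hP, cfPerm_apply] at h2
      exact DFunLike.congr_fun (e.injective h2) (⟨x, hx⟩ : M)
  exact ⟨(QuotientGroup.quotientKerEquivOfSurjective R hR).symm.trans
    ((QuotientGroup.quotientMulEquivOfEq hker).trans
      (QuotientGroup.quotientKerEquivOfSurjective P' hP'))⟩

theorem cf_backward {n : ℕ} {G : Subgroup (Equiv.Perm (Fin n))}
    (htr : MulAction.IsPretransitive G (Fin n)) (hreg : Nat.card G = n)
    (M : IntermediateField ℚ Om) (hGal : IsGalois ℚ M) (hfd : FiniteDimensional ℚ M)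
    (hψ : Nonempty ((M ≃ₐ[ℚ] M) ≃* G)) :
    Module.finrank ℚ M = n ∧ ∃ e : (M →ₐ[ℚ] Om) ≃ Fin n, ∀ π : Equiv.Perm (Fin n),
      π ∈ G ↔ ∃ σ : Gam, ∀ φ : M →ₐ[ℚ] Om, e (σ.toAlgHom.comp φ) = π (e φ) := by
  have := cf_gal
  obtain ⟨ψ⟩ := hψ
  have hn : 0 < n := by
    rw [← hreg]
    exact Nat.card_pos
  refine ⟨?_, ?_⟩
  · rw [← hreg, ← IsGalois.card_aut_eq_finrank, Nat.card_congr ψ.toEquiv]
  · let i₀ : Fin n := ⟨0, hn⟩
    let a : (M →ₐ[ℚ] Om) ≃ (M ≃ₐ[ℚ] M) := Normal.algHomEquivAut ℚ Om M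
    let b : G ≃ Fin n := Equiv.ofBijective _ (cf_bij htr hreg i₀)
    let e : (M →ₐ[ℚ] Om) ≃ Fin n := (a.trans ψ.toEquiv).trans b
    have ha : ∀ (σ : Gam) (φ : M →ₐ[ℚ] Om),
        a (σ.toAlgHom.comp φ) = AlgEquiv.restrictNormalHom M σ * a φ := by
      intro σ φ
      apply AlgEquiv.ext
      intro x
      apply Subtype.ext
      have h1 : ∀ (χ : M →ₐ[ℚ] Om) (y : M), ((a χ y : M) : Om) = χ y := by
        intro χ y
        have := AlgHom.restrictNormal_commutes χ M y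
        exact this
      rw [h1, AlgEquiv.mul_apply]
      have h2 : ((AlgEquiv.restrictNormalHom M σ (a φ x) : M) : Om) = σ ((a φ x : M) : Om) :=
        AlgEquiv.restrictNormal_commutes σ M (a φ x)
      rw [h2, h1]
      rfl
    have he : ∀ (σ : Gam) (φ : M →ₐ[ℚ] Om), e (σ.toAlgHom.comp φ) =
        (ψ (AlgEquiv.restrictNormalHom M σ) : Equiv.Perm (Fin n)) (e φ) := by
      intro σ φ
      change ((ψ (a (σ.toAlgHom.comp φ)) : G) : Equiv.Perm (Fin n)) i₀ =
        (ψ (AlgEquiv.restrictNormalHom M σ) : Equiv.Perm (Fin n))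
          (((ψ (a φ) : G) : Equiv.Perm (Fin n)) i₀)
      rw [ha, map_mul]
      rfl
    refine ⟨e, fun π => ⟨fun hπ => ?_, ?_⟩⟩
    · obtain ⟨σ, hσ⟩ := AlgEquiv.restrictNormalHom_surjective (F := ℚ) (K₁ := M) Om
        (ψ.symm ⟨π, hπ⟩)
      refine ⟨σ, fun φ => ?_⟩
      rw [he, hσ, MulEquiv.apply_symm_apply]
    · rintro ⟨σ, hσ⟩
      have : π = (ψ (AlgEquiv.restrictNormalHom M σ) : Equiv.Perm (Fin n)) := by
        ext i
        obtain ⟨φ, rfl⟩ := e.surjective i
        rw [← he, hσ]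
      rw [this]
      exact (ψ (AlgEquiv.restrictNormalHom M σ)).2

theorem cf_disc (M : IntermediateField ℚ Om) (hfd : FiniteDimensional ℚ M) (n : ℕ) (B : ℝ) :
    (∃ h : NumberField M,
      ((|@NumberField.discr M _ h| : ℤ) : ℝ) ≤ B * ((|NumberField.discr ℚ| : ℤ) : ℝ) ^ n) ↔
    (dabs M : ℝ) ≤ B := by
  have hNF : NumberField M := ⟨⟩
  have h1 : (dabs M : ℝ) = ((|@NumberField.discr M _ hNF| : ℤ) : ℝ) := by
    rw [dabs, dif_pos hNF]
    rw [Nat.cast_natAbs]
  rw [h1, Rat.numberField_discr]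
  simp only [abs_one, Int.cast_one, one_pow, mul_one]
  exact ⟨fun ⟨_, h⟩ => h, fun h => ⟨hNF, h⟩⟩

theorem cf_le {L L' : IntermediateField ℚ Om} (hL : Normal ℚ L) (f : L ≃ₐ[ℚ] L') : L' ≤ L := by
  have := cf_gal
  intro y hy
  have h := (IntermediateField.normal_iff_forall_fieldRange_le (K := L)).1 hL
    (L'.val.comp f.toAlgHom)
  apply h
  refine ⟨f.symm ⟨y, hy⟩, ?_⟩
  change ((f (f.symm ⟨y, hy⟩) : L') : Om) = y
  rw [AlgEquiv.apply_symm_apply]

theorem count_fields (n : ℕ) (G : Subgroup (Equiv.Perm (Fin n)))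
    (htr : MulAction.IsPretransitive G (Fin n)) (hreg : Nat.card G = n) (B : ℝ) :
    Nat.card (Quot (fun L L' : {M : IntermediateField ℚ (AlgebraicClosure ℚ) //
            Module.finrank ℚ M = n ∧
            (∃ e : (M →ₐ[ℚ] AlgebraicClosure ℚ) ≃ Fin n, ∀ π : Equiv.Perm (Fin n),
               π ∈ G ↔ ∃ σ : AlgebraicClosure ℚ ≃ₐ[ℚ] AlgebraicClosure ℚ,
                 ∀ φ : M →ₐ[ℚ] AlgebraicClosure ℚ, e (σ.toAlgHom.comp φ) = π (e φ)) ∧
            ∃ h : NumberField M,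
              ((|@NumberField.discr M _ h| : ℤ) : ℝ) ≤ B * ((|NumberField.discr ℚ| : ℤ) : ℝ) ^ n}
          => Nonempty (L.1 ≃ₐ[ℚ] L'.1))) =
      Nat.card {M : IntermediateField ℚ Om // IsGalois ℚ M ∧ FiniteDimensional ℚ M ∧
        Nonempty ((M ≃ₐ[ℚ] M) ≃* G) ∧ (dabs M : ℝ) ≤ B} := by
  have hiff : ∀ M : IntermediateField ℚ Om,
      (Module.finrank ℚ M = n ∧
            (∃ e : (M →ₐ[ℚ] AlgebraicClosure ℚ) ≃ Fin n, ∀ π : Equiv.Perm (Fin n),
               π ∈ G ↔ ∃ σ : AlgebraicClosure ℚ ≃ₐ[ℚ] AlgebraicClosure ℚ,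
                 ∀ φ : M →ₐ[ℚ] AlgebraicClosure ℚ, e (σ.toAlgHom.comp φ) = π (e φ)) ∧
            ∃ h : NumberField M,
              ((|@NumberField.discr M _ h| : ℤ) : ℝ) ≤
                B * ((|NumberField.discr ℚ| : ℤ) : ℝ) ^ n) ↔
      (IsGalois ℚ M ∧ FiniteDimensional ℚ M ∧
        Nonempty ((M ≃ₐ[ℚ] M) ≃* G) ∧ (dabs M : ℝ) ≤ B) := by
    intro M
    constructor
    · rintro ⟨h1, h2, h3⟩
      obtain ⟨hg, hf, hi⟩ := cf_forward htr hreg M h1 h2
      exact ⟨hg, hf, hi, (cf_disc M hf n B).1 h3⟩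
    · rintro ⟨hg, hf, hi, hd⟩
      obtain ⟨h1, h2⟩ := cf_backward htr hreg M hg hf hi
      exact ⟨h1, h2, (cf_disc M hf n B).2 hd⟩
  refine Nat.card_congr (Equiv.trans ?_ (Equiv.subtypeEquivRight hiff))
  refine
    { toFun := Quot.lift id ?_
      invFun := Quot.mk _
      left_inv := ?_
      right_inv := fun _ => rfl }
  · rintro L L' ⟨f⟩
    have hL : Normal ℚ L.1 := ((hiff L.1).1 L.2).1.to_normal
    have hL' : Normal ℚ L'.1 := ((hiff L'.1).1 L'.2).1.to_normal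
    exact Subtype.ext (le_antisymm (cf_le hL' f.symm) (cf_le hL f))
  · rintro ⟨x⟩
    rfl

end Pool.Agent.H98.MK
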