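import Pool.Agent.H98.MK.HomParamAux
import Pool.Agent.H98.MK.ParClass

/-!
# Project MK, row M1 (helper89): homomorphisms to `Ext D` are lifts; difference of lifts.
-/

set_option autoImplicit false

open scoped BigOperators

namespace Pool.Agent.H98.MK

theorem hom_param (D : Dat) (ρ : Gam →* Ext D) (hρ : IsLocallyConstant ρ) :
    ∃ (x : ℕ →₀ D.V) (f : Gam → D.Z) (h : IsLift D x f), adm x ∧ ρ = lh h :=
  hom_param_of (fun _ f hf ha => par_exists f hf ha) D ρ hρ

theorem lh_inj {D : Dat} {x x' : ℕ →₀ D.V} {f f' : Gam → D.Z} (h : IsLift D x f)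
    (h' : IsLift D x' f') (hx : adm x) (hx' : adm x') (he : lh h = lh h') : x = x' ∧ f = f' :=
  lh_inj_of (fun _ x y hx hy h => par_injective x y hx hy h) h h' hx hx' he

theorem lift_diff {D : Dat} {x : ℕ →₀ D.V} {f f' : Gam → D.Z} (h : IsLift D x f)
    (h' : IsLift D x f') : ∃ z : ℕ →₀ D.Z, adm z ∧ ∀ σ, f' σ = f σ + par z σ :=
  lift_diff_of (fun _ f hf ha => par_exists f hf ha) h h'

end Pool.Agent.H98.MK
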