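import Pool.Agent.H98.MK.LhSurj2
import Pool.Agent.H98.MK.ParClass

/-!
# Project MK, row M2: surjectivity of a lift (helper16)

The module also gives `ker_index` through `LhSurj2`.
-/

set_option autoImplicit false

open scoped BigOperators

namespace Pool.Agent.H98.MK

theorem lh_surj {D : Dat} {x : ℕ →₀ D.V} {f : Gam → D.Z} (hx : adm x) (h : IsLift D x f) :
    Function.Surjective (lh h) ↔ Submodule.span (ZMod 2) (Set.range x) = ⊤ :=
  (lh_surj_iff_par h).trans (par_surj x hx)

end Pool.Agent.H98.MK
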