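import Pool.Agent.H98.MK.Defs
import Pool.Agent.H67.MU.Exp

/-!
# Project MK: the inertia group maps onto the inertia group of a Galois subfield
-/

set_option autoImplicit false

open NumberField Pool.Agent.H67.MU
open scoped Pointwise

namespace Pool.Agent.H98.MK

section
variable {F K : Type} [Field F] [NumberField F] [Field K] [NumberField K]
    [Algebra F K] [IsGalois ℚ K] [IsGalois ℚ F]

omit [IsGalois ℚ K] in
theorem im_smul (σ : K ≃ₐ[ℚ] K) (x : 𝓞 F) :
    algebraMap (𝓞 F) (𝓞 K) ((AlgEquiv.restrictNormalHom F σ) • x) =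
      σ • algebraMap (𝓞 F) (𝓞 K) x := by
  apply RingOfIntegers.ext
  exact AlgEquiv.restrictNormal_commutes σ F (x : F)

theorem im_card_rat (P : Ideal (𝓞 K)) [P.IsPrime] (hP : P ≠ ⊥) :
    Nat.card (P.inertia (K ≃ₐ[ℚ] K)) = (P.under ℤ).ramificationIdxIn (𝓞 K) := by
  have h1 : (P.under ℤ) ≠ ⊥ := by
    exact mt Ideal.eq_bot_of_comap_eq_bot hP
  have : (P.under ℤ).IsMaximal := Ideal.IsPrime.isMaximal inferInstance h1
  have : Finite (ℤ ⧸ (P.under ℤ)) := Ring.HasFiniteQuotients.finiteQuotient h1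
  exact Ideal.card_inertia_eq_ramificationIdxIn (P.under ℤ) P

omit [IsGalois ℚ F] in
theorem im_card_rel (P : Ideal (𝓞 K)) [P.IsPrime] (hP : P ≠ ⊥) :
    Nat.card (P.inertia (K ≃ₐ[F] K)) = (P.under (𝓞 F)).ramificationIdxIn (𝓞 K) := by
  have h1 : (P.under (𝓞 F)) ≠ ⊥ := by
    exact mt Ideal.eq_bot_of_comap_eq_bot hP
  have : (P.under (𝓞 F)).IsMaximal := Ideal.IsPrime.isMaximal inferInstance h1
  have : Finite (𝓞 F ⧸ (P.under (𝓞 F))) := Ring.HasFiniteQuotients.finiteQuotient h1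
  have : IsGalois F K := IsGalois.tower_top_of_isGalois ℚ F K
  exact Ideal.card_inertia_eq_ramificationIdxIn (P.under (𝓞 F)) P

theorem im_le (P : Ideal (𝓞 K)) [P.IsPrime] :
    (P.inertia (K ≃ₐ[ℚ] K)).map (AlgEquiv.restrictNormalHom F) ≤
      (P.under (𝓞 F)).inertia (F ≃ₐ[ℚ] F) := by
  rintro _ ⟨σ, hσ, rfl⟩
  intro x
  change algebraMap (𝓞 F) (𝓞 K) ((AlgEquiv.restrictNormalHom F σ) • x - x) ∈ P
  rw [map_sub, im_smul]
  exact hσ _

omit [IsGalois ℚ K] in
/-- the automorphisms over `F` as elements of the kernel of the restriction -/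
theorem im_card_ker (P : Ideal (𝓞 K)) [P.IsPrime] :
    Nat.card (((AlgEquiv.restrictNormalHom F).comp
      (P.inertia (K ≃ₐ[ℚ] K)).subtype).ker) = Nat.card (P.inertia (K ≃ₐ[F] K)) := by
  set f := (AlgEquiv.restrictNormalHom F).comp (P.inertia (K ≃ₐ[ℚ] K)).subtype with hf
  have hk : ∀ τ : K ≃ₐ[F] K, AlgEquiv.restrictNormalHom F (τ.restrictScalars ℚ) = 1 := by
    intro τ
    ext x
    apply (algebraMap F K).injective
    have h1 := AlgEquiv.restrictNormal_commutes (τ.restrictScalars ℚ) F x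
    exact h1.trans (τ.commutes x)
  let g : P.inertia (K ≃ₐ[F] K) → f.ker := fun τ =>
    ⟨⟨τ.1.restrictScalars ℚ, fun x => τ.2 x⟩, hk τ.1⟩
  symm
  apply Nat.card_eq_of_bijective g
  constructor
  · intro τ τ' h
    apply Subtype.ext
    ext x
    have h1 : τ.1.restrictScalars ℚ = τ'.1.restrictScalars ℚ :=
      congrArg (fun z : f.ker => (z.1.1 : K ≃ₐ[ℚ] K)) h
    exact DFunLike.congr_fun h1 x
  · rintro ⟨⟨σ, hσ⟩, hs⟩
    have hs' : AlgEquiv.restrictNormalHom F σ = 1 := hs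
    have hc : ∀ x : F, σ (algebraMap F K x) = algebraMap F K x := by
      intro x
      have h1 := AlgEquiv.restrictNormal_commutes σ F x
      have h2 : AlgEquiv.restrictNormal σ F = 1 := hs'
      rw [h2] at h1
      exact h1.symm
    refine ⟨⟨AlgEquiv.ofRingEquiv (f := σ.toRingEquiv) hc, fun x => hσ x⟩, ?_⟩
    apply Subtype.ext
    apply Subtype.ext
    ext x
    rfl

theorem inertia_map (P : Ideal (𝓞 K)) [P.IsPrime] (hP : P ≠ ⊥) :
    (P.inertia (K ≃ₐ[ℚ] K)).map (AlgEquiv.restrictNormalHom F) =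
      (P.under (𝓞 F)).inertia (F ≃ₐ[ℚ] F) := by
  have hF : P.under (𝓞 F) ≠ ⊥ := mt Ideal.eq_bot_of_comap_eq_bot hP
  have h1 := im_card_rat P hP
  have h2 := im_card_rat (P.under (𝓞 F)) hF
  have h3 := im_card_rel (F := F) P hP
  have h4 := im_card_ker (F := F) P
  set f := (AlgEquiv.restrictNormalHom F).comp (P.inertia (K ≃ₐ[ℚ] K)).subtype with hf
  have h5 : f.range = (P.inertia (K ≃ₐ[ℚ] K)).map (AlgEquiv.restrictNormalHom F) := by
    rw [hf, MonoidHom.range_comp, Subgroup.range_subtype]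
  have h6 : Nat.card f.range * Nat.card f.ker = Nat.card (P.inertia (K ≃ₐ[ℚ] K)) := by
    rw [← Nat.card_congr (QuotientGroup.quotientKerEquivRange f).toEquiv]
    exact (Subgroup.card_eq_card_quotient_mul_card_subgroup f.ker).symm
  have : IsGalois F K := IsGalois.tower_top_of_isGalois ℚ F K
  have h7 : ((P.under (𝓞 F)).under ℤ).ramificationIdxIn (𝓞 F) *
      (P.under (𝓞 F)).ramificationIdxIn (𝓞 K) =
      ((P.under (𝓞 F)).under ℤ).ramificationIdxIn (𝓞 K) :=
    Ideal.ramificationIdxIn_mul_ramificationIdxIn (P.under (𝓞 F)) (F ≃ₐ[ℚ] F) (𝓞 K)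
      (K ≃ₐ[ℚ] K) (K ≃ₐ[F] K)
  rw [Ideal.under_under] at h7
  have h8 : Nat.card f.range = Nat.card ((P.under (𝓞 F)).inertia (F ≃ₐ[ℚ] F)) := by
    have h9 : 0 < Nat.card f.ker := Nat.card_pos
    apply Nat.eq_of_mul_eq_mul_right h9
    rw [h6, h1, h4, h3, h2, ← h7]
    rw [Ideal.under_under]
  rw [h5] at h8
  exact Subgroup.eq_of_le_of_card_ge (im_le P) h8.ge

end

end Pool.Agent.H98.MK
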