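import Pool.Agent.H98.MK.Defs
import Pool.Agent.H67.MU.Exp

/-!
# Project MK, row L5: inertia and Frobenius on quadratic elements at odd primes (helper9)
-/

set_option autoImplicit false

open NumberField Pool.Agent.H67.MU

open scoped Pointwise

namespace Pool.Agent.H98.MK

/-- A square root of an integer is an algebraic integer. -/
theorem ql_int {K : Type} [Field K] [NumberField K] (d : ℤ) (y : K) (hy : y ^ 2 = d) :
    ∃ Y : 𝓞 K, (Y : K) = y ∧ Y ^ 2 = (d : 𝓞 K) := by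
  have h1 : IsIntegral ℤ (y ^ 2) := by
    rw [hy]
    exact isIntegral_algebraMap (R := ℤ) (A := K) (x := d)
  have h2 : IsIntegral ℤ y := IsIntegral.of_pow two_pos h1
  refine ⟨⟨y, h2⟩, rfl, ?_⟩
  apply RingOfIntegers.ext
  push_cast
  exact hy

/-- Twice a square root of an integer prime to `p` is not in a prime above `p`. -/
theorem ql_two {K : Type} [Field K] [NumberField K] (p : ℕ) [Fact p.Prime] (hp : p ≠ 2)
    (P : Ideal (𝓞 K)) [P.IsPrime] (hpP : (p : 𝓞 K) ∈ P) (d : ℤ) (hd : ¬ (p : ℤ) ∣ d) (Y : 𝓞 K)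
    (hY : Y ^ 2 = (d : 𝓞 K)) : 2 * Y ∉ P := by
  intro h
  have hpp : p.Prime := Fact.out
  have hp' : Prime (p : ℤ) := Nat.prime_iff_prime_int.1 hpp
  have h1 : (((4 * d : ℤ)) : 𝓞 K) ∈ P := by
    have h2 : (2 * Y) * (2 * Y) ∈ P := P.mul_mem_left _ h
    have h3 : (2 * Y) * (2 * Y) = (((4 * d : ℤ)) : 𝓞 K) := by
      push_cast
      rw [← hY]
      ring
    rwa [h3] at h2
  have h4 : ¬ (p : ℤ) ∣ 4 * d := by
    intro h5
    rcases hp'.dvd_or_dvd h5 with h6 | h6
    · have h7 : p ∣ 4 := by exact_mod_cast h6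
      have h8 : p ∣ 2 := by
        have h9 : p ∣ 2 ^ 2 := by
          simpa using h7
        exact hpp.dvd_of_dvd_pow h9
      exact hp ((Nat.prime_dvd_prime_iff_eq hpp Nat.prime_two).1 h8)
    · exact hd h6
  have h5 : IsCoprime (p : ℤ) (4 * d) := (Prime.coprime_iff_not_dvd hp').2 h4
  obtain ⟨a, b, hab⟩ := h5
  have h6 : (1 : 𝓞 K) ∈ P := by
    have h7 : ((a * p + b * (4 * d) : ℤ) : 𝓞 K) ∈ P := by
      have h8 : ((a * p + b * (4 * d) : ℤ) : 𝓞 K) = (a : 𝓞 K) * (p : 𝓞 K) +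
          (b : 𝓞 K) * (((4 * d : ℤ)) : 𝓞 K) := by
        push_cast
        ring
      rw [h8]
      exact P.add_mem (P.mul_mem_left _ hpP) (P.mul_mem_left _ h1)
    rw [hab] at h7
    simpa using h7
  exact (Ideal.IsPrime.ne_top ‹P.IsPrime›) ((Ideal.eq_top_iff_one P).2 h6)

theorem ql_pm {K : Type} [Field K] [NumberField K] (d : ℤ) (y : K) (hy : y ^ 2 = d)
    (τ : K ≃ₐ[ℚ] K) : τ y = y ∨ τ y = -y := by
  have h : (τ y) ^ 2 = y ^ 2 := by
    rw [← map_pow, hy, map_intCast]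
  exact sq_eq_sq_iff_eq_or_eq_neg.1 h

theorem ql_coe {K : Type} [Field K] [NumberField K] (τ : K ≃ₐ[ℚ] K) (x : 𝓞 K) :
    ((τ • x : 𝓞 K) : K) = τ x := rfl

theorem quad_inertia {K : Type} [Field K] [NumberField K] (p : ℕ) [Fact p.Prime] (hp : p ≠ 2)
    (P : Ideal (𝓞 K)) [P.IsPrime] (hpP : (p : 𝓞 K) ∈ P) (d : ℤ) (hd : ¬ (p : ℤ) ∣ d) (y : K)
    (hy : y ^ 2 = d) (τ : K ≃ₐ[ℚ] K) (hτ : τ ∈ P.inertia (K ≃ₐ[ℚ] K)) : τ y = y := by
  obtain ⟨Y, hYy, hY⟩ := ql_int d y hy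
  rcases ql_pm d y hy τ with h | h
  · exact h
  · exfalso
    have h1 : τ • Y - Y ∈ P := hτ Y
    have h2 : τ • Y = -Y := by
      apply RingOfIntegers.ext
      rw [ql_coe, hYy, h]
      change -y = -(Y : K)
      rw [hYy]
    rw [h2] at h1
    have h3 : 2 * Y ∈ P := by
      have h4 : 2 * Y = -(-Y - Y) := by ring
      rw [h4]
      exact P.neg_mem h1
    exact ql_two p hp P hpP d hd Y hY h3

theorem quad_frob {K : Type} [Field K] [NumberField K] (p : ℕ) [Fact p.Prime] (hp : p ≠ 2)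
    (P : Ideal (𝓞 K)) [P.IsPrime] (hpP : (p : 𝓞 K) ∈ P) (d : ℤ) (hd : ¬ (p : ℤ) ∣ d) (y : K)
    (hy : y ^ 2 = d) (φ : K ≃ₐ[ℚ] K) (hφ : ∀ x : 𝓞 K, φ • x - x ^ p ∈ P) :
    φ y = (jacobiSym d p : ℤ) * y := by
  obtain ⟨Y, hYy, hY⟩ := ql_int d y hy
  have hpp : p.Prime := Fact.out
  have hodd : p % 2 = 1 := (hpp.eq_two_or_odd).resolve_left hp
  have hl : jacobiSym d p = legendreSym p d := (jacobiSym.legendreSym.to_jacobiSym p d).symm
  rw [hl]
  have he : ((legendreSym p d : ℤ) : ZMod p) = (d : ZMod p) ^ (p / 2) := legendreSym.eq_pow p d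
  have hdvd : (p : ℤ) ∣ d ^ (p / 2) - legendreSym p d := by
    rw [← ZMod.intCast_eq_intCast_iff_dvd_sub]
    push_cast
    exact he
  have hYp : Y ^ p = ((d ^ (p / 2) : ℤ) : 𝓞 K) * Y := by
    have h1 : p = 2 * (p / 2) + 1 := by omega
    calc Y ^ p = Y ^ (2 * (p / 2) + 1) := by rw [← h1]
      _ = (Y ^ 2) ^ (p / 2) * Y := by rw [pow_succ, pow_mul]
      _ = ((d ^ (p / 2) : ℤ) : 𝓞 K) * Y := by
        rw [hY]
        push_cast
        ring
  have h2 : φ • Y - (legendreSym p d : ℤ) * Y ∈ P := by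
    obtain ⟨c, hc⟩ := hdvd
    have h3 : φ • Y - (legendreSym p d : ℤ) * Y =
        (φ • Y - Y ^ p) + ((d ^ (p / 2) - legendreSym p d : ℤ) : 𝓞 K) * Y := by
      rw [hYp]
      push_cast
      ring
    rw [h3, hc]
    refine P.add_mem (hφ Y) ?_
    have h4 : ((p * c : ℤ) : 𝓞 K) * Y = (c * Y) * (p : 𝓞 K) := by
      push_cast
      ring
    rw [h4]
    exact P.mul_mem_left _ hpP
  have hd0 : (d : ZMod p) ≠ 0 := by
    intro h
    exact hd ((ZMod.intCast_zmod_eq_zero_iff_dvd d p).1 h)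
  have hcoe : ((φ • Y : 𝓞 K) : K) = φ y := by rw [ql_coe, hYy]
  rcases legendreSym.eq_one_or_neg_one p hd0 with h5 | h5 <;>
    rcases ql_pm d y hy φ with h6 | h6
  · rw [h5, h6]
    simp
  · exfalso
    have h7 : φ • Y = -Y := by
      apply RingOfIntegers.ext
      rw [hcoe, h6]
      change -y = -(Y : K)
      rw [hYy]
    rw [h5, h7] at h2
    have h8 : 2 * Y ∈ P := by
      have h9 : 2 * Y = -(-Y - ((1 : ℤ) : 𝓞 K) * Y) := by
        push_cast
        ring
      rw [h9]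
      exact P.neg_mem h2
    exact ql_two p hp P hpP d hd Y hY h8
  · exfalso
    have h7 : φ • Y = Y := by
      apply RingOfIntegers.ext
      rw [hcoe, h6, hYy]
    rw [h5, h7] at h2
    have h8 : 2 * Y ∈ P := by
      have h9 : 2 * Y = Y - ((-1 : ℤ) : 𝓞 K) * Y := by
        push_cast
        ring
      rw [h9]
      exact h2
    exact ql_two p hp P hpP d hd Y hY h8
  · rw [h5, h6]
    simp

/-- The inertia group of `P` over `F` is at least as large as the one over the rationals, if the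
latter fixes `F`. -/
theorem ql_card {K : Type} [Field K] [NumberField K] (F : IntermediateField ℚ K)
    (P : Ideal (𝓞 K)) (h : P.inertia (K ≃ₐ[ℚ] K) ≤ F.fixingSubgroup) :
    Nat.card (P.inertia (K ≃ₐ[ℚ] K)) ≤ Nat.card (P.inertia (K ≃ₐ[F] K)) := by
  let f : P.inertia (K ≃ₐ[ℚ] K) → P.inertia (K ≃ₐ[F] K) := fun σ =>
    ⟨IntermediateField.fixingSubgroupEquiv F ⟨σ.1, h σ.2⟩, fun x => σ.2 x⟩
  refine Nat.card_le_card_of_injective f ?_
  intro σ σ' h1
  have h2 := congrArg Subtype.val h1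
  have h3 := (IntermediateField.fixingSubgroupEquiv F).injective h2
  apply Subtype.ext
  exact Subtype.mk.inj h3

theorem quad_ram {K : Type} [Field K] [NumberField K] [IsGalois ℚ K] (p : ℕ) [Fact p.Prime]
    (hp : p ≠ 2) (P : Ideal (𝓞 K)) [P.IsPrime] (hpP : (p : 𝓞 K) ∈ P) (y : K)
    (hy : y ^ 2 = (dd p : ℤ)) (τ : K ≃ₐ[ℚ] K)
    (hτ : Subgroup.zpowers τ = P.inertia (K ≃ₐ[ℚ] K)) : τ y = -y := by
  rcases ql_pm _ y hy τ with hfix | h
  swap
  · exact h
  exfalso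
  have hpp : p.Prime := Fact.out
  let F : IntermediateField ℚ K := IntermediateField.adjoin ℚ {y}
  have hyF : y ∈ F := IntermediateField.mem_adjoin_simple_self ℚ y
  have hI : P.inertia (K ≃ₐ[ℚ] K) ≤ F.fixingSubgroup := by
    rw [← hτ, Subgroup.zpowers_le, IntermediateField.mem_fixingSubgroup_iff]
    intro x hx
    have h1 : F ≤ IntermediateField.fixedField (Subgroup.zpowers τ) := by
      rw [IntermediateField.adjoin_simple_le_iff, IntermediateField.mem_fixedField_iff]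
      intro g hg
      have h2 : Subgroup.zpowers τ ≤ MulAction.stabilizer (K ≃ₐ[ℚ] K) y := by
        rw [Subgroup.zpowers_le]
        exact hfix
      exact h2 hg
    exact (IntermediateField.mem_fixedField_iff _ _).1 (h1 hx) τ (Subgroup.mem_zpowers τ)
  have hcard := ql_card F P hI
  have hp0 : (P.under ℤ) ≠ ⊥ := by
    intro h
    have h1 : (p : ℤ) ∈ P.under ℤ := by
      rw [Ideal.mem_comap]
      simpa using hpP
    rw [h, Ideal.mem_bot] at h1
    exact hpp.ne_zero (by exact_mod_cast h1)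
  have hP0 : P ≠ ⊥ := by
    intro h
    rw [h, Ideal.mem_bot] at hpP
    exact (Nat.cast_ne_zero.2 hpp.ne_zero) hpP
  have hPF0 : (P.under (𝓞 F)) ≠ ⊥ := by
    intro h
    have h1 : (p : 𝓞 F) ∈ P.under (𝓞 F) := by
      rw [Ideal.mem_comap]
      simpa using hpP
    rw [h, Ideal.mem_bot] at h1
    exact (Nat.cast_ne_zero.2 hpp.ne_zero) h1
  have hmax0 : (P.under ℤ).IsMaximal := Ideal.IsPrime.isMaximal inferInstance hp0
  have hmaxF : (P.under (𝓞 F)).IsMaximal := Ideal.IsPrime.isMaximal inferInstance hPF0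
  have hfin0 : Finite (ℤ ⧸ P.under ℤ) := Ring.HasFiniteQuotients.finiteQuotient hp0
  have hfinF : Finite (𝓞 F ⧸ P.under (𝓞 F)) := Ring.HasFiniteQuotients.finiteQuotient hPF0
  have e1 : Nat.card (P.inertia (K ≃ₐ[ℚ] K)) = P.ramificationIdx ℤ := by
    rw [Ideal.card_inertia_eq_ramificationIdxIn (P.under ℤ) P,
      Ideal.ramificationIdxIn_eq_ramificationIdx (P.under ℤ) P (K ≃ₐ[ℚ] K)]
  have e2 : Nat.card (P.inertia (K ≃ₐ[F] K)) = P.ramificationIdx (𝓞 F) := by
    rw [Ideal.card_inertia_eq_ramificationIdxIn (P.under (𝓞 F)) P,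
      Ideal.ramificationIdxIn_eq_ramificationIdx (P.under (𝓞 F)) P (K ≃ₐ[F] K)]
  have e3 := Ideal.ramificationIdx_tower (R := ℤ) (P.under (𝓞 F)) P
  have e4 : 0 < P.ramificationIdx ℤ := Ideal.ramificationIdx_pos P ℤ
  have e5 : 0 < P.ramificationIdx (𝓞 F) := Ideal.ramificationIdx_pos P (𝓞 F)
  rw [e1, e2] at hcard
  have e6 : (P.under (𝓞 F)).ramificationIdx ℤ = 1 := by
    have h1 : (P.under (𝓞 F)).ramificationIdx ℤ ≤ 1 := by
      by_contra h2
      push Not at h2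
      have h3 : 2 * P.ramificationIdx (𝓞 F) ≤ P.ramificationIdx ℤ := by
        rw [e3]
        exact Nat.mul_le_mul_right _ h2
      omega
    have h2 : (P.under (𝓞 F)).ramificationIdx ℤ ≠ 0 := by
      intro h3
      rw [h3, Nat.zero_mul] at e3
      omega
    omega
  have hspan : P.under ℤ = Ideal.span {(p : ℤ)} := by
    have h1 : (Ideal.span {(p : ℤ)}).IsMaximal := Int.ideal_span_isMaximal_of_prime p
    refine (h1.eq_of_le hmax0.ne_top ?_).symm
    rw [Ideal.span_singleton_le_iff_mem, Ideal.mem_comap]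
    simpa using hpP
  have hpPF : (p : 𝓞 F) ∈ P.under (𝓞 F) := by
    rw [Ideal.mem_comap]
    simpa using hpP
  have hle : (P.under ℤ).map (algebraMap ℤ (𝓞 F)) ≤ P.under (𝓞 F) := by
    rw [hspan, Ideal.map_span, Set.image_singleton, Ideal.span_singleton_le_iff_mem]
    simpa using hpPF
  have e7 : (P.under ℤ).ramificationIdx' (P.under (𝓞 F)) = 1 := by
    rw [Ideal.ramificationIdx'_eq_ramificationIdx _ _ hp0, e6]
  obtain ⟨Y, hYy, hY⟩ := ql_int (K := F) (dd p) ⟨y, hyF⟩ (by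
    apply Subtype.ext
    push_cast
    exact hy)
  have hdd : dd p = p ∨ dd p = -p := by
    unfold dd
    rw [if_neg hpp.one_lt.ne', if_neg hp]
    split_ifs
    · exact Or.inl rfl
    · exact Or.inr rfl
  have hpY : (p : 𝓞 F) = Y ^ 2 ∨ (p : 𝓞 F) = -Y ^ 2 := by
    rw [hY]
    rcases hdd with h | h
    · left
      rw [h]
      push_cast
      rfl
    · right
      rw [h]
      push_cast
      ring
  have hYP : Y ∈ P.under (𝓞 F) := by
    have h1 : Y ^ 2 ∈ P.under (𝓞 F) := by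
      rcases hpY with h | h
      · rw [← h]
        exact hpPF
      · have h2 : Y ^ 2 = -(p : 𝓞 F) := by
          rw [h]
          ring
        rw [h2]
        exact Ideal.neg_mem_iff _ |>.2 hpPF
    exact Ideal.IsPrime.mem_of_pow_mem inferInstance 2 h1
  have hp2 : (p : 𝓞 F) ∈ (P.under (𝓞 F)) ^ 2 := by
    have h1 : Y ^ 2 ∈ (P.under (𝓞 F)) ^ 2 := Ideal.pow_mem_pow hYP 2
    rcases hpY with h | h
    · rw [h]
      exact h1
    · rw [h]
      exact Ideal.neg_mem_iff _ |>.2 h1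
  refine (Ideal.ramificationIdx'_ne_one_iff hle).2 ?_ e7
  rw [hspan, Ideal.map_span, Set.image_singleton, Ideal.span_singleton_le_iff_mem]
  simpa using hp2

end Pool.Agent.H98.MK
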