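import Pool.Agent.H98.MK.Defs

/-!
# Project MK, row MK-L1: an automorphism of order a power of two which is trivial modulo `P ^ 2`
is trivial, for `P` not above two
-/

set_option autoImplicit false

open NumberField
open scoped Pointwise

namespace Pool.Agent.H98.MK

section tf

variable {K : Type} [Field K] [NumberField K]

private theorem tf_step {P : Ideal (𝓞 K)} {σ : K ≃ₐ[ℚ] K}
    (hσ : ∀ x : 𝓞 K, σ • x - x ∈ P ^ 2) (m : ℕ) :
    ∀ y ∈ P ^ m, σ • y - y ∈ P ^ (m + 1) := by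
  induction m with
  | zero =>
    intro y _
    rw [zero_add, pow_one]
    exact Ideal.pow_le_self (by norm_num) (hσ y)
  | succ m ih =>
    intro y hy
    rw [pow_succ] at hy
    induction hy using Submodule.mul_induction_on' with
    | mem_mul_mem a ha b hb =>
      have hb' : σ • b ∈ P := by
        have h1 : σ • b = (σ • b - b) + b := by ring
        rw [h1]
        exact P.add_mem (Ideal.pow_le_self (by norm_num) (hσ b)) hb
      have h2 : σ • (a * b) - a * b = (σ • a - a) * (σ • b) + a * (σ • b - b) := by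
        rw [smul_mul']
        ring
      rw [h2]
      refine Ideal.add_mem _ ?_ ?_
      · rw [pow_succ P (m + 1)]
        exact Ideal.mul_mem_mul (ih a ha) hb'
      · have h3 : m + 1 + 1 = m + 2 := rfl
        rw [h3, pow_add P m 2]
        exact Ideal.mul_mem_mul ha (hσ b)
    | add x _ y _ hx hy =>
      have h1 : σ • (x + y) - (x + y) = (σ • x - x) + (σ • y - y) := by
        rw [smul_add]
        ring
      rw [h1]
      exact Ideal.add_mem _ hx hy

private theorem tf_iter {P : Ideal (𝓞 K)} {σ : K ≃ₐ[ℚ] K}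
    (hσ : ∀ x : 𝓞 K, σ • x - x ∈ P ^ 2) (m : ℕ) (x : 𝓞 K) (hx : σ • x - x ∈ P ^ m) (n : ℕ) :
    (σ ^ n) • x - x - (n : 𝓞 K) * (σ • x - x) ∈ P ^ (m + 1) := by
  have hj : ∀ n : ℕ, (σ ^ n) • (σ • x - x) - (σ • x - x) ∈ P ^ (m + 1) := by
    intro n
    induction n with
    | zero => simp
    | succ n ih =>
      have hpm : ∀ k : ℕ, ∀ y ∈ P ^ k, σ • y ∈ P ^ k := fun k y hy => by
        have h1 : σ • y = (σ • y - y) + y := by ring
        rw [h1]
        exact Ideal.add_mem _ (Ideal.pow_le_pow_right (Nat.le_succ k) (tf_step hσ k y hy)) hy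
      have h2 : (σ ^ (n + 1)) • (σ • x - x) - (σ • x - x) =
          σ • ((σ ^ n) • (σ • x - x) - (σ • x - x)) +
            (σ • (σ • x - x) - (σ • x - x)) := by
        rw [pow_succ', mul_smul, smul_sub σ ((σ ^ n) • (σ • x - x)) (σ • x - x)]
        ring
      rw [h2]
      exact Ideal.add_mem _ (hpm _ _ ih) (tf_step hσ m _ hx)
  induction n with
  | zero => simp
  | succ n ih =>
    have h2 : (σ ^ (n + 1)) • x - x - ((n + 1 : ℕ) : 𝓞 K) * (σ • x - x) =
        ((σ ^ n) • x - x - (n : 𝓞 K) * (σ • x - x)) +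
          ((σ ^ n) • (σ • x - x) - (σ • x - x)) := by
      rw [pow_succ, mul_smul, smul_sub (σ ^ n) (σ • x) x]
      push_cast
      ring
    rw [h2]
    exact Ideal.add_mem _ ih (hj n)

/-- an automorphism of 2-power order acting trivially modulo `P ^ 2` is trivial (`2 ∉ P`) -/
theorem tame_faithful {K : Type} [Field K] [NumberField K] (P : Ideal (𝓞 K)) [P.IsPrime]
    (hP : P ≠ ⊥) (σ : K ≃ₐ[ℚ] K) (k : ℕ) (hk : σ ^ (2 ^ k) = 1) (h2 : (2 : 𝓞 K) ∉ P)
    (hσ : ∀ x : 𝓞 K, σ • x - x ∈ P ^ 2) : σ = 1 := by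
  have hmax : P.IsMaximal := Ring.DimensionLEOne.maximalOfPrime hP ‹_›
  have hall : ∀ m : ℕ, ∀ x : 𝓞 K, σ • x - x ∈ P ^ (m + 2) := by
    intro m
    induction m with
    | zero => exact hσ
    | succ m ih =>
      intro x
      have h3 := tf_iter hσ (m + 2) x (ih x) (2 ^ k)
      rw [hk, one_smul, sub_self, zero_sub] at h3
      have h4 : ((2 ^ k : ℕ) : 𝓞 K) * (σ • x - x) ∈ P ^ (m + 2 + 1) := by
        have := Ideal.neg_mem_iff _ |>.1 h3
        exact this
      have h5 : ((2 ^ k : ℕ) : 𝓞 K) ∉ P := by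
        push_cast
        exact fun h => h2 (Ideal.IsPrime.mem_of_pow_mem ‹_› k h)
      have h6 : IsCoprime (Ideal.span {((2 ^ k : ℕ) : 𝓞 K)}) P := by
        obtain ⟨y, i, hi, hy⟩ := hmax.exists_inv h5
        rw [Ideal.isCoprime_iff_exists]
        exact ⟨y * ((2 ^ k : ℕ) : 𝓞 K), Ideal.mul_mem_left _ _ (Ideal.mem_span_singleton_self _),
          i, hi, hy⟩
      have h7 : IsCoprime (Ideal.span {((2 ^ k : ℕ) : 𝓞 K)}) (P ^ (m + 2 + 1)) := h6.pow_right
      rw [Ideal.isCoprime_iff_exists] at h7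
      obtain ⟨a, ha, b, hb, hab⟩ := h7
      obtain ⟨c, hc⟩ := Ideal.mem_span_singleton'.1 ha
      have h8 : σ • x - x = c * (((2 ^ k : ℕ) : 𝓞 K) * (σ • x - x)) + b * (σ • x - x) := by
        rw [← mul_assoc, hc, ← add_mul, hab, one_mul]
      rw [h8]
      exact Ideal.add_mem _ (Ideal.mul_mem_left _ _ h4) (Ideal.mul_mem_right _ _ hb)
  have hfix : ∀ x : 𝓞 K, σ • x = x := by
    intro x
    have h3 : σ • x - x ∈ ⨅ i : ℕ, P ^ i := by
      rw [Ideal.mem_iInf]
      intro i
      exact Ideal.pow_le_pow_right (Nat.le_add_right i 2) (hall i x)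
    rw [Ideal.iInf_pow_eq_bot_of_isDomain P hmax.ne_top, Ideal.mem_bot] at h3
    exact sub_eq_zero.1 h3
  ext z
  obtain ⟨x, y, hy, rfl⟩ := IsFractionRing.div_surjective (A := 𝓞 K) z
  have hx' : σ (algebraMap (𝓞 K) K x) = algebraMap (𝓞 K) K x := by
    have := congrArg (algebraMap (𝓞 K) K) (hfix x)
    exact this
  have hy' : σ (algebraMap (𝓞 K) K y) = algebraMap (𝓞 K) K y := by
    have := congrArg (algebraMap (𝓞 K) K) (hfix y)
    exact this
  rw [map_div₀, hx', hy']
  rfl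

end tf

end Pool.Agent.H98.MK
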