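import Pool.Agent.H98.MK.Defs

/-!
# Project MK, row MK-L2: inertia at an odd prime is cyclic in a 2-extension
-/

set_option autoImplicit false

open NumberField
open scoped Pointwise

namespace Pool.Agent.H98.MK

section gen

variable {K : Type} [Field K] [NumberField K]

private theorem pres {P : Ideal (𝓞 K)} {σ : K ≃ₐ[ℚ] K} (h : ∀ x ∈ P, σ • x ∈ P) :
    ∀ x ∈ P ^ 2, σ • x ∈ P ^ 2 := by
  intro x hx
  rw [pow_two] at hx ⊢
  induction hx using Submodule.mul_induction_on' with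
  | mem_mul_mem m hm n hn =>
    rw [smul_mul']
    exact Ideal.mul_mem_mul (h m hm) (h n hn)
  | add x _ y _ hx hy =>
    rw [smul_add]
    exact add_mem hx hy

private theorem pres_in {P : Ideal (𝓞 K)} {σ : K ≃ₐ[ℚ] K}
    (h : σ ∈ P.inertia (K ≃ₐ[ℚ] K)) : ∀ x ∈ P, σ • x ∈ P := by
  intro x hx
  have h1 : σ • x - x ∈ P := h x
  have h2 : σ • x = (σ • x - x) + x := by ring
  rw [h2]
  exact P.add_mem h1 hx

/-- the residue class by which an element of the inertia group acts on `P / P²` -/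
private theorem ex_c {P : Ideal (𝓞 K)} [P.IsPrime] (hP : P ≠ ⊥) {σ : K ≃ₐ[ℚ] K}
    (h : σ ∈ P.inertia (K ≃ₐ[ℚ] K)) : ∃ c : 𝓞 K, ∀ x ∈ P, σ • x - c * x ∈ P ^ 2 := by
  obtain ⟨π, hπ1, hπ2⟩ := Ideal.exists_mem_pow_notMem_pow_succ P hP (Ideal.IsPrime.ne_top ‹_›) 1
  rw [pow_one] at hπ1
  have hdiv : ∀ x ∈ P, ∃ d : 𝓞 K, ∃ e ∈ P ^ 2, π * d + e = x := by
    intro x hx
    have := Ideal.exists_mul_add_mem_pow_succ hP (i := 1) π x (by rwa [pow_one]) hπ2
      (by rwa [pow_one])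
    exact this
  obtain ⟨c, e, he, hc⟩ := hdiv (σ • π) (pres_in h π hπ1)
  refine ⟨c, fun x hx => ?_⟩
  obtain ⟨d, e', he', hd⟩ := hdiv x hx
  have h1 : σ • x = σ • π * σ • d + σ • e' := by rw [← hd, smul_add, smul_mul']
  have h2 : σ • x - c * x = σ • π * (σ • d - d) + e * d + σ • e' - c * e' := by
    rw [h1, ← hd, ← hc]
    ring
  rw [h2]
  refine Ideal.sub_mem _ (Ideal.add_mem _ (Ideal.add_mem _ ?_ ?_) ?_) ?_
  · rw [pow_two]
    exact Ideal.mul_mem_mul (pres_in h π hπ1) (h d)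
  · exact Ideal.mul_mem_right _ _ he
  · exact pres (pres_in h) e' he'
  · exact Ideal.mul_mem_left _ _ he'

private theorem uniq_c {P : Ideal (𝓞 K)} [P.IsPrime] (hP : P ≠ ⊥) {c : 𝓞 K}
    (h : ∀ x ∈ P, c * x ∈ P ^ 2) : c ∈ P := by
  obtain ⟨π, hπ1, hπ2⟩ := Ideal.exists_mem_pow_notMem_pow_succ P hP (Ideal.IsPrime.ne_top ‹_›) 1
  rw [pow_one] at hπ1
  have h1 : π * c ∈ P ^ (1 + 1) := by
    rw [mul_comm]
    exact h π hπ1
  rcases Ideal.IsPrime.mul_mem_pow P (a := c) (b := π) (n := 1 + 1) (by rwa [mul_comm]) with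
    h2 | h2
  · exact h2
  · exact absurd h2 hπ2

private theorem frob_inv {P : Ideal (𝓞 K)} [P.IsPrime] {p : ℕ} {φ : K ≃ₐ[ℚ] K}
    (hφ : ∀ x : 𝓞 K, φ • x - x ^ p ∈ P) : ∀ x ∈ P, φ⁻¹ • x ∈ P := by
  intro x hx
  have h1 := hφ (φ⁻¹ • x)
  rw [smul_inv_smul] at h1
  have h2 : (φ⁻¹ • x) ^ p ∈ P := by
    have h3 : (φ⁻¹ • x) ^ p = x - (x - (φ⁻¹ • x) ^ p) := by ring
    rw [h3]
    exact P.sub_mem hx h1
  exact Ideal.IsPrime.mem_of_pow_mem ‹_› _ h2

end gen

theorem tame_gen_of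
    (hfaith : ∀ (K : Type) [Field K] [NumberField K] (P : Ideal (𝓞 K)) [P.IsPrime]
      (_ : P ≠ ⊥) (σ : K ≃ₐ[ℚ] K) (k : ℕ) (_ : σ ^ (2 ^ k) = 1) (_ : (2 : 𝓞 K) ∉ P)
      (_ : ∀ x : 𝓞 K, σ • x - x ∈ P ^ 2), σ = 1)
    {K : Type} [Field K] [NumberField K] [IsGalois ℚ K] (k : ℕ)
    (hk : Module.finrank ℚ K = 2 ^ k) (p : ℕ) [Fact p.Prime] (hp : p ≠ 2) (P : Ideal (𝓞 K))
    [P.IsPrime] (hpP : (p : 𝓞 K) ∈ P) :
    ∃ τ φ : K ≃ₐ[ℚ] K, Subgroup.zpowers τ = P.inertia (K ≃ₐ[ℚ] K) ∧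
      (∀ x : 𝓞 K, φ • x - x ^ p ∈ P) ∧ φ * τ * φ⁻¹ = τ ^ p := by
  classical
  have hpp : p.Prime := Fact.out
  have hP : P ≠ ⊥ := by
    intro h
    rw [h, Ideal.mem_bot] at hpP
    exact hpp.ne_zero (by exact_mod_cast hpP)
  have hPm : P.IsMaximal := Ideal.IsPrime.isMaximal ‹_› hP
  have h2P : (2 : 𝓞 K) ∉ P := by
    intro h2
    have hodd : Odd p := hpp.odd_of_ne_two hp
    obtain ⟨m, hm⟩ := hodd
    apply Ideal.IsPrime.ne_top (I := P) ‹_›
    rw [Ideal.eq_top_iff_one]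
    have h3 : (1 : 𝓞 K) = (p : 𝓞 K) - 2 * (m : 𝓞 K) := by
      rw [hm]
      push_cast
      ring
    rw [h3]
    exact P.sub_mem hpP (P.mul_mem_right _ h2)
  have hfin : Finite (𝓞 K ⧸ P) := Ring.HasFiniteQuotients.finiteQuotient hP
  have hFin : Fintype (𝓞 K ⧸ P) := Fintype.ofFinite _
  -- the Frobenius
  obtain ⟨φ, hφ'⟩ := IsArithFrobAt.exists_of_isInvariant ℤ (K ≃ₐ[ℚ] K) P
  have hcard : Nat.card (ℤ ⧸ P.under ℤ) = p := by
    have h1 : P.under ℤ = Ideal.span {(p : ℤ)} := by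
      have hmax : (Ideal.span {(p : ℤ)}).IsMaximal :=
        PrincipalIdealRing.isMaximal_of_irreducible
          (Nat.prime_iff_prime_int.1 hpp).irreducible
      refine (hmax.eq_of_le ?_ ?_).symm
      · exact Ideal.IsPrime.ne_top (inferInstance : (P.under ℤ).IsPrime)
      · rw [Ideal.span_singleton_le_iff_mem, Ideal.under_def, Ideal.mem_comap]
        simpa using hpP
    rw [h1]
    rw [Nat.card_congr (Int.quotientSpanNatEquivZMod p).toEquiv, Nat.card_zmod]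
  have hφ : ∀ x : 𝓞 K, φ • x - x ^ p ∈ P := by
    intro x
    have := hφ' x
    rwa [hcard] at this
  -- the tame character
  set I := P.inertia (K ≃ₐ[ℚ] K) with hI
  have hex : ∀ σ : I, ∃ c : 𝓞 K, ∀ x ∈ P, σ.1 • x - c * x ∈ P ^ 2 := fun σ => ex_c hP σ.2
  choose c hc using hex
  have hθ : ∀ (σ : I) (d : 𝓞 K), (∀ x ∈ P, σ.1 • x - d * x ∈ P ^ 2) →
      Ideal.Quotient.mk P (c σ) = Ideal.Quotient.mk P d := by
    intro σ d hd
    rw [Ideal.Quotient.eq]
    refine uniq_c hP fun x hx => ?_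
    have h1 : (c σ - d) * x = (σ.1 • x - d * x) - (σ.1 • x - c σ * x) := by ring
    rw [h1]
    exact Ideal.sub_mem _ (hd x hx) (hc σ x hx)
  let θ : I →* (𝓞 K ⧸ P) :=
    { toFun := fun σ => Ideal.Quotient.mk P (c σ)
      map_one' := by
        rw [← map_one (Ideal.Quotient.mk P)]
        refine hθ 1 1 fun x hx => ?_
        simp
      map_mul' := by
        intro σ τ
        rw [← map_mul]
        refine hθ (σ * τ) _ fun x hx => ?_
        have h1 : ((σ * τ : I).1) • x = σ.1 • (τ.1 • x) := by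
          rw [Subgroup.coe_mul, mul_smul]
        have hτx : τ.1 • x ∈ P := pres_in τ.2 x hx
        have h2 : ((σ * τ : I).1) • x - c σ * c τ * x =
            (σ.1 • (τ.1 • x) - c σ * (τ.1 • x)) + c σ * (τ.1 • x - c τ * x) := by
          rw [h1]
          ring
        rw [h2]
        exact Ideal.add_mem _ (hc σ _ hτx) (Ideal.mul_mem_left _ _ (hc τ x hx)) }
  have hfield : IsDomain (𝓞 K ⧸ P) := inferInstance
  -- faithful
  have hker : ∀ σ : I, θ σ = 1 → σ = 1 := by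
    intro σ hσ
    have hσ1 : Ideal.Quotient.mk P (c σ) = Ideal.Quotient.mk P 1 := by
      rw [map_one]
      exact hσ
    rw [Ideal.Quotient.eq] at hσ1
    have h1 : ∀ x ∈ P, σ.1 • x - x ∈ P ^ 2 := by
      intro x hx
      have h2 : σ.1 • x - x = (σ.1 • x - c σ * x) + (c σ - 1) * x := by ring
      rw [h2]
      refine Ideal.add_mem _ (hc σ x hx) ?_
      rw [pow_two]
      exact Ideal.mul_mem_mul hσ1 hx
    have hq : ((Fintype.card (𝓞 K ⧸ P) : ℕ) : 𝓞 K) ∈ P := by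
      rw [← Ideal.Quotient.eq_zero_iff_mem, map_natCast]
      exact Nat.cast_card_eq_zero _
    have h3 : ∀ x : 𝓞 K, σ.1 • x - x ∈ P ^ 2 := by
      intro x
      set q := Fintype.card (𝓞 K ⧸ P) with hqd
      let _ : Field (𝓞 K ⧸ P) := Ideal.Quotient.field P
      have hxq : x - x ^ q ∈ P := by
        rw [← Ideal.Quotient.eq, map_pow]
        exact (FiniteField.pow_card _).symm
      have h4 := h1 _ hxq
      have hd : σ.1 • x - x ∈ P := σ.2 x
      have h5 : (σ.1 • x) ^ q - x ^ q ∈ P ^ 2 := by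
        obtain ⟨e, he⟩ : ∃ e : 𝓞 K, (x + (σ.1 • x - x)) ^ q =
            x ^ q + (q : 𝓞 K) * x ^ (q - 1) * (σ.1 • x - x) + (σ.1 • x - x) ^ 2 * e := by
          obtain ⟨e, he⟩ := Polynomial.binomExpansion (Polynomial.X ^ q) x (σ.1 • x - x)
          refine ⟨e, ?_⟩
          simp only [Polynomial.eval_pow, Polynomial.eval_X, Polynomial.derivative_X_pow,
            Polynomial.eval_mul, Polynomial.eval_C, Polynomial.eval_natCast] at he
          rw [he]
          ring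
        have h6 : (σ.1 • x) ^ q - x ^ q = (q : 𝓞 K) * (σ.1 • x - x) * x ^ (q - 1) +
            (σ.1 • x - x) ^ 2 * e := by
          have h7 : σ.1 • x = x + (σ.1 • x - x) := by ring
          conv_lhs => rw [h7, he]
          ring
        rw [h6]
        refine Ideal.add_mem _ (Ideal.mul_mem_right _ _ ?_) (Ideal.mul_mem_right _ _ ?_)
        · rw [pow_two]
          exact Ideal.mul_mem_mul hq hd
        · exact Ideal.pow_mem_pow hd 2
      have h8 : σ.1 • x - x = (σ.1 • (x - x ^ q) - (x - x ^ q)) +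
          ((σ.1 • x) ^ q - x ^ q) := by
        rw [smul_sub, smul_pow']
        ring
      rw [h8]
      exact Ideal.add_mem _ h4 h5
    have h9 : σ.1 ^ (2 ^ k) = 1 := by
      rw [← hk, ← IsGalois.card_aut_eq_finrank ℚ K]
      exact pow_card_eq_one'
    have h10 := hfaith K P hP σ.1 k h9 h2P h3
    exact Subtype.ext h10
  have hinj : Function.Injective θ := (injective_iff_map_eq_one θ).2 hker
  have hcyc : IsCyclic I := isCyclic_of_injective_ringHom θ hinj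
  obtain ⟨τ, hτ⟩ := hcyc.exists_generator
  refine ⟨τ.1, φ, ?_, hφ, ?_⟩
  · ext σ
    constructor
    · intro hσ
      have : Subgroup.zpowers τ.1 ≤ I := by
        rw [Subgroup.zpowers_le]
        exact τ.2
      exact this hσ
    · intro hσ
      obtain ⟨n, hn⟩ := hτ ⟨σ, hσ⟩
      refine ⟨n, ?_⟩
      have h1 := congrArg Subtype.val hn
      simpa using h1
  · have hφP : ∀ x ∈ P, φ • x ∈ P := by
      intro x hx
      have h1 : φ • x = (φ • x - x ^ p) + x ^ p := by ring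
      rw [h1]
      exact P.add_mem (hφ x) (Ideal.pow_mem_of_mem P hx p hpp.pos)
    have hmem : φ * τ.1 * φ⁻¹ ∈ I := by
      intro x
      have h1 : (φ * τ.1 * φ⁻¹) • x - x = φ • (τ.1 • (φ⁻¹ • x) - φ⁻¹ • x) := by
        rw [smul_sub, smul_inv_smul, mul_smul, mul_smul]
      rw [h1]
      exact hφP _ (τ.2 _)
    have h1 : θ ⟨φ * τ.1 * φ⁻¹, hmem⟩ = θ (τ ^ p) := by
      have h2 : θ ⟨φ * τ.1 * φ⁻¹, hmem⟩ = Ideal.Quotient.mk P (c τ ^ p) := by
        refine hθ _ _ fun x hx => ?_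
        have h3 : (φ * τ.1 * φ⁻¹) • x = φ • (τ.1 • (φ⁻¹ • x)) := by
          rw [mul_smul, mul_smul]
        have h4 : (φ * τ.1 * φ⁻¹) • x - c τ ^ p * x =
            φ • (τ.1 • (φ⁻¹ • x) - c τ * (φ⁻¹ • x)) + (φ • c τ - c τ ^ p) * x := by
          rw [h3, smul_sub, smul_mul', smul_inv_smul]
          ring
        change (φ * τ.1 * φ⁻¹) • x - c τ ^ p * x ∈ P ^ 2
        rw [h4]
        refine Ideal.add_mem _ (pres hφP _ (hc τ _ (frob_inv hφ x hx))) ?_
        rw [pow_two]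
        exact Ideal.mul_mem_mul (hφ _) hx
      rw [h2, map_pow, map_pow]
      rfl
    have h5 := hinj h1
    have h6 := congrArg Subtype.val h5
    simpa using h6

end Pool.Agent.H98.MK
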