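import Pool.Agent.H98.MK.ChiBasic
import Pool.Agent.H98.MK.FldBasic
import Pool.Agent.H98.MK.InertiaMap
import Pool.Agent.H98.MK.TameGen
import Pool.Agent.H98.MK.TameFaithful
import Pool.Agent.H98.MK.DiscExp
import Pool.Agent.H98.MK.TameExp
import Pool.Agent.H98.MK.QuadLocal

/-!
# Project MK, row L6: the local lemma at odd primes (helper25)
-/

set_option autoImplicit false

open NumberField Pool.Agent.H67.MU
open scoped Pointwise

namespace Pool.Agent.H98.MK

private theorem l6_numberField (U : Subgroup Gam) (hU : IsOpen (U : Set Gam))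
    (h : U.index ≠ 0) : NumberField (fld U) := by
  have h1 : 0 < Module.finrank ℚ (fld U) := by
    rw [fld_finrank U hU]
    exact Nat.pos_of_ne_zero h
  have h2 : FiniteDimensional ℚ (fld U) := Module.finite_of_finrank_pos h1
  exact { to_charZero := inferInstance, to_finiteDimensional := h2 }

private theorem l6_dabs (U : Subgroup Gam) [h : NumberField (fld U)] :
    dabs (fld U) = (discr (fld U)).natAbs := by
  unfold dabs
  rw [dif_pos h]

private theorem l6_prime {K : Type} [Field K] [NumberField K] (p : ℕ) [Fact p.Prime] :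
    ∃ P : Ideal (𝓞 K), P.IsPrime ∧ P ≠ ⊥ ∧ (p : 𝓞 K) ∈ P := by
  have hp : Prime (p : ℤ) := Nat.prime_iff_prime_int.1 (Fact.out : p.Prime)
  have h1 : (Ideal.span {(p : ℤ)}).IsPrime := (Ideal.span_singleton_prime hp.ne_zero).2 hp
  have h0 : Ideal.span {(p : ℤ)} ≠ ⊥ := by
    rw [Ne, Ideal.span_singleton_eq_bot]
    exact hp.ne_zero
  have h2 : (Ideal.span {(p : ℤ)}).IsMaximal := h1.isMaximal h0
  obtain ⟨P, hP⟩ := (inferInstance : Nonempty ((Ideal.span {(p : ℤ)}).primesOver (𝓞 K)))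
  have hP1 : P.IsPrime := hP.1
  have hP2 : P.LiesOver (Ideal.span {(p : ℤ)}) := hP.2
  refine ⟨P, hP1, Ideal.ne_bot_of_liesOver_of_ne_bot h0 P, ?_⟩
  have h3 : (p : ℤ) ∈ P.under ℤ := by
    rw [← hP2.over]
    exact Ideal.mem_span_singleton_self _
  rw [Ideal.mem_comap] at h3
  simpa using h3

private theorem l6_sq_mem {U : Subgroup Gam} {d : ℚ} (h : ∀ σ ∈ U, chi d σ = 0) :
    sq d ∈ fld U := by
  unfold fld
  rw [IntermediateField.mem_fixedField_iff]
  intro σ hσ
  exact (chi_eq_zero_iff' d (sq d) (sq_sq d) σ).1 (h σ hσ)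

/-- **Row L6**: the local lemma at odd primes. -/
theorem local_odd (p : ℕ) [Fact p.Prime] (hp : p ≠ 2) (U : Subgroup Gam) [U.Normal]
    (hU : IsOpen (U : Set Gam)) (k : ℕ) (hk : U.index = 2 ^ k) :
    ∃ τ φ : Gam, φ * τ * φ⁻¹ * (τ ^ p)⁻¹ ∈ U ∧
      (∀ (W : Subgroup Gam) [W.Normal], U ≤ W →
        (dabs (fld W)).factorization p * orderOf (QuotientGroup.mk τ : Gam ⧸ W) =
          W.index * (orderOf (QuotientGroup.mk τ : Gam ⧸ W) - 1)) ∧
      (∀ d : ℤ, ¬ (p : ℤ) ∣ d → (∀ σ ∈ U, chi d σ = 0) →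
        chi d τ = 0 ∧ chi d φ = lg (jacobiSym d p)) ∧
      ((∀ σ ∈ U, chi (dd p : ℤ) σ = 0) → chi (dd p : ℤ) τ = 1) := by
  have hp1 : p.Prime := Fact.out
  have hfin : Module.finrank ℚ (fld U) = 2 ^ k := (fld_finrank U hU).trans hk
  have hNU : NumberField (fld U) := l6_numberField U hU (by rw [hk]; positivity)
  have := fld_galois U hU
  obtain ⟨P, hP, hP0, hpP⟩ := l6_prime (K := fld U) p
  obtain ⟨τ0, φ0, hz, hφ0, hrel⟩ := tame_gen_of (fun _ _ _ P _ => tame_faithful P) k hfin p hp P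
    hpP
  obtain ⟨π, hπs, hπk, hπ⟩ := exists_res U hU
  obtain ⟨τ, rfl⟩ := hπs τ0
  obtain ⟨φ, rfl⟩ := hπs φ0
  have hin : π τ ∈ P.inertia (fld U ≃ₐ[ℚ] fld U) := by
    rw [← hz]
    exact Subgroup.mem_zpowers _
  refine ⟨τ, φ, ?_, ?_, ?_, ?_⟩
  · rw [← hπk, MonoidHom.mem_ker, map_mul, map_mul, map_mul, map_inv, map_inv, map_pow, hrel,
      mul_inv_cancel]
  · intro W _ hUW
    have hWo : IsOpen (W : Set Gam) := Subgroup.isOpen_mono hUW hU
    have hWf : Module.finrank ℚ (fld W) = W.index := fld_finrank W hWo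
    have hdvd : W.index ∣ 2 ^ k := by
      rw [← hk]
      exact Subgroup.index_dvd_of_le hUW
    have hW0 : W.index ≠ 0 := by
      intro h
      rw [h, zero_dvd_iff] at hdvd
      exact absurd hdvd (by positivity)
    have hNW : NumberField (fld W) := l6_numberField W hWo hW0
    have := fld_galois W hWo
    let _ : Algebra (fld W) (fld U) := (IntermediateField.inclusion (fld_mono hUW)).toAlgebra
    have hQp : (P.under (𝓞 (fld W))).IsPrime := inferInstance
    have hpQ : (p : 𝓞 (fld W)) ∈ P.under (𝓞 (fld W)) := by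
      rw [Ideal.mem_comap, map_natCast]
      exact hpP
    have hmap := inertia_map (F := fld W) P hP0
    obtain ⟨πW, hWs, hWk, hWπ⟩ := exists_res W hWo
    have hres : ∀ σ, AlgEquiv.restrictNormalHom (fld W) (π σ) = πW σ := by
      intro σ
      ext x
      have h1 := AlgEquiv.restrictNormal_commutes (π σ) (fld W) x
      have h2 : ∀ y : fld W, ((algebraMap (fld W) (fld U) y : fld U) : Om) = (y : Om) :=
        fun y => rfl
      have h3 := congrArg (fun z : fld U => (z : Om)) h1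
      simp only [h2, hπ] at h3
      rw [hWπ]
      exact h3
    have hcard : Nat.card ((P.under (𝓞 (fld W))).inertia (fld W ≃ₐ[ℚ] fld W)) =
        orderOf (QuotientGroup.mk τ : Gam ⧸ W) := by
      rw [← hmap, ← hz, MonoidHom.map_zpowers, hres, Nat.card_zpowers]
      have h1 : Function.Injective (QuotientGroup.lift W πW (by rw [hWk])) := by
        rw [← MonoidHom.ker_eq_bot_iff]
        rw [eq_bot_iff]
        intro x hx
        induction x using QuotientGroup.induction_on with
        | H x =>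
          rw [MonoidHom.mem_ker, QuotientGroup.lift_mk] at hx
          rw [Subgroup.mem_bot, QuotientGroup.eq_one_iff, ← hWk]
          exact hx
      rw [← orderOf_injective _ h1, QuotientGroup.lift_mk]
    have hnd : ¬ p ∣ Nat.card ((P.under (𝓞 (fld W))).inertia (fld W ≃ₐ[ℚ] fld W)) := by
      intro h
      have h1 : Nat.card ((P.under (𝓞 (fld W))).inertia (fld W ≃ₐ[ℚ] fld W)) ∣
          Nat.card (fld W ≃ₐ[ℚ] fld W) := Subgroup.card_subgroup_dvd_card _
      rw [IsGalois.card_aut_eq_finrank, hWf] at h1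
      have h2 : p ∣ 2 ^ k := (h.trans h1).trans hdvd
      exact hp ((Nat.prime_dvd_prime_iff_eq hp1 Nat.prime_two).1 (hp1.dvd_of_dvd_pow h2))
    have h1 := disc_exp p (P.under (𝓞 (fld W))) hpQ
    have h2 := tame_exp p (P.under (𝓞 (fld W))) hpQ hnd
    rw [l6_dabs, ← hcard, h1, hWf, ← h2, Nat.add_sub_cancel]
  · intro d hd hσ
    have hd0 : d ≠ 0 := by
      rintro rfl
      exact hd (dvd_zero _)
    have hdq : ((d : ℤ) : ℚ) ≠ 0 := by exact_mod_cast hd0
    have hmem : sq (d : ℚ) ∈ fld U := l6_sq_mem hσ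
    have hy : (⟨sq (d : ℚ), hmem⟩ : fld U) ^ 2 = (d : fld U) := by
      apply Subtype.ext
      push_cast
      rw [sq_sq, Rat.cast_intCast]
    have h1 := quad_inertia p hp P hpP d hd _ hy (π τ) hin
    have h2 := quad_frob p hp P hpP d hd _ hy (π φ) hφ0
    have h1' : τ (sq (d : ℚ)) = sq (d : ℚ) := by
      have := congrArg (fun z : fld U => (z : Om)) h1
      simpa only [hπ] using this
    have h2' : φ (sq (d : ℚ)) = (jacobiSym d p : Om) * sq (d : ℚ) := by
      have := congrArg (fun z : fld U => (z : Om)) h2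
      simp only [hπ] at this
      rw [this]
      push_cast
      rfl
    refine ⟨(chi_eq_zero_iff' _ _ (sq_sq _) τ).2 h1', ?_⟩
    have hj : jacobiSym d p = 1 ∨ jacobiSym d p = -1 := by
      have hc : IsCoprime d p := by
        rw [isCoprime_comm]
        exact (Nat.prime_iff_prime_int.1 hp1).coprime_iff_not_dvd.2 hd
      exact jacobiSym.eq_one_or_neg_one (Int.isCoprime_iff_gcd_eq_one.1 hc)
    rcases hj with hj | hj
    · rw [hj] at h2' ⊢
      rw [Int.cast_one, one_mul] at h2'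
      rw [(chi_eq_zero_iff' _ _ (sq_sq _) φ).2 h2']
      rfl
    · rw [hj] at h2' ⊢
      rw [Int.cast_neg, Int.cast_one, neg_one_mul] at h2'
      rw [(chi_eq_one_iff _ hdq _ (sq_sq _) φ).2 h2']
      rfl
  · intro hσ
    have hd0 : dd p ≠ 0 := by
      unfold dd
      have := hp1.pos
      split_ifs <;> omega
    have hdq : ((dd p : ℤ) : ℚ) ≠ 0 := by exact_mod_cast hd0
    have hmem : sq ((dd p : ℤ) : ℚ) ∈ fld U := l6_sq_mem hσ
    have hy : (⟨sq ((dd p : ℤ) : ℚ), hmem⟩ : fld U) ^ 2 = ((dd p : ℤ) : fld U) := by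
      apply Subtype.ext
      push_cast
      rw [sq_sq, Rat.cast_intCast]
    have h1 := quad_ram p hp P hpP _ hy (π τ) hz
    have h1' : τ (sq ((dd p : ℤ) : ℚ)) = -sq ((dd p : ℤ) : ℚ) := by
      have := congrArg (fun z : fld U => (z : Om)) h1
      simp only [hπ] at this
      exact this
    exact (chi_eq_one_iff _ hdq _ (sq_sq _) τ).2 h1'

end Pool.Agent.H98.MK
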