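import Pool.Agent.H98.MK.LocalPackA
import Pool.Agent.H98.MK.LocalOdd

/-!
# Project MK, row M3: the odd local lemma for a lift and its twists
-/

set_option autoImplicit false

open scoped BigOperators

namespace Pool.Agent.H98.MK

/-- the local lemma at an odd prime for a lift and its twists -/
theorem local_pack {D : Dat} {x : ℕ →₀ D.V} {f : Gam → D.Z} (hx : adm x) (h : IsLift D x f)
    (S : Finset ℕ) (hS : ∀ i ∈ S, i = 1 ∨ i.Prime) (p : ℕ) (hp : p.Prime) (hp2 : p ≠ 2) :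
    ∃ τ φ : Gam, lh h (φ * τ * φ⁻¹) = lh h (τ ^ p) ∧
      (∀ i ∈ S ∪ x.support, i ≠ p → chi (dd i : ℤ) τ = 0 ∧
        chi (dd i : ℤ) φ = lg (jacobiSym (dd i) p)) ∧
      (p ∈ S ∪ x.support → chi (dd p : ℤ) τ = 1) ∧
      (∀ z : ℕ →₀ D.Z, z.support ⊆ S →
        ex p (lh (h.add z)) * orderOf (lh (h.add z) τ) =
          (lh (h.add z)).ker.index * (orderOf (lh (h.add z) τ) - 1)) := by
  have : Fact p.Prime := ⟨hp⟩
  exact m3_local_pack p hp hp2 (fun U _ hU k hk => local_odd p hp2 U hU k hk) hx h S hS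

end Pool.Agent.H98.MK
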