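import Pool.Agent.H98.MK.ChiBasic
import Pool.Agent.H98.MK.FldBasic
import Pool.Agent.H98.MK.DiscCompare
import Pool.Agent.H98.MK.TwoQuad
import Pool.Agent.H98.MK.DecHom

/-!
# Project MK, row T4: the local lemma at `2` (helper32)
-/

set_option autoImplicit false

open NumberField Pool.Agent.H67.MU
open scoped Pointwise

namespace Pool.Agent.H98.MK

private theorem t4_prime {K : Type} [Field K] [NumberField K] (p : ℕ) [Fact p.Prime] :
    ∃ P : Ideal (𝓞 K), P.IsPrime ∧ P ≠ ⊥ ∧ (p : 𝓞 K) ∈ P := by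
  have hp : Prime (p : ℤ) := Nat.prime_iff_prime_int.1 (Fact.out : p.Prime)
  have h1 : (Ideal.span {(p : ℤ)}).IsPrime := (Ideal.span_singleton_prime hp.ne_zero).2 hp
  have h0 : Ideal.span {(p : ℤ)} ≠ ⊥ := by
    rw [Ne, Ideal.span_singleton_eq_bot]
    exact hp.ne_zero
  have h2 : (Ideal.span {(p : ℤ)}).IsMaximal := h1.isMaximal h0
  obtain ⟨P, hP⟩ := (inferInstance : Nonempty ((Ideal.span {(p : ℤ)}).primesOver (𝓞 K)))
  have hP1 : P.IsPrime := hP.1
  have hP2 : P.LiesOver (Ideal.span {(p : ℤ)}) := hP.2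
  refine ⟨P, hP1, Ideal.ne_bot_of_liesOver_of_ne_bot h0 P, ?_⟩
  have h3 : (p : ℤ) ∈ P.under ℤ := by
    rw [← hP2.over]
    exact Ideal.mem_span_singleton_self _
  rw [Ideal.mem_comap] at h3
  simpa using h3

private theorem t4_dabs (U : Subgroup Gam) [h : NumberField (fld U)] :
    dabs (fld U) = (discr (fld U)).natAbs := by
  unfold dabs
  rw [dif_pos h]

private theorem t4_nf (U : Subgroup Gam) (hU : IsOpen (U : Set Gam)) : NumberField (fld U) :=
  { to_charZero := inferInstance, to_finiteDimensional := fld_finite U hU }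

private theorem t4_sq_mem {U : Subgroup Gam} {d : ℚ} (h : ∀ σ ∈ U, chi d σ = 0) :
    sq d ∈ fld U := by
  unfold fld
  rw [IntermediateField.mem_fixedField_iff]
  intro σ hσ
  exact (chi_eq_zero_iff' d (sq d) (sq_sq d) σ).1 (h σ hσ)

private theorem t4_ne (z : ZMod 2) (h : z ≠ 0) : 1 = z := by
  revert z
  decide

/-- transport of an intermediate field to the finite level -/
private theorem t4_restrict (U : Subgroup Gam) [U.Normal] (hU : IsOpen (U : Set Gam))
    [NumberField (fld U)]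
    (π : Gam →* ((fld U) ≃ₐ[ℚ] (fld U)))
    (hπ : ∀ (σ : Gam) (x : fld U), ((π σ x : fld U) : Om) = σ (x : Om))
    (W : Subgroup Gam) [W.Normal] (hUW : U ≤ W) :
    ∃ F : IntermediateField ℚ (fld U), ∃ _ : IsGalois ℚ F,
      F.fixingSubgroup.comap π = W ∧
      (discr F).natAbs = dabs (fld W) ∧ Module.finrank ℚ F = W.index := by
  have hWo : IsOpen (W : Set Gam) := Subgroup.isOpen_mono hUW hU
  have hNW : NumberField (fld W) := t4_nf W hWo
  have hGW := fld_galois W hWo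
  have hle : fld W ≤ fld U := fld_mono hUW
  have e : fld W ≃ₐ[ℚ] (IntermediateField.restrict hle) := IntermediateField.restrictAlgEquiv hle
  refine ⟨IntermediateField.restrict hle, IsGalois.of_algEquiv e, ?_, ?_, ?_⟩
  · ext σ
    rw [Subgroup.mem_comap, IntermediateField.mem_fixingSubgroup_iff]
    conv_rhs => rw [← fld_fixing W hWo, IntermediateField.mem_fixingSubgroup_iff]
    constructor
    · intro h x hx
      have h1 := h ⟨x, hle hx⟩ ((IntermediateField.mem_restrict hle _).2 hx)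
      have h2 := congrArg (fun z : fld U => (z : Om)) h1
      simpa only [hπ] using h2
    · intro h x hx
      apply Subtype.ext
      rw [hπ]
      exact h _ ((IntermediateField.mem_restrict hle _).1 hx)
  · rw [t4_dabs]
    exact congrArg Int.natAbs (NumberField.discr_eq_discr_of_algEquiv _ e).symm
  · rw [← fld_finrank W hWo]
    exact e.toLinearEquiv.finrank_eq.symm

/-- **Row T4**: the local lemma at `2`. -/
theorem local_two (U : Subgroup Gam) [U.Normal] (hU : IsOpen (U : Set Gam))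
    (h1 : ∀ σ ∈ U, chi (-1) σ = 0) (h2 : ∀ σ ∈ U, chi 2 σ = 0) :
    ∃ I Dc : Subgroup Gam, U ≤ I ∧ I ≤ Dc ∧
      (∀ (W W' : Subgroup Gam) [W.Normal] [W'.Normal], U ≤ W → U ≤ W' → I ⊓ W = I ⊓ W' →
        (dabs (fld W)).factorization 2 * W'.index = (dabs (fld W')).factorization 2 * W.index) ∧
      (∀ m : ℤ, m % 4 = 1 → (∀ σ ∈ U, chi m σ = 0) → ∀ σ ∈ I, chi m σ = 0) ∧
      (∀ m : ℤ, m % 8 = 1 → (∀ σ ∈ U, chi m σ = 0) → ∀ σ ∈ Dc, chi m σ = 0) ∧
      (∀ h : Gam → ZMod 2, (∀ σ ∈ Dc, ∀ τ ∈ Dc, h (σ * τ) = h σ + h τ) →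
        (∀ σ ∈ U, h σ = 0) → ∃ x y : ZMod 2, ∀ σ ∈ I, h σ = x * chi (-1) σ + y * chi 2 σ) := by
  classical
  have hNU : NumberField (fld U) := t4_nf U hU
  have hGU := fld_galois U hU
  have hF2 : Fact (Nat.Prime 2) := ⟨Nat.prime_two⟩
  obtain ⟨P, hP, hP0, h2P⟩ := t4_prime (K := fld U) 2
  have h2P' : (2 : 𝓞 (fld U)) ∈ P := by simpa using h2P
  obtain ⟨π, hπs, hπk, hπ⟩ := exists_res U hU
  have hker : ∀ σ, σ ∈ U ↔ π σ = 1 := by
    intro σ
    rw [← MonoidHom.mem_ker, hπk]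
  have hsq : ∀ (m : ℤ) (hm : ∀ σ ∈ U, chi m σ = 0),
      (⟨sq (m : ℚ), t4_sq_mem hm⟩ : fld U) ^ 2 = (m : fld U) := by
    intro m hm
    apply Subtype.ext
    push_cast
    rw [sq_sq, Rat.cast_intCast]
  have hfix : ∀ (d : ℚ) (hm : ∀ σ ∈ U, chi d σ = 0) (σ : Gam),
      π σ (⟨sq d, t4_sq_mem hm⟩ : fld U) = (⟨sq d, t4_sq_mem hm⟩ : fld U) ↔ chi d σ = 0 := by
    intro d hm σ
    rw [chi_eq_zero_iff' _ _ (sq_sq _) σ]
    constructor
    · intro h
      have := congrArg (fun z : fld U => (z : Om)) h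
      simpa only [hπ] using this
    · intro h
      apply Subtype.ext
      rw [hπ]
      exact h
  refine ⟨(P.inertia (fld U ≃ₐ[ℚ] fld U)).comap π,
    (MulAction.stabilizer (fld U ≃ₐ[ℚ] fld U) P).comap π, ?_, ?_, ?_, ?_, ?_, ?_⟩
  · intro σ hσ
    rw [Subgroup.mem_comap, (hker σ).1 hσ]
    exact Subgroup.one_mem _
  · exact Subgroup.comap_mono (Ideal.inertia_le_stabilizer (M := fld U ≃ₐ[ℚ] fld U) P)
  · intro W W' _ _ hUW hUW' hI
    obtain ⟨F, hF, hFW, hFd, hFi⟩ := t4_restrict U hU π hπ W hUW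
    obtain ⟨F', hF', hFW', hFd', hFi'⟩ := t4_restrict U hU π hπ W' hUW'
    have hh : P.inertia (fld U ≃ₐ[ℚ] fld U) ⊓ F.fixingSubgroup =
        P.inertia (fld U ≃ₐ[ℚ] fld U) ⊓ F'.fixingSubgroup := by
      apply Subgroup.comap_injective hπs
      rw [Subgroup.comap_inf, Subgroup.comap_inf, hFW, hFW']
      exact hI
    have := disc_compare 2 P h2P F F' hh
    rw [hFd, hFd', hFi, hFi'] at this
    exact this
  · intro m hm hσU σ hσ
    have := two_four P h2P' m hm _ (hsq m hσU) (π σ) hσ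
    exact (hfix (m : ℚ) hσU σ).1 this
  · intro m hm hσU σ hσ
    have := two_eight P h2P' m hm _ (hsq m hσU) (π σ) hσ
    exact (hfix (m : ℚ) hσU σ).1 this
  · intro h hadd hzero
    choose s hs using hπs
    have hsD : ∀ g ∈ MulAction.stabilizer (fld U ≃ₐ[ℚ] fld U) P,
        s g ∈ (MulAction.stabilizer (fld U ≃ₐ[ℚ] fld U) P).comap π := by
      intro g hg
      rw [Subgroup.mem_comap, hs]
      exact hg
    have hUD : ∀ u ∈ U, u ∈ (MulAction.stabilizer (fld U ≃ₐ[ℚ] fld U) P).comap π := by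
      intro u hu
      rw [Subgroup.mem_comap, (hker u).1 hu]
      exact Subgroup.one_mem _
    have hsh : ∀ σ ∈ (MulAction.stabilizer (fld U ≃ₐ[ℚ] fld U) P).comap π,
        h (s (π σ)) = h σ := by
      intro σ hσ
      have hu : σ⁻¹ * s (π σ) ∈ U := by
        rw [hker, map_mul, map_inv, hs, inv_mul_cancel]
      have h3 : s (π σ) = σ * (σ⁻¹ * s (π σ)) := by group
      rw [h3, hadd σ hσ _ (hUD _ hu), hzero _ hu, add_zero]
    have hi : (⟨sq (-1), t4_sq_mem h1⟩ : fld U) ^ 2 = -1 := by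
      apply Subtype.ext
      push_cast
      rw [sq_sq]
      push_cast
      rfl
    have ht : (⟨sq 2, t4_sq_mem h2⟩ : fld U) ^ 2 = 2 := by
      apply Subtype.ext
      push_cast
      rw [sq_sq]
      push_cast
      rfl
    obtain ⟨x, y, hxy⟩ := dec_hom P h2P' _ _ hi ht (fun g => h (s g)) (by
      intro g hg g' hg'
      have h3 := hsh (s g * s g') (Subgroup.mul_mem _ (hsD g hg) (hsD g' hg'))
      rw [map_mul, hs, hs] at h3
      show h (s (g * g')) = h (s g) + h (s g')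
      rw [h3, hadd _ (hsD g hg) _ (hsD g' hg')])
    refine ⟨x, y, fun σ hσ => ?_⟩
    have hσ' : π σ ∈ P.inertia (fld U ≃ₐ[ℚ] fld U) := hσ
    have h4 := hxy (π σ) hσ'
    have hσD : σ ∈ (MulAction.stabilizer (fld U ≃ₐ[ℚ] fld U) P).comap π :=
      Ideal.inertia_le_stabilizer (M := fld U ≃ₐ[ℚ] fld U) P hσ'
    have h5 : ∀ (d : ℚ) (hm : ∀ σ ∈ U, chi d σ = 0)
        (inst : Decidable (π σ (⟨sq d, t4_sq_mem hm⟩ : fld U) =
          (⟨sq d, t4_sq_mem hm⟩ : fld U))),
        chi d σ = @ite _ _ inst (0 : ZMod 2) 1 := by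
      intro d hm inst
      by_cases hc : chi d σ = 0
      · rw [if_pos ((hfix d hm σ).2 hc), hc]
      · rw [if_neg (fun hh => hc ((hfix d hm σ).1 hh))]
        exact (t4_ne _ hc).symm
    rw [← hsh σ hσD]
    convert h4 using 3
    · exact h5 (-1) h1 _
    · exact h5 2 h2 _

end Pool.Agent.H98.MK
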