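import Pool.Agent.H98.MK.MDefs
import Pool.Agent.H98.MK.Conj

/-!
# Project MK (MP_a3214d), row M4, first part: necessity of the local conditions
-/

set_option autoImplicit false

open scoped BigOperators

namespace Pool.Agent.H98.MK

private theorem nec_conj {D : Dat} (g t : Ext D) :
    g * t * g⁻¹ = ⟨t.v, t.z + D.B g.v t.v⟩ := by
  apply Ext.ext
  · show g.v + t.v + g.v = t.v
    rw [add_right_comm, Ext.two_V, zero_add]
  · show g.z + t.z + D.β g.v t.v + (g.z + D.β g.v g.v) + D.β (g.v + t.v) g.v =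
      t.z + (D.β g.v t.v + D.β t.v g.v)
    rw [map_add, LinearMap.add_apply]
    have h1 := Ext.two_Z (D := D) g.z
    have h2 := Ext.two_Z (D := D) (D.β g.v g.v)
    calc _ = (g.z + g.z) + (D.β g.v g.v + D.β g.v g.v) + (t.z + (D.β g.v t.v + D.β t.v g.v)) := by
          abel
      _ = _ := by rw [h1, h2, zero_add, zero_add]

private theorem nec_sq {D : Dat} (t : Ext D) : t * t = ⟨0, D.q t.v⟩ := by
  apply Ext.ext
  · exact Ext.two_V t.v
  · show t.z + t.z + D.β t.v t.v = D.β t.v t.v
    rw [Ext.two_Z, zero_add]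

private theorem nec_pow {D : Dat} (t : Ext D) (k : ℕ) :
    t ^ (2 * k + 1) = ⟨t.v, t.z + k • D.q t.v⟩ := by
  induction k with
  | zero => simp
  | succ k ih =>
    have h1 : t ^ (2 * (k + 1) + 1) = t ^ (2 * k + 1) * (t * t) := by
      rw [← pow_two, ← pow_add]
      congr 1
    rw [h1, ih, nec_sq]
    apply Ext.ext
    · show t.v + 0 = t.v
      rw [add_zero]
    · show t.z + k • D.q t.v + D.q t.v + D.β t.v 0 = t.z + (k + 1) • D.q t.v
      rw [map_zero, add_zero, succ_nsmul, add_assoc]

private theorem nec_B_self {D : Dat} (v : D.V) : D.B v v = 0 := Ext.two_Z _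

private theorem nec_B_sum {D : Dat} {ι : Type} (s : Finset ι) (g : ι → D.V) (v : D.V) :
    D.B (∑ i ∈ s, g i) v = ∑ i ∈ s, D.B (g i) v := by
  simp only [Dat.B, map_sum, LinearMap.sum_apply, Finset.sum_add_distrib]

private theorem nec_B_smul {D : Dat} (c : ZMod 2) (w v : D.V) :
    D.B (c • w) v = c • D.B w v := by
  simp only [Dat.B, map_smul, LinearMap.smul_apply, smul_add]

private theorem nec_nsmul {D : Dat} (k : ℕ) (z : D.Z) : k • z = (k : ZMod 2) • z :=
  (Nat.cast_smul_eq_nsmul (ZMod 2) k z).symm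

private theorem nec_lg {p : ℕ} (hp : p.Prime) (hp2 : p ≠ 2) :
    lg (jacobiSym (-1) p) = ((p / 2 : ℕ) : ZMod 2) := by
  have hodd : Odd p := hp.odd_of_ne_two hp2
  rw [jacobiSym.at_neg_one hodd]
  have h4 : p % 4 = 1 ∨ p % 4 = 3 := by
    obtain ⟨m, hm⟩ := hodd
    omega
  rcases h4 with h | h
  · rw [ZMod.χ₄_nat_one_mod_four h, lg, if_neg (by norm_num)]
    have h2 : p / 2 = 2 * (p / 4) := by omega
    have h3 : (2 : ZMod 2) = 0 := by decide
    rw [h2, Nat.cast_mul, Nat.cast_two, h3, zero_mul]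
  · rw [ZMod.χ₄_nat_three_mod_four h, lg, if_pos rfl]
    have h2 : p / 2 = 2 * (p / 4) + 1 := by omega
    have h3 : (2 : ZMod 2) = 0 := by decide
    rw [h2, Nat.cast_add, Nat.cast_mul, Nat.cast_two, h3, zero_mul, zero_add, Nat.cast_one]

/-- necessity of the local conditions, from the local lemma at the odd primes -/
theorem nec_of {D : Dat} {x : ℕ →₀ D.V} {f : Gam → D.Z} (hx : adm x) (h : IsLift D x f)
    (hlp : ∀ p : ℕ, p.Prime → p ≠ 2 → ∃ τ φ : Gam, lh h (φ * τ * φ⁻¹) = lh h (τ ^ p) ∧
      (∀ i ∈ x.support, i ≠ p → chi (dd i : ℤ) τ = 0 ∧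
        chi (dd i : ℤ) φ = lg (jacobiSym (dd i) p)) ∧
      (p ∈ x.support → chi (dd p : ℤ) τ = 1)) : Sol D x := by
  constructor
  · intro p hp hp2 hxp
    obtain ⟨τ, φ, h1, h2, h3⟩ := hlp p hp hp2
    have hps : p ∈ x.support := Finsupp.mem_support_iff.2 hxp
    have hτ : par x τ = x p := by
      rw [par, Finsupp.sum, Finset.sum_eq_single_of_mem p hps, h3 hps, one_smul]
      intro i hi hip
      rw [(h2 i hi hip).1, zero_smul]
    have hB : D.B (par x φ) (x p) =
        x.sum fun i w => if i = p then 0 else lg (jacobiSym (dd i) p) • D.B w (x p) := by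
      rw [par, Finsupp.sum, Finsupp.sum, nec_B_sum]
      refine Finset.sum_congr rfl fun i hi => ?_
      rw [nec_B_smul]
      split_ifs with hip
      · rw [hip, nec_B_self, smul_zero]
      · rw [(h2 i hi hip).2]
    rw [map_mul, map_mul, map_inv, map_pow, nec_conj] at h1
    have hp' : p = 2 * (p / 2) + 1 := by
      obtain ⟨m, hm⟩ := hp.odd_of_ne_two hp2
      omega
    have h4 : lh h τ ^ p = ⟨(lh h τ).v, (lh h τ).z + (p / 2) • D.q (lh h τ).v⟩ := by
      conv_lhs => rw [hp']
      exact nec_pow _ _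
    rw [h4] at h1
    have h5 := add_left_cancel (congrArg Ext.z h1)
    have h6 : (lh h τ).v = x p := hτ
    have h7 : (lh h φ).v = par x φ := rfl
    rw [h6, h7, hB] at h5
    rw [h5, nec_nsmul, nec_lg hp hp2]
  · obtain ⟨c, hc, hchi⟩ := exists_conj
    have h1 : lh h c * lh h c = 1 := by rw [← map_mul, hc, map_one]
    rw [nec_sq] at h1
    have h2 : D.q (par x c) = 0 := congrArg Ext.z h1
    have h3 : par x c = x.sum fun i w => if dd i < 0 then w else 0 := by
      rw [par]
      refine Finset.sum_congr rfl fun i hi => ?_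
      have hdd : dd i ≠ 0 := by
        have h4 := hx i (Finsupp.mem_support_iff.1 hi)
        have h5 : i ≠ 0 := by
          rintro rfl
          rcases h4 with h4 | h4
          · exact absurd h4 (by norm_num)
          · exact Nat.not_prime_zero h4
        unfold dd
        split_ifs <;> simp <;> omega
      show chi (dd i : ℤ) c • x i = if dd i < 0 then x i else 0
      rw [hchi (dd i) hdd]
      split_ifs
      · rw [one_smul]
      · rw [zero_smul]
    rw [← h3]
    exact h2

end Pool.Agent.H98.MK
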