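import Pool.Agent.H98.MK.MDefs
import Pool.Agent.H98.MK.LocalPack
import Pool.Agent.H98.MK.LhSurj

/-!
# Project MK, row M5: normal lifts and the exponents at the odd primes (helper78)
-/

set_option autoImplicit false

open scoped BigOperators

namespace Pool.Agent.H98.MK

/-- The statement of row M3. -/
def M5LP : Prop := ∀ {D : Dat} {x : ℕ →₀ D.V} {f : Gam → D.Z} (_ : adm x) (h : IsLift D x f)
    (S : Finset ℕ) (_ : ∀ i ∈ S, i = 1 ∨ i.Prime) (p : ℕ) (_ : p.Prime) (_ : p ≠ 2),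
    ∃ τ φ : Gam, lh h (φ * τ * φ⁻¹) = lh h (τ ^ p) ∧
      (∀ i ∈ S ∪ x.support, i ≠ p → chi (dd i : ℤ) τ = 0 ∧
        chi (dd i : ℤ) φ = lg (jacobiSym (dd i) p)) ∧
      (p ∈ S ∪ x.support → chi (dd p : ℤ) τ = 1) ∧
      (∀ z : ℕ →₀ D.Z, z.support ⊆ S →
        ex p (lh (h.add z)) * orderOf (lh (h.add z) τ) =
          (lh (h.add z)).ker.index * (orderOf (lh (h.add z) τ) - 1))

/-- The statement of a part of row M2. -/
def M5KI : Prop := ∀ {D : Dat} (ρ : Gam →* Ext D), ρ.ker.index ∣ D.n ∧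
    (Function.Surjective ρ → ρ.ker.index = D.n)

theorem m5_par {W : Type} [AddCommGroup W] [Module (ZMod 2) W] (x : ℕ →₀ W) (τ : Gam) (p : ℕ)
    (h0 : ∀ i ∈ x.support, i ≠ p → chi (dd i : ℤ) τ = 0)
    (h1 : x p ≠ 0 → chi (dd p : ℤ) τ = 1) : par x τ = x p := by
  unfold par Finsupp.sum
  rw [Finset.sum_eq_single p]
  · show chi (dd p : ℤ) τ • x p = x p
    by_cases h : x p = 0
    · rw [h, smul_zero]
    · rw [h1 h, one_smul]
  · intro i hi hne
    show chi (dd i : ℤ) τ • x i = 0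
    rw [h0 i hi hne, zero_smul]
  · intro hp
    show chi (dd p : ℤ) τ • x p = 0
    rw [Finsupp.notMem_support_iff.1 hp, smul_zero]

theorem m5_n_pos (D : Dat) : 0 < D.n := by
  unfold Dat.n
  positivity

theorem m5_add_zero {D : Dat} {x : ℕ →₀ D.V} {f : Gam → D.Z} (h : IsLift D x f) :
    lh (h.add 0) = lh h := by
  refine MonoidHom.ext fun σ => Ext.ext ?_ ?_
  · rfl
  · show f σ + par (0 : ℕ →₀ D.Z) σ = f σ
    unfold par
    rw [Finsupp.sum_zero_index, add_zero]

/-- If the exponent is zero, the image of inertia is trivial. -/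
theorem m5_triv (KI : M5KI) {D : Dat} (ρ : Gam →* Ext D) (p : ℕ) (τ : Gam)
    (h : ex p ρ * orderOf (ρ τ) = ρ.ker.index * (orderOf (ρ τ) - 1)) (h0 : ex p ρ = 0) :
    ρ τ = 1 := by
  rw [h0, zero_mul] at h
  have h1 : ρ.ker.index ≠ 0 := by
    intro h2
    have h3 := (KI ρ).1
    rw [h2, zero_dvd_iff] at h3
    exact (m5_n_pos D).ne' h3
  have h2 : orderOf (ρ τ) - 1 = 0 := by
    rcases mul_eq_zero.1 h.symm with h3 | h3
    · exact absurd h3 h1
    · exact h3
  have h4 : 0 < orderOf (ρ τ) := orderOf_pos _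
  exact orderOf_eq_one_iff.1 (by omega)

/-- If the image of inertia is trivial, the exponent is zero. -/
theorem m5_ex_zero {D : Dat} (ρ : Gam →* Ext D) (p : ℕ) (τ : Gam)
    (h : ex p ρ * orderOf (ρ τ) = ρ.ker.index * (orderOf (ρ τ) - 1)) (h0 : ρ τ = 1) :
    ex p ρ = 0 := by
  rw [h0, orderOf_one] at h
  simpa using h

theorem m5_exists_normal (LP : M5LP) (KI : M5KI) {D : Dat} {x : ℕ →₀ D.V} {f : Gam → D.Z}
    (hx : adm x) (h : IsLift D x f) : ∃ f' : Gam → D.Z, IsNormal D x f' := by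
  classical
  set S : Finset ℕ := (dabs (fld (lh h).ker)).primeFactors.filter (fun p => p ≠ 2 ∧ x p = 0)
    with hS
  have hSp : ∀ i ∈ S, i.Prime ∧ i ≠ 2 ∧ x i = 0 := fun i hi =>
    ⟨Nat.prime_of_mem_primeFactors (Finset.mem_filter.1 hi).1, (Finset.mem_filter.1 hi).2⟩
  have key : ∀ p : ℕ, ∃ τ : Gam, p.Prime → p ≠ 2 →
      (∀ i ∈ S ∪ x.support, i ≠ p → chi (dd i : ℤ) τ = 0) ∧
      (p ∈ S ∪ x.support → chi (dd p : ℤ) τ = 1) ∧
      (∀ z : ℕ →₀ D.Z, z.support ⊆ S →
        ex p (lh (h.add z)) * orderOf (lh (h.add z) τ) =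
          (lh (h.add z)).ker.index * (orderOf (lh (h.add z) τ) - 1)) := by
    intro p
    by_cases hp : p.Prime ∧ p ≠ 2
    · obtain ⟨τ, φ, -, h1, h2, h3⟩ := LP hx h S (fun i hi => Or.inr (hSp i hi).1) p hp.1 hp.2
      exact ⟨τ, fun _ _ => ⟨fun i hi hne => (h1 i hi hne).1, h2, h3⟩⟩
    · exact ⟨1, fun h1 h2 => absurd ⟨h1, h2⟩ hp⟩
  choose τ hτ using key
  set z : ℕ →₀ D.Z := Finsupp.onFinset S (fun p => if p ∈ S then f (τ p) else 0)
    (fun p hp => by
      by_contra hc
      exact hp (if_neg hc)) with hz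
  have hzS : z.support ⊆ S := Finsupp.support_onFinset_subset
  have hzp : ∀ p ∈ S, z p = f (τ p) := fun p hp => by
    rw [hz, Finsupp.onFinset_apply, if_pos hp]
  have hz0 : ∀ p, p ∉ S → z p = 0 := fun p hp => by
    rw [hz, Finsupp.onFinset_apply, if_neg hp]
  refine ⟨fun σ => f σ + par z σ, { toIsLift := h.add z, unr := ?_ }⟩
  intro p hp hp2 hxp
  obtain ⟨h1, h2, h3⟩ := hτ p hp hp2
  refine m5_ex_zero (lh (h.add z)) p (τ p) (h3 z hzS) ?_
  have hpx : par x (τ p) = 0 := by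
    rw [m5_par x (τ p) p (fun i hi hne => h1 i (Finset.mem_union_right _ hi) hne)
      (fun hc => absurd hxp hc), hxp]
  have hpz : par z (τ p) = z p := by
    refine m5_par z (τ p) p (fun i hi hne => h1 i (Finset.mem_union_left _ (hzS hi)) hne) ?_
    intro hc
    refine h2 (Finset.mem_union_left _ ?_)
    by_contra hc2
    exact hc (hz0 p hc2)
  have hf : f (τ p) + z p = 0 := by
    by_cases hpS : p ∈ S
    · rw [hzp p hpS]
      exact Ext.two_Z _
    · rw [hz0 p hpS, add_zero]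
      have h5 : ex p (lh h) = 0 := by
        unfold ex
        by_contra hc
        apply hpS
        rw [hS, Finset.mem_filter]
        refine ⟨?_, hp2, hxp⟩
        rw [← Nat.support_factorization, Finsupp.mem_support_iff]
        exact hc
      have h6 := h3 0 (by simp)
      rw [m5_add_zero h] at h6
      have h7 := m5_triv KI (lh h) p (τ p) h6 h5
      exact congrArg Ext.z h7
  apply Ext.ext
  · exact hpx
  · show f (τ p) + par z (τ p) = 0
    rw [hpz, hf]

theorem m5_order_two {D : Dat} {g : Ext D} (h : g ≠ 1) (h2 : g * g = 1) : orderOf g = 2 :=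
  orderOf_eq_prime (by rw [pow_two, h2]) h

theorem m5_sq {D : Dat} (v : D.V) (w : D.Z) :
    (⟨v, w⟩ : Ext D) * ⟨v, w⟩ = ⟨0, D.q v⟩ := by
  apply Ext.ext
  · exact Ext.two_V v
  · show w + w + D.β v v = D.q v
    rw [Ext.two_Z, zero_add]
    rfl

open Classical in
theorem m5_ex_odd (LP : M5LP) (KI : M5KI) {D : Dat} {x : ℕ →₀ D.V} {f : Gam → D.Z} (hx : adm x)
    (h : IsNormal D x f) (z : ℕ →₀ D.Z) (hz : adm z)
    (hs : Function.Surjective (lh (h.toIsLift.add z))) (p : ℕ) (hp : p.Prime) (hp2 : p ≠ 2) :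
    ex p (lh (h.toIsLift.add z)) =
      if x p ≠ 0 then wtN D (x p) else if z p ≠ 0 then D.n / 2 else 0 := by
  have hS : ∀ i ∈ z.support ∪ {p}, i = 1 ∨ i.Prime := by
    intro i hi
    rcases Finset.mem_union.1 hi with h1 | h1
    · exact hz i (Finsupp.mem_support_iff.1 h1)
    · rw [Finset.mem_singleton.1 h1]
      exact Or.inr hp
  obtain ⟨τ, φ, -, h1, h2, h3⟩ := LP hx h.toIsLift (z.support ∪ {p}) hS p hp hp2
  have hpS : p ∈ (z.support ∪ {p}) ∪ x.support :=
    Finset.mem_union_left _ (Finset.mem_union_right _ (Finset.mem_singleton_self p))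
  have hpx : par x τ = x p :=
    m5_par x τ p (fun i hi hne => (h1 i (Finset.mem_union_right _ hi) hne).1) fun _ => h2 hpS
  have hpz : par z τ = z p :=
    m5_par z τ p (fun i hi hne => (h1 i (Finset.mem_union_left _
      (Finset.mem_union_left _ hi)) hne).1) fun _ => h2 hpS
  have h4 := h3 z Finset.subset_union_left
  rw [(KI (lh (h.toIsLift.add z))).2 hs] at h4
  have h5 : lh (h.toIsLift.add z) τ = ⟨x p, f τ + z p⟩ := by
    apply Ext.ext
    · exact hpx
    · show f τ + par z τ = f τ + z p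
      rw [hpz]
  by_cases hxp : x p ≠ 0
  · rw [if_pos hxp]
    have hne : (⟨x p, f τ + z p⟩ : Ext D) ≠ 1 := fun hc => hxp (congrArg Ext.v hc)
    unfold wtN
    by_cases hq : D.q (x p) = 0
    · rw [if_pos hq]
      have h6 : orderOf (⟨x p, f τ + z p⟩ : Ext D) = 2 := by
        refine m5_order_two hne ?_
        rw [m5_sq, hq]
        rfl
      rw [h5, h6] at h4
      omega
    · rw [if_neg hq]
      have h6 : orderOf (⟨x p, f τ + z p⟩ : Ext D) = 4 := by
        have h7 : (⟨x p, f τ + z p⟩ : Ext D) ^ (2 ^ 1) ≠ 1 := by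
          rw [pow_one, pow_two, m5_sq]
          exact fun hc => hq (congrArg Ext.z hc)
        have h8 : (⟨x p, f τ + z p⟩ : Ext D) ^ (2 ^ (1 + 1)) = 1 := by
          rw [pow_add, pow_one, pow_mul, pow_two, pow_two, m5_sq, m5_sq]
          apply Ext.ext
          · rfl
          · show D.q 0 = 0
            unfold Dat.q
            rw [map_zero]
        exact orderOf_eq_prime_pow h7 h8
      rw [h5, h6] at h4
      omega
  · rw [if_neg hxp]
    push Not at hxp
    have hf : f τ = 0 := by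
      have h6 := h3 0 (by simp)
      rw [m5_add_zero h.toIsLift] at h6
      exact congrArg Ext.z (m5_triv KI (lh h.toIsLift) p τ h6 (h.unr p hp hp2 hxp))
    rw [hxp, hf, zero_add] at h5
    by_cases hzp : z p ≠ 0
    · rw [if_pos hzp]
      have h6 : orderOf (⟨0, z p⟩ : Ext D) = 2 := by
        refine m5_order_two (fun hc => hzp (congrArg Ext.z hc)) ?_
        rw [m5_sq]
        apply Ext.ext
        · rfl
        · show D.q 0 = 0
          unfold Dat.q
          rw [map_zero]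
      rw [h5, h6] at h4
      omega
    · rw [if_neg hzp]
      push Not at hzp
      refine m5_ex_zero _ p τ (h3 z Finset.subset_union_left) ?_
      rw [h5, hzp]
      rfl

theorem exists_normal {D : Dat} {x : ℕ →₀ D.V} {f : Gam → D.Z} (hx : adm x)
    (h : IsLift D x f) : ∃ f' : Gam → D.Z, IsNormal D x f' :=
  m5_exists_normal local_pack ker_index hx h

open Classical in
theorem ex_odd {D : Dat} {x : ℕ →₀ D.V} {f : Gam → D.Z} (hx : adm x) (h : IsNormal D x f)
    (z : ℕ →₀ D.Z) (hz : adm z) (hs : Function.Surjective (lh (h.toIsLift.add z))) (p : ℕ)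
    (hp : p.Prime) (hp2 : p ≠ 2) :
    ex p (lh (h.toIsLift.add z)) =
      if x p ≠ 0 then wtN D (x p) else if z p ≠ 0 then D.n / 2 else 0 :=
  m5_ex_odd local_pack ker_index hx h z hz hs p hp hp2

end Pool.Agent.H98.MK
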