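import Pool.Agent.H98.MK.MDefs

/-!
# Project MK, row MK-M6: the exponent of 2, twists and comparison
-/

set_option autoImplicit false

open scoped BigOperators

namespace Pool.Agent.H98.MK

/-- statement of row T4 -/
def M6_LT : Prop := ∀ (U : Subgroup Gam) [U.Normal] (_ : IsOpen (U : Set Gam))
    (_ : ∀ σ ∈ U, chi (-1) σ = 0) (_ : ∀ σ ∈ U, chi 2 σ = 0),
    ∃ I Dc : Subgroup Gam, U ≤ I ∧ I ≤ Dc ∧
      (∀ (W W' : Subgroup Gam) [W.Normal] [W'.Normal], U ≤ W → U ≤ W' → I ⊓ W = I ⊓ W' →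
        (dabs (fld W)).factorization 2 * W'.index = (dabs (fld W')).factorization 2 * W.index) ∧
      (∀ m : ℤ, m % 4 = 1 → (∀ σ ∈ U, chi m σ = 0) → ∀ σ ∈ I, chi m σ = 0) ∧
      (∀ m : ℤ, m % 8 = 1 → (∀ σ ∈ U, chi m σ = 0) → ∀ σ ∈ Dc, chi m σ = 0) ∧
      (∀ h : Gam → ZMod 2, (∀ σ ∈ Dc, ∀ τ ∈ Dc, h (σ * τ) = h σ + h τ) →
        (∀ σ ∈ U, h σ = 0) → ∃ x y : ZMod 2, ∀ σ ∈ I, h σ = x * chi (-1) σ + y * chi 2 σ)

/-- statement of row M2 -/
def M6_KI : Prop := ∀ {D : Dat} (ρ : Gam →* Ext D), ρ.ker.index ∣ D.n ∧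
    (Function.Surjective ρ → ρ.ker.index = D.n)

private theorem two0 {M : Type} [AddCommGroup M] [Module (ZMod 2) M] (v : M) : v + v = 0 := by
  have h : (2 : ZMod 2) • v = 0 := by
    have : (2 : ZMod 2) = 0 := by decide
    rw [this, zero_smul]
  rwa [two_smul] at h

private theorem lh_lc {D : Dat} {x : ℕ →₀ D.V} {f : Gam → D.Z} (h : IsLift D x f) :
    IsLocallyConstant (lh h) :=
  IsLocallyConstant.comp₂ (par_lc x) h.lc (fun a b => (⟨a, b⟩ : Ext D))

private theorem chi_one (d : ℚ) : chi d 1 = 0 := by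
  have h := chi_hom d 1 1
  rw [mul_one] at h
  exact left_eq_add.1 h

/-- the subgroup on which a quadratic character vanishes -/
private noncomputable def chiHom (d : ℚ) : Gam →* Multiplicative (ZMod 2) where
  toFun σ := Multiplicative.ofAdd (chi d σ)
  map_one' := by rw [chi_one]; rfl
  map_mul' σ τ := by rw [chi_hom]; rfl

private theorem chiHom_ker (d : ℚ) (σ : Gam) : σ ∈ (chiHom d).ker ↔ chi d σ = 0 := by
  rw [MonoidHom.mem_ker]
  exact ⟨fun h => Multiplicative.ofAdd.injective h, fun h => congrArg Multiplicative.ofAdd h⟩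

private theorem ker_open' {H : Type} [Group H] (ρ : Gam →* H) (h : IsLocallyConstant ρ) :
    IsOpen (ρ.ker : Set Gam) := h {1}

private theorem exists_U {D : Dat} (ρ₁ ρ₂ : Gam →* Ext D) (h₁ : IsLocallyConstant ρ₁)
    (h₂ : IsLocallyConstant ρ₂) (S : Finset ℚ) :
    ∃ U : Subgroup Gam, U.Normal ∧ IsOpen (U : Set Gam) ∧ U ≤ ρ₁.ker ∧ U ≤ ρ₂.ker ∧
      ∀ d ∈ S, ∀ σ ∈ U, chi d σ = 0 := by
  classical
  induction S using Finset.induction_on with
  | empty =>
    refine ⟨ρ₁.ker ⊓ ρ₂.ker, inferInstance, ?_, inf_le_left, inf_le_right, by simp⟩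
    rw [Subgroup.coe_inf]
    exact (ker_open' ρ₁ h₁).inter (ker_open' ρ₂ h₂)
  | insert d S _ ih =>
    obtain ⟨U, hn, ho, hU1, hU2, hS⟩ := ih
    refine ⟨U ⊓ (chiHom d).ker, inferInstance, ?_, inf_le_left.trans hU1,
      inf_le_left.trans hU2, ?_⟩
    · rw [Subgroup.coe_inf]
      refine ho.inter (ker_open' _ ?_)
      exact (chi_lc d).comp Multiplicative.ofAdd
    · intro e he σ hσ
      rcases Finset.mem_insert.1 he with rfl | he
      · exact (chiHom_ker _ σ).1 hσ.2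
      · exact hS e he σ hσ.1

private theorem c2_eq (hK : M6_KI) {D : Dat} (ρ ρ' : Gam →* Ext D)
    (h : ex 2 ρ * ρ'.ker.index = ex 2 ρ' * ρ.ker.index) : c2 ρ = c2 ρ' := by
  have hn : 0 < D.n := by unfold Dat.n; positivity
  obtain ⟨k, hk⟩ := (hK ρ).1
  obtain ⟨k', hk'⟩ := (hK ρ').1
  have hi : 0 < ρ.ker.index := Nat.pos_of_ne_zero fun h0 => by
    rw [h0, zero_mul] at hk; omega
  have hi' : 0 < ρ'.ker.index := Nat.pos_of_ne_zero fun h0 => by
    rw [h0, zero_mul] at hk'; omega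
  have e1 : c2 ρ = k * ex 2 ρ := by
    unfold c2
    conv_lhs => rw [hk, mul_assoc]
    exact Nat.mul_div_cancel_left _ hi
  have e2 : c2 ρ' = k' * ex 2 ρ' := by
    unfold c2
    conv_lhs => rw [hk', mul_assoc]
    exact Nat.mul_div_cancel_left _ hi'
  rw [e1, e2]
  refine Nat.eq_of_mul_eq_mul_left (Nat.mul_pos hi hi') ?_
  calc ρ.ker.index * ρ'.ker.index * (k * ex 2 ρ)
      = (ρ.ker.index * k) * (ex 2 ρ * ρ'.ker.index) := by ring
    _ = (ρ'.ker.index * k') * (ex 2 ρ' * ρ.ker.index) := by rw [← hk, ← hk', h]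
    _ = ρ.ker.index * ρ'.ker.index * (k' * ex 2 ρ') := by ring

private theorem inf_ker {D : Dat} (I : Subgroup Gam) (ρ ρ' : Gam →* Ext D)
    (h : ∀ σ ∈ I, ρ σ = ρ' σ) : I ⊓ ρ.ker = I ⊓ ρ'.ker := by
  ext σ
  simp only [Subgroup.mem_inf, MonoidHom.mem_ker]
  constructor
  · rintro ⟨h1, h2⟩
    exact ⟨h1, by rw [← h σ h1, h2]⟩
  · rintro ⟨h1, h2⟩
    exact ⟨h1, by rw [h σ h1, h2]⟩

private theorem dd_one : dd 1 = -1 := rfl

private theorem dd_two : dd 2 = 2 := rfl

private theorem dd_odd {p : ℕ} (hp : p.Prime) (h2 : p ≠ 2) :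
    dd p % 4 = 1 ∧ (dd p = p ∨ dd p = -(p : ℤ)) := by
  have h1 : p ≠ 1 := hp.ne_one
  have hodd : p % 2 = 1 := hp.eq_two_or_odd.resolve_left h2
  unfold dd
  rw [if_neg h1, if_neg h2]
  split_ifs with h
  · constructor
    · omega
    · left; rfl
  · constructor
    · omega
    · right; rfl

private theorem dd_ne {i : ℕ} (h : i = 1 ∨ i.Prime) : ((dd i : ℤ) : ℚ) ≠ 0 := by
  have h0 : dd i ≠ 0 := by
    rcases h with rfl | h
    · rw [dd_one]; norm_num
    · by_cases h2 : i = 2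
      · subst h2; rw [dd_two]; norm_num
      · have := (dd_odd h h2).1
        intro h0
        rw [h0] at this
        norm_num at this
  exact_mod_cast h0

private theorem par_eq {W : Type} [AddCommGroup W] [Module (ZMod 2) W] (z z' : ℕ →₀ W)
    (hz : adm z) (hz' : adm z') (h1 : z 1 = z' 1) (h2 : z 2 = z' 2) (σ : Gam)
    (h : ∀ p : ℕ, p.Prime → p ≠ 2 → (z p ≠ 0 ∨ z' p ≠ 0) → chi (dd p : ℤ) σ = 0) :
    par z σ = par z' σ := by
  classical
  unfold par
  rw [Finsupp.sum_of_support_subset z (Finset.subset_union_left (s₂ := z'.support)) _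
    (fun i _ => smul_zero _), Finsupp.sum_of_support_subset z'
    (Finset.subset_union_right (s₁ := z.support)) _ (fun i _ => smul_zero _)]
  refine Finset.sum_congr rfl fun i hi => ?_
  have hi' : z i ≠ 0 ∨ z' i ≠ 0 := by
    rcases Finset.mem_union.1 hi with hi | hi
    · exact Or.inl (Finsupp.mem_support_iff.1 hi)
    · exact Or.inr (Finsupp.mem_support_iff.1 hi)
  have hpr : i = 1 ∨ i.Prime := hi'.elim (hz i) (hz' i)
  rcases hpr with rfl | hpr
  · rw [h1]
  · by_cases hi2 : i = 2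
    · subst hi2
      rw [h2]
    · rw [h i hpr hi2 hi', zero_smul, zero_smul]

theorem c2_twist_of (hT : M6_LT) (hK : M6_KI) {D : Dat} {x : ℕ →₀ D.V} {f : Gam → D.Z}
    (h : IsLift D x f) (z z' : ℕ →₀ D.Z) (hz : adm z) (hz' : adm z') (h1 : z 1 = z' 1)
    (h2 : z 2 = z' 2) : c2 (lh (h.add z)) = c2 (lh (h.add z')) := by
  classical
  obtain ⟨U, hn, ho, hU1, hU2, hS⟩ := exists_U (lh (h.add z)) (lh (h.add z'))
    (lh_lc _) (lh_lc _)
    ({-1, 2} ∪ (z.support ∪ z'.support).image fun i => ((dd i : ℤ) : ℚ))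
  obtain ⟨I, Dc, hUI, hID, hcmp, h4, -, -⟩ := hT U ho
    (hS (-1) (by simp)) (hS 2 (by simp))
  apply c2_eq hK
  refine hcmp _ _ hU1 hU2 (inf_ker I _ _ fun σ hσ => ?_)
  have e : par z σ = par z' σ := by
    refine par_eq z z' hz hz' h1 h2 σ fun p hp hp2 hne => ?_
    refine h4 (dd p) (dd_odd hp hp2).1 (hS _ ?_) σ hσ
    apply Finset.mem_union_right
    refine Finset.mem_image.2 ⟨p, ?_, rfl⟩
    rcases hne with hne | hne
    · exact Finset.mem_union_left _ (Finsupp.mem_support_iff.2 hne)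
    · exact Finset.mem_union_right _ (Finsupp.mem_support_iff.2 hne)
  apply Ext.ext
  · rfl
  · change f σ + par z σ = f σ + par z' σ
    rw [e]

/-- the product of the prime discriminants of the odd primes with value `v` -/
private noncomputable def mst {W : Type} [Zero W] (x : ℕ →₀ W) (v : W) : ℤ := by
  classical
  exact ∏ p ∈ x.support.filter (fun p => p ≠ 1 ∧ p ≠ 2 ∧ x p = v), dd p

private theorem mst_mod {W : Type} [Zero W] (x : ℕ →₀ W) (hx : adm x) (v : W) :
    mst x v % 4 = 1 ∧ (mst x v = mfun x v ∨ mst x v = -(mfun x v : ℤ)) := by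
  classical
  unfold mst mfun
  have key : ∀ S : Finset ℕ, (∀ p ∈ S, p.Prime ∧ p ≠ 2) → (∏ p ∈ S, dd p) % 4 = 1 ∧
      (∏ p ∈ S, dd p = ((∏ p ∈ S, p : ℕ) : ℤ) ∨ ∏ p ∈ S, dd p = -((∏ p ∈ S, p : ℕ) : ℤ)) := by
    intro S
    induction S using Finset.induction_on with
    | empty => intro _; simp
    | insert a S ha ih =>
      intro hS
      obtain ⟨i1, i2⟩ := ih fun p hp => hS p (Finset.mem_insert_of_mem hp)
      obtain ⟨d1, d2⟩ := dd_odd (hS a (Finset.mem_insert_self a S)).1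
        (hS a (Finset.mem_insert_self a S)).2
      rw [Finset.prod_insert ha, Finset.prod_insert ha]
      refine ⟨by rw [Int.mul_emod, d1, i1]; norm_num, ?_⟩
      push_cast
      rcases d2 with d2 | d2 <;> rcases i2 with i2 | i2 <;> rw [d2, i2] <;> push_cast
      · left; ring
      · right; ring
      · right; ring
      · left; ring
  have h := key (x.support.filter (fun p => p ≠ 1 ∧ p ≠ 2 ∧ x p = v)) fun p hp => by
    obtain ⟨h1, h2, h3, -⟩ := Finset.mem_filter.1 hp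
    exact ⟨(hx p (Finsupp.mem_support_iff.1 h1)).resolve_left h2, h3⟩
  convert h using 3

private theorem mst_mul {W : Type} [Zero W] (x x' : ℕ →₀ W) (hx : adm x) (hx' : adm x') (v : W)
    (h : (mfun x v : ZMod 8) = (mfun x' v : ZMod 8)) : (mst x v * mst x' v) % 8 = 1 := by
  obtain ⟨a1, a2⟩ := mst_mod x hx v
  obtain ⟨b1, b2⟩ := mst_mod x' hx' v
  have h' : mfun x v % 8 = mfun x' v % 8 := (ZMod.natCast_eq_natCast_iff' _ _ 8).1 h
  have e : mst x v % 8 = mst x' v % 8 := by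
    rcases a2 with a2 | a2 <;> rcases b2 with b2 | b2 <;> omega
  have e1 : mst x' v % 8 = 1 ∨ mst x' v % 8 = 5 := by omega
  rw [Int.mul_emod, e]
  rcases e1 with e1 | e1 <;> rw [e1] <;> norm_num

private theorem chi_prod (S : Finset ℕ) (hS : ∀ p ∈ S, p = 1 ∨ p.Prime) (σ : Gam) :
    chi ((∏ p ∈ S, dd p : ℤ) : ℚ) σ = ∑ p ∈ S, chi (dd p : ℤ) σ := by
  classical
  induction S using Finset.induction_on with
  | empty =>
    rw [Finset.prod_empty, Finset.sum_empty]
    have := chi_sq 1 σ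
    simpa using this
  | insert a S ha ih =>
    have h1 : (((∏ p ∈ S, dd p : ℤ)) : ℚ) ≠ 0 := by
      push_cast
      exact Finset.prod_ne_zero_iff.2 fun p hp => dd_ne (hS p (Finset.mem_insert_of_mem hp))
    rw [Finset.prod_insert ha, Finset.sum_insert ha, Int.cast_mul,
      chi_mul _ _ (dd_ne (hS a (Finset.mem_insert_self a S))) h1,
      ih fun p hp => hS p (Finset.mem_insert_of_mem hp)]

private theorem mst_ne {W : Type} [Zero W] (x : ℕ →₀ W) (hx : adm x) (v : W) :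
    ((mst x v : ℤ) : ℚ) ≠ 0 := by
  have h := (mst_mod x hx v).1
  have h0 : mst x v ≠ 0 := by
    intro h0
    rw [h0] at h
    norm_num at h
  exact_mod_cast h0

private theorem par_group {W : Type} [AddCommGroup W] [Module (ZMod 2) W] [Fintype W]
    (x : ℕ →₀ W) (hx : adm x) (σ : Gam) :
    par x σ = chi (-1) σ • x 1 + chi 2 σ • x 2 + ∑ v : W, chi (mst x v : ℤ) σ • v := by
  classical
  have h0 : ∀ v : W, chi (mst x v : ℤ) σ • v =
      ∑ p ∈ (x.support.filter fun p => p ≠ 1 ∧ p ≠ 2).filter (fun p => x p = v),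
        chi (dd p : ℤ) σ • x p := by
    intro v
    have e1 : chi (mst x v : ℤ) σ = ∑ p ∈ (x.support.filter fun p => p ≠ 1 ∧ p ≠ 2).filter
        (fun p => x p = v), chi (dd p : ℤ) σ := by
      have e2 : (x.support.filter fun p => p ≠ 1 ∧ p ≠ 2).filter (fun p => x p = v) =
          x.support.filter (fun p => p ≠ 1 ∧ p ≠ 2 ∧ x p = v) := by
        ext p
        simp only [Finset.mem_filter]
        tauto
      rw [e2, ← chi_prod]
      · congr 3
      · intro p hp
        exact hx p (Finsupp.mem_support_iff.1 (Finset.mem_filter.1 hp).1)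
    rw [e1, Finset.sum_smul]
    refine Finset.sum_congr rfl fun p hp => ?_
    rw [(Finset.mem_filter.1 hp).2]
  simp only [h0]
  have h5 : ∑ v : W, ∑ p ∈ (x.support.filter fun p => p ≠ 1 ∧ p ≠ 2).filter
      (fun p => x p = v), chi (dd p : ℤ) σ • x p =
      ∑ p ∈ x.support.filter fun p => p ≠ 1 ∧ p ≠ 2, chi (dd p : ℤ) σ • x p :=
    Finset.sum_fiberwise (x.support.filter fun p => p ≠ 1 ∧ p ≠ 2) (fun p => x p) _
  rw [h5]
  unfold par
  have h1 : chi (-1) σ • x 1 + chi 2 σ • x 2 =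
      ∑ p ∈ ({1, 2} : Finset ℕ), chi (dd p : ℤ) σ • x p := by
    rw [Finset.sum_pair (by norm_num), dd_one, dd_two]
    norm_num
  rw [h1, Finsupp.sum_of_support_subset x (Finset.subset_union_left (s₂ := ({1, 2} : Finset ℕ))) _
    (fun i _ => smul_zero _), ← Finset.sum_union]
  · refine Finset.sum_congr ?_ fun _ _ => rfl
    ext p
    simp only [Finset.mem_union, Finset.mem_filter, Finset.mem_insert, Finset.mem_singleton]
    tauto
  · rw [Finset.disjoint_left]
    intro p hp hp'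
    simp only [Finset.mem_filter, Finset.mem_insert, Finset.mem_singleton] at hp hp'
    tauto

private theorem par_z12 {Z : Type} [AddCommGroup Z] [Module (ZMod 2) Z] (z1 z2 : Z) (σ : Gam) :
    par (z12 z1 z2) σ = chi (-1) σ • z1 + chi 2 σ • z2 := by
  unfold z12
  rw [par_add]
  unfold par
  rw [Finsupp.sum_single_index (by rw [smul_zero]), Finsupp.sum_single_index (by rw [smul_zero]),
    dd_one, dd_two]
  norm_num

theorem c2_shift_of (hT : M6_LT) (hK : M6_KI) {D : Dat} {x x' : ℕ →₀ D.V} {f f' : Gam → D.Z}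
    (hx : adm x) (hx' : adm x') (h : IsLift D x f) (h' : IsLift D x' f') (h1 : x 1 = x' 1)
    (h2 : x 2 = x' 2)
    (hm : ∀ v : D.V, v ≠ 0 → (mfun x v : ZMod 8) = (mfun x' v : ZMod 8)) :
    ∃ y1 y2 : D.Z, ∀ z1 z2 : D.Z,
      c2 (lh (h.add (z12 z1 z2))) = c2 (lh (h'.add (z12 (z1 + y1) (z2 + y2)))) := by
  classical
  obtain ⟨U, hn, ho, hU1, hU2, hS⟩ := exists_U (lh h) (lh h') (lh_lc _) (lh_lc _)
    ({-1, 2} ∪ Finset.univ.image fun v : D.V => ((mst x v * mst x' v : ℤ) : ℚ))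
  have hUm : ∀ σ ∈ U, chi (-1) σ = 0 := hS (-1) (by simp)
  have hU2' : ∀ σ ∈ U, chi 2 σ = 0 := hS 2 (by simp)
  obtain ⟨I, Dc, hUI, hID, hcmp, -, h8, hadd⟩ := hT U ho hUm hU2'
  have hUx : ∀ σ ∈ U, par x σ = 0 ∧ f σ = 0 := by
    intro σ hσ
    have := hU1 hσ
    rw [MonoidHom.mem_ker] at this
    exact ⟨congrArg Ext.v this, congrArg Ext.z this⟩
  have hUx' : ∀ σ ∈ U, par x' σ = 0 ∧ f' σ = 0 := by
    intro σ hσ
    have := hU2 hσ
    rw [MonoidHom.mem_ker] at this
    exact ⟨congrArg Ext.v this, congrArg Ext.z this⟩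
  have hpar : ∀ σ ∈ Dc, par x σ = par x' σ := by
    intro σ hσ
    rw [par_group x hx σ, par_group x' hx' σ, h1, h2]
    congr 1
    refine Finset.sum_congr rfl fun v _ => ?_
    by_cases hv : v = 0
    · rw [hv, smul_zero, smul_zero]
    congr 1
    have e1 : chi ((mst x v * mst x' v : ℤ) : ℚ) σ = 0 := by
      refine h8 _ (mst_mul x x' hx hx' v (hm v hv)) (hS _ ?_) σ hσ
      apply Finset.mem_union_right
      exact Finset.mem_image.2 ⟨v, Finset.mem_univ v, rfl⟩
    rw [Int.cast_mul, chi_mul _ _ (mst_ne x hx v) (mst_ne x' hx' v)] at e1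
    have e2 := CharTwo.add_eq_zero.1 e1
    exact e2
  have hcoord : ∀ j : Fin D.s, ∃ a b : ZMod 2, ∀ σ ∈ I,
      f σ j + f' σ j = a * chi (-1) σ + b * chi 2 σ := by
    intro j
    refine hadd (fun σ => f σ j + f' σ j) (fun σ hσ τ hτ => ?_) (fun σ hσ => ?_)
    · have e1 := congrFun (h.hom σ τ) j
      have e2 := congrFun (h'.hom σ τ) j
      simp only [Pi.add_apply] at e1 e2
      simp only [e1, e2, hpar σ hσ, hpar τ hτ]
      have e3 : D.β (par x' σ) (par x' τ) j + D.β (par x' σ) (par x' τ) j = 0 :=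
        CharTwo.add_self_eq_zero _
      linear_combination e3
    · simp only [(hUx σ hσ).2, (hUx' σ hσ).2, Pi.zero_apply, add_zero]
  choose a b hab using hcoord
  refine ⟨a, b, fun z1 z2 => ?_⟩
  apply c2_eq hK
  refine hcmp _ _ ?_ ?_ (inf_ker I _ _ fun σ hσ => ?_)
  · intro σ hσ
    rw [MonoidHom.mem_ker]
    apply Ext.ext
    · exact (hUx σ hσ).1
    · change f σ + par (z12 z1 z2) σ = 0
      rw [(hUx σ hσ).2, par_z12, hUm σ hσ, hU2' σ hσ, zero_smul, zero_smul, add_zero, add_zero]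
  · intro σ hσ
    rw [MonoidHom.mem_ker]
    apply Ext.ext
    · exact (hUx' σ hσ).1
    · change f' σ + par (z12 (z1 + a) (z2 + b)) σ = 0
      rw [(hUx' σ hσ).2, par_z12, hUm σ hσ, hU2' σ hσ, zero_smul, zero_smul, add_zero, add_zero]
  · apply Ext.ext
    · exact hpar σ (hID hσ)
    · change f σ + par (z12 z1 z2) σ = f' σ + par (z12 (z1 + a) (z2 + b)) σ
      rw [par_z12, par_z12]
      funext j
      have e1 := hab j σ hσ
      have e2 : f' σ j + f' σ j = 0 := CharTwo.add_self_eq_zero _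
      simp only [Pi.add_apply, Pi.smul_apply, smul_eq_mul]
      linear_combination e1 - e2

end Pool.Agent.H98.MK
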