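import Pool.Agent.H98.MK.CountParamA
import Pool.Agent.H98.MK.ParClass
import Pool.Agent.H98.MK.HomParam
import Pool.Agent.H98.MK.LhSurj
import Pool.Agent.H98.MK.NecA
import Pool.Agent.H98.MK.Normal
import Pool.Agent.H98.MK.LocalPack
import Pool.Agent.H98.MK.LocalTwo
import Pool.Agent.H98.MK.TwoPack

/-!
# Project MK (MP_a3214d), row M7: counting surjections by parameters
-/

set_option autoImplicit false

open scoped BigOperators

namespace Pool.Agent.H98.MK

theorem count_param (D : Dat) : ∃ cx : (ℕ →₀ D.V) → D.Z → D.Z → ℕ,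
    (∀ x : ℕ →₀ D.V, adm x → Sol D x → ∃ (f : Gam → D.Z) (h : IsNormal D x f),
      ∀ z1 z2, cx x z1 z2 = c2 (lh (h.toIsLift.add (z12 z1 z2)))) ∧
    ∀ X : ℝ, Nat.card {ρ : Gam →* Ext D // Function.Surjective ρ ∧ IsLocallyConstant ρ ∧
        (dabs (fld ρ.ker) : ℝ) ≤ X} =
      Nat.card {w : (ℕ →₀ D.V) × (ℕ →₀ D.Z) // adm w.1 ∧ adm w.2 ∧ Sol D w.1 ∧
        Submodule.span (ZMod 2) (Set.range w.1) = ⊤ ∧
        ((2 ^ cx w.1 (w.2 1) (w.2 2) * szN D w.1 w.2 : ℕ) : ℝ) ≤ X} := by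
  have LP : M5LP := fun hx h S hS p hp hp2 => local_pack hx h S hS p hp hp2
  have KI : M5KI := fun ρ => ker_index ρ
  have LT : M6_LT := fun U _ hU h1 h2 => local_two U hU h1 h2
  have KI6 : M6_KI := fun ρ => ker_index ρ
  exact count_param_of (fun hx h z hz hs p hp hp2 => m5_ex_odd LP KI hx h z hz hs p hp hp2)
    (fun h z z' hz hz' h1 h2 => c2_twist_of LT KI6 h z z' hz hz' h1 h2) (fun ρ => ker_index ρ)
    (fun D ρ h => hom_param D ρ h) (fun h h' hx hx' he => lh_inj h h' hx hx' he)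
    (fun x y hx hy h => par_injective x y hx hy h) (fun h h' => lift_diff h h')
    (fun hx h => lh_surj hx h) (fun hx h => nec_of hx h (fun p hp hp2 => by
      obtain ⟨τ, φ, h1, h2, h3, -⟩ := local_pack hx h ∅ (by simp) p hp hp2
      rw [Finset.empty_union] at h2 h3
      exact ⟨τ, φ, h1, h2, h3⟩)) (fun hx h => m5_exists_normal LP KI hx h) D

end Pool.Agent.H98.MK
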