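import Pool.Agent.H98.MK.CountSum2

/-!
# Project MK (MP_a3214d), row M11: the parameter count is the sum `D.S` (helper90)
-/

set_option autoImplicit false

open scoped BigOperators

namespace Pool.Agent.H98.MK

/-! ### the local factor -/

theorem m11_omega {ι : Type} (s : Finset ι) (m : ι → ℕ)
    (h : Squarefree (∏ v ∈ s, m v)) :
    (∏ v ∈ s, m v).primeFactors.card = ∑ v ∈ s, (m v).primeFactors.card := by
  classical
  induction s using Finset.induction_on with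
  | empty => simp
  | insert i s hi ih =>
    rw [Finset.prod_insert hi] at h ⊢
    rw [Finset.sum_insert hi, ← ih (Squarefree.of_mul_right h)]
    have hc : Nat.Coprime (m i) (∏ v ∈ s, m v) := Nat.coprime_of_squarefree_mul h
    rw [Nat.Coprime.primeFactors_mul hc, Finset.card_union_of_disjoint
      (Nat.Coprime.disjoint_primeFactors hc)]

theorem m11_g (D : Dat) (a b : D.V) (m : D.V → ℕ) (h : Squarefree (∏ v, m v))
    (hok : ∀ v : D.V, ∀ p ∈ (m v).primeFactors, D.okp a b m v p) :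
    D.g a b m = (2 ^ D.s) ^ (∏ v, m v).primeFactors.card := by
  rw [m11_omega _ _ h, ← Finset.prod_pow_eq_pow_sum]
  unfold Dat.g
  refine Finset.prod_congr rfl fun v _ => ?_
  rw [← Finset.prod_const]
  refine Finset.prod_congr rfl fun p hp => ?_
  rw [if_pos (hok v p hp)]

theorem m11_g0 (D : Dat) (a b : D.V) (m : D.V → ℕ)
    (hok : ¬ ∀ v : D.V, ∀ p ∈ (m v).primeFactors, D.okp a b m v p) :
    D.g a b m = 0 := by
  push Not at hok
  obtain ⟨v, p, hp, hv⟩ := hok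
  unfold Dat.g
  refine Finset.prod_eq_zero (Finset.mem_univ v) ?_
  refine Finset.prod_eq_zero hp ?_
  rw [if_neg hv]

/-- regrouping by the value of the exponent -/
theorem m11_group {ι : Type} [Fintype ι] (c : ι → ℕ) (T : ℕ) (hc : ∀ z, c z ≤ T)
    (f : ℕ → ℝ) :
    ∑ z, f (c z) = ∑ t ∈ Finset.range (T + 1), (Nat.card {z // c z = t} : ℝ) * f t := by
  classical
  rw [← Finset.sum_fiberwise_of_maps_to (s := Finset.univ) (t := Finset.range (T + 1)) (g := c)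
    (fun z _ => Finset.mem_range.2 (by have := hc z; omega))]
  refine Finset.sum_congr rfl fun t _ => ?_
  rw [Finset.sum_congr rfl (g := fun _ => f t) (fun z hz => by rw [(Finset.mem_filter.1 hz).2]),
    Finset.sum_const, nsmul_eq_mul, Nat.card_eq_fintype_card, Fintype.card_subtype]

open Classical in
theorem m11_main (D : Dat) (cx : (ℕ →₀ D.V) → D.Z → D.Z → ℕ) (T : ℕ)
    (W : D.V → D.V → (D.V → ZMod 8) → ℕ → ℕ)
    (h : ∀ x : ℕ →₀ D.V, adm x → Sol D x → (∀ z1 z2, cx x z1 z2 ≤ T) ∧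
        ∀ t, Nat.card {z : D.Z × D.Z // cx x z.1 z.2 = t} =
          W (x 1) (x 2) (fun v => (mfun x v : ZMod 8)) t) (X : ℝ) (hX : 1 ≤ X)
    (a b : D.V) (m : D.V → ℕ) (E : D.Z → ℕ) :
    (∑ z1 : D.Z, ∑ z2 : D.Z,
      (Nat.card {w : {w // m11P D cx X w} // m11F D w.1 = (a, b, m, E, z1, z2)} : ℝ)) =
    ∑ t ∈ Finset.range (T + 1),
      if m 0 = 1 ∧ E 0 = 1 ∧ Squarefree (2 * (∏ v, m v) * ∏ z, E z) ∧
        (∏ v, (m v : ℝ) ^ D.wt v) * ∏ z, (E z : ℝ) ≤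
          X ^ (2 / D.n : ℝ) * 2 ^ (-(2 * t / D.n) : ℝ)
      then (D.g a b m : ℝ) *
        (if D.Span a b (Finset.univ.filter fun v => m v ≠ 1) ∧
          D.q (D.vinf a (fun v => (m v : ZMod 8))) = 0
        then (W a b (fun v => (m v : ZMod 8)) t : ℝ) else 0)
      else 0 := by
  by_cases hg : m 0 = 1 ∧ E 0 = 1 ∧ Squarefree (2 * (∏ v, m v) * ∏ z, E z)
  · obtain ⟨hm0, hE0, hsq⟩ := hg
    have hsq1 : Squarefree (2 * ∏ v, m v) := Squarefree.of_mul_left hsq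
    have hsq2 : Squarefree (∏ v, m v) := Squarefree.of_mul_right hsq1
    obtain ⟨x0, ⟨hx0, rfl, rfl, hm⟩, hun⟩ := exists_x D a b m hm0 hsq1
    have hfib := fun z1 z2 => m11_fibre D cx X m E z1 z2 x0 hx0 hm
      (fun x h1 h2 h3 h4 => hun x ⟨h1, h2, h3, h4⟩) hE0 hsq
    simp only [hfib, hm0, hE0, hsq, true_and]
    by_cases hs : Sol D x0 ∧ Submodule.span (ZMod 2) (Set.range x0) = ⊤
    · obtain ⟨hT, hW⟩ := h x0 hx0 hs.1
      have hs1 := (sol_iff D x0 hx0).1 hs.1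
      have hs2 := (span_iff D x0 hx0).1 hs.2
      rw [hm] at hs1 hs2 hW
      rw [← Fintype.sum_prod_type' (f := fun z1 z2 => (((if Sol D x0 ∧
        Submodule.span (ZMod 2) (Set.range x0) = ⊤ ∧
        ((2 ^ cx x0 z1 z2 * m11A D m E : ℕ) : ℝ) ≤ X then
        (2 ^ D.s) ^ (∏ v : D.V, m v).primeFactors.card else 0 : ℕ)) : ℝ))]
      have e1 := m11_group (fun z : D.Z × D.Z => cx x0 z.1 z.2) T (fun z => hT z.1 z.2)
        (fun t => (((if Sol D x0 ∧ Submodule.span (ZMod 2) (Set.range x0) = ⊤ ∧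
        ((2 ^ t * m11A D m E : ℕ) : ℝ) ≤ X then
        (2 ^ D.s) ^ (∏ v : D.V, m v).primeFactors.card else 0 : ℕ)) : ℝ))
      rw [e1]
      refine Finset.sum_congr rfl fun t _ => ?_
      rw [hW t, m11_g D _ _ m hsq2 hs1.1,
        if_pos (show D.Span (x0 1) (x0 2) (Finset.univ.filter fun v => m v ≠ 1) ∧
          D.q (D.vinf (x0 1) (fun v => (m v : ZMod 8))) = 0 from ⟨hs2, hs1.2⟩)]
      have e2 := m11_size D m E t hX
      simp only [hs.1, hs.2, true_and, m11A]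
      by_cases hsz : (∏ v, (m v : ℝ) ^ D.wt v) * ∏ z, (E z : ℝ) ≤
          X ^ (2 / D.n : ℝ) * 2 ^ (-(2 * t / D.n) : ℝ)
      · rw [if_pos (e2.2 hsz), if_pos hsz, mul_comm]
      · rw [if_neg (fun h => hsz (e2.1 h)), if_neg hsz, Nat.cast_zero, mul_zero]
    · have hl : ∀ z1 z2, ¬ (Sol D x0 ∧ Submodule.span (ZMod 2) (Set.range x0) = ⊤ ∧
          ((2 ^ cx x0 z1 z2 * m11A D m E : ℕ) : ℝ) ≤ X) := fun z1 z2 hc => hs ⟨hc.1, hc.2.1⟩
      simp only [hl, if_false, Nat.cast_zero, Finset.sum_const_zero]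
      symm
      apply Finset.sum_eq_zero
      intro t _
      have hz : (D.g (x0 1) (x0 2) m : ℝ) *
        (if D.Span (x0 1) (x0 2) (Finset.univ.filter fun v => m v ≠ 1) ∧
          D.q (D.vinf (x0 1) (fun v => (m v : ZMod 8))) = 0
        then (W (x0 1) (x0 2) (fun v => (m v : ZMod 8)) t : ℝ) else 0) = 0 := by
        by_cases hok : ∀ v : D.V, ∀ p ∈ (m v).primeFactors, D.okp (x0 1) (x0 2) m v p
        · rw [if_neg, mul_zero]
          rintro ⟨c1, c2⟩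
          apply hs
          constructor
          · rw [sol_iff D x0 hx0, hm]
            exact ⟨hok, c2⟩
          · rw [span_iff D x0 hx0, hm]
            exact c1
        · rw [m11_g0 D _ _ m hok, Nat.cast_zero, zero_mul]
      rw [hz, ite_self]
  · have hl : ∀ z1 z2, Nat.card {w : {w // m11P D cx X w} //
        m11F D w.1 = (a, b, m, E, z1, z2)} = 0 := by
      intro z1 z2
      have := m11_empty D cx X a b m E z1 z2 hg
      exact Nat.card_of_isEmpty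
    simp only [hl, Nat.cast_zero, Finset.sum_const_zero]
    symm
    apply Finset.sum_eq_zero
    intro t _
    rw [if_neg]
    rintro ⟨h1, h2, h3, _⟩
    exact hg ⟨h1, h2, h3⟩

/-! ### the sums -/

open Classical in
theorem m11_box (D : Dat) (F : (D.V → ℕ) → (D.Z → ℕ) → ℝ) (Y Y0 : ℝ) (h : Y ≤ Y0)
    (c : (D.V → ℕ) → (D.Z → ℕ) → Prop) [∀ m E, Decidable (c m E)]
    (hc : ∀ m E, c m E → (∏ v, (m v : ℝ) ^ D.wt v) * ∏ z, (E z : ℝ) ≤ Y) :
    (∑ m ∈ Fintype.piFinset (fun _ : D.V => Finset.Icc 1 ⌊Y⌋₊),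
      ∑ E ∈ Fintype.piFinset (fun _ : D.Z => Finset.Icc 1 ⌊Y⌋₊), if c m E then F m E else 0) =
    ∑ m ∈ Fintype.piFinset (fun _ : D.V => Finset.Icc 1 ⌊Y0⌋₊),
      ∑ E ∈ Fintype.piFinset (fun _ : D.Z => Finset.Icc 1 ⌊Y0⌋₊), if c m E then F m E else 0 := by
  have hf : ⌊Y⌋₊ ≤ ⌊Y0⌋₊ := Nat.floor_le_floor h
  have hI : Finset.Icc 1 ⌊Y⌋₊ ⊆ Finset.Icc 1 ⌊Y0⌋₊ := Finset.Icc_subset_Icc_right hf
  have s1 : Fintype.piFinset (fun _ : D.V => Finset.Icc 1 ⌊Y⌋₊) ⊆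
      Fintype.piFinset (fun _ : D.V => Finset.Icc 1 ⌊Y0⌋₊) :=
    Fintype.piFinset_subset _ _ fun _ => hI
  have s2 : Fintype.piFinset (fun _ : D.Z => Finset.Icc 1 ⌊Y⌋₊) ⊆
      Fintype.piFinset (fun _ : D.Z => Finset.Icc 1 ⌊Y0⌋₊) :=
    Fintype.piFinset_subset _ _ fun _ => hI
  have key : ∀ m ∈ Fintype.piFinset (fun _ : D.V => Finset.Icc 1 ⌊Y0⌋₊),
      ∀ E ∈ Fintype.piFinset (fun _ : D.Z => Finset.Icc 1 ⌊Y0⌋₊), c m E →
      m ∈ Fintype.piFinset (fun _ : D.V => Finset.Icc 1 ⌊Y⌋₊) ∧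
      E ∈ Fintype.piFinset (fun _ : D.Z => Finset.Icc 1 ⌊Y⌋₊) := by
    intro m hm E hE hcE
    simp only [Fintype.mem_piFinset, Finset.mem_Icc] at hm hE ⊢
    obtain ⟨h1, h2⟩ := m11_le D m E (fun v => (hm v).1) (fun v => (hE v).1) (hc m E hcE)
    exact ⟨fun v => ⟨(hm v).1, h1 v⟩, fun v => ⟨(hE v).1, h2 v⟩⟩
  have st1 : ∀ m ∈ Fintype.piFinset (fun _ : D.V => Finset.Icc 1 ⌊Y0⌋₊),
      (∑ E ∈ Fintype.piFinset (fun _ : D.Z => Finset.Icc 1 ⌊Y⌋₊), if c m E then F m E else 0) =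
      ∑ E ∈ Fintype.piFinset (fun _ : D.Z => Finset.Icc 1 ⌊Y0⌋₊),
        if c m E then F m E else 0 := by
    intro m hm
    refine Finset.sum_subset s2 fun E hE hE' => ?_
    rw [if_neg]
    intro hcE
    exact hE' (key m hm E hE hcE).2
  rw [Finset.sum_congr rfl fun m hm => st1 m (s1 hm)]
  refine Finset.sum_subset s1 fun m hm hm' => ?_
  refine Finset.sum_eq_zero fun E hE => ?_
  rw [if_neg]
  intro hcE
  exact hm' (key m hm E hE hcE).1

open Classical in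
theorem count_sum (D : Dat) (cx : (ℕ →₀ D.V) → D.Z → D.Z → ℕ) (T : ℕ)
    (W : D.V → D.V → (D.V → ZMod 8) → ℕ → ℕ)
    (h : ∀ x : ℕ →₀ D.V, adm x → Sol D x → (∀ z1 z2, cx x z1 z2 ≤ T) ∧
        ∀ t, Nat.card {z : D.Z × D.Z // cx x z.1 z.2 = t} =
          W (x 1) (x 2) (fun v => (mfun x v : ZMod 8)) t) (X : ℝ) (hX : 1 ≤ X) :
    (Nat.card {w : (ℕ →₀ D.V) × (ℕ →₀ D.Z) // adm w.1 ∧ adm w.2 ∧ Sol D w.1 ∧
        Submodule.span (ZMod 2) (Set.range w.1) = ⊤ ∧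
        ((2 ^ cx w.1 (w.2 1) (w.2 2) * szN D w.1 w.2 : ℕ) : ℝ) ≤ X} : ℝ) =
      ∑ t ∈ Finset.range (T + 1),
        D.S (fun a b δ Q => if D.Span a b Q ∧ D.q (D.vinf a δ) = 0 then (W a b δ t : ℝ) else 0)
          (X ^ (2 / D.n : ℝ) * 2 ^ (-(2 * t / D.n) : ℝ)) := by
  have hX0 : (0:ℝ) ≤ X := by linarith
  set Y0 : ℝ := X ^ (2 / D.n : ℝ) with hY0
  have hY00 : 0 ≤ Y0 := by positivity
  have hY : ∀ t : ℕ, Y0 * (2:ℝ) ^ (-(2 * t / D.n) : ℝ) ≤ Y0 := by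
    intro t
    apply mul_le_of_le_one_right hY00
    apply Real.rpow_le_one_of_one_le_of_nonpos (by norm_num)
    have := m11_n_pos D
    rw [neg_nonpos]
    positivity
  set PM := Fintype.piFinset (fun _ : D.V => Finset.Icc 1 ⌊Y0⌋₊) with hPM
  set PE := Fintype.piFinset (fun _ : D.Z => Finset.Icc 1 ⌊Y0⌋₊) with hPE
  -- the right hand side
  have hR : ∀ t : ℕ, D.S (fun a b δ Q => if D.Span a b Q ∧ D.q (D.vinf a δ) = 0 then
      (W a b δ t : ℝ) else 0) (Y0 * (2:ℝ) ^ (-(2 * t / D.n) : ℝ)) =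
      ∑ a : D.V, ∑ b : D.V, ∑ m ∈ PM, ∑ E ∈ PE,
        if m 0 = 1 ∧ E 0 = 1 ∧ Squarefree (2 * (∏ v, m v) * ∏ z, E z) ∧
          (∏ v, (m v : ℝ) ^ D.wt v) * ∏ z, (E z : ℝ) ≤ Y0 * (2:ℝ) ^ (-(2 * t / D.n) : ℝ)
        then (D.g a b m : ℝ) *
          (if D.Span a b (Finset.univ.filter fun v => m v ≠ 1) ∧
            D.q (D.vinf a (fun v => (m v : ZMod 8))) = 0
          then (W a b (fun v => (m v : ZMod 8)) t : ℝ) else 0)
        else 0 := by
    intro t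
    unfold Dat.S
    refine Finset.sum_congr rfl fun a _ => Finset.sum_congr rfl fun b _ => ?_
    exact m11_box D (fun m _ => (D.g a b m : ℝ) *
      (if D.Span a b (Finset.univ.filter fun v => m v ≠ 1) ∧
        D.q (D.vinf a (fun v => (m v : ZMod 8))) = 0
      then (W a b (fun v => (m v : ZMod 8)) t : ℝ) else 0)) _ _ (hY t)
      (fun m E => m 0 = 1 ∧ E 0 = 1 ∧ Squarefree (2 * (∏ v, m v) * ∏ z, E z) ∧
        (∏ v, (m v : ℝ) ^ D.wt v) * ∏ z, (E z : ℝ) ≤ Y0 * (2:ℝ) ^ (-(2 * t / D.n) : ℝ))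
      fun m E hc => hc.2.2.2
  rw [Finset.sum_congr rfl fun t _ => hR t]
  -- the left hand side
  have hfin : ∀ i, Finite {w : {w // m11P D cx X w} // m11F D w.1 = i} := by
    rintro ⟨a, b, m, E, z1, z2⟩
    by_cases hg : m 0 = 1 ∧ E 0 = 1 ∧ Squarefree (2 * (∏ v, m v) * ∏ z, E z)
    · obtain ⟨hm0, hE0, hsq⟩ := hg
      obtain ⟨x0, ⟨hx0, rfl, rfl, hm⟩, hun⟩ := exists_x D a b m hm0 (Squarefree.of_mul_left hsq)
      have hfib := m11_fibre D cx X m E z1 z2 x0 hx0 hm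
        (fun x h1 h2 h3 h4 => hun x ⟨h1, h2, h3, h4⟩) hE0 hsq
      by_cases hne : Nonempty {w : {w // m11P D cx X w} // m11F D w.1 = (x0 1, x0 2, m, E, z1, z2)}
      · obtain ⟨w⟩ := hne
        apply Nat.finite_of_card_ne_zero
        rw [hfib, if_pos]
        · positivity
        · obtain ⟨⟨w, p1, p2, p3, p4, p5⟩, hw⟩ := w
          simp only [m11F, Prod.mk.injEq] at hw
          obtain ⟨h1, h2, h3, h4, h5, h6⟩ := hw
          have hx : w.1 = x0 := hun w.1 ⟨p1, h1, h2, h3⟩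
          rw [hx] at p3 p4 p5 h4
          refine ⟨p3, p4, ?_⟩
          rw [h5, h6] at p5
          have e : szN D x0 w.2 = m11A D m E := by
            unfold szN m11A
            rw [hm, h4]
          rwa [e] at p5
      · rw [not_nonempty_iff] at hne
        infer_instance
    · have := m11_empty D cx X a b m E z1 z2 hg
      infer_instance
  have hmem : ∀ w : {w // m11P D cx X w}, m11F D w.1 ∈
      (Finset.univ : Finset D.V) ×ˢ (Finset.univ : Finset D.V) ×ˢ PM ×ˢ PE ×ˢ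
        (Finset.univ : Finset D.Z) ×ˢ (Finset.univ : Finset D.Z) := by
    rintro ⟨w, p1, p2, p3, p4, p5⟩
    obtain ⟨e1, e2⟩ := efun_spec D w.1 p1 w.2 p2
    have hne := e2.ne_zero
    have hm1 : ∀ v, 1 ≤ mfun w.1 v := by
      intro v
      apply Nat.one_le_iff_ne_zero.2
      intro h0
      apply hne
      rw [Finset.prod_eq_zero (Finset.mem_univ v) h0]
      simp
    have hE1 : ∀ v, 1 ≤ efun w.1 w.2 v := by
      intro v
      apply Nat.one_le_iff_ne_zero.2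
      intro h0
      apply hne
      rw [Finset.prod_eq_zero (Finset.mem_univ v) h0, mul_zero]
    have hsz : ((2 ^ 0 * m11A D (mfun w.1) (efun w.1 w.2) : ℕ) : ℝ) ≤ X := by
      refine le_trans ?_ p5
      have : 2 ^ 0 * m11A D (mfun w.1) (efun w.1 w.2) ≤
          2 ^ cx w.1 (w.2 1) (w.2 2) * szN D w.1 w.2 := by
        apply Nat.mul_le_mul
        · rw [pow_zero]
          exact Nat.one_le_two_pow
        · exact le_rfl
      exact_mod_cast this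
    have h1 := (m11_size D (mfun w.1) (efun w.1 w.2) 0 hX).1 hsz
    obtain ⟨h2, h3⟩ := m11_le D _ _ hm1 hE1 (h1.trans (hY 0))
    simp only [m11F, Finset.mem_product, Finset.mem_univ, true_and, and_true, hPM, hPE,
      Fintype.mem_piFinset, Finset.mem_Icc]
    exact ⟨fun v => ⟨hm1 v, h2 v⟩, fun v => ⟨hE1 v, h3 v⟩⟩
  have hL : (Nat.card {w // m11P D cx X w} : ℝ) = ∑ a : D.V, ∑ b : D.V, ∑ m ∈ PM, ∑ E ∈ PE,
      ∑ z1 : D.Z, ∑ z2 : D.Z,
      (Nat.card {w : {w // m11P D cx X w} // m11F D w.1 = (a, b, m, E, z1, z2)} : ℝ) := by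
    rw [m11_fib (fun w : {w // m11P D cx X w} => m11F D w.1) _ hmem fun i _ => hfin i]
    push_cast
    simp only [Finset.sum_product]
  have hL2 : (Nat.card {w : (ℕ →₀ D.V) × (ℕ →₀ D.Z) // adm w.1 ∧ adm w.2 ∧ Sol D w.1 ∧
        Submodule.span (ZMod 2) (Set.range w.1) = ⊤ ∧
        ((2 ^ cx w.1 (w.2 1) (w.2 2) * szN D w.1 w.2 : ℕ) : ℝ) ≤ X} : ℝ) =
      (Nat.card {w // m11P D cx X w} : ℝ) := rfl
  rw [hL2, hL]
  simp only [m11_main D cx T W h X hX]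
  have hsw : ∀ F : ℕ → D.V → D.V → (D.V → ℕ) → (D.Z → ℕ) → ℝ,
      ∑ a : D.V, ∑ b : D.V, ∑ m ∈ PM, ∑ E ∈ PE, ∑ t ∈ Finset.range (T + 1), F t a b m E =
      ∑ t ∈ Finset.range (T + 1), ∑ a : D.V, ∑ b : D.V, ∑ m ∈ PM, ∑ E ∈ PE, F t a b m E := by
    intro F
    have g1 : ∀ a b m, ∑ E ∈ PE, ∑ t ∈ Finset.range (T + 1), F t a b m E =
        ∑ t ∈ Finset.range (T + 1), ∑ E ∈ PE, F t a b m E := fun a b m => Finset.sum_comm
    simp only [g1]
    have g2 : ∀ a b, ∑ m ∈ PM, ∑ t ∈ Finset.range (T + 1), ∑ E ∈ PE, F t a b m E =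
        ∑ t ∈ Finset.range (T + 1), ∑ m ∈ PM, ∑ E ∈ PE, F t a b m E :=
      fun a b => Finset.sum_comm
    simp only [g2]
    have g3 : ∀ a, ∑ b : D.V, ∑ t ∈ Finset.range (T + 1), ∑ m ∈ PM, ∑ E ∈ PE, F t a b m E =
        ∑ t ∈ Finset.range (T + 1), ∑ b : D.V, ∑ m ∈ PM, ∑ E ∈ PE, F t a b m E :=
      fun a => Finset.sum_comm
    simp only [g3]
    exact Finset.sum_comm
  exact hsw _

end Pool.Agent.H98.MK
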