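import Pool.Agent.H98.MK.MDefs

/-!
# Project MK (MP_a3214d), row M10: the number of parameters `z` with given `E` (helper26)
-/

set_option autoImplicit false

open scoped BigOperators

namespace Pool.Agent.H98.MK

open Classical in
/-- the odd primes of `x` -/
private noncomputable def zc_P {W : Type} [Zero W] (x : ℕ →₀ W) : Finset ℕ :=
  x.support.filter (fun p => p ≠ 1 ∧ p ≠ 2)

private theorem zc_mem {W : Type} [Zero W] {x : ℕ →₀ W} {p : ℕ} :
    p ∈ zc_P x ↔ x p ≠ 0 ∧ p ≠ 1 ∧ p ≠ 2 := by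
  unfold zc_P
  rw [Finset.mem_filter, Finsupp.mem_support_iff]

private theorem zc_prime {W : Type} [Zero W] {x : ℕ →₀ W} (hx : adm x) {p : ℕ}
    (hp : p ∈ zc_P x) : p.Prime := by
  rw [zc_mem] at hp
  rcases hx p hp.1 with h | h
  · exact absurd h hp.2.1
  · exact h

private theorem zc_mfun {W : Type} [Zero W] (x : ℕ →₀ W) (v : W) (S : Finset ℕ)
    (hS : ∀ p, p ∈ S ↔ x p ≠ 0 ∧ p ≠ 1 ∧ p ≠ 2 ∧ x p = v) : mfun x v = ∏ p ∈ S, p := by
  classical
  unfold mfun
  refine Finset.prod_congr ?_ fun _ _ => rfl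
  ext p
  rw [Finset.mem_filter, hS, Finsupp.mem_support_iff]

private theorem zc_efun {V Z : Type} [Zero V] [Zero Z] (x : ℕ →₀ V) (z : ℕ →₀ Z) (ζ : Z)
    (S : Finset ℕ) (hS : ∀ p, p ∈ S ↔ z p ≠ 0 ∧ p ≠ 1 ∧ p ≠ 2 ∧ x p = 0 ∧ z p = ζ) :
    efun x z ζ = ∏ p ∈ S, p := by
  classical
  unfold efun
  refine Finset.prod_congr ?_ fun _ _ => rfl
  ext p
  rw [Finset.mem_filter, hS, Finsupp.mem_support_iff]

private theorem zc_prod {D : Dat} (x : ℕ →₀ D.V) : ∏ v : D.V, mfun x v = ∏ p ∈ zc_P x, p := by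
  classical
  rw [← Finset.prod_fiberwise (zc_P x) (fun p => x p) (fun p => p)]
  refine Finset.prod_congr rfl fun v _ => zc_mfun x v _ fun p => ?_
  rw [Finset.mem_filter, zc_mem]
  tauto

private theorem zc_pf {D : Dat} {x : ℕ →₀ D.V} (hx : adm x) :
    (∏ v : D.V, mfun x v).primeFactors = zc_P x := by
  rw [zc_prod]
  exact Nat.primeFactors_prod fun p hp => zc_prime hx hp

/-- divisors of the products -/
private theorem zc_dvd {V Z : Type} [Zero V] [Zero Z] {x : ℕ →₀ V} {z : ℕ →₀ Z} (hz : adm z)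
    {ζ : Z} {p : ℕ} (hp : p.Prime) (h2 : p ≠ 2) (hxp : x p = 0) (hζ : ζ ≠ 0) :
    p ∣ efun x z ζ ↔ z p = ζ := by
  classical
  unfold efun
  constructor
  · intro h
    obtain ⟨q, hq, hpq⟩ := (Prime.dvd_finsetProd_iff hp.prime _).1 h
    rw [Finset.mem_filter, Finsupp.mem_support_iff] at hq
    have hqp : q.Prime := by
      rcases hz q hq.1 with h' | h'
      · exact absurd h' hq.2.1
      · exact h'
    have : p = q := (Nat.prime_dvd_prime_iff_eq hp hqp).1 hpq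
    rw [this]
    exact hq.2.2.2.2
  · intro h
    apply Finset.dvd_prod_of_mem (fun q => q)
    rw [Finset.mem_filter, Finsupp.mem_support_iff]
    exact ⟨by rw [h]; exact hζ, hp.one_lt.ne', h2, hxp, h⟩

theorem z_count (D : Dat) (x : ℕ →₀ D.V) (hx : adm x) (E : D.Z → ℕ) (h0 : E 0 = 1)
    (hm : Squarefree (2 * (∏ v : D.V, mfun x v) * ∏ ζ, E ζ)) (z1 z2 : D.Z) :
    Nat.card {z : ℕ →₀ D.Z // adm z ∧ z 1 = z1 ∧ z 2 = z2 ∧ efun x z = E} =
      (2 ^ D.s) ^ (∏ v : D.V, mfun x v).primeFactors.card := by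
  classical
  have hEd : ∀ ζ, E ζ ∣ ∏ ζ, E ζ := fun ζ => Finset.dvd_prod_of_mem E (Finset.mem_univ ζ)
  have hsq : ∀ ζ, Squarefree (E ζ) := fun ζ =>
    hm.squarefree_of_dvd ((hEd ζ).trans (dvd_mul_left _ _))
  have hne : ∀ p : ℕ, p.Prime → p ∣ 2 * (∏ v : D.V, mfun x v) → ∀ ζ, ¬ p ∣ E ζ := by
    intro p hp h1 ζ h2
    have h3 : p * p ∣ 2 * (∏ v : D.V, mfun x v) * ∏ ζ, E ζ :=
      mul_dvd_mul h1 (h2.trans (hEd ζ))
    exact hp.one_lt.ne' (Nat.isUnit_iff.1 (hm p h3))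
  have huniq : ∀ p : ℕ, p.Prime → ∀ ζ ζ', p ∣ E ζ → p ∣ E ζ' → ζ = ζ' := by
    intro p hp ζ ζ' h1 h2
    by_contra hcon
    have h3 : E ζ * E ζ' ∣ ∏ ζ, E ζ := by
      rw [← Finset.mul_prod_erase Finset.univ E (Finset.mem_univ ζ)]
      exact mul_dvd_mul dvd_rfl (Finset.dvd_prod_of_mem E
        (Finset.mem_erase.2 ⟨fun h => hcon h.symm, Finset.mem_univ _⟩))
    have h4 : p * p ∣ 2 * (∏ v : D.V, mfun x v) * ∏ ζ, E ζ :=
      ((mul_dvd_mul h1 h2).trans h3).trans (dvd_mul_left _ _)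
    exact hp.one_lt.ne' (Nat.isUnit_iff.1 (hm p h4))
  have hE2 : ∀ ζ, ¬ 2 ∣ E ζ := hne 2 Nat.prime_two (dvd_mul_right _ _)
  have hEx : ∀ p : ℕ, p.Prime → ∀ ζ, p ∣ E ζ → x p = 0 := by
    intro p hp ζ h1
    by_contra hcon
    have hp2 : p ≠ 2 := fun h => hE2 ζ (h ▸ h1)
    refine hne p hp (Dvd.dvd.mul_left ?_ 2) ζ h1
    rw [zc_prod]
    exact Finset.dvd_prod_of_mem (fun q => q) (zc_mem.2 ⟨hcon, hp.one_lt.ne', hp2⟩)
  -- the value at the primes which divide the `E ζ`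
  set w : ℕ → D.Z := fun p => if h : ∃ ζ, p ∣ E ζ then h.choose else 0 with hw
  have hw1 : ∀ p : ℕ, p.Prime → ∀ ζ, p ∣ E ζ → w p = ζ := by
    intro p hp ζ h1
    have h2 : ∃ ζ, p ∣ E ζ := ⟨ζ, h1⟩
    simp only [hw, dif_pos h2]
    exact huniq p hp _ _ h2.choose_spec h1
  have hw2 : ∀ p : ℕ, w p ≠ 0 → p ∣ E (w p) := by
    intro p h1
    by_cases h2 : ∃ ζ, p ∣ E ζ
    · simp only [hw, dif_pos h2]
      exact h2.choose_spec
    · exact absurd (by simp only [hw, dif_neg h2]) h1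
  -- the inverse map
  set F : (zc_P x → D.Z) → ℕ → D.Z := fun φ i => if i = 1 then z1 else if i = 2 then z2 else
    if h : i ∈ zc_P x then φ ⟨i, h⟩ else if i.Prime then w i else 0 with hF
  have hsupp : ∀ φ i, F φ i ≠ 0 → i ∈ ({1, 2} ∪ zc_P x ∪ (∏ ζ, E ζ).primeFactors : Finset ℕ) := by
    intro φ i hi
    by_contra hcon
    simp only [Finset.mem_union, Finset.mem_insert, Finset.mem_singleton, not_or] at hcon
    obtain ⟨⟨⟨h1, h2⟩, h3⟩, h4⟩ := hcon
    apply hi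
    simp only [hF, if_neg h1, if_neg h2, dif_neg h3]
    split_ifs with h5
    · by_contra h6
      apply h4
      rw [Nat.mem_primeFactors]
      exact ⟨h5, (hw2 i h6).trans (hEd _), (hm.squarefree_of_dvd (dvd_mul_left _ _)).ne_zero⟩
    · rfl
  set z : (zc_P x → D.Z) → ℕ →₀ D.Z := fun φ => Finsupp.onFinset _ (F φ) (hsupp φ) with hz
  have hzF : ∀ φ i, z φ i = F φ i := fun φ i => rfl
  have hz1 : ∀ φ, z φ 1 = z1 := fun φ => by rw [hzF]; simp only [hF, if_true]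
  have hz2 : ∀ φ, z φ 2 = z2 := fun φ => by
    rw [hzF]
    simp only [hF, if_true]
    rw [if_neg (by decide)]
  have hadm : ∀ φ, adm (z φ) := by
    intro φ i hi
    rw [hzF] at hi
    by_cases h1 : i = 1
    · exact Or.inl h1
    · refine Or.inr ?_
      by_cases h2 : i = 2
      · rw [h2]; exact Nat.prime_two
      · by_cases h3 : i ∈ zc_P x
        · exact zc_prime hx h3
        · by_contra h4
          apply hi
          simp only [hF, if_neg h1, if_neg h2, dif_neg h3, if_neg h4]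
  have hzP : ∀ φ i (h : i ∈ zc_P x), z φ i = φ ⟨i, h⟩ := by
    intro φ i h
    have h' := zc_mem.1 h
    rw [hzF]
    simp only [hF, if_neg h'.2.1, if_neg h'.2.2, dif_pos h]
  have hzw : ∀ φ (i : ℕ), i.Prime → i ≠ 2 → x i = 0 → z φ i = w i := by
    intro φ i h1 h2 h3
    rw [hzF]
    have h4 : i ∉ zc_P x := fun h => (zc_mem.1 h).1 h3
    simp only [hF, if_neg h1.one_lt.ne', if_neg h2, dif_neg h4, if_pos h1]
  have hefun : ∀ φ, efun x (z φ) = E := by
    intro φ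
    funext ζ
    by_cases hζ : ζ = 0
    · rw [hζ, h0]
      rw [zc_efun x (z φ) 0 ∅ fun p => ?_, Finset.prod_empty]
      simp only [Finset.notMem_empty, false_iff, not_and]
      exact fun h1 _ _ _ h2 => h1 h2
    · rw [← Nat.prod_primeFactors_of_squarefree (hsq ζ)]
      refine zc_efun x (z φ) ζ _ fun p => ?_
      rw [Nat.mem_primeFactors]
      symm
      constructor
      · rintro ⟨h1, h2, h3, h4, h5⟩
        have hp : p.Prime := by
          rcases hadm φ p h1 with h | h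
          · exact absurd h h2
          · exact h
        have h6 := hzw φ p hp h3 h4
        have h7 : w p = ζ := by rw [← h6, h5]
        refine ⟨hp, ?_, (hsq ζ).ne_zero⟩
        rw [← h7]
        exact hw2 p (by rw [h7]; exact hζ)
      · rintro ⟨hp, h1, -⟩
        have hp2 : p ≠ 2 := fun h => hE2 ζ (h ▸ h1)
        have hxp := hEx p hp ζ h1
        have h6 := hzw φ p hp hp2 hxp
        rw [hw1 p hp ζ h1] at h6
        exact ⟨by rw [h6]; exact hζ, hp.one_lt.ne', hp2, hxp, h6⟩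
  -- the equivalence
  have hcard : Nat.card {z : ℕ →₀ D.Z // adm z ∧ z 1 = z1 ∧ z 2 = z2 ∧ efun x z = E} =
      Nat.card (zc_P x → D.Z) := by
    refine Nat.card_congr (Equiv.ofBijective (fun z p => z.1 p.1) ⟨?_, ?_⟩)
    · rintro ⟨y, hy, hy1, hy2, hyE⟩ ⟨y', hy', hy1', hy2', hyE'⟩ h
      apply Subtype.ext
      ext1 i
      show y i = y' i
      by_cases hi : y i = 0 ∧ y' i = 0
      · rw [hi.1, hi.2]
      have hip : i = 1 ∨ i.Prime := by
        rcases not_and_or.1 hi with h1 | h1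
        · exact hy i h1
        · exact hy' i h1
      rcases hip with h1 | hip
      · rw [h1, hy1, hy1']
      by_cases h2 : i = 2
      · rw [h2, hy2, hy2']
      by_cases h3 : x i = 0
      · rcases not_and_or.1 hi with h4 | h4
        · have h5 := (zc_dvd (x := x) hy hip h2 h3 h4).2 rfl
          rw [hyE, ← hyE'] at h5
          exact ((zc_dvd (x := x) hy' hip h2 h3 h4).1 h5).symm
        · have h5 := (zc_dvd (x := x) hy' hip h2 h3 h4).2 rfl
          rw [hyE', ← hyE] at h5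
          exact (zc_dvd (x := x) hy hip h2 h3 h4).1 h5
      · have h4 : i ∈ zc_P x := zc_mem.2 ⟨h3, hip.one_lt.ne', h2⟩
        exact congrFun h ⟨i, h4⟩
    · intro φ
      refine ⟨⟨z φ, hadm φ, hz1 φ, hz2 φ, hefun φ⟩, ?_⟩
      funext p
      exact hzP φ p.1 p.2
  rw [hcard, zc_pf hx, Nat.card_fun, Nat.card_eq_fintype_card, Nat.card_eq_fintype_card]
  simp [ZMod.card]

end Pool.Agent.H98.MK
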