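import Pool.Agent.H98.MK.SolIff
import Pool.Agent.H98.MK.ZCount

/-!
# Project MK (MP_a3214d), row M11: size, fibres of the coordinates (helper90)
-/

set_option autoImplicit false

open scoped BigOperators

namespace Pool.Agent.H98.MK

/-! ### the size -/

theorem m11_two (m : ℕ) (hm : 1 ≤ m) : 2 ∣ 2 ^ m := dvd_pow_self 2 (by omega)

theorem m11_n_pos (D : Dat) : (0 : ℝ) < D.n := by
  unfold Dat.n
  positivity

theorem m11_half (D : Dat) : ((D.n / 2 : ℕ) : ℝ) = (D.n : ℝ) / 2 := by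
  have h : 2 ∣ D.n := dvd_pow_self 2 (by have := D.pos; omega)
  rw [Nat.cast_div h (by norm_num)]
  norm_num

theorem m11_wt (D : Dat) (v : D.V) : ((wtN D v : ℕ) : ℝ) = D.wt v * ((D.n : ℝ) / 2) := by
  unfold wtN Dat.wt
  by_cases hq : D.q v = 0
  · rw [if_pos hq, if_pos hq, one_mul]
    exact m11_half D
  · rw [if_neg hq, if_neg hq]
    have hs : D.s ≠ 0 := by
      intro h0
      apply hq
      funext i
      exact absurd i.2 (by omega)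
    have h4 : 4 ∣ D.n := by
      have : 2 ^ 2 ∣ D.n := pow_dvd_pow 2 (by have := D.pos; omega)
      simpa using this
    have h3 : 4 ∣ 3 * D.n := Dvd.dvd.mul_left h4 3
    rw [Nat.cast_div h3 (by norm_num)]
    push_cast
    ring

theorem m11_size (D : Dat) (m : D.V → ℕ) (E : D.Z → ℕ) (t : ℕ) {X : ℝ} (hX : 1 ≤ X) :
    (((2 ^ t * ((∏ v : D.V, m v ^ wtN D v) * ∏ ζ : D.Z, E ζ ^ (D.n / 2)) : ℕ) : ℝ) ≤ X) ↔
      (∏ v, (m v : ℝ) ^ D.wt v) * ∏ z, (E z : ℝ) ≤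
        X ^ (2 / D.n : ℝ) * 2 ^ (-(2 * t / D.n) : ℝ) := by
  have hn := m11_n_pos D
  have hX0 : 0 < X := by linarith
  have hn2 : (0:ℝ) < (D.n : ℝ) / 2 := by positivity
  set P : ℝ := (∏ v, (m v : ℝ) ^ D.wt v) * ∏ z, (E z : ℝ) with hP
  have hP0 : 0 ≤ P := by
    apply mul_nonneg
    · exact Finset.prod_nonneg fun v _ => Real.rpow_nonneg (Nat.cast_nonneg _) _
    · exact Finset.prod_nonneg fun v _ => Nat.cast_nonneg _
  have hY0 : 0 ≤ X ^ (2 / D.n : ℝ) * (2:ℝ) ^ (-(2 * t / D.n) : ℝ) := by positivity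
  rw [← Real.rpow_le_rpow_iff hP0 hY0 hn2]
  have e1 : (X ^ (2 / D.n : ℝ) * (2:ℝ) ^ (-(2 * t / D.n) : ℝ)) ^ ((D.n : ℝ) / 2) =
      X * ((2:ℝ) ^ t)⁻¹ := by
    rw [Real.mul_rpow (by positivity) (by positivity), ← Real.rpow_mul hX0.le,
      ← Real.rpow_mul (by norm_num)]
    have e2 : (2 / D.n : ℝ) * ((D.n : ℝ) / 2) = 1 := by field_simp
    have e3 : (-(2 * t / D.n) : ℝ) * ((D.n : ℝ) / 2) = -(t : ℝ) := by field_simp
    rw [e2, e3, Real.rpow_one, Real.rpow_neg (by norm_num), Real.rpow_natCast]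
  have e4 : P ^ ((D.n : ℝ) / 2) =
      ((((∏ v : D.V, m v ^ wtN D v) * ∏ ζ : D.Z, E ζ ^ (D.n / 2)) : ℕ) : ℝ) := by
    rw [hP, Real.mul_rpow (Finset.prod_nonneg fun v _ => Real.rpow_nonneg (Nat.cast_nonneg _) _)
      (Finset.prod_nonneg fun v _ => Nat.cast_nonneg _)]
    push_cast
    rw [← Real.finsetProd_rpow _ _ (fun v _ => Real.rpow_nonneg (Nat.cast_nonneg _) _),
      ← Real.finsetProd_rpow _ _ (fun v _ => Nat.cast_nonneg _)]
    congr 1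
    · apply Finset.prod_congr rfl
      intro v _
      rw [← Real.rpow_mul (Nat.cast_nonneg _), ← m11_wt, Real.rpow_natCast]
    · apply Finset.prod_congr rfl
      intro v _
      rw [← m11_half, Real.rpow_natCast]
  rw [e1, e4]
  have h2 : (0:ℝ) < 2 ^ t := by positivity
  rw [← div_eq_mul_inv, le_div_iff₀ h2, mul_comm]
  push_cast
  rfl

theorem m11_one_le {ι : Type} (s : Finset ι) (f : ι → ℝ) (h : ∀ i, 1 ≤ f i) :
    1 ≤ ∏ i ∈ s, f i := by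
  calc (1:ℝ) = ∏ i ∈ s, (1:ℝ) := by rw [Finset.prod_const_one]
    _ ≤ _ := Finset.prod_le_prod (fun _ _ => zero_le_one) fun i _ => h i

theorem m11_single_le {ι : Type} (s : Finset ι) (f : ι → ℝ) (h : ∀ i, 1 ≤ f i) {j : ι}
    (hj : j ∈ s) : f j ≤ ∏ i ∈ s, f i := by
  classical
  rw [← Finset.mul_prod_erase s f hj]
  exact le_mul_of_one_le_right (by linarith [h j]) (m11_one_le _ f h)

/-- the variables are bounded by the size -/
theorem m11_le (D : Dat) (m : D.V → ℕ) (E : D.Z → ℕ) (hm : ∀ v, 1 ≤ m v)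
    (hE : ∀ v, 1 ≤ E v) {Y : ℝ}
    (h : (∏ v, (m v : ℝ) ^ D.wt v) * ∏ z, (E z : ℝ) ≤ Y) :
    (∀ v, m v ≤ ⌊Y⌋₊) ∧ ∀ v, E v ≤ ⌊Y⌋₊ := by
  have hw : ∀ v, 1 ≤ D.wt v := by
    intro v
    unfold Dat.wt
    split_ifs <;> norm_num
  have h1 : ∀ v, 1 ≤ (m v : ℝ) := fun v => by exact_mod_cast hm v
  have h2 : ∀ v, 1 ≤ (E v : ℝ) := fun v => by exact_mod_cast hE v
  have h3 : ∀ v, (m v : ℝ) ≤ (m v : ℝ) ^ D.wt v := by
    intro v
    calc (m v : ℝ) = (m v : ℝ) ^ (1:ℝ) := (Real.rpow_one _).symm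
      _ ≤ _ := Real.rpow_le_rpow_of_exponent_le (h1 v) (hw v)
  have h4 : ∀ v, 1 ≤ (m v : ℝ) ^ D.wt v := fun v => (h1 v).trans (h3 v)
  have h5 : 1 ≤ ∏ v, (m v : ℝ) ^ D.wt v := m11_one_le _ _ h4
  have h6 : 1 ≤ ∏ z, (E z : ℝ) := m11_one_le _ _ h2
  constructor
  · intro v
    apply Nat.le_floor
    calc (m v : ℝ) ≤ (m v : ℝ) ^ D.wt v := h3 v
      _ ≤ ∏ v, (m v : ℝ) ^ D.wt v := m11_single_le _ _ h4 (Finset.mem_univ v)
      _ ≤ (∏ v, (m v : ℝ) ^ D.wt v) * ∏ z, (E z : ℝ) := le_mul_of_one_le_right (by linarith) h6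
      _ ≤ Y := h
  · intro v
    apply Nat.le_floor
    calc (E v : ℝ) ≤ ∏ v, (E v : ℝ) := m11_single_le _ _ h2 (Finset.mem_univ v)
      _ ≤ (∏ v, (m v : ℝ) ^ D.wt v) * ∏ z, (E z : ℝ) := le_mul_of_one_le_left (by linarith) h5
      _ ≤ Y := h

/-! ### counting by fibres -/

theorem m11_fib {α β : Type} (Φ : α → β) (s : Finset β) (hs : ∀ a, Φ a ∈ s)
    (hf : ∀ b ∈ s, Finite {a // Φ a = b}) :
    Nat.card α = ∑ b ∈ s, Nat.card {a // Φ a = b} := by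
  classical
  have hfin : ∀ b : s, Finite {a // (⟨Φ a, hs a⟩ : s) = b} := by
    intro b
    have := hf b.1 b.2
    refine Finite.of_injective (β := {a // Φ a = b.1})
      (fun a => ⟨a.1, congrArg Subtype.val a.2⟩) ?_
    intro a b h
    have h2 := congrArg Subtype.val h
    exact Subtype.ext h2
  have e : (Σ b : s, {a // (⟨Φ a, hs a⟩ : s) = b}) ≃ α :=
    Equiv.sigmaFiberEquiv (fun a => (⟨Φ a, hs a⟩ : s))
  rw [← Nat.card_congr e, Nat.card_sigma,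
    ← Finset.sum_coe_sort s (fun b => Nat.card {a // Φ a = b})]
  refine Finset.sum_congr rfl fun b _ => Nat.card_congr (Equiv.subtypeEquivRight fun a => ?_)
  exact Subtype.ext_iff

/-- the condition on the parameters -/
def m11P (D : Dat) (cx : (ℕ →₀ D.V) → D.Z → D.Z → ℕ) (X : ℝ)
    (w : (ℕ →₀ D.V) × (ℕ →₀ D.Z)) : Prop :=
  adm w.1 ∧ adm w.2 ∧ Sol D w.1 ∧ Submodule.span (ZMod 2) (Set.range w.1) = ⊤ ∧
    ((2 ^ cx w.1 (w.2 1) (w.2 2) * szN D w.1 w.2 : ℕ) : ℝ) ≤ X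

/-- the coordinates of the parameters -/
noncomputable def m11F (D : Dat) (w : (ℕ →₀ D.V) × (ℕ →₀ D.Z)) :
    D.V × D.V × (D.V → ℕ) × (D.Z → ℕ) × D.Z × D.Z :=
  (w.1 1, w.1 2, mfun w.1, efun w.1 w.2, w.2 1, w.2 2)

/-- the size in terms of the coordinates -/
noncomputable def m11A (D : Dat) (m : D.V → ℕ) (E : D.Z → ℕ) : ℕ :=
  (∏ v : D.V, m v ^ wtN D v) * ∏ ζ : D.Z, E ζ ^ (D.n / 2)

open Classical in
theorem m11_fibre (D : Dat) (cx : (ℕ →₀ D.V) → D.Z → D.Z → ℕ) (X : ℝ)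
    (m : D.V → ℕ) (E : D.Z → ℕ) (z1 z2 : D.Z) (x0 : ℕ →₀ D.V) (hx0 : adm x0)
    (hm : mfun x0 = m)
    (huniq : ∀ x, adm x → x 1 = x0 1 → x 2 = x0 2 → mfun x = m → x = x0)
    (hE0 : E 0 = 1) (hE : Squarefree (2 * (∏ v : D.V, m v) * ∏ ζ, E ζ)) :
    Nat.card {w : {w // m11P D cx X w} // m11F D w.1 = (x0 1, x0 2, m, E, z1, z2)} =
      if Sol D x0 ∧ Submodule.span (ZMod 2) (Set.range x0) = ⊤ ∧
        ((2 ^ cx x0 z1 z2 * m11A D m E : ℕ) : ℝ) ≤ X then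
        (2 ^ D.s) ^ (∏ v : D.V, m v).primeFactors.card else 0 := by
  have key : ∀ w : {w // m11P D cx X w}, m11F D w.1 = (x0 1, x0 2, m, E, z1, z2) →
      w.1.1 = x0 ∧ w.1.2 1 = z1 ∧ w.1.2 2 = z2 ∧ efun x0 w.1.2 = E := by
    intro w hw
    simp only [m11F, Prod.mk.injEq] at hw
    obtain ⟨h1, h2, h3, h4, h5, h6⟩ := hw
    have hx := huniq w.1.1 w.2.1 h1 h2 h3
    refine ⟨hx, h5, h6, ?_⟩
    rw [← hx]
    exact h4
  split_ifs with hc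
  · subst hm
    rw [← z_count D x0 hx0 E hE0 hE z1 z2]
    refine Nat.card_congr ⟨fun w => ⟨w.1.1.2, w.1.2.2.1, (key w.1 w.2).2.1, (key w.1 w.2).2.2.1,
      (key w.1 w.2).2.2.2⟩, fun z => ⟨⟨(x0, z.1), hx0, z.2.1, hc.1, hc.2.1, ?_⟩, ?_⟩, ?_, ?_⟩
    · simp only [szN]
      rw [z.2.2.1, z.2.2.2.1, z.2.2.2.2]
      exact hc.2.2
    · simp only [m11F]
      rw [z.2.2.1, z.2.2.2.1, z.2.2.2.2]
    · intro w
      apply Subtype.ext
      apply Subtype.ext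
      exact Prod.ext (key w.1 w.2).1.symm rfl
    · intro z
      rfl
  · have : IsEmpty {w : {w // m11P D cx X w} // m11F D w.1 = (x0 1, x0 2, m, E, z1, z2)} := by
      constructor
      rintro ⟨w, hw⟩
      apply hc
      obtain ⟨k1, k2, k3, k4⟩ := key w hw
      obtain ⟨p1, p2, p3, p4, p5⟩ := w.2
      rw [k1] at p3 p4 p5
      refine ⟨p3, p4, ?_⟩
      rw [k2, k3] at p5
      have : szN D x0 w.1.2 = m11A D m E := by
        unfold szN m11A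
        rw [hm, k4]
      rwa [this] at p5
    exact Nat.card_of_isEmpty

theorem m11_empty (D : Dat) (cx : (ℕ →₀ D.V) → D.Z → D.Z → ℕ) (X : ℝ)
    (a b : D.V) (m : D.V → ℕ) (E : D.Z → ℕ) (z1 z2 : D.Z)
    (h : ¬ (m 0 = 1 ∧ E 0 = 1 ∧ Squarefree (2 * (∏ v : D.V, m v) * ∏ ζ, E ζ))) :
    IsEmpty {w : {w // m11P D cx X w} // m11F D w.1 = (a, b, m, E, z1, z2)} := by
  constructor
  rintro ⟨w, hw⟩
  apply h
  simp only [m11F, Prod.mk.injEq] at hw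
  obtain ⟨h1, h2, h3, h4, h5, h6⟩ := hw
  have e1 := mfun_spec D w.1.1 w.2.1
  have e2 := efun_spec D w.1.1 w.2.1 w.1.2 w.2.2.1
  rw [h3] at e1
  rw [h3, h4] at e2
  exact ⟨e1.1, e2.1, e2.2⟩

end Pool.Agent.H98.MK
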