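import Pool.Agent.H98.MK.FldBasic

/-!
# Project MK, row S3b: surjections onto `G` and fields with group `G`
-/

set_option autoImplicit false

open scoped BigOperators

namespace Pool.Agent.H98.MK

section

variable {G : Type} [Group G]

private theorem cs_res_surj (M : IntermediateField ℚ Om) [IsGalois ℚ M] :
    Function.Surjective (AlgEquiv.restrictNormalHom M : Gam →* (M ≃ₐ[ℚ] M)) :=
  AlgEquiv.restrictNormalHom_surjective Om

private theorem cs_res_ker (M : IntermediateField ℚ Om) [IsGalois ℚ M] :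
    (AlgEquiv.restrictNormalHom M : Gam →* (M ≃ₐ[ℚ] M)).ker = M.fixingSubgroup := by
  have hc : ∀ (σ : Gam) (x : M), ((AlgEquiv.restrictNormalHom M σ x : M) : Om) = σ (x : Om) :=
    fun σ x => AlgEquiv.restrictNormal_commutes σ M x
  ext σ
  rw [MonoidHom.mem_ker, IntermediateField.mem_fixingSubgroup_iff]
  constructor
  · intro h x hx
    have h1 := hc σ ⟨x, hx⟩
    rw [h] at h1
    exact h1.symm
  · intro h
    apply AlgEquiv.ext
    intro x
    apply Subtype.ext
    rw [hc σ x, h x x.2]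
    rfl

/-- the surjection attached to a field and an isomorphism -/
private noncomputable def csRho (M : IntermediateField ℚ Om) [IsGalois ℚ M]
    (e : (M ≃ₐ[ℚ] M) ≃* G) : Gam →* G :=
  e.toMonoidHom.comp (AlgEquiv.restrictNormalHom M)

private theorem csRho_surj (M : IntermediateField ℚ Om) [IsGalois ℚ M]
    (e : (M ≃ₐ[ℚ] M) ≃* G) : Function.Surjective (csRho M e) :=
  e.surjective.comp (cs_res_surj M)

private theorem csRho_ker (M : IntermediateField ℚ Om) [IsGalois ℚ M]
    (e : (M ≃ₐ[ℚ] M) ≃* G) : (csRho M e).ker = M.fixingSubgroup := by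
  rw [← cs_res_ker M]
  ext σ
  rw [MonoidHom.mem_ker, MonoidHom.mem_ker]
  exact e.map_eq_one_iff

private theorem csRho_fld (M : IntermediateField ℚ Om) [IsGalois ℚ M]
    (e : (M ≃ₐ[ℚ] M) ≃* G) : fld (csRho M e).ker = M := by
  rw [csRho_ker]
  exact InfiniteGalois.fixedField_fixingSubgroup M

private theorem csRho_lc (M : IntermediateField ℚ Om) [IsGalois ℚ M] [FiniteDimensional ℚ M]
    (e : (M ≃ₐ[ℚ] M) ≃* G) : IsLocallyConstant (csRho M e) := by
  apply lc_of_ker_open
  rw [csRho_ker]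
  exact IntermediateField.fixingSubgroup_isOpen M

private theorem csRho_inj (M : IntermediateField ℚ Om) [IsGalois ℚ M]
    {e e' : (M ≃ₐ[ℚ] M) ≃* G} (h : csRho M e = csRho M e') : e = e' := by
  ext x
  obtain ⟨σ, rfl⟩ := cs_res_surj M x
  exact DFunLike.congr_fun h σ

/-- every locally constant surjection is of this form -/
private theorem csRho_exists (ρ : Gam →* G) (hs : Function.Surjective ρ)
    (hl : IsLocallyConstant ρ) : ∃ (M : IntermediateField ℚ Om) (_ : IsGalois ℚ M)
      (_ : FiniteDimensional ℚ M) (e : (M ≃ₐ[ℚ] M) ≃* G), csRho M e = ρ := by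
  have ho := ker_open ρ hl
  obtain ⟨π, hπ, hk, hc⟩ := exists_res ρ.ker ho
  have hg : IsGalois ℚ (fld ρ.ker) := fld_galois ρ.ker ho
  have hfd : FiniteDimensional ℚ (fld ρ.ker) := fld_finite ρ.ker ho
  refine ⟨fld ρ.ker, hg, hfd, ((QuotientGroup.quotientKerEquivOfSurjective π hπ).symm.trans
    (QuotientGroup.quotientMulEquivOfEq hk)).trans
    (QuotientGroup.quotientKerEquivOfSurjective ρ hs), ?_⟩
  ext σ
  have h1 : AlgEquiv.restrictNormalHom (fld ρ.ker) σ = π σ := by
    apply AlgEquiv.ext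
    intro x
    apply Subtype.ext
    rw [hc]
    exact AlgEquiv.restrictNormal_commutes σ (fld ρ.ker) x
  have h2 : (QuotientGroup.quotientKerEquivOfSurjective π hπ).symm (π σ) =
      (QuotientGroup.mk σ : Gam ⧸ π.ker) := by
    rw [MulEquiv.symm_apply_eq]
    rfl
  change QuotientGroup.quotientKerEquivOfSurjective ρ hs (QuotientGroup.quotientMulEquivOfEq hk
    ((QuotientGroup.quotientKerEquivOfSurjective π hπ).symm
      (AlgEquiv.restrictNormalHom (fld ρ.ker) σ))) = ρ σ
  rw [h1, h2]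
  rfl

end

theorem count_surj (G : Type) [Group G] [Finite G] (B : ℝ) :
    Nat.card {ρ : Gam →* G // Function.Surjective ρ ∧ IsLocallyConstant ρ ∧
        (dabs (fld ρ.ker) : ℝ) ≤ B} =
      Nat.card {M : IntermediateField ℚ Om // IsGalois ℚ M ∧ FiniteDimensional ℚ M ∧
        Nonempty ((M ≃ₐ[ℚ] M) ≃* G) ∧ (dabs M : ℝ) ≤ B} * Nat.card (MulAut G) := by
  classical
  let S := {M : IntermediateField ℚ Om // IsGalois ℚ M ∧ FiniteDimensional ℚ M ∧
        Nonempty ((M ≃ₐ[ℚ] M) ≃* G) ∧ (dabs M : ℝ) ≤ B}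
  let T := {ρ : Gam →* G // Function.Surjective ρ ∧ IsLocallyConstant ρ ∧
        (dabs (fld ρ.ker) : ℝ) ≤ B}
  let ψ : S × MulAut G → T := fun x =>
    haveI := x.1.2.1
    haveI := x.1.2.2.1
    ⟨csRho x.1.1 (x.1.2.2.2.1.some.trans x.2), csRho_surj _ _, csRho_lc _ _, by
      rw [csRho_fld]
      exact x.1.2.2.2.2⟩
  have hψ : Function.Bijective ψ := by
    constructor
    · rintro ⟨⟨M, hM⟩, a⟩ ⟨⟨M', hM'⟩, a'⟩ h
      have h1 := congrArg Subtype.val h
      have i1 := hM.1
      have i2 := hM'.1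
      have h2 : M = M' := by
        rw [← csRho_fld M (hM.2.2.1.some.trans a), ← csRho_fld M' (hM'.2.2.1.some.trans a')]
        exact congrArg (fun ρ : Gam →* G => fld ρ.ker) h1
      subst h2
      have h3 := csRho_inj M h1
      have h4 : a = a' := by
        ext x
        obtain ⟨y, rfl⟩ := hM.2.2.1.some.surjective x
        exact DFunLike.congr_fun h3 y
      rw [h4]
    · rintro ⟨ρ, hs, hl, hB⟩
      obtain ⟨M, i1, i2, e, rfl⟩ := csRho_exists ρ hs hl
      have hM : IsGalois ℚ M ∧ FiniteDimensional ℚ M ∧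
          Nonempty ((M ≃ₐ[ℚ] M) ≃* G) ∧ (dabs M : ℝ) ≤ B := by
        rw [csRho_fld] at hB
        exact ⟨i1, i2, ⟨e⟩, hB⟩
      refine ⟨(⟨M, hM⟩, hM.2.2.1.some.symm.trans e), ?_⟩
      apply Subtype.ext
      change csRho M (hM.2.2.1.some.trans (hM.2.2.1.some.symm.trans e)) = csRho M e
      congr 1
      ext x
      simp
  rw [← Nat.card_prod]
  exact (Nat.card_congr (Equiv.ofBijective ψ hψ)).symm

end Pool.Agent.H98.MK
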