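import Mathlib

/-!
# Project MK (MP_a3214d): definitions

Strong Malle over the rationals for groups of class two generated by involutions.
-/

set_option autoImplicit false

open scoped BigOperators

namespace Pool.Agent.H98.MK

/-! ### the groups -/

/-- Coordinates of a group of class at most two generated by involutions: the group law on
pairs is `(v, z) (w, z') = (v + w, z + z' + β v w)`. -/
structure Dat where
  /-- rank of the quotient -/
  r : ℕ
  /-- rank of the centre part -/
  s : ℕ
  /-- the bilinear cocycle -/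
  β : (Fin r → ZMod 2) →ₗ[ZMod 2] (Fin r → ZMod 2) →ₗ[ZMod 2] (Fin s → ZMod 2)
  gen : Submodule.span (ZMod 2) {v : Fin r → ZMod 2 | β v v = 0} = ⊤
  spz : Submodule.span (ZMod 2) (Set.range fun v : Fin r → ZMod 2 => β v v) = ⊤
  pos : 0 < r

namespace Dat

variable (D : Dat)

abbrev V : Type := Fin D.r → ZMod 2

abbrev Z : Type := Fin D.s → ZMod 2

/-- squares -/
def q (v : D.V) : D.Z := D.β v v

/-- commutators -/
def B (v w : D.V) : D.Z := D.β v w + D.β w v

/-- the order of the group -/
def n : ℕ := 2 ^ (D.r + D.s)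

/-- the number of classes of involutions -/
noncomputable def b : ℕ :=
  Nat.card {x : D.V × D.Z // x ≠ 0 ∧ D.q x.1 = 0 ∧ ∀ w : D.V, x.2 ⬝ᵥ D.B x.1 w = 0}

end Dat

/-- the group -/
@[ext] structure Ext (D : Dat) where
  v : D.V
  z : D.Z

namespace Ext

variable {D : Dat}

theorem two_V (v : D.V) : v + v = 0 := by
  funext i
  exact CharTwo.add_self_eq_zero (v i)

theorem two_Z (v : D.Z) : v + v = 0 := by
  funext i
  exact CharTwo.add_self_eq_zero (v i)

instance : Mul (Ext D) := ⟨fun x y => ⟨x.v + y.v, x.z + y.z + D.β x.v y.v⟩⟩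
instance : One (Ext D) := ⟨⟨0, 0⟩⟩
instance : Inv (Ext D) := ⟨fun x => ⟨x.v, x.z + D.β x.v x.v⟩⟩

@[simp] theorem mul_v (x y : Ext D) : (x * y).v = x.v + y.v := rfl
@[simp] theorem mul_z (x y : Ext D) : (x * y).z = x.z + y.z + D.β x.v y.v := rfl
@[simp] theorem one_v : (1 : Ext D).v = 0 := rfl
@[simp] theorem one_z : (1 : Ext D).z = 0 := rfl
@[simp] theorem inv_v (x : Ext D) : (x⁻¹).v = x.v := rfl
@[simp] theorem inv_z (x : Ext D) : (x⁻¹).z = x.z + D.β x.v x.v := rfl

instance : Group (Ext D) :=
  Group.ofLeftAxioms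
    (fun x y z => by
      apply Ext.ext
      · simp [add_assoc]
      · simp only [mul_z, mul_v, map_add, LinearMap.add_apply]
        abel)
    (fun x => by
      apply Ext.ext
      · simp
      · simp)
    (fun x => by
      apply Ext.ext
      · simp only [mul_v, inv_v, one_v]
        exact two_V x.v
      · simp only [mul_z, inv_z, inv_v, one_z]
        have h1 := two_Z x.z
        have h2 := two_Z (D.β x.v x.v)
        calc x.z + D.β x.v x.v + x.z + D.β x.v x.v
            = (x.z + x.z) + (D.β x.v x.v + D.β x.v x.v) := by abel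
          _ = 0 := by rw [h1, h2, add_zero])

/-- coordinates -/
def equivProd : Ext D ≃ D.V × D.Z where
  toFun x := (x.v, x.z)
  invFun y := ⟨y.1, y.2⟩
  left_inv _ := rfl
  right_inv _ := rfl

instance : Finite (Ext D) := Finite.of_equiv _ (equivProd (D := D)).symm

end Ext

/-! ### fields -/

abbrev Om : Type := AlgebraicClosure ℚ

abbrev Gam : Type := Om ≃ₐ[ℚ] Om

open Classical in
/-- absolute value of the discriminant -/
noncomputable def dabs (K : IntermediateField ℚ Om) : ℕ :=
  if h : NumberField K then (@NumberField.discr K _ h).natAbs else 0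

/-- the field cut out by a subgroup -/
noncomputable def fld (U : Subgroup Gam) : IntermediateField ℚ Om :=
  IntermediateField.fixedField U

/-- a square root -/
noncomputable def sq (d : ℚ) : Om :=
  Classical.choose (IsAlgClosed.exists_pow_nat_eq (d : Om) (n := 2) two_pos)

theorem sq_sq (d : ℚ) : sq d ^ 2 = (d : Om) :=
  Classical.choose_spec (IsAlgClosed.exists_pow_nat_eq (d : Om) (n := 2) two_pos)

open Classical in
/-- the quadratic character -/
noncomputable def chi (d : ℚ) (σ : Gam) : ZMod 2 := if σ (sq d) = sq d then 0 else 1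

/-- `-1`, `2`, and the prime discriminants `±p ≡ 1 mod 4` -/
def dd (p : ℕ) : ℤ := if p = 1 then -1 else if p = 2 then 2 else if p % 4 = 1 then p else -p

/-- admissible parameters -/
def adm {W : Type} [Zero W] (x : ℕ →₀ W) : Prop := ∀ i, x i ≠ 0 → i = 1 ∨ i.Prime

/-- the homomorphism with given parameters -/
noncomputable def par {W : Type} [AddCommGroup W] [Module (ZMod 2) W] (x : ℕ →₀ W) (σ : Gam) :
    W := x.sum fun i w => chi (dd i : ℤ) σ • w

/-! ### the sums -/

/-- sign to additive notation -/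
def lg (x : ℤ) : ZMod 2 := if x = -1 then 1 else 0

/-- `1` for `3` and `7` modulo `8` -/
def eps (x : ZMod 8) : ZMod 2 := if x = 3 ∨ x = 7 then 1 else 0

namespace Dat

variable (D : Dat)

/-- the local condition at a prime `p` dividing `m v` -/
def okp (a b : D.V) (m : D.V → ℕ) (v : D.V) (p : ℕ) : Prop :=
  ∑ u : D.V, lg (jacobiSym p (m u)) • D.B u v + lg (jacobiSym (-1) p) • D.B a v +
    lg (jacobiSym 2 p) • D.B b v = lg (jacobiSym (-1) p) • D.q v

open Classical in
/-- the number of global twists times the local conditions -/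
noncomputable def g (a b : D.V) (m : D.V → ℕ) : ℕ :=
  ∏ v : D.V, ∏ p ∈ (m v).primeFactors, if D.okp a b m v p then 2 ^ D.s else 0

/-- the complex conjugation -/
def vinf (a : D.V) (δ : D.V → ZMod 8) : D.V := a + ∑ v : D.V, eps (δ v) • v

open Classical in
/-- the weight exponents -/
noncomputable def wt (v : D.V) : ℝ := if D.q v = 0 then 1 else 3 / 2

/-- the parameters span -/
def Span (a b : D.V) (T : Finset D.V) : Prop :=
  Submodule.span (ZMod 2) (insert a (insert b (T : Set D.V))) = ⊤

open Classical in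
/-- the sum over all parameters of size at most `Y` -/
noncomputable def S (θ : D.V → D.V → (D.V → ZMod 8) → Finset D.V → ℝ) (Y : ℝ) : ℝ :=
  ∑ a : D.V, ∑ b : D.V, ∑ m ∈ Fintype.piFinset (fun _ : D.V => Finset.Icc 1 ⌊Y⌋₊),
    ∑ E ∈ Fintype.piFinset (fun _ : D.Z => Finset.Icc 1 ⌊Y⌋₊),
      if m 0 = 1 ∧ E 0 = 1 ∧ Squarefree (2 * (∏ v, m v) * ∏ z, E z) ∧
        (∏ v, (m v : ℝ) ^ D.wt v) * ∏ z, (E z : ℝ) ≤ Y
      then (D.g a b m : ℝ) * θ a b (fun v => (m v : ZMod 8))
        (Finset.univ.filter fun v => m v ≠ 1)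
      else 0

open Classical in
/-- the weight function of the main term -/
noncomputable def θs : D.V → D.V → (D.V → ZMod 8) → Finset D.V → ℝ := fun a b δ T =>
  if a = 0 ∧ b = 0 ∧ δ = (fun _ => 1) ∧ T = Finset.univ.filter (fun v => v ≠ 0 ∧ D.q v = 0)
  then 1 else 0

end Dat

end Pool.Agent.H98.MK
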