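import Pool.Agent.H98.MK.Defs
import Pool.Agent.H67.MU.Exp

/-!
# Project MK (MP_a3214d), row MK-T1: exponents of the different in towers
-/

set_option autoImplicit false

open NumberField Pool.Agent.H67.MU UniqueFactorizationMonoid

open scoped Pointwise

namespace Pool.Agent.H98.MK

/-- the exponent of an extended ideal -/
theorem dt_map {R S : Type*} [CommRing R] [CommRing S] [IsDedekindDomain R] [IsDedekindDomain S]
    [Algebra R S] [FaithfulSMul R S] (P : Ideal S) [P.IsPrime] (hP : P ≠ ⊥)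
    (hu : P.under R ≠ ⊥) (I : Ideal R) (hI : I ≠ ⊥) :
    vexp P (I.map (algebraMap R S)) = P.ramificationIdx R * vexp (P.under R) I := by
  classical
  have hmap : I.map (algebraMap R S) ≠ ⊥ :=
    (Ideal.map_eq_bot_iff_of_injective (FaithfulSMul.algebraMap_injective R S)).not.mpr hI
  have humap : (P.under R).map (algebraMap R S) ≠ ⊥ :=
    (Ideal.map_eq_bot_iff_of_injective (FaithfulSMul.algebraMap_injective R S)).not.mpr hu
  have hirrP := (Ideal.prime_of_isPrime hP inferInstance).irreducible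
  have hirru := (Ideal.prime_of_isPrime hu (inferInstance : (P.under R).IsPrime)).irreducible
  have h := Ideal.IsDedekindDomain.emultiplicity_map_eq_ramificationIdx'_mul (v := P.under R)
    (w := P) hI hirru hirrP hP
  rw [emultiplicity_eq_count_normalizedFactors hirrP hmap,
    emultiplicity_eq_count_normalizedFactors hirru hI, normalize_eq, normalize_eq,
    Ideal.ramificationIdx'_eq_ramificationIdx' (P.under R) P humap] at h
  unfold vexp
  exact_mod_cast h

section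

variable {F E K : Type} [Field F] [NumberField F] [Field E] [NumberField E] [Field K]
  [NumberField K]

theorem dt_under_ne_bot [Algebra F K] (P : Ideal (𝓞 K)) [P.IsPrime] (hP : P ≠ ⊥) :
    P.under (𝓞 F) ≠ ⊥ := Ideal.under_ne_bot (𝓞 F) hP

theorem diff_tower {F K : Type} [Field F] [NumberField F] [Field K] [NumberField K]
    [Algebra F K] (P : Ideal (𝓞 K)) [P.IsPrime] (hP : P ≠ ⊥) :
    vexp P (differentIdeal ℤ (𝓞 K)) = vexp P (differentIdeal (𝓞 F) (𝓞 K)) +
      P.ramificationIdx (𝓞 F) * vexp (P.under (𝓞 F)) (differentIdeal ℤ (𝓞 F)) := by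
  have h1 : differentIdeal ℤ (𝓞 F) ≠ ⊥ := differentIdeal_ne_bot
  have h2 : differentIdeal (𝓞 F) (𝓞 K) ≠ ⊥ := differentIdeal_ne_bot
  have h3 : (differentIdeal ℤ (𝓞 F)).map (algebraMap (𝓞 F) (𝓞 K)) ≠ ⊥ :=
    Ideal.map_ne_bot_of_ne_bot h1
  rw [differentIdeal_eq_differentIdeal_mul_differentIdeal ℤ (𝓞 F) (𝓞 K), mu1_vexp_mul _ _ _ h2 h3,
    dt_map P hP (dt_under_ne_bot P hP) _ h1]

/-- the relative version -/
theorem dt_tower [Algebra F E] [Algebra E K] [Algebra F K] [IsScalarTower F E K]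
    (P : Ideal (𝓞 K)) [P.IsPrime] (hP : P ≠ ⊥) :
    vexp P (differentIdeal (𝓞 F) (𝓞 K)) = vexp P (differentIdeal (𝓞 E) (𝓞 K)) +
      P.ramificationIdx (𝓞 E) * vexp (P.under (𝓞 E)) (differentIdeal (𝓞 F) (𝓞 E)) := by
  have h1 : differentIdeal (𝓞 F) (𝓞 E) ≠ ⊥ := differentIdeal_ne_bot
  have h2 : differentIdeal (𝓞 E) (𝓞 K) ≠ ⊥ := differentIdeal_ne_bot
  have h3 : (differentIdeal (𝓞 F) (𝓞 E)).map (algebraMap (𝓞 E) (𝓞 K)) ≠ ⊥ :=
    Ideal.map_ne_bot_of_ne_bot h1
  rw [differentIdeal_eq_differentIdeal_mul_differentIdeal (𝓞 F) (𝓞 E) (𝓞 K),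
    mu1_vexp_mul _ _ _ h2 h3, dt_map P hP (dt_under_ne_bot P hP) _ h1]

theorem dt_ram_tower [Algebra F E] [Algebra E K] [Algebra F K] [IsScalarTower F E K]
    (P : Ideal (𝓞 K)) : P.ramificationIdx (𝓞 F) =
      (P.under (𝓞 E)).ramificationIdx (𝓞 F) * P.ramificationIdx (𝓞 E) :=
  Ideal.ramificationIdx_tower (P.under (𝓞 E)) P

theorem dt_ram_tower_int [Algebra E K]
    (P : Ideal (𝓞 K)) : P.ramificationIdx ℤ =
      (P.under (𝓞 E)).ramificationIdx ℤ * P.ramificationIdx (𝓞 E) :=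
  Ideal.ramificationIdx_tower (P.under (𝓞 E)) P

/-- an unramified step does not contribute -/
theorem dt_unram [Algebra F E] (Q : Ideal (𝓞 E)) [Q.IsPrime] (hQ : Q ≠ ⊥)
    (h : Q.ramificationIdx (𝓞 F) = 1) : vexp Q (differentIdeal (𝓞 F) (𝓞 E)) = 0 := by
  have h1 : differentIdeal (𝓞 F) (𝓞 E) ≠ ⊥ := differentIdeal_ne_bot
  have h2 : ¬ Q ∣ differentIdeal (𝓞 F) (𝓞 E) := by
    rw [not_dvd_differentIdeal_iff]
    exact Ideal.ramificationIdx_eq_one_iff.mp h
  have h3 := (mu3_pow_dvd_iff (inferInstance : Q.IsPrime) hQ h1 1).not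
  rw [pow_one] at h3
  have h4 := h3.mp h2
  omega

/-- equal ramification indices give equal exponents -/
theorem dt_eq [Algebra F E] [Algebra E K] [Algebra F K] [IsScalarTower F E K]
    (P : Ideal (𝓞 K)) [P.IsPrime] (hP : P ≠ ⊥)
    (h : P.ramificationIdx (𝓞 F) = P.ramificationIdx (𝓞 E)) :
    vexp P (differentIdeal (𝓞 F) (𝓞 K)) = vexp P (differentIdeal (𝓞 E) (𝓞 K)) := by
  have h1 := dt_ram_tower (F := F) (E := E) P
  have h2 : 0 < P.ramificationIdx (𝓞 E) := Ideal.ramificationIdx_pos P (𝓞 E)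
  have h3 : (P.under (𝓞 E)).ramificationIdx (𝓞 F) = 1 := by
    rw [h] at h1
    exact (Nat.eq_of_mul_eq_mul_right h2 (by rw [one_mul]; exact h1)).symm
  rw [dt_tower (F := F) (E := E) P hP, dt_unram _ (dt_under_ne_bot P hP) h3, mul_zero, add_zero]

end

end Pool.Agent.H98.MK
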