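import Pool.Agent.H98.MK.Defs

/-!
# Project MK, row K3, first part: the lift from the theorem of Tate and the Steinberg relation

The results of the rows K1, K2, P1 are hypotheses here.
-/

set_option autoImplicit false

open scoped BigOperators

namespace Pool.Agent.H98.MK

/-- tame symbols of the basic elements (same as `tt`) -/
def k3tt (p i j : ℕ) : ZMod 2 :=
  if i = p ∧ j = p then lg (jacobiSym (-1) p) else
    if i = p then lg (jacobiSym (dd j) p) else if j = p then lg (jacobiSym (dd i) p) else 0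

/-- the coboundaries -/
def k3cob : Submodule (ZMod 2) (Gam × Gam → ZMod 2) where
  carrier := {g | ∃ f : Gam → ZMod 2, IsLocallyConstant f ∧
    ∀ σ τ, f (σ * τ) = f σ + f τ + g (σ, τ)}
  zero_mem' := ⟨fun _ => 0, IsLocallyConstant.const 0, fun σ τ => by simp⟩
  add_mem' := by
    rintro g g' ⟨f, hf, h⟩ ⟨f', hf', h'⟩
    refine ⟨f + f', hf.add hf', fun σ τ => ?_⟩
    simp only [Pi.add_apply]
    rw [h, h']
    ring
  smul_mem' := by
    rintro c g ⟨f, hf, h⟩
    refine ⟨fun σ => c * f σ, hf.comp (fun z => c * z), fun σ τ => ?_⟩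
    simp only [Pi.smul_apply, smul_eq_mul]
    rw [h]
    ring

/-- the class of the cup product -/
noncomputable def k3s (a b : ℚ) : (Gam × Gam → ZMod 2) ⧸ k3cob :=
  Submodule.Quotient.mk fun p => chi b p.1 * chi a p.2

/-- one coordinate -/
theorem k3_one
    (tate : ∀ {H : Type} [AddCommGroup H] [Module (ZMod 2) H] (s : ℚ → ℚ → H)
      (_ : ∀ a b c, a ≠ 0 → b ≠ 0 → c ≠ 0 → s (a * b) c = s a c + s b c)
      (_ : ∀ a b c, a ≠ 0 → b ≠ 0 → c ≠ 0 → s a (b * c) = s a b + s a c)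
      (_ : ∀ a, a ≠ 0 → a ≠ 1 → s a (1 - a) = 0)
      (S : Finset ℕ) (_ : ∀ i ∈ S, i = 1 ∨ i.Prime) (c : ℕ → ℕ → ZMod 2)
      (_ : ∀ p ∈ S, p.Prime → p ≠ 2 → ∑ i ∈ S, ∑ j ∈ S, c i j * k3tt p i j = 0)
      (_ : ∑ i ∈ S, ∑ j ∈ S, (if dd i < 0 ∧ dd j < 0 then c i j else 0) = 0),
      ∑ i ∈ S, ∑ j ∈ S, c i j • s (dd i : ℤ) (dd j : ℤ) = 0)
    (steinberg : ∀ (a : ℚ) (_ : a ≠ 0) (_ : a ≠ 1), ∃ f : Gam → ZMod 2,
      IsLocallyConstant f ∧ ∀ σ τ, f (σ * τ) = f σ + f τ + chi (1 - a) σ * chi a τ)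
    (chi_mul : ∀ (x y : ℚ) (_ : x ≠ 0) (_ : y ≠ 0) (σ : Gam), chi (x * y) σ = chi x σ + chi y σ)
    (S : Finset ℕ) (hS : ∀ i ∈ S, i = 1 ∨ i.Prime) (c : ℕ → ℕ → ZMod 2)
    (hp : ∀ p ∈ S, p.Prime → p ≠ 2 → ∑ i ∈ S, ∑ j ∈ S, c i j * k3tt p i j = 0)
    (hinf : ∑ i ∈ S, ∑ j ∈ S, (if dd i < 0 ∧ dd j < 0 then c i j else 0) = 0) :
    ∃ f : Gam → ZMod 2, IsLocallyConstant f ∧ ∀ σ τ, f (σ * τ) = f σ + f τ +
      ∑ i ∈ S, ∑ j ∈ S, c i j * (chi (dd j : ℤ) σ * chi (dd i : ℤ) τ) := by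
  have h1 := tate k3s (fun a b c ha hb _ => by
      unfold k3s
      rw [← Submodule.Quotient.mk_add]
      congr 1
      funext p
      rw [chi_mul a b ha hb, mul_add]
      rfl) (fun a b c _ hb hc => by
      unfold k3s
      rw [← Submodule.Quotient.mk_add]
      congr 1
      funext p
      rw [chi_mul b c hb hc, add_mul]
      rfl) (fun a h0 h1 => by
      unfold k3s
      rw [Submodule.Quotient.mk_eq_zero]
      obtain ⟨f, hf, h⟩ := steinberg a h0 h1
      exact ⟨f, hf, h⟩) S hS c hp hinf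
  have h2 : (∑ i ∈ S, ∑ j ∈ S, c i j • k3s (dd i : ℤ) (dd j : ℤ)) =
      Submodule.Quotient.mk (p := k3cob) (∑ i ∈ S, ∑ j ∈ S, c i j •
        fun p : Gam × Gam => chi (dd j : ℤ) p.1 * chi (dd i : ℤ) p.2) := by
    have h3 := map_sum (Submodule.mkQ k3cob) (fun i => ∑ j ∈ S, c i j •
      fun p : Gam × Gam => chi (dd j : ℤ) p.1 * chi (dd i : ℤ) p.2) S
    rw [Submodule.mkQ_apply] at h3
    rw [h3]
    refine Finset.sum_congr rfl fun i _ => ?_
    rw [map_sum]
    refine Finset.sum_congr rfl fun j _ => ?_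
    rw [map_smul]
    rfl
  rw [h2, Submodule.Quotient.mk_eq_zero] at h1
  obtain ⟨f, hf, h⟩ := h1
  refine ⟨f, hf, fun σ τ => ?_⟩
  rw [h]
  congr 1
  simp only [Finset.sum_apply, Pi.smul_apply, smul_eq_mul]

/-- the cocycle in coordinates -/
theorem k3_coord (D : Dat) (x : ℕ →₀ D.V) (σ τ : Gam) (k : Fin D.s) :
    D.β (par x σ) (par x τ) k = ∑ i ∈ x.support, ∑ j ∈ x.support,
      D.β (x j) (x i) k * (chi (dd j : ℤ) σ * chi (dd i : ℤ) τ) := by
  unfold par
  simp only [Finsupp.sum, map_sum, LinearMap.sum_apply, map_smul, LinearMap.smul_apply,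
    Finset.sum_apply, Pi.smul_apply, smul_eq_mul]
  refine Finset.sum_congr rfl fun i _ => ?_
  rw [Finset.mul_sum]
  refine Finset.sum_congr rfl fun j _ => ?_
  ring

/-- the tame condition in coordinates -/
theorem k3_tame (D : Dat) (x : ℕ →₀ D.V) (p : ℕ) (hps : p ∈ x.support)
    (h : (x.sum fun i w => if i = p then 0 else lg (jacobiSym (dd i) p) • D.B w (x p)) =
        lg (jacobiSym (-1) p) • D.q (x p)) (k : Fin D.s) :
    ∑ i ∈ x.support, ∑ j ∈ x.support, D.β (x j) (x i) k * k3tt p i j = 0 := by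
  have h1 := congrFun h k
  simp only [Finsupp.sum, Finset.sum_apply, Pi.smul_apply, smul_eq_mul] at h1
  have h2 : ∀ i, (if i = p then (0 : D.Z) else lg (jacobiSym (dd i) p) • D.B (x i) (x p)) k =
      if i = p then 0 else lg (jacobiSym (dd i) p) * D.B (x i) (x p) k := by
    intro i
    split_ifs <;> rfl
  simp only [h2] at h1
  -- the terms with `i = p`, `i ≠ p`
  have h3 : ∀ i ∈ x.support, ∑ j ∈ x.support, D.β (x j) (x i) k * k3tt p i j =
      (if i = p then ∑ j ∈ x.support, D.β (x j) (x p) k *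
        (if j = p then lg (jacobiSym (-1) p) else lg (jacobiSym (dd j) p)) else
        D.β (x p) (x i) k * lg (jacobiSym (dd i) p)) := by
    intro i _
    by_cases hi : i = p
    · subst hi
      rw [if_pos rfl]
      refine Finset.sum_congr rfl fun j _ => ?_
      unfold k3tt
      by_cases hj : j = i
      · simp [hj]
      · simp [hj]
    · rw [if_neg hi, Finset.sum_eq_single p]
      · unfold k3tt
        simp [hi]
      · intro j _ hj
        unfold k3tt
        simp [hi, hj]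
      · intro h4
        exact absurd hps h4
  have hrow : ∑ j ∈ x.support, D.β (x j) (x p) k *
      (if j = p then lg (jacobiSym (-1) p) else lg (jacobiSym (dd j) p)) =
      D.β (x p) (x p) k * lg (jacobiSym (-1) p) + ∑ j ∈ x.support.erase p,
        D.β (x j) (x p) k * (if j = p then lg (jacobiSym (-1) p) else
          lg (jacobiSym (dd j) p)) := by
    rw [← Finset.add_sum_erase _ _ hps, if_pos rfl]
  rw [Finset.sum_congr rfl h3, ← Finset.add_sum_erase _ _ hps, if_pos rfl]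
  rw [← Finset.add_sum_erase _ _ hps, if_pos rfl, zero_add] at h1
  have h4 : ∑ i ∈ x.support.erase p, D.β (x i) (x p) k *
      (if i = p then lg (jacobiSym (-1) p) else lg (jacobiSym (dd i) p)) +
      ∑ i ∈ x.support.erase p, (if i = p then ∑ j ∈ x.support, D.β (x j) (x p) k *
        (if j = p then lg (jacobiSym (-1) p) else lg (jacobiSym (dd j) p)) else
        D.β (x p) (x i) k * lg (jacobiSym (dd i) p)) =
      ∑ i ∈ x.support.erase p, (if i = p then 0 else lg (jacobiSym (dd i) p) *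
        D.B (x i) (x p) k) := by
    rw [← Finset.sum_add_distrib]
    refine Finset.sum_congr rfl fun i hi => ?_
    have hip : i ≠ p := (Finset.mem_erase.1 hi).1
    rw [if_neg hip, if_neg hip, if_neg hip]
    change _ = lg (jacobiSym (dd i) p) * (D.β (x i) (x p) k + D.β (x p) (x i) k)
    ring
  conv_lhs =>
    lhs
    rw [hrow]
  rw [add_assoc, h4, h1]
  change D.β (x p) (x p) k * lg (jacobiSym (-1) p) + lg (jacobiSym (-1) p) * D.β (x p) (x p) k = 0
  rw [mul_comm]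
  exact CharTwo.add_self_eq_zero _

/-- the condition at infinity in coordinates -/
theorem k3_inf (D : Dat) (x : ℕ →₀ D.V)
    (h : D.q (x.sum fun i w => if dd i < 0 then w else 0) = 0) (k : Fin D.s) :
    ∑ i ∈ x.support, ∑ j ∈ x.support,
      (if dd i < 0 ∧ dd j < 0 then D.β (x j) (x i) k else 0) = 0 := by
  have h1 := congrFun h k
  unfold Dat.q at h1
  simp only [Finsupp.sum, map_sum, LinearMap.sum_apply, Finset.sum_apply] at h1
  refine Eq.trans ?_ h1
  refine Finset.sum_congr rfl fun i _ => Finset.sum_congr rfl fun j _ => ?_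
  by_cases hi : dd i < 0
  · by_cases hj : dd j < 0
    · simp [hi, hj]
    · simp [hi, hj]
  · by_cases hj : dd j < 0
    · simp [hi, hj]
    · simp [hi, hj]

theorem k3_embed
    (tate : ∀ {H : Type} [AddCommGroup H] [Module (ZMod 2) H] (s : ℚ → ℚ → H)
      (_ : ∀ a b c, a ≠ 0 → b ≠ 0 → c ≠ 0 → s (a * b) c = s a c + s b c)
      (_ : ∀ a b c, a ≠ 0 → b ≠ 0 → c ≠ 0 → s a (b * c) = s a b + s a c)
      (_ : ∀ a, a ≠ 0 → a ≠ 1 → s a (1 - a) = 0)
      (S : Finset ℕ) (_ : ∀ i ∈ S, i = 1 ∨ i.Prime) (c : ℕ → ℕ → ZMod 2)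
      (_ : ∀ p ∈ S, p.Prime → p ≠ 2 → ∑ i ∈ S, ∑ j ∈ S, c i j * k3tt p i j = 0)
      (_ : ∑ i ∈ S, ∑ j ∈ S, (if dd i < 0 ∧ dd j < 0 then c i j else 0) = 0),
      ∑ i ∈ S, ∑ j ∈ S, c i j • s (dd i : ℤ) (dd j : ℤ) = 0)
    (steinberg : ∀ (a : ℚ) (_ : a ≠ 0) (_ : a ≠ 1), ∃ f : Gam → ZMod 2,
      IsLocallyConstant f ∧ ∀ σ τ, f (σ * τ) = f σ + f τ + chi (1 - a) σ * chi a τ)
    (chi_mul : ∀ (x y : ℚ) (_ : x ≠ 0) (_ : y ≠ 0) (σ : Gam), chi (x * y) σ = chi x σ + chi y σ)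
    (D : Dat) (x : ℕ →₀ D.V) (hx : adm x)
    (hp : ∀ p : ℕ, p.Prime → p ≠ 2 → x p ≠ 0 →
      (x.sum fun i w => if i = p then 0 else lg (jacobiSym (dd i) p) • D.B w (x p)) =
        lg (jacobiSym (-1) p) • D.q (x p))
    (hinf : D.q (x.sum fun i w => if dd i < 0 then w else 0) = 0) :
    ∃ f : Gam → D.Z, IsLocallyConstant f ∧
      ∀ σ τ, f (σ * τ) = f σ + f τ + D.β (par x σ) (par x τ) := by
  have h1 : ∀ k : Fin D.s, ∃ f : Gam → ZMod 2, IsLocallyConstant f ∧
      ∀ σ τ, f (σ * τ) = f σ + f τ + D.β (par x σ) (par x τ) k := by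
    intro k
    obtain ⟨f, hf, h⟩ := k3_one tate steinberg chi_mul x.support
      (fun i hi => hx i (Finsupp.mem_support_iff.1 hi)) (fun i j => D.β (x j) (x i) k)
      (fun p hps hpp hp2 => k3_tame D x p hps (hp p hpp hp2 (Finsupp.mem_support_iff.1 hps)) k)
      (k3_inf D x hinf k)
    refine ⟨f, hf, fun σ τ => ?_⟩
    rw [h, k3_coord]
  choose f hf h using h1
  refine ⟨fun σ k => f k σ, ?_, fun σ τ => ?_⟩
  · rw [IsLocallyConstant.iff_eventually_eq]
    intro σ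
    have h2 : ∀ k, ∀ᶠ y in nhds σ, f k y = f k σ := fun k =>
      (IsLocallyConstant.iff_eventually_eq _).1 (hf k) σ
    filter_upwards [Filter.eventually_all.2 h2] with y hy
    funext k
    exact hy k
  · funext k
    exact h k σ τ

end Pool.Agent.H98.MK
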