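import Pool.Agent.H98.MK.ChiBasic

/-!
# Project MK, row P3: parameters of homomorphisms to elementary abelian groups (helper74)

Versions with the facts on quadratic characters as hypotheses.
-/

set_option autoImplicit false

open scoped BigOperators

namespace Pool.Agent.H98.MK

/-- Independence of the prime discriminants. -/
def PcInd : Prop := ∀ S : Finset ℕ, (∀ i ∈ S, i = 1 ∨ i.Prime) →
  (∀ σ : Gam, ∑ i ∈ S, chi (dd i : ℤ) σ = 0) → S = ∅

/-- All homomorphisms to the group with two elements. -/
def PcEx : Prop := ∀ f : Gam → ZMod 2, IsLocallyConstant f →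
  (∀ σ τ, f (σ * τ) = f σ + f τ) → ∃ S : Finset ℕ, (∀ i ∈ S, i = 1 ∨ i.Prime) ∧
    ∀ σ, f σ = ∑ i ∈ S, chi (dd i : ℤ) σ

theorem pc_zmod (a : ZMod 2) (h : a ≠ 0) : a = 1 := by
  revert h
  revert a
  decide

/-- A linear form that kills all values kills all parameters. -/
theorem pc_key {W : Type} [AddCommGroup W] [Module (ZMod 2) W] (hI : PcInd) (x : ℕ →₀ W)
    (hx : adm x) (l : W →ₗ[ZMod 2] ZMod 2) (h : ∀ σ : Gam, l (par x σ) = 0) (i : ℕ) :
    l (x i) = 0 := by
  classical
  have hS : (x.support.filter fun i => l (x i) = 1) = ∅ := by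
    apply hI
    · intro j hj
      exact hx j (Finsupp.mem_support_iff.1 (Finset.mem_filter.1 hj).1)
    · intro σ
      rw [← h σ, par, Finsupp.sum, map_sum, Finset.sum_filter]
      refine Finset.sum_congr rfl fun j _ => ?_
      rw [map_smul, smul_eq_mul]
      by_cases hj : l (x j) = 1
      · rw [if_pos hj, hj, mul_one]
      · have : l (x j) = 0 := by
          by_contra h0
          exact hj (pc_zmod _ h0)
        rw [if_neg hj, this, mul_zero]
  by_contra h0
  have h1 : i ∈ (x.support.filter fun i => l (x i) = 1) := by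
    rw [Finset.mem_filter, Finsupp.mem_support_iff]
    refine ⟨fun h2 => h0 ?_, pc_zmod _ h0⟩
    rw [h2, map_zero]
  rw [hS] at h1
  exact absurd h1 (Finset.notMem_empty i)

theorem pc_exists {k : ℕ} (hE : PcEx) (f : Gam → (Fin k → ZMod 2)) (hf : IsLocallyConstant f)
    (ha : ∀ σ τ, f (σ * τ) = f σ + f τ) : ∃ x : ℕ →₀ (Fin k → ZMod 2), adm x ∧ par x = f := by
  classical
  have h1 : ∀ j : Fin k, ∃ S : Finset ℕ, (∀ i ∈ S, i = 1 ∨ i.Prime) ∧
      ∀ σ, f σ j = ∑ i ∈ S, chi (dd i : ℤ) σ := fun j =>
    hE (fun σ => f σ j) (hf.comp fun v => v j) (fun σ τ => by rw [ha]; rfl)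
  choose S hS hf' using h1
  refine ⟨Finsupp.onFinset (Finset.univ.biUnion S) (fun i j => if i ∈ S j then 1 else 0) ?_,
    ?_, ?_⟩
  · intro i hi
    rw [Finset.mem_biUnion]
    by_contra h
    apply hi
    funext j
    rw [Pi.zero_apply, if_neg]
    exact fun hj => h ⟨j, Finset.mem_univ j, hj⟩
  · intro i hi
    by_contra h
    apply hi
    rw [Finsupp.onFinset_apply]
    funext j
    rw [Pi.zero_apply, if_neg]
    exact fun hj => h (hS j i hj)
  · funext σ j
    rw [par, Finsupp.onFinset_sum]
    · rw [Finset.sum_apply, hf']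
      symm
      have hsub : S j ⊆ Finset.univ.biUnion S := Finset.subset_biUnion_of_mem S (Finset.mem_univ j)
      rw [← Finset.sum_subset hsub (f := fun i =>
        (chi (dd i : ℤ) σ • (fun j' : Fin k => (if i ∈ S j' then 1 else 0 : ZMod 2))) j)]
      · refine Finset.sum_congr rfl fun i hi => ?_
        rw [Pi.smul_apply, if_pos hi, smul_eq_mul, mul_one]
      · intro i _ hi
        rw [Pi.smul_apply, if_neg hi, smul_zero]
    · intro i
      rw [smul_zero]

theorem pc_injective {k : ℕ} (hI : PcInd) (x y : ℕ →₀ (Fin k → ZMod 2)) (hx : adm x)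
    (hy : adm y) (h : par x = par y) : x = y := by
  have hz : adm (x + y) := by
    intro i hi
    by_cases h1 : x i = 0
    · apply hy i
      intro h2
      apply hi
      rw [Finsupp.add_apply, h1, h2, add_zero]
    · exact hx i h1
  have h0 : ∀ v : Fin k → ZMod 2, v + v = 0 := by
    intro v
    funext i
    exact CharTwo.add_self_eq_zero (v i)
  have h1 : x + y = 0 := by
    ext i j
    have := pc_key hI (x + y) hz (LinearMap.proj j) (fun σ => by
      rw [par_add, h, h0, map_zero]) i
    exact this
  have h2 : x = x + y + y := by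
    ext i j
    rw [Finsupp.add_apply, Finsupp.add_apply, add_assoc, h0, add_zero]
  rw [h2, h1, zero_add]

theorem pc_surj {k : ℕ} (hI : PcInd) (x : ℕ →₀ (Fin k → ZMod 2)) (hx : adm x) :
    Function.Surjective (par x) ↔ Submodule.span (ZMod 2) (Set.range x) = ⊤ := by
  constructor
  · intro hs
    by_contra hne
    obtain ⟨l, hl, hle⟩ := Submodule.exists_le_ker_of_lt_top _ (lt_top_iff_ne_top.2 hne)
    apply hl
    ext1 v
    · obtain ⟨σ, hσ⟩ := hs (Pi.single v 1)
      have h1 : l (par x σ) = 0 := by
        rw [par, Finsupp.sum, map_sum]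
        refine Finset.sum_eq_zero fun i _ => ?_
        rw [map_smul, show l (x i) = 0 from hle (Submodule.subset_span ⟨i, rfl⟩), smul_zero]
      rw [hσ] at h1
      ext
      simpa using h1
  · intro hs
    let R : Submodule (ZMod 2) (Fin k → ZMod 2) :=
      { carrier := Set.range (par x)
        add_mem' := by
          rintro _ _ ⟨σ, rfl⟩ ⟨τ, rfl⟩
          exact ⟨σ * τ, par_hom x σ τ⟩
        zero_mem' := by
          refine ⟨1, ?_⟩
          have h1 := par_hom x 1 1
          rw [mul_one] at h1
          exact left_eq_add.1 h1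
        smul_mem' := by
          rintro c _ ⟨σ, rfl⟩
          by_cases hc : c = 0
          · refine ⟨1, ?_⟩
            have h1 := par_hom x 1 1
            rw [mul_one] at h1
            rw [hc, zero_smul]
            exact left_eq_add.1 h1
          · rw [pc_zmod c hc, one_smul]
            exact ⟨σ, rfl⟩ }
    have hR : R = ⊤ := by
      by_contra hne
      obtain ⟨l, hl, hle⟩ := Submodule.exists_le_ker_of_lt_top R (lt_top_iff_ne_top.2 hne)
      have h1 : ∀ i, l (x i) = 0 := pc_key hI x hx l fun σ => hle ⟨σ, rfl⟩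
      have h2 : (⊤ : Submodule (ZMod 2) (Fin k → ZMod 2)) ≤ LinearMap.ker l := by
        rw [← hs, Submodule.span_le]
        rintro _ ⟨i, rfl⟩
        exact h1 i
      exact hl (LinearMap.ker_eq_top.1 (top_le_iff.1 h2))
    intro v
    have hv : v ∈ R := by
      rw [hR]
      trivial
    exact hv

end Pool.Agent.H98.MK
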