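import Pool.Agent.H98.MK.MDefs
import Pool.Agent.H98.MK.ParClass2

/-!
# Project MK, row M2: surjectivity of a lift and index of kernels (helper16)

Version with the independence of the prime discriminants as a hypothesis.
-/

set_option autoImplicit false

open scoped BigOperators

namespace Pool.Agent.H98.MK

private theorem m2_card (D : Dat) : Nat.card (Ext D) = D.n := by
  rw [Nat.card_congr (Ext.equivProd (D := D)), Nat.card_prod, Nat.card_eq_fintype_card,
    Nat.card_eq_fintype_card, Fintype.card_fun, Fintype.card_fun, ZMod.card, Fintype.card_fin,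
    Fintype.card_fin, Dat.n, pow_add]

theorem ker_index {D : Dat} (ρ : Gam →* Ext D) : ρ.ker.index ∣ D.n ∧
    (Function.Surjective ρ → ρ.ker.index = D.n) := by
  rw [Subgroup.index_ker]
  refine ⟨?_, fun h => ?_⟩
  · rw [← m2_card D]
    exact Subgroup.card_subgroup_dvd_card _
  · rw [MonoidHom.range_eq_top.2 h, ← m2_card D]
    exact Nat.card_congr Subgroup.topEquiv.toEquiv

private theorem m2_q_add (D : Dat) (v w : D.V) : D.q (v + w) = D.q v + D.q w + D.B v w := by
  simp only [Dat.q, Dat.B, map_add, LinearMap.add_apply]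
  abel

/-- a subgroup that maps onto `V` is everything -/
theorem m2_top {D : Dat} (H : Subgroup (Ext D)) (hH : ∀ v : D.V, ∃ z : D.Z, (⟨v, z⟩ : Ext D) ∈ H) :
    H = ⊤ := by
  -- the central part of `H`
  let N : Submodule (ZMod 2) D.Z :=
    { carrier := {z | (⟨0, z⟩ : Ext D) ∈ H}
      add_mem' := by
        intro a b ha hb
        have h1 : (⟨0, a⟩ : Ext D) * ⟨0, b⟩ = ⟨0, a + b⟩ := by
          apply Ext.ext
          · simp
          · simp
        have := H.mul_mem ha hb
        rw [h1] at this
        exact this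
      zero_mem' := H.one_mem
      smul_mem' := by
        intro c a ha
        have hc : c = 0 ∨ c = 1 := by
          revert c
          decide
        rcases hc with rfl | rfl
        · rw [zero_smul]
          exact H.one_mem
        · rw [one_smul]
          exact ha }
  have hB : ∀ v w : D.V, D.B v w ∈ N := by
    intro v w
    obtain ⟨z, hz⟩ := hH v
    obtain ⟨z', hz'⟩ := hH w
    have h1 := H.mul_mem (H.mul_mem hz hz') (H.inv_mem (H.mul_mem hz' hz))
    have h2 : (⟨v, z⟩ : Ext D) * ⟨w, z'⟩ * ((⟨w, z'⟩ : Ext D) * ⟨v, z⟩)⁻¹ = ⟨0, D.B v w⟩ := by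
      rw [mul_inv_eq_iff_eq_mul]
      apply Ext.ext
      · simp only [Ext.mul_v, zero_add]
        exact add_comm v w
      · simp only [Ext.mul_z, Ext.mul_v, map_zero, LinearMap.zero_apply, add_zero, Dat.B]
        have := Ext.two_Z (D := D) (D.β w v)
        calc z + z' + D.β v w = z + z' + D.β v w + 0 := (add_zero _).symm
          _ = z + z' + D.β v w + (D.β w v + D.β w v) := by rw [this]
          _ = D.β v w + D.β w v + (z' + z + D.β w v) := by abel
    rw [h2] at h1
    exact h1
  have hq : ∀ v : D.V, D.q v ∈ N := by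
    intro v
    have hv : v ∈ Submodule.span (ZMod 2) {v : Fin D.r → ZMod 2 | D.β v v = 0} := by
      rw [D.gen]
      exact Submodule.mem_top
    induction hv using Submodule.span_induction with
    | mem x hx =>
      have : D.q x = 0 := hx
      rw [this]
      exact N.zero_mem
    | zero =>
      have : D.q (0 : D.V) = 0 := by simp [Dat.q]
      rw [this]
      exact N.zero_mem
    | add x y _ _ hx hy =>
      rw [m2_q_add]
      exact N.add_mem (N.add_mem hx hy) (hB x y)
    | smul c x _ hx =>
      have : D.q (c • x) = (c * c) • D.q x := by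
        simp only [Dat.q, map_smul, LinearMap.smul_apply, smul_smul]
      rw [this]
      exact N.smul_mem _ hx
  have hN : ∀ z : D.Z, (⟨0, z⟩ : Ext D) ∈ H := by
    intro z
    have h1 : Submodule.span (ZMod 2) (Set.range fun v : Fin D.r → ZMod 2 => D.β v v) ≤ N := by
      rw [Submodule.span_le]
      rintro _ ⟨v, rfl⟩
      exact hq v
    rw [D.spz] at h1
    exact h1 Submodule.mem_top
  rw [eq_top_iff]
  intro x _
  obtain ⟨z', hz'⟩ := hH x.v
  have h1 := H.mul_mem hz' (hN (x.z + z'))
  have h2 : (⟨x.v, z'⟩ : Ext D) * ⟨0, x.z + z'⟩ = x := by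
    apply Ext.ext
    · simp
    · simp only [Ext.mul_z, map_zero, add_zero]
      have := Ext.two_Z (D := D) z'
      calc z' + (x.z + z') = x.z + (z' + z') := by abel
        _ = x.z := by rw [this, add_zero]
  rw [h2] at h1
  exact h1

theorem lh_surj_iff_par {D : Dat} {x : ℕ →₀ D.V} {f : Gam → D.Z} (h : IsLift D x f) :
    Function.Surjective (lh h) ↔ Function.Surjective (par x) := by
  constructor
  · intro hs v
    obtain ⟨σ, hσ⟩ := hs ⟨v, 0⟩
    exact ⟨σ, congrArg Ext.v hσ⟩
  · intro hs
    rw [← MonoidHom.range_eq_top]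
    refine m2_top _ fun v => ?_
    obtain ⟨σ, hσ⟩ := hs v
    refine ⟨f σ, ⟨σ, ?_⟩⟩
    apply Ext.ext
    · exact hσ
    · rfl

theorem lh_surj_of (hI : PcInd) {D : Dat} {x : ℕ →₀ D.V} {f : Gam → D.Z} (hx : adm x)
    (h : IsLift D x f) :
    Function.Surjective (lh h) ↔ Submodule.span (ZMod 2) (Set.range x) = ⊤ := by
  rw [lh_surj_iff_par h]
  exact pc_surj hI x hx

end Pool.Agent.H98.MK
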