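import Pool.Agent.H98.MK.MDefs
import Pool.Agent.H98.MK.FldBasic
import Pool.Agent.H98.MK.TwoPack
import Pool.Agent.H98.MK.LocalTwo
import Pool.Agent.H98.MK.LhSurj2
import Pool.Agent.H98.MK.ParClass

/-!
# Project MK: the multiset of the exponents of two depends only on residues
-/

set_option autoImplicit false

open scoped BigOperators

namespace Pool.Agent.H98.MK

private theorem ew_lt : M6_LT := fun U _ hU h1 h2 => local_two U hU h1 h2

private theorem ew_ki : M6_KI := fun ρ => ker_index ρ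

private theorem ew_adm_z12 {Z : Type} [AddCommGroup Z] (z1 z2 : Z) : adm (z12 z1 z2) := by
  intro i hi
  by_cases h1 : i = 1
  · exact Or.inl h1
  · by_cases h2 : i = 2
    · right
      rw [h2]
      exact Nat.prime_two
    · exfalso
      apply hi
      unfold z12
      rw [Finsupp.add_apply, Finsupp.single_eq_of_ne h1, Finsupp.single_eq_of_ne h2, add_zero]

private theorem ew_z12_one {Z : Type} [AddCommGroup Z] (z1 z2 : Z) : z12 z1 z2 1 = z1 := by
  unfold z12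
  rw [Finsupp.add_apply, Finsupp.single_eq_same, Finsupp.single_eq_of_ne (by norm_num), add_zero]

private theorem ew_z12_two {Z : Type} [AddCommGroup Z] (z1 z2 : Z) : z12 z1 z2 2 = z2 := by
  unfold z12
  rw [Finsupp.add_apply, Finsupp.single_eq_same, Finsupp.single_eq_of_ne (by norm_num), zero_add]

private theorem ew_adm_zero {W : Type} [Zero W] : adm (0 : ℕ →₀ W) := by
  intro i hi
  exact absurd rfl hi

private theorem ew_sol_zero (D : Dat) : Sol D 0 := by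
  refine ⟨fun p _ _ h => absurd rfl h, ?_⟩
  rw [Finsupp.sum_zero_index]
  simp [Dat.q]

private theorem ew_mfun_zero {W : Type} [Zero W] (v : W) : mfun (0 : ℕ →₀ W) v = 1 := by
  unfold mfun
  simp

private theorem ew_zero (D : Dat) {f : Gam → D.Z} (h : IsLift D 0 f) :
    ∃ z1 z2 : D.Z, c2 (lh (h.add (z12 z1 z2))) = 0 := by
  have hpar : ∀ σ, par (0 : ℕ →₀ D.V) σ = 0 := by
    intro σ
    unfold par
    rw [Finsupp.sum_zero_index]
  have ha : ∀ σ τ, f (σ * τ) = f σ + f τ := by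
    intro σ τ
    rw [h.hom, hpar, hpar]
    simp
  obtain ⟨z, hz, hzf⟩ := par_exists f h.lc ha
  refine ⟨z 1, z 2, ?_⟩
  rw [← c2_twist_of ew_lt ew_ki h z (z12 (z 1) (z 2)) hz (ew_adm_z12 _ _) (ew_z12_one _ _).symm
    (ew_z12_two _ _).symm]
  have hker : (lh (h.add z)).ker = ⊤ := by
    rw [eq_top_iff]
    intro σ _
    rw [MonoidHom.mem_ker]
    apply Ext.ext
    · exact hpar σ
    · show f σ + par z σ = 0
      rw [hzf]
      exact Ext.two_Z (f σ)
  unfold c2 ex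
  rw [hker, dabs_top]
  simp

theorem exists_W (D : Dat) (cx : (ℕ →₀ D.V) → D.Z → D.Z → ℕ)
    (h : ∀ x : ℕ →₀ D.V, adm x → Sol D x → ∃ (f : Gam → D.Z) (h : IsNormal D x f),
      ∀ z1 z2, cx x z1 z2 = c2 (lh (h.toIsLift.add (z12 z1 z2)))) :
    ∃ (T : ℕ) (W : D.V → D.V → (D.V → ZMod 8) → ℕ → ℕ), 1 ≤ W 0 0 (fun _ => 1) 0 ∧
      ∀ x : ℕ →₀ D.V, adm x → Sol D x → (∀ z1 z2, cx x z1 z2 ≤ T) ∧
        ∀ t, Nat.card {z : D.Z × D.Z // cx x z.1 z.2 = t} =
          W (x 1) (x 2) (fun v => (mfun x v : ZMod 8)) t := by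
  classical
  -- comparison of two parameters with the same data
  have key : ∀ x x' : ℕ →₀ D.V, adm x → Sol D x → adm x' → Sol D x' → x 1 = x' 1 → x 2 = x' 2 →
      (fun v => (mfun x v : ZMod 8)) = (fun v => (mfun x' v : ZMod 8)) →
      ∃ y1 y2 : D.Z, ∀ z1 z2 : D.Z, cx x z1 z2 = cx x' (z1 + y1) (z2 + y2) := by
    intro x x' hx hs hx' hs' h1 h2 hm
    obtain ⟨f, hf, hc⟩ := h x hx hs
    obtain ⟨f', hf', hc'⟩ := h x' hx' hs'
    obtain ⟨y1, y2, hy⟩ := c2_shift_of ew_lt ew_ki hx hx' hf.toIsLift hf'.toIsLift h1 h2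
      (fun v _ => congrFun hm v)
    exact ⟨y1, y2, fun z1 z2 => by rw [hc, hc', hy]⟩
  have kcard : ∀ x x' : ℕ →₀ D.V, adm x → Sol D x → adm x' → Sol D x' → x 1 = x' 1 →
      x 2 = x' 2 → (fun v => (mfun x v : ZMod 8)) = (fun v => (mfun x' v : ZMod 8)) →
      ∀ t, Nat.card {z : D.Z × D.Z // cx x z.1 z.2 = t} =
        Nat.card {z : D.Z × D.Z // cx x' z.1 z.2 = t} := by
    intro x x' hx hs hx' hs' h1 h2 hm t
    obtain ⟨y1, y2, hy⟩ := key x x' hx hs hx' hs' h1 h2 hm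
    apply Nat.card_congr
    refine Equiv.subtypeEquiv ((Equiv.addRight y1).prodCongr (Equiv.addRight y2)) ?_
    intro z
    rw [hy z.1 z.2]
    rfl
  -- representatives
  let P : D.V × D.V × (D.V → ZMod 8) → (ℕ →₀ D.V) → Prop := fun d x =>
    adm x ∧ Sol D x ∧ x 1 = d.1 ∧ x 2 = d.2.1 ∧ (fun v => (mfun x v : ZMod 8)) = d.2.2
  let R : D.V × D.V × (D.V → ZMod 8) → (ℕ →₀ D.V) := fun d =>
    if hd : ∃ x, P d x then hd.choose else 0
  have hR : ∀ x : ℕ →₀ D.V, adm x → Sol D x →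
      P (x 1, x 2, fun v => (mfun x v : ZMod 8)) (R (x 1, x 2, fun v => (mfun x v : ZMod 8))) := by
    intro x hx hs
    have hd : ∃ x', P (x 1, x 2, fun v => (mfun x v : ZMod 8)) x' :=
      ⟨x, hx, hs, rfl, rfl, rfl⟩
    simp only [R, dif_pos hd]
    exact hd.choose_spec
  refine ⟨∑ d : D.V × D.V × (D.V → ZMod 8), ∑ z : D.Z × D.Z, cx (R d) z.1 z.2,
    fun a b δ t => Nat.card {z : D.Z × D.Z // cx (R (a, b, δ)) z.1 z.2 = t}, ?_, ?_⟩
  · have h0 : (fun v : D.V => ((mfun (0 : ℕ →₀ D.V) v : ℕ) : ZMod 8)) = fun _ => 1 := by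
      funext v
      rw [ew_mfun_zero, Nat.cast_one]
    have hR0 := hR 0 ew_adm_zero (ew_sol_zero D)
    rw [h0] at hR0
    obtain ⟨hr1, hr2, hr3, hr4, hr5⟩ := hR0
    have hk := kcard 0 (R (0, 0, fun _ => 1)) ew_adm_zero (ew_sol_zero D) hr1 hr2 hr3.symm hr4.symm
      (h0.trans hr5.symm) 0
    obtain ⟨f, hf, hc⟩ := h 0 ew_adm_zero (ew_sol_zero D)
    obtain ⟨z1, z2, hz⟩ := ew_zero D hf.toIsLift
    show 1 ≤ Nat.card {z : D.Z × D.Z // cx (R (0, 0, fun _ => 1)) z.1 z.2 = 0}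
    rw [← hk]
    have : Nonempty {z : D.Z × D.Z // cx 0 z.1 z.2 = 0} := ⟨⟨(z1, z2), by rw [hc]; exact hz⟩⟩
    exact Nat.card_pos
  · intro x hx hs
    obtain ⟨hr1, hr2, hr3, hr4, hr5⟩ := hR x hx hs
    refine ⟨fun z1 z2 => ?_, fun t => ?_⟩
    · obtain ⟨y1, y2, hy⟩ := key x _ hx hs hr1 hr2 hr3.symm hr4.symm hr5.symm
      rw [hy]
      refine le_trans ?_ (Finset.single_le_sum (f := fun d : D.V × D.V × (D.V → ZMod 8) =>
        ∑ z : D.Z × D.Z, cx (R d) z.1 z.2) (fun _ _ => Nat.zero_le _)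
        (Finset.mem_univ (x 1, x 2, fun v => (mfun x v : ZMod 8))))
      exact Finset.single_le_sum (f := fun z : D.Z × D.Z =>
        cx (R (x 1, x 2, fun v => (mfun x v : ZMod 8))) z.1 z.2) (fun _ _ => Nat.zero_le _)
        (Finset.mem_univ (z1 + y1, z2 + y2))
    · exact kcard x _ hx hs hr1 hr2 hr3.symm hr4.symm hr5.symm t

end Pool.Agent.H98.MK
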