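import Pool.Agent.H98.MK.SolSets

/-!
# Project MK: the parameters with given products of primes
-/

set_option autoImplicit false

open scoped BigOperators

namespace Pool.Agent.H98.MK

open SolS

section
variable {D : Dat} {m : D.V → ℕ}

theorem ex_sqf (hm : Squarefree (2 * ∏ v, m v)) (v : D.V) : Squarefree (m v) :=
  hm.squarefree_of_dvd ((Finset.dvd_prod_of_mem m (Finset.mem_univ v)).mul_left 2)

theorem ex_odd (hm : Squarefree (2 * ∏ v, m v)) (v : D.V) : ¬ 2 ∣ m v := by
  intro h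
  have h1 : 2 * 2 ∣ 2 * ∏ v, m v :=
    mul_dvd_mul_left 2 (h.trans (Finset.dvd_prod_of_mem m (Finset.mem_univ v)))
  have h2 := hm 2 h1
  rw [Nat.isUnit_iff] at h2
  omega

theorem ex_uniq (hm : Squarefree (2 * ∏ v, m v)) {u v : D.V} {p : ℕ} (hp : p.Prime)
    (hu : p ∣ m u) (hv : p ∣ m v) : u = v := by
  classical
  by_contra huv
  have h1 : m u * m v ∣ ∏ v, m v := by
    rw [← Finset.mul_prod_erase Finset.univ m (Finset.mem_univ u)]
    apply mul_dvd_mul_left
    exact Finset.dvd_prod_of_mem m (Finset.mem_erase.2 ⟨fun h => huv h.symm, Finset.mem_univ v⟩)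
  have h2 : p * p ∣ 2 * ∏ v, m v := ((mul_dvd_mul hu hv).trans h1).mul_left 2
  have h3 := hm p h2
  rw [Nat.isUnit_iff] at h3
  exact hp.ne_one h3

open Classical in
/-- the value at `p` -/
noncomputable def xval (a b : D.V) (m : D.V → ℕ) (p : ℕ) : D.V :=
  if p = 1 then a else if p = 2 then b else
    if h : p.Prime ∧ ∃ v, p ∣ m v then Classical.choose h.2 else 0

theorem xval_prime (hm : Squarefree (2 * ∏ v, m v)) (a b : D.V) {v : D.V} {p : ℕ}
    (hp : p.Prime) (hv : p ∣ m v) : xval a b m p = v := by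
  unfold xval
  have h1 : p ≠ 1 := hp.ne_one
  have h2 : p ≠ 2 := fun h => ex_odd hm v (h ▸ hv)
  have h3 : p.Prime ∧ ∃ v, p ∣ m v := ⟨hp, v, hv⟩
  rw [if_neg h1, if_neg h2, dif_pos h3]
  exact ex_uniq hm hp (Classical.choose_spec h3.2) hv

theorem xval_ne (a b : D.V) {p : ℕ} (h1 : p ≠ 1) (h2 : p ≠ 2) (h : xval a b m p ≠ 0) :
    p.Prime ∧ p ∣ m (xval a b m p) := by
  unfold xval at h ⊢
  rw [if_neg h1, if_neg h2] at h ⊢
  by_cases h3 : p.Prime ∧ ∃ v, p ∣ m v
  · rw [dif_pos h3]
    exact ⟨h3.1, Classical.choose_spec h3.2⟩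
  · rw [dif_neg h3] at h
    exact absurd rfl h

end

theorem exists_x (D : Dat) (a b : D.V) (m : D.V → ℕ) (h0 : m 0 = 1)
    (hm : Squarefree (2 * ∏ v, m v)) :
    ∃! x : ℕ →₀ D.V, adm x ∧ x 1 = a ∧ x 2 = b ∧ mfun x = m := by
  classical
  set S : Finset ℕ := {1, 2} ∪ Finset.univ.biUnion (fun v => (m v).primeFactors) with hS
  have hfin : ∀ p, xval a b m p ≠ 0 → p ∈ S := by
    intro p hp
    by_cases h1 : p = 1
    · simp [hS, h1]
    · by_cases h2 : p = 2
      · simp [hS, h2]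
      · obtain ⟨q1, q2⟩ := xval_ne a b h1 h2 hp
        rw [hS, Finset.mem_union]
        right
        rw [Finset.mem_biUnion]
        exact ⟨_, Finset.mem_univ _, Nat.mem_primeFactors.2 ⟨q1, q2, (ex_sqf hm _).ne_zero⟩⟩
  have hx : ∀ p, (Finsupp.onFinset S (xval a b m) hfin) p = xval a b m p := fun p => rfl
  refine ⟨Finsupp.onFinset S (xval a b m) hfin, ⟨?_, ?_, ?_, ?_⟩, ?_⟩
  · intro p hp
    rw [hx] at hp
    by_cases h1 : p = 1
    · exact Or.inl h1
    · by_cases h2 : p = 2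
      · exact Or.inr (h2 ▸ Nat.prime_two)
      · exact Or.inr (xval_ne a b h1 h2 hp).1
  · rw [hx]
    simp [xval]
  · rw [hx]
    simp [xval]
  · funext v
    rw [mfun_eq]
    have h1 : As (Finsupp.onFinset S (xval a b m) hfin) v = (m v).primeFactors := by
      ext p
      rw [mem_As, hx, Nat.mem_primeFactors]
      constructor
      · rintro ⟨q1, q2, q3, rfl⟩
        have := xval_ne a b q2 q3 q1
        exact ⟨this.1, this.2, (ex_sqf hm _).ne_zero⟩
      · rintro ⟨q1, q2, -⟩
        have h2 : xval a b m p = v := xval_prime hm a b q1 q2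
        refine ⟨?_, q1.ne_one, fun h => ex_odd hm v (h ▸ q2), h2⟩
        rw [h2]
        rintro rfl
        rw [h0, Nat.dvd_one] at q2
        exact q1.ne_one q2
    rw [h1]
    exact Nat.prod_primeFactors_of_squarefree (ex_sqf hm v)
  · rintro y ⟨y1, y2, y3, y4⟩
    ext p : 1
    rw [hx]
    by_cases h1 : p = 1
    · rw [h1, y2]
      simp [xval]
    · by_cases h2 : p = 2
      · rw [h2, y3]
        simp [xval]
      · by_cases h3 : y p = 0
        · rw [h3]
          by_contra h4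
          obtain ⟨q1, q2⟩ := xval_ne a b h1 h2 (Ne.symm h4)
          have h5 : p ∈ As y (xval a b m p) := by
            rw [← pf_mfun y1, y4]
            exact Nat.mem_primeFactors.2 ⟨q1, q2, (ex_sqf hm _).ne_zero⟩
          exact (mem_As.1 h5).1 h3
        · have h5 : p ∈ As y (y p) := mem_As.2 ⟨h3, h1, h2, rfl⟩
          rw [← pf_mfun y1, y4, Nat.mem_primeFactors] at h5
          exact (xval_prime hm a b h5.1 h5.2.1).symm

end Pool.Agent.H98.MK
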