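import Pool.Agent.H98.MK.Expand2

/-!
# Project MK, row N2: the expansion of `D.S` over the indices `(v, ζ)` (helper36)
-/

set_option autoImplicit false

open scoped BigOperators
open Filter

namespace Pool.Agent.H98.MK

theorem xp_mof_pos (D : Dat) (x : D.P → ℕ) (hx : ∀ i, 1 ≤ x i) (v : D.V) : 1 ≤ D.mof x v := by
  by_cases hv : v = 0
  · rw [hv, xp_mof_zero]
  · rw [xp_mof D x hv]
    exact Nat.one_le_iff_ne_zero.2 (Finset.prod_ne_zero_iff.2 fun ζ _ =>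
      Nat.one_le_iff_ne_zero.1 (hx _))

theorem xp_wt_ge (D : Dat) (v : D.V) : 1 ≤ D.wt v := by
  unfold Dat.wt
  split_ifs
  · exact le_rfl
  · norm_num

theorem xp_mof_le (D : Dat) (x : D.P → ℕ) (hx : ∀ i, 1 ≤ x i) (Y : ℝ)
    (hY : ∏ i, (x i : ℝ) ^ we D.isoP i ≤ Y) (v : D.V) : D.mof x v ≤ ⌊Y⌋₊ := by
  have hm : ∀ u, (1 : ℝ) ≤ D.mof x u := fun u => by exact_mod_cast xp_mof_pos D x hx u
  refine Nat.le_floor ?_
  have h1 : D.mof x v ≤ ∏ u, D.mof x u :=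
    Nat.le_of_dvd (Finset.prod_pos fun u _ => xp_mof_pos D x hx u)
      (Finset.dvd_prod_of_mem _ (Finset.mem_univ v))
  have h2 : (D.mof x v : ℝ) ≤ ∏ u, (D.mof x u : ℝ) := by exact_mod_cast h1
  have h3 : ∏ u, (D.mof x u : ℝ) ≤ ∏ u, (D.mof x u : ℝ) ^ D.wt u :=
    Finset.prod_le_prod (fun u _ => Nat.cast_nonneg _) fun u _ =>
      Real.self_le_rpow_of_one_le (hm u) (xp_wt_ge D u)
  have h4 : (1 : ℝ) ≤ ∏ z : D.Z, (x (0, z) : ℝ) := by
    have h5 : 1 ≤ ∏ z : D.Z, x (0, z) := Nat.succ_le_of_lt (Finset.prod_pos fun z _ => hx _)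
    exact_mod_cast h5
  have h6 : 0 ≤ ∏ u, (D.mof x u : ℝ) ^ D.wt u :=
    Finset.prod_nonneg fun u _ => Real.rpow_nonneg (Nat.cast_nonneg _) _
  calc (D.mof x v : ℝ) ≤ ∏ u, (D.mof x u : ℝ) ^ D.wt u := h2.trans h3
    _ ≤ (∏ u, (D.mof x u : ℝ) ^ D.wt u) * ∏ z : D.Z, (x (0, z) : ℝ) :=
        le_mul_of_one_le_right h6 h4
    _ ≤ Y := by rw [← xp_prod_wt]; exact hY

open Classical in
theorem expand (D : Dat) (θ : D.V → D.V → (D.V → ZMod 8) → Finset D.V → ℝ) (Y : ℝ) :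
    D.S θ Y = ∑ a : D.V, ∑ b : D.V,
      ∑ x ∈ Fintype.piFinset (fun _ : D.P => Finset.Icc 1 ⌊Y⌋₊),
        if x 0 = 1 ∧ Squarefree (2 * ∏ i, x i) ∧ ∏ i, (x i : ℝ) ^ we D.isoP i ≤ Y
        then (D.sgn a b x : ℝ) * θ a b (fun v => (D.mof x v : ZMod 8))
          (Finset.univ.filter fun v => D.mof x v ≠ 1)
        else 0 := by
  unfold Dat.S
  refine Finset.sum_congr rfl fun a _ => Finset.sum_congr rfl fun b _ => ?_
  rw [← Finset.sum_product', ← Finset.sum_filter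
    (s := Fintype.piFinset (fun _ : D.P => Finset.Icc 1 ⌊Y⌋₊))]
  symm
  have hmaps : ∀ x ∈ (Fintype.piFinset (fun _ : D.P => Finset.Icc 1 ⌊Y⌋₊)).filter (fun x =>
      x 0 = 1 ∧ Squarefree (2 * ∏ i, x i) ∧ ∏ i, (x i : ℝ) ^ we D.isoP i ≤ Y),
      (D.mof x, fun z : D.Z => x (0, z)) ∈ (Fintype.piFinset fun _ : D.V => Finset.Icc 1 ⌊Y⌋₊) ×ˢ
        (Fintype.piFinset fun _ : D.Z => Finset.Icc 1 ⌊Y⌋₊) := by
    intro x hx
    obtain ⟨h1, -, -, h4⟩ := Finset.mem_filter.1 hx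
    have h5 : ∀ i, 1 ≤ x i ∧ x i ≤ ⌊Y⌋₊ := fun i =>
      Finset.mem_Icc.1 (Fintype.mem_piFinset.1 h1 i)
    refine Finset.mem_product.2 ⟨Fintype.mem_piFinset.2 fun v => Finset.mem_Icc.2 ⟨?_, ?_⟩,
      Fintype.mem_piFinset.2 fun z => Finset.mem_Icc.2 (h5 _)⟩
    · exact xp_mof_pos D x (fun i => (h5 i).1) v
    · exact xp_mof_le D x (fun i => (h5 i).1) Y h4 v
  rw [← Finset.sum_fiberwise_of_maps_to hmaps]
  refine Finset.sum_congr rfl fun y hy => ?_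
  obtain ⟨m, E⟩ := y
  obtain ⟨hm1, hE1⟩ := Finset.mem_product.1 hy
  have hm2 : ∀ v, 1 ≤ m v ∧ m v ≤ ⌊Y⌋₊ := fun v =>
    Finset.mem_Icc.1 (Fintype.mem_piFinset.1 hm1 v)
  have hE2 : ∀ z, 1 ≤ E z ∧ E z ≤ ⌊Y⌋₊ := fun z =>
    Finset.mem_Icc.1 (Fintype.mem_piFinset.1 hE1 z)
  have hmem : ∀ x : D.P → ℕ, x ∈ ((Fintype.piFinset (fun _ : D.P => Finset.Icc 1 ⌊Y⌋₊)).filter
      (fun x => x 0 = 1 ∧ Squarefree (2 * ∏ i, x i) ∧
        ∏ i, (x i : ℝ) ^ we D.isoP i ≤ Y)).filter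
      (fun x => (D.mof x, fun z : D.Z => x (0, z)) = (m, E)) ↔
      (∀ i, x i ∈ Finset.Icc 1 ⌊Y⌋₊) ∧ D.mof x = m ∧ (fun z : D.Z => x (0, z)) = E ∧
      E 0 = 1 ∧ Squarefree (2 * (∏ v, m v) * ∏ z, E z) ∧
        (∏ v, (m v : ℝ) ^ D.wt v) * ∏ z, (E z : ℝ) ≤ Y := by
    intro x
    rw [Finset.mem_filter, Finset.mem_filter, Fintype.mem_piFinset, Prod.mk.injEq,
      xp_prod_nat, xp_prod_wt, ← mul_assoc]
    constructor
    · rintro ⟨⟨h1, h2, h3, h4⟩, h5, h6⟩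
      subst h5
      subst h6
      exact ⟨h1, rfl, rfl, h2, h3, h4⟩
    · rintro ⟨h1, h2, h3, h4, h5, h6⟩
      subst h2
      subst h3
      exact ⟨⟨h1, h4, h5, h6⟩, rfl, rfl⟩
  by_cases hc : m 0 = 1 ∧ E 0 = 1 ∧ Squarefree (2 * (∏ v, m v) * ∏ z, E z) ∧
      (∏ v, (m v : ℝ) ^ D.wt v) * ∏ z, (E z : ℝ) ≤ Y
  · rw [if_pos hc]
    obtain ⟨hc1, hc2, hc3, hc4⟩ := hc
    have hmsq : ∀ v, Squarefree (m v) := fun v =>
      hc3.squarefree_of_dvd (((Finset.dvd_prod_of_mem m (Finset.mem_univ v)).trans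
        (dvd_mul_left _ _)).trans (dvd_mul_right _ _))
    have e1 : ((D.g a b m : ℕ) : ℝ) = ((D.g a b m : ℤ) : ℝ) := (Int.cast_natCast _).symm
    rw [e1, xp_g D a b m hmsq, Int.cast_sum, Finset.sum_mul]
    refine Finset.sum_bij' (fun x _ v ζ => if v = 0 then 1 else x (v, ζ))
      (fun d _ i => if i.1 = 0 then E i.2 else d i.1 i.2) ?_ ?_ ?_ ?_ ?_
    · intro x hx
      obtain ⟨-, h2, -⟩ := (hmem x).1 hx
      refine Fintype.mem_piFinset.2 fun v => Finset.mem_filter.2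
        ⟨Fintype.mem_piFinset.2 fun ζ => Nat.mem_divisors.2 ⟨?_, (hmsq v).ne_zero⟩, ?_⟩
      · by_cases hv : v = 0
        · rw [if_pos hv]
          exact one_dvd _
        · rw [if_neg hv, ← h2, xp_mof D x hv]
          exact Finset.dvd_prod_of_mem (fun ζ => x (v, ζ)) (Finset.mem_univ ζ)
      · by_cases hv : v = 0
        · simp [hv, hc1]
        · simp only [if_neg hv]
          rw [← h2, xp_mof D x hv]
    · intro d hd
      have hd1 : ∀ v, (∀ ζ, d v ζ ∣ m v) ∧ ∏ ζ, d v ζ = m v := fun v => by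
        obtain ⟨h1, h2⟩ := Finset.mem_filter.1 (Fintype.mem_piFinset.1 hd v)
        exact ⟨fun ζ => Nat.dvd_of_mem_divisors (Fintype.mem_piFinset.1 h1 ζ), h2⟩
      refine (hmem _).2 ⟨fun i => ?_, ?_, ?_, hc2, hc3, hc4⟩
      · by_cases hi : i.1 = 0
        · rw [if_pos hi]
          exact Finset.mem_Icc.2 (hE2 _)
        · rw [if_neg hi]
          refine Finset.mem_Icc.2 ⟨?_, ?_⟩
          · exact Nat.pos_of_dvd_of_pos ((hd1 i.1).1 i.2) (hm2 i.1).1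
          · exact (Nat.le_of_dvd (hm2 i.1).1 ((hd1 i.1).1 i.2)).trans (hm2 i.1).2
      · funext v
        by_cases hv : v = 0
        · rw [hv, xp_mof_zero, hc1]
        · rw [xp_mof D _ hv, ← (hd1 v).2]
          refine Finset.prod_congr rfl fun ζ _ => ?_
          rw [if_neg hv]
      · funext z
        rw [if_pos rfl]
    · intro x hx
      obtain ⟨-, -, h3, -⟩ := (hmem x).1 hx
      funext i
      obtain ⟨v, ζ⟩ := i
      by_cases hv : v = 0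
      · subst hv
        rw [if_pos rfl, ← h3]
      · simp only [if_neg hv]
    · intro d hd
      have hd1 : ∀ v ζ, d v ζ ∣ m v := fun v ζ => by
        obtain ⟨h1, -⟩ := Finset.mem_filter.1 (Fintype.mem_piFinset.1 hd v)
        exact Nat.dvd_of_mem_divisors (Fintype.mem_piFinset.1 h1 ζ)
      funext v ζ
      by_cases hv : v = 0
      · subst hv
        rw [if_pos rfl]
        have h1 := hd1 0 ζ
        rw [hc1] at h1
        exact (Nat.dvd_one.1 h1).symm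
      · simp only [if_neg hv]
    · intro x hx
      obtain ⟨-, h2, h3, -⟩ := (hmem x).1 hx
      have hsq : Squarefree (2 * ∏ i, x i) := by
        rw [xp_prod_nat, ← mul_assoc, h2]
        have h4 : ∏ z : D.Z, x (0, z) = ∏ z, E z := by rw [← h3]
        rw [h4]
        exact hc3
      have h5 := xp_sign D a b x hsq
      rw [h2] at h5
      rw [← h5, h2]
  · rw [if_neg hc]
    refine Finset.sum_eq_zero fun x hx => ?_
    obtain ⟨-, h2, h3, h4, h5, h6⟩ := (hmem x).1 hx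
    exact absurd ⟨by rw [← h2, xp_mof_zero], h4, h5, h6⟩ hc

end Pool.Agent.H98.MK
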