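import Pool.Agent.H98.MK.NDefs

/-!
# Project MK (MP_a3214d), row N5: Fourier inversion modulo eight, conversion to the basic sums
-/

set_option autoImplicit false

open scoped BigOperators
open Filter

namespace Pool.Agent.H98.MK

/-- orthogonality of the four characters on the units modulo eight -/
private theorem n5_orth (u w : ZMod 8) (hu : u ∈ ({1, 3, 5, 7} : Finset (ZMod 8)))
    (hw : w ∈ ({1, 3, 5, 7} : Finset (ZMod 8))) :
    ∑ c : Fin 4, p8 c w * p8 c u = if w = u then 4 else 0 := by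
  revert u w
  decide

/-- the sum over the characters supported in `σ` -/
private theorem n5_sum (D : Dat) (σ : Finset D.P) (u w : D.P → ZMod 8) (hu : u ∈ D.U8 σ)
    (hw : w ∈ D.U8 σ) :
    ∑ c ∈ D.C4 σ, (∏ i ∈ σ, p8 (c i) (w i)) * (∏ i ∈ σ, p8 (c i) (u i)) =
      if w = u then 4 ^ σ.card else 0 := by
  classical
  have h1 : ∀ c : D.P → Fin 4, (∏ i ∈ σ, p8 (c i) (w i)) * (∏ i ∈ σ, p8 (c i) (u i)) =
      ∏ i : D.P, (if i ∈ σ then p8 (c i) (w i) * p8 (c i) (u i) else 1) := by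
    intro c
    rw [← Finset.prod_mul_distrib, Finset.prod_ite_mem, Finset.univ_inter]
  have h2 : ∑ c ∈ D.C4 σ, (∏ i ∈ σ, p8 (c i) (w i)) * (∏ i ∈ σ, p8 (c i) (u i)) =
      ∏ i : D.P, ∑ e ∈ (if i ∈ σ then (Finset.univ : Finset (Fin 4)) else {0}),
        (if i ∈ σ then p8 e (w i) * p8 e (u i) else 1) := by
    rw [Finset.prod_univ_sum]
    refine Finset.sum_congr ?_ fun c _ => h1 c
    unfold Dat.C4
    congr 1
  have hu' := Fintype.mem_piFinset.1 hu
  have hw' := Fintype.mem_piFinset.1 hw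
  have h3 : ∀ i : D.P, ∑ e ∈ (if i ∈ σ then (Finset.univ : Finset (Fin 4)) else {0}),
        (if i ∈ σ then p8 e (w i) * p8 e (u i) else 1) =
      if i ∈ σ then (if w i = u i then 4 else 0) else 1 := by
    intro i
    by_cases hi : i ∈ σ
    · have a1 := hu' i
      have a2 := hw' i
      simp only [hi, if_true] at a1 a2 ⊢
      exact n5_orth (u i) (w i) a1 a2
    · simp [hi]
  rw [h2, Finset.prod_congr rfl fun i _ => h3 i]
  by_cases h : w = u
  · subst h
    rw [if_pos rfl, Finset.prod_ite_mem, Finset.univ_inter]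
    simp
  · rw [if_neg h]
    have h4 : ∃ i, w i ≠ u i := by
      by_contra h5
      push Not at h5
      exact h (funext h5)
    obtain ⟨i, hi⟩ := h4
    refine Finset.prod_eq_zero (Finset.mem_univ i) ?_
    have hiσ : i ∈ σ := by
      by_contra h6
      have a1 := hu' i
      have a2 := hw' i
      simp only [h6, if_false, Finset.mem_singleton] at a1 a2
      exact hi (by rw [a1, a2])
    rw [if_pos hiσ, if_neg hi]

theorem fourier (D : Dat) (σ : Finset D.P) (F : (D.P → ZMod 8) → ℝ) (u : D.P → ZMod 8)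
    (hu : u ∈ D.U8 σ) :
    F u = ∑ c ∈ D.C4 σ, ((1 / 4) ^ σ.card * ∑ w ∈ D.U8 σ, F w * ((∏ i ∈ σ, p8 (c i) (w i) : ℤ) : ℝ))
      * ((∏ i ∈ σ, p8 (c i) (u i) : ℤ) : ℝ) := by
  classical
  have h1 : ∑ c ∈ D.C4 σ, ((1 / 4) ^ σ.card *
        ∑ w ∈ D.U8 σ, F w * ((∏ i ∈ σ, p8 (c i) (w i) : ℤ) : ℝ))
      * ((∏ i ∈ σ, p8 (c i) (u i) : ℤ) : ℝ) =
      (1 / 4 : ℝ) ^ σ.card * ∑ w ∈ D.U8 σ, F w *
        ((∑ c ∈ D.C4 σ, (∏ i ∈ σ, p8 (c i) (w i)) * (∏ i ∈ σ, p8 (c i) (u i)) : ℤ) : ℝ) := by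
    rw [Finset.mul_sum]
    have h2 : ∀ w ∈ D.U8 σ, (1 / 4 : ℝ) ^ σ.card * (F w *
        ((∑ c ∈ D.C4 σ, (∏ i ∈ σ, p8 (c i) (w i)) * (∏ i ∈ σ, p8 (c i) (u i)) : ℤ) : ℝ)) =
        ∑ c ∈ D.C4 σ, (1 / 4 : ℝ) ^ σ.card * (F w * ((∏ i ∈ σ, p8 (c i) (w i) : ℤ) : ℝ)) *
          ((∏ i ∈ σ, p8 (c i) (u i) : ℤ) : ℝ) := by
      intro w _
      rw [Int.cast_sum, Finset.mul_sum, Finset.mul_sum]
      refine Finset.sum_congr rfl fun c _ => ?_
      rw [Int.cast_mul]
      ring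
    rw [Finset.sum_congr rfl h2, Finset.sum_comm]
    refine Finset.sum_congr rfl fun c _ => ?_
    rw [Finset.mul_sum, Finset.sum_mul]
  rw [h1]
  have h3 : ∑ w ∈ D.U8 σ, F w *
        ((∑ c ∈ D.C4 σ, (∏ i ∈ σ, p8 (c i) (w i)) * (∏ i ∈ σ, p8 (c i) (u i)) : ℤ) : ℝ) =
      F u * 4 ^ σ.card := by
    rw [Finset.sum_eq_single_of_mem u hu]
    · rw [n5_sum D σ u u hu hu, if_pos rfl]
      push_cast
      ring
    · intro w hw hne
      rw [n5_sum D σ u w hu hw, if_neg hne]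
      simp
  rw [h3]
  have h4 : (1 / 4 : ℝ) ^ σ.card * (F u * 4 ^ σ.card) = F u * ((1 / 4) * 4) ^ σ.card := by
    rw [mul_pow]
    ring
  rw [h4]
  norm_num

private theorem n5_mem {α : Type} (i1 : DecidableEq α) [Fintype α] {δ : α → Type}
    (t : ∀ a, Finset (δ a)) (f : ∀ a, δ a) :
    f ∈ @Fintype.piFinset α i1 _ δ t ↔ ∀ a, f a ∈ t a := Fintype.mem_piFinset

/-- the characters modulo eight on odd numbers -/
private theorem n5_psi (c : Fin 4) (n : ℕ) (hn : Odd n) : psi c n = p8 c (n : ZMod 8) := by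
  have h1 : jacobiSym (-1) n = if n % 2 = 0 then 0 else if n % 4 = 1 then 1 else -1 := by
    rw [jacobiSym.at_neg_one hn, ZMod.χ₄_nat_eq_if_mod_four]
  have h2 : jacobiSym 2 n = if n % 2 = 0 then 0 else if n % 8 = 1 ∨ n % 8 = 7 then 1 else -1 := by
    rw [jacobiSym.at_two hn, ZMod.χ₈_nat_eq_if_mod_eight]
  have h3 : jacobiSym (-2) n = if n % 2 = 0 then 0 else if n % 8 = 1 ∨ n % 8 = 3 then 1 else -1 := by
    rw [jacobiSym.at_neg_two hn, ZMod.χ₈'_nat_eq_if_mod_eight]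
  have hm : n % 8 = 1 ∨ n % 8 = 3 ∨ n % 8 = 5 ∨ n % 8 = 7 := by
    have := Nat.odd_iff.1 hn
    omega
  have h4 : (n : ZMod 8) = ((n % 8 : ℕ) : ZMod 8) := by rw [ZMod.natCast_mod]
  have h5 : n % 4 = n % 8 % 4 := by omega
  have h6 : n % 2 = n % 8 % 2 := by omega
  rw [h5, h6] at h1
  rw [h6] at h2 h3
  unfold psi p8
  rw [h1, h2, h3, h4]
  rcases hm with h | h | h | h <;> rw [h] <;> fin_cases c <;> decide

theorem SX_TS (D : Dat) (σ : Finset D.P) (c : D.P → Fin 4) (Y : ℝ) :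
    D.SX σ Y (fun x => ((∏ i ∈ σ, p8 (c i) (x i : ZMod 8) : ℤ) : ℝ) * (jp D.L x : ℝ)) =
      D.TSσ σ c Y := by
  classical
  unfold Dat.SX Dat.TSσ TS
  refine Finset.sum_bij' (fun x _ => fun i : {i // i ∈ σ} => x i.1)
    (fun y _ => fun i => if h : i ∈ σ then y ⟨i, h⟩ else 1) ?_ ?_ ?_ ?_ ?_
  · intro x hx
    have hx' := (n5_mem _ _ _).1 hx
    refine (n5_mem _ _ _).2 fun i => ?_
    have := hx' i.1
    rwa [if_pos i.2] at this
  · intro y hy
    have hy := (n5_mem _ _ _).1 hy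
    refine (n5_mem _ _ _).2 fun i => ?_
    by_cases h : i ∈ σ
    · rw [if_pos h]
      simp only [h, dif_pos]
      exact hy ⟨i, h⟩
    · rw [if_neg h]
      simp [h]
  · intro x hx
    funext i
    by_cases h : i ∈ σ
    · simp [h]
    · have := (n5_mem _ _ _).1 hx i
      rw [if_neg h, Finset.mem_singleton] at this
      simp [h, this]
  · intro y _
    funext i
    simp
  · intro x hx
    have hx1 : ∀ i, i ∉ σ → x i = 1 := by
      intro i h
      have := (n5_mem _ _ _).1 hx i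
      rwa [if_neg h, Finset.mem_singleton] at this
    have e1 : ∏ i, x i = ∏ i : {i // i ∈ σ}, x i.1 := by
      rw [Finset.prod_coe_sort σ x]
      exact (Finset.prod_subset (Finset.subset_univ σ) fun i _ h => hx1 i h).symm
    have e2 : ∏ i, (x i : ℝ) ^ we D.isoP i =
        ∏ i : {i // i ∈ σ}, (x i.1 : ℝ) ^ we (fun i : {i // i ∈ σ} => D.isoP i.1) i := by
      have a1 : ∏ i : {i // i ∈ σ}, (x i.1 : ℝ) ^ we (fun i : {i // i ∈ σ} => D.isoP i.1) i =
          ∏ i : {i // i ∈ σ}, (x i.1 : ℝ) ^ we D.isoP i.1 := rfl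
      rw [a1, Finset.prod_coe_sort σ fun i => (x i : ℝ) ^ we D.isoP i]
      refine (Finset.prod_subset (Finset.subset_univ σ) fun i _ h => ?_).symm
      rw [hx1 i h]
      simp
    rw [e1, e2]
    by_cases hc : Squarefree (2 * ∏ i : {i // i ∈ σ}, x i.1) ∧
        ∏ i : {i // i ∈ σ}, (x i.1 : ℝ) ^ we (fun i : {i // i ∈ σ} => D.isoP i.1) i ≤ Y
    · rw [if_pos hc, if_pos hc, Int.cast_mul]
      have hodd : ∀ i : {i // i ∈ σ}, Odd (x i.1) := by
        intro i
        by_contra h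
        rw [Nat.not_odd_iff_even] at h
        have h1 : 2 ∣ ∏ i : {i // i ∈ σ}, x i.1 :=
          (even_iff_two_dvd.1 h).trans (Finset.dvd_prod_of_mem _ (Finset.mem_univ i))
        have h2 : 2 * 2 ∣ 2 * ∏ i : {i // i ∈ σ}, x i.1 := Nat.mul_dvd_mul_left 2 h1
        have h3 := hc.1 2 h2
        rw [Nat.isUnit_iff] at h3
        omega
      have g1 : (∏ i ∈ σ, p8 (c i) (x i : ZMod 8)) =
          ∏ i : {i // i ∈ σ}, psi (c i.1) (x i.1) := by
        rw [← Finset.prod_coe_sort σ fun i => p8 (c i) (x i : ZMod 8)]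
        exact Finset.prod_congr rfl fun i _ => (n5_psi _ _ (hodd i)).symm
      have g2 : jp D.L x = jp (fun i j : {i // i ∈ σ} => D.L i.1 j.1) fun i => x i.1 := by
        unfold jp
        have b1 : ∀ i, i ∉ σ → (∏ j, if D.L i j then jacobiSym (x i) (x j) else 1) = 1 := by
          intro i h
          refine Finset.prod_eq_one fun j _ => ?_
          rw [hx1 i h]
          simp
        have b2 : ∀ i, (∏ j, if D.L i j then jacobiSym (x i) (x j) else 1) =
            ∏ j : {j // j ∈ σ}, if D.L i j.1 then jacobiSym (x i) (x j.1) else 1 := by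
          intro i
          rw [Finset.prod_coe_sort σ fun j => if D.L i j then jacobiSym (x i) (x j) else 1]
          refine (Finset.prod_subset (Finset.subset_univ σ) fun j _ h => ?_).symm
          rw [hx1 j h]
          simp
        rw [← Finset.prod_subset (Finset.subset_univ σ) fun i _ h => b1 i h,
          ← Finset.prod_coe_sort σ fun i => ∏ j, if D.L i j then jacobiSym (x i) (x j) else 1]
        exact Finset.prod_congr rfl fun i _ => b2 i.1
      simp only [g1, g2]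
    · rw [if_neg hc, if_neg hc]

end Pool.Agent.H98.MK
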