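import Pool.Agent.H98.MK.ADefs
import Pool.Agent.H98.MK.Char8
import Pool.Agent.H98.MK.CharSqfree

/-!
# Project MK, row A4: auxiliary facts
-/

set_option autoImplicit false

open scoped BigOperators
open Filter

namespace Pool.Agent.H98.MK

theorem a4_jac (a : ℤ) (b : ℕ) : |((jacobiSym a b : ℤ) : ℝ)| ≤ 1 := by
  rcases jacobiSym.trichotomy a b with h | h | h <;> simp [h]

theorem a4_psi (c : Fin 4) (n : ℕ) : |((psi c n : ℤ) : ℝ)| ≤ 1 := by
  unfold psi
  split_ifs
  · simp
  · exact a4_jac _ _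
  · exact a4_jac _ _
  · exact a4_jac _ _

theorem a4_psi_mul (c : Fin 4) {a b : ℕ} (ha : Odd a) (hb : Odd b) :
    psi c (a * b) = psi c a * psi c b := by
  have : NeZero a := ⟨by rintro rfl; simp at ha⟩
  have : NeZero b := ⟨by rintro rfl; simp at hb⟩
  unfold psi
  split_ifs
  · simp
  · exact jacobiSym.mul_right _ _ _
  · exact jacobiSym.mul_right _ _ _
  · exact jacobiSym.mul_right _ _ _

open Classical in
/-- the character of modulus `8 Q` -/
noncomputable def a4_chi (Q : ℕ) (c : Fin 4) (n : ℕ) : ℝ :=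
  if Odd n then ((jacobiSym n Q * psi c n : ℤ) : ℝ) else 0

theorem a4_chi_mul (Q : ℕ) (c : Fin 4) (a b : ℕ) :
    a4_chi Q c (a * b) = a4_chi Q c a * a4_chi Q c b := by
  unfold a4_chi
  by_cases ha : Odd a
  · by_cases hb : Odd b
    · rw [if_pos (Nat.odd_mul.2 ⟨ha, hb⟩), if_pos ha, if_pos hb, a4_psi_mul c ha hb]
      push_cast
      rw [jacobiSym.mul_left]
      push_cast
      ring
    · rw [if_neg (fun h => hb (Nat.odd_mul.1 h).2), if_neg hb, mul_zero]
  · rw [if_neg (fun h => ha (Nat.odd_mul.1 h).1), if_neg ha, zero_mul]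

theorem a4_chi_abs (Q : ℕ) (c : Fin 4) (n : ℕ) : |a4_chi Q c n| ≤ 1 := by
  unfold a4_chi
  split_ifs
  · push_cast
    rw [abs_mul]
    exact mul_le_one₀ (a4_jac _ _) (abs_nonneg _) (a4_psi _ _)
  · simp

theorem a4_chi_sum (Q : ℕ) (hQ : Odd Q) (hQ2 : Squarefree Q) (c : Fin 4) (h : Q ≠ 1 ∨ c ≠ 0)
    (M : ℕ) : |∑ n ∈ Finset.Icc 1 M, a4_chi Q c n| ≤ 8 * Q := by
  have h1 := char8 Q hQ hQ2 c h M
  have h2 : ∑ n ∈ Finset.Icc 1 M, a4_chi Q c n =
      ((∑ n ∈ Finset.Icc 1 M, if Odd n then jacobiSym n Q * psi c n else 0 : ℤ) : ℝ) := by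
    rw [Int.cast_sum]
    refine Finset.sum_congr rfl fun n _ => ?_
    unfold a4_chi
    split_ifs
    · rfl
    · simp
  rw [h2, ← Int.cast_abs]
  exact_mod_cast h1

open Classical in
theorem a4_floor (f : ℕ → ℝ) (T : ℝ) (hT : 0 ≤ T) (N : ℕ) (hN : ⌊T⌋₊ ≤ N) :
    ∑ n ∈ Finset.Icc 1 ⌊T⌋₊, f n = ∑ n ∈ Finset.Icc 1 N, if (n : ℝ) ≤ T then f n else 0 := by
  rw [← Finset.sum_filter]
  refine Finset.sum_congr ?_ fun _ _ => rfl
  ext n
  simp only [Finset.mem_Icc, Finset.mem_filter]
  constructor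
  · rintro ⟨h1, h2⟩
    exact ⟨⟨h1, h2.trans hN⟩, (Nat.le_floor_iff hT).1 h2⟩
  · rintro ⟨⟨h1, -⟩, h2⟩
    exact ⟨h1, (Nat.le_floor_iff hT).2 h2⟩

open Classical in
theorem a4_inner (χ : ℕ → ℝ) (hmul : ∀ a b, χ (a * b) = χ a * χ b) (h1 : ∀ n, |χ n| ≤ 1)
    (q : ℝ) (hq : 1 ≤ q) (hs : ∀ M : ℕ, |∑ n ∈ Finset.Icc 1 M, χ n| ≤ q) (m : ℕ) (hm : 0 < m)
    (K X : ℝ) (hK : 1 ≤ K) (hX : 0 ≤ X) (N : ℕ) (hN : ⌊X⌋₊ ≤ N) :
    |∑ n ∈ Finset.Icc 1 N, if (Squarefree n ∧ Nat.Coprime n m) ∧ K < n ∧ (n : ℝ) ≤ X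
      then χ n else 0| ≤ 8 * (Nat.divisors m).card * Real.sqrt q * (X / Real.sqrt K) := by
  have hK0 : 0 < Real.sqrt K := Real.sqrt_pos.2 (by linarith)
  rcases le_or_gt X K with hXK | hKX
  · have h0 : (∑ n ∈ Finset.Icc 1 N, if (Squarefree n ∧ Nat.Coprime n m) ∧ K < n ∧ (n : ℝ) ≤ X
        then χ n else 0) = 0 := by
      refine Finset.sum_eq_zero fun n _ => ?_
      rw [if_neg]
      rintro ⟨-, h2, h3⟩
      linarith
    rw [h0, abs_zero]
    positivity
  · have hX1 : 1 ≤ X := by linarith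
    have e : (∑ n ∈ Finset.Icc 1 N, if (Squarefree n ∧ Nat.Coprime n m) ∧ K < n ∧ (n : ℝ) ≤ X
        then χ n else 0) =
        (∑ n ∈ Finset.Icc 1 ⌊X⌋₊, if Squarefree n ∧ Nat.Coprime n m then χ n else 0) -
        ∑ n ∈ Finset.Icc 1 ⌊K⌋₊, if Squarefree n ∧ Nat.Coprime n m then χ n else 0 := by
      rw [a4_floor _ X hX N hN, a4_floor _ K (by linarith) N
        ((Nat.floor_le_floor hKX.le).trans hN), ← Finset.sum_sub_distrib]
      refine Finset.sum_congr rfl fun n _ => ?_
      by_cases c1 : Squarefree n ∧ Nat.Coprime n m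
      · rw [if_pos c1]
        by_cases c2 : (n : ℝ) ≤ K
        · rw [if_neg (fun h => absurd h.2.1 (not_lt.2 c2)), if_pos (c2.trans hKX.le), if_pos c2,
            sub_self]
        · by_cases c3 : (n : ℝ) ≤ X
          · rw [if_pos ⟨c1, not_le.1 c2, c3⟩, if_pos c3, if_neg c2, sub_zero]
          · rw [if_neg (fun h => c3 h.2.2), if_neg c3, if_neg c2, sub_zero]
      · rw [if_neg (fun h => c1 h.1), if_neg c1]
        simp
    rw [e]
    have b1 := char_sqfree χ hmul h1 q hq hs m hm X hX1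
    have b2 := char_sqfree χ hmul h1 q hq hs m hm K hK
    have q0 : 0 ≤ q := by linarith
    have b3 : Real.sqrt (q * K) ≤ Real.sqrt (q * X) :=
      Real.sqrt_le_sqrt (mul_le_mul_of_nonneg_left hKX.le q0)
    have b4 : Real.sqrt (q * X) ≤ Real.sqrt q * (X / Real.sqrt K) := by
      rw [Real.sqrt_mul q0]
      refine mul_le_mul_of_nonneg_left ?_ (Real.sqrt_nonneg _)
      rw [le_div_iff₀ hK0]
      calc Real.sqrt X * Real.sqrt K ≤ Real.sqrt X * Real.sqrt X :=
            mul_le_mul_of_nonneg_left (Real.sqrt_le_sqrt hKX.le) (Real.sqrt_nonneg _)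
        _ = X := Real.mul_self_sqrt hX
    have t0 : (0 : ℝ) ≤ (Nat.divisors m).card := Nat.cast_nonneg _
    have b5 : (4 : ℝ) * (Nat.divisors m).card * Real.sqrt (q * K) ≤
        4 * (Nat.divisors m).card * Real.sqrt (q * X) :=
      mul_le_mul_of_nonneg_left b3 (by positivity)
    have b6 : (8 : ℝ) * (Nat.divisors m).card * Real.sqrt (q * X) ≤
        8 * (Nat.divisors m).card * (Real.sqrt q * (X / Real.sqrt K)) :=
      mul_le_mul_of_nonneg_left b4 (by positivity)
    refine (abs_sub _ _).trans ?_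
    linarith

open Classical in
theorem a4_split {ι : Type} [Fintype ι] (i : ι) (N : ℕ) (f : (ι → ℕ) → ℝ) :
    ∑ x ∈ Fintype.piFinset (fun _ : ι => Finset.Icc 1 N), f x =
      ∑ z ∈ Fintype.piFinset (fun j : ι => if j = i then ({1} : Finset ℕ) else Finset.Icc 1 N),
        ∑ n ∈ Finset.Icc 1 N, f (Function.update z i n) := by
  rw [← Finset.sum_product']
  refine Finset.sum_nbij' (fun x => (Function.update x i 1, x i))
    (fun p => Function.update p.1 i p.2) ?_ ?_ ?_ ?_ ?_
  · intro x hx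
    rw [Fintype.mem_piFinset] at hx
    rw [Finset.mem_product, Fintype.mem_piFinset]
    refine ⟨fun j => ?_, hx i⟩
    by_cases hj : j = i
    · subst hj
      simp
    · simp only [hj, if_false]
      rw [Function.update_of_ne hj]
      exact hx j
  · intro p hp
    rw [Finset.mem_product, Fintype.mem_piFinset] at hp
    rw [Fintype.mem_piFinset]
    intro j
    by_cases hj : j = i
    · subst hj
      rw [Function.update_self]
      exact hp.2
    · have h := hp.1 j
      rw [if_neg hj] at h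
      rw [Function.update_of_ne hj]
      exact h
  · intro x _
    simp
  · intro p hp
    rw [Finset.mem_product, Fintype.mem_piFinset] at hp
    have h := hp.1 i
    rw [if_pos rfl, Finset.mem_singleton] at h
    refine Prod.ext ?_ ?_
    · simp only [Function.update_idem]
      rw [← h, Function.update_eq_self]
    · simp
  · intro x _
    simp

open Classical in
theorem a4_jp {ι : Type} [Fintype ι] (L : ι → ι → Prop) (hL : ∀ i j, L i j → ¬ L j i) (i : ι)
    (z : ι → ℕ) (hz : z i = 1) (n : ℕ) :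
    jp L (Function.update z i n) = (∏ k, if L i k then jacobiSym n (z k) else 1) *
      (∏ j, if L j i then jacobiSym (z j) n else 1) * jp L z := by
  have hG : (∏ k, if L i k then jacobiSym n (z k) else 1) =
      ∏ j, ∏ k, (if j = i then (if L i k then jacobiSym n (z k) else 1) else 1) := by
    symm
    rw [Finset.prod_eq_single i]
    · simp
    · intro b _ hb
      simp [hb]
    · simp
  have hH : (∏ j, if L j i then jacobiSym (z j) n else 1) =
      ∏ j, ∏ k, (if k = i then (if L j i then jacobiSym (z j) n else 1) else 1) := by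
    refine Finset.prod_congr rfl fun j _ => ?_
    simp
  rw [hG, hH, jp, jp, ← Finset.prod_mul_distrib, ← Finset.prod_mul_distrib]
  refine Finset.prod_congr rfl fun j _ => ?_
  rw [← Finset.prod_mul_distrib, ← Finset.prod_mul_distrib]
  refine Finset.prod_congr rfl fun k _ => ?_
  by_cases hjk : L j k
  · rw [if_pos hjk, if_pos hjk]
    have hne : j ≠ k := fun h => by
      subst h
      exact hL _ _ hjk hjk
    by_cases hj : j = i
    · subst hj
      have hk : k ≠ j := fun h => hne h.symm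
      rw [Function.update_self, Function.update_of_ne hk, if_pos rfl, if_pos hjk, if_neg hk, hz]
      simp
    · by_cases hk : k = i
      · subst hk
        rw [Function.update_self, Function.update_of_ne hj, if_neg hj, if_pos rfl, if_pos hjk, hz]
        simp
      · rw [Function.update_of_ne hj, Function.update_of_ne hk, if_neg hj, if_neg hk]
        simp
  · rw [if_neg hjk, if_neg hjk]
    by_cases hj : j = i
    · subst hj
      by_cases hk : k = j
      · subst hk
        simp [hjk]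
      · simp [hjk, hk]
    · by_cases hk : k = i
      · subst hk
        simp [hj, hjk]
      · simp [hj, hk]

theorem a4_jp_abs {ι : Type} [Fintype ι] (L : ι → ι → Prop) (z : ι → ℕ) :
    |((jp L z : ℤ) : ℝ)| ≤ 1 := by
  unfold jp
  push_cast
  rw [Finset.abs_prod]
  refine Finset.prod_le_one (fun _ _ => abs_nonneg _) fun j _ => ?_
  rw [Finset.abs_prod]
  refine Finset.prod_le_one (fun _ _ => abs_nonneg _) fun k _ => ?_
  split_ifs
  · exact a4_jac _ _
  · simp

open Classical in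
theorem a4_upd {ι : Type} [Fintype ι] {M : Type} [CommMonoid M] (i : ι) (z : ι → ℕ) (n : ℕ)
    (f : ι → ℕ → M) : ∏ j, f j (Function.update z i n j) =
      f i n * ∏ j ∈ Finset.univ.erase i, f j (z j) := by
  rw [← Finset.mul_prod_erase Finset.univ _ (Finset.mem_univ i), Function.update_self]
  refine congrArg (f i n * ·) (Finset.prod_congr rfl fun j hj => ?_)
  rw [Function.update_of_ne (Finset.ne_of_mem_erase hj)]

theorem a4_tau_mul (a b : ℕ) :
    (Nat.divisors (a * b)).card ≤ (Nat.divisors a).card * (Nat.divisors b).card := by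
  rw [Nat.divisors_mul]
  exact Finset.card_mul_le

theorem a4_tau_prod {ι : Type} (s : Finset ι) (z : ι → ℕ) :
    (Nat.divisors (∏ j ∈ s, z j)).card ≤ ∏ j ∈ s, (Nat.divisors (z j)).card := by
  classical
  induction s using Finset.induction_on with
  | empty => simp
  | insert a s ha ih =>
    rw [Finset.prod_insert ha, Finset.prod_insert ha]
    exact (a4_tau_mul _ _).trans (Nat.mul_le_mul_left _ ih)

theorem a4_harm (N : ℕ) (Y : ℝ) (hY : 1 ≤ Y) (hN : N = ⌊Y⌋₊) :
    ∑ n ∈ Finset.Icc 1 N, ((n : ℝ))⁻¹ ≤ 1 + Real.log Y := by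
  have h := harmonic_floor_le_one_add_log Y hY
  rw [← hN, harmonic_eq_sum_Icc] at h
  push_cast at h
  exact h

theorem a4_tau_sum (N : ℕ) :
    ∑ n ∈ Finset.Icc 1 N, ((Nat.divisors n).card : ℝ) / n ≤
      (∑ n ∈ Finset.Icc 1 N, ((n : ℝ))⁻¹) ^ 2 := by
  classical
  let s : Finset (ℕ × ℕ) := (Finset.Icc 1 N ×ˢ Finset.Icc 1 N).filter fun p => p.1 * p.2 ≤ N
  have h1 : ∑ n ∈ Finset.Icc 1 N, ((Nat.divisors n).card : ℝ) / n =
      ∑ p ∈ s, ((p.1 : ℝ))⁻¹ * ((p.2 : ℝ))⁻¹ := by
    rw [← Finset.sum_fiberwise_of_maps_to (s := s) (t := Finset.Icc 1 N)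
      (g := fun p : ℕ × ℕ => p.1 * p.2)]
    · refine Finset.sum_congr rfl fun n hn => ?_
      have hn' := Finset.mem_Icc.1 hn
      have e : s.filter (fun p => p.1 * p.2 = n) = Nat.divisorsAntidiagonal n := by
        ext p
        simp only [s, Finset.mem_filter, Finset.mem_product, Finset.mem_Icc,
          Nat.mem_divisorsAntidiagonal]
        constructor
        · rintro ⟨⟨-, -⟩, h⟩
          exact ⟨h, by omega⟩
        · rintro ⟨h, -⟩
          have p1 : 0 < p.1 := Nat.pos_of_ne_zero fun h0 => by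
            rw [h0, zero_mul] at h
            omega
          have p2 : 0 < p.2 := Nat.pos_of_ne_zero fun h0 => by
            rw [h0, mul_zero] at h
            omega
          have l1 : p.1 ≤ n := h ▸ Nat.le_mul_of_pos_right _ p2
          have l2 : p.2 ≤ n := h ▸ Nat.le_mul_of_pos_left _ p1
          exact ⟨⟨⟨⟨p1, l1.trans hn'.2⟩, ⟨p2, l2.trans hn'.2⟩⟩, h ▸ hn'.2⟩, h⟩
      rw [e]
      have e2 : ∀ p ∈ Nat.divisorsAntidiagonal n, ((p.1 : ℝ))⁻¹ * ((p.2 : ℝ))⁻¹ = (n : ℝ)⁻¹ := by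
        intro p hp
        rw [← mul_inv, ← Nat.cast_mul, (Nat.mem_divisorsAntidiagonal.1 hp).1]
      rw [Finset.sum_congr rfl e2, Finset.sum_const, nsmul_eq_mul, div_eq_mul_inv,
        ← Nat.map_div_right_divisors, Finset.card_map]
    · intro p hp
      simp only [s, Finset.mem_filter, Finset.mem_product, Finset.mem_Icc] at hp
      rw [Finset.mem_Icc]
      exact ⟨Nat.mul_pos hp.1.1.1 hp.1.2.1, hp.2⟩
  rw [h1, sq, Finset.sum_mul_sum, ← Finset.sum_product']
  refine Finset.sum_le_sum_of_subset_of_nonneg (Finset.filter_subset _ _) fun p _ _ => ?_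
  positivity

end Pool.Agent.H98.MK
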