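import Pool.Agent.H98.MK.GSPair2
import Pool.Agent.H98.MK.Bilin

/-!
# Project MK: a linked isotropic pair, both large
-/

set_option autoImplicit false

open scoped BigOperators
open Filter

namespace Pool.Agent.H98.MK

/-- a linked isotropic pair, both large -/
theorem GS_pair {ι : Type} [Fintype ι] (iso : ι → Prop) (L : ι → ι → Prop)
    (hL : ∀ i j, L i j → ¬ L j i) (i j : ι) (hij : L i j) (hi : iso i) (hj : iso j) :
    ∃ C : ℝ, ∃ k : ℕ, ∀ (a : ι → ℕ → ℝ) (P Y : ℝ), (∀ l n, |a l n| ≤ 1) → 1 ≤ P → 1 ≤ Y →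
      (∀ n, a i n ≠ 0 → P < n) → (∀ n, a j n ≠ 0 → P < n) →
      |GS iso L a Y| ≤ C * Y * P ^ (-(1 / 12) : ℝ) * (1 + Real.log Y) ^ k :=
  GS_pair_of bilin iso L hL i j hij hi hj

end Pool.Agent.H98.MK
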