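import Pool.Agent.H98.MK.MDefs
import Pool.Agent.H98.MK.FldBasic

/-!
# Project MK, row M3, first part: the local package from the local lemma at odd primes
-/

set_option autoImplicit false

open scoped BigOperators

namespace Pool.Agent.H98.MK

/-- the index of the kernel of a homomorphism to a finite `2`-group -/
theorem m3_index {H : Type} [Group H] [Finite H] (m : ℕ) (hm : Nat.card H = 2 ^ m)
    (π : Gam →* H) : ∃ k : ℕ, π.ker.index = 2 ^ k := by
  have h1 : π.ker.index ∣ 2 ^ m := by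
    rw [Subgroup.index_ker, ← hm]
    exact Subgroup.card_subgroup_dvd_card _
  obtain ⟨k, _, hk⟩ := (Nat.dvd_prime_pow Nat.prime_two).1 h1
  exact ⟨k, hk⟩

theorem m3_cardExt (D : Dat) : Nat.card (Ext D) = 2 ^ (D.r + D.s) := by
  rw [Nat.card_congr (Ext.equivProd (D := D)), Nat.card_prod, Nat.card_fun, Nat.card_fun,
    Nat.card_zmod, Nat.card_eq_fintype_card, Nat.card_eq_fintype_card, Fintype.card_fin,
    Fintype.card_fin, pow_add]

theorem m3_lh_lc {D : Dat} {x : ℕ →₀ D.V} {f : Gam → D.Z} (h : IsLift D x f) :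
    IsLocallyConstant (lh h) :=
  IsLocallyConstant.comp₂ (par_lc x) h.lc (fun a b => (⟨a, b⟩ : Ext D))

/-- the order of an element of the quotient by the kernel -/
theorem m3_order {H : Type} [Group H] (ρ : Gam →* H) (τ : Gam) :
    orderOf (QuotientGroup.mk τ : Gam ⧸ ρ.ker) = orderOf (ρ τ) := by
  rw [← QuotientGroup.kerLift_mk ρ τ]
  exact (orderOf_injective (QuotientGroup.kerLift ρ) (QuotientGroup.kerLift_injective ρ) _).symm

/-- the combined homomorphism -/
noncomputable def m3_pi {D : Dat} {x : ℕ →₀ D.V} {f : Gam → D.Z} (h : IsLift D x f)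
    (T : Finset ℕ) : Gam →* Ext D × (T → Multiplicative (ZMod 2)) :=
  MonoidHom.mk' (fun σ => (lh h σ, fun i => Multiplicative.ofAdd (chi (dd i.1 : ℤ) σ)))
    (fun σ τ => by
      refine Prod.ext (map_mul _ _ _) (funext fun i => ?_)
      change Multiplicative.ofAdd (chi (dd i.1 : ℤ) (σ * τ)) = _
      rw [chi_hom, ofAdd_add]
      rfl)

theorem m3_pi_lc {D : Dat} {x : ℕ →₀ D.V} {f : Gam → D.Z} (h : IsLift D x f)
    (T : Finset ℕ) : IsLocallyConstant (m3_pi h T) := by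
  rw [IsLocallyConstant.iff_eventually_eq]
  intro σ
  have h1 : ∀ᶠ y in nhds σ, lh h y = lh h σ :=
    (IsLocallyConstant.iff_eventually_eq _).1 (m3_lh_lc h) σ
  have h2 : ∀ i : T, ∀ᶠ y in nhds σ, chi (dd i.1 : ℤ) y = chi (dd i.1 : ℤ) σ := fun i =>
    (IsLocallyConstant.iff_eventually_eq _).1 (chi_lc _) σ
  filter_upwards [h1, Filter.eventually_all.2 h2] with y hy1 hy2
  refine Prod.ext hy1 (funext fun i => ?_)
  change Multiplicative.ofAdd (chi (dd i.1 : ℤ) y) = Multiplicative.ofAdd (chi (dd i.1 : ℤ) σ)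
  rw [hy2 i]

theorem m3_pi_ker {D : Dat} {x : ℕ →₀ D.V} {f : Gam → D.Z} (h : IsLift D x f)
    (T : Finset ℕ) (σ : Gam) (hσ : σ ∈ (m3_pi h T).ker) :
    lh h σ = 1 ∧ ∀ i ∈ T, chi (dd i : ℤ) σ = 0 := by
  have h1 := MonoidHom.mem_ker.1 hσ
  refine ⟨congrArg Prod.fst h1, fun i hi => ?_⟩
  have h2 := congrFun (congrArg Prod.snd h1) ⟨i, hi⟩
  exact ofAdd_eq_one.1 h2

theorem m3_dvd (p i : ℕ) (hp : p.Prime) (hp2 : p ≠ 2) (hi : i = 1 ∨ i.Prime) (hip : i ≠ p) :
    ¬ (p : ℤ) ∣ dd i := by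
  intro h
  have hodd : ∀ j : ℕ, j.Prime → (p : ℤ) ∣ (j : ℤ) → j = p := fun j hj h =>
    ((Nat.prime_dvd_prime_iff_eq hp hj).1 (Int.natCast_dvd_natCast.1 h)).symm
  unfold dd at h
  rcases hi with rfl | hi
  · rw [if_pos rfl, dvd_neg] at h
    exact hp.one_lt.ne' (Nat.dvd_one.1 (by exact_mod_cast h))
  · rw [if_neg hi.one_lt.ne'] at h
    split_ifs at h with h2 h3
    · have h4 : 2 = p := hodd 2 Nat.prime_two (by exact_mod_cast h)
      exact hp2 h4.symm
    · exact hip (hodd i hi h)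
    · exact hip (hodd i hi ((dvd_neg).1 h))

/-- the local lemma at an odd prime for a lift and its twists, from the local lemma for
`Gal(Qbar/Q)` -/
theorem m3_local_pack (p : ℕ) (hp : p.Prime) (hp2 : p ≠ 2)
    (local_odd : ∀ (U : Subgroup Gam) [U.Normal] (_ : IsOpen (U : Set Gam)) (k : ℕ)
      (_ : U.index = 2 ^ k),
      ∃ τ φ : Gam, φ * τ * φ⁻¹ * (τ ^ p)⁻¹ ∈ U ∧
        (∀ (W : Subgroup Gam) [W.Normal], U ≤ W →
          (dabs (fld W)).factorization p * orderOf (QuotientGroup.mk τ : Gam ⧸ W) =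
            W.index * (orderOf (QuotientGroup.mk τ : Gam ⧸ W) - 1)) ∧
        (∀ d : ℤ, ¬ (p : ℤ) ∣ d → (∀ σ ∈ U, chi d σ = 0) →
          chi d τ = 0 ∧ chi d φ = lg (jacobiSym d p)) ∧
        ((∀ σ ∈ U, chi (dd p : ℤ) σ = 0) → chi (dd p : ℤ) τ = 1))
    {D : Dat} {x : ℕ →₀ D.V} {f : Gam → D.Z} (hx : adm x) (h : IsLift D x f)
    (S : Finset ℕ) (hS : ∀ i ∈ S, i = 1 ∨ i.Prime) :
    ∃ τ φ : Gam, lh h (φ * τ * φ⁻¹) = lh h (τ ^ p) ∧
      (∀ i ∈ S ∪ x.support, i ≠ p → chi (dd i : ℤ) τ = 0 ∧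
        chi (dd i : ℤ) φ = lg (jacobiSym (dd i) p)) ∧
      (p ∈ S ∪ x.support → chi (dd p : ℤ) τ = 1) ∧
      (∀ z : ℕ →₀ D.Z, z.support ⊆ S →
        ex p (lh (h.add z)) * orderOf (lh (h.add z) τ) =
          (lh (h.add z)).ker.index * (orderOf (lh (h.add z) τ) - 1)) := by
  set T : Finset ℕ := S ∪ x.support with hT
  have hTi : ∀ i ∈ T, i = 1 ∨ i.Prime := by
    intro i hi
    rcases Finset.mem_union.1 hi with h1 | h1
    · exact hS i h1
    · exact hx i (Finsupp.mem_support_iff.1 h1)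
  obtain ⟨k, hk⟩ := m3_index (D.r + D.s + T.card) (by
    have h1 : Nat.card (Multiplicative (ZMod 2)) = 2 := by
      change Nat.card (ZMod 2) = 2
      exact Nat.card_zmod 2
    have h2 : Nat.card T = T.card := by
      rw [Nat.card_eq_fintype_card, Fintype.card_coe]
    rw [Nat.card_prod, m3_cardExt, Nat.card_fun, h1, h2]
    ring) (m3_pi h T)
  obtain ⟨τ, φ, h1, h2, h3, h4⟩ := local_odd (m3_pi h T).ker
    (ker_open _ (m3_pi_lc h T)) k hk
  have hU := m3_pi_ker h T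
  refine ⟨τ, φ, ?_, ?_, ?_, ?_⟩
  · have h5 := (hU _ h1).1
    rw [map_mul, map_inv] at h5
    exact mul_inv_eq_one.1 h5
  · intro i hi hip
    exact h3 (dd i) (m3_dvd p i hp hp2 (hTi i hi) hip) fun σ hσ => (hU σ hσ).2 i hi
  · intro hpT
    exact h4 fun σ hσ => (hU σ hσ).2 p hpT
  · intro z hz
    have h5 : (m3_pi h T).ker ≤ (lh (h.add z)).ker := by
      intro σ hσ
      obtain ⟨h6, h7⟩ := hU σ hσ
      have h8 : par x σ = 0 := congrArg Ext.v h6
      have h9 : f σ = 0 := congrArg Ext.z h6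
      have h10 : par z σ = 0 := by
        unfold par
        rw [Finsupp.sum]
        refine Finset.sum_eq_zero fun i hi => ?_
        rw [h7 i (Finset.mem_union_left _ (hz hi)), zero_smul]
      rw [MonoidHom.mem_ker]
      apply Ext.ext
      · exact h8
      · change f σ + par z σ = 0
        rw [h9, h10, add_zero]
    have h6 := h2 (lh (h.add z)).ker h5
    rw [m3_order] at h6
    exact h6

end Pool.Agent.H98.MK
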