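import Pool.Agent.H98.MK.ChiBasic

/-!
# Project MK (MP_a3214d): definitions for the master formula
-/

set_option autoImplicit false

open scoped BigOperators

namespace Pool.Agent.H98.MK

/-- a lift of `par x` to the group -/
structure IsLift (D : Dat) (x : ℕ →₀ D.V) (f : Gam → D.Z) : Prop where
  lc : IsLocallyConstant f
  hom : ∀ σ τ, f (σ * τ) = f σ + f τ + D.β (par x σ) (par x τ)

/-- the homomorphism attached to a lift -/
noncomputable def lh {D : Dat} {x : ℕ →₀ D.V} {f : Gam → D.Z} (h : IsLift D x f) :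
    Gam →* Ext D :=
  MonoidHom.mk' (fun σ => ⟨par x σ, f σ⟩) (fun σ τ => by
    apply Ext.ext
    · exact par_hom x σ τ
    · exact h.hom σ τ)

/-- exponents of the discriminant -/
noncomputable def ex {D : Dat} (p : ℕ) (ρ : Gam →* Ext D) : ℕ :=
  (dabs (fld ρ.ker)).factorization p

/-- normalised exponent of two -/
noncomputable def c2 {D : Dat} (ρ : Gam →* Ext D) : ℕ := D.n * ex 2 ρ / ρ.ker.index

/-- the local conditions for the existence of a lift -/
def Sol (D : Dat) (x : ℕ →₀ D.V) : Prop :=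
  (∀ p : ℕ, p.Prime → p ≠ 2 → x p ≠ 0 →
      (x.sum fun i w => if i = p then 0 else lg (jacobiSym (dd i) p) • D.B w (x p)) =
        lg (jacobiSym (-1) p) • D.q (x p)) ∧
    D.q (x.sum fun i w => if dd i < 0 then w else 0) = 0

open Classical in
/-- exponents at the primes dividing the first parameters -/
noncomputable def wtN (D : Dat) (v : D.V) : ℕ := if D.q v = 0 then D.n / 2 else 3 * D.n / 4

open Classical in
/-- the product of the odd primes with value `v` -/
noncomputable def mfun {W : Type} [Zero W] (x : ℕ →₀ W) (v : W) : ℕ :=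
  ∏ p ∈ x.support.filter (fun p => p ≠ 1 ∧ p ≠ 2 ∧ x p = v), p

open Classical in
/-- the product of the other odd primes with value `ζ` -/
noncomputable def efun {V Z : Type} [Zero V] [Zero Z] (x : ℕ →₀ V) (z : ℕ →₀ Z) (ζ : Z) : ℕ :=
  ∏ p ∈ z.support.filter (fun p => p ≠ 1 ∧ p ≠ 2 ∧ x p = 0 ∧ z p = ζ), p

/-- the odd part of the discriminant -/
noncomputable def szN (D : Dat) (x : ℕ →₀ D.V) (z : ℕ →₀ D.Z) : ℕ :=
  (∏ v : D.V, mfun x v ^ wtN D v) * ∏ ζ : D.Z, efun x z ζ ^ (D.n / 2)

/-- the parameters supported at the places `-1` and `2` -/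
noncomputable def z12 {Z : Type} [AddCommGroup Z] (z1 z2 : Z) : ℕ →₀ Z :=
  Finsupp.single 1 z1 + Finsupp.single 2 z2

/-- a lift unramified at the odd primes outside `x` -/
structure IsNormal (D : Dat) (x : ℕ →₀ D.V) (f : Gam → D.Z) : Prop extends IsLift D x f where
  unr : ∀ p : ℕ, p.Prime → p ≠ 2 → x p = 0 → ex p (lh toIsLift) = 0

theorem IsLift.add {D : Dat} {x : ℕ →₀ D.V} {f : Gam → D.Z} (h : IsLift D x f)
    (z : ℕ →₀ D.Z) : IsLift D x (fun σ => f σ + par z σ) := by
  refine ⟨?_, fun σ τ => ?_⟩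
  · exact IsLocallyConstant.comp₂ h.lc (par_lc z) (fun a b => a + b)
  · rw [h.hom, par_hom z σ τ]
    abel

end Pool.Agent.H98.MK
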