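import Pool.Agent.H98.MK.RLe2

/-!
# Project MK (MP_a3214d), row N7: the number of free indices

If the Fourier coefficient of a support `σ` is not zero and the parameters span, then there are
at most `b` free indices, and if there are `b` of them then all isotropic indices are free.
-/

set_option autoImplicit false

open scoped BigOperators
open Filter

namespace Pool.Agent.H98.MK

section

variable {D : Dat}

private theorem n7_coef (θ : D.V → D.V → (D.V → ZMod 8) → Finset D.V → ℝ) (a b : D.V)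
    {σ : Finset D.P} {c : D.P → Fin 4} {i i' : D.P} (hi : i ∈ σ) (hi' : i' ∈ σ)
    (hc : c i = 0) (hc' : c i' = 0) (m : ZMod 8) (hm : m * m = 1)
    (hmu : ∀ x, n7_un x → n7_un (m * x)) (t : ZMod 2)
    (h : ∀ u ∈ D.U8 σ, D.Psi θ a b σ (n7_tw m i i' u) = ((sg t : ℤ) : ℝ) * D.Psi θ a b σ u)
    (h0 : D.coef θ a b σ c ≠ 0) : t = 0 := by
  classical
  have h1 : D.coef θ a b σ c = ((sg t : ℤ) : ℝ) * D.coef θ a b σ c := by
    have h2 : ∑ u ∈ D.U8 σ, D.Psi θ a b σ u * ((∏ i ∈ σ, p8 (c i) (u i) : ℤ) : ℝ) =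
        ((sg t : ℤ) : ℝ) *
          ∑ u ∈ D.U8 σ, D.Psi θ a b σ u * ((∏ i ∈ σ, p8 (c i) (u i) : ℤ) : ℝ) := by
      rw [Finset.mul_sum]
      refine Finset.sum_nbij' (fun u => n7_tw m i i' u) (fun u => n7_tw m i i' u)
        (fun u hu => n7_tw_mem hmu hi hi' hu) (fun u hu => n7_tw_mem hmu hi hi' hu)
        (fun u _ => n7_tw_tw hm i i' u) (fun u _ => n7_tw_tw hm i i' u) ?_
      intro u hu
      rw [h u hu, ← mul_assoc, ← mul_assoc]
      have h2 : ((sg t : ℤ) : ℝ) * ((sg t : ℤ) : ℝ) = 1 := by exact_mod_cast n7_sg_sq t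
      rw [h2, one_mul]
      congr 2
      refine Finset.prod_congr rfl fun k _ => ?_
      by_cases hk : k = i ∨ k = i'
      · have h3 : c k = 0 := by
          rcases hk with rfl | rfl
          · exact hc
          · exact hc'
        rw [h3, n7_p0, n7_p0]
      · rw [n7_tw_not hk]
    unfold Dat.coef
    rw [mul_left_comm, ← h2]
  rcases n7_zm2 t with rfl | rfl
  · rfl
  · exfalso
    have h2 : (sg 1 : ℤ) = -1 := by decide
    rw [h2] at h1
    push_cast at h1
    apply h0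
    linarith

private theorem n7_B_add (v w w' : D.V) : D.B v (w + w') = D.B v w + D.B v w' := by
  unfold Dat.B
  rw [map_add, map_add, LinearMap.add_apply]
  abel

private theorem n7_B_zero (v : D.V) : D.B v 0 = 0 := by
  unfold Dat.B
  rw [map_zero, map_zero, LinearMap.zero_apply, add_zero]

private theorem n7_B_smul (v w : D.V) (x : ZMod 2) : D.B v (x • w) = x • D.B v w := by
  unfold Dat.B
  rw [map_smul, map_smul, LinearMap.smul_apply, smul_add]

private theorem n7_B_comm (v w : D.V) : D.B v w = D.B w v := by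
  unfold Dat.B
  rw [add_comm]

private theorem n7_span {S : Set D.V} (hS : Submodule.span (ZMod 2) S = ⊤) (z : D.Z) (v : D.V)
    (h : ∀ w ∈ S, z ⬝ᵥ D.B v w = 0) (w : D.V) : z ⬝ᵥ D.B v w = 0 := by
  have hw : w ∈ Submodule.span (ZMod 2) S := by rw [hS]; trivial
  induction hw using Submodule.span_induction with
  | mem x hx => exact h x hx
  | zero => rw [n7_B_zero, dotProduct_zero]
  | add x y _ _ hx hy => rw [n7_B_add, dotProduct_add, hx, hy, add_zero]
  | smul x y _ hy => rw [n7_B_smul, dotProduct_smul, hy, smul_zero]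

private theorem n7_mem_R {σ : Finset D.P} {c : D.P → Fin 4} {i : D.P} :
    i ∈ D.R σ c ↔ i ∈ σ ∧ D.isoP i ∧ c i = 0 ∧ ∀ j ∈ σ, D.e i j = D.e j i := by
  simp only [Dat.R, Finset.mem_filter]

/-- two free indices over the same vector -/
private theorem n7_key (θ : D.V → D.V → (D.V → ZMod 8) → Finset D.V → ℝ) (a b : D.V)
    {σ : Finset D.P} {c : D.P → Fin 4} (hc : D.coef θ a b σ c ≠ 0)
    (hs : D.Span a b (D.supV σ)) {i i' : D.P} (hi : i ∈ D.R σ c) (hi' : i' ∈ D.R σ c)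
    (hv : i.1 = i'.1) (w : D.V) : (i.2 + i'.2) ⬝ᵥ D.B i.1 w = 0 := by
  by_cases hne : i = i'
  · rw [hne, Ext.two_Z, zero_dotProduct]
  rw [n7_mem_R] at hi hi'
  have he : ∀ j ∈ σ, D.e i j = D.e i' j := by
    intro j hj
    rw [hi.2.2.2 j hj, hi'.2.2.2 j hj]
    unfold Dat.e
    rw [hv]
  refine n7_span hs _ _ (fun w hw => ?_) w
  rcases hw with rfl | rfl | hw
  · exact n7_coef θ w b hi.1 hi'.1 hi.2.2.1 hi'.2.2.1 7 (by decide) n7_un7 _
      (fun u hu => n7_psi7 θ w b hi.1 hi'.1 hne hv hi.2.1 he hu) hc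
  · exact n7_coef θ a w hi.1 hi'.1 hi.2.2.1 hi'.2.2.1 5 (by decide) n7_un5 _
      (fun u hu => n7_psi5 θ a w hi.1 hi'.1 hne hv hu) hc
  · unfold Dat.supV at hw
    simp only [Finset.coe_filter, Finset.mem_univ, true_and, Set.mem_setOf_eq] at hw
    obtain ⟨_, ζ, hζ⟩ := hw
    have h1 := he _ hζ
    unfold Dat.e at h1
    rw [add_dotProduct, h1, ← hv]
    exact CharTwo.add_self_eq_zero _

end

theorem b_pos (D : Dat) : 1 ≤ D.b := by
  have h1 : ∃ v : D.V, D.β v v = 0 ∧ v ≠ 0 := by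
    by_contra hcon
    push Not at hcon
    have h2 : {v : Fin D.r → ZMod 2 | D.β v v = 0} ⊆ {0} := fun v hv => hcon v hv
    have h3 := Submodule.span_mono (R := ZMod 2) h2
    rw [D.gen, Submodule.span_zero_singleton, top_le_iff] at h3
    have h4 : (fun _ => 1 : Fin D.r → ZMod 2) ∈ (⊥ : Submodule (ZMod 2) (Fin D.r → ZMod 2)) := by
      rw [h3]; trivial
    rw [Submodule.mem_bot] at h4
    have h5 := congrFun h4 ⟨0, D.pos⟩
    exact one_ne_zero h5
  obtain ⟨v, hv, hv0⟩ := h1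
  unfold Dat.b
  have : Nonempty {x : D.V × D.Z // x ≠ 0 ∧ D.q x.1 = 0 ∧ ∀ w : D.V, x.2 ⬝ᵥ D.B x.1 w = 0} :=
    ⟨⟨(v, 0), fun h => hv0 (congrArg Prod.fst h), hv, fun w => zero_dotProduct _⟩⟩
  exact Nat.card_pos

theorem R_le (D : Dat) (θ : D.V → D.V → (D.V → ZMod 8) → Finset D.V → ℝ) (a b : D.V)
    (σ : Finset D.P) (h0 : (0 : D.P) ∉ σ) (c : D.P → Fin 4) (hc : D.coef θ a b σ c ≠ 0)
    (hs : D.Span a b (D.supV σ)) :
    (D.R σ c).card ≤ D.b ∧ ((D.R σ c).card = D.b → ∀ i ∈ σ, D.isoP i → i ∈ D.R σ c) := by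
  classical
  -- the base points
  have hz : ∀ v : D.V, ∃ ζ : D.Z, (v = 0 → ζ = 0) ∧
      (v ≠ 0 → (∃ ξ, (v, ξ) ∈ D.R σ c) → (v, ζ) ∈ D.R σ c) := by
    intro v
    by_cases hv : v = 0
    · exact ⟨0, fun _ => rfl, fun h => absurd hv h⟩
    · by_cases h : ∃ ξ, (v, ξ) ∈ D.R σ c
      · exact ⟨h.choose, fun h' => absurd h' hv, fun _ _ => h.choose_spec⟩
      · exact ⟨0, fun _ => rfl, fun _ h' => absurd h' h⟩
  choose z hz0 hz1 using hz
  -- the injection
  have hmap : ∀ i : D.P, i ∈ D.R σ c → ((i.1, i.2 + z i.1) : D.V × D.Z) ≠ 0 ∧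
      D.q i.1 = 0 ∧ ∀ w : D.V, (i.2 + z i.1) ⬝ᵥ D.B i.1 w = 0 := by
    intro i hi
    have hi2 := n7_mem_R.mp hi
    by_cases hv : i.1 = 0
    · refine ⟨?_, hi2.2.1, ?_⟩
      · intro h
        have h1 : i.2 + z i.1 = 0 := congrArg Prod.snd h
        rw [hz0 _ hv, add_zero] at h1
        apply h0
        have : i = 0 := Prod.ext hv h1
        rw [← this]
        exact hi2.1
      · intro w
        rw [n7_B_comm, hv, n7_B_zero, dotProduct_zero]
    · refine ⟨fun h => hv (congrArg Prod.fst h), hi2.2.1, fun w => ?_⟩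
      exact n7_key θ a b hc hs hi (hz1 i.1 hv ⟨i.2, hi⟩) rfl w
  let F : {i // i ∈ D.R σ c} →
      {x : D.V × D.Z // x ≠ 0 ∧ D.q x.1 = 0 ∧ ∀ w : D.V, x.2 ⬝ᵥ D.B x.1 w = 0} :=
    fun i => ⟨(i.1.1, i.1.2 + z i.1.1), hmap i.1 i.2⟩
  have hF : Function.Injective F := by
    rintro ⟨i, hi⟩ ⟨j, hj⟩ h
    have h1 : ((i.1, i.2 + z i.1) : D.V × D.Z) = (j.1, j.2 + z j.1) := congrArg Subtype.val h
    have h2 : i.1 = j.1 := (Prod.mk.inj h1).1
    have h3 : i.2 + z i.1 = j.2 + z j.1 := (Prod.mk.inj h1).2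
    rw [h2] at h3
    exact Subtype.ext (Prod.ext h2 (add_right_cancel h3))
  have hcard : (D.R σ c).card = Nat.card {i // i ∈ D.R σ c} :=
    (Nat.card_eq_finsetCard _).symm
  refine ⟨?_, ?_⟩
  · rw [hcard]
    exact Nat.card_le_card_of_injective F hF
  · intro hb j hj hjq
    have hbij : Function.Bijective F := by
      rw [Nat.bijective_iff_injective_and_card]
      exact ⟨hF, by rw [← hcard, hb]; rfl⟩
    have hsurj : ∀ (v : D.V) (η : D.Z), ((v, η) : D.V × D.Z) ≠ 0 → D.q v = 0 →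
        (∀ w, η ⬝ᵥ D.B v w = 0) → (v, η + z v) ∈ D.R σ c := by
      intro v η h1 h2 h3
      obtain ⟨⟨i, hi⟩, h4⟩ := hbij.2 ⟨(v, η), h1, h2, h3⟩
      have h5 : ((i.1, i.2 + z i.1) : D.V × D.Z) = (v, η) := congrArg Subtype.val h4
      have h6 : i.1 = v := (Prod.mk.inj h5).1
      have h7 : i.2 + z i.1 = η := (Prod.mk.inj h5).2
      have h8 : i = (v, η + z v) := by
        refine Prod.ext h6 ?_
        rw [← h7, h6, add_assoc, Ext.two_Z, add_zero]
      rw [← h8]
      exact hi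
    by_cases hw : j.1 = 0
    · have h1 : j.2 ≠ 0 := fun h2 => h0 (by
        have : j = 0 := Prod.ext hw h2
        rw [← this]; exact hj)
      have h2 := hsurj j.1 j.2 (fun h3 => h1 (congrArg Prod.snd h3)) hjq (fun w => by
        rw [n7_B_comm, hw, n7_B_zero, dotProduct_zero])
      rw [hz0 _ hw, add_zero] at h2
      exact h2
    · -- the base points are free
      have hbase : ∀ v : D.V, v ≠ 0 → D.q v = 0 → (v, z v) ∈ D.R σ c := by
        intro v hv hq
        have h1 := hsurj v 0 (fun h => hv (congrArg Prod.fst h)) hq (fun w => zero_dotProduct _)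
        rwa [zero_add] at h1
      have hjz := hbase j.1 hw hjq
      have h2 : ∀ w, (j.2 + z j.1) ⬝ᵥ D.B j.1 w = 0 := by
        refine n7_span D.gen _ _ ?_
        intro v hv
        by_cases hv0 : v = 0
        · rw [hv0, n7_B_zero, dotProduct_zero]
        · have h3 := n7_mem_R.mp (hbase v hv0 hv)
          have h4 := h3.2.2.2 j hj
          have h5 := h3.2.2.2 _ (n7_mem_R.mp hjz).1
          unfold Dat.e at h4 h5
          simp only at h4 h5
          rw [add_dotProduct, ← h4, ← h5]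
          exact CharTwo.add_self_eq_zero _
      have h3 := hsurj j.1 (j.2 + z j.1) (fun h => hw (congrArg Prod.fst h)) hjq h2
      rw [add_assoc, Ext.two_Z, add_zero] at h3
      exact h3

end Pool.Agent.H98.MK
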