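import Pool.Agent.H98.MK.NDefs

/-!
# Project MK (MP_a3214d), row N3: splitting a sum by exact supports
-/

set_option autoImplicit false

open scoped BigOperators
open Filter

namespace Pool.Agent.H98.MK

open Classical in
theorem split_supp (D : Dat) (Y : ℝ) (hY : 1 ≤ Y) (h : (D.P → ℕ) → ℝ) :
    ∑ x ∈ Fintype.piFinset (fun _ : D.P => Finset.Icc 1 ⌊Y⌋₊),
        (if x 0 = 1 ∧ Squarefree (2 * ∏ i, x i) ∧ ∏ i, (x i : ℝ) ^ we D.isoP i ≤ Y
        then h x else 0) =
      ∑ σ ∈ (Finset.univ.erase (0 : D.P)).powerset, D.SX σ Y h := by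
  have hN : 1 ≤ ⌊Y⌋₊ := Nat.le_floor (by exact_mod_cast hY)
  set f : (D.P → ℕ) → ℝ := fun x =>
    if Squarefree (2 * ∏ i, x i) ∧ ∏ i, (x i : ℝ) ^ we D.isoP i ≤ Y then h x else 0 with hf
  have h1 : ∑ x ∈ Fintype.piFinset (fun _ : D.P => Finset.Icc 1 ⌊Y⌋₊),
        (if x 0 = 1 ∧ Squarefree (2 * ∏ i, x i) ∧ ∏ i, (x i : ℝ) ^ we D.isoP i ≤ Y
        then h x else 0) =
      ∑ x ∈ (Fintype.piFinset (fun _ : D.P => Finset.Icc 1 ⌊Y⌋₊)).filter (fun x => x 0 = 1),
        f x := by
    rw [Finset.sum_filter]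
    refine Finset.sum_congr rfl fun x _ => ?_
    by_cases hx : x 0 = 1
    · rw [if_pos hx]
      simp only [hx, true_and, hf]
    · rw [if_neg hx, if_neg (fun hc => hx hc.1)]
  rw [h1, ← Finset.sum_fiberwise_of_maps_to
    (t := (Finset.univ.erase (0 : D.P)).powerset)
    (g := fun x : D.P → ℕ => Finset.univ.filter fun i => x i ≠ 1)]
  · refine Finset.sum_congr rfl fun σ hσ => ?_
    unfold Dat.SX
    have h0 : (0 : D.P) ∉ σ := fun hc => by
      have := Finset.mem_powerset.1 hσ hc
      simp at this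
    refine Finset.sum_congr ?_ fun x _ => rfl
    ext x
    simp only [Finset.mem_filter, Fintype.mem_piFinset, Finset.mem_Icc]
    constructor
    · rintro ⟨⟨hx, -⟩, rfl⟩ i
      have hi := hx i
      by_cases hi1 : x i = 1
      · rw [if_neg (by simp [hi1]), Finset.mem_singleton]
        exact hi1
      · rw [if_pos (by simp [hi1]), Finset.mem_Icc]
        omega
    · intro hx
      refine ⟨⟨fun i => ?_, ?_⟩, ?_⟩
      · have hi := hx i
        by_cases hs : i ∈ σ
        · rw [if_pos hs, Finset.mem_Icc] at hi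
          omega
        · rw [if_neg hs, Finset.mem_singleton] at hi
          omega
      · have hi := hx 0
        rwa [if_neg h0, Finset.mem_singleton] at hi
      · ext i
        simp only [Finset.mem_filter, Finset.mem_univ, true_and]
        have hi := hx i
        by_cases hs : i ∈ σ
        · rw [if_pos hs, Finset.mem_Icc] at hi
          simp only [hs, iff_true]
          omega
        · rw [if_neg hs, Finset.mem_singleton] at hi
          simp [hs, hi]
  · intro x hx
    rw [Finset.mem_powerset]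
    intro i hi
    rw [Finset.mem_erase]
    refine ⟨?_, Finset.mem_univ i⟩
    rintro rfl
    exact (Finset.mem_filter.1 hi).2 (Finset.mem_filter.1 hx).2

end Pool.Agent.H98.MK
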