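import Pool.Agent.H98.MK.SExpandAux
import Pool.Agent.H98.MK.Expand
import Pool.Agent.H98.MK.SplitSupp
import Pool.Agent.H98.MK.SgnPsi
import Pool.Agent.H98.MK.Fourier

/-!
# Project MK, row N6 (helper89): `D.S` is a finite combination of the basic sums.
-/

set_option autoImplicit false

open scoped BigOperators
open Filter

namespace Pool.Agent.H98.MK

theorem S_expand (D : Dat) (θ : D.V → D.V → (D.V → ZMod 8) → Finset D.V → ℝ) (Y : ℝ)
    (hY : 1 ≤ Y) :
    D.S θ Y = ∑ a : D.V, ∑ b : D.V, ∑ σ ∈ (Finset.univ.erase (0 : D.P)).powerset,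
      ∑ c ∈ D.C4 σ, D.coef θ a b σ c * D.TSσ σ c Y :=
  S_expand_of D θ Y (expand D θ Y) (split_supp D Y hY)
    (fun a b σ h0 x hx hsq => sgn_psi D θ a b σ h0 x hx hsq)
    (fun σ F u hu => fourier D σ F u hu) (fun σ c => SX_TS D σ c Y)

end Pool.Agent.H98.MK
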