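import Pool.Agent.H98.MK.MainAn2
import Pool.Agent.H98.MK.SExpand
import Pool.Agent.H98.MK.RLe
import Pool.Agent.H98.MK.Coef
import Pool.Agent.H98.MK.AT1
import Pool.Agent.H98.MK.AT2

/-!
# Project MK, row N9: the analytic main theorem from the basic sums (helper74)
-/

set_option autoImplicit false

open scoped BigOperators
open Filter

namespace Pool.Agent.H98.MK

theorem mn_at1 : MnAT1 := fun _ _ iso L c k hk h => AT1 iso L c k hk h

theorem mn_at2 : MnAT2 := fun _ _ iso L c hL ε hε => AT2 iso L c hL ε hε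

theorem mn_exp (D : Dat) (θ : D.V → D.V → (D.V → ZMod 8) → Finset D.V → ℝ) : MnExp D θ :=
  fun Y hY => S_expand D θ Y hY

theorem mn_r (D : Dat) (θ : D.V → D.V → (D.V → ZMod 8) → Finset D.V → ℝ) : MnR D θ :=
  fun a b σ h0 c hc hs => R_le D θ a b σ h0 c hc hs

theorem main_an (D : Dat) (θ : D.V → D.V → (D.V → ZMod 8) → Finset D.V → ℝ)
    (hθ : ∀ a b δ Q, θ a b δ Q ≠ 0 → D.Span a b Q) :
    ∃ C : ℝ, Tendsto (fun Y : ℝ => D.S θ Y / (Y * Real.log Y ^ (D.b - 1))) atTop (nhds C) := by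
  obtain ⟨C, hC, -⟩ := mn_main mn_at1 mn_at2 D θ (mn_exp D θ) (mn_r D θ) (b_pos D) hθ
  exact ⟨C, hC⟩

theorem main_an_pos (D : Dat) :
    ∃ C : ℝ, 0 < C ∧
      Tendsto (fun Y : ℝ => D.S D.θs Y / (Y * Real.log Y ^ (D.b - 1))) atTop (nhds C) :=
  mn_pos mn_at1 mn_at2 D (mn_exp D _) (mn_r D _) (b_pos D)
    (fun a b σ h0 c h => coef_nonneg D a b σ h0 c h) (coef_pos D)

end Pool.Agent.H98.MK
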