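import Pool.Agent.H98.MK.NDefs

/-!
# Project MK, row N9: the analytic main theorem from the basic sums (helper74)

Versions with the rows N6, N7, N8, A6, A10 as hypotheses.
-/

set_option autoImplicit false

open scoped BigOperators
open Filter

namespace Pool.Agent.H98.MK

/-- Row N6. -/
def MnExp (D : Dat) (θ : D.V → D.V → (D.V → ZMod 8) → Finset D.V → ℝ) : Prop :=
  ∀ Y : ℝ, 1 ≤ Y → D.S θ Y = ∑ a : D.V, ∑ b : D.V,
    ∑ σ ∈ (Finset.univ.erase (0 : D.P)).powerset,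
      ∑ c ∈ D.C4 σ, D.coef θ a b σ c * D.TSσ σ c Y

/-- Row N7. -/
def MnR (D : Dat) (θ : D.V → D.V → (D.V → ZMod 8) → Finset D.V → ℝ) : Prop :=
  ∀ (a b : D.V) (σ : Finset D.P), (0 : D.P) ∉ σ → ∀ c : D.P → Fin 4, D.coef θ a b σ c ≠ 0 →
    D.Span a b (D.supV σ) →
    (D.R σ c).card ≤ D.b ∧ ((D.R σ c).card = D.b → ∀ i ∈ σ, D.isoP i → i ∈ D.R σ c)

/-- Row A10. -/
def MnAT1 : Prop := ∀ (ι : Type) [Fintype ι] (iso : ι → Prop) (L : ι → ι → Prop) (c : ι → Fin 4)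
    (k : ℕ), Nat.card {i // iso i} = k + 1 →
    (∀ i, iso i → c i = 0 ∧ ∀ j, ¬ L i j ∧ ¬ L j i) →
    ∃ C : ℝ, (((∀ i, iso i) → 0 < C)) ∧
      Tendsto (fun Y : ℝ => TS iso L c Y / (Y * Real.log Y ^ k)) atTop (nhds C)

/-- Row A6. -/
def MnAT2 : Prop := ∀ (ι : Type) [Fintype ι] (iso : ι → Prop) (L : ι → ι → Prop) (c : ι → Fin 4),
    (∀ i j, L i j → ¬ L j i) → ∀ ε : ℝ, 0 < ε →
    ∃ C : ℝ, ∀ Y : ℝ, 3 ≤ Y → |TS iso L c Y| ≤ C * Y * Real.log Y ^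
      ((Nat.card {i // iso i ∧ c i = 0 ∧ ∀ j, ¬ L i j ∧ ¬ L j i} : ℝ) - 1 + ε)

theorem mn_zmod (x y : ZMod 2) : (¬ (x = 1 ∧ y = 0) ∧ ¬ (y = 1 ∧ x = 0)) ↔ x = y := by
  revert x y
  decide

/-- A nonzero coefficient forces a nonzero weight. -/
theorem mn_coef (D : Dat) (θ : D.V → D.V → (D.V → ZMod 8) → Finset D.V → ℝ) (a b : D.V)
    (σ : Finset D.P) (c : D.P → Fin 4) (h : D.coef θ a b σ c ≠ 0) :
    ∃ δ, θ a b δ (D.supV σ) ≠ 0 := by
  by_contra hne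
  push Not at hne
  apply h
  rw [Dat.coef, Finset.sum_eq_zero, mul_zero]
  intro u _
  rw [Dat.Psi, hne, mul_zero, zero_mul]

theorem mn_cardR (D : Dat) (σ : Finset D.P) (c : D.P → Fin 4) :
    Nat.card {i : {i // i ∈ σ} // D.isoP i.1 ∧ c i.1 = 0 ∧
      ∀ j : {i // i ∈ σ}, ¬ D.L i.1 j.1 ∧ ¬ D.L j.1 i.1} = (D.R σ c).card := by
  classical
  have hcard : Nat.card {i // i ∈ D.R σ c} = (D.R σ c).card := by
    rw [Nat.card_eq_fintype_card, Fintype.card_coe]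
  rw [← hcard]
  refine Nat.card_congr ⟨fun i => ⟨i.1.1, ?_⟩, fun i => ⟨⟨i.1, ?_⟩, ?_⟩, fun i => rfl,
    fun i => rfl⟩
  · obtain ⟨⟨i, hi⟩, h1, h2, h3⟩ := i
    rw [Dat.R, Finset.mem_filter]
    refine ⟨hi, h1, h2, fun j hj => ?_⟩
    exact (mn_zmod _ _).1 (h3 ⟨j, hj⟩)
  · exact (Finset.mem_filter.1 i.2).1
  · obtain ⟨i, hi⟩ := i
    have h := (Finset.mem_filter.1 hi).2
    refine ⟨h.1, h.2.1, fun j => ?_⟩
    exact (mn_zmod _ _).2 (h.2.2 j.1 j.2)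

theorem mn_cardIso (D : Dat) (σ : Finset D.P) (c : D.P → Fin 4)
    (h : ∀ i ∈ σ, D.isoP i → i ∈ D.R σ c) :
    Nat.card {i : {i // i ∈ σ} // D.isoP i.1} = (D.R σ c).card := by
  classical
  rw [← mn_cardR]
  refine Nat.card_congr ⟨fun i => ⟨i.1, ?_⟩, fun i => ⟨i.1, i.2.1⟩, fun i => rfl,
    fun i => rfl⟩
  obtain ⟨⟨i, hi⟩, h1⟩ := i
  have h2 := (Finset.mem_filter.1 (h i hi h1)).2
  refine ⟨h1, h2.2.1, fun j => ?_⟩
  exact (mn_zmod _ _).2 (h2.2.2 j.1 j.2)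

theorem mn_log (k : ℕ) (e : ℝ) (he : e < k) (f : ℝ → ℝ) (C : ℝ)
    (hf : ∀ Y : ℝ, 3 ≤ Y → |f Y| ≤ C * Y * Real.log Y ^ e) :
    Tendsto (fun Y : ℝ => f Y / (Y * Real.log Y ^ k)) atTop (nhds 0) := by
  have h1 : Tendsto (fun Y : ℝ => C * Real.log Y ^ (-(k - e))) atTop (nhds 0) := by
    have h2 : Tendsto (fun Y : ℝ => Real.log Y ^ (-(k - e))) atTop (nhds 0) :=
      (tendsto_rpow_neg_atTop (sub_pos.2 he)).comp Real.tendsto_log_atTop
    simpa using h2.const_mul C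
  refine squeeze_zero_norm' ?_ h1
  filter_upwards [eventually_ge_atTop (3 : ℝ)] with Y hY
  have hY0 : (0 : ℝ) < Y := by linarith
  have hl : 0 < Real.log Y := Real.log_pos (by linarith)
  rw [Real.norm_eq_abs, abs_div, abs_of_pos (mul_pos hY0 (pow_pos hl k)),
    div_le_iff₀ (mul_pos hY0 (pow_pos hl k))]
  refine (hf Y hY).trans (le_of_eq ?_)
  have h3 : Real.log Y ^ e = Real.log Y ^ (-(k - e)) * Real.log Y ^ k := by
    rw [← Real.rpow_natCast (Real.log Y) k, ← Real.rpow_add hl]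
    congr 1
    ring
  rw [h3]
  ring

/-- The limit of one term. -/
theorem mn_term (h1 : MnAT1) (h2 : MnAT2) (D : Dat)
    (θ : D.V → D.V → (D.V → ZMod 8) → Finset D.V → ℝ) (hR : MnR D θ) (hb : 1 ≤ D.b)
    (hθ : ∀ a b δ Q, θ a b δ Q ≠ 0 → D.Span a b Q) (a b : D.V) (σ : Finset D.P)
    (h0 : (0 : D.P) ∉ σ) (c : D.P → Fin 4) :
    ∃ C : ℝ, Tendsto (fun Y : ℝ => D.coef θ a b σ c * D.TSσ σ c Y /
      (Y * Real.log Y ^ (D.b - 1))) atTop (nhds C) ∧ (D.coef θ a b σ c = 0 → C = 0) ∧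
      ((D.R σ c).card < D.b → C = 0) ∧ ((D.R σ c).card = D.b → (∀ i ∈ σ, D.isoP i) →
        ∃ C' : ℝ, 0 < C' ∧ C = D.coef θ a b σ c * C') := by
  classical
  by_cases hc : D.coef θ a b σ c = 0
  · by_cases hcard : (D.R σ c).card = D.b
    · refine ⟨0, ?_, fun _ => rfl, fun _ => rfl, fun _ _ => ⟨1, one_pos, by rw [hc, zero_mul]⟩⟩
      simp only [hc, zero_mul, zero_div]
      exact tendsto_const_nhds
    · refine ⟨0, ?_, fun _ => rfl, fun _ => rfl, fun h => absurd h hcard⟩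
      simp only [hc, zero_mul, zero_div]
      exact tendsto_const_nhds
  obtain ⟨δ, hδ⟩ := mn_coef D θ a b σ c hc
  obtain ⟨hle, hall⟩ := hR a b σ h0 c hc (hθ a b δ _ hδ)
  rcases hle.lt_or_eq with hlt | heq
  · refine ⟨0, ?_, fun _ => rfl, fun _ => rfl, fun h => absurd h hlt.ne⟩
    obtain ⟨C, hC⟩ := h2 {i // i ∈ σ} (fun i => D.isoP i.1) (fun i j => D.L i.1 j.1)
      (fun i => c i.1) (fun i j hij hji => by
        have h3 := hij.2.symm.trans hji.1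
        exact absurd h3 (by decide)) (1 / 2) (by norm_num)
    have hlim := mn_log (D.b - 1) _ (f := D.TSσ σ c) (C := C) ?_ hC
    · have h3 := hlim.const_mul (D.coef θ a b σ c)
      rw [mul_zero] at h3
      refine h3.congr fun Y => ?_
      rw [mul_div_assoc]
    · rw [mn_cardR]
      have h3 : ((D.R σ c).card : ℝ) + 1 ≤ D.b := by exact_mod_cast hlt
      have h4 : ((D.b - 1 : ℕ) : ℝ) = (D.b : ℝ) - 1 := by
        rw [Nat.cast_sub hb, Nat.cast_one]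
      rw [h4]
      linarith
  · have hk : Nat.card {i : {i // i ∈ σ} // D.isoP i.1} = (D.b - 1) + 1 := by
      rw [mn_cardIso D σ c (hall heq), heq]
      omega
    obtain ⟨C, hCpos, hC⟩ := h1 {i // i ∈ σ} (fun i => D.isoP i.1) (fun i j => D.L i.1 j.1)
      (fun i => c i.1) (D.b - 1) hk (fun i hi => by
        have h3 := (Finset.mem_filter.1 (hall heq i.1 i.2 hi)).2
        refine ⟨h3.2.1, fun j => ?_⟩
        exact (mn_zmod _ _).2 (h3.2.2 j.1 j.2))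
    refine ⟨D.coef θ a b σ c * C, ?_, fun h => absurd h hc,
      fun h => absurd heq h.ne, fun _ hiso => ⟨C, hCpos fun i => hiso i.1 i.2, rfl⟩⟩
    refine (hC.const_mul (D.coef θ a b σ c)).congr fun Y => ?_
    rw [mul_div_assoc]
    rfl

theorem mn_main (h1 : MnAT1) (h2 : MnAT2) (D : Dat)
    (θ : D.V → D.V → (D.V → ZMod 8) → Finset D.V → ℝ) (hE : MnExp D θ) (hR : MnR D θ)
    (hb : 1 ≤ D.b) (hθ : ∀ a b δ Q, θ a b δ Q ≠ 0 → D.Span a b Q) :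
    ∃ C : ℝ, Tendsto (fun Y : ℝ => D.S θ Y / (Y * Real.log Y ^ (D.b - 1))) atTop (nhds C) ∧
      ((∀ a b : D.V, ∀ σ : Finset D.P, (0 : D.P) ∉ σ → ∀ c : D.P → Fin 4,
        D.coef θ a b σ c ≠ 0 → (D.R σ c).card = D.b → (∀ i ∈ σ, D.isoP i) ∧
          0 ≤ D.coef θ a b σ c) → (∃ a b : D.V, ∃ σ : Finset D.P, (0 : D.P) ∉ σ ∧
          ∃ c ∈ D.C4 σ, 0 < D.coef θ a b σ c ∧ (D.R σ c).card = D.b) → 0 < C) := by
  classical
  choose! C hC hC0 hC1 hC2 using mn_term h1 h2 D θ hR hb hθ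
  have hmem : ∀ σ ∈ (Finset.univ.erase (0 : D.P)).powerset, (0 : D.P) ∉ σ := by
    intro σ hσ h
    exact Finset.notMem_erase _ _ ((Finset.mem_powerset.1 hσ) h)
  refine ⟨∑ a : D.V, ∑ b : D.V, ∑ σ ∈ (Finset.univ.erase (0 : D.P)).powerset,
    ∑ c ∈ D.C4 σ, C a b σ c, ?_, ?_⟩
  · have hlim : Tendsto (fun Y : ℝ => ∑ a : D.V, ∑ b : D.V,
        ∑ σ ∈ (Finset.univ.erase (0 : D.P)).powerset, ∑ c ∈ D.C4 σ,
          D.coef θ a b σ c * D.TSσ σ c Y / (Y * Real.log Y ^ (D.b - 1))) atTop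
        (nhds (∑ a : D.V, ∑ b : D.V, ∑ σ ∈ (Finset.univ.erase (0 : D.P)).powerset,
          ∑ c ∈ D.C4 σ, C a b σ c)) := by
      refine tendsto_finsetSum _ fun a _ => tendsto_finsetSum _ fun b _ =>
        tendsto_finsetSum _ fun σ hσ => tendsto_finsetSum _ fun c _ => ?_
      exact hC a b σ (hmem σ hσ) c
    refine hlim.congr' ?_
    filter_upwards [eventually_ge_atTop (1 : ℝ)] with Y hY
    rw [hE Y hY]
    simp only [Finset.sum_div]
  · intro hpos hex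
    have hnn : ∀ a b : D.V, ∀ σ : Finset D.P, (0 : D.P) ∉ σ → ∀ c : D.P → Fin 4,
        0 ≤ C a b σ c := by
      intro a b σ h0 c
      by_cases hc : D.coef θ a b σ c = 0
      · rw [hC0 a b σ h0 c hc]
      · obtain ⟨δ, hδ⟩ := mn_coef D θ a b σ c hc
        rcases (hR a b σ h0 c hc (hθ a b δ _ hδ)).1.lt_or_eq with hlt | heq
        · rw [hC1 a b σ h0 c hlt]
        · obtain ⟨h3, h4⟩ := hpos a b σ h0 c hc heq
          obtain ⟨C', hC', h5⟩ := hC2 a b σ h0 c heq h3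
          rw [h5]
          exact mul_nonneg h4 hC'.le
    obtain ⟨a, b, σ, h0, c, hcm, hcp, hcard⟩ := hex
    obtain ⟨h3, h4⟩ := hpos a b σ h0 c hcp.ne' hcard
    obtain ⟨C', hC', h5⟩ := hC2 a b σ h0 c hcard h3
    have hσm : σ ∈ (Finset.univ.erase (0 : D.P)).powerset := by
      rw [Finset.mem_powerset]
      intro i hi
      refine Finset.mem_erase.2 ⟨?_, Finset.mem_univ i⟩
      rintro rfl
      exact h0 hi
    have hsum : ∀ a b, 0 ≤ ∑ σ ∈ (Finset.univ.erase (0 : D.P)).powerset,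
        ∑ c ∈ D.C4 σ, C a b σ c := fun a b =>
      Finset.sum_nonneg fun σ hσ => Finset.sum_nonneg fun c _ => hnn a b σ (hmem σ hσ) c
    refine Finset.sum_pos' (fun a _ => Finset.sum_nonneg fun b _ => hsum a b)
      ⟨a, Finset.mem_univ a, ?_⟩
    refine Finset.sum_pos' (fun b _ => hsum a b) ⟨b, Finset.mem_univ b, ?_⟩
    refine Finset.sum_pos' (fun σ hσ => Finset.sum_nonneg fun c _ => hnn a b σ (hmem σ hσ) c)
      ⟨σ, hσm, ?_⟩
    refine Finset.sum_pos' (fun c _ => hnn a b σ h0 c) ⟨c, hcm, ?_⟩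
    rw [h5]
    exact mul_pos hcp hC'

theorem mn_span (D : Dat) (a b : D.V) (δ : D.V → ZMod 8) (Q : Finset D.V)
    (h : D.θs a b δ Q ≠ 0) : D.Span a b Q := by
  classical
  rw [Dat.θs] at h
  by_cases h1 : a = 0 ∧ b = 0 ∧ δ = (fun _ => 1) ∧
      Q = Finset.univ.filter (fun v => v ≠ 0 ∧ D.q v = 0)
  · obtain ⟨-, -, -, rfl⟩ := h1
    rw [Dat.Span, eq_top_iff, ← D.gen, Submodule.span_le]
    intro v hv
    by_cases hv0 : v = 0
    · rw [hv0]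
      exact Submodule.zero_mem _
    · apply Submodule.subset_span
      refine Set.mem_insert_of_mem _ (Set.mem_insert_of_mem _ ?_)
      rw [Finset.mem_coe, Finset.mem_filter]
      exact ⟨Finset.mem_univ v, hv0, hv⟩
  · rw [if_neg h1] at h
    exact absurd rfl h

theorem mn_iso (D : Dat) (a b : D.V) (σ : Finset D.P) (c : D.P → Fin 4)
    (h : D.coef D.θs a b σ c ≠ 0) : ∀ i ∈ σ, D.isoP i := by
  classical
  obtain ⟨δ, hδ⟩ := mn_coef D D.θs a b σ c h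
  rw [Dat.θs] at hδ
  by_cases h1 : a = 0 ∧ b = 0 ∧ δ = (fun _ => 1) ∧
      D.supV σ = Finset.univ.filter (fun v => v ≠ 0 ∧ D.q v = 0)
  · intro i hi
    by_cases hi0 : i.1 = 0
    · rw [Dat.isoP, hi0, Dat.q, map_zero]
    · have h2 : i.1 ∈ D.supV σ := by
        rw [Dat.supV, Finset.mem_filter]
        exact ⟨Finset.mem_univ _, hi0, i.2, hi⟩
      rw [h1.2.2.2, Finset.mem_filter] at h2
      exact h2.2.2
  · rw [if_neg h1] at hδ
    exact absurd rfl hδ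

theorem mn_R0 (D : Dat) : (D.R D.σ0 0).card = D.b := by
  classical
  have h1 : D.R D.σ0 0 = D.σ0 := by
    rw [Dat.R, Finset.filter_eq_self]
    intro i hi
    have h2 := (Finset.mem_filter.1 hi).2
    refine ⟨h2.2.1, rfl, fun j hj => ?_⟩
    have h3 := (Finset.mem_filter.1 hj).2
    rw [Dat.e, Dat.e, h2.2.2, h3.2.2]
  rw [h1, Dat.b, Dat.σ0, Nat.card_eq_fintype_card, Fintype.card_subtype]

theorem mn_zero_notMem (D : Dat) : (0 : D.P) ∉ D.σ0 := by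
  intro h
  exact (Finset.mem_filter.1 h).2.1 rfl

theorem mn_C4 (D : Dat) (σ : Finset D.P) : (0 : D.P → Fin 4) ∈ D.C4 σ := by
  classical
  rw [Dat.C4, Fintype.mem_piFinset]
  intro i
  split_ifs
  · exact Finset.mem_univ _
  · exact Finset.mem_singleton_self _

theorem mn_pos (h1 : MnAT1) (h2 : MnAT2) (D : Dat) (hE : MnExp D D.θs) (hR : MnR D D.θs)
    (hb : 1 ≤ D.b)
    (hn : ∀ (a b : D.V) (σ : Finset D.P), (0 : D.P) ∉ σ → ∀ c : D.P → Fin 4,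
      (∀ i ∈ σ, i ∈ D.R σ c) → 0 ≤ D.coef D.θs a b σ c)
    (hp : 0 < D.coef D.θs 0 0 D.σ0 0) :
    ∃ C : ℝ, 0 < C ∧
      Tendsto (fun Y : ℝ => D.S D.θs Y / (Y * Real.log Y ^ (D.b - 1))) atTop (nhds C) := by
  obtain ⟨C, hC, hC'⟩ := mn_main h1 h2 D D.θs hE hR hb (mn_span D)
  refine ⟨C, hC' ?_ ⟨0, 0, D.σ0, mn_zero_notMem D, 0, mn_C4 D _, hp, mn_R0 D⟩, hC⟩
  intro a b σ h0 c hc heq
  have hiso := mn_iso D a b σ c hc
  refine ⟨hiso, hn a b σ h0 c fun i hi => ?_⟩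
  obtain ⟨δ, hδ⟩ := mn_coef D D.θs a b σ c hc
  exact (hR a b σ h0 c hc (mn_span D a b δ _ hδ)).2 heq i hi (hiso i hi)

end Pool.Agent.H98.MK
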