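import Pool.Agent.H98.MK.Defs

/-!
# Project MK (MP_a3214d), row F1: the count for the data
-/

set_option autoImplicit false

open scoped BigOperators
open Filter Topology

namespace Pool.Agent.H98.MK

/-- change of scale in an asymptotic formula -/
private theorem f1_scale (f : ℝ → ℝ) (k : ℕ) (C α κ : ℝ) (hα : 0 < α) (hκ : 0 < κ)
    (hf : Tendsto (fun Y : ℝ => f Y / (Y * Real.log Y ^ k)) atTop (𝓝 C)) :
    Tendsto (fun X : ℝ => f (X ^ α * κ) / (X ^ α * Real.log X ^ k)) atTop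
      (𝓝 (C * κ * α ^ k)) := by
  have hY : Tendsto (fun X : ℝ => X ^ α * κ) atTop atTop :=
    (tendsto_rpow_atTop hα).atTop_mul_const hκ
  have h1 := hf.comp hY
  have h2 : Tendsto (fun X : ℝ => Real.log (X ^ α * κ) / Real.log X) atTop (𝓝 α) := by
    have h3 : Tendsto (fun X : ℝ => α + Real.log κ / Real.log X) atTop (𝓝 (α + 0)) :=
      tendsto_const_nhds.add (Tendsto.div_atTop tendsto_const_nhds Real.tendsto_log_atTop)
    rw [add_zero] at h3
    refine h3.congr' ?_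
    filter_upwards [eventually_gt_atTop (1 : ℝ)] with X hX
    have hlX : Real.log X ≠ 0 := (Real.log_pos hX).ne'
    have hX0 : 0 < X := by linarith
    rw [Real.log_mul (Real.rpow_pos_of_pos hX0 α).ne' hκ.ne', Real.log_rpow hX0]
    field_simp
  have h4 := (h1.mul_const κ).mul (h2.pow k)
  refine h4.congr' ?_
  have hlY : Tendsto (fun X : ℝ => Real.log (X ^ α * κ)) atTop atTop :=
    Real.tendsto_log_atTop.comp hY
  filter_upwards [eventually_gt_atTop (1 : ℝ), hlY.eventually_gt_atTop 0] with X hX hX2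
  have hlX : Real.log X ≠ 0 := (Real.log_pos hX).ne'
  have hX0 : 0 < X := by linarith
  have hXa : X ^ α ≠ 0 := (Real.rpow_pos_of_pos hX0 α).ne'
  have hL : Real.log (X ^ α * κ) ≠ 0 := hX2.ne'
  simp only [Function.comp_apply]
  rw [div_pow]
  field_simp

/-- monotonicity in the weight function -/
private theorem f1_mono (D : Dat) (θ θ' : D.V → D.V → (D.V → ZMod 8) → Finset D.V → ℝ)
    (h : ∀ a b δ Q, θ a b δ Q ≤ θ' a b δ Q) (Y : ℝ) : D.S θ Y ≤ D.S θ' Y := by
  unfold Dat.S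
  refine Finset.sum_le_sum fun a _ => Finset.sum_le_sum fun b _ => Finset.sum_le_sum fun m _ =>
    Finset.sum_le_sum fun E _ => ?_
  split_ifs
  · exact mul_le_mul_of_nonneg_left (h _ _ _ _) (Nat.cast_nonneg _)
  · exact le_rfl

private theorem f1_nonneg (D : Dat) (θ : D.V → D.V → (D.V → ZMod 8) → Finset D.V → ℝ)
    (h : ∀ a b δ Q, 0 ≤ θ a b δ Q) (Y : ℝ) : 0 ≤ D.S θ Y := by
  unfold Dat.S
  refine Finset.sum_nonneg fun a _ => Finset.sum_nonneg fun b _ => Finset.sum_nonneg fun m _ =>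
    Finset.sum_nonneg fun E _ => ?_
  split_ifs
  · exact mul_nonneg (Nat.cast_nonneg _) (h _ _ _ _)
  · exact le_rfl

open Classical in
private theorem f1_theta (D : Dat) (W : D.V → D.V → (D.V → ZMod 8) → ℕ → ℕ)
    (hW : 1 ≤ W 0 0 (fun _ => 1) 0) (a b : D.V) (δ : D.V → ZMod 8) (Q : Finset D.V) :
    D.θs a b δ Q ≤ if D.Span a b Q ∧ D.q (D.vinf a δ) = 0 then (W a b δ 0 : ℝ) else 0 := by
  unfold Dat.θs
  split_ifs with h1 h2 h2
  · obtain ⟨rfl, rfl, rfl, -⟩ := h1
    exact_mod_cast hW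
  · exfalso
    apply h2
    obtain ⟨rfl, rfl, rfl, rfl⟩ := h1
    constructor
    · unfold Dat.Span
      rw [eq_top_iff, ← D.gen, Submodule.span_le]
      intro v hv
      apply Submodule.subset_span
      by_cases hv0 : v = 0
      · exact Or.inl hv0
      · right; right
        simp only [Finset.coe_filter, Finset.mem_univ, true_and, Set.mem_ofPred_eq]
        exact ⟨hv0, hv⟩
    · have he : eps 1 = 0 := by decide
      unfold Dat.vinf
      simp [he, Dat.q]
  · exact Nat.cast_nonneg _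
  · exact le_rfl

open Classical in
/-- the final count for the data, from the master formula and the analytic theorem -/
theorem main_dat_of (D : Dat)
    (halg : ∃ (T : ℕ) (W : D.V → D.V → (D.V → ZMod 8) → ℕ → ℕ),
      1 ≤ W 0 0 (fun _ => 1) 0 ∧ ∀ X : ℝ, 1 ≤ X →
      (Nat.card {ρ : Gam →* Ext D // Function.Surjective ρ ∧ IsLocallyConstant ρ ∧
        (dabs (fld ρ.ker) : ℝ) ≤ X} : ℝ) =
      ∑ t ∈ Finset.range (T + 1),
        D.S (fun a b δ Q => if D.Span a b Q ∧ D.q (D.vinf a δ) = 0 then (W a b δ t : ℝ) else 0)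
          (X ^ (2 / D.n : ℝ) * 2 ^ (-(2 * t / D.n) : ℝ)))
    (han : ∀ θ : D.V → D.V → (D.V → ZMod 8) → Finset D.V → ℝ,
      (∀ a b δ Q, θ a b δ Q ≠ 0 → D.Span a b Q) →
      ∃ C : ℝ, Tendsto (fun Y : ℝ => D.S θ Y / (Y * Real.log Y ^ (D.b - 1))) atTop (nhds C))
    (hpos : ∃ C : ℝ, 0 < C ∧
      Tendsto (fun Y : ℝ => D.S D.θs Y / (Y * Real.log Y ^ (D.b - 1))) atTop (nhds C)) :
    ∃ C : ℝ, 0 < C ∧ Tendsto (fun X : ℝ =>
    (Nat.card {ρ : Gam →* Ext D // Function.Surjective ρ ∧ IsLocallyConstant ρ ∧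
        (dabs (fld ρ.ker) : ℝ) ≤ X} : ℝ) / (X ^ (2 / D.n : ℝ) * Real.log X ^ (D.b - 1)))
    atTop (nhds C) := by
  obtain ⟨T, W, hW, halg⟩ := halg
  set θ : ℕ → D.V → D.V → (D.V → ZMod 8) → Finset D.V → ℝ := fun t a b δ Q =>
    if D.Span a b Q ∧ D.q (D.vinf a δ) = 0 then (W a b δ t : ℝ) else 0 with hθ
  have hn : (0 : ℝ) < D.n := by
    unfold Dat.n
    positivity
  have hα : (0 : ℝ) < 2 / D.n := by positivity
  have h1 : ∀ t, ∃ C : ℝ, Tendsto (fun Y : ℝ => D.S (θ t) Y / (Y * Real.log Y ^ (D.b - 1)))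
      atTop (𝓝 C) := by
    intro t
    apply han
    intro a b δ Q h
    by_contra hc
    apply h
    simp only [hθ]
    rw [if_neg (fun h' => hc h'.1)]
  choose C hC using h1
  have hC0 : ∀ t, 0 ≤ C t := by
    intro t
    apply ge_of_tendsto (hC t)
    filter_upwards [eventually_ge_atTop (1 : ℝ)] with Y hY
    apply div_nonneg
    · apply f1_nonneg
      intro a b δ Q
      simp only [hθ]
      split_ifs
      · exact Nat.cast_nonneg _
      · exact le_rfl
    · exact mul_nonneg (by linarith) (pow_nonneg (Real.log_nonneg hY) _)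
  obtain ⟨Cs, hCs, hCs2⟩ := hpos
  have hCp : 0 < C 0 := by
    refine lt_of_lt_of_le hCs ?_
    refine le_of_tendsto_of_tendsto hCs2 (hC 0) ?_
    filter_upwards [eventually_ge_atTop (1 : ℝ)] with Y hY
    apply div_le_div_of_nonneg_right
    · exact f1_mono D _ _ (fun a b δ Q => f1_theta D W hW a b δ Q) Y
    · exact mul_nonneg (by linarith) (pow_nonneg (Real.log_nonneg hY) _)
  set κ : ℕ → ℝ := fun t => (2 : ℝ) ^ (-(2 * t / D.n) : ℝ) with hκ
  have hκ0 : ∀ t, 0 < κ t := fun t => Real.rpow_pos_of_pos (by norm_num) _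
  refine ⟨∑ t ∈ Finset.range (T + 1), C t * κ t * (2 / D.n : ℝ) ^ (D.b - 1), ?_, ?_⟩
  · apply Finset.sum_pos'
    · intro t _
      have := hC0 t
      have := hκ0 t
      positivity
    · refine ⟨0, by simp, ?_⟩
      have := hκ0 0
      positivity
  · have h2 : Tendsto (fun X : ℝ => ∑ t ∈ Finset.range (T + 1),
        D.S (θ t) (X ^ (2 / D.n : ℝ) * κ t) / (X ^ (2 / D.n : ℝ) * Real.log X ^ (D.b - 1))) atTop
        (𝓝 (∑ t ∈ Finset.range (T + 1), C t * κ t * (2 / D.n : ℝ) ^ (D.b - 1))) :=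
      tendsto_finsetSum _ fun t _ => f1_scale _ _ _ _ _ hα (hκ0 t) (hC t)
    refine h2.congr' ?_
    filter_upwards [eventually_ge_atTop (1 : ℝ)] with X hX
    rw [halg X hX, Finset.sum_div]

end Pool.Agent.H98.MK
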