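import Pool.Agent.H98.MK.Defs
import Pool.Agent.H98.MK.ADefs

/-!
# Project MK (MP_a3214d): definitions for the expansion
-/

set_option autoImplicit false

open scoped BigOperators

namespace Pool.Agent.H98.MK

/-- signs -/
def sg (t : ZMod 2) : ℤ := if t = 0 then 1 else -1

/-- the real characters modulo eight on residues -/
def p8 (c : Fin 4) (u : ZMod 8) : ℤ :=
  if c = 0 then 1 else if c = 1 then (if u = 1 ∨ u = 5 then 1 else -1)
  else if c = 2 then (if u = 1 ∨ u = 7 then 1 else -1) else (if u = 1 ∨ u = 3 then 1 else -1)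

namespace Dat

variable (D : Dat)

/-- all indices; the index `0` carries the value `1` -/
abbrev P : Type := D.V × D.Z

/-- the exponent of the symbol of `x i` over `x j` -/
def e (i j : D.P) : ZMod 2 := i.2 ⬝ᵥ D.B i.1 j.1

/-- linked, with orientation -/
def L (i j : D.P) : Prop := D.e i j = 1 ∧ D.e j i = 0

/-- isotropic index -/
def isoP (i : D.P) : Prop := D.q i.1 = 0

open Classical in
/-- the parameters attached to the expanded variables -/
noncomputable def mof (x : D.P → ℕ) (v : D.V) : ℕ := if v = 0 then 1 else ∏ ζ : D.Z, x (v, ζ)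

open Classical in
/-- the sign of an expanded term -/
noncomputable def sgn (a b : D.V) (x : D.P → ℕ) : ℤ :=
  (∏ i, ∏ j, if D.e i j = 1 then jacobiSym (x i) (x j) else 1) *
  (∏ i : D.P, if i.2 ⬝ᵥ (D.q i.1 + D.B i.1 a) = 1 then jacobiSym (-1) (x i) else 1) *
  (∏ i : D.P, if i.2 ⬝ᵥ D.B i.1 b = 1 then jacobiSym 2 (x i) else 1)

open Classical in
/-- vectors in a support -/
noncomputable def supV (σ : Finset D.P) : Finset D.V :=
  Finset.univ.filter fun v => v ≠ 0 ∧ ∃ ζ : D.Z, (v, ζ) ∈ σ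

open Classical in
/-- sums over the tuples with exact support `σ` -/
noncomputable def SX (σ : Finset D.P) (Y : ℝ) (h : (D.P → ℕ) → ℝ) : ℝ :=
  ∑ x ∈ Fintype.piFinset (fun i : D.P => if i ∈ σ then Finset.Icc 2 ⌊Y⌋₊ else {1}),
    if Squarefree (2 * ∏ i, x i) ∧ ∏ i, (x i : ℝ) ^ we D.isoP i ≤ Y then h x else 0

open Classical in
/-- the function of the residues modulo eight -/
noncomputable def Psi (θ : D.V → D.V → (D.V → ZMod 8) → Finset D.V → ℝ) (a b : D.V)
    (σ : Finset D.P) (u : D.P → ZMod 8) : ℝ :=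
  ((∏ i : D.P, ∏ j : D.P,
      if Fintype.equivFin D.V i.1 < Fintype.equivFin D.V j.1 ∧ D.e i j = 1 ∧ D.e j i = 1
      then sg (eps (u i) * eps (u j)) else 1) *
    (∏ i : D.P, if i.2 ⬝ᵥ (D.q i.1 + D.B i.1 a) = 1 then p8 1 (u i) else 1) *
    (∏ i : D.P, if i.2 ⬝ᵥ D.B i.1 b = 1 then p8 2 (u i) else 1) : ℤ) *
  θ a b (fun v => if v = 0 then 1 else ∏ ζ : D.Z, u (v, ζ)) (D.supV σ)

open Classical in
/-- unit residues on the support, `1` elsewhere -/
noncomputable def U8 (σ : Finset D.P) : Finset (D.P → ZMod 8) :=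
  Fintype.piFinset (fun i : D.P => if i ∈ σ then {1, 3, 5, 7} else {1})

/-- the Fourier coefficient -/
noncomputable def coef (θ : D.V → D.V → (D.V → ZMod 8) → Finset D.V → ℝ) (a b : D.V)
    (σ : Finset D.P) (c : D.P → Fin 4) : ℝ :=
  (1 / 4) ^ σ.card * ∑ u ∈ D.U8 σ, D.Psi θ a b σ u * ((∏ i ∈ σ, p8 (c i) (u i) : ℤ) : ℝ)

open Classical in
/-- characters supported in `σ` -/
noncomputable def C4 (σ : Finset D.P) : Finset (D.P → Fin 4) :=
  Fintype.piFinset (fun i : D.P => if i ∈ σ then Finset.univ else {0})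

/-- the basic sum of a support -/
noncomputable def TSσ (σ : Finset D.P) (c : D.P → Fin 4) (Y : ℝ) : ℝ :=
  TS (ι := {i // i ∈ σ}) (fun i => D.isoP i.1) (fun i j => D.L i.1 j.1) (fun i => c i.1) Y

open Classical in
/-- the free indices -/
noncomputable def R (σ : Finset D.P) (c : D.P → Fin 4) : Finset D.P :=
  σ.filter fun i => D.isoP i ∧ c i = 0 ∧ ∀ j ∈ σ, D.e i j = D.e j i

open Classical in
/-- the maximal support used for positivity -/
noncomputable def σ0 : Finset D.P :=
  Finset.univ.filter fun i => i ≠ 0 ∧ D.q i.1 = 0 ∧ ∀ w : D.V, i.2 ⬝ᵥ D.B i.1 w = 0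

end Dat

end Pool.Agent.H98.MK
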