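import Pool.Agent.H98.MK.NecA
import Pool.Agent.H98.MK.LocalPack

/-!
# Project MK (MP_a3214d), row M4: necessity of the local conditions
-/

set_option autoImplicit false

open scoped BigOperators

namespace Pool.Agent.H98.MK

theorem nec {D : Dat} {x : ℕ →₀ D.V} {f : Gam → D.Z} (hx : adm x) (h : IsLift D x f) :
    Sol D x := by
  refine nec_of hx h fun p hp hp2 => ?_
  obtain ⟨τ, φ, h1, h2, h3, -⟩ := local_pack hx h ∅ (by simp) p hp hp2
  rw [Finset.empty_union] at h2 h3
  exact ⟨τ, φ, h1, h2, h3⟩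

end Pool.Agent.H98.MK
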