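import Pool.Agent.H98.MK.NDefs

/-!
# Project MK, row N6 (helper89): `D.S` is a finite combination of the basic sums (from N2 to N5).
-/

set_option autoImplicit false

open scoped BigOperators

namespace Pool.Agent.H98.MK

theorem n6_cast_mem (x : ℕ) (hx : ¬ 2 ∣ x) :
    (x : ZMod 8) ∈ ({1, 3, 5, 7} : Finset (ZMod 8)) := by
  obtain ⟨k, hk⟩ : ∃ k, x = 2 * k + 1 := ⟨x / 2, by omega⟩
  subst hk
  push_cast
  generalize (k : ZMod 8) = w
  revert w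
  decide

theorem n6_odd {ι : Type} [Fintype ι] (x : ι → ℕ) (hsq : Squarefree (2 * ∏ i, x i)) (i : ι) :
    ¬ 2 ∣ x i := by
  intro h
  have h1 : x i ∣ ∏ i, x i := Finset.dvd_prod_of_mem x (Finset.mem_univ i)
  obtain ⟨m, hm⟩ := h.trans h1
  have h2 : 2 * 2 ∣ 2 * ∏ i, x i := ⟨m, by rw [hm]; ring⟩
  have h3 := hsq 2 h2
  rw [Nat.isUnit_iff] at h3
  omega

theorem n6_SX_congr (D : Dat) (σ : Finset D.P) (Y : ℝ) (h h' : (D.P → ℕ) → ℝ)
    (H : ∀ x : D.P → ℕ, (∀ i, x i ≠ 1 ↔ i ∈ σ) → Squarefree (2 * ∏ i, x i) → h x = h' x) :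
    D.SX σ Y h = D.SX σ Y h' := by
  classical
  unfold Dat.SX
  refine Finset.sum_congr rfl fun x hx => ?_
  split_ifs with hc
  · refine H x (fun i => ?_) hc.1
    have h1 := Fintype.mem_piFinset.1 hx i
    by_cases hi : i ∈ σ
    · rw [if_pos hi, Finset.mem_Icc] at h1
      exact ⟨fun _ => hi, fun _ => by omega⟩
    · rw [if_neg hi, Finset.mem_singleton] at h1
      exact ⟨fun h2 => absurd h1 h2, fun h2 => absurd h2 hi⟩
  · rfl

theorem n6_SX_sum (D : Dat) (σ : Finset D.P) (Y : ℝ) {κ : Type} (C : Finset κ) (a : κ → ℝ)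
    (h : κ → (D.P → ℕ) → ℝ) :
    D.SX σ Y (fun x => ∑ c ∈ C, a c * h c x) = ∑ c ∈ C, a c * D.SX σ Y (h c) := by
  classical
  unfold Dat.SX
  simp_rw [Finset.mul_sum]
  rw [Finset.sum_comm]
  refine Finset.sum_congr rfl fun x _ => ?_
  split_ifs with hc
  · rfl
  · simp

open Classical in
theorem S_expand_of (D : Dat) (θ : D.V → D.V → (D.V → ZMod 8) → Finset D.V → ℝ) (Y : ℝ)
    (hexpand : D.S θ Y = ∑ a : D.V, ∑ b : D.V,
      ∑ x ∈ Fintype.piFinset (fun _ : D.P => Finset.Icc 1 ⌊Y⌋₊),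
        if x 0 = 1 ∧ Squarefree (2 * ∏ i, x i) ∧ ∏ i, (x i : ℝ) ^ we D.isoP i ≤ Y
        then (D.sgn a b x : ℝ) * θ a b (fun v => (D.mof x v : ZMod 8))
          (Finset.univ.filter fun v => D.mof x v ≠ 1)
        else 0)
    (hsplit : ∀ h : (D.P → ℕ) → ℝ,
      ∑ x ∈ Fintype.piFinset (fun _ : D.P => Finset.Icc 1 ⌊Y⌋₊),
        (if x 0 = 1 ∧ Squarefree (2 * ∏ i, x i) ∧ ∏ i, (x i : ℝ) ^ we D.isoP i ≤ Y
        then h x else 0) =
      ∑ σ ∈ (Finset.univ.erase (0 : D.P)).powerset, D.SX σ Y h)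
    (hsgn : ∀ (a b : D.V) (σ : Finset D.P), (0 : D.P) ∉ σ → ∀ x : D.P → ℕ,
      (∀ i, x i ≠ 1 ↔ i ∈ σ) → Squarefree (2 * ∏ i, x i) →
      (D.sgn a b x : ℝ) * θ a b (fun v => (D.mof x v : ZMod 8))
        (Finset.univ.filter fun v => D.mof x v ≠ 1) =
      D.Psi θ a b σ (fun i => (x i : ZMod 8)) * (jp D.L x : ℝ))
    (hfourier : ∀ (σ : Finset D.P) (F : (D.P → ZMod 8) → ℝ) (u : D.P → ZMod 8), u ∈ D.U8 σ →
      F u = ∑ c ∈ D.C4 σ,
        ((1 / 4) ^ σ.card * ∑ w ∈ D.U8 σ, F w * ((∏ i ∈ σ, p8 (c i) (w i) : ℤ) : ℝ))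
        * ((∏ i ∈ σ, p8 (c i) (u i) : ℤ) : ℝ))
    (hSX : ∀ (σ : Finset D.P) (c : D.P → Fin 4),
      D.SX σ Y (fun x => ((∏ i ∈ σ, p8 (c i) (x i : ZMod 8) : ℤ) : ℝ) * (jp D.L x : ℝ)) =
      D.TSσ σ c Y) :
    D.S θ Y = ∑ a : D.V, ∑ b : D.V, ∑ σ ∈ (Finset.univ.erase (0 : D.P)).powerset,
      ∑ c ∈ D.C4 σ, D.coef θ a b σ c * D.TSσ σ c Y := by
  rw [hexpand]
  refine Finset.sum_congr rfl fun a _ => Finset.sum_congr rfl fun b _ => ?_
  rw [hsplit]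
  refine Finset.sum_congr rfl fun σ hσ => ?_
  have h0 : (0 : D.P) ∉ σ := by
    intro h1
    have h2 := Finset.mem_powerset.1 hσ h1
    exact (Finset.mem_erase.1 h2).1 rfl
  have h1 : D.SX σ Y (fun x => (D.sgn a b x : ℝ) * θ a b (fun v => (D.mof x v : ZMod 8))
        (Finset.univ.filter fun v => D.mof x v ≠ 1)) =
      D.SX σ Y (fun x => ∑ c ∈ D.C4 σ, D.coef θ a b σ c *
        (((∏ i ∈ σ, p8 (c i) (x i : ZMod 8) : ℤ) : ℝ) * (jp D.L x : ℝ))) := by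
    refine n6_SX_congr D σ Y _ _ fun x hx hsq => ?_
    rw [hsgn a b σ h0 x hx hsq]
    have h2 : (fun i => (x i : ZMod 8)) ∈ D.U8 σ := by
      unfold Dat.U8
      rw [Fintype.mem_piFinset]
      intro i
      by_cases hi : i ∈ σ
      · rw [if_pos hi]
        exact n6_cast_mem (x i) (n6_odd x hsq i)
      · rw [if_neg hi, Finset.mem_singleton]
        have h3 : x i = 1 := by
          by_contra h4
          exact hi ((hx i).1 h4)
        rw [h3, Nat.cast_one]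
    rw [hfourier σ (D.Psi θ a b σ) _ h2, Finset.sum_mul]
    refine Finset.sum_congr rfl fun c _ => ?_
    unfold Dat.coef
    ring
  rw [h1, n6_SX_sum]
  refine Finset.sum_congr rfl fun c _ => ?_
  rw [hSX]

end Pool.Agent.H98.MK
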