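import Pool.Agent.H98.MK.SQLoc

/-!
# Project MK, row A8: tuples with squarefree product (helper12)
-/

set_option autoImplicit false

open Filter

namespace Pool.Agent.H98.MK

/-- squarefree products of tuples -/
noncomputable def SQ (k m : ℕ) (x : ℝ) : ℕ :=
  ((Fintype.piFinset (fun _ : Fin k => Finset.Icc 1 ⌊x⌋₊)).filter
    (fun y => ((∏ i, y i : ℕ) : ℝ) ≤ x ∧ Squarefree (2 * m * ∏ i, y i))).card

private theorem sq_iff {m : ℕ} (hm : Squarefree (2 * m)) (n : ℕ) :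
    Squarefree (2 * m * n) ↔ ∀ q, q.Prime → a8cq m q n := by
  rw [Nat.squarefree_iff_prime_squarefree]
  refine forall_congr' fun q => forall_congr' fun hq => ?_
  unfold a8cq
  split_ifs with h
  · obtain ⟨u, hu⟩ := h
    have h1 : ¬ q ∣ u := by
      rintro ⟨v, rfl⟩
      refine (Nat.squarefree_iff_prime_squarefree.1 hm q hq) ⟨v, ?_⟩
      rw [hu]; ring
    rw [hu, mul_assoc, Nat.mul_dvd_mul_iff_left hq.pos, hq.dvd_mul]
    exact not_congr ⟨fun h2 => h2.resolve_left h1, Or.inr⟩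
  · rw [← pow_two, ((Nat.Prime.coprime_iff_not_dvd hq).2 h).pow_left 2 |>.dvd_mul_left]

private theorem sq_cnt {m : ℕ} (hm : Squarefree (2 * m)) (K : ℕ) (x : ℝ) :
    SQ K m x = a8Cnt K (fun y => ∀ q, q.Prime → a8cq m q (∏ i, y i)) x := by
  classical
  unfold SQ a8Cnt
  congr 1
  ext y
  rw [Finset.mem_filter, Finset.mem_filter, sq_iff hm]

private theorem sq_dvd_le (K q : ℕ) (hq : q.Prime) (x : ℝ) :
    a8Cnt K (fun y => q ^ 2 ∣ ∏ i, y i) x ≤ K * (K * TP K (x / q / q)) := by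
  have h1 : ∀ x : ℝ, a8Cnt K (fun y => q ∣ ∏ i, y i) x ≤ K * TP K (x / q) := by
    intro x
    have h2 : a8Cnt K (fun y => q ∣ ∏ i, y i) x ≤
        a8Cnt K (fun y => ∃ j ∈ Finset.univ, q ∣ y j ∧ True) x := by
      refine a8_mono fun y _ _ h => ?_
      obtain ⟨j, hj, h3⟩ := (Prime.dvd_finsetProd_iff hq.prime _).1 h
      exact ⟨j, hj, h3, trivial⟩
    refine h2.trans ((a8_union _ (fun (j : Fin K) (y : Fin K → ℕ) => q ∣ y j ∧ True) x).trans ?_)
    rw [Finset.sum_congr rfl fun j _ => (a8_div hq.one_le j (fun _ => True) (fun _ => True) x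
      fun _ _ => Iff.rfl), Finset.sum_const, Finset.card_univ, Fintype.card_fin, smul_eq_mul,
      a8_TP]
  have h2 : a8Cnt K (fun y => q ^ 2 ∣ ∏ i, y i) x ≤
      a8Cnt K (fun y => ∃ j ∈ Finset.univ, q ∣ y j ∧ q ^ 2 ∣ ∏ i, y i) x := by
    refine a8_mono fun y _ _ h => ?_
    obtain ⟨j, hj, h3⟩ := (Prime.dvd_finsetProd_iff hq.prime _).1
      ((dvd_pow_self q two_ne_zero).trans h)
    exact ⟨j, hj, h3, h⟩
  refine h2.trans ((a8_union _ (fun (j : Fin K) (y : Fin K → ℕ) => q ∣ y j ∧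
    q ^ 2 ∣ ∏ i, y i) x).trans ?_)
  rw [Finset.sum_congr rfl fun j _ => (a8_div hq.one_le j (fun y => q ^ 2 ∣ ∏ i, y i)
    (fun y => q ∣ ∏ i, y i) x fun y _ => by
      rw [a8_prod_update, pow_two, Nat.mul_dvd_mul_iff_left hq.pos]), Finset.sum_const,
    Finset.card_univ, Fintype.card_fin, smul_eq_mul]
  exact Nat.mul_le_mul_left K (h1 _)

private theorem a8_none {K : ℕ} {P : (Fin K → ℕ) → Prop} {x : ℝ} (h : ∀ y, ¬ P y) :
    a8Cnt K P x = 0 := by
  classical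
  unfold a8Cnt
  rw [Finset.card_eq_zero]
  exact Finset.filter_false_of_mem fun y _ h2 => h y h2.2

private theorem TP_le' (k : ℕ) {x X : ℝ} (hX : 0 ≤ X) (hx : 1 ≤ x) (h : X ≤ x) :
    (TP (k + 1) X : ℝ) ≤ X * (1 + Real.log x) ^ k := by
  have hl : 0 ≤ Real.log x := Real.log_nonneg hx
  rcases lt_or_ge X 1 with h1 | h1
  · have h2 : TP (k + 1) X = 0 := by
      unfold TP
      rw [Nat.floor_eq_zero.2 h1, Finset.card_eq_zero, Finset.filter_eq_empty_iff]
      intro y hy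
      have := (Finset.mem_Icc.1 (Fintype.mem_piFinset.1 hy 0))
      omega
    rw [h2, Nat.cast_zero]
    positivity
  · refine (TP_le k X h1).trans (mul_le_mul_of_nonneg_left ?_ hX)
    have h2 : Real.log X ≤ Real.log x := Real.log_le_log (by linarith) h
    have h3 : 0 ≤ Real.log X := Real.log_nonneg h1
    exact pow_le_pow_left₀ (by linarith) (by linarith) k

private theorem tail_le {m : ℕ} (hm : Squarefree (2 * m)) (k z : ℕ) (hz : 2 * m < z) {x : ℝ}
    (hx : 1 ≤ x) : (a8Cnt (k + 1) (fun y => a8cz m z (∏ i, y i)) x : ℝ) ≤ SQ (k + 1) m x +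
      ((k + 1 : ℕ) : ℝ) ^ 2 * (x * (1 + Real.log x) ^ k) * (2 / z) := by
  have hm0 : m ≠ 0 := by
    rintro rfl
    exact absurd hm (by simp)
  have hl : 0 ≤ Real.log x := Real.log_nonneg hx
  rw [sq_cnt hm, ← a8_compl (fun y => a8cz m z (∏ i, y i)) (fun y => ∀ q, q.Prime →
    a8cq m q (∏ i, y i)) x, Nat.cast_add]
  refine add_le_add (Nat.cast_le.2 (a8_mono fun y _ _ h => h.2)) ?_
  have h1 : a8Cnt (k + 1) (fun y => a8cz m z (∏ i, y i) ∧ ¬ ∀ q, q.Prime → a8cq m q (∏ i, y i)) x ≤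
      a8Cnt (k + 1) (fun y => ∃ q ∈ Finset.Ioo (z - 1) (⌊x⌋₊ + 1), q.Prime ∧
        q ^ 2 ∣ ∏ i, y i) x := by
    refine a8_mono fun y hy hyx h => ?_
    obtain ⟨h2, h3⟩ := h
    push Not at h3
    obtain ⟨q, hq, h4⟩ := h3
    have hzq : z ≤ q := by
      by_contra hcon
      exact h4 (h2 q (by omega) hq)
    have h5 : ¬ q ∣ 2 * m := fun h => absurd (Nat.le_of_dvd (by omega) h) (by omega)
    unfold a8cq at h4
    rw [if_neg h5, not_not] at h4
    refine ⟨q, ?_, hq, h4⟩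
    have h6 : q ^ 2 ≤ ∏ i, y i := Nat.le_of_dvd (Finset.prod_pos fun i _ => hy i) h4
    have h7 : q ≤ ⌊x⌋₊ := by
      refine Nat.le_floor (le_trans ?_ hyx)
      exact_mod_cast (Nat.le_self_pow two_ne_zero q).trans h6
    rw [Finset.mem_Ioo]
    omega
  refine (Nat.cast_le.2 (h1.trans (a8_union _ (fun (q : ℕ) (y : Fin (k + 1) → ℕ) => q.Prime ∧
    q ^ 2 ∣ ∏ i, y i) x))).trans ?_
  rw [Nat.cast_sum]
  have h8 : ∀ q ∈ Finset.Ioo (z - 1) (⌊x⌋₊ + 1),
      (a8Cnt (k + 1) (fun y => q.Prime ∧ q ^ 2 ∣ ∏ i, y i) x : ℝ) ≤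
        ((k + 1 : ℕ) : ℝ) ^ 2 * (x * (1 + Real.log x) ^ k) * ((q : ℝ) ^ 2)⁻¹ := by
    intro q _
    by_cases hq : q.Prime
    · have hq1 : (1 : ℝ) ≤ q := by exact_mod_cast hq.one_le
      have h9 : a8Cnt (k + 1) (fun y => q.Prime ∧ q ^ 2 ∣ ∏ i, y i) x ≤
          a8Cnt (k + 1) (fun y => q ^ 2 ∣ ∏ i, y i) x := a8_mono fun y _ _ h => h.2
      have h10 : ((a8Cnt (k + 1) (fun y => q.Prime ∧ q ^ 2 ∣ ∏ i, y i) x : ℕ) : ℝ) ≤
          ((k + 1 : ℕ) : ℝ) * (((k + 1 : ℕ) : ℝ) * (TP (k + 1) (x / q / q) : ℝ)) := by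
        exact_mod_cast h9.trans (sq_dvd_le (k + 1) q hq x)
      have h11 : (TP (k + 1) (x / q / q) : ℝ) ≤ x / q / q * (1 + Real.log x) ^ k := by
        refine TP_le' k (by positivity) hx ?_
        exact (div_le_self (by positivity) hq1).trans (div_le_self (by linarith) hq1)
      refine h10.trans ?_
      have h12 : ((k + 1 : ℕ) : ℝ) ^ 2 * (x * (1 + Real.log x) ^ k) * ((q : ℝ) ^ 2)⁻¹ =
          ((k + 1 : ℕ) : ℝ) * (((k + 1 : ℕ) : ℝ) * (x / q / q * (1 + Real.log x) ^ k)) := by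
        field_simp
      rw [h12]
      exact mul_le_mul_of_nonneg_left (mul_le_mul_of_nonneg_left h11 (by positivity))
        (by positivity)
    · have h9 : a8Cnt (k + 1) (fun y => q.Prime ∧ q ^ 2 ∣ ∏ i, y i) x = 0 :=
        a8_none fun y h => hq h.1
      rw [h9, Nat.cast_zero]
      positivity
  refine (Finset.sum_le_sum h8).trans ?_
  rw [← Finset.mul_sum]
  refine mul_le_mul_of_nonneg_left ?_ (by positivity)
  have h13 := sum_Ioo_inv_sq_le (α := ℝ) (z - 1) (⌊x⌋₊ + 1)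
  have h14 : ((z - 1 : ℕ) : ℝ) + 1 = z := by
    rw [Nat.cast_sub (by omega)]
    simp
  rwa [h14] at h13

theorem SQ_asymp (k m : ℕ) (hm : Squarefree (2 * m)) : ∃ C : ℝ, 0 < C ∧
    Tendsto (fun x : ℝ => (SQ (k + 1) m x : ℝ) / (x * Real.log x ^ k)) atTop (nhds C) := by
  have hm0 : m ≠ 0 := by
    rintro rfl
    exact absurd hm (by simp)
  obtain ⟨P, hP, hlim⟩ := a8_prod_lim hm0 (k + 1)
  refine ⟨1 / (k.factorial : ℝ) * P, by positivity, ?_⟩
  have hlim2 := hlim.const_mul (1 / (k.factorial : ℝ))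
  rw [Metric.tendsto_atTop]
  intro ε hε
  set B : ℝ := ((k + 1 : ℕ) : ℝ) ^ 2 * 2 ^ k * 2 with hB
  have hB0 : 0 < B := by positivity
  obtain ⟨z1, hz1⟩ := (Metric.tendsto_atTop.1 hlim2) (ε / 3) (by linarith)
  obtain ⟨z2, hz2⟩ := exists_nat_gt (B / (ε / 3))
  set z := max z1 (max z2 (2 * m + 1)) with hz
  have hz1' := hz1 z (le_max_left _ _)
  have hz0 : 2 * m < z := by
    have : 2 * m + 1 ≤ z := (le_max_right _ _).trans (le_max_right _ _)
    omega
  have hzB : B / z < ε / 3 := by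
    have h1 : (z2 : ℝ) ≤ z := by exact_mod_cast (le_max_left _ _).trans (le_max_right _ _)
    have h2 : (0 : ℝ) < z := by exact_mod_cast (by omega : 0 < z)
    rw [div_lt_iff₀ h2]
    rw [div_lt_iff₀ (by linarith)] at hz2
    nlinarith
  obtain ⟨x1, hx1⟩ := (Metric.tendsto_atTop.1 (a8_asy_z k m z)) (ε / 3) (by linarith)
  refine ⟨max x1 (Real.exp 1), fun x hx => ?_⟩
  have hxa : x1 ≤ x := (le_max_left _ _).trans hx
  have hxe : Real.exp 1 ≤ x := (le_max_right _ _).trans hx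
  have hx1' := hx1 x hxa
  have hlog : 1 ≤ Real.log x := by
    rw [Real.le_log_iff_exp_le (lt_of_lt_of_le (Real.exp_pos 1) hxe)]
    exact hxe
  have hxx : 1 ≤ x := le_trans (by
    have := Real.add_one_le_exp (1 : ℝ)
    linarith) hxe
  have hD : 0 < x * Real.log x ^ k := by positivity
  have ht := tail_le hm k z hz0 hxx
  have hle : (SQ (k + 1) m x : ℝ) ≤ a8Cnt (k + 1) (fun y => a8cz m z (∏ i, y i)) x := by
    rw [sq_cnt hm]
    exact Nat.cast_le.2 (a8_mono (Q := fun y : Fin (k + 1) → ℕ => a8cz m z (∏ i, y i))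
      fun y _ _ h q _ hq => h q hq)
  have hpow : (1 + Real.log x) ^ k ≤ 2 ^ k * Real.log x ^ k := by
    rw [← mul_pow]
    exact pow_le_pow_left₀ (by linarith) (by linarith) k
  set a : ℝ := (a8Cnt (k + 1) (fun y => a8cz m z (∏ i, y i)) x : ℝ) with ha
  set b : ℝ := (SQ (k + 1) m x : ℝ) with hb
  have hab : a / (x * Real.log x ^ k) - b / (x * Real.log x ^ k) ≤ B / z := by
    rw [← sub_div, div_le_iff₀ hD]
    have h1 : ((k + 1 : ℕ) : ℝ) ^ 2 * (x * (1 + Real.log x) ^ k) * (2 / z) ≤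
        ((k + 1 : ℕ) : ℝ) ^ 2 * (x * (2 ^ k * Real.log x ^ k)) * (2 / z) := by
      refine mul_le_mul_of_nonneg_right ?_ (by positivity)
      refine mul_le_mul_of_nonneg_left ?_ (by positivity)
      exact mul_le_mul_of_nonneg_left hpow (by linarith)
    have h2 : ((k + 1 : ℕ) : ℝ) ^ 2 * (x * (2 ^ k * Real.log x ^ k)) * (2 / z) =
        B / z * (x * Real.log x ^ k) := by
      rw [hB]; ring
    linarith
  have hba : 0 ≤ a / (x * Real.log x ^ k) - b / (x * Real.log x ^ k) := by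
    rw [← sub_div]
    exact div_nonneg (by linarith) hD.le
  rw [Real.dist_eq, abs_lt] at hz1' hx1' ⊢
  constructor <;> linarith [hz1'.1, hz1'.2, hx1'.1, hx1'.2]

end Pool.Agent.H98.MK
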