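import Pool.Agent.H98.MK.TupleCount

/-!
# Project MK, row A8, part 1: counting tuples under conditions on the product (helper12)
-/

set_option autoImplicit false

open Filter

namespace Pool.Agent.H98.MK

open Classical in
/-- number of tuples with product at most `x` and the property `P` -/
noncomputable def a8Cnt (K : ℕ) (P : (Fin K → ℕ) → Prop) (x : ℝ) : ℕ :=
  ((Fintype.piFinset (fun _ : Fin K => Finset.Icc 1 ⌊x⌋₊)).filter
    (fun y => ((∏ i, y i : ℕ) : ℝ) ≤ x ∧ P y)).card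

theorem a8_box {K : ℕ} {x : ℝ} {y : Fin K → ℕ} (h : ∀ i, 1 ≤ y i)
    (hx : ((∏ i, y i : ℕ) : ℝ) ≤ x) : y ∈ Fintype.piFinset (fun _ : Fin K => Finset.Icc 1 ⌊x⌋₊) := by
  rw [Fintype.mem_piFinset]
  intro i
  rw [Finset.mem_Icc]
  refine ⟨h i, Nat.le_floor (le_trans ?_ hx)⟩
  have h1 : y i ∣ ∏ i, y i := Finset.dvd_prod_of_mem y (Finset.mem_univ i)
  have h2 : 0 < ∏ i, y i := Finset.prod_pos fun i _ => h i
  exact_mod_cast Nat.le_of_dvd h2 h1

open Classical in
theorem a8_mem {K : ℕ} {x : ℝ} {P : (Fin K → ℕ) → Prop} {y : Fin K → ℕ} :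
    y ∈ (Fintype.piFinset (fun _ : Fin K => Finset.Icc 1 ⌊x⌋₊)).filter
      (fun y => ((∏ i, y i : ℕ) : ℝ) ≤ x ∧ P y) ↔
    (∀ i, 1 ≤ y i) ∧ ((∏ i, y i : ℕ) : ℝ) ≤ x ∧ P y := by
  rw [Finset.mem_filter]
  constructor
  · rintro ⟨h1, h2⟩
    exact ⟨fun i => (Finset.mem_Icc.1 (Fintype.mem_piFinset.1 h1 i)).1, h2⟩
  · rintro ⟨h1, h2, h3⟩
    exact ⟨a8_box h1 h2, h2, h3⟩

theorem a8_mono {K : ℕ} {P Q : (Fin K → ℕ) → Prop} {x : ℝ}
    (h : ∀ y, (∀ i, 1 ≤ y i) → ((∏ i, y i : ℕ) : ℝ) ≤ x → P y → Q y) :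
    a8Cnt K P x ≤ a8Cnt K Q x := by
  classical
  refine Finset.card_le_card fun y hy => ?_
  rw [a8_mem] at hy ⊢
  exact ⟨hy.1, hy.2.1, h y hy.1 hy.2.1 hy.2.2⟩

theorem a8_congr {K : ℕ} {P Q : (Fin K → ℕ) → Prop} {x : ℝ}
    (h : ∀ y, (∀ i, 1 ≤ y i) → ((∏ i, y i : ℕ) : ℝ) ≤ x → (P y ↔ Q y)) :
    a8Cnt K P x = a8Cnt K Q x :=
  le_antisymm (a8_mono fun y h1 h2 => (h y h1 h2).1) (a8_mono fun y h1 h2 => (h y h1 h2).2)

theorem a8_compl {K : ℕ} (P Q : (Fin K → ℕ) → Prop) (x : ℝ) :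
    a8Cnt K (fun y => P y ∧ Q y) x + a8Cnt K (fun y => P y ∧ ¬ Q y) x = a8Cnt K P x := by
  classical
  unfold a8Cnt
  rw [← Finset.card_filter_add_card_filter_not (s := (Fintype.piFinset
    (fun _ : Fin K => Finset.Icc 1 ⌊x⌋₊)).filter (fun y => ((∏ i, y i : ℕ) : ℝ) ≤ x ∧ P y)) Q,
    Finset.filter_filter, Finset.filter_filter]
  simp only [and_assoc]

theorem a8_union {K : ℕ} {ι : Type} (s : Finset ι) (P : ι → (Fin K → ℕ) → Prop) (x : ℝ) :
    a8Cnt K (fun y => ∃ i ∈ s, P i y) x ≤ ∑ i ∈ s, a8Cnt K (P i) x := by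
  classical
  unfold a8Cnt
  refine le_trans (Finset.card_le_card fun y hy => ?_) Finset.card_biUnion_le
  rw [a8_mem] at hy
  obtain ⟨h1, h2, i, hi, h3⟩ := hy
  exact Finset.mem_biUnion.2 ⟨i, hi, a8_mem.2 ⟨h1, h2, h3⟩⟩

theorem a8_disj {K : ℕ} {ι : Type} (s : Finset ι) (P : ι → (Fin K → ℕ) → Prop) (x : ℝ)
    (hd : ∀ y, ∀ i ∈ s, ∀ j ∈ s, P i y → P j y → i = j) :
    a8Cnt K (fun y => ∃ i ∈ s, P i y) x = ∑ i ∈ s, a8Cnt K (P i) x := by
  classical
  unfold a8Cnt
  rw [← Finset.card_biUnion]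
  · congr 1
    ext y
    rw [a8_mem, Finset.mem_biUnion]
    constructor
    · rintro ⟨h1, h2, i, hi, h3⟩
      exact ⟨i, hi, a8_mem.2 ⟨h1, h2, h3⟩⟩
    · rintro ⟨i, hi, h⟩
      obtain ⟨h1, h2, h3⟩ := a8_mem.1 h
      exact ⟨h1, h2, i, hi, h3⟩
  · intro i hi j hj hij
    rw [Function.onFun, Finset.disjoint_left]
    intro y h1 h2
    exact hij (hd y i hi j hj (a8_mem.1 h1).2.2 (a8_mem.1 h2).2.2)

theorem a8_prod_update {K : ℕ} (y : Fin K → ℕ) (j : Fin K) (c : ℕ) :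
    ∏ i, Function.update y j (c * y j) i = c * ∏ i, y i := by
  have h1 := Finset.prod_update_of_mem (Finset.mem_univ j) y (y j)
  rw [Function.update_eq_self] at h1
  rw [Finset.prod_update_of_mem (Finset.mem_univ j), h1, mul_assoc]

/-- Division of one entry by `p`. -/
theorem a8_div {K : ℕ} {p : ℕ} (hp : 1 ≤ p) (j : Fin K) (P P' : (Fin K → ℕ) → Prop) (x : ℝ)
    (h : ∀ y : Fin K → ℕ, (∀ i, 1 ≤ y i) → (P (Function.update y j (p * y j)) ↔ P' y)) :
    a8Cnt K (fun y => p ∣ y j ∧ P y) x = a8Cnt K P' (x / p) := by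
  classical
  have hp0 : (0 : ℝ) < p := by exact_mod_cast hp
  symm
  unfold a8Cnt
  refine Finset.card_bij' (fun y _ => Function.update y j (p * y j))
    (fun y _ => Function.update y j (y j / p)) ?_ ?_ ?_ ?_
  · intro y hy
    obtain ⟨h1, h2, h3⟩ := a8_mem.1 hy
    refine a8_mem.2 ⟨fun i => ?_, ?_, ?_, (h y h1).2 h3⟩
    · rcases eq_or_ne i j with rfl | hij
      · rw [Function.update_self]
        exact Nat.mul_pos hp (h1 i)
      · rw [Function.update_of_ne hij]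
        exact h1 i
    · rw [a8_prod_update]
      rw [le_div_iff₀ hp0] at h2
      push_cast at h2 ⊢
      linarith
    · rw [Function.update_self]
      exact dvd_mul_right _ _
  · intro y hy
    obtain ⟨h1, h2, ⟨c, hc⟩, h3⟩ := a8_mem.1 hy
    have hcp : y j / p = c := by
      rw [hc, Nat.mul_div_cancel_left c (by omega)]
    have hc1 : 1 ≤ c := by
      rcases Nat.eq_zero_or_pos c with h0 | h0
      · have := h1 j
        rw [hc, h0] at this
        omega
      · exact h0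
    have hyy : Function.update (Function.update y j c) j (p * Function.update y j c j) = y := by
      rw [Function.update_self, Function.update_idem, ← hc, Function.update_eq_self]
    have hpos : ∀ i, 1 ≤ Function.update y j c i := by
      intro i
      rcases eq_or_ne i j with rfl | hij
      · rw [Function.update_self]
        exact hc1
      · rw [Function.update_of_ne hij]
        exact h1 i
    simp only [hcp]
    refine a8_mem.2 ⟨hpos, ?_, ?_⟩
    · have h4 := a8_prod_update (Function.update y j c) j p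
      rw [hyy] at h4
      rw [le_div_iff₀ hp0]
      rw [h4] at h2
      push_cast at h2 ⊢
      linarith
    · rw [← h _ hpos, hyy]
      exact h3
  · intro y hy
    simp only [Function.update_self, Function.update_idem]
    rw [Nat.mul_div_cancel_left _ (by omega), Function.update_eq_self]
  · intro y hy
    obtain ⟨h1, h2, h3, h4⟩ := a8_mem.1 hy
    simp only [Function.update_self, Function.update_idem]
    rw [Nat.mul_div_cancel' h3, Function.update_eq_self]

theorem a8_TP (K : ℕ) (x : ℝ) : a8Cnt K (fun _ => True) x = TP K x := by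
  classical
  unfold a8Cnt TP
  simp only [and_true]

end Pool.Agent.H98.MK
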