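import Pool.Agent.H98.MK.SQStep

/-!
# Project MK, row A8, part 3: the local densities (helper12)
-/

set_option autoImplicit false

open Filter

namespace Pool.Agent.H98.MK

/-- the condition at the prime `q` -/
def a8cq (m q n : ℕ) : Prop := if q ∣ 2 * m then ¬ q ∣ n else ¬ q ^ 2 ∣ n

/-- the conditions at the primes below `z` -/
def a8cz (m z n : ℕ) : Prop := ∀ q < z, q.Prime → a8cq m q n

theorem a8cq_mul {m q p n : ℕ} (hq : q.Prime) (hp : p.Prime) (h : q ≠ p) :
    a8cq m q (p * n) ↔ a8cq m q n := by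
  have h1 : Nat.Coprime q p := (Nat.coprime_primes hq hp).2 h
  unfold a8cq
  split_ifs
  · rw [h1.dvd_mul_left]
  · rw [(h1.pow_left 2).dvd_mul_left]

theorem a8cz_mul {m z : ℕ} (hz : z.Prime) (n : ℕ) : a8cz m z (z * n) ↔ a8cz m z n :=
  forall_congr' fun _ => forall_congr' fun hq => forall_congr' fun hqp =>
    a8cq_mul hqp hz (ne_of_lt hq)

theorem a8cz_succ {m z : ℕ} (n : ℕ) : a8cz m (z + 1) n ↔ a8cz m z n ∧ (z.Prime → a8cq m z n) := by
  unfold a8cz
  constructor
  · intro h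
    exact ⟨fun q hq => h q (by omega), h z (by omega)⟩
  · rintro ⟨h1, h2⟩ q hq hqp
    rcases Nat.lt_succ_iff_lt_or_eq.1 hq with h3 | h3
    · exact h1 q h3 hqp
    · subst h3
      exact h2 hqp

/-- the local densities -/
noncomputable def a8dl (K m q : ℕ) : ℝ :=
  if q.Prime then (if q ∣ 2 * m then (1 - 1 / (q : ℝ)) ^ K else
    (1 - 1 / (q : ℝ)) ^ K * (1 + K / q)) else 1

theorem a8dl_pos (K m q : ℕ) : 0 < a8dl K m q := by
  unfold a8dl
  split_ifs with h1 h2
  · have h3 : (1 : ℝ) < q := by exact_mod_cast h1.one_lt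
    have h4 : 1 / (q : ℝ) < 1 := by rw [div_lt_one (by linarith)]; exact h3
    exact pow_pos (by linarith) K
  · have h3 : (1 : ℝ) < q := by exact_mod_cast h1.one_lt
    have h4 : 1 / (q : ℝ) < 1 := by rw [div_lt_one (by linarith)]; exact h3
    exact mul_pos (pow_pos (by linarith) K) (by positivity)
  · exact one_pos

theorem a8dl_ge {K m q : ℕ} (hq : K < q) (hm : 2 * m < q) (hm0 : m ≠ 0) :
    1 - (K : ℝ) ^ 2 * ((q : ℝ) ^ 2)⁻¹ ≤ a8dl K m q := by
  have hq0 : (0 : ℝ) < q := by exact_mod_cast (by omega : 0 < q)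
  have hK : (K : ℝ) ≤ q := by exact_mod_cast hq.le
  unfold a8dl
  split_ifs with h1 h2
  · exact absurd (Nat.le_of_dvd (by omega) h2) (by omega)
  · have h3 : (1 : ℝ) + K * (-(1 / (q : ℝ))) ≤ (1 + -(1 / (q : ℝ))) ^ K := by
      refine one_add_mul_le_pow ?_ K
      have h4 : 1 / (q : ℝ) ≤ 1 := by
        rw [div_le_one hq0]
        exact_mod_cast (by omega : 1 ≤ q)
      linarith
    have h5 : (0 : ℝ) ≤ 1 + K / q := by positivity
    calc 1 - (K : ℝ) ^ 2 * ((q : ℝ) ^ 2)⁻¹ = (1 + K * (-(1 / (q : ℝ)))) * (1 + K / q) := by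
          field_simp
          ring
      _ ≤ (1 + -(1 / (q : ℝ))) ^ K * (1 + K / q) := mul_le_mul_of_nonneg_right h3 h5
      _ = (1 - 1 / (q : ℝ)) ^ K * (1 + K / q) := by ring
  · have : 0 ≤ (K : ℝ) ^ 2 * ((q : ℝ) ^ 2)⁻¹ := by positivity
    linarith

theorem a8_asy_z (k m z : ℕ) :
    a8Asy k (fun x => a8Cnt (k + 1) (fun y => a8cz m z (∏ i, y i)) x)
      (1 / (k.factorial : ℝ) * ∏ q ∈ Finset.range z, a8dl (k + 1) m q) := by
  induction z with
  | zero =>
    have h1 : a8Asy k (fun x => (TP (k + 1) x : ℝ)) (1 / (k.factorial : ℝ)) := TP_asymp k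
    rw [Finset.range_zero, Finset.prod_empty, mul_one]
    refine a8Asy.congr h1 fun x => ?_
    rw [← a8_TP]
    congr 1
    exact a8_congr fun y _ _ => ⟨fun _ q hq => absurd hq (Nat.not_lt_zero q), fun _ => trivial⟩
  | succ z ih =>
    rw [Finset.prod_range_succ, ← mul_assoc]
    by_cases hz : z.Prime
    · by_cases h2 : z ∣ 2 * m
      · have h3 := a8_step1 (a8cz m z) hz (a8cz_mul hz) ih
        have h4 : a8dl (k + 1) m z = (1 - 1 / (z : ℝ)) ^ (k + 1) := by
          unfold a8dl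
          rw [if_pos hz, if_pos h2]
        rw [h4]
        refine a8Asy.congr h3 fun x => ?_
        congr 1
        refine a8_congr fun y _ _ => ?_
        rw [a8cz_succ]
        refine and_congr_right fun _ => ?_
        unfold a8cq
        rw [if_pos h2]
        exact ⟨fun h _ => h, fun h => h hz⟩
      · have h3 := a8_step2 (a8cz m z) hz (a8cz_mul hz) ih
        have h4 : a8dl (k + 1) m z = (1 - 1 / (z : ℝ)) ^ (k + 1) * (1 + ((k + 1 : ℕ) : ℝ) / z) := by
          unfold a8dl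
          rw [if_pos hz, if_neg h2]
        rw [h4]
        refine a8Asy.congr h3 fun x => ?_
        congr 1
        refine a8_congr fun y _ _ => ?_
        rw [a8cz_succ]
        refine and_congr_right fun _ => ?_
        unfold a8cq
        rw [if_neg h2]
        exact ⟨fun h _ => h, fun h => h hz⟩
    · have h4 : a8dl (k + 1) m z = 1 := by
        unfold a8dl
        rw [if_neg hz]
      rw [h4, mul_one]
      refine a8Asy.congr ih fun x => ?_
      congr 1
      refine a8_congr fun y _ _ => ?_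
      rw [a8cz_succ]
      exact ⟨fun h => ⟨h, fun h5 => absurd h5 hz⟩, fun h => h.1⟩

theorem a8dl_le (K m q : ℕ) : a8dl K m q ≤ 1 := by
  unfold a8dl
  split_ifs with h1 h2
  · have h3 : (1 : ℝ) ≤ q := by exact_mod_cast h1.one_le
    have h4 : 1 / (q : ℝ) ≤ 1 := by rw [div_le_one (by linarith)]; exact h3
    have h5 : 0 ≤ 1 / (q : ℝ) := by positivity
    exact pow_le_one₀ (by linarith) (by linarith)
  · have h3 : (1 : ℝ) ≤ q := by exact_mod_cast h1.one_le
    have h4 : 1 / (q : ℝ) ≤ 1 := by rw [div_le_one (by linarith)]; exact h3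
    have h5 : 0 ≤ 1 / (q : ℝ) := by positivity
    have h6 : (1 : ℝ) + K * (1 / (q : ℝ)) ≤ (1 + 1 / (q : ℝ)) ^ K :=
      one_add_mul_le_pow (by linarith) K
    calc (1 - 1 / (q : ℝ)) ^ K * (1 + K / q) ≤ (1 - 1 / (q : ℝ)) ^ K * (1 + 1 / (q : ℝ)) ^ K := by
          refine mul_le_mul_of_nonneg_left ?_ (pow_nonneg (by linarith) K)
          rwa [mul_one_div] at h6
      _ = (1 - (1 / (q : ℝ)) ^ 2) ^ K := by
          rw [← mul_pow]
          congr 1
          ring
      _ ≤ 1 := by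
          have h7 : (1 / (q : ℝ)) ^ 2 ≤ 1 := pow_le_one₀ h5 h4
          have h8 : 0 ≤ (1 / (q : ℝ)) ^ 2 := by positivity
          exact pow_le_one₀ (by linarith) (by linarith)
  · exact le_rfl

theorem a8_prod_lim {m : ℕ} (hm0 : m ≠ 0) (K : ℕ) : ∃ P : ℝ, 0 < P ∧
    Tendsto (fun z => ∏ q ∈ Finset.range z, a8dl K m q) atTop (nhds P) := by
  set p : ℕ → ℝ := fun z => ∏ q ∈ Finset.range z, a8dl K m q with hp
  have hpos : ∀ z, 0 < p z := fun z => Finset.prod_pos fun q _ => a8dl_pos K m q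
  have hsucc : ∀ z, p (z + 1) = p z * a8dl K m z := fun z => Finset.prod_range_succ _ _
  have hanti : Antitone p := antitone_nat_of_succ_le fun z => by
    rw [hsucc]
    exact mul_le_of_le_one_right (hpos z).le (a8dl_le K m z)
  have hbdd : BddBelow (Set.range p) := ⟨0, by rintro _ ⟨z, rfl⟩; exact (hpos z).le⟩
  have hlim := tendsto_atTop_ciInf hanti hbdd
  set z0 : ℕ := K + 2 * m + 4 * K ^ 2 + 1 with hz0
  have hlow : ∀ j, p z0 * (1 - (K : ℝ) ^ 2 *
      ∑ q ∈ Finset.Ioo (z0 - 1) (z0 + j), ((q : ℝ) ^ 2)⁻¹) ≤ p (z0 + j) := by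
    intro j
    induction j with
    | zero =>
      have : Finset.Ioo (z0 - 1) (z0 + 0) = ∅ := by
        ext a
        simp only [Finset.mem_Ioo, Finset.notMem_empty, iff_false]
        omega
      rw [this, Finset.sum_empty, mul_zero, sub_zero, mul_one, add_zero]
    | succ j ih =>
      have h1 : Finset.Ioo (z0 - 1) (z0 + (j + 1)) = insert (z0 + j) (Finset.Ioo (z0 - 1) (z0 + j)) := by
        ext a
        simp only [Finset.mem_Ioo, Finset.mem_insert]
        omega
      rw [h1, Finset.sum_insert (by simp), ← add_assoc, hsucc (z0 + j)]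
      have h2 : 1 - (K : ℝ) ^ 2 * (((z0 + j : ℕ) : ℝ) ^ 2)⁻¹ ≤ a8dl K m (z0 + j) :=
        a8dl_ge (by omega) (by omega) hm0
      have h3 : p (z0 + j) ≤ p z0 := hanti (by omega)
      have h4 : 0 ≤ (K : ℝ) ^ 2 * (((z0 + j : ℕ) : ℝ) ^ 2)⁻¹ := by positivity
      have h5 := mul_le_mul_of_nonneg_left h2 (hpos (z0 + j)).le
      have h6 := mul_le_mul_of_nonneg_right h3 h4
      nlinarith
  have hK : (K : ℝ) ^ 2 * (2 / z0) ≤ 1 / 2 := by
    have h1 : (4 : ℝ) * K ^ 2 ≤ z0 := by exact_mod_cast (by omega : 4 * K ^ 2 ≤ z0)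
    have h2 : (0 : ℝ) < z0 := by exact_mod_cast (by omega : 0 < z0)
    rw [mul_div_assoc', div_le_iff₀ h2]
    linarith
  have hlow2 : ∀ z, p z0 / 2 ≤ p z := by
    intro z
    refine le_trans ?_ (hanti (show z ≤ z0 + z by omega))
    refine le_trans ?_ (hlow z)
    have h1 := sum_Ioo_inv_sq_le (α := ℝ) (z0 - 1) (z0 + z)
    have h2 : ((z0 - 1 : ℕ) : ℝ) + 1 = z0 := by
      rw [Nat.cast_sub (by omega)]
      simp
    rw [h2] at h1
    have h3 := mul_le_mul_of_nonneg_left h1 (by positivity : (0 : ℝ) ≤ (K : ℝ) ^ 2)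
    have h4 := hpos z0
    nlinarith
  refine ⟨_, ?_, hlim⟩
  exact lt_of_lt_of_le (half_pos (hpos z0)) (le_ciInf hlow2)

end Pool.Agent.H98.MK
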