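import Pool.Agent.H98.MK.SQCount

/-!
# Project MK, row A8, part 2: one prime at a time (helper12)
-/

set_option autoImplicit false

open Filter

namespace Pool.Agent.H98.MK

/-- `f x ~ L x (log x)^k` -/
def a8Asy (k : ℕ) (f : ℝ → ℝ) (L : ℝ) : Prop :=
  Tendsto (fun x : ℝ => f x / (x * Real.log x ^ k)) atTop (nhds L)

theorem a8Asy.scale {k : ℕ} {f : ℝ → ℝ} {L : ℝ} (h : a8Asy k f L) {c : ℝ} (hc : 0 < c) :
    a8Asy k (fun x => f (x / c)) (L / c) := by
  have h1 : Tendsto (fun x : ℝ => x / c) atTop atTop := tendsto_id.atTop_div_const hc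
  have h2 := h.comp h1
  have h3 : Tendsto (fun x : ℝ => Real.log (x / c) / Real.log x) atTop (nhds 1) := by
    have h4 : Tendsto (fun x : ℝ => 1 - Real.log c / Real.log x) atTop (nhds (1 - 0)) :=
      tendsto_const_nhds.sub (tendsto_const_nhds.div_atTop Real.tendsto_log_atTop)
    rw [sub_zero] at h4
    refine h4.congr' ?_
    filter_upwards [eventually_gt_atTop (1 : ℝ)] with x hx
    have hl : Real.log x ≠ 0 := (Real.log_pos hx).ne'
    rw [Real.log_div (by linarith) hc.ne', sub_div, div_self hl]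
  have h5 := (h2.mul (h3.pow k)).mul_const (1 / c)
  rw [one_pow, mul_one, mul_one_div] at h5
  refine h5.congr' ?_
  filter_upwards [eventually_gt_atTop (1 : ℝ), eventually_gt_atTop c] with x hx hxc
  have hl : Real.log x ≠ 0 := (Real.log_pos hx).ne'
  have hl2 : Real.log (x / c) ≠ 0 := (Real.log_pos ((one_lt_div hc).2 hxc)).ne'
  simp only [Function.comp]
  rw [div_pow]
  have hx0 : x ≠ 0 := by linarith
  field_simp

theorem a8Asy.sub {k : ℕ} {f g : ℝ → ℝ} {L M : ℝ} (hf : a8Asy k f L) (hg : a8Asy k g M) :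
    a8Asy k (fun x => f x - g x) (L - M) :=
  (Tendsto.sub hf hg).congr fun x => by rw [sub_div]

theorem a8Asy.add {k : ℕ} {f g : ℝ → ℝ} {L M : ℝ} (hf : a8Asy k f L) (hg : a8Asy k g M) :
    a8Asy k (fun x => f x + g x) (L + M) :=
  (Tendsto.add hf hg).congr fun x => by rw [add_div]

theorem a8Asy.mul {k : ℕ} {f : ℝ → ℝ} {L : ℝ} (hf : a8Asy k f L) (c : ℝ) :
    a8Asy k (fun x => c * f x) (c * L) :=
  (Tendsto.const_mul c hf).congr fun x => by rw [mul_div_assoc]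

theorem a8Asy.congr {k : ℕ} {f g : ℝ → ℝ} {L : ℝ} (hf : a8Asy k f L) (h : ∀ x, f x = g x) :
    a8Asy k g L := by
  have h1 : f = g := funext h
  rwa [← h1]

section step

variable {K k : ℕ} (C : ℕ → Prop) {p : ℕ}

/-- The entries before the `j`-th one are not divisible by `p`. -/
theorem a8_iter (hp : p.Prime) (hC : ∀ n, C (p * n) ↔ C n) {L : ℝ}
    (hL : a8Asy k (fun x => a8Cnt K (fun y => C (∏ i, y i)) x) L) (j : ℕ) (hj : j ≤ K) :
    a8Asy k (fun x => a8Cnt K (fun y => C (∏ i, y i) ∧ ∀ i : Fin K, i.1 < j → ¬ p ∣ y i) x)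
      (L * (1 - 1 / p) ^ j) := by
  induction j with
  | zero => simpa using hL
  | succ j ih =>
    have h1 := ih (by omega)
    have hp0 : (0 : ℝ) < p := by exact_mod_cast hp.pos
    have h2 := h1.sub (h1.scale hp0)
    have h3 : L * (1 - 1 / (p : ℝ)) ^ (j + 1) =
        L * (1 - 1 / p) ^ j - L * (1 - 1 / p) ^ j / p := by
      rw [pow_succ]; ring
    rw [h3]
    refine a8Asy.congr h2 fun x => ?_
    have h4 := a8_compl (fun y : Fin K → ℕ => C (∏ i, y i) ∧ ∀ i : Fin K, i.1 < j → ¬ p ∣ y i)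
      (fun y => p ∣ y ⟨j, by omega⟩) x
    have h5 := a8_div hp.one_le ⟨j, by omega⟩
      (fun y : Fin K → ℕ => C (∏ i, y i) ∧ ∀ i : Fin K, i.1 < j → ¬ p ∣ y i)
      (fun y : Fin K → ℕ => C (∏ i, y i) ∧ ∀ i : Fin K, i.1 < j → ¬ p ∣ y i) x (by
        intro y hy
        rw [a8_prod_update, hC]
        refine and_congr_right fun _ => forall_congr' fun i => ?_
        refine imp_congr_right fun hi => ?_
        rw [Function.update_of_ne]
        rintro rfl
        exact absurd hi (lt_irrefl _))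
    have h6 : a8Cnt K (fun y => (C (∏ i, y i) ∧ ∀ i : Fin K, i.1 < j → ¬ p ∣ y i) ∧
        ¬ p ∣ y ⟨j, by omega⟩) x =
        a8Cnt K (fun y => C (∏ i, y i) ∧ ∀ i : Fin K, i.1 < j + 1 → ¬ p ∣ y i) x := by
      refine a8_congr fun y _ _ => ?_
      rw [and_assoc]
      refine and_congr_right fun _ => ⟨fun h i hi => ?_, fun h => ⟨fun i hi => h i (by omega),
        h _ (by simp)⟩⟩
      rcases (Nat.lt_succ_iff_lt_or_eq.1 hi) with h7 | h7
      · exact h.1 i h7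
      · have h8 : i = ⟨j, by omega⟩ := Fin.ext h7
        rw [h8]
        exact h.2
    have h7 : a8Cnt K (fun y => (C (∏ i, y i) ∧ ∀ i : Fin K, i.1 < j → ¬ p ∣ y i) ∧
        p ∣ y ⟨j, by omega⟩) x = a8Cnt K (fun y => p ∣ y ⟨j, by omega⟩ ∧
          (C (∏ i, y i) ∧ ∀ i : Fin K, i.1 < j → ¬ p ∣ y i)) x :=
      a8_congr fun y _ _ => and_comm
    rw [← h6, ← h4, h7, h5]
    push_cast
    ring

/-- The condition that the product is not divisible by `p`. -/
theorem a8_step1 (hp : p.Prime) (hC : ∀ n, C (p * n) ↔ C n) {L : ℝ}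
    (hL : a8Asy k (fun x => a8Cnt K (fun y => C (∏ i, y i)) x) L) :
    a8Asy k (fun x => a8Cnt K (fun y => C (∏ i, y i) ∧ ¬ p ∣ ∏ i, y i) x)
      (L * (1 - 1 / p) ^ K) := by
  refine a8Asy.congr (a8_iter C hp hC hL K le_rfl) fun x => ?_
  congr 1
  refine a8_congr fun y _ _ => and_congr_right fun _ => ?_
  rw [Prime.dvd_finsetProd_iff hp.prime]
  push Not
  exact ⟨fun h i _ => h i i.2, fun h i _ => h i (Finset.mem_univ i)⟩

/-- The condition that the product is not divisible by `p ^ 2`. -/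
theorem a8_step2 (hp : p.Prime) (hC : ∀ n, C (p * n) ↔ C n) {L : ℝ}
    (hL : a8Asy k (fun x => a8Cnt K (fun y => C (∏ i, y i)) x) L) :
    a8Asy k (fun x => a8Cnt K (fun y => C (∏ i, y i) ∧ ¬ p ^ 2 ∣ ∏ i, y i) x)
      (L * ((1 - 1 / p) ^ K * (1 + K / p))) := by
  have hp0 : (0 : ℝ) < p := by exact_mod_cast hp.pos
  have h1 := a8_step1 C hp hC hL
  have h2 := h1.add ((h1.scale hp0).mul K)
  have h3 : L * ((1 - 1 / (p : ℝ)) ^ K * (1 + K / p)) =
      L * (1 - 1 / p) ^ K + K * (L * (1 - 1 / p) ^ K / p) := by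
    ring
  rw [h3]
  refine a8Asy.congr h2 fun x => ?_
  have h4 := a8_compl (fun y : Fin K → ℕ => C (∏ i, y i) ∧ ¬ p ^ 2 ∣ ∏ i, y i)
    (fun y => p ∣ ∏ i, y i) x
  have h5 : a8Cnt K (fun y => (C (∏ i, y i) ∧ ¬ p ^ 2 ∣ ∏ i, y i) ∧ ¬ p ∣ ∏ i, y i) x =
      a8Cnt K (fun y => C (∏ i, y i) ∧ ¬ p ∣ ∏ i, y i) x := by
    refine a8_congr fun y _ _ => ⟨fun h => ⟨h.1.1, h.2⟩, fun h => ⟨⟨h.1, fun h6 => h.2 ?_⟩, h.2⟩⟩
    exact (dvd_pow_self p two_ne_zero).trans h6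
  have h6 : a8Cnt K (fun y => (C (∏ i, y i) ∧ ¬ p ^ 2 ∣ ∏ i, y i) ∧ p ∣ ∏ i, y i) x =
      ∑ j : Fin K, a8Cnt K (fun y => p ∣ y j ∧ (C (∏ i, y i) ∧ ¬ p ^ 2 ∣ ∏ i, y i)) x := by
    rw [← a8_disj Finset.univ (fun (j : Fin K) y => p ∣ y j ∧ (C (∏ i, y i) ∧
      ¬ p ^ 2 ∣ ∏ i, y i)) x]
    · refine a8_congr fun y _ _ => ?_
      rw [Prime.dvd_finsetProd_iff hp.prime]
      constructor
      · rintro ⟨h7, j, hj, h8⟩
        exact ⟨j, hj, h8, h7⟩
      · rintro ⟨j, hj, h8, h7⟩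
        exact ⟨h7, j, hj, h8⟩
    · intro y i _ j _ hi hj
      by_contra hij
      refine hi.2.2 ?_
      rw [pow_two]
      have h9 : y i * y j ∣ ∏ l, y l := by
        rw [← Finset.prod_pair hij]
        exact Finset.prod_dvd_prod_of_subset _ _ _ (Finset.subset_univ _)
      exact (mul_dvd_mul hi.1 hj.1).trans h9
  have h7 : ∀ j : Fin K, a8Cnt K (fun y => p ∣ y j ∧ (C (∏ i, y i) ∧ ¬ p ^ 2 ∣ ∏ i, y i)) x =
      a8Cnt K (fun y => C (∏ i, y i) ∧ ¬ p ∣ ∏ i, y i) (x / p) := by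
    intro j
    refine a8_div hp.one_le j _ _ x fun y _ => ?_
    rw [a8_prod_update, hC, pow_two, Nat.mul_dvd_mul_iff_left hp.pos]
  rw [← h4, h5, h6, Finset.sum_congr rfl fun j _ => h7 j, Finset.sum_const, Finset.card_univ,
    Fintype.card_fin, smul_eq_mul]
  push_cast
  ring

end step

end Pool.Agent.H98.MK
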