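import Pool.Agent.H98.MK.Defs

/-!
# Project MK: Steinberg symbols on the integers modulo two

Reduction of symbols modulo a prime.
-/

set_option autoImplicit false

open scoped BigOperators

namespace Pool.Agent.H98.MK

/-- Steinberg symbols modulo two on the non-zero integers -/
structure TaSym {M : Type} [AddCommGroup M] (s : ℤ → ℤ → M) : Prop where
  l : ∀ a b c, a ≠ 0 → b ≠ 0 → c ≠ 0 → s (a * b) c = s a c + s b c
  r : ∀ a b c, a ≠ 0 → b ≠ 0 → c ≠ 0 → s a (b * c) = s a b + s a c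
  st : ∀ a b c, a ≠ 0 → b ≠ 0 → c ≠ 0 → a + b = c → s a b + s a c + s c b + s c c = 0

/-- non-zero integers all of whose prime factors are less than `N` -/
def TaU (N : ℕ) (x : ℤ) : Prop := x ≠ 0 ∧ ∀ q : ℕ, q.Prime → (q : ℤ) ∣ x → q < N

theorem taU_mul {N : ℕ} {x y : ℤ} (hx : TaU N x) (hy : TaU N y) : TaU N (x * y) := by
  refine ⟨mul_ne_zero hx.1 hy.1, fun q hq hd => ?_⟩
  rcases (Nat.prime_iff_prime_int.mp hq).dvd_or_dvd hd with h | h
  · exact hx.2 q hq h
  · exact hy.2 q hq h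

theorem taU_mono {N N' : ℕ} (h : N ≤ N') {x : ℤ} (hx : TaU N x) : TaU N' x :=
  ⟨hx.1, fun q hq hd => lt_of_lt_of_le (hx.2 q hq hd) h⟩

theorem taU_of_lt {p u : ℕ} (h0 : 0 < u) (h : u < p) : TaU p (u : ℤ) := by
  refine ⟨by exact_mod_cast h0.ne', fun q _ hd => ?_⟩
  have : q ∣ u := by exact_mod_cast hd
  exact lt_of_le_of_lt (Nat.le_of_dvd h0 this) h

theorem taU_unit {N : ℕ} {x : ℤ} (hx : x = 1 ∨ x = -1) : TaU N x := by
  refine ⟨by rcases hx with h | h <;> rw [h] <;> decide, fun q hq hd => ?_⟩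
  exfalso
  have h1 : q ∣ 1 := by
    rcases hx with h | h
    · rw [h] at hd; exact_mod_cast hd
    · rw [h, dvd_neg] at hd; exact_mod_cast hd
  exact hq.one_lt.ne' (Nat.dvd_one.mp h1)

/-- induction on smooth integers -/
theorem taU_ind {N : ℕ} (C : ℤ → Prop) (h1 : C 1) (hm1 : C (-1))
    (hq : ∀ q : ℕ, q.Prime → q < N → C q)
    (hm : ∀ x y, x ≠ 0 → y ≠ 0 → C x → C y → C (x * y)) {x : ℤ} (hx : TaU N x) : C x := by
  have hnat : ∀ n : ℕ, TaU N (n : ℤ) → C (n : ℤ) := by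
    intro n
    induction n using induction_on_primes with
    | zero => intro h; exact absurd rfl h.1
    | one => intro _; exact_mod_cast h1
    | prime_mul q a hqp ih =>
      intro h
      have ha : TaU N (a : ℤ) := by
        refine ⟨fun h0 => h.1 (by push_cast; rw [h0, mul_zero]), fun l hl hd => ?_⟩
        exact h.2 l hl (by push_cast; exact Dvd.dvd.mul_left hd _)
      have hql : q < N := h.2 q hqp (by push_cast; exact Dvd.intro _ rfl)
      have := hm q a (by exact_mod_cast hqp.ne_zero) ha.1 (hq q hqp hql) (ih ha)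
      push_cast
      exact this
  rcases Int.natAbs_eq x with h | h
  · rw [h]; exact hnat _ (by rw [← h]; exact hx)
  · have h2 : TaU N ((x.natAbs : ℤ)) := by
      have h3 : ((x.natAbs : ℤ)) = -1 * x := by rw [h]; simp
      rw [h3]
      exact taU_mul (taU_unit (Or.inr rfl)) hx
    have h4 := hm (-1) (x.natAbs : ℤ) (by decide) h2.1 hm1 (hnat _ h2)
    rw [h]
    simpa using h4

section basic

variable {M : Type} [AddCommGroup M] [Module (ZMod 2) M] {s : ℤ → ℤ → M}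

theorem ta_dbl (x : M) : x + x = 0 := by
  have h := two_smul (ZMod 2) x
  rw [← h]
  have h2 : (2 : ZMod 2) = 0 := by decide
  rw [h2, zero_smul]

theorem ta_eq {x y : M} (h : x + y = 0) : x = y := by
  have h1 := ta_dbl y
  have h2 : x + y = y + y := by rw [h, h1]
  exact add_right_cancel h2

theorem TaSym.one_l (h : TaSym s) {y : ℤ} (hy : y ≠ 0) : s 1 y = 0 := by
  have h1 := h.l 1 1 y one_ne_zero one_ne_zero hy
  rw [one_mul, ta_dbl] at h1
  exact h1

theorem TaSym.one_r (h : TaSym s) {y : ℤ} (hy : y ≠ 0) : s y 1 = 0 := by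
  have h1 := h.r y 1 1 hy one_ne_zero one_ne_zero
  rw [one_mul, ta_dbl] at h1
  exact h1

theorem TaSym.diag (h : TaSym s) {a : ℤ} (ha : a ≠ 0) : s a a = s a (-1) := by
  by_cases h1 : a = 1
  · subst h1
    rw [h.one_l one_ne_zero, h.one_l (by decide)]
  · have h2 : (1 - a) ≠ 0 := sub_ne_zero.mpr (Ne.symm h1)
    have h3 : (a - 1) ≠ 0 := sub_ne_zero.mpr h1
    have e1 := h.st a (1 - a) 1 ha h2 one_ne_zero (by ring)
    rw [h.one_r ha, h.one_l h2, h.one_l one_ne_zero, add_zero, add_zero, add_zero] at e1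
    have e2 := h.st 1 (a - 1) a one_ne_zero h3 ha (by ring)
    rw [h.one_l h3, h.one_l ha, zero_add, zero_add] at e2
    have e3 : s a (1 - a) = s a (-1) + s a (a - 1) := by
      rw [← h.r a (-1) (a - 1) ha (by decide) h3]
      congr 1
      ring
    rw [e1] at e3
    rw [← ta_eq e2, ← ta_eq e3.symm]

theorem TaSym.symm (h : TaSym s) {a b : ℤ} (ha : a ≠ 0) (hb : b ≠ 0) : s a b = s b a := by
  have hab := mul_ne_zero ha hb
  have e := h.diag hab
  rw [h.l a b (a * b) ha hb hab, h.r a a b ha ha hb, h.r b a b hb ha hb,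
    h.l a b (-1) ha hb (by decide), h.diag ha, h.diag hb] at e
  apply ta_eq
  have e2 : s a (-1) + s a b + (s b a + s b (-1)) =
      (s a b + s b a) + (s a (-1) + s b (-1)) := by abel
  rw [e2] at e
  exact add_eq_right.mp e

/-- the part generated by the symbols of smooth integers -/
def taA (s : ℤ → ℤ → M) (N : ℕ) : Submodule (ZMod 2) M :=
  Submodule.span (ZMod 2) {m | ∃ x y, TaU N x ∧ TaU N y ∧ m = s x y}

theorem taA_mem {N : ℕ} {x y : ℤ} (hx : TaU N x) (hy : TaU N y) : s x y ∈ taA s N :=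
  Submodule.subset_span ⟨x, y, hx, hy, rfl⟩

theorem taA_mono {N N' : ℕ} (h : ∀ x, TaU N x → TaU N' x) : taA s N ≤ taA s N' := by
  apply Submodule.span_mono
  rintro m ⟨x, y, hx, hy, rfl⟩
  exact ⟨x, y, h x hx, h y hy, rfl⟩

theorem ta_mem_of {P : Submodule (ZMod 2) M} {x y z : M} (h : x + y ∈ P) (h' : y + z ∈ P) :
    x + z ∈ P := by
  have h1 := P.add_mem h h'
  have h2 : x + y + (y + z) = x + z + (y + y) := by abel
  rw [h2, ta_dbl, add_zero] at h1
  exact h1

/-- reduction of a product modulo `p` -/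
theorem ta_red (h : TaSym s) {p : ℕ} (hp : p.Prime) {u v : ℕ} (hu : 0 < u) (hup : u < p)
    (hv : 0 < v) (hvp : v < p) :
    s ((u * v : ℕ) : ℤ) p + s ((u * v % p : ℕ) : ℤ) p ∈ taA s p := by
  have hp0 : (p : ℤ) ≠ 0 := by exact_mod_cast hp.ne_zero
  have hnd : ¬ p ∣ u * v := by
    intro hd
    rcases (Nat.Prime.dvd_mul hp).mp hd with h1 | h1
    · exact absurd (Nat.le_of_dvd hu h1) (not_le.mpr hup)
    · exact absurd (Nat.le_of_dvd hv h1) (not_le.mpr hvp)
  have hw0 : 0 < u * v % p := Nat.pos_of_ne_zero fun h0 => hnd (Nat.dvd_of_mod_eq_zero h0)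
  have hwp : u * v % p < p := Nat.mod_lt _ hp.pos
  rcases Nat.eq_zero_or_pos (u * v / p) with hk | hk
  · have h1 := Nat.div_add_mod (u * v) p
    rw [hk, mul_zero, zero_add] at h1
    rw [h1, ta_dbl]
    exact zero_mem _
  · have hkp : u * v / p < p := by
      rw [Nat.div_lt_iff_lt_mul hp.pos]
      exact Nat.mul_lt_mul'' hup hvp
    have hU1 : TaU p ((u * v % p : ℕ) : ℤ) := taU_of_lt hw0 hwp
    have hU2 : TaU p ((u * v / p : ℕ) : ℤ) := taU_of_lt hk hkp
    have hU3 : TaU p ((u * v : ℕ) : ℤ) := by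
      push_cast
      exact taU_mul (taU_of_lt hu hup) (taU_of_lt hv hvp)
    set w : ℤ := ((u * v % p : ℕ) : ℤ)
    set k : ℤ := ((u * v / p : ℕ) : ℤ)
    set c : ℤ := ((u * v : ℕ) : ℤ)
    have hc : w + k * p = c := by
      have h1 := Nat.mod_add_div (u * v) p
      have h2 : ((u * v % p + p * (u * v / p) : ℕ) : ℤ) = ((u * v : ℕ) : ℤ) := by rw [h1]
      rw [Nat.cast_add, Nat.cast_mul] at h2
      rw [mul_comm]
      exact h2
    have e := h.st w (k * p) c hU1.1 (mul_ne_zero hU2.1 hp0) hU3.1 hc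
    rw [h.r w k p hU1.1 hU2.1 hp0, h.r c k p hU3.1 hU2.1 hp0] at e
    have e2 : s c p + s w p = -(s w k + s w c + s c k + s c c) := by
      apply eq_neg_of_add_eq_zero_left
      rw [← e]
      abel
    rw [e2]
    apply neg_mem
    exact add_mem (add_mem (add_mem (taA_mem hU1 hU2) (taA_mem hU1 hU3)) (taA_mem hU3 hU2))
      (taA_mem hU3 hU3)

theorem ta_nat (h : TaSym s) {p : ℕ} (hp : p.Prime) (n : ℕ) :
    TaU p (n : ℤ) → s n p + s ((n % p : ℕ) : ℤ) p ∈ taA s p := by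
  have hp0 : (p : ℤ) ≠ 0 := by exact_mod_cast hp.ne_zero
  induction n using induction_on_primes with
  | zero => intro h; exact absurd rfl h.1
  | one =>
    intro _
    rw [Nat.mod_eq_of_lt hp.one_lt, ta_dbl]
    exact zero_mem _
  | prime_mul q a hqp ih =>
    intro hU
    have ha : TaU p (a : ℤ) := by
      refine ⟨fun h0 => hU.1 (by push_cast; rw [h0, mul_zero]), fun l hl hd => ?_⟩
      exact hU.2 l hl (by push_cast; exact Dvd.dvd.mul_left hd _)
    have hql : q < p := hU.2 q hqp (by push_cast; exact Dvd.intro _ rfl)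
    have hna : ¬ p ∣ a := fun hd => lt_irrefl p (ha.2 p hp (by exact_mod_cast hd))
    have ha0 : 0 < a % p := Nat.pos_of_ne_zero fun h0 => hna (Nat.dvd_of_mod_eq_zero h0)
    have h1 := ta_red h hp hqp.pos hql ha0 (Nat.mod_lt a hp.pos)
    have hq0 : (q : ℤ) ≠ 0 := by exact_mod_cast hqp.ne_zero
    have ham : ((a % p : ℕ) : ℤ) ≠ 0 := by exact_mod_cast ha0.ne'
    rw [Nat.mul_mod_mod, Nat.cast_mul, h.l q ((a % p : ℕ) : ℤ) p hq0 ham hp0] at h1
    rw [Nat.cast_mul, h.l q a p hq0 ha.1 hp0]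
    have h2 : s q p + s a p + (s q p + s ((a % p : ℕ) : ℤ) p) ∈ taA s p := by
      have h3 : s q p + s a p + (s q p + s ((a % p : ℕ) : ℤ) p) =
          (s a p + s ((a % p : ℕ) : ℤ) p) + (s q p + s q p) := by abel
      rw [h3, ta_dbl, add_zero]
      exact ih ha
    exact ta_mem_of h2 h1

/-- every smooth integer can be replaced by a residue -/
theorem ta_int (h : TaSym s) {p : ℕ} (hp : p.Prime) {x : ℤ} (hx : TaU p x) :
    ∃ u : ℕ, 0 < u ∧ u < p ∧ (x : ZMod p) = u ∧ s x p + s u p ∈ taA s p := by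
  have hp0 : (p : ℤ) ≠ 0 := by exact_mod_cast hp.ne_zero
  have hnd : ∀ n : ℕ, TaU p (n : ℤ) → 0 < n % p := fun n hn =>
    Nat.pos_of_ne_zero fun h0 =>
      lt_irrefl p (hn.2 p hp (by exact_mod_cast Nat.dvd_of_mod_eq_zero h0))
  rcases Int.natAbs_eq x with hxa | hxa
  · have hU : TaU p (x.natAbs : ℤ) := by rw [← hxa]; exact hx
    refine ⟨x.natAbs % p, hnd _ hU, Nat.mod_lt _ hp.pos, ?_, ?_⟩
    · rw [ZMod.natCast_mod]
      rw [hxa]
      simp
    · have h1 := ta_nat h hp _ hU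
      rw [← hxa] at h1
      exact h1
  · have hU : TaU p (x.natAbs : ℤ) := by
      have h3 : ((x.natAbs : ℤ)) = -1 * x := by rw [hxa]; simp
      rw [h3]
      exact taU_mul (taU_unit (Or.inr rfl)) hx
    have hp1 : 0 < p - 1 := Nat.sub_pos_of_lt hp.one_lt
    have hp2 : p - 1 < p := Nat.sub_lt hp.pos one_pos
    have hpc : ((p - 1 : ℕ) : ℤ) = p - 1 := by
      rw [Nat.cast_sub hp.one_le, Nat.cast_one]
    have hp10 : ((p - 1 : ℕ) : ℤ) ≠ 0 := by exact_mod_cast hp1.ne'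
    have hm1 : s (-1) p = s ((p - 1 : ℕ) : ℤ) p := by
      have e := h.st ((p - 1 : ℕ) : ℤ) 1 p hp10 one_ne_zero hp0 (by rw [hpc]; ring)
      rw [h.one_r hp10, h.one_r hp0, zero_add, add_zero, h.diag hp0, h.symm hp0 (by decide)] at e
      exact (ta_eq e).symm
    have ham : (((x.natAbs % p : ℕ)) : ℤ) ≠ 0 := by exact_mod_cast (hnd _ hU).ne'
    have h1 := ta_nat h hp _ hU
    have h2 := ta_red h hp hp1 hp2 (hnd _ hU) (Nat.mod_lt _ hp.pos)
    refine ⟨(p - 1) * (x.natAbs % p) % p, ?_, Nat.mod_lt _ hp.pos, ?_, ?_⟩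
    · apply Nat.pos_of_ne_zero
      intro h0
      rcases (Nat.Prime.dvd_mul hp).mp (Nat.dvd_of_mod_eq_zero h0) with h3 | h3
      · exact absurd (Nat.le_of_dvd hp1 h3) (not_le.mpr hp2)
      · exact absurd (Nat.le_of_dvd (hnd _ hU) h3) (not_le.mpr (Nat.mod_lt _ hp.pos))
    · rw [ZMod.natCast_mod, Nat.cast_mul, ZMod.natCast_mod, Nat.cast_sub hp.one_le,
        ZMod.natCast_self, hxa]
      simp
    · have h3 : s x p = s (-1) p + s (x.natAbs : ℤ) p := by
        rw [← h.l (-1) _ p (by decide) hU.1 hp0]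
        congr 1
        rw [hxa]
        simp
      rw [Nat.cast_mul, h.l _ _ p hp10 ham hp0] at h2
      rw [h3, hm1]
      have h4 : s ((p - 1 : ℕ) : ℤ) p + s (x.natAbs : ℤ) p +
          (s ((p - 1 : ℕ) : ℤ) p + s ((x.natAbs % p : ℕ) : ℤ) p) ∈ taA s p := by
        have h5 : s ((p - 1 : ℕ) : ℤ) p + s (x.natAbs : ℤ) p +
          (s ((p - 1 : ℕ) : ℤ) p + s ((x.natAbs % p : ℕ) : ℤ) p) =
          (s (x.natAbs : ℤ) p + s ((x.natAbs % p : ℕ) : ℤ) p) +
          (s ((p - 1 : ℕ) : ℤ) p + s ((p - 1 : ℕ) : ℤ) p) := by abel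
        rw [h5, ta_dbl, add_zero]
        exact h1
      exact ta_mem_of h4 h2

/-- squares die -/
theorem ta_sq (h : TaSym s) {p : ℕ} (hp : p.Prime) {x : ℤ} (hx : TaU p x)
    (hsq : IsSquare (x : ZMod p)) : s x p ∈ taA s p := by
  have : Fact p.Prime := ⟨hp⟩
  have hp0 : (p : ℤ) ≠ 0 := by exact_mod_cast hp.ne_zero
  obtain ⟨u, hu, hup, hxu, hm⟩ := ta_int h hp hx
  obtain ⟨y, hy⟩ := hsq
  have hy0 : y ≠ 0 := by
    rintro rfl
    rw [mul_zero, hxu] at hy
    have h1 : p ∣ u := (ZMod.natCast_eq_zero_iff u p).mp hy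
    exact absurd (Nat.le_of_dvd hu h1) (not_le.mpr hup)
  have hv0 : 0 < y.val := Nat.pos_of_ne_zero fun h0 => hy0 ((ZMod.val_eq_zero y).mp h0)
  have hvp : y.val < p := ZMod.val_lt y
  have huv : y.val * y.val % p = u := by
    have h1 : ((y.val * y.val : ℕ) : ZMod p) = (u : ZMod p) := by
      rw [Nat.cast_mul, ZMod.natCast_zmod_val, ← hy, hxu]
    have h2 := (ZMod.natCast_eq_natCast_iff' _ _ _).mp h1
    rw [h2, Nat.mod_eq_of_lt hup]
  have h3 := ta_red h hp hv0 hvp hv0 hvp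
  rw [huv, Nat.cast_mul, h.l _ _ p (by exact_mod_cast hv0.ne') (by exact_mod_cast hv0.ne') hp0,
    ta_dbl, zero_add] at h3
  have h4 := ta_mem_of (z := (0 : M)) hm (by rw [add_zero]; exact h3)
  rw [add_zero] at h4
  exact h4

end basic

end Pool.Agent.H98.MK
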