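import Pool.Agent.H98.MK.Tate2

/-!
# Project MK: tame symbols on the integers, and descent
-/

set_option autoImplicit false

open scoped BigOperators

namespace Pool.Agent.H98.MK

/-! ### signs and characters -/

theorem ta_lg_mul {x y : ℤ} (hx : x = 1 ∨ x = -1) (hy : y = 1 ∨ y = -1) :
    lg (x * y) = lg x + lg y := by
  rcases hx with rfl | rfl <;> rcases hy with rfl | rfl <;> decide

/-- the quadratic character, additively -/
def tch (p : ℕ) (x : ℤ) : ZMod 2 := lg (jacobiSym x p)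

theorem ta_jac {p : ℕ} (hp : p.Prime) {x : ℤ} (hx : ¬ (p : ℤ) ∣ x) :
    jacobiSym x p = 1 ∨ jacobiSym x p = -1 := by
  apply jacobiSym.eq_one_or_neg_one
  exact Int.isCoprime_iff_gcd_eq_one.mp
    ((Nat.prime_iff_prime_int.mp hp).coprime_iff_not_dvd.mpr hx).symm

theorem tch_mul {p : ℕ} (hp : p.Prime) {x y : ℤ} (hx : ¬ (p : ℤ) ∣ x) (hy : ¬ (p : ℤ) ∣ y) :
    tch p (x * y) = tch p x + tch p y := by
  rw [tch, jacobiSym.mul_left, ta_lg_mul (ta_jac hp hx) (ta_jac hp hy)]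
  rfl

theorem tch_congr {p : ℕ} {x y : ℤ} (h : (p : ℤ) ∣ x - y) : tch p x = tch p y := by
  rw [tch, tch, jacobiSym.mod_left x, jacobiSym.mod_left y]
  have h2 : y ≡ x [ZMOD p] := Int.modEq_iff_dvd.mpr h
  have h3 : y % p = x % p := h2
  rw [h3]

theorem ta_rep {p : ℕ} (hp : p.Prime) {a : ℤ} (ha : a ≠ 0) :
    ∃ (k : ℕ) (x : ℤ), a = p ^ k * x ∧ ¬ (p : ℤ) ∣ x := by
  have hf : FiniteMultiplicity (p : ℤ) a := by
    rw [Int.finiteMultiplicity_iff]
    refine ⟨?_, ha⟩
    rw [Int.natAbs_natCast]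
    exact hp.ne_one
  obtain ⟨x, hx, hx2⟩ := hf.exists_eq_pow_mul_and_not_dvd
  exact ⟨_, x, hx, hx2⟩

/-- valuation modulo two -/
def tv (p : ℕ) (a : ℤ) : ℕ := padicValInt p a

/-- character of the prime-to-`p` part -/
def tc (p : ℕ) (a : ℤ) : ZMod 2 := tch p (a / p ^ tv p a)

theorem tv_eq {p : ℕ} (hp : p.Prime) {k : ℕ} {x : ℤ} (hx : ¬ (p : ℤ) ∣ x) :
    tv p (p ^ k * x) = k := by
  have : Fact p.Prime := ⟨hp⟩
  have hx0 : x ≠ 0 := by rintro rfl; exact hx (dvd_zero _)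
  have hp0 : (p : ℤ) ≠ 0 := by exact_mod_cast hp.ne_zero
  have h1 : padicValInt p ((p : ℤ) ^ k) = k := by
    have h2 : ((p : ℤ) ^ k) = ((p ^ k : ℕ) : ℤ) := by push_cast; rfl
    rw [h2, padicValInt.of_nat, padicValNat.prime_pow]
  rw [tv, padicValInt.mul (pow_ne_zero _ hp0) hx0, h1, padicValInt.eq_zero_of_not_dvd hx, add_zero]

theorem tc_eq {p : ℕ} (hp : p.Prime) {k : ℕ} {x : ℤ} (hx : ¬ (p : ℤ) ∣ x) :
    tc p (p ^ k * x) = tch p x := by
  have hp0 : (p : ℤ) ≠ 0 := by exact_mod_cast hp.ne_zero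
  rw [tc, tv_eq hp hx, Int.mul_ediv_cancel_left _ (pow_ne_zero _ hp0)]

theorem tv_mul {p : ℕ} (hp : p.Prime) {a b : ℤ} (ha : a ≠ 0) (hb : b ≠ 0) :
    tv p (a * b) = tv p a + tv p b := by
  have : Fact p.Prime := ⟨hp⟩
  exact padicValInt.mul ha hb

theorem tc_mul {p : ℕ} (hp : p.Prime) {a b : ℤ} (ha : a ≠ 0) (hb : b ≠ 0) :
    tc p (a * b) = tc p a + tc p b := by
  obtain ⟨k, x, rfl, hx⟩ := ta_rep hp ha
  obtain ⟨l, y, rfl, hy⟩ := ta_rep hp hb
  have hxy : ¬ (p : ℤ) ∣ x * y := fun h =>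
    ((Nat.prime_iff_prime_int.mp hp).dvd_or_dvd h).elim hx hy
  have h1 : (p : ℤ) ^ k * x * (p ^ l * y) = p ^ (k + l) * (x * y) := by ring
  rw [h1, tc_eq hp hxy, tc_eq hp hx, tc_eq hp hy, tch_mul hp hx hy]

/-- the tame symbol -/
def tam (p : ℕ) (a b : ℤ) : ZMod 2 :=
  tv p a * tv p b * tch p (-1) + tv p b * tc p a + tv p a * tc p b

/-- the sign -/
def tsg (a : ℤ) : ZMod 2 := if a < 0 then 1 else 0

theorem tsg_mul {a b : ℤ} (ha : a ≠ 0) (hb : b ≠ 0) : tsg (a * b) = tsg a + tsg b := by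
  rcases lt_or_gt_of_ne ha with h1 | h1 <;> rcases lt_or_gt_of_ne hb with h2 | h2
  · rw [tsg, tsg, tsg, if_neg (not_lt.mpr (mul_pos_of_neg_of_neg h1 h2).le), if_pos h1, if_pos h2]
    decide
  · rw [tsg, tsg, tsg, if_pos (mul_neg_of_neg_of_pos h1 h2), if_pos h1, if_neg (not_lt.mpr h2.le)]
    decide
  · rw [tsg, tsg, tsg, if_pos (mul_neg_of_pos_of_neg h1 h2), if_neg (not_lt.mpr h1.le), if_pos h2]
    decide
  · rw [tsg, tsg, tsg, if_neg (not_lt.mpr (mul_pos h1 h2).le), if_neg (not_lt.mpr h1.le),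
      if_neg (not_lt.mpr h2.le)]
    decide

/-- the real symbol -/
def tinf (a b : ℤ) : ZMod 2 := tsg a * tsg b

theorem zmod2_dbl (x : ZMod 2) : x + x = 0 := by revert x; decide

theorem zmod2_sq (x : ZMod 2) : x * x = x := by revert x; decide

theorem zmod2_key (α β γ ε x y z : ZMod 2)
    (h : (α = γ ∧ z = x) ∨ (β = γ ∧ z = y) ∨ (α = β ∧ β = γ) ∨ (α = β ∧ x = ε + y)) :
    (α * β * ε + β * x + α * y) + (α * γ * ε + γ * x + α * z) + (γ * β * ε + β * z + γ * y) +
      (γ * γ * ε + γ * z + γ * z) = 0 := by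
  revert α β γ ε x y z
  decide

theorem tam_sym {p : ℕ} (hp : p.Prime) : TaSym (tam p) := by
  have hpi := Nat.prime_iff_prime_int.mp hp
  refine ⟨fun a b c ha hb hc => ?_, fun a b c ha hb hc => ?_, fun a b c ha hb hc habc => ?_⟩
  · rw [tam, tam, tam, tv_mul hp ha hb, tc_mul hp ha hb]
    push_cast
    ring
  · rw [tam, tam, tam, tv_mul hp hb hc, tc_mul hp hb hc]
    push_cast
    ring
  · have key : ((tv p a : ZMod 2) = tv p c ∧ tc p c = tc p a) ∨
        ((tv p b : ZMod 2) = tv p c ∧ tc p c = tc p b) ∨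
        ((tv p a : ZMod 2) = tv p b ∧ (tv p b : ZMod 2) = tv p c) ∨
        ((tv p a : ZMod 2) = tv p b ∧ tc p a = tch p (-1) + tc p b) := by
      obtain ⟨k, x, rfl, hx⟩ := ta_rep hp ha
      obtain ⟨l, y, rfl, hy⟩ := ta_rep hp hb
      rcases lt_trichotomy k l with hkl | hkl | hkl
      · left
        obtain ⟨m, rfl⟩ := Nat.exists_eq_add_of_lt hkl
        have hd : ¬ (p : ℤ) ∣ x + p ^ (m + 1) * y := by
          intro hd
          apply hx
          have h2 : (p : ℤ) ∣ p ^ (m + 1) * y := Dvd.dvd.mul_right (dvd_pow_self _ (by omega)) _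
          have h3 := dvd_sub hd h2
          simpa using h3
        have hc2 : c = p ^ k * (x + p ^ (m + 1) * y) := by rw [← habc]; ring
        rw [hc2, tv_eq hp hd, tc_eq hp hd, tv_eq hp hx, tc_eq hp hx]
        refine ⟨rfl, tch_congr ?_⟩
        rw [add_sub_cancel_left]
        exact Dvd.dvd.mul_right (dvd_pow_self _ (by omega)) _
      · subst hkl
        by_cases hd : (p : ℤ) ∣ x + y
        · right; right; right
          rw [tv_eq hp hx, tv_eq hp hy, tc_eq hp hx, tc_eq hp hy]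
          have h1 : ¬ (p : ℤ) ∣ -1 := by
            rw [dvd_neg]
            exact hpi.not_dvd_one
          refine ⟨rfl, ?_⟩
          rw [← tch_mul hp h1 hy]
          apply tch_congr
          have h2 : x - -1 * y = x + y := by ring
          rw [h2]
          exact hd
        · right; right; left
          have hc2 : c = p ^ k * (x + y) := by rw [← habc]; ring
          rw [hc2, tv_eq hp hd, tv_eq hp hx, tv_eq hp hy]
          exact ⟨rfl, rfl⟩
      · right; left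
        obtain ⟨m, rfl⟩ := Nat.exists_eq_add_of_lt hkl
        have hd : ¬ (p : ℤ) ∣ y + p ^ (m + 1) * x := by
          intro hd
          apply hy
          have h2 : (p : ℤ) ∣ p ^ (m + 1) * x := Dvd.dvd.mul_right (dvd_pow_self _ (by omega)) _
          have h3 := dvd_sub hd h2
          simpa using h3
        have hc2 : c = p ^ l * (y + p ^ (m + 1) * x) := by rw [← habc]; ring
        rw [hc2, tv_eq hp hd, tc_eq hp hd, tv_eq hp hy, tc_eq hp hy]
        refine ⟨rfl, tch_congr ?_⟩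
        rw [add_sub_cancel_left]
        exact Dvd.dvd.mul_right (dvd_pow_self _ (by omega)) _
    exact zmod2_key _ _ _ _ _ _ _ key

theorem tinf_sym : TaSym tinf := by
  refine ⟨fun a b c ha hb hc => ?_, fun a b c ha hb hc => ?_, fun a b c ha hb hc habc => ?_⟩
  · rw [tinf, tinf, tinf, tsg_mul ha hb]
    ring
  · rw [tinf, tinf, tinf, tsg_mul hb hc]
    ring
  · have h1 : (tsg c = 0 ∧ tsg a * tsg b = 0) ∨ (tsg c = 1 ∧ (tsg a = 1 ∨ tsg b = 1)) := by
      by_cases h2 : c < 0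
      · right
        refine ⟨if_pos h2, ?_⟩
        rcases lt_or_ge a 0 with h3 | h3
        · left; exact if_pos h3
        · right; exact if_pos (by omega)
      · left
        refine ⟨if_neg h2, ?_⟩
        rcases lt_or_ge a 0 with h3 | h3
        · have h4 : tsg b = 0 := if_neg (by omega)
          rw [h4, mul_zero]
        · have h4 : tsg a = 0 := if_neg (by omega)
          rw [h4, zero_mul]
    have h5 : ∀ x y z : ZMod 2, ((z = 0 ∧ x * y = 0) ∨ (z = 1 ∧ (x = 1 ∨ y = 1))) →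
        x * y + x * z + z * y + z * z = 0 := by decide
    exact h5 _ _ _ h1

end Pool.Agent.H98.MK
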