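import Pool.Agent.H98.MK.Tate3

/-!
# Project MK: descent on the largest prime
-/

set_option autoImplicit false

open scoped BigOperators

namespace Pool.Agent.H98.MK

variable {M : Type} [AddCommGroup M] [Module (ZMod 2) M] {s : ℤ → ℤ → M}

/-- two cosets -/
theorem ta_cosets (P : Submodule (ZMod 2) M) (m : M) {G : Set M}
    (hG : ∀ g ∈ G, g ∈ P ∨ g + m ∈ P) {z : M} (hz : z ∈ Submodule.span (ZMod 2) G) :
    z ∈ P ∨ z + m ∈ P := by
  induction hz using Submodule.span_induction with
  | mem x h => exact hG x h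
  | zero => exact Or.inl (zero_mem _)
  | add x y _ _ hx hy =>
    rcases hx with hx | hx <;> rcases hy with hy | hy
    · exact Or.inl (add_mem hx hy)
    · right
      rw [add_assoc]
      exact add_mem hx hy
    · right
      rw [add_right_comm]
      exact add_mem hx hy
    · left
      have h1 := add_mem hx hy
      have h2 : x + m + (y + m) = x + y + (m + m) := by abel
      rw [h2, ta_dbl, add_zero] at h1
      exact h1
  | smul a x _ hx =>
    have ha : a = 0 ∨ a = 1 := by revert a; decide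
    rcases ha with rfl | rfl
    · left
      rw [zero_smul]
      exact zero_mem _
    · rw [one_smul]
      exact hx

/-- symbols of smooth integers lie in two cosets as soon as those of the generators do -/
theorem ta_two (h : TaSym s) (P : Submodule (ZMod 2) M) (m : M) {N : ℕ}
    (C : ℤ → Prop) (hC : ∀ x y : ℤ, C x → C y → s x y ∈ P ∨ s x y + m ∈ P)
    (h1 : C 1) (hm1 : C (-1)) (hq : ∀ q : ℕ, q.Prime → q < N → C q) {z : M}
    (hz : z ∈ taA s N) : z ∈ P ∨ z + m ∈ P := by
  have hadd : ∀ x y : M, (x ∈ P ∨ x + m ∈ P) → (y ∈ P ∨ y + m ∈ P) →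
      (x + y ∈ P ∨ x + y + m ∈ P) := by
    rintro x y (hx | hx) (hy | hy)
    · exact Or.inl (add_mem hx hy)
    · right
      rw [add_assoc]
      exact add_mem hx hy
    · right
      rw [add_right_comm]
      exact add_mem hx hy
    · left
      have h1 := add_mem hx hy
      have h2 : x + m + (y + m) = x + y + (m + m) := by abel
      rw [h2, ta_dbl, add_zero] at h1
      exact h1
  have hx : ∀ y : ℤ, y ≠ 0 → C y → ∀ x : ℤ, TaU N x → (s x y ∈ P ∨ s x y + m ∈ P) := by
    intro y hy0 hy x hx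
    refine taU_ind (fun x => s x y ∈ P ∨ s x y + m ∈ P) (hC _ _ h1 hy) (hC _ _ hm1 hy)
      (fun q hqp hqN => hC _ _ (hq q hqp hqN) hy) (fun a b ha hb h3 h4 => ?_) hx
    show s (a * b) y ∈ P ∨ s (a * b) y + m ∈ P
    rw [h.l a b y ha hb hy0]
    exact hadd _ _ h3 h4
  have hxy : ∀ x : ℤ, TaU N x → ∀ y : ℤ, TaU N y → (s x y ∈ P ∨ s x y + m ∈ P) := by
    intro x hxx y hy
    refine taU_ind (fun y => s x y ∈ P ∨ s x y + m ∈ P) (hx 1 one_ne_zero h1 x hxx)
      (hx (-1) (by decide) hm1 x hxx)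
      (fun q hqp hqN => hx q (by exact_mod_cast hqp.ne_zero) (hq q hqp hqN) x hxx)
      (fun a b ha hb h3 h4 => ?_) hy
    show s x (a * b) ∈ P ∨ s x (a * b) + m ∈ P
    rw [h.r x a b hxx.1 ha hb]
    exact hadd _ _ h3 h4
  apply ta_cosets P m (G := {g | ∃ x y, TaU N x ∧ TaU N y ∧ g = s x y}) ?_ hz
  rintro g ⟨x, y, hx2, hy2, rfl⟩
  exact hxy x hx2 y hy2

/-- the primes up to two -/
theorem ta_base (h : TaSym s) {z : M} (hz : z ∈ taA s 3) : z = 0 ∨ z = s (-1) (-1) := by
  have hm2 : s (-1) 2 = 0 := by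
    have e := h.st (-1) 2 1 (by decide) (by decide) one_ne_zero (by norm_num)
    rw [h.one_r (by decide), h.one_l (by decide), h.one_l one_ne_zero, add_zero, add_zero,
      add_zero] at e
    exact e
  have h2m : s 2 (-1) = 0 := by rw [h.symm (by decide) (by decide)]; exact hm2
  have h22 : s 2 2 = 0 := by rw [h.diag (by decide)]; exact h2m
  have key := ta_two h (⊥ : Submodule (ZMod 2) M) (s (-1) (-1)) (N := 3)
    (fun x => x = 1 ∨ x = -1 ∨ x = 2) ?_ (Or.inl rfl) (Or.inr (Or.inl rfl)) ?_ hz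
  · rcases key with h1 | h1
    · left
      exact (Submodule.mem_bot _).mp h1
    · right
      exact ta_eq ((Submodule.mem_bot _).mp h1)
  · rintro x y (rfl | rfl | rfl) (rfl | rfl | rfl)
    · left; rw [h.one_l one_ne_zero]; exact zero_mem _
    · left; rw [h.one_l (by decide)]; exact zero_mem _
    · left; rw [h.one_l (by decide)]; exact zero_mem _
    · left; rw [h.one_r (by decide)]; exact zero_mem _
    · right; rw [ta_dbl]; exact zero_mem _
    · left; rw [hm2]; exact zero_mem _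
    · left; rw [h.one_r (by decide)]; exact zero_mem _
    · left; rw [h2m]; exact zero_mem _
    · left; rw [h22]; exact zero_mem _
  · intro q hq hq3
    right; right
    have h2 := hq.two_le
    have h3 : q = 2 := by omega
    rw [h3]
    rfl

/-- one prime -/
theorem ta_step (h : TaSym s) {p : ℕ} (hp : p.Prime) (hp2 : p ≠ 2) (τ : M →ₗ[ZMod 2] ZMod 2)
    (hτ : ∀ x y : ℤ, x ≠ 0 → y ≠ 0 → τ (s x y) = tam p x y) {z : M} (hz : z ∈ taA s (p + 1))
    (hz0 : τ z = 0) : z ∈ taA s p := by
  have : Fact p.Prime := ⟨hp⟩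
  have hp0 : (p : ℤ) ≠ 0 := by exact_mod_cast hp.ne_zero
  have hpi := Nat.prime_iff_prime_int.mp hp
  obtain ⟨n, hn⟩ := FiniteField.exists_nonsquare (F := ZMod p) (by rwa [ZMod.ringChar_zmod_n])
  have hn0 : n ≠ 0 := by
    rintro rfl
    exact hn (IsSquare.zero)
  have hv0 : 0 < n.val := Nat.pos_of_ne_zero fun h0 => hn0 ((ZMod.val_eq_zero n).mp h0)
  have hvp : n.val < p := ZMod.val_lt n
  have hUn : TaU p (n.val : ℤ) := taU_of_lt hv0 hvp
  have hnv : (((n.val : ℕ) : ℤ) : ZMod p) = n := by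
    rw [Int.cast_natCast, ZMod.natCast_zmod_val]
  have hnd : ∀ x : ℤ, TaU p x → ¬ (p : ℤ) ∣ x := fun x hx hd => lt_irrefl p (hx.2 p hp hd)
  -- symbols with one entry equal to `p`
  have hC1 : ∀ x : ℤ, TaU p x → (s x p ∈ taA s p ∨ s x p + s (n.val : ℤ) p ∈ taA s p) := by
    intro x hx
    by_cases hsq : IsSquare (x : ZMod p)
    · exact Or.inl (ta_sq h hp hx hsq)
    · right
      rw [← h.l x _ p hx.1 hUn.1 hp0]
      apply ta_sq h hp (taU_mul hx hUn)
      rw [Int.cast_mul, hnv]
      have hx0 : (x : ZMod p) ≠ 0 := by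
        intro h0
        exact hnd x hx ((ZMod.intCast_zmod_eq_zero_iff_dvd x p).mp h0)
      rw [← quadraticChar_one_iff_isSquare (mul_ne_zero hx0 hn0), map_mul,
        quadraticChar_neg_one_iff_not_isSquare.mpr hsq,
        quadraticChar_neg_one_iff_not_isSquare.mpr hn]
      rfl
  have hC : ∀ x y : ℤ, (TaU p x ∨ x = p) → (TaU p y ∨ y = p) →
      (s x y ∈ taA s p ∨ s x y + s (n.val : ℤ) p ∈ taA s p) := by
    rintro x y (hx | rfl) (hy | rfl)
    · exact Or.inl (taA_mem hx hy)
    · exact hC1 x hx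
    · rw [h.symm hp0 hy.1]
      exact hC1 y hy
    · rw [h.diag hp0, h.symm hp0 (by decide)]
      exact hC1 (-1) (taU_unit (Or.inr rfl))
  have key := ta_two h (taA s p) (s (n.val : ℤ) p) (N := p + 1) (fun x => TaU p x ∨ x = p) hC
    (Or.inl (taU_unit (Or.inl rfl))) (Or.inl (taU_unit (Or.inr rfl))) (fun q hq hqp => by
      rcases Nat.lt_succ_iff_lt_or_eq.mp hqp with h1 | h1
      · exact Or.inl (taU_of_lt hq.pos h1)
      · right; rw [h1]) hz
  rcases key with h1 | h1
  · exact h1
  · exfalso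
    -- the tame symbol vanishes on the smaller part
    have hA : ∀ w ∈ taA s p, τ w = 0 := by
      intro w hw
      have h2 : taA s p ≤ LinearMap.ker τ := by
        apply Submodule.span_le.mpr
        rintro m ⟨x, y, hx, hy, rfl⟩
        show τ (s x y) = 0
        have e1 := tv_eq (k := 0) hp (hnd x hx)
        have e2 := tv_eq (k := 0) hp (hnd y hy)
        rw [pow_zero, one_mul] at e1 e2
        rw [hτ x y hx.1 hy.1, tam, e1, e2]
        simp
      exact h2 hw
    have h2 := hA _ h1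
    rw [map_add, hz0, zero_add, hτ _ _ hUn.1 hp0] at h2
    have e1 := tv_eq (k := 0) hp (hnd _ hUn)
    have e2 := tc_eq (k := 0) hp (hnd _ hUn)
    rw [pow_zero, one_mul] at e1 e2
    have e3 := tv_eq (k := 1) (x := 1) hp hpi.not_dvd_one
    rw [pow_one, mul_one] at e3
    rw [tam, e1, e2, e3] at h2
    have e4 : tch p (n.val : ℤ) = 1 := by
      have e5 : jacobiSym (n.val : ℤ) p = -1 := by
        rw [← jacobiSym.legendreSym.to_jacobiSym]
        rw [legendreSym.eq_neg_one_iff, hnv]
        exact hn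
      rw [tch, e5]
      rfl
    rw [e4] at h2
    simp at h2

/-- Tate: tame symbols and the real symbol detect everything -/
theorem ta_main (h : TaSym s) (τ : ℕ → M →ₗ[ZMod 2] ZMod 2) (τi : M →ₗ[ZMod 2] ZMod 2)
    (hτ : ∀ p : ℕ, p.Prime → p ≠ 2 → ∀ x y : ℤ, x ≠ 0 → y ≠ 0 → τ p (s x y) = tam p x y)
    (hτi : τi (s (-1) (-1)) = 1) (N : ℕ) :
    ∀ z ∈ taA s N, (∀ p : ℕ, p.Prime → p ≠ 2 → τ p z = 0) → τi z = 0 → z = 0 := by
  induction N with
  | zero =>
    intro z hz _ h0
    rcases ta_base h (taA_mono (fun x hx => taU_mono (Nat.zero_le 3) hx) hz) with h1 | h1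
    · exact h1
    · rw [h1, hτi] at h0
      exact absurd h0 one_ne_zero
  | succ N ih =>
    intro z hz hp0 h0
    by_cases hN : N + 1 ≤ 3
    · rcases ta_base h (taA_mono (fun x hx => taU_mono hN hx) hz) with h1 | h1
      · exact h1
      · rw [h1, hτi] at h0
        exact absurd h0 one_ne_zero
    · by_cases hNp : N.Prime
      · exact ih z (ta_step h hNp (by omega) (τ N) (hτ N hNp (by omega)) hz
          (hp0 N hNp (by omega))) hp0 h0
      · refine ih z (taA_mono (fun x hx => ⟨hx.1, fun q hq hd => ?_⟩) hz) hp0 h0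
        rcases Nat.lt_succ_iff_lt_or_eq.mp (hx.2 q hq hd) with h1 | h1
        · exact h1
        · exact absurd (h1 ▸ hq) hNp

end Pool.Agent.H98.MK
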