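import Mathlib

/-!
# Project MK: the number of `k`-tuples of positive integers with product at most `x`
-/

set_option autoImplicit false

open Filter

namespace Pool.Agent.H98.MK

/-- ordered tuples -/
noncomputable def TP (k : ℕ) (x : ℝ) : ℕ :=
  ((Fintype.piFinset (fun _ : Fin k => Finset.Icc 1 ⌊x⌋₊)).filter
    (fun y => ((∏ i, y i : ℕ) : ℝ) ≤ x)).card

/-- the set of the tuples -/
noncomputable def tcS (k : ℕ) (x : ℝ) : Finset (Fin k → ℕ) :=
  (Fintype.piFinset (fun _ : Fin k => Finset.Icc 1 ⌊x⌋₊)).filter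
    (fun y => ((∏ i, y i : ℕ) : ℝ) ≤ x)

theorem tc_mem {k : ℕ} {x : ℝ} {y : Fin k → ℕ} :
    y ∈ tcS k x ↔ (∀ i, 1 ≤ y i) ∧ ((∏ i, y i : ℕ) : ℝ) ≤ x := by
  unfold tcS
  rw [Finset.mem_filter, Fintype.mem_piFinset]
  constructor
  · rintro ⟨h1, h2⟩
    exact ⟨fun i => (Finset.mem_Icc.1 (h1 i)).1, h2⟩
  · rintro ⟨h1, h2⟩
    refine ⟨fun i => Finset.mem_Icc.2 ⟨h1 i, Nat.le_floor ?_⟩, h2⟩
    refine le_trans ?_ h2
    have h3 : 0 < ∏ j, y j := Finset.prod_pos fun j _ => h1 j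
    exact_mod_cast Nat.le_of_dvd h3 (Finset.dvd_prod_of_mem y (Finset.mem_univ i))

theorem tc_rec (k : ℕ) (x : ℝ) :
    TP (k + 1) x = ∑ n ∈ Finset.Icc 1 ⌊x⌋₊, TP k (x / (n : ℝ)) := by
  have h1 : ∑ n ∈ Finset.Icc 1 ⌊x⌋₊, TP k (x / (n : ℝ)) =
      ((Finset.Icc 1 ⌊x⌋₊).sigma (fun n => tcS k (x / (n : ℝ)))).card := by
    rw [Finset.card_sigma]
    rfl
  rw [h1]
  have h2 : TP (k + 1) x = (tcS (k + 1) x).card := rfl
  rw [h2]
  refine Finset.card_nbij' (fun y => ⟨y 0, fun i => y i.succ⟩)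
    (fun p => (Fin.cons p.1 p.2 : Fin (k + 1) → ℕ)) ?_ ?_ ?_ ?_
  · intro y hy
    obtain ⟨h3, h4⟩ := tc_mem.1 (Finset.mem_coe.1 hy)
    have h5 : (0 : ℝ) < (y 0 : ℝ) := by exact_mod_cast h3 0
    rw [Fin.prod_univ_succ] at h4
    push_cast at h4
    have h6 : 0 < ∏ i : Fin k, y i.succ := Finset.prod_pos fun j _ => h3 j.succ
    have h7 : (1 : ℝ) ≤ ∏ i : Fin k, (y i.succ : ℝ) := by
      exact_mod_cast Nat.succ_le_of_lt h6
    refine Finset.mem_coe.2 (Finset.mem_sigma.2 ⟨Finset.mem_Icc.2 ⟨h3 0, Nat.le_floor ?_⟩,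
      tc_mem.2 ⟨fun i => h3 i.succ, ?_⟩⟩)
    · calc ((y 0 : ℕ) : ℝ) = (y 0 : ℝ) * 1 := by ring
        _ ≤ (y 0 : ℝ) * ∏ i : Fin k, (y i.succ : ℝ) := by gcongr
        _ ≤ x := h4
    · show ((∏ i : Fin k, y i.succ : ℕ) : ℝ) ≤ x / ((y 0 : ℕ) : ℝ)
      rw [le_div_iff₀ h5]
      push_cast
      linarith
  · intro p hp
    obtain ⟨h3, h4⟩ := Finset.mem_sigma.1 (Finset.mem_coe.1 hp)
    obtain ⟨h5, h6⟩ := tc_mem.1 h4
    have h7 : 1 ≤ p.1 := (Finset.mem_Icc.1 h3).1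
    have h8 : (0 : ℝ) < (p.1 : ℝ) := by exact_mod_cast h7
    refine Finset.mem_coe.2 (tc_mem.2 ⟨?_, ?_⟩)
    · intro i
      refine Fin.cases ?_ ?_ i
      · simpa using h7
      · intro j
        simpa using h5 j
    · rw [Fin.prod_univ_succ]
      simp only [Fin.cons_zero, Fin.cons_succ]
      rw [le_div_iff₀ h8] at h6
      push_cast at h6 ⊢
      linarith
  · intro y _
    funext i
    refine Fin.cases ?_ ?_ i
    · rfl
    · intro j
      rfl
  · intro p _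
    rfl

theorem tc_one {x : ℝ} (hx : 0 ≤ x) : TP 1 x = ⌊x⌋₊ := by
  rw [tc_rec 0 x]
  have h1 : ∀ n ∈ Finset.Icc 1 ⌊x⌋₊, TP 0 (x / (n : ℝ)) = 1 := by
    intro n hn
    obtain ⟨h2, h3⟩ := Finset.mem_Icc.1 hn
    have h4 : (0 : ℝ) < (n : ℝ) := by exact_mod_cast h2
    have h5 : (n : ℝ) ≤ x := (Nat.le_floor_iff hx).1 h3
    have h6 : tcS 0 (x / (n : ℝ)) = Finset.univ := by
      refine Finset.eq_univ_iff_forall.2 fun y => tc_mem.2 ⟨fun i => i.elim0, ?_⟩
      simp only [Finset.univ_eq_empty, Finset.prod_empty, Nat.cast_one]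
      rw [le_div_iff₀ h4]
      linarith
    show (tcS 0 (x / (n : ℝ))).card = 1
    rw [h6]
    simp
  rw [Finset.sum_congr rfl h1]
  simp

theorem tc_harm {x : ℝ} (hx : 1 ≤ x) :
    ∑ n ∈ Finset.Icc 1 ⌊x⌋₊, (1 : ℝ) / (n : ℝ) ≤ 1 + Real.log x := by
  have h1 := harmonic_floor_le_one_add_log x hx
  rw [harmonic_eq_sum_Icc] at h1
  push_cast at h1
  simpa only [one_div] using h1

theorem tc_n {x : ℝ} (hx : 1 ≤ x) {n : ℕ} (hn : n ∈ Finset.Icc 1 ⌊x⌋₊) :
    (1 : ℝ) ≤ n ∧ (n : ℝ) ≤ x ∧ 1 ≤ x / n ∧ 0 ≤ Real.log (x / n) ∧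
      Real.log (x / n) ≤ Real.log x := by
  obtain ⟨h2, h3⟩ := Finset.mem_Icc.1 hn
  have h4 : (1 : ℝ) ≤ n := by exact_mod_cast h2
  have h5 : (n : ℝ) ≤ x := (Nat.le_floor_iff (by linarith)).1 h3
  have h6 : 1 ≤ x / n := by
    rw [le_div_iff₀ (by linarith)]
    linarith
  refine ⟨h4, h5, h6, Real.log_nonneg h6, Real.log_le_log (by linarith) ?_⟩
  exact div_le_self (by linarith) h4

theorem TP_le (k : ℕ) (x : ℝ) (hx : 1 ≤ x) : (TP (k + 1) x : ℝ) ≤ x * (1 + Real.log x) ^ k := by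
  induction k generalizing x with
  | zero =>
    rw [tc_one (by linarith)]
    simpa using Nat.floor_le (show (0 : ℝ) ≤ x by linarith)
  | succ k ih =>
    have hl : 0 ≤ Real.log x := Real.log_nonneg hx
    rw [tc_rec]
    push_cast
    calc ∑ n ∈ Finset.Icc 1 ⌊x⌋₊, (TP (k + 1) (x / (n : ℝ)) : ℝ)
        ≤ ∑ n ∈ Finset.Icc 1 ⌊x⌋₊, (x * (1 + Real.log x) ^ k) * (1 / (n : ℝ)) := by
          refine Finset.sum_le_sum fun n hn => ?_
          obtain ⟨h1, h2, h3, h4, h5⟩ := tc_n hx hn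
          calc (TP (k + 1) (x / (n : ℝ)) : ℝ) ≤ x / n * (1 + Real.log (x / n)) ^ k := ih _ h3
            _ ≤ x / n * (1 + Real.log x) ^ k := by gcongr
            _ = (x * (1 + Real.log x) ^ k) * (1 / (n : ℝ)) := by ring
      _ = (x * (1 + Real.log x) ^ k) * ∑ n ∈ Finset.Icc 1 ⌊x⌋₊, (1 : ℝ) / (n : ℝ) := by
          rw [Finset.mul_sum]
      _ ≤ (x * (1 + Real.log x) ^ k) * (1 + Real.log x) := by
          have := tc_harm hx
          gcongr
      _ = x * (1 + Real.log x) ^ (k + 1) := by ring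

theorem tc_pow (k : ℕ) {a b : ℝ} (hb : 0 ≤ b) (hab : b ≤ a) :
    (k + 1 : ℝ) * b ^ k * (a - b) ≤ a ^ (k + 1) - b ^ (k + 1) ∧
      a ^ (k + 1) - b ^ (k + 1) ≤ (k + 1 : ℝ) * a ^ k * (a - b) := by
  induction k with
  | zero => constructor <;> simp
  | succ k ih =>
    have h0 : 0 ≤ a - b := by linarith
    have ha : 0 ≤ a := hb.trans hab
    have h1 : b ^ (k + 1) * (a - b) ≤ a ^ (k + 1) * (a - b) := by gcongr
    have h2 := mul_le_mul_of_nonneg_left ih.1 hb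
    have h3 := mul_le_mul_of_nonneg_left ih.2 ha
    push_cast
    constructor
    · have e1 : a ^ (k + 1 + 1) - b ^ (k + 1 + 1) =
          b * (a ^ (k + 1) - b ^ (k + 1)) + a ^ (k + 1) * (a - b) := by ring
      have e2 : ((k : ℝ) + 1 + 1) * b ^ (k + 1) * (a - b) =
          b * (((k : ℝ) + 1) * b ^ k * (a - b)) + b ^ (k + 1) * (a - b) := by ring
      rw [e1, e2]
      linarith
    · have e1 : a ^ (k + 1 + 1) - b ^ (k + 1 + 1) =
          a * (a ^ (k + 1) - b ^ (k + 1)) + b ^ (k + 1) * (a - b) := by ring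
      have e2 : ((k : ℝ) + 1 + 1) * a ^ (k + 1) * (a - b) =
          a * (((k : ℝ) + 1) * a ^ k * (a - b)) + a ^ (k + 1) * (a - b) := by ring
      rw [e1, e2]
      linarith

/-- one step of the comparison of the sum with the integral -/
theorem tc_step (k : ℕ) {x : ℝ} {M : ℕ} (hM : 1 ≤ M) (hx : ((M + 1 : ℕ) : ℝ) ≤ x) :
    Real.log (x / ((M + 1 : ℕ) : ℝ)) ^ k / ((M + 1 : ℕ) : ℝ) ≤
        (Real.log (x / (M : ℝ)) ^ (k + 1) - Real.log (x / ((M + 1 : ℕ) : ℝ)) ^ (k + 1)) /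
          (k + 1 : ℝ) ∧
      (Real.log (x / (M : ℝ)) ^ (k + 1) - Real.log (x / ((M + 1 : ℕ) : ℝ)) ^ (k + 1)) /
          (k + 1 : ℝ) ≤ Real.log (x / (M : ℝ)) ^ k / (M : ℝ) := by
  have hM0 : (1 : ℝ) ≤ M := by exact_mod_cast hM
  have hM1 : ((M + 1 : ℕ) : ℝ) = (M : ℝ) + 1 := by push_cast; rfl
  rw [hM1] at hx ⊢
  have hx0 : 0 < x := by linarith
  have e1 : Real.log (x / (M : ℝ)) = Real.log x - Real.log M :=
    Real.log_div hx0.ne' (by linarith)
  have e2 : Real.log (x / ((M : ℝ) + 1)) = Real.log x - Real.log ((M : ℝ) + 1) :=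
    Real.log_div hx0.ne' (by linarith)
  have hb : 0 ≤ Real.log (x / ((M : ℝ) + 1)) := by
    refine Real.log_nonneg ?_
    rw [le_div_iff₀ (by linarith)]
    linarith
  have hd1 : Real.log ((M : ℝ) + 1) - Real.log M ≤ 1 / (M : ℝ) := by
    rw [← Real.log_div (by linarith) (by linarith)]
    have h1 := Real.log_le_sub_one_of_pos (show 0 < ((M : ℝ) + 1) / M by positivity)
    have h2 : ((M : ℝ) + 1) / M - 1 = 1 / (M : ℝ) := by
      field_simp
      ring
    linarith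
  have hd2 : 1 / ((M : ℝ) + 1) ≤ Real.log ((M : ℝ) + 1) - Real.log M := by
    have h1 := Real.log_le_sub_one_of_pos (show 0 < (M : ℝ) / ((M : ℝ) + 1) by positivity)
    rw [Real.log_div (by linarith) (by linarith)] at h1
    have h2 : (M : ℝ) / ((M : ℝ) + 1) - 1 = -(1 / ((M : ℝ) + 1)) := by
      field_simp
      ring
    linarith
  have hd3 : 0 < 1 / ((M : ℝ) + 1) := by positivity
  have hab : Real.log (x / ((M : ℝ) + 1)) ≤ Real.log (x / (M : ℝ)) := by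
    rw [e1, e2]
    linarith
  have hk : (0 : ℝ) < (k : ℝ) + 1 := by positivity
  obtain ⟨h1, h2⟩ := tc_pow k hb hab
  have hdiff : Real.log (x / (M : ℝ)) - Real.log (x / ((M : ℝ) + 1)) =
      Real.log ((M : ℝ) + 1) - Real.log M := by
    rw [e1, e2]
    ring
  have ha : 0 ≤ Real.log (x / (M : ℝ)) := hb.trans hab
  constructor
  · rw [le_div_iff₀ hk]
    refine le_trans ?_ h1
    rw [hdiff]
    calc Real.log (x / ((M : ℝ) + 1)) ^ k / ((M : ℝ) + 1) * ((k : ℝ) + 1)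
        = ((k : ℝ) + 1) * Real.log (x / ((M : ℝ) + 1)) ^ k * (1 / ((M : ℝ) + 1)) := by ring
      _ ≤ ((k : ℝ) + 1) * Real.log (x / ((M : ℝ) + 1)) ^ k *
          (Real.log ((M : ℝ) + 1) - Real.log M) := by gcongr
  · rw [div_le_iff₀ hk]
    refine le_trans h2 ?_
    rw [hdiff]
    calc ((k : ℝ) + 1) * Real.log (x / (M : ℝ)) ^ k * (Real.log ((M : ℝ) + 1) - Real.log M)
        ≤ ((k : ℝ) + 1) * Real.log (x / (M : ℝ)) ^ k * (1 / (M : ℝ)) := by gcongr
      _ = Real.log (x / (M : ℝ)) ^ k / (M : ℝ) * ((k : ℝ) + 1) := by ring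

/-- comparison of partial sums with the integral -/
theorem tc_part (k : ℕ) (x : ℝ) (M : ℕ) (hM : 1 ≤ M) (hx : (M : ℝ) ≤ x) :
    Real.log (x / (M : ℝ)) ^ k / (M : ℝ) +
        (Real.log x ^ (k + 1) - Real.log (x / (M : ℝ)) ^ (k + 1)) / (k + 1 : ℝ) ≤
      ∑ n ∈ Finset.Icc 1 M, Real.log (x / (n : ℝ)) ^ k / (n : ℝ) ∧
    ∑ n ∈ Finset.Icc 1 M, Real.log (x / (n : ℝ)) ^ k / (n : ℝ) ≤
      Real.log x ^ k +
        (Real.log x ^ (k + 1) - Real.log (x / (M : ℝ)) ^ (k + 1)) / (k + 1 : ℝ) := by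
  induction M, hM using Nat.le_induction with
  | base => constructor <;> simp
  | succ M hM ih =>
    have hx' : (M : ℝ) ≤ x := by
      refine le_trans ?_ hx
      push_cast
      linarith
    obtain ⟨h1, h2⟩ := ih hx'
    obtain ⟨h3, h4⟩ := tc_step k hM hx
    rw [Finset.sum_Icc_succ_top (by omega)]
    rw [sub_div] at h1 h2 h3 h4 ⊢
    constructor <;> linarith

theorem tc_sum (k : ℕ) {x : ℝ} (hx : 1 ≤ x) :
    |∑ n ∈ Finset.Icc 1 ⌊x⌋₊, Real.log (x / (n : ℝ)) ^ k / (n : ℝ) -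
      Real.log x ^ (k + 1) / (k + 1 : ℝ)| ≤ 2 * (1 + Real.log x) ^ k := by
  have hN : 1 ≤ ⌊x⌋₊ := Nat.le_floor (by simpa using hx)
  have hN1 : (⌊x⌋₊ : ℝ) ≤ x := Nat.floor_le (by linarith)
  have hN2 : (1 : ℝ) ≤ (⌊x⌋₊ : ℝ) := by exact_mod_cast hN
  have hN3 : x < (⌊x⌋₊ : ℝ) + 1 := Nat.lt_floor_add_one x
  obtain ⟨h1, h2⟩ := tc_part k x ⌊x⌋₊ hN hN1
  have hl : 0 ≤ Real.log x := Real.log_nonneg hx
  have h3 : 0 ≤ Real.log (x / (⌊x⌋₊ : ℝ)) := by
    refine Real.log_nonneg ?_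
    rw [le_div_iff₀ (by linarith)]
    linarith
  have h4 : Real.log (x / (⌊x⌋₊ : ℝ)) ≤ 1 := by
    have h5 := Real.log_le_sub_one_of_pos (show 0 < x / (⌊x⌋₊ : ℝ) by positivity)
    have h6 : x / (⌊x⌋₊ : ℝ) ≤ 2 := by
      rw [div_le_iff₀ (by linarith)]
      linarith
    linarith
  have hk : (1 : ℝ) ≤ (k : ℝ) + 1 := by
    have : (0 : ℝ) ≤ (k : ℝ) := by positivity
    linarith
  have h5 : Real.log (x / (⌊x⌋₊ : ℝ)) ^ (k + 1) / (k + 1 : ℝ) ≤ 1 := by
    rw [div_le_one (by linarith)]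
    exact (pow_le_one₀ h3 h4).trans hk
  have h6 : 0 ≤ Real.log (x / (⌊x⌋₊ : ℝ)) ^ (k + 1) / (k + 1 : ℝ) := by positivity
  have h7 : 0 ≤ Real.log (x / (⌊x⌋₊ : ℝ)) ^ k / (⌊x⌋₊ : ℝ) := by positivity
  have h8 : Real.log x ^ k ≤ (1 + Real.log x) ^ k := by
    gcongr
    linarith
  have h9 : (1 : ℝ) ≤ (1 + Real.log x) ^ k := one_le_pow₀ (by linarith)
  rw [sub_div] at h1 h2
  rw [abs_le]
  constructor <;> linarith

theorem tc_main (k : ℕ) : ∃ C : ℝ, 0 ≤ C ∧ ∀ x : ℝ, 1 ≤ x →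
    |(TP (k + 2) x : ℝ) - x * Real.log x ^ (k + 1) / ((k + 1).factorial : ℝ)| ≤
      C * (x * (1 + Real.log x) ^ k) := by
  have key : ∀ (k : ℕ) (E : ℝ → ℝ) (x : ℝ), 1 ≤ x →
      (∀ y : ℝ, 1 ≤ y → |(TP (k + 1) y : ℝ) - y * Real.log y ^ k / (k.factorial : ℝ)| ≤ E y) →
      |(TP (k + 2) x : ℝ) - x * Real.log x ^ (k + 1) / ((k + 1).factorial : ℝ)| ≤
        ∑ n ∈ Finset.Icc 1 ⌊x⌋₊, E (x / n) + 2 * (x * (1 + Real.log x) ^ k) := by
    intro k E x hx hE
    have hf : (1 : ℝ) ≤ (k.factorial : ℝ) := by exact_mod_cast k.factorial_pos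
    have e1 : (TP (k + 2) x : ℝ) - x * Real.log x ^ (k + 1) / ((k + 1).factorial : ℝ) =
        ∑ n ∈ Finset.Icc 1 ⌊x⌋₊, ((TP (k + 1) (x / n) : ℝ) -
          x / n * Real.log (x / n) ^ k / (k.factorial : ℝ)) +
        x / (k.factorial : ℝ) * (∑ n ∈ Finset.Icc 1 ⌊x⌋₊, Real.log (x / (n : ℝ)) ^ k / (n : ℝ) -
          Real.log x ^ (k + 1) / (k + 1 : ℝ)) := by
      rw [Finset.sum_sub_distrib, tc_rec (k + 1) x, mul_sub, Finset.mul_sum]
      push_cast [Nat.factorial_succ]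
      have e2 : ∑ n ∈ Finset.Icc 1 ⌊x⌋₊, x / (n : ℝ) * Real.log (x / n) ^ k / (k.factorial : ℝ) =
          ∑ n ∈ Finset.Icc 1 ⌊x⌋₊,
            x / (k.factorial : ℝ) * (Real.log (x / (n : ℝ)) ^ k / (n : ℝ)) :=
        Finset.sum_congr rfl fun n _ => by ring
      have e3 : x * Real.log x ^ (k + 1) / (((k : ℝ) + 1) * (k.factorial : ℝ)) =
          x / (k.factorial : ℝ) * (Real.log x ^ (k + 1) / ((k : ℝ) + 1)) := by
        have : ((k : ℝ) + 1) ≠ 0 := by positivity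
        have : (k.factorial : ℝ) ≠ 0 := by positivity
        field_simp
      rw [e2, e3]
      ring
    rw [e1]
    refine (abs_add_le _ _).trans (add_le_add ?_ ?_)
    · refine (Finset.abs_sum_le_sum_abs _ _).trans (Finset.sum_le_sum fun n hn => ?_)
      exact hE _ (tc_n hx hn).2.2.1
    · rw [abs_mul]
      have h1 := tc_sum k hx
      have h2 : |x / (k.factorial : ℝ)| ≤ x := by
        rw [abs_of_nonneg (by positivity)]
        exact div_le_self (by linarith) hf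
      calc |x / (k.factorial : ℝ)| * _ ≤ x * (2 * (1 + Real.log x) ^ k) :=
            mul_le_mul h2 h1 (abs_nonneg _) (by linarith)
        _ = 2 * (x * (1 + Real.log x) ^ k) := by ring
  induction k with
  | zero =>
    refine ⟨3, by norm_num, fun x hx => ?_⟩
    have h1 := key 0 (fun _ => 1) x hx (fun y hy => by
      rw [tc_one (by linarith)]
      have h2 := Nat.floor_le (show 0 ≤ y by linarith)
      have h3 := Nat.lt_floor_add_one y
      simp only [pow_zero, mul_one, Nat.factorial_zero, Nat.cast_one, div_one]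
      rw [abs_le]
      constructor <;> linarith)
    refine h1.trans ?_
    have h2 := Nat.floor_le (show 0 ≤ x by linarith)
    simp only [Finset.sum_const, Nat.card_Icc, Nat.add_sub_cancel, nsmul_eq_mul, mul_one, pow_zero]
    linarith
  | succ k ih =>
    obtain ⟨C, hC, h⟩ := ih
    refine ⟨C + 2, by linarith, fun x hx => ?_⟩
    have hl : 0 ≤ Real.log x := Real.log_nonneg hx
    have h1 := key (k + 1) (fun y => C * (y * (1 + Real.log y) ^ k)) x hx h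
    refine h1.trans ?_
    have h2 : ∑ n ∈ Finset.Icc 1 ⌊x⌋₊, C * (x / n * (1 + Real.log (x / n)) ^ k) ≤
        C * (x * (1 + Real.log x) ^ (k + 1)) := by
      calc ∑ n ∈ Finset.Icc 1 ⌊x⌋₊, C * (x / n * (1 + Real.log (x / n)) ^ k)
          ≤ ∑ n ∈ Finset.Icc 1 ⌊x⌋₊, (C * (x * (1 + Real.log x) ^ k)) * (1 / (n : ℝ)) := by
            refine Finset.sum_le_sum fun n hn => ?_
            obtain ⟨h1, h2, h3, h4, h5⟩ := tc_n hx hn
            calc C * (x / n * (1 + Real.log (x / n)) ^ k)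
                ≤ C * (x / n * (1 + Real.log x) ^ k) := by gcongr
              _ = (C * (x * (1 + Real.log x) ^ k)) * (1 / (n : ℝ)) := by ring
        _ = (C * (x * (1 + Real.log x) ^ k)) * ∑ n ∈ Finset.Icc 1 ⌊x⌋₊, (1 : ℝ) / (n : ℝ) := by
            rw [Finset.mul_sum]
        _ ≤ (C * (x * (1 + Real.log x) ^ k)) * (1 + Real.log x) := by
            have := tc_harm hx
            gcongr
        _ = C * (x * (1 + Real.log x) ^ (k + 1)) := by ring
    calc ∑ n ∈ Finset.Icc 1 ⌊x⌋₊, C * (x / n * (1 + Real.log (x / n)) ^ k) +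
          2 * (x * (1 + Real.log x) ^ (k + 1))
        ≤ C * (x * (1 + Real.log x) ^ (k + 1)) + 2 * (x * (1 + Real.log x) ^ (k + 1)) := by
          linarith
      _ = (C + 2) * (x * (1 + Real.log x) ^ (k + 1)) := by ring

theorem TP_asymp (k : ℕ) : Tendsto (fun x : ℝ => (TP (k + 1) x : ℝ) / (x * Real.log x ^ k)) atTop
    (nhds (1 / (k.factorial : ℝ))) := by
  cases k with
  | zero =>
    simp only [zero_add, pow_zero, mul_one, Nat.factorial_zero, Nat.cast_one, div_one]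
    refine (tendsto_nat_floor_div_atTop (R := ℝ)).congr' ?_
    filter_upwards [eventually_ge_atTop (0 : ℝ)] with x hx
    rw [tc_one hx]
  | succ k =>
    obtain ⟨C, hC, h⟩ := tc_main k
    have h1 : Tendsto (fun x : ℝ => C * 2 ^ k / Real.log x) atTop (nhds 0) :=
      tendsto_const_nhds.div_atTop Real.tendsto_log_atTop
    rw [tendsto_iff_norm_sub_tendsto_zero]
    refine squeeze_zero' (Eventually.of_forall fun x => norm_nonneg _) ?_ h1
    filter_upwards [eventually_ge_atTop (Real.exp 1)] with x hx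
    have hx1 : (1 : ℝ) ≤ x := le_trans (by
      have := Real.add_one_le_exp (1 : ℝ)
      linarith) hx
    have hl : 1 ≤ Real.log x := by
      rw [Real.le_log_iff_exp_le (by linarith)]
      exact hx
    have hx0 : 0 < x := by linarith
    have hl0 : 0 < Real.log x := by linarith
    have hden : 0 < x * Real.log x ^ (k + 1) := by positivity
    have e1 : (TP (k + 1 + 1) x : ℝ) / (x * Real.log x ^ (k + 1)) -
        1 / ((k + 1).factorial : ℝ) = ((TP (k + 2) x : ℝ) -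
          x * Real.log x ^ (k + 1) / ((k + 1).factorial : ℝ)) / (x * Real.log x ^ (k + 1)) := by
      have : ((k + 1).factorial : ℝ) ≠ 0 := by positivity
      have := hden.ne'
      have := hx0.ne'
      have := hl0.ne'
      field_simp
    rw [e1, norm_div, Real.norm_eq_abs, Real.norm_of_nonneg hden.le, div_le_iff₀ hden]
    refine (h x hx1).trans ?_
    have h2 : (1 + Real.log x) ^ k ≤ 2 ^ k * Real.log x ^ k := by
      rw [← mul_pow]
      gcongr
      linarith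
    calc C * (x * (1 + Real.log x) ^ k) ≤ C * (x * (2 ^ k * Real.log x ^ k)) := by gcongr
      _ = C * 2 ^ k / Real.log x * (x * Real.log x ^ (k + 1)) := by
          have := hl0.ne'
          rw [pow_succ (Real.log x) k]
          field_simp

end Pool.Agent.H98.MK
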